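import Pool.Agent.Lib.MP_10e784_agF.KT2

/-! JOB KT3 -/

set_option autoImplicit false
set_option linter.unusedSectionVars false

open Classical

namespace FQQ

open Finset Polynomial FGO

private theorem KT3_per_sub {m q : ℕ} {φ : Vn m → V × V → ℝ} (h : Per3 q φ) (c : ℝ) :
    Per3 q fun f u => φ f u - c := by
  intro f g u u' h1 h2 h3
  simp only [h f g u u' h1 h2 h3]

private theorem KT3_mean {m p : ℕ} (hp : 0 < p) (φ : Vn m → V × V → ℝ) :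
    E3 m p (fun f u => φ f u - E3 m p φ) = 0 := by
  have e1 : (fun (f : Vn m) (u : V × V) => φ f u - E3 m p φ) =
      fun f u => φ f u + (fun (_ : Vn m) (_ : V × V) => -E3 m p φ) f u := by
    funext f u
    ring
  rw [e1, E3_add, E3_const hp, add_neg_cancel]

private theorem KT3_diag {m p : ℕ} (hp : 0 < p) (φ : Vn m → V × V → ℝ)
    (h01 : ∀ f u, φ f u = 0 ∨ φ f u = 1) :
    E3 m p (fun f u => (φ f u - E3 m p φ) * (φ f u - E3 m p φ)) ≤ E3 m p φ := by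
  obtain ⟨ρ, hρ⟩ : ∃ ρ, ρ = E3 m p φ := ⟨_, rfl⟩
  rw [← hρ]
  have e1 : (fun (f : Vn m) (u : V × V) => (φ f u - ρ) * (φ f u - ρ)) =
      fun f u => (fun (f : Vn m) (u : V × V) => (1 - 2 * ρ) * φ f u) f u +
        (fun (_ : Vn m) (_ : V × V) => ρ ^ 2) f u := by
    funext f u
    have h1 : φ f u * φ f u = φ f u := by
      rcases h01 f u with h | h <;> rw [h] <;> norm_num
    linear_combination h1
  rw [e1, E3_add, E3_smul, E3_const hp, ← hρ]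
  nlinarith [sq_nonneg ρ]

private theorem KT3_off {m p p' : ℕ} (hp : p.Prime) (hp' : p'.Prime) (hne : p ≠ p')
    {φ ψ : Vn m → V × V → ℝ} (hφ : Per3 p φ) (hψ : Per3 p' ψ) :
    E3 m (p * p') (fun f u => (φ f u - E3 m p φ) * (ψ f u - E3 m p' ψ)) = 0 := by
  rw [E3_mul hp.pos hp'.pos ((Nat.coprime_primes hp hp').2 hne) (KT3_per_sub hφ _)
    (KT3_per_sub hψ _), KT3_mean hp.pos, zero_mul]

private theorem KT3_S3_sum {m H N J : ℕ} {ι : Type} (Q : Finset ι)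
    (ψ : ι → Vn m → V × V → ℝ) :
    S3 m H N J (fun f u => ∑ a ∈ Q, ψ a f u) = ∑ a ∈ Q, S3 m H N J (ψ a) := by
  unfold S3
  calc ∑ u ∈ cube2 (4 * N * J), ∑ f ∈ cubeN m (4 * H * J),
        WN J (4 * H * J) f * (W J (4 * N * J) u.1 * W J (4 * N * J) u.2) * ∑ a ∈ Q, ψ a f u
      = ∑ u ∈ cube2 (4 * N * J), ∑ a ∈ Q, ∑ f ∈ cubeN m (4 * H * J),
        WN J (4 * H * J) f * (W J (4 * N * J) u.1 * W J (4 * N * J) u.2) * ψ a f u := by
        refine Finset.sum_congr rfl fun u _ => ?_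
        rw [Finset.sum_comm]
        refine Finset.sum_congr rfl fun f _ => ?_
        rw [Finset.mul_sum]
    _ = _ := Finset.sum_comm

/-- (variance) Proof. (Model: `FGO.variance`.) `φ = (∑_{p ∈ Q} (i p - ρ_p))²` with `ρ_p = E3 m p (i p)`, `J = ∏_{p ∈ Q} p`; `box_le_S3`. `S3` is additive in `φ`; expand the square. For `p ≠ p'` the function
`(i p - ρ_p)(i p' - ρ_p')` is periodic modulo `p p' ≤ 4N` and has mean value `0` (`E3_mul`); for `p = p'` the mean value is `ρ_p - ρ_p² ≤ ρ_p` (`(i p)² = i p`). `S3_eq` (`q = p p'` resp. `q = p ≤ p² ≤ 4N`). -/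
theorem variance3 {m H N : ℕ} (hN : 0 < N) (hH : N ≤ H) (Q : Finset ℕ) (hQ : ∀ p ∈ Q, p.Prime)
    (hQ2 : ∀ p ∈ Q, ∀ p' ∈ Q, p * p' ≤ 4 * N) (i : ℕ → Vn m → V × V → ℝ) (hi : ∀ p ∈ Q, Per3 p (i p))
    (h01 : ∀ p ∈ Q, ∀ f u, i p f u = 0 ∨ i p f u = 1) :
    ∑ u ∈ box2 N, ∑ f ∈ boxN m H, (∑ p ∈ Q, (i p f u - E3 m p (i p))) ^ 2 ≤
      (8 * (H : ℝ)) ^ (m + 1) * (8 * (N : ℝ)) ^ 6 * ∑ p ∈ Q, E3 m p (i p) := by
  have hH0 : 0 < H := by omega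
  obtain ⟨J, hJdef⟩ : ∃ J, J = ∏ p ∈ Q, p := ⟨_, rfl⟩
  have hJ : 0 < J := by
    rw [hJdef]
    exact Finset.prod_pos fun p hp => (hQ p hp).pos
  have hdJ : ∀ p ∈ Q, p ∣ J := fun p hp => by
    rw [hJdef]
    exact Finset.dvd_prod_of_mem (fun p => p) hp
  obtain ⟨g, hg⟩ : ∃ g : ℕ → Vn m → V × V → ℝ, g = fun p f u => i p f u - E3 m p (i p) := ⟨_, rfl⟩
  have hgper : ∀ p ∈ Q, Per3 p (g p) := fun p hp => by
    rw [hg]
    exact KT3_per_sub (hi p hp) _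
  have hfper : Per3 J (fun f u => (∑ p ∈ Q, g p f u) ^ 2) := by
    intro f f' u u' h1 h2 h3
    have : ∑ p ∈ Q, g p f u = ∑ p ∈ Q, g p f' u' :=
      Finset.sum_congr rfl fun p hp => (hgper p hp).mono (hdJ p hp) f f' u u' h1 h2 h3
    simp only [this]
  have hbox := box_le_S3 hN hH0 hJ (fun f u => (∑ p ∈ Q, g p f u) ^ 2) (fun f u => sq_nonneg _) hfper
  have e0 : ∑ u ∈ box2 N, ∑ f ∈ boxN m H, (∑ p ∈ Q, (i p f u - E3 m p (i p))) ^ 2 =
      ∑ u ∈ box2 N, ∑ f ∈ boxN m H, (fun f u => (∑ p ∈ Q, g p f u) ^ 2) f u := by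
    rw [hg]
  rw [e0]
  refine hbox.trans ?_
  have hterm : ∀ p ∈ Q, ∀ p' ∈ Q, S3 m H N J (fun f u => g p f u * g p' f u) ≤
      if p = p' then (8 * (H : ℝ)) ^ (m + 1) * (8 * (N : ℝ)) ^ 6 * E3 m p (i p) else 0 := by
    intro p hp p' hp'
    split_ifs with hpp
    · subst hpp
      have hle : p ≤ 4 * N := (Nat.le_mul_of_pos_left p (hQ p hp).pos).trans (hQ2 p hp p hp)
      have h := S3_eq hN hH hJ (hQ p hp).pos (hdJ p hp) hle (fun f u => g p f u * g p f u) (by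
        intro f f' u u' h1 h2 h3
        have := hgper p hp f f' u u' h1 h2 h3
        simp only [this])
      rw [h]
      have h2 : E3 m p (fun f u => g p f u * g p f u) ≤ E3 m p (i p) := by
        rw [hg]
        exact KT3_diag (hQ p hp).pos (i p) (h01 p hp)
      exact mul_le_mul_of_nonneg_left h2 (by positivity)
    · have hcop : p.Coprime p' := (Nat.coprime_primes (hQ p hp) (hQ p' hp')).2 hpp
      have h := S3_eq hN hH hJ (Nat.mul_pos (hQ p hp).pos (hQ p' hp').pos)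
        (hcop.mul_dvd_of_dvd_of_dvd (hdJ p hp) (hdJ p' hp')) (hQ2 p hp p' hp')
        (fun f u => g p f u * g p' f u) ((hgper p hp).mul (hgper p' hp'))
      rw [h]
      have h3 : E3 m (p * p') (fun f u => g p f u * g p' f u) = 0 := by
        rw [hg]
        exact KT3_off (hQ p hp) (hQ p' hp') hpp (hi p hp) (hi p' hp')
      rw [h3, mul_zero]
  have e2 : (fun (f : Vn m) (u : V × V) => (∑ p ∈ Q, g p f u) ^ 2) =
      fun f u => ∑ p ∈ Q, (fun (p : ℕ) (f : Vn m) (u : V × V) => ∑ p' ∈ Q, g p f u * g p' f u) p f u := by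
    funext f u
    rw [sq, Finset.sum_mul_sum]
  rw [e2, KT3_S3_sum]
  calc ∑ p ∈ Q, S3 m H N J (fun f u => ∑ p' ∈ Q, g p f u * g p' f u)
      = ∑ p ∈ Q, ∑ p' ∈ Q, S3 m H N J (fun f u => g p f u * g p' f u) :=
        Finset.sum_congr rfl fun p _ => KT3_S3_sum Q (fun p' f u => g p f u * g p' f u)
    _ ≤ ∑ p ∈ Q, ∑ p' ∈ Q, if p = p' then
          (8 * (H : ℝ)) ^ (m + 1) * (8 * (N : ℝ)) ^ 6 * E3 m p (i p) else 0 :=
        Finset.sum_le_sum fun p hp => Finset.sum_le_sum fun p' hp' => hterm p hp p' hp'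
    _ = ∑ p ∈ Q, (8 * (H : ℝ)) ^ (m + 1) * (8 * (N : ℝ)) ^ 6 * E3 m p (i p) := by
        refine Finset.sum_congr rfl fun p hp => ?_
        rw [Finset.sum_ite_eq]
        simp [hp]
    _ = (8 * (H : ℝ)) ^ (m + 1) * (8 * (N : ℝ)) ^ 6 * ∑ p ∈ Q, E3 m p (i p) := by
        rw [Finset.mul_sum]

/-- (Chebyshev, deviation) Proof. If the number `n = ∑_{p ∈ Q} i p f u` differs from `μ = ∑ ρ_p` by at least `T > 0` then the square is `≥ T²`. Divide `variance3` by `T²`. -/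
theorem cheb3 {m H N : ℕ} (hN : 0 < N) (hH : N ≤ H) (Q : Finset ℕ) (hQ : ∀ p ∈ Q, p.Prime)
    (hQ2 : ∀ p ∈ Q, ∀ p' ∈ Q, p * p' ≤ 4 * N) (i : ℕ → Vn m → V × V → ℝ) (hi : ∀ p ∈ Q, Per3 p (i p))
    (h01 : ∀ p ∈ Q, ∀ f u, i p f u = 0 ∨ i p f u = 1) (T : ℝ) (hT : 0 < T) :
    ((((boxN m H) ×ˢ (box2 N)).filter fun g =>
      T ≤ |∑ p ∈ Q, i p g.1 g.2 - ∑ p ∈ Q, E3 m p (i p)|).card : ℝ) ≤
      (8 * (H : ℝ)) ^ (m + 1) * (8 * (N : ℝ)) ^ 6 * (∑ p ∈ Q, E3 m p (i p)) / T ^ 2 := by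
  have hv := variance3 hN hH Q hQ hQ2 i hi h01
  rw [le_div_iff₀ (by positivity)]
  refine le_trans ?_ hv
  have h1 : ∑ u ∈ box2 N, ∑ f ∈ boxN m H, (∑ p ∈ Q, (i p f u - E3 m p (i p))) ^ 2 =
      ∑ g ∈ (boxN m H) ×ˢ (box2 N), (∑ p ∈ Q, (i p g.1 g.2 - E3 m p (i p))) ^ 2 := by
    rw [Finset.sum_product_right]
  rw [h1]
  have h2 : ∑ g ∈ ((boxN m H) ×ˢ (box2 N)).filter (fun g =>
      T ≤ |∑ p ∈ Q, i p g.1 g.2 - ∑ p ∈ Q, E3 m p (i p)|), T ^ 2 ≤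
      ∑ g ∈ (boxN m H) ×ˢ (box2 N), (∑ p ∈ Q, (i p g.1 g.2 - E3 m p (i p))) ^ 2 := by
    refine (Finset.sum_le_sum fun g hg => ?_).trans
      (Finset.sum_le_sum_of_subset_of_nonneg (Finset.filter_subset _ _) fun g _ _ => sq_nonneg _)
    have h3 := (Finset.mem_filter.1 hg).2
    rw [Finset.sum_sub_distrib, ← sq_abs (∑ p ∈ Q, i p g.1 g.2 - _)]
    exact pow_le_pow_left₀ hT.le h3 2
  rw [Finset.sum_const, nsmul_eq_mul] at h2
  exact h2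

end FQQ
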