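import Pool.Agent.Lib.MP_10e784_agF.LE

/-! JOB LF -/

set_option autoImplicit false

open Classical

namespace FQQ

open Finset Polynomial FGO

private theorem LF_ind3 (a b c : Prop) : ind (a ∧ b ∧ c) = ind a * ind b * ind c := by
  unfold ind
  by_cases ha : a <;> by_cases hb : b <;> by_cases hc : c <;> simp [ha, hb, hc]

private theorem LF_ind_true : ind True = 1 := by
  unfold ind
  rw [if_pos trivial]

/-- independence for three events -/
private theorem LF_prod (m p : ℕ) [Fact p.Prime] (A : (Fin (m + 1) → ZMod p) → Prop) (B C : ZMod p × ZMod p × ZMod p → Prop) :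
    Av m p (fun f v w => ind (A f ∧ B v ∧ C w)) =
      mF m p (fun f => ind (A f)) * mQ p (fun v => ind (B v)) * mQ p (fun w => ind (C w)) := by
  rw [← Av_prod]
  simp only [LF_ind3]

private theorem LF_F1 (m p : ℕ) [Fact p.Prime] : mF m p (fun _ => ind True) = 1 := by
  rw [LF_ind_true]
  exact mF_const m p 1

private theorem LF_Q1 (p : ℕ) [Fact p.Prime] : mQ p (fun _ => ind True) = 1 := by
  rw [LF_ind_true]
  exact mQ_const p 1

private theorem LF_F2 (m p : ℕ) [Fact p.Prime] (hm : 1 ≤ m) (P P' : Option (ZMod p)) :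
    mF m p (fun f => ind (hv f (pt P).1 (pt P).2 = 0 ∧ hv f (pt P').1 (pt P').2 = 0)) =
      if P = P' then 1 / (p : ℝ) else 1 / (p : ℝ) ^ 2 := by
  by_cases h : P = P'
  · subst h
    rw [if_pos rfl]
    simp only [and_self_iff]
    exact mF_root m p _ _ (pt_ne P)
  · rw [if_neg h]
    exact mF_root2 m p hm P P' h

private theorem LF_Q2 (p : ℕ) [Fact p.Prime] (P P' : Option (ZMod p)) :
    mQ p (fun v => ind (qv v (pt P).1 (pt P).2 = 0 ∧ qv v (pt P').1 (pt P').2 = 0)) =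
      if P = P' then 1 / (p : ℝ) else 1 / (p : ℝ) ^ 2 := by
  by_cases h : P = P'
  · subst h
    rw [if_pos rfl]
    simp only [and_self_iff]
    exact mQ_root p _ _ (pt_ne P)
  · rw [if_neg h]
    exact mQ_root2 p P P' h

private theorem LF_Z0_0 {F : Type} [Field F] {m : ℕ} (f : Fin (m + 1) → F) (v w : F × F × F) (P : Option F) :
    Z0 f v w 0 P ↔ qv v (pt P).1 (pt P).2 = 0 ∧ qv w (pt P).1 (pt P).2 = 0 := by
  unfold Z0
  constructor
  · intro h
    exact ⟨h 1 (by decide), h 2 (by decide)⟩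
  · rintro ⟨h1, h2⟩ j hj
    fin_cases j
    · exact absurd rfl hj
    · exact h1
    · exact h2

private theorem LF_Z0_1 {F : Type} [Field F] {m : ℕ} (f : Fin (m + 1) → F) (v w : F × F × F) (P : Option F) :
    Z0 f v w 1 P ↔ hv f (pt P).1 (pt P).2 = 0 ∧ qv w (pt P).1 (pt P).2 = 0 := by
  unfold Z0
  constructor
  · intro h
    exact ⟨h 0 (by decide), h 2 (by decide)⟩
  · rintro ⟨h1, h2⟩ j hj
    fin_cases j
    · exact h1
    · exact absurd rfl hj
    · exact h2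

private theorem LF_Z0_2 {F : Type} [Field F] {m : ℕ} (f : Fin (m + 1) → F) (v w : F × F × F) (P : Option F) :
    Z0 f v w 2 P ↔ hv f (pt P).1 (pt P).2 = 0 ∧ qv v (pt P).1 (pt P).2 = 0 := by
  unfold Z0
  constructor
  · intro h
    exact ⟨h 0 (by decide), h 1 (by decide)⟩
  · rintro ⟨h1, h2⟩ j hj
    fin_cases j
    · exact h1
    · exact h2
    · exact absurd rfl hj

private theorem LF_ind_congr {a b : Prop} (h : a ↔ b) : ind a = ind b := by
  rw [propext h]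

private theorem LF_01 (m p : ℕ) [Fact p.Prime] (P P' : Option (ZMod p)) :
    Av m p (fun f v w => ind (Z0 f v w 0 P ∧ Z0 f v w 1 P')) = if P = P' then 1 / (p : ℝ) ^ 3 else 1 / (p : ℝ) ^ 4 := by
  have h1 : (fun (f : Fin (m + 1) → ZMod p) (v w : ZMod p × ZMod p × ZMod p) => ind (Z0 f v w 0 P ∧ Z0 f v w 1 P')) =
      fun f v w => ind (hv f (pt P').1 (pt P').2 = 0 ∧ qv v (pt P).1 (pt P).2 = 0 ∧
        (qv w (pt P).1 (pt P).2 = 0 ∧ qv w (pt P').1 (pt P').2 = 0)) := by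
    funext f v w
    refine LF_ind_congr ?_
    rw [LF_Z0_0, LF_Z0_1]
    tauto
  rw [h1, LF_prod m p (fun f => hv f (pt P').1 (pt P').2 = 0) (fun v => qv v (pt P).1 (pt P).2 = 0)
    (fun w => qv w (pt P).1 (pt P).2 = 0 ∧ qv w (pt P').1 (pt P').2 = 0), LF_Q2, mF_root m p _ _ (pt_ne P'),
    mQ_root p _ _ (pt_ne P)]
  split_ifs <;> ring

private theorem LF_02 (m p : ℕ) [Fact p.Prime] (P P' : Option (ZMod p)) :
    Av m p (fun f v w => ind (Z0 f v w 0 P ∧ Z0 f v w 2 P')) = if P = P' then 1 / (p : ℝ) ^ 3 else 1 / (p : ℝ) ^ 4 := by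
  have h1 : (fun (f : Fin (m + 1) → ZMod p) (v w : ZMod p × ZMod p × ZMod p) => ind (Z0 f v w 0 P ∧ Z0 f v w 2 P')) =
      fun f v w => ind (hv f (pt P').1 (pt P').2 = 0 ∧ (qv v (pt P).1 (pt P).2 = 0 ∧ qv v (pt P').1 (pt P').2 = 0) ∧
        qv w (pt P).1 (pt P).2 = 0) := by
    funext f v w
    refine LF_ind_congr ?_
    rw [LF_Z0_0, LF_Z0_2]
    tauto
  rw [h1, LF_prod m p (fun f => hv f (pt P').1 (pt P').2 = 0)
    (fun v => qv v (pt P).1 (pt P).2 = 0 ∧ qv v (pt P').1 (pt P').2 = 0)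
    (fun w => qv w (pt P).1 (pt P).2 = 0), LF_Q2, mF_root m p _ _ (pt_ne P'),
    mQ_root p _ _ (pt_ne P)]
  split_ifs <;> ring

private theorem LF_12 (m p : ℕ) [Fact p.Prime] (hm : 1 ≤ m) (P P' : Option (ZMod p)) :
    Av m p (fun f v w => ind (Z0 f v w 1 P ∧ Z0 f v w 2 P')) = if P = P' then 1 / (p : ℝ) ^ 3 else 1 / (p : ℝ) ^ 4 := by
  have h1 : (fun (f : Fin (m + 1) → ZMod p) (v w : ZMod p × ZMod p × ZMod p) => ind (Z0 f v w 1 P ∧ Z0 f v w 2 P')) =
      fun f v w => ind ((hv f (pt P).1 (pt P).2 = 0 ∧ hv f (pt P').1 (pt P').2 = 0) ∧ qv v (pt P').1 (pt P').2 = 0 ∧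
        qv w (pt P).1 (pt P).2 = 0) := by
    funext f v w
    refine LF_ind_congr ?_
    rw [LF_Z0_1, LF_Z0_2]
    tauto
  rw [h1, LF_prod m p (fun f => hv f (pt P).1 (pt P).2 = 0 ∧ hv f (pt P').1 (pt P').2 = 0)
    (fun v => qv v (pt P').1 (pt P').2 = 0)
    (fun w => qv w (pt P).1 (pt P).2 = 0), LF_F2 m p hm, mQ_root p _ _ (pt_ne P'),
    mQ_root p _ _ (pt_ne P)]
  split_ifs <;> ring

private theorem LF_swap {m p : ℕ} [Fact p.Prime] {i j : Fin 3}
    (h : ∀ P P' : Option (ZMod p), Av m p (fun f v w => ind (Z0 f v w i P ∧ Z0 f v w j P')) =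
      if P = P' then 1 / (p : ℝ) ^ 3 else 1 / (p : ℝ) ^ 4) (P P' : Option (ZMod p)) :
    Av m p (fun f v w => ind (Z0 f v w j P ∧ Z0 f v w i P')) = if P = P' then 1 / (p : ℝ) ^ 3 else 1 / (p : ℝ) ^ 4 := by
  have h1 := h P' P
  simp only [and_comm (a := Z0 _ _ _ i P'), eq_comm (a := P')] at h1
  exact h1

private theorem LF_ZZ (m p : ℕ) [Fact p.Prime] (hm : 1 ≤ m) (i j : Fin 3) (hij : i ≠ j) (P P' : Option (ZMod p)) :
    Av m p (fun f v w => ind (Z0 f v w i P ∧ Z0 f v w j P')) = if P = P' then 1 / (p : ℝ) ^ 3 else 1 / (p : ℝ) ^ 4 := by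
  fin_cases i <;> fin_cases j
  · exact absurd rfl hij
  · exact LF_01 m p P P'
  · exact LF_02 m p P P'
  · exact LF_swap (LF_01 m p) P P'
  · exact absurd rfl hij
  · exact LF_12 m p hm P P'
  · exact LF_swap (LF_02 m p) P P'
  · exact LF_swap (LF_12 m p hm) P P'
  · exact absurd rfl hij

/-- union bound -/
private theorem LF_ind_le_sum {ι : Type} (s : Finset ι) (A : Prop) (B : ι → Prop) (h : A → ∃ i ∈ s, B i) :
    ind A ≤ ∑ i ∈ s, ind (B i) := by
  by_cases hA : A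
  · obtain ⟨i, hi, hB⟩ := h hA
    have h1 : ind (B i) ≤ ∑ i ∈ s, ind (B i) := Finset.single_le_sum (fun i _ => ind_nonneg (B i)) hi
    refine le_trans ?_ h1
    exact ind_mono fun _ => hB
  · have h1 : ind A = 0 := by
      unfold ind
      rw [if_neg hA]
    rw [h1]
    exact Finset.sum_nonneg fun i _ => ind_nonneg (B i)

private theorem LF_p {p : ℕ} [Fact p.Prime] : (2 : ℝ) ≤ (p : ℝ) := by
  exact_mod_cast (Fact.out : p.Prime).two_le

private theorem LF_card (p : ℕ) [Fact p.Prime] : ((Finset.univ : Finset (Option (ZMod p))).card : ℝ) = (p : ℝ) + 1 := by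
  rw [Finset.card_univ, Fintype.card_option, ZMod.card]
  push_cast
  ring

/-- Proof. Let `i ≠ j`, `k` the third index. The form `k` vanishes at `P` and at `P'`, the form `j` at `P`, the form `i` at `P'` (where `Z0 i P`, `Z0 j P'`). Union bound: `P = P'`: `(p+1)/p³`; `P ≠ P'`: `(p+1) p / p⁴`; total
`2 (p+1)/p³ ≤ 3/p²`. (`fin_cases i, j`, or treat the three pairs separately; `Av_prod`.) -/
theorem Av_EE (m p : ℕ) [Fact p.Prime] (hm : 1 ≤ m) (i j : Fin 3) (h : i ≠ j) :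
    Av m p (fun f v w => ind (E f v w i ∧ E f v w j)) ≤ 3 / (p : ℝ) ^ 2 := by
  have h1 : Av m p (fun f v w => ind (E f v w i ∧ E f v w j)) ≤
      Av m p (fun f v w => ∑ q ∈ (Finset.univ : Finset (Option (ZMod p) × Option (ZMod p))),
        ind (Z0 f v w i q.1 ∧ Z0 f v w j q.2)) := by
    refine Av_mono m p _ _ fun f v w => ?_
    refine LF_ind_le_sum _ _ (fun q : Option (ZMod p) × Option (ZMod p) => Z0 f v w i q.1 ∧ Z0 f v w j q.2) ?_
    rintro ⟨hi, hj⟩
    obtain ⟨P, hP⟩ := (E_iff f v w i).1 hi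
    obtain ⟨P', hP'⟩ := (E_iff f v w j).1 hj
    exact ⟨(P, P'), Finset.mem_univ _, hP, hP'⟩
  refine h1.trans ?_
  rw [Av_sum]
  simp only [LF_ZZ m p hm i j h]
  rw [Fintype.sum_prod_type]
  have h2 : ∀ P P' : Option (ZMod p), (if P = P' then 1 / (p : ℝ) ^ 3 else 1 / (p : ℝ) ^ 4) =
      1 / (p : ℝ) ^ 4 + if P = P' then 1 / (p : ℝ) ^ 3 - 1 / (p : ℝ) ^ 4 else 0 := by
    intro P P'
    split_ifs <;> ring
  simp only [h2, Finset.sum_add_distrib, Finset.sum_const, Finset.sum_ite_eq, Finset.mem_univ, if_true, nsmul_eq_mul,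
    LF_card]
  have hp := LF_p (p := p)
  have hp0 : (0 : ℝ) < p := by linarith
  have h3 : ((p : ℝ) + 1) * (((p : ℝ) + 1) * (1 / (p : ℝ) ^ 4)) + ((p : ℝ) + 1) * (1 / (p : ℝ) ^ 3 - 1 / (p : ℝ) ^ 4) =
      2 * ((p : ℝ) + 1) / (p : ℝ) ^ 3 := by
    field_simp
    ring
  rw [h3, div_le_div_iff₀ (by positivity) (by positivity)]
  nlinarith [pow_pos hp0 2]

private theorem LF_DZ (m p : ℕ) [Fact p.Prime] (h2 : p ≠ 2) (i : Fin 3) (j : Fin 2) (P : Option (ZMod p)) :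
    Av m p (fun f v w => ind (Dc v w j = 0 ∧ Z0 f v w i P)) = 1 / (p : ℝ) ^ 3 := by
  fin_cases j <;> fin_cases i
  · have h1 : (fun (f : Fin (m + 1) → ZMod p) (v w : ZMod p × ZMod p × ZMod p) => ind (Dc v w 0 = 0 ∧ Z0 f v w 0 P)) =
        fun f v w => ind (True ∧ (ds v = 0 ∧ qv v (pt P).1 (pt P).2 = 0) ∧ qv w (pt P).1 (pt P).2 = 0) := by
      funext f v w
      refine LF_ind_congr ?_
      rw [LF_Z0_0]
      change (ds v = 0 ∧ _) ↔ _
      tauto
    refine (congrArg (Av m p) h1).trans ?_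
    rw [LF_prod m p (fun f => True) (fun v => ds v = 0 ∧ qv v (pt P).1 (pt P).2 = 0)
      (fun w => qv w (pt P).1 (pt P).2 = 0), LF_F1, mQ_root p _ _ (pt_ne P), mQ_disc_root p h2 P]
    ring
  · have h1 : (fun (f : Fin (m + 1) → ZMod p) (v w : ZMod p × ZMod p × ZMod p) => ind (Dc v w 0 = 0 ∧ Z0 f v w 1 P)) =
        fun f v w => ind (hv f (pt P).1 (pt P).2 = 0 ∧ ds v = 0 ∧ qv w (pt P).1 (pt P).2 = 0) := by
      funext f v w
      refine LF_ind_congr ?_
      rw [LF_Z0_1]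
      change (ds v = 0 ∧ _) ↔ _
      tauto
    refine (congrArg (Av m p) h1).trans ?_
    rw [LF_prod m p (fun f => hv f (pt P).1 (pt P).2 = 0) (fun v => ds v = 0)
      (fun w => qv w (pt P).1 (pt P).2 = 0), mF_root m p _ _ (pt_ne P), mQ_root p _ _ (pt_ne P), mQ_disc p h2]
    ring
  · have h1 : (fun (f : Fin (m + 1) → ZMod p) (v w : ZMod p × ZMod p × ZMod p) => ind (Dc v w 0 = 0 ∧ Z0 f v w 2 P)) =
        fun f v w => ind (hv f (pt P).1 (pt P).2 = 0 ∧ (ds v = 0 ∧ qv v (pt P).1 (pt P).2 = 0) ∧ True) := by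
      funext f v w
      refine LF_ind_congr ?_
      rw [LF_Z0_2]
      change (ds v = 0 ∧ _) ↔ _
      tauto
    refine (congrArg (Av m p) h1).trans ?_
    rw [LF_prod m p (fun f => hv f (pt P).1 (pt P).2 = 0) (fun v => ds v = 0 ∧ qv v (pt P).1 (pt P).2 = 0)
      (fun w => True), mF_root m p _ _ (pt_ne P), LF_Q1, mQ_disc_root p h2 P]
    ring
  · have h1 : (fun (f : Fin (m + 1) → ZMod p) (v w : ZMod p × ZMod p × ZMod p) => ind (Dc v w 1 = 0 ∧ Z0 f v w 0 P)) =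
        fun f v w => ind (True ∧ qv v (pt P).1 (pt P).2 = 0 ∧ (ds w = 0 ∧ qv w (pt P).1 (pt P).2 = 0)) := by
      funext f v w
      refine LF_ind_congr ?_
      rw [LF_Z0_0]
      change (ds w = 0 ∧ _) ↔ _
      tauto
    refine (congrArg (Av m p) h1).trans ?_
    rw [LF_prod m p (fun f => True) (fun v => qv v (pt P).1 (pt P).2 = 0)
      (fun w => ds w = 0 ∧ qv w (pt P).1 (pt P).2 = 0), LF_F1, mQ_root p _ _ (pt_ne P), mQ_disc_root p h2 P]
    ring
  · have h1 : (fun (f : Fin (m + 1) → ZMod p) (v w : ZMod p × ZMod p × ZMod p) => ind (Dc v w 1 = 0 ∧ Z0 f v w 1 P)) =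
        fun f v w => ind (hv f (pt P).1 (pt P).2 = 0 ∧ True ∧ (ds w = 0 ∧ qv w (pt P).1 (pt P).2 = 0)) := by
      funext f v w
      refine LF_ind_congr ?_
      rw [LF_Z0_1]
      change (ds w = 0 ∧ _) ↔ _
      tauto
    refine (congrArg (Av m p) h1).trans ?_
    rw [LF_prod m p (fun f => hv f (pt P).1 (pt P).2 = 0) (fun v => True)
      (fun w => ds w = 0 ∧ qv w (pt P).1 (pt P).2 = 0), mF_root m p _ _ (pt_ne P), LF_Q1, mQ_disc_root p h2 P]
    ring
  · have h1 : (fun (f : Fin (m + 1) → ZMod p) (v w : ZMod p × ZMod p × ZMod p) => ind (Dc v w 1 = 0 ∧ Z0 f v w 2 P)) =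
        fun f v w => ind (hv f (pt P).1 (pt P).2 = 0 ∧ qv v (pt P).1 (pt P).2 = 0 ∧ ds w = 0) := by
      funext f v w
      refine LF_ind_congr ?_
      rw [LF_Z0_2]
      change (ds w = 0 ∧ _) ↔ _
      tauto
    refine (congrArg (Av m p) h1).trans ?_
    rw [LF_prod m p (fun f => hv f (pt P).1 (pt P).2 = 0) (fun v => qv v (pt P).1 (pt P).2 = 0)
      (fun w => ds w = 0), mF_root m p _ _ (pt_ne P), mQ_root p _ _ (pt_ne P), mQ_disc p h2]
    ring

/-- Proof. If the form `j.succ` has index `i` (it does not enter in `E i`): independent, `(1/p)(1/p + 1/p²) ≤ 2/p²`. Otherwise: for each `P`, `ds = 0` and the form vanishes at `P`: `1/p²` (`mQ_disc_root`), the other form vanishes at `P`: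
`1/p`: union bound `(p + 1)/p³ ≤ 2/p²`. -/
theorem Av_DE (m p : ℕ) [Fact p.Prime] (h2 : p ≠ 2) (i : Fin 3) (j : Fin 2) :
    Av m p (fun f v w => ind (Dc v w j = 0 ∧ E f v w i)) ≤ 2 / (p : ℝ) ^ 2 := by
  have h1 : Av m p (fun f v w => ind (Dc v w j = 0 ∧ E f v w i)) ≤
      Av m p (fun f v w => ∑ P ∈ (Finset.univ : Finset (Option (ZMod p))), ind (Dc v w j = 0 ∧ Z0 f v w i P)) := by
    refine Av_mono m p _ _ fun f v w => ?_
    refine LF_ind_le_sum _ _ (fun P => Dc v w j = 0 ∧ Z0 f v w i P) ?_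
    rintro ⟨hj, hi⟩
    obtain ⟨P, hP⟩ := (E_iff f v w i).1 hi
    exact ⟨P, Finset.mem_univ _, hj, hP⟩
  refine h1.trans ?_
  rw [Av_sum]
  simp only [LF_DZ m p h2 i j]
  rw [Finset.sum_const, nsmul_eq_mul, LF_card]
  have hp := LF_p (p := p)
  have hp0 : (0 : ℝ) < p := by linarith
  rw [mul_one_div, div_le_div_iff₀ (by positivity) (by positivity)]
  nlinarith [pow_pos hp0 2]

theorem Av_DD (m p : ℕ) [Fact p.Prime] (h2 : p ≠ 2) :
    Av m p (fun _ v w => ind (Dc v w 0 = 0 ∧ Dc v w 1 = 0)) = 1 / (p : ℝ) ^ 2 := by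
  have h1 : (fun (_ : Fin (m + 1) → ZMod p) (v w : ZMod p × ZMod p × ZMod p) => ind (Dc v w 0 = 0 ∧ Dc v w 1 = 0)) =
      fun f v w => ind (True ∧ ds v = 0 ∧ ds w = 0) := by
    funext f v w
    refine LF_ind_congr ?_
    change (ds v = 0 ∧ ds w = 0) ↔ _
    tauto
  rw [h1, LF_prod m p (fun f => True) (fun v => ds v = 0) (fun w => ds w = 0), LF_F1, mQ_disc p h2]
  ring

theorem Av_D (m p : ℕ) [Fact p.Prime] (h2 : p ≠ 2) (j : Fin 2) :
    Av m p (fun _ v w => ind (Dc v w j = 0)) = 1 / (p : ℝ) := by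
  fin_cases j
  · have h1 : (fun (_ : Fin (m + 1) → ZMod p) (v w : ZMod p × ZMod p × ZMod p) => ind (Dc v w 0 = 0)) =
        fun f v w => ind (True ∧ ds v = 0 ∧ True) := by
      funext f v w
      refine LF_ind_congr ?_
      change (ds v = 0) ↔ _
      tauto
    refine (congrArg (Av m p) h1).trans ?_
    rw [LF_prod m p (fun f => True) (fun v => ds v = 0) (fun w => True), LF_F1, LF_Q1, mQ_disc p h2]
    ring
  · have h1 : (fun (_ : Fin (m + 1) → ZMod p) (v w : ZMod p × ZMod p × ZMod p) => ind (Dc v w 1 = 0)) =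
        fun f v w => ind (True ∧ True ∧ ds w = 0) := by
      funext f v w
      refine LF_ind_congr ?_
      change (ds w = 0) ↔ _
      tauto
    refine (congrArg (Av m p) h1).trans ?_
    rw [LF_prod m p (fun f => True) (fun v => True) (fun w => ds w = 0), LF_F1, LF_Q1, mQ_disc p h2]
    ring

private theorem LF_bonf (a b c d e : Prop) :
    ind a + ind b + ind c + ind d + ind e ≤ ind (a ∨ b ∨ c ∨ d ∨ e) +
      (ind (a ∧ b) + ind (a ∧ c) + ind (b ∧ c) + ind (d ∧ a) + ind (d ∧ b) + ind (d ∧ c) +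
        ind (e ∧ a) + ind (e ∧ b) + ind (e ∧ c) + ind (d ∧ e)) := by
  unfold ind
  by_cases ha : a <;> by_cases hb : b <;> by_cases hc : c <;> by_cases hd : d <;> by_cases he : e <;>
    simp [ha, hb, hc, hd, he] <;> norm_num

private theorem LF_union (a b c d e : Prop) :
    ind (a ∨ b ∨ c ∨ d ∨ e) ≤ ind a + ind b + ind c + ind d + ind e := by
  unfold ind
  by_cases ha : a <;> by_cases hb : b <;> by_cases hc : c <;> by_cases hd : d <;> by_cases he : e <;>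
    simp [ha, hb, hc, hd, he] <;> norm_num

private theorem LF_Em {F : Type} [Field F] {m : ℕ} (f : Fin (m + 1) → F) (v w : F × F × F) :
    Em f v w ↔ E f v w 0 ∨ E f v w 1 ∨ E f v w 2 ∨ Dc v w 0 = 0 ∨ Dc v w 1 = 0 := by
  unfold Em
  constructor
  · rintro (⟨i, hi⟩ | ⟨j, hj⟩)
    · fin_cases i
      · exact Or.inl hi
      · exact Or.inr (Or.inl hi)
      · exact Or.inr (Or.inr (Or.inl hi))
    · fin_cases j
      · exact Or.inr (Or.inr (Or.inr (Or.inl hj)))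
      · exact Or.inr (Or.inr (Or.inr (Or.inr hj)))
  · rintro (h | h | h | h | h)
    · exact Or.inl ⟨0, h⟩
    · exact Or.inl ⟨1, h⟩
    · exact Or.inl ⟨2, h⟩
    · exact Or.inr ⟨0, h⟩
    · exact Or.inr ⟨1, h⟩

/-- Proof. Bonferroni for the five events: `ind Em ≥ ∑ (five indicators) - ∑ (ten pairs)`, and `ind Em ≤ ∑`. Lower bound: `5/p - (3·3 + 6·2 + 1)/p² = 5/p - 22/p²`. Upper bound `3(1/p + 1/p²) + 2/p ≤ 6/p` (`p ≥ 3`). -/
theorem Av_Em (m p : ℕ) [Fact p.Prime] (hm : 1 ≤ m) (h2 : p ≠ 2) :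
    5 / (p : ℝ) - 22 / (p : ℝ) ^ 2 ≤ Av m p (fun f v w => ind (Em f v w)) ∧
      Av m p (fun f v w => ind (Em f v w)) ≤ 6 / (p : ℝ) := by
  have hp3 : (3 : ℝ) ≤ (p : ℝ) := by
    have h3 : 3 ≤ p := by
      have := (Fact.out : p.Prime).two_le
      omega
    exact_mod_cast h3
  have hp0 : (0 : ℝ) < p := by linarith
  have hEm : (fun (f : Fin (m + 1) → ZMod p) (v w : ZMod p × ZMod p × ZMod p) => ind (Em f v w)) =
      fun f v w => ind (E f v w 0 ∨ E f v w 1 ∨ E f v w 2 ∨ Dc v w 0 = 0 ∨ Dc v w 1 = 0) := by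
    funext f v w
    exact LF_ind_congr (LF_Em f v w)
  have hsum : Av m p (fun f v w => ind (E f v w 0) + ind (E f v w 1) + ind (E f v w 2) + ind (Dc v w 0 = 0) + ind (Dc v w 1 = 0)) =
      Av m p (fun f v w => ind (E f v w 0)) + Av m p (fun f v w => ind (E f v w 1)) + Av m p (fun f v w => ind (E f v w 2)) +
        Av m p (fun _ v w => ind (Dc v w 0 = 0)) + Av m p (fun _ v w => ind (Dc v w 1 = 0)) := by
    rw [Av_add m p (fun f v w => ind (E f v w 0) + ind (E f v w 1) + ind (E f v w 2) + ind (Dc v w 0 = 0)) (fun _ v w => ind (Dc v w 1 = 0)),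
      Av_add m p (fun f v w => ind (E f v w 0) + ind (E f v w 1) + ind (E f v w 2)) (fun _ v w => ind (Dc v w 0 = 0)),
      Av_add m p (fun f v w => ind (E f v w 0) + ind (E f v w 1)) (fun f v w => ind (E f v w 2)),
      Av_add m p (fun f v w => ind (E f v w 0)) (fun f v w => ind (E f v w 1))]
  rw [hEm]
  constructor
  · have h1 : Av m p (fun f v w => ind (E f v w 0) + ind (E f v w 1) + ind (E f v w 2) + ind (Dc v w 0 = 0) + ind (Dc v w 1 = 0)) ≤
        Av m p (fun f v w => ind (E f v w 0 ∨ E f v w 1 ∨ E f v w 2 ∨ Dc v w 0 = 0 ∨ Dc v w 1 = 0) +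
          (ind (E f v w 0 ∧ E f v w 1) + ind (E f v w 0 ∧ E f v w 2) + ind (E f v w 1 ∧ E f v w 2) +
            ind (Dc v w 0 = 0 ∧ E f v w 0) + ind (Dc v w 0 = 0 ∧ E f v w 1) + ind (Dc v w 0 = 0 ∧ E f v w 2) +
            ind (Dc v w 1 = 0 ∧ E f v w 0) + ind (Dc v w 1 = 0 ∧ E f v w 1) + ind (Dc v w 1 = 0 ∧ E f v w 2) +
            ind (Dc v w 0 = 0 ∧ Dc v w 1 = 0))) :=
      Av_mono m p _ _ fun f v w => LF_bonf _ _ _ _ _
    rw [hsum] at h1
    simp only [Av_add] at h1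
    have e0 := le_Av_E m p hm 0
    have e1 := le_Av_E m p hm 1
    have e2 := le_Av_E m p hm 2
    have d0 := Av_D m p h2 0
    have d1 := Av_D m p h2 1
    have p1 := Av_EE m p hm 0 1 (by decide)
    have p2 := Av_EE m p hm 0 2 (by decide)
    have p3 := Av_EE m p hm 1 2 (by decide)
    have q1 := Av_DE m p h2 0 0
    have q2 := Av_DE m p h2 1 0
    have q3 := Av_DE m p h2 2 0
    have q4 := Av_DE m p h2 0 1
    have q5 := Av_DE m p h2 1 1
    have q6 := Av_DE m p h2 2 1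
    have r := Av_DD m p h2
    have s1 : 3 / (p : ℝ) ^ 2 = 3 * (1 / (p : ℝ) ^ 2) := by ring
    have s2 : 2 / (p : ℝ) ^ 2 = 2 * (1 / (p : ℝ) ^ 2) := by ring
    have s3 : 22 / (p : ℝ) ^ 2 = 22 * (1 / (p : ℝ) ^ 2) := by ring
    have s4 : 5 / (p : ℝ) = 5 * (1 / (p : ℝ)) := by ring
    rw [s1] at p1 p2 p3
    rw [s2] at q1 q2 q3 q4 q5 q6
    rw [s3, s4]
    linarith
  · have h1 : Av m p (fun f v w => ind (E f v w 0 ∨ E f v w 1 ∨ E f v w 2 ∨ Dc v w 0 = 0 ∨ Dc v w 1 = 0)) ≤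
        Av m p (fun f v w => ind (E f v w 0) + ind (E f v w 1) + ind (E f v w 2) + ind (Dc v w 0 = 0) + ind (Dc v w 1 = 0)) :=
      Av_mono m p _ _ fun f v w => LF_union _ _ _ _ _
    rw [hsum] at h1
    have e0 := Av_E_le m p 0
    have e1 := Av_E_le m p 1
    have e2 := Av_E_le m p 2
    have d0 := Av_D m p h2 0
    have d1 := Av_D m p h2 1
    have s1 : 1 / (p : ℝ) ^ 2 ≤ 1 / (p : ℝ) / 3 := by
      rw [div_div, div_le_div_iff₀ (by positivity) (by positivity)]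
      nlinarith
    have s4 : 6 / (p : ℝ) = 6 * (1 / (p : ℝ)) := by ring
    rw [s4]
    linarith

end FQQ
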