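import Pool.Agent.Lib.MP_10e784_agF.Defs
import Pool.Agent.Lib.MP_1ad228_ntG.Per2
import Pool.Agent.Lib.MP_1ad228_ntG.Kr4b
import Pool.Agent.Lib.MP_1ad228_ntG.Kr5
import Pool.Agent.Lib.MP_1ad228_ntG.Bon

/-! JOB KP1 -/

set_option autoImplicit false

open Classical

namespace FQQ

open Finset Polynomial FGO

/-- Proof. `Finset.induction_on D` with `FGO.Ex_mul` (different primes are coprime) and `FGO.Per.mul`. -/
theorem Ex_prod1 (D : Finset ℕ) (hD : ∀ p ∈ D, p.Prime) (x : ℕ → V × V → ℝ) (hx : ∀ p ∈ D, Per p (x p)) :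
    Per (∏ p ∈ D, p) (fun u => ∏ p ∈ D, x p u) ∧
      Ex (∏ p ∈ D, p) (fun u => ∏ p ∈ D, x p u) = ∏ p ∈ D, Ex p (x p) := by
  classical
  induction D using Finset.induction_on with
  | empty =>
    refine ⟨fun _ _ _ _ => by simp only [Finset.prod_empty], ?_⟩
    simp only [Finset.prod_empty]
    exact Ex_const one_pos 1
  | insert a s ha ih =>
    have hDs : ∀ p ∈ s, p.Prime := fun p hp => hD p (Finset.mem_insert_of_mem hp)
    have hap : a.Prime := hD a (Finset.mem_insert_self a s)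
    obtain ⟨ih1, ih2⟩ := ih hDs fun p hp => hx p (Finset.mem_insert_of_mem hp)
    have hxa : Per a (x a) := hx a (Finset.mem_insert_self a s)
    have hpos : 0 < ∏ p ∈ s, p := Finset.prod_pos fun p hp => (hDs p hp).pos
    have hc : a.Coprime (∏ p ∈ s, p) := by
      refine Nat.Coprime.prod_right fun p hp => ?_
      refine (Nat.coprime_primes hap (hDs p hp)).2 ?_
      rintro rfl
      exact ha hp
    simp only [Finset.prod_insert ha]
    refine ⟨hxa.mul ih1, ?_⟩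
    rw [Ex_mul hap.pos hpos hc hxa ih1, ih2]

/-- (sieve for the pairs, with an additional periodic factor) Proof. (Model: `FGO.sieve`, which is the case `φ = 1`.) `J = δ * G * ∏ p ∈ Q, p`. `F u = φ u * ∏ p ∈ Q, (1 - x p u) ≥ 0` is periodic modulo `4NJ`;
`box_le_cube`. By `bonf` for every `u`: `∏ (1 - x p u) ≤ ∑_{D ⊆ Q, |D| ≤ 2k} (-1)^|D| ∏_D x p u`; multiply by `W W φ ≥ 0`, exchange the sums, `ex_pair` with `q = G * ∏_D p` (coprime to `δ`, `δ q ∣ J`, `q ≤ q0`) and the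
function `φ * ∏_D x p`, whose mean value is `Ex G φ * ∏_D Ex p (x p)` (`Ex_mul`, `Ex_prod1`). Then `bonf_up`, `esymm_le`. -/
theorem sieveB {N δ q0 k G : ℕ} {r : ℤ} (hN : 0 < N) (hδ : 0 < δ) (hG0 : 0 < G) (Q : Finset ℕ)
    (hQ : ∀ p ∈ Q, p.Prime ∧ ¬ p ∣ δ ∧ ¬ p ∣ G) (hδG : δ.Coprime G)
    (hk : ∀ D ⊆ Q, D.card ≤ 2 * k → G * ∏ p ∈ D, p ≤ q0) (hG : Good N q0 δ r)
    (φ : V × V → ℝ) (hφ : Per G φ) (hφ0 : ∀ u, 0 ≤ φ u) (x : ℕ → V × V → ℝ) (hx : ∀ p ∈ Q, Per p (x p))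
    (h0 : ∀ p ∈ Q, ∀ u, 0 ≤ x p u) (h1 : ∀ p ∈ Q, ∀ u, x p u ≤ 1) (B : ℝ) (hB : ∑ p ∈ Q, Ex p (x p) ≤ B) :
    ∑ u ∈ (box2 N).filter (Lam δ r), φ u * ∏ p ∈ Q, (1 - x p u) ≤
      (8 * (N : ℝ)) ^ 6 / (δ : ℝ) ^ 2 * Ex G φ *
        (∏ p ∈ Q, (1 - Ex p (x p)) + B ^ (2 * k + 1) / ((2 * k + 1).factorial : ℝ)) := by
  classical
  have hpp : ∀ p ∈ Q, p.Prime := fun p hp => (hQ p hp).1
  set J : ℕ := δ * (G * ∏ p ∈ Q, p) with hJdef
  have hprod : 0 < ∏ p ∈ Q, p := Finset.prod_pos fun p hp => (hpp p hp).pos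
  have hJ : 0 < J := Nat.mul_pos hδ (Nat.mul_pos hG0 hprod)
  have hδJ : δ ∣ J := Dvd.intro _ rfl
  set M : ℕ := 4 * N * J with hM
  have hJM : J ∣ M := Dvd.intro_left (4 * N) rfl
  have hGM : G ∣ M := ((Dvd.intro _ rfl : G ∣ G * ∏ p ∈ Q, p).trans (Dvd.intro_left δ rfl)).trans hJM
  have hpM : ∀ p ∈ Q, p ∣ M := by
    intro p hp
    have e1 : p ∣ ∏ p ∈ Q, p := Finset.dvd_prod_of_mem (fun p => p) hp
    exact ((e1.trans (Dvd.intro_left G rfl)).trans (Dvd.intro_left δ rfl)).trans hJM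
  have hf0 : ∀ u : V × V, 0 ≤ φ u * ∏ p ∈ Q, (1 - x p u) := fun u =>
    mul_nonneg (hφ0 u) (Finset.prod_nonneg fun p hp => sub_nonneg.2 (h1 p hp u))
  have hfP : Per M fun u => φ u * ∏ p ∈ Q, (1 - x p u) := by
    intro u u' e1 e2
    have e3 : ∏ p ∈ Q, (1 - x p u) = ∏ p ∈ Q, (1 - x p u') := by
      refine Finset.prod_congr rfl fun p hp => ?_
      rw [(hx p hp).mono (hpM p hp) u u' e1 e2]
    show φ u * ∏ p ∈ Q, (1 - x p u) = φ u' * ∏ p ∈ Q, (1 - x p u')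
    rw [e3, hφ.mono hGM u u' e1 e2]
  refine (box_le_cube hN hJ hδJ (r := r) _ hf0 hfP).trans ?_
  set K : Finset (Finset ℕ) := Q.powerset.filter (fun D => D.card ≤ 2 * k) with hK
  have hKm : ∀ D ∈ K, D ⊆ Q ∧ D.card ≤ 2 * k := by
    intro D hD
    rw [hK, Finset.mem_filter, Finset.mem_powerset] at hD
    exact hD
  -- the pointwise bound
  have hpt : ∀ u : V × V, W J M u.1 * W J M u.2 * (φ u * ∏ p ∈ Q, (1 - x p u)) ≤
      ∑ D ∈ K, (-1 : ℝ) ^ D.card * (W J M u.1 * W J M u.2 * (φ u * ∏ p ∈ D, x p u)) := by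
    intro u
    have e1 := bonf Q (fun p => x p u) (fun p hp => h0 p hp u) (fun p hp => h1 p hp u) k
    have e2 : 0 ≤ W J M u.1 * W J M u.2 * φ u :=
      mul_nonneg (mul_nonneg (W_nonneg _ _ _) (W_nonneg _ _ _)) (hφ0 u)
    rw [← mul_assoc (W J M u.1 * W J M u.2) (φ u)]
    refine (mul_le_mul_of_nonneg_left e1 e2).trans (le_of_eq ?_)
    rw [Finset.mul_sum]
    refine Finset.sum_congr rfl fun D _ => ?_
    ring
  refine (Finset.sum_le_sum fun u _ => hpt u).trans ?_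
  rw [Finset.sum_comm]
  -- the mean values
  have hD : ∀ D ∈ K, ∑ u ∈ (cube2 M).filter (Lam δ r), (-1 : ℝ) ^ D.card * (W J M u.1 * W J M u.2 *
      (φ u * ∏ p ∈ D, x p u)) = (8 * (N : ℝ)) ^ 6 / (δ : ℝ) ^ 2 * Ex G φ * ((-1 : ℝ) ^ D.card *
        ∏ p ∈ D, Ex p (x p)) := by
    intro D hDK
    obtain ⟨hDQ, hDc⟩ := hKm D hDK
    have hDp : ∀ p ∈ D, p.Prime := fun p hp => hpp p (hDQ hp)
    have hP := Ex_prod1 D hDp x fun p hp => hx p (hDQ hp)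
    have hDpos : 0 < ∏ p ∈ D, p := Finset.prod_pos fun p hp => (hDp p hp).pos
    have hq : 0 < G * ∏ p ∈ D, p := Nat.mul_pos hG0 hDpos
    have hcG : G.Coprime (∏ p ∈ D, p) := by
      refine Nat.Coprime.prod_right fun p hp => ?_
      exact ((Nat.Prime.coprime_iff_not_dvd (hDp p hp)).2 (hQ p (hDQ hp)).2.2).symm
    have hc : δ.Coprime (G * ∏ p ∈ D, p) := by
      refine Nat.Coprime.mul_right hδG (Nat.Coprime.prod_right fun p hp => ?_)
      exact ((Nat.Prime.coprime_iff_not_dvd (hDp p hp)).2 (hQ p (hDQ hp)).2.1).symm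
    have hd : δ * (G * ∏ p ∈ D, p) ∣ J :=
      mul_dvd_mul_left δ (mul_dvd_mul_left G (Finset.prod_dvd_prod_of_subset _ _ _ hDQ))
    have e1 := ex_pair hN hJ hδ hq hc hd (hk D hDQ hDc) hG (fun u => φ u * ∏ p ∈ D, x p u) (hφ.mul hP.1)
    rw [Ex_mul hG0 hDpos hcG hφ hP.1, hP.2] at e1
    rw [← Finset.mul_sum, e1]
    ring
  rw [Finset.sum_congr rfl hD, ← Finset.mul_sum]
  have hEφ : 0 ≤ Ex G φ := by
    have e := Ex_mono G (fun _ => 0) φ hφ0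
    rwa [Ex_const hG0] at e
  refine mul_le_mul_of_nonneg_left ?_ (mul_nonneg (by positivity) hEφ)
  have hy0 : ∀ p ∈ Q, 0 ≤ Ex p (x p) := by
    intro p hp
    have e := Ex_mono p (fun _ => 0) (x p) (h0 p hp)
    rwa [Ex_const (hpp p hp).pos] at e
  have hy1 : ∀ p ∈ Q, Ex p (x p) ≤ 1 := by
    intro p hp
    have e := Ex_mono p (x p) (fun _ => 1) (h1 p hp)
    rwa [Ex_const (hpp p hp).pos] at e
  refine (bonf_up Q (fun p => Ex p (x p)) hy0 hy1 k).trans ?_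
  refine add_le_add le_rfl ((esymm_le Q _ hy0 (2 * k + 1)).trans ?_)
  have hs0 : 0 ≤ ∑ p ∈ Q, Ex p (x p) := Finset.sum_nonneg hy0
  exact div_le_div_of_nonneg_right (pow_le_pow_left₀ hs0 hB _) (Nat.cast_nonneg _)

end FQQ
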