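import Pool.Agent.Lib.MP_10e784_agF.KN6
import Pool.Agent.Lib.MP_10e784_agF.KP1

/-! JOB KT1 -/

set_option autoImplicit false

open Classical

namespace FQQ

open Finset Polynomial FGO

private theorem KT1_CgN_refl (q : ℕ) {m : ℕ} (f : Vn m) : CgN q f f := by
  intro i
  rw [sub_self]
  exact dvd_zero _

private theorem KT1_Cg_refl (q : ℕ) (v : V) : Cg q v v := by
  unfold Cg
  simp

private theorem KT1_one_le_nm {n : V} (hn : n ≠ 0) : 1 ≤ nm n := by
  unfold nm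
  by_contra h
  apply hn
  have h1 : n.1.natAbs = 0 := by omega
  have h2 : n.2.1.natAbs = 0 := by omega
  have h3 : n.2.2.natAbs = 0 := by omega
  exact Prod.ext (Int.natAbs_eq_zero.1 h1) (Prod.ext (Int.natAbs_eq_zero.1 h2) (Int.natAbs_eq_zero.1 h3))

/-- Proof. `k ≠ 0` has a coordinate with `|k i| ≥ 1`. -/
theorem goodN_one (m H : ℕ) (r : ℤ) : GoodN m H (4 * H) 1 r := by
  intro k hk _
  obtain ⟨i, hi⟩ : ∃ i, k i ≠ 0 := by
    by_contra h
    push Not at h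
    exact hk (funext h)
  refine ⟨i, ?_⟩
  have h1 : 1 ≤ (k i).natAbs := Int.natAbs_pos.2 hi
  calc 4 * H * 1 ≤ 4 * H * (k i).natAbs := Nat.mul_le_mul_left _ h1

/-- Proof. `n ≠ 0` gives `nm n ≥ 1`. -/
theorem good_one' (N : ℕ) (r : ℤ) : Good N (4 * N) 1 r := by
  intro n hn _
  exact Nat.mul_le_mul_left _ (KT1_one_le_nm hn)

theorem Per3.mono {m a b : ℕ} {φ : Vn m → V × V → ℝ} (h : Per3 a φ) (hab : a ∣ b) : Per3 b φ := by
  intro f g u u' h1 h2 h3
  have hd : (a : ℤ) ∣ (b : ℤ) := Int.natCast_dvd_natCast.2 hab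
  exact h f g u u' (fun i => hd.trans (h1 i))
    ⟨hd.trans h2.1, hd.trans h2.2.1, hd.trans h2.2.2⟩ ⟨hd.trans h3.1, hd.trans h3.2.1, hd.trans h3.2.2⟩

theorem Per3.mul {m a b : ℕ} {φ ψ : Vn m → V × V → ℝ} (h : Per3 a φ) (h' : Per3 b ψ) :
    Per3 (a * b) fun f u => φ f u * ψ f u := by
  intro f g u u' h1 h2 h3
  have e1 := h.mono (Dvd.intro b rfl) f g u u' h1 h2 h3
  have e2 := h'.mono (Dvd.intro_left a rfl) f g u u' h1 h2 h3
  simp only [e1, e2]

/-- for fixed `u` -/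
theorem Per3.left {m q : ℕ} {φ : Vn m → V × V → ℝ} (h : Per3 q φ) (u : V × V) : PerN q fun f => φ f u :=
  fun f g h1 => h f g u u h1 (KT1_Cg_refl q u.1) (KT1_Cg_refl q u.2)

/-- Proof. The mean value over `f` does not change if `u` changes by a multiple of `q`. -/
theorem Per3.right {m q : ℕ} {φ : Vn m → V × V → ℝ} (h : Per3 q φ) : Per q fun u => ExN m q fun f => φ f u := by
  intro u u' h1 h2
  have h3 : (fun f => φ f u) = fun f => φ f u' :=
    funext fun f => h f f u u' (KT1_CgN_refl q f) h1 h2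
  show ExN m q (fun f => φ f u) = ExN m q fun f => φ f u'
  rw [h3]

/-- Proof. Definition. -/
theorem E3_add (m q : ℕ) (φ ψ : Vn m → V × V → ℝ) : E3 m q (fun f u => φ f u + ψ f u) = E3 m q φ + E3 m q ψ := by
  unfold E3
  rw [← Ex_add]
  simp only [ExN_add]

theorem E3_smul (m q : ℕ) (c : ℝ) (φ : Vn m → V × V → ℝ) : E3 m q (fun f u => c * φ f u) = c * E3 m q φ := by
  unfold E3
  rw [← Ex_smul]
  simp only [ExN_smul]

theorem E3_mono (m q : ℕ) (φ ψ : Vn m → V × V → ℝ) (h : ∀ f u, φ f u ≤ ψ f u) : E3 m q φ ≤ E3 m q ψ := by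
  unfold E3
  exact Ex_mono _ _ _ fun u => ExN_mono _ _ _ _ fun f => h f u

theorem E3_const {m q : ℕ} (hq : 0 < q) (c : ℝ) : E3 m q (fun _ _ => c) = c := by
  unfold E3
  simp only [ExN_const hq]
  exact Ex_const hq c

/-- Proof. For fixed `u`: `ExN (ab) (φ ψ) = ExN a φ * ExN b ψ` (`ExN_mul`), then `Ex_mul` for the functions `u ↦ ExN a (φ · u)`, `u ↦ ExN b (ψ · u)` (`Per3.right`). -/
theorem E3_mul {m a b : ℕ} (ha : 0 < a) (hb : 0 < b) (h : a.Coprime b) {φ ψ : Vn m → V × V → ℝ} (hφ : Per3 a φ)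
    (hψ : Per3 b ψ) : E3 m (a * b) (fun f u => φ f u * ψ f u) = E3 m a φ * E3 m b ψ := by
  unfold E3
  rw [← Ex_mul ha hb h hφ.right hψ.right]
  have h1 : (fun u => ExN m (a * b) fun f => φ f u * ψ f u) =
      fun u => (ExN m a fun f => φ f u) * ExN m b fun f => ψ f u :=
    funext fun u => ExN_mul ha hb h (hφ.left u) (hψ.left u)
  rw [h1]

/-- Proof. `ExN_dvd` and `Ex_dvd`. -/
theorem E3_dvd {m a b : ℕ} (hb : 0 < b) (hab : a ∣ b) {φ : Vn m → V × V → ℝ} (hφ : Per3 a φ) :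
    E3 m b φ = E3 m a φ := by
  unfold E3
  have h1 : (fun u => ExN m b fun f => φ f u) = fun u => ExN m a fun f => φ f u :=
    funext fun u => ExN_dvd hb hab (hφ.left u)
  rw [h1]
  exact Ex_dvd hb hab hφ.right

end FQQ
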