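import Pool.Agent.Lib.MP_10e784_agF.RA

/-! JOB RB -/

set_option autoImplicit false

open Classical

namespace FQQ

open Finset Polynomial FGO

theorem RB_map_Pf {m : ℕ} (q : ℕ) (f : Vn m) :
    (Pf f).map (Int.castRingHom (ZMod q)) = Pf (cN q f) := by
  unfold Pf cN
  rw [Polynomial.map_sum]
  refine Finset.sum_congr rfl fun i _ => ?_
  rw [Polynomial.map_mul, Polynomial.map_pow, Polynomial.map_C, Polynomial.map_X]
  rfl

theorem RB_map_Pq (q : ℕ) (v : V) :
    (Pq v).map (Int.castRingHom (ZMod q)) = Pq (cV q v) := by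
  unfold Pq cV
  rw [Polynomial.map_add, Polynomial.map_add, Polynomial.map_mul, Polynomial.map_mul,
    Polynomial.map_pow, Polynomial.map_C, Polynomial.map_C, Polynomial.map_C, Polynomial.map_X]
  rfl

/-- Proof. `Polynomial.resultant_map_map` for `Int.castRingHom (ZMod q)`: `(Pf f).map = Pf (cN q f)`, `(Pq v).map = Pq (cV q v)`. -/
theorem Rs_cast {m : ℕ} (q : ℕ) (f : Vn m) (v : V) : ((Rs f v : ℤ) : ZMod q) = Rs (cN q f) (cV q v) := by
  unfold Rs
  rw [← RB_map_Pf, ← RB_map_Pq, Polynomial.resultant_map_map]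
  rfl

theorem rs_cast (q : ℕ) (v w : V) : ((rs v w : ℤ) : ZMod q) = rs (cV q v) (cV q w) := by
  unfold rs cV
  push_cast
  ring

theorem ds_cast (q : ℕ) (v : V) : ((ds v : ℤ) : ZMod q) = ds (cV q v) := by
  unfold ds cV
  push_cast
  ring

theorem hv_cast {m : ℕ} (q : ℕ) (f : Vn m) (x z : ℤ) : ((hv f x z : ℤ) : ZMod q) = hv (cN q f) (x : ZMod q) (z : ZMod q) := by
  unfold hv cN
  push_cast
  rfl

theorem qv_cast (q : ℕ) (v : V) (x z : ℤ) : ((qv v x z : ℤ) : ZMod q) = qv (cV q v) (x : ZMod q) (z : ZMod q) := by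
  unfold qv cV
  push_cast
  ring

theorem Rv_cast {m : ℕ} (q : ℕ) (f : Vn m) (v w : V) (i : Fin 3) :
    ((Rv f v w i : ℤ) : ZMod q) = Rv (cN q f) (cV q v) (cV q w) i := by
  fin_cases i
  · exact rs_cast q v w
  · exact Rs_cast q f w
  · exact Rs_cast q f v

theorem Fv_cast {m : ℕ} (q : ℕ) (f : Vn m) (v w : V) (i : Fin 3) (x z : ℤ) :
    ((Fv f v w i x z : ℤ) : ZMod q) = Fv (cN q f) (cV q v) (cV q w) i (x : ZMod q) (z : ZMod q) := by
  fin_cases i
  · exact hv_cast q f x z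
  · exact qv_cast q v x z
  · exact qv_cast q w x z

theorem Dc_cast {m : ℕ} (q : ℕ) (f : Vn m) (v w : V) (j : Fin 2) :
    ((Dc v w j : ℤ) : ZMod q) = Dc (cV q v) (cV q w) j := by
  fin_cases j
  · exact ds_cast q v
  · exact ds_cast q w

theorem RB_cast_eq (q : ℕ) (a b : ℤ) : ((a : ZMod q) = (b : ZMod q)) ↔ (q : ℤ) ∣ a - b := by
  rw [← sub_eq_zero, ← Int.cast_sub, ZMod.intCast_zmod_eq_zero_iff_dvd]

/-- Proof. `ZMod.intCast_eq_intCast_iff_dvd_sub` or `(ZMod.intCast_zmod_eq_zero_iff_dvd ..)` coordinatewise. -/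
theorem cN_eq_iff {m : ℕ} (q : ℕ) (f g : Vn m) : cN q f = cN q g ↔ CgN q f g := by
  unfold CgN
  rw [funext_iff]
  exact forall_congr' fun i => RB_cast_eq q (f i) (g i)

theorem cV_eq_iff (q : ℕ) (v w : V) : cV q v = cV q w ↔ Cg q v w := by
  unfold cV Cg
  rw [Prod.mk.injEq, Prod.mk.injEq, RB_cast_eq, RB_cast_eq, RB_cast_eq]

theorem evn_eq {m : ℕ} (f : Vn m) (r : ℤ) : evn f r = hv f r 1 := by
  unfold evn hv
  refine Finset.sum_congr rfl fun i _ => ?_
  rw [one_pow, mul_one]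

theorem ev_eq (v : V) (r : ℤ) : ev v r = qv v r 1 := by
  unfold ev qv
  ring

theorem rs_eq (v w : V) : rs v w = res v w := rfl

theorem ds_eq (v : V) : ds v = disc v := rfl

end FQQ
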