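import Pool.Agent.Lib.MP_10e784_agF.LD
import Pool.Agent.Lib.MP_10e784_agF.KT1
import Pool.Agent.Lib.MP_10e784_agF.RB

/-! JOB LT -/

set_option autoImplicit false

open Classical

namespace FQQ

open Finset Polynomial FGO

private theorem LT_val (q : ℕ) [NeZero q] (x : ℤ) (h : x ∈ Ico (0 : ℤ) (q : ℤ)) : (((x : ZMod q).val : ℕ) : ℤ) = x := by
  rw [mem_Ico] at h
  rw [ZMod.val_intCast, Int.emod_eq_of_lt h.1 h.2]

private theorem LT_mem (q : ℕ) [NeZero q] (x : ZMod q) : ((x.val : ℕ) : ℤ) ∈ Ico (0 : ℤ) (q : ℤ) := by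
  rw [mem_Ico]
  exact ⟨Int.natCast_nonneg _, by exact_mod_cast ZMod.val_lt x⟩

private theorem LT_cast (q : ℕ) [NeZero q] (x : ZMod q) : ((((x.val : ℕ) : ℤ) : ℤ) : ZMod q) = x := by
  rw [Int.cast_natCast, ZMod.natCast_zmod_val]

private theorem LT_cube (q : ℕ) [NeZero q] (F : ZMod q × ZMod q × ZMod q → ℝ) :
    ∑ u ∈ cube q, F (cV q u) = ∑ v, F v := by
  refine sum_nbij' (fun u => cV q u) (fun v => (((v.1.val : ℕ) : ℤ), ((v.2.1.val : ℕ) : ℤ), ((v.2.2.val : ℕ) : ℤ)))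
    (fun _ _ => mem_univ _) ?_ ?_ ?_ (fun _ _ => rfl)
  · intro v _
    unfold cube
    rw [mem_product, mem_product]
    exact ⟨LT_mem q _, LT_mem q _, LT_mem q _⟩
  · intro u hu
    unfold cube at hu
    rw [mem_product, mem_product] at hu
    exact Prod.ext (LT_val q _ hu.1) (Prod.ext (LT_val q _ hu.2.1) (LT_val q _ hu.2.2))
  · intro v _
    exact Prod.ext (LT_cast q _) (Prod.ext (LT_cast q _) (LT_cast q _))

/-- Proof. Bijection `cubeN m q → (Fin (m+1) → ZMod q)`, `f ↦ cN q f` (each coordinate: `Ico 0 q → ZMod q` is a bijection, inverse `ZMod.val`). -/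
theorem ExN_eq_mF (m q : ℕ) [NeZero q] (a : (Fin (m + 1) → ZMod q) → ℝ) :
    ExN m q (fun f => a (cN q f)) = mF m q a := by
  unfold ExN mF
  congr 1
  refine sum_nbij' (fun f => cN q f) (fun g i => (((g i).val : ℕ) : ℤ)) (fun _ _ => mem_univ _) ?_ ?_ ?_ (fun _ _ => rfl)
  · intro g _
    unfold cubeN
    rw [Fintype.mem_piFinset]
    exact fun i => LT_mem q _
  · intro f hf
    unfold cubeN at hf
    rw [Fintype.mem_piFinset] at hf
    exact funext fun i => LT_val q _ (hf i)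
  · intro g _
    exact funext fun i => LT_cast q _

/-- Proof. The same for `cube2 q = cube q × cube q`; `(q^6 = q^3 q^3)`. -/
theorem Ex_eq_mQ (q : ℕ) [NeZero q] (b : ZMod q × ZMod q × ZMod q → ZMod q × ZMod q × ZMod q → ℝ) :
    Ex q (fun u => b (cV q u.1) (cV q u.2)) = mQ q (fun v => mQ q fun w => b v w) := by
  unfold Ex mQ cube2
  rw [sum_product]
  have h1 : ∀ v : V, ∑ w ∈ cube q, b (cV q v) (cV q w) = ∑ w, b (cV q v) w := fun v => LT_cube q (b (cV q v))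
  simp only [h1]
  rw [LT_cube q (fun v => ∑ w, b v w), ← sum_div, div_div]
  congr 1
  ring

/-- Proof. Combine the two. -/
theorem E3_eq_Av (m q : ℕ) [NeZero q]
    (φ : (Fin (m + 1) → ZMod q) → ZMod q × ZMod q × ZMod q → ZMod q × ZMod q × ZMod q → ℝ) :
    E3 m q (fun f u => φ (cN q f) (cV q u.1) (cV q u.2)) = Av m q φ := by
  unfold E3 Av
  rw [← Ex_eq_mQ]
  congr 1
  funext u
  exact ExN_eq_mF m q (fun f => φ f (cV q u.1) (cV q u.2))

/-- Proof. `cN_eq_iff`, `cV_eq_iff`. -/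
theorem Per3_of (m q : ℕ)
    (φ : (Fin (m + 1) → ZMod q) → ZMod q × ZMod q × ZMod q → ZMod q × ZMod q × ZMod q → ℝ) :
    Per3 q (fun (f : Vn m) u => φ (cN q f) (cV q u.1) (cV q u.2)) := by
  intro f g u u' h1 h2 h3
  show φ (cN q f) (cV q u.1) (cV q u.2) = φ (cN q g) (cV q u'.1) (cV q u'.2)
  rw [(cN_eq_iff q f g).mpr h1, (cV_eq_iff q _ _).mpr h2, (cV_eq_iff q _ _).mpr h3]

end FQQ
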