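import Pool.Agent.Lib.MP_10e784_agF.LC
import Pool.Agent.Lib.MP_10e784_agF.LF
import Pool.Agent.Lib.MP_10e784_agF.LT

/-! JOB LS: the densities of the labels, summary. -/

set_option autoImplicit false

open Classical

namespace FQQ

open Finset Polynomial FGO

/-- The densities of the labels. -/
theorem E3_gp {m : ℕ} (hm : 1 ≤ m) (hme : Even m) (p : ℕ) (hp : p.Prime) (h2 : p ≠ 2) (t : Fin 3 → Bool)
    (U : Fin 3 → ℤ) (l : Lab) : E3 m p (gp t U l p) ≤ eb l p := by
  have : Fact p.Prime := ⟨hp⟩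
  have h := E3_eq_Av m p (fun f v w => ind (Ev t (fun i => (U i : ZMod p)) f v w l))
  have h' : E3 m p (gp t U l p) =
      Av m p (fun f v w => ind (Ev t (fun i => (U i : ZMod p)) f v w l)) := h
  rw [h']
  cases l with
  | O =>
    have h1 := Av_mono m p (fun f v w => ind (Ev t (fun i => (U i : ZMod p)) f v w Lab.O))
      (fun _ _ _ => 1) (fun f v w => ind_le_one _)
    rw [Av_const] at h1
    exact h1
  | A i => exact Av_E_le m p i
  | B i =>
    fin_cases i
    · exact Av_B0 m p hm hme h2 t _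
    · exact Av_B1 m p hm hme h2 t _
    · exact Av_B2 m p hm hme h2 t _
  | C j =>
    fin_cases j
    · exact Av_C0 m p hme h2 t _
    · exact Av_C1 m p hme h2 t _

theorem E3_xo {m : ℕ} (hm : 1 ≤ m) (p : ℕ) (hp : p.Prime) (h2 : p ≠ 2) :
    dn5 p ≤ E3 m p (xo p) ∧ E3 m p (xo p) ≤ 6 / (p : ℝ) := by
  have : Fact p.Prime := ⟨hp⟩
  have h := E3_eq_Av m p (fun f v w => ind (Em f v w))
  have h' : E3 m p (xo p) = Av m p (fun f v w => ind (Em f v w)) := h
  rw [h']
  exact Av_Em m p hm h2

theorem Per3_gp {m : ℕ} (p : ℕ) (t : Fin 3 → Bool) (U : Fin 3 → ℤ) (l : Lab) :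
    Per3 p (gp (m := m) t U l p) :=
  Per3_of m p (fun f v w => ind (Ev t (fun i => (U i : ZMod p)) f v w l))

theorem Per3_xo {m : ℕ} (p : ℕ) : Per3 p (xo (m := m) p) :=
  Per3_of m p (fun f v w => ind (Em f v w))

theorem gp_O {m : ℕ} (p : ℕ) (t : Fin 3 → Bool) (U : Fin 3 → ℤ) (f : Vn m) (u : V × V) :
    gp t U Lab.O p f u = 1 - xo p f u := by
  unfold gp xo
  by_cases h : Em (cN p f) (cV p u.1) (cV p u.2)
  · rw [if_pos h, if_neg (fun h1 => h1 h), sub_self]
  · rw [if_neg h, sub_zero]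
    exact if_pos h

theorem gp_nonneg {m : ℕ} (p : ℕ) (t : Fin 3 → Bool) (U : Fin 3 → ℤ) (l : Lab) (f : Vn m) (u : V × V) :
    0 ≤ gp t U l p f u ∧ gp t U l p f u ≤ 1 :=
  ⟨ind_nonneg _, ind_le_one _⟩

theorem xo_nonneg {m : ℕ} (p : ℕ) (f : Vn m) (u : V × V) : 0 ≤ xo p f u ∧ xo p f u ≤ 1 :=
  ⟨ind_nonneg _, ind_le_one _⟩

/-- indicator of `E i` modulo `p` -/
noncomputable def ie {m : ℕ} (i : Fin 3) (p : ℕ) (f : Vn m) (u : V × V) : ℝ := ind (E (cN p f) (cV p u.1) (cV p u.2) i)

/-- indicator of `p ∣ Dc j` -/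
noncomputable def id2 {m : ℕ} (j : Fin 2) (p : ℕ) (_ : Vn m) (u : V × V) : ℝ := ind (Dc (cV p u.1) (cV p u.2) j = 0)

theorem E3_ie {m : ℕ} (p : ℕ) (hp : p.Prime) (i : Fin 3) :
    E3 m p (ie i p) ≤ 1 / (p : ℝ) + 1 / (p : ℝ) ^ 2 := by
  have : Fact p.Prime := ⟨hp⟩
  have h := E3_eq_Av m p (fun f v w => ind (E f v w i))
  have h' : E3 m p (ie i p) = Av m p (fun f v w => ind (E f v w i)) := h
  rw [h']
  exact Av_E_le m p i

theorem E3_id2 {m : ℕ} (p : ℕ) (hp : p.Prime) (h2 : p ≠ 2) (j : Fin 2) :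
    E3 m p (id2 j p) = 1 / (p : ℝ) := by
  have : Fact p.Prime := ⟨hp⟩
  have h := E3_eq_Av m p (fun _ v w => ind (Dc v w j = 0))
  have h' : E3 m p (id2 j p) = Av m p (fun _ v w => ind (Dc v w j = 0)) := h
  rw [h']
  exact Av_D m p h2 j

theorem Per3_ie {m : ℕ} (p : ℕ) (i : Fin 3) : Per3 p (ie (m := m) i p) :=
  Per3_of m p (fun f v w => ind (E f v w i))

theorem Per3_id2 {m : ℕ} (p : ℕ) (j : Fin 2) : Per3 p (id2 (m := m) j p) :=
  Per3_of m p (fun _ v w => ind (Dc v w j = 0))

private theorem LS_E0 {F : Type} [CommRing F] {m : ℕ} (f f' : Fin (m + 1) → F) (v w : F × F × F)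
    (h : E f v w 0) : E f' v w 0 := by
  obtain ⟨x, z, h1, h2⟩ := h
  refine ⟨x, z, h1, fun j hj => ?_⟩
  have h3 := h2 j hj
  fin_cases j
  · exact absurd rfl hj
  · exact h3
  · exact h3

/-- the zeros of a quadratic form with nonzero discriminant -/
private theorem LS_zeros {p : ℕ} [Fact p.Prime] (w : ZMod p × ZMod p × ZMod p) (hw : ds w ≠ 0) :
    (univ.filter fun P : Option (ZMod p) => qv w (pt P).1 (pt P).2 = 0).card ≤ 2 := by
  obtain ⟨a, b, c⟩ := w
  have hd : b ^ 2 - 4 * a * c ≠ 0 := hw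
  by_cases ha : a = 0
  · have hb : b ≠ 0 := by
      rintro rfl
      apply hd
      rw [ha]
      ring
    have hsub : (univ.filter fun P : Option (ZMod p) => qv (a, b, c) (pt P).1 (pt P).2 = 0) ⊆
        {none, some (-c / b)} := by
      intro P hP
      rw [mem_filter] at hP
      have h1 := hP.2
      cases P with
      | none => simp
      | some r =>
        have h2 : a * r ^ 2 + b * r * 1 + c * 1 ^ 2 = 0 := h1
        rw [ha] at h2
        have h3 : r = -c / b := by
          rw [eq_div_iff hb]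
          linear_combination h2
        rw [h3]
        simp
    exact (card_le_card hsub).trans (card_le_two)
  · by_cases hr : ∃ r : ZMod p, a * r ^ 2 + b * r + c = 0
    · obtain ⟨r0, hr0⟩ := hr
      have hsub : (univ.filter fun P : Option (ZMod p) => qv (a, b, c) (pt P).1 (pt P).2 = 0) ⊆
          {some r0, some (-b / a - r0)} := by
        intro P hP
        rw [mem_filter] at hP
        have h1 := hP.2
        cases P with
        | none =>
          have h2 : a * 1 ^ 2 + b * 1 * 0 + c * 0 ^ 2 = 0 := h1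
          exfalso
          apply ha
          linear_combination h2
        | some r =>
          have h2 : a * r ^ 2 + b * r * 1 + c * 1 ^ 2 = 0 := h1
          have h3 : (r - r0) * (a * (r + r0) + b) = 0 := by
            linear_combination h2 - hr0
          rcases mul_eq_zero.1 h3 with h4 | h4
          · rw [sub_eq_zero.1 h4]
            simp
          · have h5 : r = -b / a - r0 := by
              rw [eq_sub_iff_add_eq, eq_div_iff ha]
              linear_combination h4
            rw [h5]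
            simp
      exact (card_le_card hsub).trans (card_le_two)
    · have hsub : (univ.filter fun P : Option (ZMod p) => qv (a, b, c) (pt P).1 (pt P).2 = 0) ⊆
          {none} := by
        intro P hP
        rw [mem_filter] at hP
        have h1 := hP.2
        cases P with
        | none => simp
        | some r =>
          have h2 : a * r ^ 2 + b * r * 1 + c * 1 ^ 2 = 0 := h1
          exfalso
          apply hr
          refine ⟨r, ?_⟩
          linear_combination h2
      refine (card_le_card hsub).trans ?_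
      rw [card_singleton]
      norm_num

private theorem LS_union (m p : ℕ) [Fact p.Prime] (w : ZMod p × ZMod p × ZMod p) (hw : ds w ≠ 0) :
    mF m p (fun f => ∑ P ∈ univ.filter (fun P : Option (ZMod p) => qv w (pt P).1 (pt P).2 = 0),
      ind (hv f (pt P).1 (pt P).2 = 0)) ≤ 2 / (p : ℝ) := by
  rw [mF_sum, Finset.sum_congr rfl fun P _ => mF_root m p _ _ (pt_ne P), sum_const, nsmul_eq_mul]
  have h1 : ((univ.filter fun P : Option (ZMod p) => qv w (pt P).1 (pt P).2 = 0).card : ℝ) ≤ 2 := by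
    exact_mod_cast LS_zeros w hw
  have h2 : (0 : ℝ) ≤ 1 / (p : ℝ) := by positivity
  calc _ ≤ 2 * (1 / (p : ℝ)) := mul_le_mul_of_nonneg_right h1 h2
    _ = 2 / (p : ℝ) := by ring

/-- If `v, w` have no common zero modulo `p` and `p` divides none of the discriminants then the mean value over `f`
of `xo` is at most `4/p`. -/
theorem ExN_xo {m : ℕ} (p : ℕ) (hp : p.Prime) (u : V × V) (h0 : ∀ f : Vn m, ¬ E (cN p f) (cV p u.1) (cV p u.2) 0)
    (h1 : ∀ j, Dc (cV p u.1) (cV p u.2) j ≠ 0) : ExN m p (fun f => xo p f u) ≤ 4 / (p : ℝ) := by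
  have : Fact p.Prime := ⟨hp⟩
  set v := cV p u.1 with hv'
  set w := cV p u.2 with hw'
  have hE : ExN m p (fun f => xo p f u) = mF m p (fun F => ind (Em F v w)) :=
    ExN_eq_mF m p (fun F => ind (Em F v w))
  rw [hE]
  have hv1 : ds v ≠ 0 := h1 0
  have hw1 : ds w ≠ 0 := h1 1
  have hle : ∀ F : Fin (m + 1) → ZMod p, ind (Em F v w) ≤
      (∑ P ∈ univ.filter (fun P : Option (ZMod p) => qv w (pt P).1 (pt P).2 = 0),
        ind (hv F (pt P).1 (pt P).2 = 0)) +
      ∑ P ∈ univ.filter (fun P : Option (ZMod p) => qv v (pt P).1 (pt P).2 = 0),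
        ind (hv F (pt P).1 (pt P).2 = 0) := by
    intro F
    have hn1 : 0 ≤ ∑ P ∈ univ.filter (fun P : Option (ZMod p) => qv w (pt P).1 (pt P).2 = 0),
        ind (hv F (pt P).1 (pt P).2 = 0) := sum_nonneg fun _ _ => ind_nonneg _
    have hn2 : 0 ≤ ∑ P ∈ univ.filter (fun P : Option (ZMod p) => qv v (pt P).1 (pt P).2 = 0),
        ind (hv F (pt P).1 (pt P).2 = 0) := sum_nonneg fun _ _ => ind_nonneg _
    by_cases hEm : Em F v w
    · have hi : ind (Em F v w) = 1 := if_pos hEm
      rw [hi]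
      rcases hEm with ⟨i, hi⟩ | ⟨j, hj⟩
      · fin_cases i
        · exact absurd (LS_E0 F (cN p (0 : Vn m)) v w hi) (h0 0)
        · obtain ⟨P, hP⟩ := (E_iff F v w 1).1 hi
          have hP0 : hv F (pt P).1 (pt P).2 = 0 := hP 0 (by decide)
          have hP2 : qv w (pt P).1 (pt P).2 = 0 := hP 2 (by decide)
          have h3 : ind (hv F (pt P).1 (pt P).2 = 0) ≤
              ∑ P ∈ univ.filter (fun P : Option (ZMod p) => qv w (pt P).1 (pt P).2 = 0),
                ind (hv F (pt P).1 (pt P).2 = 0) :=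
            single_le_sum (f := fun P => ind (hv F (pt P).1 (pt P).2 = 0))
              (fun _ _ => ind_nonneg _) (mem_filter.2 ⟨mem_univ P, hP2⟩)
          have h4 : ind (hv F (pt P).1 (pt P).2 = 0) = 1 := if_pos hP0
          linarith
        · obtain ⟨P, hP⟩ := (E_iff F v w 2).1 hi
          have hP0 : hv F (pt P).1 (pt P).2 = 0 := hP 0 (by decide)
          have hP2 : qv v (pt P).1 (pt P).2 = 0 := hP 1 (by decide)
          have h3 : ind (hv F (pt P).1 (pt P).2 = 0) ≤
              ∑ P ∈ univ.filter (fun P : Option (ZMod p) => qv v (pt P).1 (pt P).2 = 0),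
                ind (hv F (pt P).1 (pt P).2 = 0) :=
            single_le_sum (f := fun P => ind (hv F (pt P).1 (pt P).2 = 0))
              (fun _ _ => ind_nonneg _) (mem_filter.2 ⟨mem_univ P, hP2⟩)
          have h4 : ind (hv F (pt P).1 (pt P).2 = 0) = 1 := if_pos hP0
          linarith
      · exact absurd hj (h1 j)
    · have hi : ind (Em F v w) = 0 := if_neg hEm
      rw [hi]
      exact add_nonneg hn1 hn2
  refine (mF_mono m p _ _ hle).trans ?_
  rw [mF_add]
  have h3 := LS_union m p w hw1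
  have h4 := LS_union m p v hv1
  calc _ ≤ 2 / (p : ℝ) + 2 / (p : ℝ) := add_le_add h3 h4
    _ = 4 / (p : ℝ) := by ring

/-- If `v, w` have a common zero modulo `p` or `p` divides one of the discriminants, `xo p f u = 1` for all `f`. -/
theorem xo_eq_one {m : ℕ} (p : ℕ) (u : V × V)
    (h : ¬ ((∀ f : Vn m, ¬ E (cN p f) (cV p u.1) (cV p u.2) 0) ∧ ∀ j, Dc (cV p u.1) (cV p u.2) j ≠ 0)) (f : Vn m) :
    xo p f u = 1 := by
  have hEm : Em (cN p f) (cV p u.1) (cV p u.2) := by
    by_contra hn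
    apply h
    refine ⟨fun g hg => hn (Or.inl ⟨0, LS_E0 _ _ _ _ hg⟩), fun j hj => hn (Or.inr ⟨j, hj⟩)⟩
  exact if_pos hEm

end FQQ
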