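import Pool.Agent.Lib.MP_10e784_agF.XB
import Pool.Agent.Lib.MP_1ad228_ntG.Z0
import Pool.Agent.Lib.MP_1ad228_ntG.Pl

/-! JOB XC -/

set_option autoImplicit false

open Classical

namespace FQQ

open Finset Polynomial FGO

private theorem XC_I (N : ℕ) : (Icc (-(N : ℤ)) (N : ℤ)).card = 2 * N + 1 := by
  rw [Int.card_Icc]
  omega

private theorem XC_box (N : ℕ) : (FGO.box N).card = (2 * N + 1) ^ 3 := by
  unfold FGO.box
  rw [card_product, card_product, XC_I]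
  ring

private theorem XC_box2 (N : ℕ) : (box2 N).card = (2 * N + 1) ^ 6 := by
  unfold box2
  rw [card_product, XC_box]
  ring

private theorem XC_cV {p : ℕ} {v : V} (h : cV p v = 0) :
    (p : ℤ) ∣ v.1 ∧ (p : ℤ) ∣ v.2.1 ∧ (p : ℤ) ∣ v.2.2 := by
  unfold cV at h
  have h1 := congrArg Prod.fst h
  have h2 := congrArg (fun t => t.2.1) h
  have h3 := congrArg (fun t => t.2.2) h
  exact ⟨(ZMod.intCast_zmod_eq_zero_iff_dvd _ _).1 h1, (ZMod.intCast_zmod_eq_zero_iff_dvd _ _).1 h2,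
    (ZMod.intCast_zmod_eq_zero_iff_dvd _ _).1 h3⟩

/-- the vectors of the box divisible by `d` -/
private noncomputable def XC_B (N d : ℕ) : Finset V :=
  (FGO.box N).filter fun v => (d : ℤ) ∣ v.1 ∧ (d : ℤ) ∣ v.2.1 ∧ (d : ℤ) ∣ v.2.2

private theorem XC_B_card {N d : ℕ} (hd : 0 < d) (hdN : d ≤ N) :
    ((XC_B N d).card : ℝ) ≤ (3 * (N : ℝ) / d) ^ 3 := by
  have h1 : XC_B N d ⊆ ((Icc (-(N : ℤ)) (N : ℤ)).filter fun x => (d : ℤ) ∣ x - 0) ×ˢ
      (((Icc (-(N : ℤ)) (N : ℤ)).filter fun x => (d : ℤ) ∣ x - 0) ×ˢ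
        ((Icc (-(N : ℤ)) (N : ℤ)).filter fun x => (d : ℤ) ∣ x - 0)) := by
    intro v hv
    unfold XC_B FGO.box at hv
    simp only [mem_filter, mem_product] at hv
    simp only [mem_product, mem_filter, sub_zero]
    exact ⟨⟨hv.1.1, hv.2.1⟩, ⟨hv.1.2.1, hv.2.2.1⟩, hv.1.2.2, hv.2.2.2⟩
  have h2 := card_le_card h1
  rw [card_product, card_product] at h2
  have h3 : ((XC_B N d).card : ℝ) ≤
      ((((Icc (-(N : ℤ)) (N : ℤ)).filter fun x => (d : ℤ) ∣ x - 0).card : ℝ)) ^ 3 := by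
    have h4 : (XC_B N d).card ≤ (((Icc (-(N : ℤ)) (N : ℤ)).filter fun x => (d : ℤ) ∣ x - 0).card) ^ 3 := by
      refine h2.trans (le_of_eq ?_)
      ring
    exact_mod_cast h4
  refine h3.trans (pow_le_pow_left₀ (Nat.cast_nonneg _) ?_ 3)
  refine (class_count N d hd 0).trans ?_
  have hd0 : (0 : ℝ) < d := by exact_mod_cast hd
  have h5 : (1 : ℝ) ≤ N / d := by
    rw [le_div_iff₀ hd0, one_mul]
    exact_mod_cast hdN
  have h6 : 3 * (N : ℝ) / d = 2 * N / d + N / d := by ring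
  linarith

private theorem XC_sum (N z : ℕ) (hz : 1 ≤ z) :
    ∑ p ∈ Ioc z N, (3 * (N : ℝ) / p) ^ 3 * (3 * (N : ℝ)) ^ 3 ≤ 729 * (N : ℝ) ^ 6 * (1 / (z : ℝ)) := by
  have hz0 : (0 : ℝ) < z := by exact_mod_cast hz
  rcases le_or_gt z N with h | h
  · have h1 := sum_Ioc_inv_sq_le_sub (α := ℝ) (k := z) (n := N) (by omega) h
    have h2 : ∀ p ∈ Ioc z N, (3 * (N : ℝ) / p) ^ 3 * (3 * (N : ℝ)) ^ 3 ≤
        729 * (N : ℝ) ^ 6 * ((p : ℝ) ^ 2)⁻¹ := by
      intro p hp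
      have hp1 : 1 ≤ p := by
        have := (mem_Ioc.1 hp).1
        omega
      have hp0 : (0 : ℝ) < p := by exact_mod_cast hp1
      have hp1' : (1 : ℝ) ≤ p := by exact_mod_cast hp1
      have h3 : (3 * (N : ℝ) / p) ^ 3 * (3 * (N : ℝ)) ^ 3 = 729 * (N : ℝ) ^ 6 * ((p : ℝ) ^ 3)⁻¹ := by
        field_simp
        ring
      rw [h3]
      apply mul_le_mul_of_nonneg_left _ (by positivity)
      apply inv_anti₀ (by positivity)
      exact pow_le_pow_right₀ hp1' (by norm_num)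
    calc ∑ p ∈ Ioc z N, (3 * (N : ℝ) / p) ^ 3 * (3 * (N : ℝ)) ^ 3
        ≤ ∑ p ∈ Ioc z N, 729 * (N : ℝ) ^ 6 * ((p : ℝ) ^ 2)⁻¹ := sum_le_sum h2
      _ = 729 * (N : ℝ) ^ 6 * ∑ p ∈ Ioc z N, ((p : ℝ) ^ 2)⁻¹ := by rw [mul_sum]
      _ ≤ 729 * (N : ℝ) ^ 6 * (1 / (z : ℝ)) := by
          apply mul_le_mul_of_nonneg_left _ (by positivity)
          have h4 : (0 : ℝ) ≤ (N : ℝ)⁻¹ := by positivity
          rw [one_div]
          linarith
  · rw [Ioc_eq_empty (by omega), sum_empty]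
    positivity

private theorem XC_le {x : ℤ} {N p : ℕ} (hx : x ≠ 0) (h1 : -(N : ℤ) ≤ x) (h2 : x ≤ N) (h : (p : ℤ) ∣ x) :
    p ≤ N := by
  have h3 : (p : ℤ) ≤ |x| := Int.le_of_dvd (abs_pos.2 hx) ((dvd_abs _ _).2 h)
  have h4 : |x| ≤ (N : ℤ) := abs_le.2 ⟨h1, h2⟩
  exact_mod_cast h3.trans h4

/-- Few pairs are not good. -/
theorem goodU_card : ∃ C : ℝ, 0 < C ∧ ∀ N z : ℕ, 0 < N → 1 ≤ z →
    (((box2 N).filter fun u => ¬ GoodU z u).card : ℝ) ≤ C * (N : ℝ) ^ 6 * (1 / (z : ℝ) + 1 / (N : ℝ)) := by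
  refine ⟨1458, by norm_num, fun N z hN hz => ?_⟩
  have hN0 : (0 : ℝ) < N := by exact_mod_cast hN
  have hN1 : (1 : ℝ) ≤ N := by exact_mod_cast hN
  let I : Finset ℤ := Icc (-(N : ℤ)) (N : ℤ)
  let Z : Finset V := ({0} : Finset ℤ) ×ˢ (I ×ˢ I)
  let A1 : Finset (V × V) := Z ×ˢ FGO.box N
  let A2 : Finset (V × V) := FGO.box N ×ˢ Z
  let A3 : Finset (V × V) := (box2 N).filter fun u => res u.1 u.2 = 0
  let B1 : Finset (V × V) := (Ioc z N).biUnion fun p => XC_B N p ×ˢ FGO.box N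
  let B2 : Finset (V × V) := (Ioc z N).biUnion fun p => FGO.box N ×ˢ XC_B N p
  have hZ : Z.card = (2 * N + 1) ^ 2 := by
    simp only [Z, I, card_product, card_singleton, XC_I]
    ring
  have hA1 : A1.card = (2 * N + 1) ^ 5 := by
    simp only [A1, card_product, hZ, XC_box]
    ring
  have hA2 : A2.card = (2 * N + 1) ^ 5 := by
    simp only [A2, card_product, hZ, XC_box]
    ring
  have hbox : ((FGO.box N).card : ℝ) ≤ (3 * (N : ℝ)) ^ 3 := by
    rw [XC_box]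
    push_cast
    apply pow_le_pow_left₀ (by positivity)
    linarith
  have hB : ∀ p ∈ Ioc z N, ((XC_B N p).card : ℝ) * (FGO.box N).card ≤
      (3 * (N : ℝ) / p) ^ 3 * (3 * (N : ℝ)) ^ 3 := by
    intro p hp
    obtain ⟨h1, h2⟩ := mem_Ioc.1 hp
    exact mul_le_mul (XC_B_card (by omega) h2) hbox (Nat.cast_nonneg _) (by positivity)
  have hB1 : (B1.card : ℝ) ≤ 729 * (N : ℝ) ^ 6 * (1 / (z : ℝ)) := by
    refine le_trans ?_ (XC_sum N z hz)
    calc (B1.card : ℝ) ≤ ((∑ p ∈ Ioc z N, (XC_B N p ×ˢ FGO.box N).card : ℕ) : ℝ) := by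
          exact_mod_cast card_biUnion_le
      _ = ∑ p ∈ Ioc z N, ((XC_B N p).card : ℝ) * (FGO.box N).card := by
          push_cast [card_product]
          rfl
      _ ≤ _ := sum_le_sum hB
  have hB2 : (B2.card : ℝ) ≤ 729 * (N : ℝ) ^ 6 * (1 / (z : ℝ)) := by
    refine le_trans ?_ (XC_sum N z hz)
    calc (B2.card : ℝ) ≤ ((∑ p ∈ Ioc z N, (FGO.box N ×ˢ XC_B N p).card : ℕ) : ℝ) := by
          exact_mod_cast card_biUnion_le
      _ = ∑ p ∈ Ioc z N, ((XC_B N p).card : ℝ) * (FGO.box N).card := by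
          push_cast [card_product]
          exact sum_congr rfl fun p _ => mul_comm _ _
      _ ≤ _ := sum_le_sum hB
  have hA3 : (A3.card : ℝ) ≤ 729 * (N : ℝ) ^ 5 := res_zero_card N hN
  have hsub : ((box2 N).filter fun u => ¬ GoodU z u) ⊆ A1 ∪ (A2 ∪ (A3 ∪ (B1 ∪ B2))) := by
    intro u hu
    obtain ⟨hu1, hu2⟩ := mem_filter.1 hu
    obtain ⟨hv, hw⟩ := mem_product.1 hu1
    have hv' := hv
    have hw' := hw
    unfold FGO.box at hv' hw'
    simp only [mem_product] at hv' hw'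
    by_cases c1 : u.1.1 = 0
    · apply mem_union_left
      simp only [A1, Z, mem_product, mem_singleton]
      exact ⟨⟨c1, hv'.2.1, hv'.2.2⟩, hw⟩
    apply mem_union_right
    by_cases c2 : u.2.1 = 0
    · apply mem_union_left
      simp only [A2, Z, mem_product, mem_singleton]
      exact ⟨hv, c2, hw'.2.1, hw'.2.2⟩
    apply mem_union_right
    by_cases c3 : rs u.1 u.2 = 0
    · apply mem_union_left
      exact mem_filter.2 ⟨hu1, c3⟩
    apply mem_union_right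
    have hex : ∃ p : ℕ, p.Prime ∧ z < p ∧ (cV p u.1 = 0 ∨ cV p u.2 = 0) := by
      by_contra hcon
      push Not at hcon
      exact hu2 ⟨c1, c2, c3, fun p hp hzp => hcon p hp hzp⟩
    obtain ⟨p, hp, hzp, h | h⟩ := hex
    · have h1 := XC_cV h
      have h2 : p ≤ N := XC_le c1 (mem_Icc.1 hv'.1).1 (mem_Icc.1 hv'.1).2 h1.1
      apply mem_union_left
      refine mem_biUnion.2 ⟨p, mem_Ioc.2 ⟨hzp, h2⟩, mem_product.2 ⟨mem_filter.2 ⟨hv, h1⟩, hw⟩⟩
    · have h1 := XC_cV h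
      have h2 : p ≤ N := XC_le c2 (mem_Icc.1 hw'.1).1 (mem_Icc.1 hw'.1).2 h1.1
      apply mem_union_right
      refine mem_biUnion.2 ⟨p, mem_Ioc.2 ⟨hzp, h2⟩, mem_product.2 ⟨hv, mem_filter.2 ⟨hw, h1⟩⟩⟩
  have hc := card_le_card hsub
  have hc1 := card_union_le A1 (A2 ∪ (A3 ∪ (B1 ∪ B2)))
  have hc2 := card_union_le A2 (A3 ∪ (B1 ∪ B2))
  have hc3 := card_union_le A3 (B1 ∪ B2)
  have hc4 := card_union_le B1 B2
  have htot : (((box2 N).filter fun u => ¬ GoodU z u).card : ℝ) ≤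
      A1.card + (A2.card + (A3.card + (B1.card + B2.card))) := by
    have : ((box2 N).filter fun u => ¬ GoodU z u).card ≤
      A1.card + (A2.card + (A3.card + (B1.card + B2.card))) := by omega
    exact_mod_cast this
  have h5 : ((2 * N + 1 : ℕ) : ℝ) ^ 5 ≤ 243 * (N : ℝ) ^ 5 := by
    calc ((2 * N + 1 : ℕ) : ℝ) ^ 5 ≤ (3 * (N : ℝ)) ^ 5 := by
          apply pow_le_pow_left₀ (by positivity)
          push_cast
          linarith
      _ = 243 * (N : ℝ) ^ 5 := by ring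
  have hA1' : (A1.card : ℝ) ≤ 243 * (N : ℝ) ^ 5 := by
    rw [hA1]
    push_cast at h5 ⊢
    exact h5
  have hA2' : (A2.card : ℝ) ≤ 243 * (N : ℝ) ^ 5 := by
    rw [hA2]
    push_cast at h5 ⊢
    exact h5
  have h6 : (N : ℝ) ^ 5 = (N : ℝ) ^ 6 * (1 / (N : ℝ)) := by
    field_simp
  have h7 : (0 : ℝ) ≤ (N : ℝ) ^ 6 * (1 / (N : ℝ)) := by positivity
  rw [h6] at hA1' hA2' hA3
  calc (((box2 N).filter fun u => ¬ GoodU z u).card : ℝ)
      ≤ A1.card + (A2.card + (A3.card + (B1.card + B2.card))) := htot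
    _ ≤ 1458 * (N : ℝ) ^ 6 * (1 / (z : ℝ) + 1 / (N : ℝ)) := by
        have e1 : 1458 * (N : ℝ) ^ 6 * (1 / (z : ℝ) + 1 / (N : ℝ)) =
          729 * (N : ℝ) ^ 6 * (1 / (z : ℝ)) + 729 * (N : ℝ) ^ 6 * (1 / (z : ℝ)) +
            1458 * ((N : ℝ) ^ 6 * (1 / (N : ℝ))) := by ring
        rw [e1]
        linarith

/-- Few triples are not rough. -/
theorem rough_card (m : ℕ) (hm : 1 ≤ m) : ∃ C : ℝ, 0 < C ∧ ∀ H N z P : ℕ, 0 < N → 8 * N ^ 4 ≤ H → 1 ≤ z →
    (((Bx m H N).filter fun g => ¬ Rough z P g.1 g.2).card : ℝ) ≤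
      C * (H : ℝ) ^ (m + 1) * (N : ℝ) ^ 6 * ((1 + Real.log N) / z + 1 / N + (P : ℝ) / (H : ℝ) ^ 2) := by
  obtain ⟨C0, hC0, h0⟩ := rough_u m hm
  obtain ⟨C1, hC1, h1⟩ := goodU_card
  refine ⟨729 * C0 + 3 ^ (m + 1) * C1, by positivity, fun H N z P hN hH hz => ?_⟩
  have hN0 : (0 : ℝ) < N := by exact_mod_cast hN
  have hN1 : (1 : ℝ) ≤ N := by exact_mod_cast hN
  have hz0 : (0 : ℝ) < z := by exact_mod_cast hz
  have hHn : 1 ≤ H := by
    have : 1 ≤ N ^ 4 := Nat.one_le_pow _ _ hN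
    omega
  have hH1 : (1 : ℝ) ≤ H := by exact_mod_cast hHn
  have hlog : 0 ≤ Real.log N := Real.log_nonneg hN1
  obtain ⟨T, hT⟩ : ∃ T : ℝ, T = (1 + Real.log N) / z + 1 / N + (P : ℝ) / (H : ℝ) ^ 2 := ⟨_, rfl⟩
  have hT0 : 0 ≤ T := by
    rw [hT]
    positivity
  have hT1 : (1 + Real.log N) / z + (P : ℝ) / (H : ℝ) ^ 2 ≤ T := by
    rw [hT]
    have : (0 : ℝ) ≤ 1 / N := by positivity
    linarith
  have hT2 : 1 / (z : ℝ) + 1 / N ≤ T := by
    rw [hT]
    have e1 : (1 : ℝ) / z ≤ (1 + Real.log N) / z := by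
      apply div_le_div_of_nonneg_right _ hz0.le
      linarith
    have e2 : (0 : ℝ) ≤ (P : ℝ) / (H : ℝ) ^ 2 := by positivity
    linarith
  rw [← hT]
  have hcard : ((Bx m H N).filter fun g => ¬ Rough z P g.1 g.2).card =
      ∑ u ∈ box2 N, ((boxN m H).filter fun f => ¬ Rough z P f u).card := by
    unfold Bx
    simp only [card_filter]
    rw [sum_product_right]
  rw [hcard]
  push_cast
  rw [← sum_filter_add_sum_filter_not (box2 N) (fun u => GoodU z u)]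
  have g1 : ∑ u ∈ (box2 N).filter (fun u => GoodU z u),
      (((boxN m H).filter fun f => ¬ Rough z P f u).card : ℝ) ≤
      (729 * (N : ℝ) ^ 6) * (C0 * (H : ℝ) ^ (m + 1) * T) := by
    calc ∑ u ∈ (box2 N).filter (fun u => GoodU z u),
        (((boxN m H).filter fun f => ¬ Rough z P f u).card : ℝ)
        ≤ ∑ _u ∈ (box2 N).filter (fun u => GoodU z u), C0 * (H : ℝ) ^ (m + 1) * T := by
          apply sum_le_sum
          intro u hu
          obtain ⟨hu1, hu2⟩ := mem_filter.1 hu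
          refine (h0 H N z P hN hH hz u hu1 hu2).trans ?_
          exact mul_le_mul_of_nonneg_left hT1 (by positivity)
      _ = (((box2 N).filter (fun u => GoodU z u)).card : ℝ) * (C0 * (H : ℝ) ^ (m + 1) * T) := by
          rw [sum_const, nsmul_eq_mul]
      _ ≤ (729 * (N : ℝ) ^ 6) * (C0 * (H : ℝ) ^ (m + 1) * T) := by
          apply mul_le_mul_of_nonneg_right _ (by positivity)
          have e1 : ((box2 N).filter (fun u => GoodU z u)).card ≤ (2 * N + 1) ^ 6 := by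
            rw [← XC_box2]
            exact card_filter_le _ _
          have e2 : (((box2 N).filter (fun u => GoodU z u)).card : ℝ) ≤ (2 * (N : ℝ) + 1) ^ 6 := by
            exact_mod_cast e1
          refine e2.trans ?_
          calc (2 * (N : ℝ) + 1) ^ 6 ≤ (3 * (N : ℝ)) ^ 6 := by
                apply pow_le_pow_left₀ (by positivity)
                linarith
            _ = 729 * (N : ℝ) ^ 6 := by ring
  have g2 : ∑ u ∈ (box2 N).filter (fun u => ¬ GoodU z u),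
      (((boxN m H).filter fun f => ¬ Rough z P f u).card : ℝ) ≤
      (C1 * (N : ℝ) ^ 6 * T) * (3 ^ (m + 1) * (H : ℝ) ^ (m + 1)) := by
    calc ∑ u ∈ (box2 N).filter (fun u => ¬ GoodU z u),
        (((boxN m H).filter fun f => ¬ Rough z P f u).card : ℝ)
        ≤ ∑ _u ∈ (box2 N).filter (fun u => ¬ GoodU z u), 3 ^ (m + 1) * (H : ℝ) ^ (m + 1) := by
          apply sum_le_sum
          intro u hu
          have e1 : ((boxN m H).filter fun f => ¬ Rough z P f u).card ≤ (2 * H + 1) ^ (m + 1) := by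
            rw [← card_boxN]
            exact card_filter_le _ _
          have e2 : (((boxN m H).filter fun f => ¬ Rough z P f u).card : ℝ) ≤
              (2 * (H : ℝ) + 1) ^ (m + 1) := by
            exact_mod_cast e1
          refine e2.trans ?_
          rw [← mul_pow]
          apply pow_le_pow_left₀ (by positivity)
          linarith
      _ = (((box2 N).filter (fun u => ¬ GoodU z u)).card : ℝ) * (3 ^ (m + 1) * (H : ℝ) ^ (m + 1)) := by
          rw [sum_const, nsmul_eq_mul]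
      _ ≤ (C1 * (N : ℝ) ^ 6 * T) * (3 ^ (m + 1) * (H : ℝ) ^ (m + 1)) := by
          apply mul_le_mul_of_nonneg_right _ (by positivity)
          refine (h1 N z hN hz).trans ?_
          exact mul_le_mul_of_nonneg_left hT2 (by positivity)
  calc _ ≤ (729 * (N : ℝ) ^ 6) * (C0 * (H : ℝ) ^ (m + 1) * T) +
        (C1 * (N : ℝ) ^ 6 * T) * (3 ^ (m + 1) * (H : ℝ) ^ (m + 1)) := add_le_add g1 g2
    _ = (729 * C0 + 3 ^ (m + 1) * C1) * (H : ℝ) ^ (m + 1) * (N : ℝ) ^ 6 * T := by ring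

end FQQ
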