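import Pool.Agent.Lib.MP_10e784_agF.SA
import Pool.Agent.Lib.MP_10e784_agF.TA
import Pool.Agent.Lib.MP_10e784_agF.XC
import Pool.Agent.Lib.MP_1ad228_ntG.E2c
import Pool.Agent.Lib.MP_1ad228_ntG.E3e

/-! JOB AE -/

set_option autoImplicit false

open Classical

namespace FQQ

open Finset Polynomial FGO

/-- everything in `Typical` except the last condition -/
def Typ7 {m : ℕ} (H N P0 z0 q0 q1 : ℕ) (f : Vn m) (u : V × V) : Prop :=
  (∀ p ∈ PQ P0 z0, TypP p f u) ∧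
  (∀ i, (nE (PQ P0 z0) i f u : ℝ) ≤ 101 / 100 * ∑ p ∈ PQ P0 z0, 1 / (p : ℝ)) ∧
  (∀ j, 99 / 100 * ∑ p ∈ PQ P0 z0, 1 / (p : ℝ) ≤ (nD (PQ P0 z0) j u : ℝ)) ∧
  Lpr (PQ P0 z0) f u ≤ q1 ∧ Rough z0 (PM m H N) f u ∧ ¬ Exc2 P0 u ∧ ¬ Exc3 N q0 u

private theorem AE_prime {P0 z0 p : ℕ} (hp : p ∈ PQ P0 z0) : p.Prime ∧ P0 < p ∧ p ≤ z0 := by
  unfold PQ at hp
  obtain ⟨h1, h2⟩ := mem_filter.1 hp
  obtain ⟨h3, h4⟩ := mem_Ioc.1 h1
  exact ⟨h2, h3, h4⟩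

private theorem AE_ex {m H N P0 z0 q0 q1 : ℕ} {f : Vn m} {u : V × V} (hT : Typ7 H N P0 z0 q0 q1 f u)
    (hS : 0 < ∑ p ∈ PQ P0 z0, 1 / (p : ℝ)) (j : Fin 2) :
    ∃ p ∈ PQ P0 z0, Dc (cV p u.1) (cV p u.2) j = 0 := by
  have h1 := hT.2.2.1 j
  have h2 : (0 : ℝ) < nD (PQ P0 z0) j u := lt_of_lt_of_le (by positivity) h1
  have h3 : 0 < nD (PQ P0 z0) j u := by exact_mod_cast h2
  unfold nD at h3
  obtain ⟨p, hp⟩ := card_pos.1 h3
  obtain ⟨h4, h5⟩ := mem_filter.1 hp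
  exact ⟨p, h4, h5⟩

private theorem AE_sq {p : ℕ} (hp : p.Prime) {n : ℤ} (h1 : (p : ℤ) ∣ n) (h2 : ¬ (p : ℤ) ^ 2 ∣ n) :
    ¬ IsSquare n := by
  rintro ⟨r, hr⟩
  have hp' : Prime (p : ℤ) := Nat.prime_iff_prime_int.1 hp
  have h3 : (p : ℤ) ∣ r := by
    rw [hr] at h1
    rcases hp'.dvd_or_dvd h1 with h | h <;> exact h
  apply h2
  rw [hr, ← pow_two]
  exact pow_dvd_pow_of_dvd h3 2

/-- The discriminants are not squares and the resultant is not zero. -/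
theorem typ7_ne {m H N P0 z0 q0 q1 : ℕ} {f : Vn m} {u : V × V} (hT : Typ7 H N P0 z0 q0 q1 f u)
    (hS : 0 < ∑ p ∈ PQ P0 z0, 1 / (p : ℝ)) : ¬ IsSquare (ds u.1) ∧ ¬ IsSquare (ds u.2) ∧ rs u.1 u.2 ≠ 0 := by
  have key : ∀ j : Fin 2, ¬ IsSquare (Dc u.1 u.2 j) := by
    intro j
    obtain ⟨p, hp, hD⟩ := AE_ex hT hS j
    have h1 : (p : ℤ) ∣ Dc u.1 u.2 j := by
      apply (ZMod.intCast_zmod_eq_zero_iff_dvd _ _).1
      rw [Dc_cast p f]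
      exact hD
    exact AE_sq (AE_prime hp).1 h1 ((hT.1 p hp).2.2.2.1 j)
  refine ⟨key 0, key 1, ?_⟩
  intro h0
  obtain ⟨p, hp, hD⟩ := AE_ex hT hS 0
  have h1 : (p : ℤ) ∣ Rv f u.1 u.2 0 := by
    have : Rv f u.1 u.2 0 = rs u.1 u.2 := rfl
    rw [this, h0]
    exact dvd_zero _
  exact (hT.1 p hp).2.1 0 0 ⟨hD, ((hT.1 p hp).2.2.2.2 0 h1).1⟩

private theorem AE_sumsq {P0 z0 : ℕ} (hP0 : 4 ≤ P0) (h : P0 ≤ z0) :
    ∑ p ∈ PQ P0 z0, 1 / (p : ℝ) ^ 2 ≤ 1 / (P0 : ℝ) := by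
  have h1 := sum_Ioc_inv_sq_le_sub (α := ℝ) (k := P0) (n := z0) (by omega) h
  calc ∑ p ∈ PQ P0 z0, 1 / (p : ℝ) ^ 2 ≤ ∑ p ∈ Ioc P0 z0, 1 / (p : ℝ) ^ 2 := by
        apply sum_le_sum_of_subset_of_nonneg
        · unfold PQ
          exact filter_subset _ _
        · intro i _ _
          positivity
    _ = ∑ p ∈ Ioc P0 z0, ((p : ℝ) ^ 2)⁻¹ := sum_congr rfl fun p _ => one_div _
    _ ≤ (P0 : ℝ)⁻¹ - (z0 : ℝ)⁻¹ := h1
    _ ≤ 1 / (P0 : ℝ) := by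
        rw [one_div]
        have : (0 : ℝ) ≤ (z0 : ℝ)⁻¹ := by positivity
        linarith

private theorem AE_prod {m H N : ℕ} (hH : 1 ≤ H) (P : V × V → Prop) (B : ℝ)
    (hB : (((box2 N).filter P).card : ℝ) ≤ B) :
    (((Bx m H N).filter fun g => P g.2).card : ℝ) ≤ 3 ^ (m + 1) * (H : ℝ) ^ (m + 1) * B := by
  have h1 : (Bx m H N).filter (fun g => P g.2) = boxN m H ×ˢ (box2 N).filter P := by
    ext g
    unfold Bx
    simp only [mem_filter, mem_product]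
    tauto
  have hH1 : (1 : ℝ) ≤ H := by exact_mod_cast hH
  rw [h1, card_product, card_boxN]
  push_cast
  refine mul_le_mul ?_ hB (Nat.cast_nonneg _) (by positivity)
  rw [← mul_pow]
  apply pow_le_pow_left₀ (by positivity)
  linarith

/-- Few triples are not typical. -/
theorem notTypical_card (m : ℕ) (hm : 1 ≤ m) : ∃ C : ℝ, 0 < C ∧ ∀ H N P0 z0 q0 q1 : ℕ, 0 < N → 8 * N ^ 4 ≤ H → 4 ≤ P0 →
    P0 ≤ z0 → z0 ^ 2 ≤ 4 * N → 1 < q1 → 0 < q0 → (q0 : ℝ) ^ 8 ≤ (N : ℝ) ^ (2 / 5 : ℝ) →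
    200 ≤ ∑ p ∈ PQ P0 z0, 1 / (p : ℝ) →
    (((Bx m H N).filter fun g => ¬ Typical H N P0 z0 q0 q1 g.1 g.2).card : ℝ) ≤
      C * ((H : ℝ) ^ (m + 1) * (N : ℝ) ^ 6) * (1 / (P0 : ℝ) + 1 / (∑ p ∈ PQ P0 z0, 1 / (p : ℝ)) +
        Real.log z0 * (∑ p ∈ PQ P0 z0, 1 / (p : ℝ)) / Real.log q1 + (1 + Real.log N) / z0 + 1 / N +
        (PM m H N : ℝ) / (H : ℝ) ^ 2 + 1 / (N : ℝ) ^ (1 / 10 : ℝ)) +
      (((Bx m H N).filter fun g => Typ7 H N P0 z0 q0 q1 g.1 g.2 ∧ ExcF H q0 (PM m H N) g.1 g.2).card : ℝ) := by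
  obtain ⟨C5, hC5, h5⟩ := rough_card m hm
  obtain ⟨C6, hC6, h6⟩ := exc2_card
  obtain ⟨C7, hC7, h7⟩ := exc3_card
  refine ⟨500000 * 8 ^ (m + 7) + C5 + 3 ^ (m + 1) * C6 + 3 ^ (m + 1) * C7, by positivity, ?_⟩
  intro H N P0 z0 q0 q1 hN hH hP0 hPz hz0 hq1 hq0 hq8 hS200
  have hN0 : (0 : ℝ) < N := by exact_mod_cast hN
  have hN1 : (1 : ℝ) ≤ N := by exact_mod_cast hN
  have hN4 : N ≤ N ^ 4 := Nat.le_self_pow (by norm_num) N
  have hNH : N ≤ H := by omega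
  have hH1 : 1 ≤ H := by omega
  have hz01 : 1 ≤ z0 := by omega
  have hz0r : (1 : ℝ) ≤ z0 := by exact_mod_cast hz01
  have hP0r : (0 : ℝ) < P0 := by
    have : (4 : ℝ) ≤ P0 := by exact_mod_cast hP0
    linarith
  have hzz : z0 ≤ z0 ^ 2 := Nat.le_self_pow (by norm_num) z0
  have hq1r : (1 : ℝ) < q1 := by exact_mod_cast hq1
  have hlq1 : 0 < Real.log q1 := Real.log_pos hq1r
  have hQ1 : ∀ p ∈ PQ P0 z0, p.Prime := fun p hp => (AE_prime hp).1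
  have hQ2 : ∀ p ∈ PQ P0 z0, p.Prime ∧ p ≠ 2 := by
    intro p hp
    obtain ⟨a, b, c⟩ := AE_prime hp
    exact ⟨a, by omega⟩
  have hQ3 : ∀ p ∈ PQ P0 z0, ∀ p' ∈ PQ P0 z0, p * p' ≤ 4 * N := by
    intro p hp p' hp'
    have a := (AE_prime hp).2.2
    have a' := (AE_prime hp').2.2
    calc p * p' ≤ z0 * z0 := Nat.mul_le_mul a a'
      _ = z0 ^ 2 := by ring
      _ ≤ 4 * N := hz0
  have hQ4 : ∀ p ∈ PQ P0 z0, p.Prime ∧ p ≠ 2 ∧ p ^ 2 ≤ 4 * N := by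
    intro p hp
    refine ⟨(hQ2 p hp).1, (hQ2 p hp).2, ?_⟩
    rw [pow_two]
    exact hQ3 p hp p hp
  have hQ5 : ∀ p ∈ PQ P0 z0, p.Prime ∧ p ≠ 2 ∧ p ≤ 4 * N ∧ p ≤ z0 := by
    intro p hp
    have a := (AE_prime hp).2.2
    exact ⟨(hQ2 p hp).1, (hQ2 p hp).2, by omega, a⟩
  obtain ⟨S, hS⟩ : ∃ S : ℝ, S = ∑ p ∈ PQ P0 z0, 1 / (p : ℝ) := ⟨_, rfl⟩
  have k1 := typ_card (m := m) hm hN hNH (PQ P0 z0) hQ4
  have k2 := fun i => nE_card (m := m) hN hNH (PQ P0 z0) hQ1 hQ3 hS200 i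
  have k3 := fun j => nD_card (m := m) hN hNH (PQ P0 z0) hQ2 hQ3 hS200 j
  have k4 := Lpr_card (m := m) hm hN hNH (PQ P0 z0) hQ5 hq1 hz01
  have k5 := h5 H N z0 (PM m H N) hN hH hz01
  have k6 := AE_prod (m := m) hH1 (Exc2 P0) _ (h6 N P0 hN (by omega))
  have k7 := AE_prod (m := m) hH1 (Exc3 N q0) _ (h7 N q0 hN hq0)
  have ksq := AE_sumsq hP0 hPz
  rw [← hS] at hS200 k4 ⊢
  simp only [← hS] at k2 k3
  have hS0 : 0 < S := by linarith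
  -- the exceptional sets
  let F1 := (Bx m H N).filter fun g => ∃ p ∈ PQ P0 z0, ¬ TypP p g.1 g.2
  let F2 : Fin 3 → Finset (Vn m × (V × V)) := fun i =>
    (Bx m H N).filter fun g => 101 / 100 * S < (nE (PQ P0 z0) i g.1 g.2 : ℝ)
  let F3 : Fin 2 → Finset (Vn m × (V × V)) := fun j =>
    (Bx m H N).filter fun g => (nD (PQ P0 z0) j g.2 : ℝ) < 99 / 100 * S
  let F4 := (Bx m H N).filter fun g => q1 < Lpr (PQ P0 z0) g.1 g.2
  let F5 := (Bx m H N).filter fun g => ¬ Rough z0 (PM m H N) g.1 g.2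
  let F6 := (Bx m H N).filter fun g => Exc2 P0 g.2
  let F7 := (Bx m H N).filter fun g => Exc3 N q0 g.2
  let F8 := (Bx m H N).filter fun g => Typ7 H N P0 z0 q0 q1 g.1 g.2 ∧ ExcF H q0 (PM m H N) g.1 g.2
  have hsub : ((Bx m H N).filter fun g => ¬ Typical H N P0 z0 q0 q1 g.1 g.2) ⊆
      F1 ∪ ((univ.biUnion F2) ∪ ((univ.biUnion F3) ∪ (F4 ∪ (F5 ∪ (F6 ∪ (F7 ∪ F8)))))) := by
    intro g hg
    obtain ⟨hg1, hg2⟩ := mem_filter.1 hg
    simp only [mem_union, mem_biUnion, mem_univ, true_and]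
    by_contra hcon
    push Not at hcon
    obtain ⟨n1, n2, n3, n4, n5, n6, n7, n8⟩ := hcon
    have t1 : ∀ p ∈ PQ P0 z0, TypP p g.1 g.2 := by
      intro p hp
      by_contra h
      exact n1 (mem_filter.2 ⟨hg1, p, hp, h⟩)
    have t2 : ∀ i, (nE (PQ P0 z0) i g.1 g.2 : ℝ) ≤ 101 / 100 * ∑ p ∈ PQ P0 z0, 1 / (p : ℝ) := by
      intro i
      rw [← hS]
      by_contra h
      exact n2 i (mem_filter.2 ⟨hg1, not_le.1 h⟩)
    have t3 : ∀ j, 99 / 100 * ∑ p ∈ PQ P0 z0, 1 / (p : ℝ) ≤ (nD (PQ P0 z0) j g.2 : ℝ) := by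
      intro j
      rw [← hS]
      by_contra h
      exact n3 j (mem_filter.2 ⟨hg1, not_le.1 h⟩)
    have t4 : Lpr (PQ P0 z0) g.1 g.2 ≤ q1 := by
      by_contra h
      exact n4 (mem_filter.2 ⟨hg1, not_le.1 h⟩)
    have t5 : Rough z0 (PM m H N) g.1 g.2 := by
      by_contra h
      exact n5 (mem_filter.2 ⟨hg1, h⟩)
    have t6 : ¬ Exc2 P0 g.2 := fun h => n6 (mem_filter.2 ⟨hg1, h⟩)
    have t7 : ¬ Exc3 N q0 g.2 := fun h => n7 (mem_filter.2 ⟨hg1, h⟩)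
    have t8 : ¬ ExcF H q0 (PM m H N) g.1 g.2 := fun h =>
      n8 (mem_filter.2 ⟨hg1, ⟨t1, t2, t3, t4, t5, t6, t7⟩, h⟩)
    exact hg2 ⟨t1, t2, t3, t4, t5, t6, t7, t8⟩
  have hcard : (((Bx m H N).filter fun g => ¬ Typical H N P0 z0 q0 q1 g.1 g.2).card : ℝ) ≤
      F1.card + (∑ i, ((F2 i).card : ℝ)) + (∑ j, ((F3 j).card : ℝ)) + F4.card + F5.card + F6.card +
        F7.card + F8.card := by
    have a0 := card_le_card hsub
    have a1 := card_union_le F1 ((univ.biUnion F2) ∪ ((univ.biUnion F3) ∪ (F4 ∪ (F5 ∪ (F6 ∪ (F7 ∪ F8))))))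
    have a2 := card_union_le (univ.biUnion F2) ((univ.biUnion F3) ∪ (F4 ∪ (F5 ∪ (F6 ∪ (F7 ∪ F8)))))
    have a3 := card_union_le (univ.biUnion F3) (F4 ∪ (F5 ∪ (F6 ∪ (F7 ∪ F8))))
    have a4 := card_union_le F4 (F5 ∪ (F6 ∪ (F7 ∪ F8)))
    have a5 := card_union_le F5 (F6 ∪ (F7 ∪ F8))
    have a6 := card_union_le F6 (F7 ∪ F8)
    have a7 := card_union_le F7 F8
    have b2 : (univ.biUnion F2).card ≤ ∑ i, (F2 i).card := card_biUnion_le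
    have b3 : (univ.biUnion F3).card ≤ ∑ j, (F3 j).card := card_biUnion_le
    have : ((Bx m H N).filter fun g => ¬ Typical H N P0 z0 q0 q1 g.1 g.2).card ≤
      F1.card + (∑ i, (F2 i).card) + (∑ j, (F3 j).card) + F4.card + F5.card + F6.card +
        F7.card + F8.card := by omega
    exact_mod_cast this
  -- the bounds
  obtain ⟨W, hW⟩ : ∃ W : ℝ, W = (H : ℝ) ^ (m + 1) * (N : ℝ) ^ 6 := ⟨_, rfl⟩
  have hW0 : 0 ≤ W := by
    rw [hW]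
    positivity
  have hW8 : (8 * (H : ℝ)) ^ (m + 1) * (8 * (N : ℝ)) ^ 6 = 8 ^ (m + 7) * W := by
    rw [hW, mul_pow, mul_pow, show m + 7 = (m + 1) + 6 by ring, pow_add (8 : ℝ) (m + 1) 6]
    ring
  obtain ⟨E, hE⟩ : ∃ E : ℝ, E = 1 / (P0 : ℝ) + 1 / S + Real.log z0 * S / Real.log q1 +
      (1 + Real.log N) / z0 + 1 / N + (PM m H N : ℝ) / (H : ℝ) ^ 2 + 1 / (N : ℝ) ^ (1 / 10 : ℝ) :=
    ⟨_, rfl⟩
  have e1 : 0 ≤ 1 / (P0 : ℝ) := by positivity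
  have e2 : 0 ≤ 1 / S := by positivity
  have e3 : 0 ≤ Real.log z0 * S / Real.log q1 := by
    have := Real.log_nonneg hz0r
    positivity
  have e4 : 0 ≤ (1 + Real.log N) / (z0 : ℝ) := by
    have := Real.log_nonneg hN1
    positivity
  have e5 : (0 : ℝ) ≤ 1 / N := by positivity
  have e6 : 0 ≤ (PM m H N : ℝ) / (H : ℝ) ^ 2 := by positivity
  have e7 : 0 ≤ 1 / (N : ℝ) ^ (1 / 10 : ℝ) := by positivity
  rw [← hE, ← hW]
  have ha : (0 : ℝ) ≤ 8 ^ (m + 7) * W := by positivity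
  have hb : (0 : ℝ) ≤ 3 ^ (m + 1) := by positivity
  have m1 : (F1.card : ℝ) ≤ 8 ^ (m + 7) * W * (60 * E) := by
    refine k1.trans ?_
    rw [hW8]
    apply mul_le_mul_of_nonneg_left _ ha
    rw [hE]
    linarith
  have m2 : (∑ i, ((F2 i).card : ℝ)) ≤ 8 ^ (m + 7) * W * (240000 * E) := by
    calc (∑ i, ((F2 i).card : ℝ)) ≤ ∑ _i : Fin 3, 8 ^ (m + 7) * W * (80000 * E) := by
          apply sum_le_sum
          intro i _
          refine (k2 i).trans ?_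
          rw [hW8]
          apply mul_le_mul_of_nonneg_left _ ha
          rw [hE, div_eq_mul_one_div]
          linarith
      _ = 8 ^ (m + 7) * W * (240000 * E) := by
          rw [sum_const, card_univ, Fintype.card_fin, nsmul_eq_mul]
          push_cast
          ring
  have m3 : (∑ j, ((F3 j).card : ℝ)) ≤ 8 ^ (m + 7) * W * (160000 * E) := by
    calc (∑ j, ((F3 j).card : ℝ)) ≤ ∑ _j : Fin 2, 8 ^ (m + 7) * W * (80000 * E) := by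
          apply sum_le_sum
          intro j _
          refine (k3 j).trans ?_
          rw [hW8]
          apply mul_le_mul_of_nonneg_left _ ha
          rw [hE, div_eq_mul_one_div]
          linarith
      _ = 8 ^ (m + 7) * W * (160000 * E) := by
          rw [sum_const, card_univ, Fintype.card_fin, nsmul_eq_mul]
          push_cast
          ring
  have m4 : (F4.card : ℝ) ≤ 8 ^ (m + 7) * W * (6 * E) := by
    refine k4.trans ?_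
    rw [hW8]
    apply mul_le_mul_of_nonneg_left _ ha
    have : 6 * Real.log z0 * S / Real.log q1 = 6 * (Real.log z0 * S / Real.log q1) := by ring
    rw [this, hE]
    linarith
  have m5 : (F5.card : ℝ) ≤ C5 * W * E := by
    refine k5.trans ?_
    have : C5 * (H : ℝ) ^ (m + 1) * (N : ℝ) ^ 6 = C5 * W := by
      rw [hW]
      ring
    rw [this]
    apply mul_le_mul_of_nonneg_left _ (by positivity)
    rw [hE]
    linarith
  have m6 : (F6.card : ℝ) ≤ 3 ^ (m + 1) * C6 * W * E := by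
    refine k6.trans ?_
    have : 3 ^ (m + 1) * (H : ℝ) ^ (m + 1) * (C6 * ((N : ℝ) ^ 6 / P0 + (N : ℝ) ^ 5)) =
        3 ^ (m + 1) * C6 * W * (1 / (P0 : ℝ) + 1 / N) := by
      rw [hW]
      field_simp
    rw [this]
    apply mul_le_mul_of_nonneg_left _ (by positivity)
    rw [hE]
    linarith
  have m7 : (F7.card : ℝ) ≤ 3 ^ (m + 1) * C7 * W * E := by
    refine k7.trans ?_
    have f1 : (q0 : ℝ) ^ 8 * (N : ℝ) ^ (11 / 2 : ℝ) ≤ (N : ℝ) ^ 6 * (1 / (N : ℝ) ^ (1 / 10 : ℝ)) := by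
      have f2 : (N : ℝ) ^ 6 * (1 / (N : ℝ) ^ (1 / 10 : ℝ)) = (N : ℝ) ^ (2 / 5 : ℝ) * (N : ℝ) ^ (11 / 2 : ℝ) := by
        rw [← Real.rpow_add hN0, one_div, ← Real.rpow_neg hN0.le, ← Real.rpow_natCast,
          ← Real.rpow_add hN0]
        norm_num
      rw [f2]
      exact mul_le_mul_of_nonneg_right hq8 (by positivity)
    calc 3 ^ (m + 1) * (H : ℝ) ^ (m + 1) * (C7 * (q0 : ℝ) ^ 8 * (N : ℝ) ^ (11 / 2 : ℝ))
        = (3 ^ (m + 1) * (H : ℝ) ^ (m + 1) * C7) * ((q0 : ℝ) ^ 8 * (N : ℝ) ^ (11 / 2 : ℝ)) := by ring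
      _ ≤ (3 ^ (m + 1) * (H : ℝ) ^ (m + 1) * C7) * ((N : ℝ) ^ 6 * (1 / (N : ℝ) ^ (1 / 10 : ℝ))) :=
          mul_le_mul_of_nonneg_left f1 (by positivity)
      _ = 3 ^ (m + 1) * C7 * W * (1 / (N : ℝ) ^ (1 / 10 : ℝ)) := by
          rw [hW]
          ring
      _ ≤ 3 ^ (m + 1) * C7 * W * E := by
          apply mul_le_mul_of_nonneg_left _ (by positivity)
          rw [hE]
          linarith
  have hE0 : 0 ≤ E := by
    rw [hE]
    linarith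
  have hfin : 0 ≤ 8 ^ (m + 7) * W * E := mul_nonneg ha hE0
  calc (((Bx m H N).filter fun g => ¬ Typical H N P0 z0 q0 q1 g.1 g.2).card : ℝ)
      ≤ F1.card + (∑ i, ((F2 i).card : ℝ)) + (∑ j, ((F3 j).card : ℝ)) + F4.card + F5.card + F6.card +
        F7.card + F8.card := hcard
    _ ≤ 8 ^ (m + 7) * W * (60 * E) + 8 ^ (m + 7) * W * (240000 * E) + 8 ^ (m + 7) * W * (160000 * E) +
        8 ^ (m + 7) * W * (6 * E) + C5 * W * E + 3 ^ (m + 1) * C6 * W * E + 3 ^ (m + 1) * C7 * W * E +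
        F8.card := by linarith
    _ ≤ (500000 * 8 ^ (m + 7) + C5 + 3 ^ (m + 1) * C6 + 3 ^ (m + 1) * C7) * W * E + F8.card := by
        have g1 : (500000 * 8 ^ (m + 7) + C5 + 3 ^ (m + 1) * C6 + 3 ^ (m + 1) * C7) * W * E =
          500000 * (8 ^ (m + 7) * W * E) + C5 * W * E + 3 ^ (m + 1) * C6 * W * E +
            3 ^ (m + 1) * C7 * W * E := by ring
        have g2 : 8 ^ (m + 7) * W * (60 * E) + 8 ^ (m + 7) * W * (240000 * E) +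
            8 ^ (m + 7) * W * (160000 * E) + 8 ^ (m + 7) * W * (6 * E) =
          400066 * (8 ^ (m + 7) * W * E) := by ring
        rw [g1, g2]
        linarith

end FQQ
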