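import Pool.Agent.Lib.MP_10e784_agF.D3
import Pool.Agent.Lib.MP_10e784_agF.KN7
import Pool.Agent.Lib.MP_10e784_agF.KT1
import Pool.Agent.Lib.MP_10e784_agF.LS

/-! JOB UB -/

set_option autoImplicit false

open Classical

namespace FQQ

open Finset Polynomial FGO

/-- the tail of the sieve -/
noncomputable def TT (Q : Finset ℕ) (k : ℕ) : ℝ := (6 * ∑ p ∈ Q, 1 / (p : ℝ)) ^ (2 * k + 1) / ((2 * k + 1).factorial : ℝ)

/-- the bound of the first stage, as a function of `u` -/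
noncomputable def FF {m : ℕ} (Q : Finset ℕ) (k : ℕ) (t : Fin 3 → Bool) (U : Fin 3 → ℤ) (lam : ℕ → Lab) (u : V × V) : ℝ :=
  (∏ p ∈ Q.filter (fun p => lam p ≠ Lab.O), ExN m p fun f => gp t U (lam p) p f u) *
    (∏ p ∈ Q.filter (fun p => lam p = Lab.O), (1 - ExN m p fun f => xo p f u) + TT Q k)

theorem TT_nonneg (Q : Finset ℕ) (k : ℕ) : 0 ≤ TT Q k := by
  unfold TT
  positivity

/-- Proof. All factors are `≥ 0` (`0 ≤ xo ≤ 1`, `ExN_le_one`). -/
theorem FF_nonneg {m : ℕ} (Q : Finset ℕ) (hQ : ∀ p ∈ Q, p.Prime) (k : ℕ) (t : Fin 3 → Bool) (U : Fin 3 → ℤ)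
    (lam : ℕ → Lab) (u : V × V) : 0 ≤ FF (m := m) Q k t U lam u := by
  unfold FF
  apply mul_nonneg
  · apply Finset.prod_nonneg
    intro p _
    exact ExN_nonneg m p _ fun f => (gp_nonneg p t U (lam p) f u).1
  · apply add_nonneg
    · apply Finset.prod_nonneg
      intro p hp
      have h1 : ExN m p (fun f => xo p f u) ≤ 1 :=
        ExN_le_one (hQ p (Finset.mem_filter.1 hp).1).pos _ fun f => (xo_nonneg p f u).2
      linarith
    · exact TT_nonneg Q k

/-- (first stage) Proof. `∏ p ∈ Q, gp (lam p) = (∏_{lam ≠ O} gp) * ∏_{lam = O} (1 - xo)` (`gp_O`).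
Case 1: for some `p ∈ Q` with `lam p = O` the hypothesis of `xo_eq_one` holds: all terms of the sum are `0`, and the right side is `≥ 0`.
Case 2: otherwise `ExN xo ≤ 4/p` for all `p` with `lam p = O` (`ExN_xo`). `sieveN` with `G = ∏_{lam ≠ O} p ≤ q1`, `φ = ∏_{lam ≠ O} gp` (`Per3_gp`, `Per3.left`, `ExN_prod`), `Q := Q.filter (lam = O)`, `x p = xo p · u`,
`B = 6 ∑_{p ∈ Q} 1/p ≥ ∑ 4/p`; `hk` gives `G * ∏_D p ≤ q0`. The primes of `Q` do not divide `M`, so `M` is coprime to `G`. -/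
theorem stageF {m H M q0 q1 k : ℕ} (hH : 0 < H) (hM : 0 < M) (Q : Finset ℕ) (hQ : ∀ p ∈ Q, p.Prime ∧ ¬ p ∣ M)
    (hk : ∀ D ⊆ Q, D.card ≤ 2 * k → q1 * ∏ p ∈ D, p ≤ q0) (t : Fin 3 → Bool) (U : Fin 3 → ℤ) (lam : ℕ → Lab)
    (hq1 : ∏ p ∈ Q.filter (fun p => lam p ≠ Lab.O), p ≤ q1) (r : ℤ) (hG : GoodN m H q0 M r) (u : V × V) :
    ∑ f ∈ (boxN m H).filter (fun f => (M : ℤ) ∣ evn f r), ∏ p ∈ Q, gp t U (lam p) p f u ≤
      (8 * (H : ℝ)) ^ (m + 1) / (M : ℝ) * FF (m := m) Q k t U lam u := by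
  have hQp : ∀ p ∈ Q, p.Prime := fun p hp => (hQ p hp).1
  set SO : Finset ℕ := Q.filter (fun p => lam p = Lab.O) with hSO
  set SL : Finset ℕ := Q.filter (fun p => lam p ≠ Lab.O) with hSL
  have hprod : ∀ f : Vn m, ∏ p ∈ Q, gp t U (lam p) p f u =
      (∏ p ∈ SL, gp t U (lam p) p f u) * ∏ p ∈ SO, (1 - xo p f u) := by
    intro f
    rw [← Finset.prod_filter_mul_prod_filter_not Q (fun p => lam p = Lab.O), mul_comm]
    congr 1
    apply Finset.prod_congr rfl
    intro p hp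
    rw [(Finset.mem_filter.1 hp).2, gp_O]
  have hFF0 : 0 ≤ (8 * (H : ℝ)) ^ (m + 1) / (M : ℝ) * FF (m := m) Q k t U lam u := by
    apply mul_nonneg
    · positivity
    · exact FF_nonneg Q hQp k t U lam u
  by_cases hcase : ∀ p ∈ SO, (∀ f : Vn m, ¬ E (cN p f) (cV p u.1) (cV p u.2) 0) ∧ ∀ j, Dc (cV p u.1) (cV p u.2) j ≠ 0
  · have hG0 : 0 < ∏ p ∈ SL, p := Finset.prod_pos fun p hp => (hQp p (Finset.mem_filter.1 hp).1).pos
    have hPr := ExN_prod (m := m) SL (fun p hp => hQp p (Finset.mem_filter.1 hp).1)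
      (fun p f => gp t U (lam p) p f u) (fun p _ => (Per3_gp p t U (lam p)).left u)
    have hB : ∑ p ∈ SO, ExN m p (fun f => xo p f u) ≤ 6 * ∑ p ∈ Q, 1 / (p : ℝ) := by
      calc ∑ p ∈ SO, ExN m p (fun f => xo p f u) ≤ ∑ p ∈ SO, 6 * (1 / (p : ℝ)) := by
            apply Finset.sum_le_sum
            intro p hp
            have h1 := ExN_xo (m := m) p (hQp p (Finset.mem_filter.1 hp).1) u (hcase p hp).1 (hcase p hp).2
            have h2 : (4 : ℝ) / (p : ℝ) ≤ 6 * (1 / (p : ℝ)) := by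
              rw [mul_one_div]
              exact div_le_div_of_nonneg_right (by norm_num) (Nat.cast_nonneg p)
            exact le_trans h1 h2
        _ ≤ ∑ p ∈ Q, 6 * (1 / (p : ℝ)) := by
            apply Finset.sum_le_sum_of_subset_of_nonneg (Finset.filter_subset _ _)
            intro p _ _
            positivity
        _ = 6 * ∑ p ∈ Q, 1 / (p : ℝ) := by rw [Finset.mul_sum]
    have hS := sieveN (m := m) (k := k) (r := r) hH hM hG0 SO ?_ ?_ ?_ hG
      (fun f => ∏ p ∈ SL, gp t U (lam p) p f u) hPr.1 ?_ (fun p f => xo p f u) ?_ ?_ ?_ _ hB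
    · calc ∑ f ∈ (boxN m H).filter (fun f => (M : ℤ) ∣ evn f r), ∏ p ∈ Q, gp t U (lam p) p f u
          = ∑ f ∈ (boxN m H).filter (fun f => (M : ℤ) ∣ evn f r),
            (∏ p ∈ SL, gp t U (lam p) p f u) * ∏ p ∈ SO, (1 - xo p f u) := by
            apply Finset.sum_congr rfl
            intro f _
            exact hprod f
        _ ≤ _ := hS
        _ = (8 * (H : ℝ)) ^ (m + 1) / (M : ℝ) * FF (m := m) Q k t U lam u := by
            rw [hPr.2, mul_assoc]
            rfl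
    · intro p hp
      obtain ⟨hpQ, hpO⟩ := Finset.mem_filter.1 hp
      refine ⟨hQp p hpQ, (hQ p hpQ).2, ?_⟩
      intro hdvd
      obtain ⟨q, hq, hpq⟩ := ((hQp p hpQ).prime.dvd_finsetProd_iff _).1 hdvd
      obtain ⟨hqQ, hqO⟩ := Finset.mem_filter.1 hq
      have he : p = q := (Nat.prime_dvd_prime_iff_eq (hQp p hpQ) (hQp q hqQ)).1 hpq
      rw [← he] at hqO
      exact hqO hpO
    · apply Nat.Coprime.prod_right
      intro p hp
      obtain ⟨hpQ, _⟩ := Finset.mem_filter.1 hp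
      exact ((Nat.Prime.coprime_iff_not_dvd (hQp p hpQ)).2 (hQ p hpQ).2).symm
    · intro D hD hc
      exact le_trans (Nat.mul_le_mul_right _ hq1) (hk D (hD.trans (Finset.filter_subset _ _)) hc)
    · intro f
      apply Finset.prod_nonneg
      intro p _
      exact (gp_nonneg p t U (lam p) f u).1
    · intro p _
      exact (Per3_xo p).left u
    · intro p _ f
      exact (xo_nonneg p f u).1
    · intro p _ f
      exact (xo_nonneg p f u).2
  · push Not at hcase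
    obtain ⟨p, hp, hne⟩ := hcase
    have hone : ∀ f : Vn m, xo p f u = 1 := by
      intro f
      apply xo_eq_one
      intro hc
      obtain ⟨j, hj⟩ := hne hc.1
      exact hc.2 j hj
    have hz : ∑ f ∈ (boxN m H).filter (fun f => (M : ℤ) ∣ evn f r), ∏ p ∈ Q, gp t U (lam p) p f u = 0 := by
      apply Finset.sum_eq_zero
      intro f _
      rw [hprod f]
      apply mul_eq_zero_of_right
      apply Finset.prod_eq_zero hp
      rw [hone f]
      ring
    rw [hz]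
    exact hFF0

end FQQ
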