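import Pool.Agent.Lib.MP_10e784_agF.D2
import Pool.Agent.Lib.MP_10e784_agF.UB
import Pool.Agent.Lib.MP_42948a_nt.SV.B1

/-! JOB AN1 -/

set_option autoImplicit false

open Classical

namespace FQQ

open Finset Polynomial FGO

private theorem AN1_ev (C B : ℝ) : ∃ X : ℝ, ∀ x : ℝ, X ≤ x →
    1000 ≤ x ∧ 10000 * (x + 1) ^ 2 ≤ Real.exp (x / 200) ∧ Real.log x + C + 2 ≤ 15 / 1000 * x ∧
    C ≤ 5 / 1000 * x ∧ B + C + 1 ≤ x / 1000 := by
  refine ⟨10 ^ 13 + (100 * (C + 7)) ⊔ (1000 * (B + C + 1)) ⊔ (200 * C) ⊔ 0, fun x hx => ?_⟩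
  have h0 : (0 : ℝ) ≤ (100 * (C + 7)) ⊔ (1000 * (B + C + 1)) ⊔ (200 * C) ⊔ 0 := le_max_right _ _
  have h3 : 200 * C ≤ (100 * (C + 7)) ⊔ (1000 * (B + C + 1)) ⊔ (200 * C) ⊔ 0 :=
    (le_max_right _ _).trans (le_max_left _ _)
  have h1 : 100 * (C + 7) ≤ (100 * (C + 7)) ⊔ (1000 * (B + C + 1)) ⊔ (200 * C) ⊔ 0 :=
    (le_max_left _ _).trans ((le_max_left _ _).trans (le_max_left _ _))
  have h2 : 1000 * (B + C + 1) ≤ (100 * (C + 7)) ⊔ (1000 * (B + C + 1)) ⊔ (200 * C) ⊔ 0 :=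
    (le_max_right _ _).trans ((le_max_left _ _).trans (le_max_left _ _))
  have hx13 : (10 : ℝ) ^ 13 ≤ x := by linarith
  have hx0 : (0 : ℝ) < x := by
    have : (0 : ℝ) < 10 ^ 13 := by positivity
    linarith
  refine ⟨by norm_num at hx13; linarith, ?_, ?_, by norm_num at hx; linarith, ?_⟩
  · have e1 : x / 600 ≤ Real.exp (x / 600) := by
      have := Real.add_one_le_exp (x / 600)
      linarith
    have e2 : Real.exp (x / 200) = Real.exp (x / 600) ^ 3 := by
      rw [← Real.exp_nat_mul]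
      congr 1
      push_cast
      ring
    rw [e2]
    have e3 : (x / 600) ^ 3 ≤ Real.exp (x / 600) ^ 3 := pow_le_pow_left₀ (by positivity) e1 3
    refine le_trans ?_ e3
    have e4 : (x / 600) ^ 3 = x ^ 2 * (x / 216000000) := by ring
    rw [e4]
    have e5 : (40000 : ℝ) ≤ x / 216000000 := by
      rw [le_div_iff₀ (by norm_num)]
      norm_num at hx13
      linarith
    have e6 : (x + 1) ^ 2 ≤ 4 * x ^ 2 := by
      have : (1 : ℝ) ≤ x := by
        norm_num at hx13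
        linarith
      nlinarith
    have e7 : x ^ 2 * 40000 ≤ x ^ 2 * (x / 216000000) := mul_le_mul_of_nonneg_left e5 (sq_nonneg x)
    linarith
  · have e1 : Real.log x = Real.log (x / 200) + Real.log 200 := by
      rw [← Real.log_mul (by positivity) (by norm_num)]
      congr 1
      ring
    have e2 := Real.log_le_sub_one_of_pos (show 0 < x / 200 by positivity)
    have e3 : Real.log 200 ≤ 6 := by
      have f1 : Real.log 200 ≤ Real.log (2 ^ 8) := Real.log_le_log (by norm_num) (by norm_num)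
      have f2 : Real.log (2 ^ 8) = 8 * Real.log 2 := by
        rw [Real.log_pow]
        norm_num
      have f3 := Real.log_two_lt_d9
      rw [f2] at f1
      norm_num at f3
      linarith
    norm_num at hx
    linarith
  · norm_num at hx
    linarith

private theorem AN1_Pri (a b : ℕ) : PQ a b = Pool.Agent.Lib.MP_42948a_nt.SV.Pri a b := by
  unfold PQ Pool.Agent.Lib.MP_42948a_nt.SV.Pri
  rw [Nat.floor_natCast, Nat.floor_natCast]

/-- The choice of the parameters. -/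
theorem params3 (A : ℕ) : ∃ N0 : ℕ, 16 ≤ N0 ∧ ∀ N : ℕ, N0 ≤ N → ∃ (P0 z0 q0 q1 k : ℕ) (Q2 : Finset ℕ),
    4 ≤ P0 ∧ P0 ≤ z0 ∧ Real.log (Real.log N) / 200 ≤ P0 ∧
    (8 : ℝ) ^ P0 ≤ 4096 * Real.exp (11 / 1000 * Real.log (Real.log N)) ∧ z0 ^ 2 ≤ 4 * N ∧ 1 < q1 ∧ 0 < q0 ∧
    (q0 : ℝ) ≤ (N : ℝ) ^ (1 / 20 : ℝ) ∧ (q0 : ℝ) ^ 8 ≤ (N : ℝ) ^ (2 / 5 : ℝ) ∧
    (∀ D ⊆ PQ P0 z0, D.card ≤ 2 * k → q1 * ∏ p ∈ D, p ≤ q0) ∧
    (∀ p : ℕ, p.Prime → z0 < p → p ≤ N ^ A → p ∈ Q2) ∧
    200 ≤ ∑ p ∈ PQ P0 z0, 1 / (p : ℝ) ∧ 98 / 100 * Real.log (Real.log N) ≤ ∑ p ∈ PQ P0 z0, 1 / (p : ℝ) ∧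
    ∑ p ∈ PQ P0 z0, 1 / (p : ℝ) ≤ Real.log (Real.log N) ∧
    ∑ p ∈ Q2, 1 / (p : ℝ) ≤ 6 / 1000 * Real.log (Real.log N) ∧
    TT (PQ P0 z0) k ≤ Real.exp (-(100 * Real.log (Real.log N))) ∧
    Real.log z0 * (∑ p ∈ PQ P0 z0, 1 / (p : ℝ)) / Real.log q1 ≤ 1 / Real.log (Real.log N) ∧
    (1 + Real.log N) / z0 ≤ 1 / Real.log (Real.log N) := by
  obtain ⟨C, hC0, hC⟩ := Pool.Agent.Lib.MP_42948a_nt.SV.mertA
  obtain ⟨X, hX⟩ := AN1_ev C (Real.log (2 * A + 1))
  refine ⟨max 16 ⌈Real.exp (Real.exp X)⌉₊, le_max_left _ _, fun N hN => ?_⟩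
  have hN16 : 16 ≤ N := le_trans (le_max_left _ _) hN
  have hNX : Real.exp (Real.exp X) ≤ N :=
    (Nat.le_ceil _).trans (by exact_mod_cast le_trans (le_max_right _ _) hN)
  have hNpos : (0 : ℝ) < N := lt_of_lt_of_le (Real.exp_pos _) hNX
  -- the logarithms
  obtain ⟨L, hL⟩ : ∃ L : ℝ, L = Real.log N := ⟨_, rfl⟩
  obtain ⟨x, hx⟩ : ∃ x : ℝ, x = Real.log L := ⟨_, rfl⟩
  have hLX : Real.exp X ≤ L := by
    rw [hL, Real.le_log_iff_exp_le hNpos]
    exact hNX
  have hLpos : 0 < L := lt_of_lt_of_le (Real.exp_pos _) hLX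
  have hxX : X ≤ x := by
    rw [hx, Real.le_log_iff_exp_le hLpos]
    exact hLX
  have hLx : Real.exp x = L := by rw [hx, Real.exp_log hLpos]
  have hNL : Real.exp L = N := by rw [hL, Real.exp_log hNpos]
  rw [← hL, ← hx]
  obtain ⟨c1, c2, c3, c4, c5⟩ := hX x hxX
  have hx0 : 0 < x := by linarith
  obtain ⟨G, hG⟩ : ∃ G : ℝ, G = Real.exp (x / 200) := ⟨_, rfl⟩
  rw [← hG] at c2
  obtain ⟨y, hy⟩ : ∃ y : ℝ, y = Real.exp (199 / 200 * x) := ⟨_, rfl⟩
  have hypos : 0 < y := by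
    rw [hy]
    exact Real.exp_pos _
  have hyG : y * G = L := by
    rw [hy, hG, ← Real.exp_add, ← hLx]
    congr 1
    ring
  have hGy : G ≤ y := by
    rw [hy, hG]
    exact Real.exp_le_exp.2 (by linarith)
  have hxx : 0 ≤ x ^ 2 := sq_nonneg x
  have c2' : 10000 * (x ^ 2 + 2 * x + 1) ≤ G := by
    have : 10000 * (x + 1) ^ 2 = 10000 * (x ^ 2 + 2 * x + 1) := by ring
    rw [← this]
    exact c2
  have hGx : 10000 * x ≤ G := by linarith
  have hGx2 : 10000 * x ^ 2 ≤ G := by linarith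
  have hG1 : 10000 ≤ G := by linarith
  have hl2 := Real.log_two_lt_d9
  have hl2' : Real.log 2 ≤ 1 := by
    norm_num at hl2
    linarith
  have hl2pos : 0 < Real.log 2 := Real.log_pos (by norm_num)
  have hlogy : Real.log y = 199 / 200 * x := by rw [hy, Real.log_exp]
  have hy1 : (10000 : ℝ) ≤ y := hG1.trans hGy
  -- the number `z0`
  obtain ⟨z0, hz0⟩ : ∃ z0 : ℕ, z0 = ⌊Real.exp y⌋₊ := ⟨_, rfl⟩
  have hez : (z0 : ℝ) ≤ Real.exp y := by
    rw [hz0]
    exact Nat.floor_le (Real.exp_pos _).le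
  have hez' : Real.exp y < z0 + 1 := by
    rw [hz0]
    exact Nat.lt_floor_add_one _
  have hey : y + 1 ≤ Real.exp y := Real.add_one_le_exp y
  have hyz : y ≤ z0 := by linarith
  have hz0pos : (0 : ℝ) < z0 := by linarith
  have hez2 : Real.exp y / 2 ≤ z0 := by linarith
  have hlz1 : Real.log z0 ≤ y := by
    rw [Real.log_le_iff_le_exp hz0pos]
    exact hez
  have hlz2 : y / 2 ≤ Real.log z0 := by
    have h1 : Real.log (Real.exp y / 2) ≤ Real.log z0 := Real.log_le_log (by positivity) hez2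
    rw [Real.log_div (Real.exp_pos _).ne' (by norm_num), Real.log_exp] at h1
    linarith
  have hlz3 : 0 < Real.log z0 := by linarith
  -- the number `P0`
  obtain ⟨P0, hP0⟩ : ∃ P0 : ℕ, P0 = ⌊x / 200⌋₊ + 4 := ⟨_, rfl⟩
  have hP0a : (P0 : ℝ) ≤ x / 200 + 4 := by
    rw [hP0]
    push_cast
    have := Nat.floor_le (show 0 ≤ x / 200 by positivity)
    linarith
  have hP0b : x / 200 ≤ P0 := by
    rw [hP0]
    push_cast
    have := Nat.lt_floor_add_one (x / 200)
    linarith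
  have hP04 : 4 ≤ P0 := by omega
  have hP04r : (4 : ℝ) ≤ P0 := by exact_mod_cast hP04
  have hP0x : (P0 : ℝ) ≤ x := by linarith
  have hP0z : P0 ≤ z0 := by
    have : (P0 : ℝ) ≤ z0 := by linarith
    exact_mod_cast this
  have hlP1 : 1 ≤ Real.log P0 := by
    rw [Real.le_log_iff_exp_le (by linarith)]
    have := Real.exp_one_lt_three
    linarith
  have hlP2 : Real.log P0 ≤ Real.log x := Real.log_le_log (by linarith) hP0x
  -- the sum over the primes
  obtain ⟨S, hS⟩ : ∃ S : ℝ, S = ∑ p ∈ PQ P0 z0, 1 / (p : ℝ) := ⟨_, rfl⟩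
  have hmert := hC P0 z0 (by linarith) (by exact_mod_cast hP0z)
  rw [← AN1_Pri, ← hS] at hmert
  have hCP : C / Real.log P0 ≤ C := div_le_self hC0 hlP1
  rw [Real.log_div hlz3.ne' (by linarith)] at hmert
  obtain ⟨hm1, hm2⟩ := abs_le.1 hmert
  have hllz1 : Real.log (Real.log z0) ≤ 199 / 200 * x := by
    rw [← hlogy]
    exact Real.log_le_log hlz3 hlz1
  have hllz2 : 199 / 200 * x - Real.log 2 ≤ Real.log (Real.log z0) := by
    have h1 : Real.log (y / 2) ≤ Real.log (Real.log z0) := Real.log_le_log (by positivity) hlz2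
    rw [Real.log_div hypos.ne' (by norm_num), hlogy] at h1
    exact h1
  have hllP1 : 0 ≤ Real.log (Real.log P0) := Real.log_nonneg hlP1
  have hllP2 : Real.log (Real.log P0) ≤ Real.log x := by
    have := Real.log_le_sub_one_of_pos (show 0 < Real.log P0 by linarith)
    linarith
  have hS1 : 98 / 100 * x ≤ S := by linarith
  have hS2 : S ≤ x := by linarith
  have hS0 : 0 ≤ S := by linarith
  -- the numbers `q0`, `q1`
  have hN20 : (N : ℝ) ^ (1 / 20 : ℝ) = Real.exp (L / 20) := by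
    rw [← hNL, ← Real.exp_mul]
    congr 1
    ring
  have hN40 : (N : ℝ) ^ (1 / 40 : ℝ) = Real.exp (L / 40) := by
    rw [← hNL, ← Real.exp_mul]
    congr 1
    ring
  have hN25 : (N : ℝ) ^ (2 / 5 : ℝ) = Real.exp (L / 20) ^ 8 := by
    rw [← hNL, ← Real.exp_mul, ← Real.exp_nat_mul]
    congr 1
    push_cast
    ring
  have hLbig : 100000000 ≤ L := by
    have h1 : (10000 : ℝ) * 10000 ≤ y * G := mul_le_mul hy1 hG1 (by norm_num) hypos.le
    rw [hyG] at h1
    linarith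
  obtain ⟨q0, hq0⟩ : ∃ q0 : ℕ, q0 = ⌊Real.exp (L / 20)⌋₊ := ⟨_, rfl⟩
  obtain ⟨q1, hq1⟩ : ∃ q1 : ℕ, q1 = ⌊Real.exp (L / 40)⌋₊ := ⟨_, rfl⟩
  have hq0a : (q0 : ℝ) ≤ Real.exp (L / 20) := by
    rw [hq0]
    exact Nat.floor_le (Real.exp_pos _).le
  have hq1a : (q1 : ℝ) ≤ Real.exp (L / 40) := by
    rw [hq1]
    exact Nat.floor_le (Real.exp_pos _).le
  have hq1b : Real.exp (L / 40) < q1 + 1 := by
    rw [hq1]
    exact Nat.lt_floor_add_one _
  have hq1c : L / 40 + 1 ≤ Real.exp (L / 40) := Real.add_one_le_exp _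
  have hq1d : (2 : ℝ) ≤ q1 := by linarith
  have hq1e : 1 < q1 := by
    have : 2 ≤ q1 := by exact_mod_cast hq1d
    omega
  have hq0pos : 0 < q0 := by
    rw [hq0]
    apply Nat.floor_pos.2
    have := Real.add_one_le_exp (L / 20)
    linarith
  have hlq1 : L / 80 ≤ Real.log q1 := by
    have h1 : Real.exp (L / 40) / 2 ≤ q1 := by linarith
    have h2 := Real.log_le_log (by positivity) h1
    rw [Real.log_div (Real.exp_pos _).ne' (by norm_num), Real.log_exp] at h2
    linarith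
  -- the number `k`
  obtain ⟨k, hk⟩ : ∃ k : ℕ, k = ⌈60 * x⌉₊ := ⟨_, rfl⟩
  have hk1 : 60 * x ≤ k := by
    rw [hk]
    exact Nat.le_ceil _
  have hk2 : (k : ℝ) ≤ 60 * x + 1 := by
    rw [hk]
    exact (Nat.ceil_lt_add_one (by positivity)).le
  refine ⟨P0, z0, q0, q1, k, PQ z0 (N ^ A), hP04, hP0z, hP0b, ?_, ?_, hq1e, hq0pos, ?_, ?_, ?_, ?_, ?_,
    ?_, ?_, ?_, ?_, ?_, ?_⟩
  · -- `8 ^ P0`
    rw [hP0, pow_add]
    have h1 : (8 : ℝ) ^ ⌊x / 200⌋₊ ≤ Real.exp (11 / 1000 * x) := by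
      have h2 : (8 : ℝ) ^ ⌊x / 200⌋₊ = Real.exp (⌊x / 200⌋₊ * Real.log 8) := by
        rw [Real.exp_nat_mul, Real.exp_log (by norm_num)]
      rw [h2]
      apply Real.exp_le_exp.2
      have h3 : Real.log 8 = 3 * Real.log 2 := by
        rw [show (8 : ℝ) = 2 ^ 3 by norm_num, Real.log_pow]
        norm_num
      have h4 : Real.log 8 ≤ 22 / 10 := by
        rw [h3]
        norm_num at hl2
        linarith
      have h5 : (⌊x / 200⌋₊ : ℝ) ≤ x / 200 := Nat.floor_le (by positivity)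
      calc (⌊x / 200⌋₊ : ℝ) * Real.log 8 ≤ x / 200 * (22 / 10) :=
            mul_le_mul h5 h4 (Real.log_nonneg (by norm_num)) (by positivity)
        _ = 11 / 1000 * x := by ring
    calc (8 : ℝ) ^ ⌊x / 200⌋₊ * 8 ^ 4 ≤ Real.exp (11 / 1000 * x) * 8 ^ 4 :=
          mul_le_mul_of_nonneg_right h1 (by positivity)
      _ = 4096 * Real.exp (11 / 1000 * x) := by ring
  · -- `z0 ^ 2 ≤ 4 N`
    have h1 : ((z0 : ℝ)) ^ 2 ≤ N := by
      calc (z0 : ℝ) ^ 2 ≤ Real.exp y ^ 2 := pow_le_pow_left₀ hz0pos.le hez 2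
        _ = Real.exp (2 * y) := by
            rw [← Real.exp_nat_mul]
            norm_num
        _ ≤ Real.exp L := by
            apply Real.exp_le_exp.2
            rw [← hyG, mul_comm]
            exact mul_le_mul_of_nonneg_left (by linarith) hypos.le
        _ = N := hNL
    have h2 : z0 ^ 2 ≤ N := by exact_mod_cast h1
    omega
  · rw [hN20]
    exact hq0a
  · rw [hN25]
    exact pow_le_pow_left₀ (Nat.cast_nonneg _) hq0a 8
  · -- the products
    intro D hD hDc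
    rw [hq0]
    apply Nat.le_floor
    have h1 : ∏ p ∈ D, p ≤ z0 ^ (2 * k) := by
      have h2 : ∏ p ∈ D, p ≤ z0 ^ D.card := by
        apply Finset.prod_le_pow_card
        intro p hp
        have := hD hp
        unfold PQ at this
        exact (mem_Ioc.1 (mem_filter.1 this).1).2
      refine h2.trans (Nat.pow_le_pow_right ?_ hDc)
      have : (0 : ℝ) < z0 := hz0pos
      exact_mod_cast this
    have h3 : ((∏ p ∈ D, p : ℕ) : ℝ) ≤ Real.exp (L / 40) := by
      calc ((∏ p ∈ D, p : ℕ) : ℝ) ≤ (z0 : ℝ) ^ (2 * k) := by exact_mod_cast h1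
        _ ≤ Real.exp y ^ (2 * k) := pow_le_pow_left₀ hz0pos.le hez _
        _ = Real.exp (((2 * k : ℕ) : ℝ) * y) := by rw [← Real.exp_nat_mul]
        _ ≤ Real.exp (L / 40) := by
            apply Real.exp_le_exp.2
            push_cast
            rw [← hyG]
            have h4 : 2 * (k : ℝ) ≤ G / 40 := by linarith
            calc 2 * (k : ℝ) * y ≤ G / 40 * y := mul_le_mul_of_nonneg_right h4 hypos.le
              _ = y * G / 40 := by ring
    rw [Nat.cast_mul]
    calc (q1 : ℝ) * ((∏ p ∈ D, p : ℕ) : ℝ) ≤ Real.exp (L / 40) * Real.exp (L / 40) :=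
          mul_le_mul hq1a h3 (Nat.cast_nonneg _) (Real.exp_pos _).le
      _ = Real.exp (L / 20) := by
          rw [← Real.exp_add]
          congr 1
          ring
  · intro p hp h1 h2
    unfold PQ
    exact mem_filter.2 ⟨mem_Ioc.2 ⟨h1, h2⟩, hp⟩
  · rw [← hS]
    linarith
  · rw [← hS]
    exact hS1
  · rw [← hS]
    exact hS2
  · -- the sum over `Q2`
    rcases lt_or_ge (N ^ A) z0 with h | h
    · have h1 : PQ z0 (N ^ A) = ∅ := by
        unfold PQ
        rw [Ioc_eq_empty (by omega), filter_empty]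
      rw [h1, sum_empty]
      positivity
    · have h1 := hC z0 ((N ^ A : ℕ) : ℝ) (by linarith) (by exact_mod_cast h)
      rw [← AN1_Pri] at h1
      have hA : 1 ≤ A := by
        by_contra hcon
        have hA0 : A = 0 := by omega
        rw [hA0, pow_zero] at h
        have : (z0 : ℝ) ≤ 1 := by exact_mod_cast h
        linarith
      have hAr : (1 : ℝ) ≤ A := by exact_mod_cast hA
      have h2 : Real.log ((N ^ A : ℕ) : ℝ) = A * L := by
        rw [Nat.cast_pow, Real.log_pow, hL]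
      rw [h2, Real.log_div (by positivity) hlz3.ne', Real.log_mul (by positivity) hLpos.ne'] at h1
      have h3 := (abs_le.1 h1).2
      have h4 : C / Real.log z0 ≤ C := div_le_self hC0 (by linarith)
      have h5 : Real.log A ≤ Real.log (2 * A + 1) := Real.log_le_log (by linarith) (by linarith)
      rw [← hx] at h3
      linarith
  · -- the tail
    unfold TT
    rw [← hS]
    obtain ⟨n, hn⟩ : ∃ n : ℕ, n = 2 * k + 1 := ⟨_, rfl⟩
    rw [← hn]
    have hn1 : 120 * x ≤ n := by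
      rw [hn]
      push_cast
      linarith
    have hn0 : (0 : ℝ) < n := by linarith
    have h1 : (n : ℝ) ^ n / (n.factorial : ℝ) ≤ Real.exp n := Real.pow_div_factorial_le_exp _ hn0.le n
    have h2 : (6 * S) ^ n / (n.factorial : ℝ) = (6 * S / n) ^ n * ((n : ℝ) ^ n / (n.factorial : ℝ)) := by
      rw [div_pow]
      field_simp
    rw [h2]
    have h3 : 6 * S / n ≤ 1 / 20 := by
      rw [div_le_div_iff₀ hn0 (by norm_num)]
      linarith
    have h4 : (6 * S / n) ^ n ≤ (1 / 20 : ℝ) ^ n := pow_le_pow_left₀ (by positivity) h3 n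
    have h5 : (1 / 20 : ℝ) ≤ Real.exp (-2) := by
      rw [Real.exp_neg, ← one_div]
      apply one_div_le_one_div_of_le (Real.exp_pos _)
      have h6 : Real.exp 2 = Real.exp 1 * Real.exp 1 := by
        rw [← Real.exp_add]
        norm_num
      rw [h6]
      have h7 := Real.exp_one_lt_three
      have h8 := Real.exp_pos 1
      have h9 : Real.exp 1 * Real.exp 1 ≤ 3 * 3 := mul_le_mul h7.le h7.le h8.le (by norm_num)
      linarith
    calc (6 * S / n) ^ n * ((n : ℝ) ^ n / (n.factorial : ℝ))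
        ≤ Real.exp (-2) ^ n * Real.exp n :=
          mul_le_mul (h4.trans (pow_le_pow_left₀ (by norm_num) h5 n)) h1 (by positivity) (by positivity)
      _ = Real.exp (-n) := by
          rw [← Real.exp_nat_mul, ← Real.exp_add]
          congr 1
          ring
      _ ≤ Real.exp (-(100 * x)) := Real.exp_le_exp.2 (by linarith)
  · rw [← hS]
    have hlq1' : 0 < Real.log q1 := by linarith
    rw [div_le_div_iff₀ hlq1' hx0, one_mul]
    calc Real.log z0 * S * x ≤ y * x * x := by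
          apply mul_le_mul_of_nonneg_right _ hx0.le
          exact mul_le_mul hlz1 hS2 hS0 hypos.le
      _ = y * x ^ 2 := by ring
      _ ≤ y * (G / 80) := by
          apply mul_le_mul_of_nonneg_left _ hypos.le
          linarith
      _ = L / 80 := by
          rw [← hyG]
          ring
      _ ≤ Real.log q1 := hlq1
  · rw [div_le_div_iff₀ hz0pos hx0, one_mul]
    have h1 := Real.quadratic_le_exp_of_nonneg hypos.le
    have h2 : y ^ 2 / 4 ≤ z0 := by linarith
    have h3 : (1 + L) * x ≤ 2 * L * x := mul_le_mul_of_nonneg_right (by linarith) hx0.le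
    refine h3.trans (le_trans ?_ h2)
    have h4 : 8 * x * G ≤ y := by
      have h5 : G * G ≤ y := by
        rw [hy, hG, ← Real.exp_add]
        exact Real.exp_le_exp.2 (by linarith)
      refine le_trans ?_ h5
      exact mul_le_mul_of_nonneg_right (by linarith) (by linarith)
    rw [← hyG]
    have h6 : y * (8 * x * G) ≤ y * y := mul_le_mul_of_nonneg_left h4 hypos.le
    have h7 : 2 * (y * G) * x = y * (8 * x * G) / 4 := by ring
    have h8 : y ^ 2 / 4 = y * y / 4 := by ring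
    rw [h7, h8]
    linarith

end FQQ
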