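import Pool.Agent.Lib.MP_10e784_agF.D2

/-! JOB GF -/

set_option autoImplicit false

open Classical

namespace FQQ

open Finset Polynomial FGO

/-- A quadratic form whose discriminant is not a square has no nontrivial zero. -/
theorem qv_ne_zero (v : V) (h : ¬ IsSquare (ds v)) (x z : ℤ) (hxz : ¬ (x = 0 ∧ z = 0)) : qv v x z ≠ 0 := by
  intro h0
  unfold qv at h0
  by_cases hz : z = 0
  · have hx : x ≠ 0 := fun hx => hxz ⟨hx, hz⟩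
    rw [hz] at h0
    have h1 : v.1 * x ^ 2 = 0 := by linear_combination h0
    have h2 : v.1 = 0 := (mul_eq_zero.1 h1).resolve_right (pow_ne_zero 2 hx)
    apply h
    refine ⟨v.2.1, ?_⟩
    unfold ds
    rw [h2]
    ring
  · have h1 : (2 * v.1 * x + v.2.1 * z) ^ 2 = ds v * z ^ 2 := by
      unfold ds
      linear_combination 4 * v.1 * h0
    have h2 : z ^ 2 ∣ (2 * v.1 * x + v.2.1 * z) ^ 2 := ⟨ds v, by rw [h1]; ring⟩
    have h3 : z ∣ 2 * v.1 * x + v.2.1 * z := (Int.pow_dvd_pow_iff (by norm_num)).1 h2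
    obtain ⟨y, hy⟩ := h3
    rw [hy] at h1
    have h4 : z ^ 2 * (ds v - y * y) = 0 := by linear_combination (-1) * h1
    have h5 : ds v - y * y = 0 := (mul_eq_zero.1 h4).resolve_left (pow_ne_zero 2 hz)
    exact h ⟨y, by linarith⟩

/-- The linear system with the Sylvester matrix has only the trivial solution. -/
theorem syl_zero (v w : V) (h : rs v w ≠ 0) (k0 k1 k2 k3 : ℤ) (h1 : v.2.2 * k0 + v.2.1 * k1 + v.1 * k2 = 0)
    (h2 : v.2.2 * k1 + v.2.1 * k2 + v.1 * k3 = 0) (h3 : w.2.2 * k0 + w.2.1 * k1 + w.1 * k2 = 0)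
    (h4 : w.2.2 * k1 + w.2.1 * k2 + w.1 * k3 = 0) : k0 = 0 ∧ k1 = 0 ∧ k2 = 0 ∧ k3 = 0 := by
  obtain ⟨a, b, c⟩ := v
  obtain ⟨A, B, C⟩ := w
  simp only at h1 h2 h3 h4
  obtain ⟨p, hp⟩ : ∃ p : ℤ, p = a * C - A * c := ⟨_, rfl⟩
  obtain ⟨q, hq⟩ : ∃ q : ℤ, q = a * B - A * b := ⟨_, rfl⟩
  obtain ⟨s, hs⟩ : ∃ s : ℤ, s = b * C - B * c := ⟨_, rfl⟩
  have hrs : rs (a, b, c) (A, B, C) = p ^ 2 - q * s := by
    unfold rs
    rw [hp, hq, hs]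
  have E1 : p * k0 + q * k1 = 0 := by
    rw [hp, hq]
    linear_combination a * h3 - A * h1
  have E2 : s * k1 + p * k2 = 0 := by
    rw [hs, hp]
    linear_combination C * h1 - c * h3
  have E3 : -s * k0 + q * k2 = 0 := by
    rw [hs, hq]
    linear_combination B * h1 - b * h3
  have E4 : p * k1 + q * k2 = 0 := by
    rw [hp, hq]
    linear_combination a * h4 - A * h2
  have E5 : s * k2 + p * k3 = 0 := by
    rw [hs, hp]
    linear_combination C * h2 - c * h4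
  have E6 : -s * k1 + q * k3 = 0 := by
    rw [hs, hq]
    linear_combination B * h2 - b * h4
  have F0 : rs (a, b, c) (A, B, C) * k0 = 0 := by
    rw [hrs]
    linear_combination p * E1 + q * E3 - q * E4
  have F1 : rs (a, b, c) (A, B, C) * k1 = 0 := by
    rw [hrs]
    linear_combination p * E4 - q * E2
  have F2 : rs (a, b, c) (A, B, C) * k2 = 0 := by
    rw [hrs]
    linear_combination p * E2 - s * E4
  have F3 : rs (a, b, c) (A, B, C) * k3 = 0 := by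
    rw [hrs]
    linear_combination p * E5 - s * E6 - s * E2
  exact ⟨(mul_eq_zero.1 F0).resolve_left h, (mul_eq_zero.1 F1).resolve_left h,
    (mul_eq_zero.1 F2).resolve_left h, (mul_eq_zero.1 F3).resolve_left h⟩

private theorem GF_abs3 {N : ℕ} {a b c x y z M : ℤ} (ha : |a| ≤ N) (hb : |b| ≤ N) (hc : |c| ≤ N)
    (hx : |x| ≤ M) (hy : |y| ≤ M) (hz : |z| ≤ M) : |a * x + b * y + c * z| ≤ 3 * N * M := by
  have hN : (0 : ℤ) ≤ N := Int.natCast_nonneg N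
  have e1 : |a * x| ≤ N * M := by
    rw [abs_mul]
    exact mul_le_mul ha hx (abs_nonneg _) hN
  have e2 : |b * y| ≤ N * M := by
    rw [abs_mul]
    exact mul_le_mul hb hy (abs_nonneg _) hN
  have e3 : |c * z| ≤ N * M := by
    rw [abs_mul]
    exact mul_le_mul hc hz (abs_nonneg _) hN
  have e4 := abs_add_le (a * x + b * y) (c * z)
  have e5 := abs_add_le (a * x) (b * y)
  linarith

/-- bound for the combination `y = a k + b k' + c k''` -/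
private theorem GF_bd {N : ℕ} (hN : 0 < N) {a b c k k' k'' h T : ℤ} (ha : |a| ≤ N) (hb : |b| ≤ N)
    (hc : |c| ≤ N) (hh : 0 ≤ h) (hk : h * |k| < T) (hk' : h * |k'| < T) (hk'' : h * |k''| < T) :
    h * |a * k + b * k' + c * k''| < 3 * N * T := by
  have hN' : (0 : ℤ) < N := by exact_mod_cast hN
  have e4 := abs_add_le (a * k + b * k') (c * k'')
  have e5 := abs_add_le (a * k) (b * k')
  have f : ∀ {x y : ℤ}, |x| ≤ N → h * |y| < T → h * |x * y| ≤ N * (T - 1) := by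
    intro x y hx hy
    rw [abs_mul]
    calc h * (|x| * |y|) = |x| * (h * |y|) := by ring
      _ ≤ N * (T - 1) := mul_le_mul hx (by linarith) (mul_nonneg hh (abs_nonneg _)) hN'.le
  have f1 := f ha hk
  have f2 := f hb hk'
  have f3 := f hc hk''
  calc h * |a * k + b * k' + c * k''| ≤ h * (|a * k| + |b * k'| + |c * k''|) :=
        mul_le_mul_of_nonneg_left (by linarith) hh
    _ = h * |a * k| + h * |b * k'| + h * |c * k''| := by ring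
    _ ≤ 3 * (N * (T - 1)) := by linarith
    _ < 3 * N * T := by nlinarith

/-- No short dual vectors: the basic step. -/
theorem step_F {H N q0 P D1 D2 : ℕ} (hN : 0 < N) (hH : 0 < H) (hD1 : 0 < D1) (hD2 : 0 < D2) (hD2P : D2 ≤ P)
    (hsz : 27 * N ^ 3 * q0 ^ 2 * P < 16 * H ^ 2) (v w : V) (hv : v ∈ box N) (hw : w ∈ box N)
    (hns : ¬ IsSquare (ds v)) (r t : ℤ) (h1 : (D1 : ℤ) ∣ ev w r) (h2 : (D2 : ℤ) ∣ ev v r)
    (k0 k1 k2 k3 : ℤ) (hk0 : ((D1 * D2 : ℕ) : ℤ) ∣ k0 - t) (hk1 : ((D1 * D2 : ℕ) : ℤ) ∣ k1 - t * r)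
    (hk2 : ((D1 * D2 : ℕ) : ℤ) ∣ k2 - t * r ^ 2) (hk3 : ((D1 * D2 : ℕ) : ℤ) ∣ k3 - t * r ^ 3)
    (s0 : 4 * H * k0.natAbs < q0 * (D1 * D2)) (s1 : 4 * H * k1.natAbs < q0 * (D1 * D2))
    (s2 : 4 * H * k2.natAbs < q0 * (D1 * D2)) (s3 : 4 * H * k3.natAbs < q0 * (D1 * D2)) :
    w.2.2 * k0 + w.2.1 * k1 + w.1 * k2 = 0 ∧ w.2.2 * k1 + w.2.1 * k2 + w.1 * k3 = 0 := by
  obtain ⟨a, b, c⟩ := v
  obtain ⟨A, B, C⟩ := w
  simp only [FGO.box, mem_product, mem_Icc] at hv hw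
  obtain ⟨⟨va1, va2⟩, ⟨vb1, vb2⟩, vc1, vc2⟩ := hv
  obtain ⟨⟨wa1, wa2⟩, ⟨wb1, wb2⟩, wc1, wc2⟩ := hw
  have ha : |a| ≤ N := abs_le.2 ⟨va1, va2⟩
  have hb : |b| ≤ N := abs_le.2 ⟨vb1, vb2⟩
  have hc : |c| ≤ N := abs_le.2 ⟨vc1, vc2⟩
  have hA : |A| ≤ N := abs_le.2 ⟨wa1, wa2⟩
  have hB : |B| ≤ N := abs_le.2 ⟨wb1, wb2⟩
  have hC : |C| ≤ N := abs_le.2 ⟨wc1, wc2⟩
  have hNz : (0 : ℤ) < N := by exact_mod_cast hN
  have hHz : (0 : ℤ) < H := by exact_mod_cast hH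
  have hD1z : (0 : ℤ) < D1 := by exact_mod_cast hD1
  have hD2z : (0 : ℤ) < D2 := by exact_mod_cast hD2
  unfold ev at h1 h2
  simp only at h1 h2 ⊢
  obtain ⟨e, he⟩ := h1
  push_cast at hk0 hk1 hk2 hk3
  have S : ∀ {k : ℤ}, 4 * H * k.natAbs < q0 * (D1 * D2) →
      (4 * (H : ℤ)) * |k| < (q0 : ℤ) * (D1 * D2) := by
    intro k hk
    rw [← Int.natCast_natAbs]
    exact_mod_cast hk
  have t0 := S s0
  have t1 := S s1
  have t2 := S s2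
  have t3 := S s3
  have key : ∀ {k k' k'' u : ℤ}, ((D1 : ℤ) * D2) ∣ k - u → ((D1 : ℤ) * D2) ∣ k' - u * r →
      ((D1 : ℤ) * D2) ∣ k'' - u * r ^ 2 → (4 * (H : ℤ)) * |k| < (q0 : ℤ) * (D1 * D2) →
      (4 * (H : ℤ)) * |k'| < (q0 : ℤ) * (D1 * D2) → (4 * (H : ℤ)) * |k''| < (q0 : ℤ) * (D1 * D2) →
      ∃ κ : ℤ, C * k + B * k' + A * k'' = D1 * κ ∧ (D2 : ℤ) ∣ κ - u * e ∧
        (4 * (H : ℤ)) * |κ| < 3 * N * (q0 * D2) := by
    intro k k' k'' u g0 g1 g2 u0 u1 u2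
    obtain ⟨x0, hx0⟩ := g0
    obtain ⟨x1, hx1⟩ := g1
    obtain ⟨x2, hx2⟩ := g2
    refine ⟨u * e + D2 * (C * x0 + B * x1 + A * x2), ?_, ⟨C * x0 + B * x1 + A * x2, by ring⟩, ?_⟩
    · linear_combination C * hx0 + B * hx1 + A * hx2 + u * he
    · have hy : C * k + B * k' + A * k'' = D1 * (u * e + D2 * (C * x0 + B * x1 + A * x2)) := by
        linear_combination C * hx0 + B * hx1 + A * hx2 + u * he
      have hb' := GF_bd hN hC hB hA (by positivity) u0 u1 u2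
      rw [hy, abs_mul, abs_of_pos hD1z] at hb'
      have hb'' : (D1 : ℤ) * (4 * (H : ℤ) * |u * e + D2 * (C * x0 + B * x1 + A * x2)|) <
          D1 * (3 * N * (q0 * D2)) := by
        calc (D1 : ℤ) * (4 * (H : ℤ) * |u * e + D2 * (C * x0 + B * x1 + A * x2)|)
            = 4 * (H : ℤ) * (D1 * |u * e + D2 * (C * x0 + B * x1 + A * x2)|) := by ring
          _ < 3 * N * (q0 * (D1 * D2)) := hb'
          _ = D1 * (3 * N * (q0 * D2)) := by ring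
      exact lt_of_mul_lt_mul_left hb'' hD1z.le
  obtain ⟨κ0, y0, d0, b0⟩ := key (u := t) hk0 hk1 hk2 t0 t1 t2
  obtain ⟨κ1, y1, d1, b1⟩ := key (u := t * r) hk1
    (by rw [show t * r * r = t * r ^ 2 by ring]; exact hk2)
    (by rw [show t * r * r ^ 2 = t * r ^ 3 by ring]; exact hk3) t1 t2 t3
  -- the value of `v` at `(κ1, κ0)`
  have hdvd : (D2 : ℤ) ∣ qv (a, b, c) κ1 κ0 := by
    obtain ⟨z0, hz0⟩ := d0
    obtain ⟨z1, hz1⟩ := d1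
    obtain ⟨z2, hz2⟩ := h2
    unfold qv
    simp only
    have f0 : κ0 = t * e + D2 * z0 := by linear_combination hz0
    have f1 : κ1 = t * r * e + D2 * z1 := by linear_combination hz1
    refine ⟨(t * e) ^ 2 * z2 + a * (2 * (t * r * e) * z1 + D2 * z1 ^ 2) +
      b * ((t * r * e) * z0 + z1 * (t * e) + D2 * z1 * z0) + c * (2 * (t * e) * z0 + D2 * z0 ^ 2), ?_⟩
    rw [f0, f1]
    linear_combination (t * e) ^ 2 * hz2
  have hbd : (4 * (H : ℤ)) ^ 2 * |qv (a, b, c) κ1 κ0| ≤ 3 * N * (3 * (N : ℤ) * (q0 * D2)) ^ 2 := by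
    have g : ∀ {x y : ℤ}, (4 * (H : ℤ)) * |x| < 3 * N * (q0 * D2) → (4 * (H : ℤ)) * |y| < 3 * N * (q0 * D2) →
        |(4 * (H : ℤ)) ^ 2 * (x * y)| ≤ (3 * (N : ℤ) * (q0 * D2)) ^ 2 := by
      intro x y hx hy
      rw [abs_mul, abs_mul, abs_of_nonneg (by positivity : (0 : ℤ) ≤ (4 * (H : ℤ)) ^ 2)]
      calc (4 * (H : ℤ)) ^ 2 * (|x| * |y|) = ((4 * (H : ℤ)) * |x|) * ((4 * (H : ℤ)) * |y|) := by ring
        _ ≤ (3 * (N : ℤ) * (q0 * D2)) * (3 * (N : ℤ) * (q0 * D2)) :=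
            mul_le_mul hx.le hy.le (by positivity) (by positivity)
        _ = (3 * (N : ℤ) * (q0 * D2)) ^ 2 := by ring
    have g1 := GF_abs3 ha hb hc (g b1 b1) (g b1 b0) (g b0 b0)
    calc (4 * (H : ℤ)) ^ 2 * |qv (a, b, c) κ1 κ0|
        = |(4 * (H : ℤ)) ^ 2 * qv (a, b, c) κ1 κ0| := by
          rw [abs_mul, abs_of_nonneg (by positivity : (0 : ℤ) ≤ (4 * (H : ℤ)) ^ 2)]
      _ = |a * ((4 * (H : ℤ)) ^ 2 * (κ1 * κ1)) + b * ((4 * (H : ℤ)) ^ 2 * (κ1 * κ0)) +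
            c * ((4 * (H : ℤ)) ^ 2 * (κ0 * κ0))| := by
          congr 1
          unfold qv
          ring
      _ ≤ 3 * N * (3 * (N : ℤ) * (q0 * D2)) ^ 2 := g1
  have hq0 : qv (a, b, c) κ1 κ0 = 0 := by
    by_contra hne
    have hge : (D2 : ℤ) ≤ |qv (a, b, c) κ1 κ0| :=
      Int.le_of_dvd (abs_pos.2 hne) ((dvd_abs _ _).2 hdvd)
    have g1 : (4 * (H : ℤ)) ^ 2 * D2 ≤ 3 * N * (3 * (N : ℤ) * (q0 * D2)) ^ 2 :=
      (mul_le_mul_of_nonneg_left hge (by positivity)).trans hbd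
    have g2 : (D2 : ℤ) * (16 * (H : ℤ) ^ 2) ≤ D2 * (27 * (N : ℤ) ^ 3 * (q0 : ℤ) ^ 2 * D2) := by
      calc (D2 : ℤ) * (16 * (H : ℤ) ^ 2) = (4 * (H : ℤ)) ^ 2 * D2 := by ring
        _ ≤ 3 * N * (3 * (N : ℤ) * (q0 * D2)) ^ 2 := g1
        _ = D2 * (27 * (N : ℤ) ^ 3 * (q0 : ℤ) ^ 2 * D2) := by ring
    have g3 : (16 : ℤ) * (H : ℤ) ^ 2 ≤ 27 * (N : ℤ) ^ 3 * (q0 : ℤ) ^ 2 * D2 := le_of_mul_le_mul_left g2 hD2z
    have g4 : (27 : ℤ) * (N : ℤ) ^ 3 * (q0 : ℤ) ^ 2 * D2 ≤ 27 * (N : ℤ) ^ 3 * (q0 : ℤ) ^ 2 * P :=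
      mul_le_mul_of_nonneg_left (by exact_mod_cast hD2P) (by positivity)
    have g5 : (27 : ℤ) * (N : ℤ) ^ 3 * (q0 : ℤ) ^ 2 * P < 16 * (H : ℤ) ^ 2 := by exact_mod_cast hsz
    linarith
  have hκ : κ1 = 0 ∧ κ0 = 0 := by
    by_contra hne
    exact qv_ne_zero (a, b, c) hns κ1 κ0 hne hq0
  rw [hκ.2] at y0
  rw [hκ.1] at y1
  exact ⟨by rw [y0]; ring, by rw [y1]; ring⟩

/-- The lattices which occur are good. -/
theorem excF_false {m H N q0 P : ℕ} (hm : 3 ≤ m) (hN : 0 < N) (hH : 0 < H)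
    (hsz : 27 * N ^ 3 * q0 ^ 2 * P < 16 * H ^ 2) (f : Vn m) (u : V × V) (hu : u ∈ box2 N)
    (h1 : ¬ IsSquare (ds u.1)) (h2 : ¬ IsSquare (ds u.2)) (h0 : rs u.1 u.2 ≠ 0) : ¬ ExcF H q0 P f u := by
  rintro ⟨D1, D2, r, -, -, hD1, hD2, hD1P, hD2P, -, -, d1, d2, -, hG⟩
  unfold GoodN at hG
  push Not at hG
  obtain ⟨k, hk, ⟨t, ht⟩, hs⟩ := hG
  have hu' := mem_product.1 hu
  have S : ∀ i, 4 * H * (k i).natAbs < q0 * (D1 * D2) := fun i => hs i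
  have S' : ∀ i, 4 * H * (k i).natAbs < q0 * (D2 * D1) := fun i => by
    rw [mul_comm D2 D1]
    exact hs i
  have T : ∀ i : Fin (m + 1), ((D1 * D2 : ℕ) : ℤ) ∣ k i - t * r ^ (i : ℕ) := ht
  have T' : ∀ i : Fin (m + 1), ((D2 * D1 : ℕ) : ℤ) ∣ k i - t * r ^ (i : ℕ) := fun i => by
    rw [mul_comm D2 D1]
    exact ht i
  have T0 := T ⟨0, by omega⟩
  have T1 := T ⟨1, by omega⟩
  have T2 := T ⟨2, by omega⟩
  have T3 := T ⟨3, by omega⟩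
  have T0' := T' ⟨0, by omega⟩
  have T1' := T' ⟨1, by omega⟩
  have T2' := T' ⟨2, by omega⟩
  have T3' := T' ⟨3, by omega⟩
  simp only [pow_zero, mul_one, pow_one] at T0 T1 T2 T3 T0' T1' T2' T3'
  obtain ⟨a3, a4⟩ := step_F hN hH hD1 hD2 hD2P hsz u.1 u.2 hu'.1 hu'.2 h1 r t d1 d2 _ _ _ _ T0 T1 T2 T3
    (S _) (S _) (S _) (S _)
  obtain ⟨a1, a2⟩ := step_F hN hH hD2 hD1 hD1P hsz u.2 u.1 hu'.2 hu'.1 h2 r t d2 d1 _ _ _ _ T0' T1' T2' T3'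
    (S' _) (S' _) (S' _) (S' _)
  obtain ⟨z0, -, -, -⟩ := syl_zero u.1 u.2 h0 _ _ _ _ a1 a2 a3 a4
  rw [z0] at T0
  have ht0 : ((D1 * D2 : ℕ) : ℤ) ∣ t := by
    have := (dvd_neg.2 T0)
    simpa using this
  apply hk
  funext i
  have hd : ((D1 * D2 : ℕ) : ℤ) ∣ k i := by
    have e1 := dvd_add (T i) (Dvd.dvd.mul_right ht0 (r ^ (i : ℕ)))
    simpa using e1
  by_contra hne
  have hne' : k i ≠ 0 := hne
  have e2 : D1 * D2 ≤ (k i).natAbs := by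
    have := Nat.le_of_dvd (Int.natAbs_pos.2 hne') (Int.natCast_dvd.1 hd)
    exact this
  have e3 : (D1 * D2) * (4 * H) < (D1 * D2) * q0 := by
    calc (D1 * D2) * (4 * H) = 4 * H * (D1 * D2) := by ring
      _ ≤ 4 * H * (k i).natAbs := Nat.mul_le_mul_left _ e2
      _ < q0 * (D1 * D2) := S i
      _ = (D1 * D2) * q0 := by ring
  have e4 : 4 * H < q0 := lt_of_mul_lt_mul_left e3 (Nat.zero_le _)
  have hP : 1 ≤ P := le_trans hD1 hD1P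
  have e5 : q0 ^ 2 ≤ 27 * N ^ 3 * q0 ^ 2 * P := by
    have f1 : 1 ≤ 27 * N ^ 3 := by
      have : 1 ≤ N ^ 3 := Nat.one_le_pow _ _ hN
      omega
    calc q0 ^ 2 = 1 * q0 ^ 2 * 1 := by ring
      _ ≤ 27 * N ^ 3 * q0 ^ 2 * P := Nat.mul_le_mul (Nat.mul_le_mul f1 le_rfl) hP
  have e6 : (4 * H) ^ 2 < q0 ^ 2 := Nat.pow_lt_pow_left e4 (by norm_num)
  have e7 : (4 * H) ^ 2 = 16 * H ^ 2 := by ring
  omega

end FQQ
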