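import Pool.Agent.Lib.MP_10e784_agF.UG
import Pool.Agent.Lib.MP_10e784_agF.AE
import Pool.Agent.Lib.MP_10e784_agF.AN1
import Pool.Agent.Lib.MP_10e784_agF.GF

/-! JOB AN2 -/

set_option autoImplicit false

open Classical

namespace FQQ

open Finset Polynomial FGO

private theorem AN2_inv {c L : ℝ} (hc : 0 < c) (hL : 0 < L) : Real.exp (-(c * L)) ≤ 1 / (c * L) := by
  have hcL : 0 < c * L := mul_pos hc hL
  rw [Real.exp_neg, ← one_div]
  exact one_div_le_one_div_of_le hcL (by linarith [Real.add_one_le_exp (c * L)])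

/-- the main term -/
private theorem AN2_main {L S S2 T P W : ℝ} (hL : 0 < L) (h1 : 98 / 100 * L ≤ S) (h2 : S ≤ L)
    (h3 : S2 ≤ 6 / 1000 * L) (hT0 : 0 ≤ T) (hT : T ≤ Real.exp (-(100 * L))) (hP0 : 0 ≤ P)
    (hP : P ≤ 4096 * Real.exp (11 / 1000 * L)) (hW : 0 ≤ W) :
    Real.exp (-(143 / 1000 * S)) * (64 * P) * W * Real.exp (5 * S2) * (Real.exp 7 + 2 * T * Real.exp (5 * S + 2)) ≤
      64 * 4096 * (3 * Real.exp 7) * 12 * W / L := by
  have e1 : 2 * T * Real.exp (5 * S + 2) ≤ 2 * Real.exp 7 := by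
    have f1 : 2 * T * Real.exp (5 * S + 2) ≤ 2 * Real.exp (-(100 * L)) * Real.exp (5 * L + 2) := by
      have g1 : Real.exp (5 * S + 2) ≤ Real.exp (5 * L + 2) := Real.exp_le_exp.2 (by linarith)
      gcongr
    refine f1.trans ?_
    rw [mul_assoc, ← Real.exp_add]
    refine mul_le_mul_of_nonneg_left (Real.exp_le_exp.2 (by linarith)) (by norm_num)
  have e2 : Real.exp 7 + 2 * T * Real.exp (5 * S + 2) ≤ 3 * Real.exp 7 := by linarith
  have e3 : Real.exp (-(143 / 1000 * S)) ≤ Real.exp (-(14014 / 100000 * L)) := Real.exp_le_exp.2 (by linarith)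
  have e4 : Real.exp (5 * S2) ≤ Real.exp (30 / 1000 * L) := Real.exp_le_exp.2 (by linarith)
  have e5 : Real.exp (-(143 / 1000 * S)) * (64 * P) * W * Real.exp (5 * S2) * (Real.exp 7 + 2 * T * Real.exp (5 * S + 2)) ≤
      Real.exp (-(14014 / 100000 * L)) * (64 * (4096 * Real.exp (11 / 1000 * L))) * W * Real.exp (30 / 1000 * L) *
        (3 * Real.exp 7) := by
    have h0 : 0 ≤ Real.exp 7 + 2 * T * Real.exp (5 * S + 2) := by positivity
    gcongr
  refine e5.trans ?_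
  have e6 : Real.exp (-(14014 / 100000 * L)) * (64 * (4096 * Real.exp (11 / 1000 * L))) * W * Real.exp (30 / 1000 * L) *
        (3 * Real.exp 7) = 64 * 4096 * (3 * Real.exp 7) * W * Real.exp (-(9914 / 100000 * L)) := by
    have f1 : -(9914 / 100000 * L) = -(14014 / 100000 * L) + 11 / 1000 * L + 30 / 1000 * L := by ring
    rw [f1, Real.exp_add, Real.exp_add]
    ring
  rw [e6]
  have e7 : Real.exp (-(9914 / 100000 * L)) ≤ 12 / L := by
    refine (AN2_inv (by norm_num) hL).trans ?_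
    rw [div_le_div_iff₀ (by positivity) hL]
    linarith
  have e8 : 0 ≤ 64 * 4096 * (3 * Real.exp 7) * W := by positivity
  refine (mul_le_mul_of_nonneg_left e7 e8).trans (le_of_eq ?_)
  ring

private theorem AN2_log {N : ℕ} (hN : 16 ≤ N) : 1 < Real.log N ∧ 0 < Real.log (Real.log N) := by
  have h2 : (16 : ℝ) ≤ N := by exact_mod_cast hN
  have h3 : Real.log 16 ≤ Real.log N := Real.log_le_log (by norm_num) h2
  have h4 : Real.log 16 = 4 * Real.log 2 := by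
    rw [show (16 : ℝ) = 2 ^ 4 by norm_num, Real.log_pow]
    norm_num
  have h5 := Real.log_two_gt_d9
  have h6 : 1 < Real.log N := by
    rw [h4] at h3
    linarith
  exact ⟨h6, Real.log_pos h6⟩

private theorem AN2_card (m K N : ℕ) (hN : 1 ≤ N) :
    ((Bx m (N ^ K) N).card : ℝ) ≤ 3 ^ (m + 7) * (((N : ℝ) ^ K) ^ (m + 1) * (N : ℝ) ^ 6) := by
  have h0 : ∀ H : ℕ, (Icc (-(H : ℤ)) (H : ℤ)).card = 2 * H + 1 := by
    intro H
    rw [Int.card_Icc]
    omega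
  have h1 : (Bx m (N ^ K) N).card = (2 * N ^ K + 1) ^ (m + 1) * (2 * N + 1) ^ 6 := by
    unfold Bx boxN box2 FGO.box
    rw [Finset.card_product, Fintype.card_piFinset]
    simp only [Finset.card_product, h0, Finset.prod_const, Finset.card_univ, Fintype.card_fin]
    ring
  have h2 : 1 ≤ N ^ K := Nat.one_le_pow _ _ hN
  have h3 : (Bx m (N ^ K) N).card ≤ (3 * N ^ K) ^ (m + 1) * (3 * N) ^ 6 := by
    rw [h1]
    exact Nat.mul_le_mul (Nat.pow_le_pow_left (by omega) _) (Nat.pow_le_pow_left (by omega) _)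
  have h4 : ((Bx m (N ^ K) N).card : ℝ) ≤ (((3 * N ^ K) ^ (m + 1) * (3 * N) ^ 6 : ℕ) : ℝ) := by exact_mod_cast h3
  refine h4.trans (le_of_eq ?_)
  push_cast
  rw [mul_pow, mul_pow]
  ring

private theorem AN2_PM (m K N : ℕ) (hN : 2 ≤ N) : PM m (N ^ K) N ≤ N ^ (K + m + (m + 2).factorial + 4) := by
  unfold PM
  have h1 : (m + 2).factorial ≤ N ^ (m + 2).factorial :=
    (Nat.lt_two_pow_self).le.trans (Nat.pow_le_pow_left hN _)
  calc (m + 2).factorial * N ^ K * N ^ (m / 2) ≤ N ^ (m + 2).factorial * N ^ K * N ^ (m / 2) :=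
        Nat.mul_le_mul_right _ (Nat.mul_le_mul_right _ h1)
    _ = N ^ ((m + 2).factorial + K + m / 2) := by rw [pow_add, pow_add]
    _ ≤ N ^ (K + m + (m + 2).factorial + 4) := Nat.pow_le_pow_right (by omega) (by
        have : m / 2 ≤ m := Nat.div_le_self m 2
        omega)

private theorem AN2_3N (m K N : ℕ) (hN : 2 ≤ N) : 3 * N ^ 2 ≤ N ^ (K + m + (m + 2).factorial + 4) := by
  calc 3 * N ^ 2 ≤ N ^ 2 * N ^ 2 := Nat.mul_le_mul_right _ (by nlinarith)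
    _ = N ^ 4 := by ring
    _ ≤ _ := Nat.pow_le_pow_right (by omega) (by omega)

/-- the quotient `PM / H²` -/
private theorem AN2_quot (m K N : ℕ) (hN : 1 ≤ N) (hK2 : m / 2 + 1 ≤ K) :
    (PM m (N ^ K) N : ℝ) / ((N ^ K : ℕ) : ℝ) ^ 2 ≤ ((m + 2).factorial : ℝ) / N := by
  have hN0 : (0 : ℝ) < N := by exact_mod_cast hN
  unfold PM
  push_cast
  rw [div_le_div_iff₀ (by positivity) hN0]
  have h1 : (N : ℝ) ^ (m / 2) * N ≤ (N : ℝ) ^ K := by
    rw [← pow_succ]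
    exact pow_le_pow_right₀ (by exact_mod_cast hN) hK2
  calc ((m + 2).factorial : ℝ) * (N : ℝ) ^ K * (N : ℝ) ^ (m / 2) * N =
        ((m + 2).factorial : ℝ) * (N : ℝ) ^ K * ((N : ℝ) ^ (m / 2) * N) := by ring
    _ ≤ ((m + 2).factorial : ℝ) * (N : ℝ) ^ K * (N : ℝ) ^ K := by gcongr
    _ = ((m + 2).factorial : ℝ) * ((N : ℝ) ^ K) ^ 2 := by ring

/-- (all `m`, with the last exceptional set as a hypothesis) Proof. `H = N^K`, `A = max(..)` with `3 N² ≤ N^A`, `PM m (N^K) N = (m+2)! N^(K + m/2) ≤ N^A` for `N ≥ N1` (`A = K + m + (m+2)! + 4`, `N ≥ 2`). Take `params3 A`, `main_union`,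
`notTypical_card`. `8 N⁴ ≤ N^K` for `N ≥ 8` (`K ≥ 5`). All terms of `notTypical_card` are `≤ C/LL` (`PM/H² ≤ (m+2)! N^(m/2 - K) ≤ (m+2)!/N`, `1/N ≤ 1/LL`, `1/N^(1/10) ≤ 10/LL`, `1/P0 ≤ 200/LL`). Main term:
`exp(-0.143 S) 8^P0 exp(5 S2) (exp 7 + 2 TT exp(5 S + 2)) ≤ C exp((-0.143 · 0.98 + 0.011 + 0.03) LL) ≤ C exp(-0.09 LL) ≤ C/(0.09 LL)`. For `16 ≤ N < N0` (`N0` depending on `m, K`): the number is `≤ (3N^K)^(m+1) (3N)^6 ≤ C .../LL`. -/
theorem bad_of_exc (m K : ℕ) (hm : 1 ≤ m) (hme : Even m) (hK : 5 ≤ K) (hK2 : m / 2 + 1 ≤ K)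
    (hexc : ∃ C : ℝ, ∃ N1 : ℕ, ∀ N P0 z0 q0 q1 : ℕ, N1 ≤ N → (q0 : ℝ) ≤ (N : ℝ) ^ (1 / 20 : ℝ) → 0 < q0 →
      0 < ∑ p ∈ PQ P0 z0, 1 / (p : ℝ) →
      (((Bx m (N ^ K) N).filter fun g => Typ7 (N ^ K) N P0 z0 q0 q1 g.1 g.2 ∧
        ExcF (N ^ K) q0 (PM m (N ^ K) N) g.1 g.2).card : ℝ) ≤ C * ((N : ℝ) ^ K) ^ (m + 1) * (N : ℝ) ^ 6 / Real.log (Real.log N)) :
    ∃ C : ℝ, 0 < C ∧ ∀ N : ℕ, 16 ≤ N →
      (((Bx m (N ^ K) N).filter fun g => Sel g.1 g.2).card : ℝ) ≤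
        C * (((N : ℝ) ^ K) ^ (m + 1) * (N : ℝ) ^ 6) / Real.log (Real.log N) := by
  obtain ⟨C1, N1, HX⟩ := hexc
  obtain ⟨C2, hC2, HT⟩ := notTypical_card m hm
  obtain ⟨N0, hN0, HP⟩ := params3 (K + m + (m + 2).factorial + 4)
  obtain ⟨N2, hN2⟩ : ∃ N2 : ℕ, N2 = max N0 N1 := ⟨_, rfl⟩
  have hN2a : N0 ≤ N2 := by rw [hN2]; exact le_max_left _ _
  have hN2b : N1 ≤ N2 := by rw [hN2]; exact le_max_right _ _
  have hLL0 := (AN2_log (hN0.trans hN2a)).2
  obtain ⟨M, hM⟩ : ∃ M : ℝ, M = 64 * 4096 * (3 * Real.exp 7) * 12 * 8 ^ (m + 7) := ⟨_, rfl⟩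
  have hM0 : 0 < M := by rw [hM]; positivity
  have hpos : 0 < 3 ^ (m + 7) * Real.log (Real.log N2) + (C2 * (215 + ((m + 2).factorial : ℝ)) + |C1| + M) := by
    have := abs_nonneg C1
    positivity
  refine ⟨_, hpos, ?_⟩
  intro N hN
  obtain ⟨hlog, hLL⟩ := AN2_log hN
  have hNR : (16 : ℝ) ≤ N := by exact_mod_cast hN
  have hN1 : 0 < N := by omega
  obtain ⟨W, hW⟩ : ∃ W : ℝ, W = ((N : ℝ) ^ K) ^ (m + 1) * (N : ℝ) ^ 6 := ⟨_, rfl⟩
  have hW0 : 0 < W := by rw [hW]; positivity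
  rw [← hW]
  rcases lt_or_ge N N2 with hlt | hge
  · have h1 : Real.log (Real.log N) ≤ Real.log (Real.log N2) := by
      refine Real.log_le_log (by linarith) (Real.log_le_log (by linarith) ?_)
      exact_mod_cast hlt.le
    have h2 : (((Bx m (N ^ K) N).filter fun g => Sel g.1 g.2).card : ℝ) ≤ 3 ^ (m + 7) * W := by
      rw [hW]
      refine le_trans ?_ (AN2_card m K N hN1)
      exact_mod_cast Finset.card_filter_le _ _
    refine h2.trans ?_
    rw [le_div_iff₀ hLL]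
    have h3 : 3 ^ (m + 7) * W * Real.log (Real.log N) ≤ 3 ^ (m + 7) * W * Real.log (Real.log N2) :=
      mul_le_mul_of_nonneg_left h1 (by positivity)
    refine h3.trans ?_
    have h4 : 0 ≤ (C2 * (215 + ((m + 2).factorial : ℝ)) + |C1| + M) * W := by
      have := abs_nonneg C1
      positivity
    linarith
  · obtain ⟨P0, z0, q0, q1, k, Q2, p1, p2, p3, p4, p5, p6, p7, p8, p9, p10, p11, p12, p13, p14, p15, p16, p17, p18⟩ :=
      HP N (hN2a.trans hge)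
    have hXc := HX N P0 z0 q0 q1 (hN2b.trans hge) p8 p7 (by linarith)
    have hHpos : 0 < N ^ K := pow_pos hN1 K
    have h8 : 8 * N ^ 4 ≤ N ^ K := by
      calc 8 * N ^ 4 ≤ N * N ^ 4 := Nat.mul_le_mul_right _ (by omega)
        _ = N ^ 5 := by ring
        _ ≤ N ^ K := Nat.pow_le_pow_right hN1 hK
    have hTc := HT (N ^ K) N P0 z0 q0 q1 hN1 h8 p1 p2 p5 p6 p7 p9 p12
    have hU := main_union (m := m) (H := N ^ K) (N := N) (P0 := P0) (z0 := z0) (q0 := q0) (q1 := q1) (k := k) hm hme hHpos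
      hN1 p1 p2 p10 Q2 (by
        intro p hp hz hle
        refine p11 p hp hz ?_
        rcases hle with hle | hle
        · exact hle.trans (AN2_3N m K N (by omega))
        · exact hle.trans (AN2_PM m K N (by omega))) (by linarith)
    have hcast : (((N ^ K : ℕ) : ℝ)) = (N : ℝ) ^ K := by push_cast; rfl
    have hquot := AN2_quot m K N hN1 hK2
    rw [hcast] at hTc hU hquot
    obtain ⟨LL, hLLd⟩ : ∃ LL, LL = Real.log (Real.log N) := ⟨_, rfl⟩
    obtain ⟨S, hS⟩ : ∃ S, S = ∑ p ∈ PQ P0 z0, 1 / (p : ℝ) := ⟨_, rfl⟩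
    obtain ⟨S2, hS2⟩ : ∃ S2, S2 = ∑ p ∈ Q2, 1 / (p : ℝ) := ⟨_, rfl⟩
    have hcN : LL ≤ N := by
      have c2 : Real.log (Real.log N) ≤ Real.log N :=
        (Real.log_le_sub_one_of_pos (by linarith)).trans (by linarith)
      have c3 : Real.log N ≤ N :=
        (Real.log_le_sub_one_of_pos (by linarith)).trans (by linarith)
      rw [hLLd]
      exact c2.trans c3
    have hc10 : LL ≤ 10 * (N : ℝ) ^ (1 / 10 : ℝ) := by
      have hNp : (0 : ℝ) < N := by linarith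
      have c2 : Real.log (Real.log N) ≤ Real.log N :=
        (Real.log_le_sub_one_of_pos (by linarith)).trans (by linarith)
      have c3 := Real.log_le_rpow_div hNp.le (ε := 1 / 10) (by norm_num)
      rw [hLLd]
      refine (c2.trans c3).trans (le_of_eq ?_)
      ring
    rw [← hS] at hTc hU p12 p13 p14 p17
    rw [← hS2] at hU p15
    rw [← hLLd] at hLL p3 p4 p13 p14 p15 p16 p17 p18 hXc ⊢
    rw [← hW] at hTc
    have hNp : (0 : ℝ) < N := by linarith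
    -- the main term
    have hmain := AN2_main (T := TT (PQ P0 z0) k) (P := (8 : ℝ) ^ P0)
      (W := (8 * (N : ℝ) ^ K) ^ (m + 1) * (8 * (N : ℝ)) ^ 6) hLL p13 p14 p15 (TT_nonneg _ _) p16 (by positivity) p4
      (by positivity)
    have hW8 : (8 * (N : ℝ) ^ K) ^ (m + 1) * (8 * (N : ℝ)) ^ 6 = 8 ^ (m + 7) * W := by
      rw [hW, mul_pow, mul_pow]
      ring
    rw [hW8] at hmain hU
    have hmain2 : 64 * 4096 * (3 * Real.exp 7) * 12 * (8 ^ (m + 7) * W) / LL = M * W / LL := by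
      rw [hM]
      ring
    rw [hmain2] at hmain
    -- the small terms
    have a1 : 1 / (P0 : ℝ) ≤ 200 / LL := by
      have hP : (0 : ℝ) < P0 := by
        have : 0 < P0 := by omega
        exact_mod_cast this
      rw [div_le_div_iff₀ hP hLL]
      linarith
    have a2 : 1 / S ≤ 2 / LL := by
      rw [div_le_div_iff₀ (by linarith) hLL]
      linarith
    have a3 : 1 / (N : ℝ) ≤ 1 / LL := one_div_le_one_div_of_le hLL hcN
    have a4 : (PM m (N ^ K) N : ℝ) / ((N : ℝ) ^ K) ^ 2 ≤ ((m + 2).factorial : ℝ) / LL := by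
      refine hquot.trans ?_
      gcongr
    have a5 : 1 / (N : ℝ) ^ (1 / 10 : ℝ) ≤ 10 / LL := by
      rw [div_le_div_iff₀ (by positivity) hLL]
      linarith
    have a6 : 1 / (P0 : ℝ) + 1 / S + Real.log z0 * S / Real.log q1 + (1 + Real.log N) / z0 + 1 / N +
        (PM m (N ^ K) N : ℝ) / ((N : ℝ) ^ K) ^ 2 + 1 / (N : ℝ) ^ (1 / 10 : ℝ) ≤ (215 + ((m + 2).factorial : ℝ)) / LL := by
      have b1 : (215 + ((m + 2).factorial : ℝ)) / LL = 200 / LL + 2 / LL + 1 / LL + 1 / LL + 1 / LL +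
          ((m + 2).factorial : ℝ) / LL + 10 / LL := by ring
      rw [b1]
      linarith
    have a7 : C2 * W * (1 / (P0 : ℝ) + 1 / S + Real.log z0 * S / Real.log q1 + (1 + Real.log N) / z0 + 1 / N +
        (PM m (N ^ K) N : ℝ) / ((N : ℝ) ^ K) ^ 2 + 1 / (N : ℝ) ^ (1 / 10 : ℝ)) ≤
        C2 * (215 + ((m + 2).factorial : ℝ)) * W / LL := by
      refine (mul_le_mul_of_nonneg_left a6 (by positivity)).trans (le_of_eq ?_)
      ring
    have a8 : C1 * ((N : ℝ) ^ K) ^ (m + 1) * (N : ℝ) ^ 6 / LL ≤ |C1| * W / LL := by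
      have b1 : C1 * ((N : ℝ) ^ K) ^ (m + 1) * (N : ℝ) ^ 6 = C1 * W := by
        rw [hW]
        ring
      rw [b1]
      have b2 : C1 * W ≤ |C1| * W := mul_le_mul_of_nonneg_right (le_abs_self _) hW0.le
      gcongr
    have a9 : 0 ≤ 3 ^ (m + 7) * Real.log (Real.log N2) * W / LL := by positivity
    have a10 : (3 ^ (m + 7) * Real.log (Real.log N2) + (C2 * (215 + ((m + 2).factorial : ℝ)) + |C1| + M)) * W / LL =
        3 ^ (m + 7) * Real.log (Real.log N2) * W / LL +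
          (C2 * (215 + ((m + 2).factorial : ℝ)) * W / LL + |C1| * W / LL + M * W / LL) := by ring
    rw [a10]
    linarith

/-- (degree `m ≥ 4`) Proof. `bad_of_exc`; the exceptional set is empty: `excF_false` (`typ7_ne`) with `H = N^K`, `P = PM m (N^K) N = (m+2)! N^(K + m/2)`: `27 N³ q0² PM < 16 N^(2K)` for large `N` as `q0² ≤ N^(1/10)`, `K ≥ m/2 + 4`. -/
theorem bad_card4 (m K : ℕ) (hm : 4 ≤ m) (hme : Even m) (hK : m / 2 + 4 ≤ K) :
    ∃ C : ℝ, 0 < C ∧ ∀ N : ℕ, 16 ≤ N →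
      (((Bx m (N ^ K) N).filter fun g => Sel g.1 g.2).card : ℝ) ≤
        C * (((N : ℝ) ^ K) ^ (m + 1) * (N : ℝ) ^ 6) / Real.log (Real.log N) := by
  refine bad_of_exc m K (by omega) hme (by omega) (by omega) ?_
  refine ⟨0, (27 * (m + 2).factorial) ^ 2 + 1, ?_⟩
  intro N P0 z0 q0 q1 hN hq hq0 hS
  have hN1 : 0 < N := by omega
  have hq4 : q0 ^ 4 ≤ N := by
    have hNr : (1 : ℝ) ≤ N := by exact_mod_cast hN1
    have h1 : (q0 : ℝ) ^ 4 ≤ ((N : ℝ) ^ (1 / 20 : ℝ)) ^ 4 := pow_le_pow_left₀ (by positivity) hq 4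
    have h2 : ((N : ℝ) ^ (1 / 20 : ℝ)) ^ 4 = (N : ℝ) ^ (1 / 5 : ℝ) := by
      rw [← Real.rpow_natCast, ← Real.rpow_mul (by positivity)]
      norm_num
    have h3 : (N : ℝ) ^ (1 / 5 : ℝ) ≤ (N : ℝ) ^ (1 : ℝ) := Real.rpow_le_rpow_of_exponent_le hNr (by norm_num)
    rw [Real.rpow_one] at h3
    have h4 : (q0 : ℝ) ^ 4 ≤ (N : ℝ) := by
      rw [h2] at h1
      exact h1.trans h3
    exact_mod_cast h4
  have hsmall : 27 * (m + 2).factorial * q0 ^ 2 ≤ N := by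
    have h1 : (27 * (m + 2).factorial * q0 ^ 2) ^ 2 ≤ N ^ 2 := by
      calc (27 * (m + 2).factorial * q0 ^ 2) ^ 2 = (27 * (m + 2).factorial) ^ 2 * q0 ^ 4 := by ring
        _ ≤ N * N := Nat.mul_le_mul (by omega) hq4
        _ = N ^ 2 := by ring
    exact (Nat.pow_le_pow_iff_left (by norm_num)).1 h1
  have hHpos : 0 < N ^ K := pow_pos hN1 K
  have hsz : 27 * N ^ 3 * q0 ^ 2 * PM m (N ^ K) N < 16 * (N ^ K) ^ 2 := by
    unfold PM
    calc 27 * N ^ 3 * q0 ^ 2 * ((m + 2).factorial * N ^ K * N ^ (m / 2)) =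
          (27 * (m + 2).factorial * q0 ^ 2) * (N ^ 3 * N ^ K * N ^ (m / 2)) := by ring
      _ ≤ N * (N ^ 3 * N ^ K * N ^ (m / 2)) := Nat.mul_le_mul_right _ hsmall
      _ = N ^ K * N ^ (m / 2 + 4) := by ring
      _ ≤ N ^ K * N ^ K := Nat.mul_le_mul_left _ (Nat.pow_le_pow_right hN1 hK)
      _ = (N ^ K) ^ 2 := by ring
      _ < 16 * (N ^ K) ^ 2 := by
        have : 0 < (N ^ K) ^ 2 := by positivity
        omega
  have hempty : (Bx m (N ^ K) N).filter (fun g => Typ7 (N ^ K) N P0 z0 q0 q1 g.1 g.2 ∧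
      ExcF (N ^ K) q0 (PM m (N ^ K) N) g.1 g.2) = ∅ := by
    refine Finset.filter_eq_empty_iff.2 ?_
    rintro ⟨f, u⟩ hg ⟨hT, hE⟩
    unfold Bx at hg
    rw [Finset.mem_product] at hg
    obtain ⟨e1, e2, e3⟩ := typ7_ne hT hS
    exact excF_false (by omega) hN1 hHpos hsz f u hg.2 e1 e2 e3 hE
  rw [hempty, Finset.card_empty]
  simp

end FQQ
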