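import Pool.Agent.Lib.MP_10e784_agF.RC

/-! JOB RD -/

set_option autoImplicit false

open Classical

namespace FQQ

open Finset Polynomial FGO

/-- Proof. `n = (v.2.1 w.2.2 - w.2.1 v.2.2, v.2.2 w.1 - v.1 w.2.2, v.1 w.2.1 - v.2.1 w.1)` (vector product), `rs v w = n₂² - n₁ n₃ = 0`. If `n₃ ≠ 0` then `r = n₂/n₃` is a common root: `n₃ v(r) = v.1 n₁ + v.2.1 n₂ + v.2.2 n₃ = 0`
(as `n₃ r² = n₂²/n₃ = n₁`), point `(r, 1)`. If `n₃ = 0` then `n₂ = 0`; if `n₁ ≠ 0` then `0 = n · v = n₁ v.1`, so `v.1 = w.1 = 0` and `(1, 0)` is a common zero. If `n = 0`: third alternative. -/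
theorem rs_zero {F : Type} [Field F] (v w : F × F × F) (h : rs v w = 0) :
    (∃ x z : F, ¬ (x = 0 ∧ z = 0) ∧ qv v x z = 0 ∧ qv w x z = 0) ∨
      (v.2.1 * w.2.2 = w.2.1 * v.2.2 ∧ v.2.2 * w.1 = v.1 * w.2.2 ∧ v.1 * w.2.1 = v.2.1 * w.1) := by
  obtain ⟨a, b, c⟩ := v
  obtain ⟨a', b', c'⟩ := w
  simp only [rs, qv] at h ⊢
  by_cases h3 : a * b' - b * a' = 0
  · have h2 : c * a' - a * c' = 0 := by
      have h4 : (c * a' - a * c') ^ 2 = 0 := by linear_combination h + (b * c' - b' * c) * h3
      exact pow_eq_zero_iff (two_ne_zero) |>.mp h4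
    by_cases h1 : b * c' - b' * c = 0
    · right
      exact ⟨sub_eq_zero.mp h1, sub_eq_zero.mp h2, sub_eq_zero.mp h3⟩
    · left
      have ha : a = 0 := by
        have h5 : (b * c' - b' * c) * a = 0 := by linear_combination -b * h2 - c * h3
        exact (mul_eq_zero.mp h5).resolve_left h1
      have ha' : a' = 0 := by
        have h5 : (b * c' - b' * c) * a' = 0 := by linear_combination -b' * h2 - c' * h3
        exact (mul_eq_zero.mp h5).resolve_left h1
      refine ⟨1, 0, fun h6 => one_ne_zero h6.1, ?_, ?_⟩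
      · rw [ha]; ring
      · rw [ha']; ring
  · left
    refine ⟨c * a' - a * c', a * b' - b * a', fun h6 => h3 h6.2, ?_, ?_⟩
    · linear_combination a * h
    · linear_combination a' * h

theorem RD_Pq_degree {F : Type} [Field F] (v : F × F × F) (h : v.1 ≠ 0) : (Pq v).natDegree = 2 := by
  unfold Pq
  exact natDegree_quadratic h

theorem RD_Pq_coeff {F : Type} [Field F] (v : F × F × F) : (Pq v).coeff 2 = v.1 := by
  unfold Pq
  simp

theorem RD_coprime {F : Type} [Field F] (p : F[X]) (r : F) (h : p.eval r ≠ 0) : IsCoprime p (X - C r) := by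
  rw [isCoprime_comm]
  exact (irreducible_X_sub_C r).coprime_iff_not_dvd.mpr fun h1 => h (dvd_iff_isRoot.mp h1)

theorem RD_not_coprime {F : Type} [Field F] {m : ℕ} (f : Fin (m + 1) → F) (v : F × F × F) (hv1 : v.1 ≠ 0)
    (h : Rs f v = 0) : ¬ IsCoprime (Pf f) (Pq v) := by
  obtain ⟨k, hk⟩ := Nat.exists_eq_add_of_le (natDegree_Pf f)
  have h1 : (Pf f).resultant (Pq v) ((Pf f).natDegree + k) 2 = 0 := by
    rw [← hk]; exact h
  rw [resultant_add_left_deg _ _ _ _ _ le_rfl, RD_Pq_coeff] at h1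
  have h2 : (-1 : F) ^ (2 * k) * v.1 ^ k ≠ 0 :=
    mul_ne_zero (pow_ne_zero _ (neg_ne_zero.mpr one_ne_zero)) (pow_ne_zero _ hv1)
  have h3 := (mul_eq_zero.mp h1).resolve_left h2
  rw [← RD_Pq_degree v hv1] at h3
  exact (resultant_eq_zero_iff.mp h3).2

/-- Proof. Suppose `v ≠ 0`.
Case `v.1 = 0`: `Pq v = C b * X + C c`. `resultant_add_right_deg` with `k = 1`: `Rs f v = f_m * resultant (Pf f) (Pq v) m 1` (`coeff m` of `Pf f` is `f_m`). If `f_m = 0`: `(1, 0)` is a common zero (`hv_inf`). Otherwise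
`resultant (Pf f) (C b X + C c) m 1 = 0`: if `b ≠ 0` then `C b X + C c = C b (X - C (-c/b))`, `resultant_C_mul_right`, `resultant_X_sub_C_right`: `f(-c/b) = 0`, common zero `(-c/b, 1)`; if `b = 0` then `c ≠ 0` and the resultant is
`f_m * c^m ≠ 0` (`resultant_C_right`).
Case `v.1 ≠ 0`, `v` has a root `r ∈ F`: `v = (a, -(a(r+s)), a r s)` with `s = -b/a - r`; `Rs_split`: `hv f r 1 = 0` or `hv f s 1 = 0`: common zero.
Case `v.1 ≠ 0` without root in `F`: `Pq v` is irreducible (degree `2`; `Polynomial.irreducible_of_degree_le_three_of_not_isRoot` or similar). If `Pq v ∤ Pf f` they are coprime; then `Pf f ≠ 0` and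
`resultant (Pf f) (Pq v) (natDegree) 2 ≠ 0` (`resultant_ne_zero` / `resultant_eq_zero_iff`), and `Rs f v = (± (leading coefficient of v)^k) * ...` (`resultant_add_left_deg`, `m = natDegree + k`) is `≠ 0`: contradiction. -/
theorem Rs_zero {F : Type} [Field F] {m : ℕ} (hm : 1 ≤ m) (f : Fin (m + 1) → F) (v : F × F × F) (h : Rs f v = 0) :
    (∃ x z : F, ¬ (x = 0 ∧ z = 0) ∧ hv f x z = 0 ∧ qv v x z = 0) ∨ v = 0 ∨ (v.1 ≠ 0 ∧ Pq v ∣ Pf f) := by
  by_cases hv1 : v.1 = 0
  · have h1 : (Pf f).resultant (Pq v) m (1 + 1) = 0 := h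
    have hd : (Pq v).natDegree ≤ 1 := by
      unfold Pq
      rw [hv1, C_0, zero_mul, zero_add]
      exact natDegree_linear_le
    rw [resultant_add_right_deg _ _ _ _ _ hd, pow_one] at h1
    have hm' : (Pf f).coeff m = f (Fin.last m) := coeff_Pf f (Fin.last m)
    rw [hm'] at h1
    by_cases hf : f (Fin.last m) = 0
    · left
      refine ⟨1, 0, fun h6 => one_ne_zero h6.1, by rw [hv_inf, hf], ?_⟩
      unfold qv
      rw [hv1]
      ring
    · have h2 := (mul_eq_zero.mp h1).resolve_left hf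
      by_cases hb : v.2.1 = 0
      · by_cases hc : v.2.2 = 0
        · right; left
          exact Prod.ext hv1 (Prod.ext hb hc)
        · exfalso
          have hP : Pq v = C v.2.2 := by
            unfold Pq
            rw [hv1, hb, C_0, zero_mul, zero_mul, zero_add, zero_add]
          have h3 : (Pf f).resultant (C v.2.2) m (0 + 1) = 0 := by
            rw [← hP]; exact h2
          rw [resultant_add_right_deg _ _ _ _ _ (by simp), pow_one, hm', resultant_C_zero_right] at h3
          exact (mul_ne_zero hf (pow_ne_zero _ hc)) h3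
      · left
        have hP : Pq v = C v.2.1 * (X - C (-v.2.2 / v.2.1)) := by
          unfold Pq
          rw [hv1, C_0, zero_mul, zero_add, mul_sub, ← C_mul, mul_div_cancel₀ _ hb, C_neg, sub_neg_eq_add]
        rw [hP, resultant_C_mul_right, resultant_X_sub_C_right _ _ _ (natDegree_Pf f)] at h2
        have h3 : (Pf f).eval (-v.2.2 / v.2.1) = 0 := by
          rcases mul_eq_zero.mp h2 with h4 | h4
          · exact absurd h4 (pow_ne_zero _ hb)
          · exact (mul_eq_zero.mp h4).resolve_left (pow_ne_zero _ (neg_ne_zero.mpr one_ne_zero))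
        refine ⟨-v.2.2 / v.2.1, 1, fun h6 => one_ne_zero h6.2, by rw [← eval_Pf, h3], ?_⟩
        unfold qv
        rw [hv1]
        field_simp
        ring
  · have hnc := RD_not_coprime f v hv1 h
    by_cases hr : ∃ r, (Pq v).IsRoot r
    · left
      obtain ⟨r, hr⟩ := hr
      have hr' : v.1 * r ^ 2 + v.2.1 * r + v.2.2 = 0 := by
        have := hr.eq_zero
        rw [eval_Pq] at this
        unfold qv at this
        linear_combination this
      obtain ⟨s, hs⟩ : ∃ s, s = -v.2.1 / v.1 - r := ⟨_, rfl⟩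
      have hs' : v.1 * (r + s) = -v.2.1 := by
        rw [hs]
        field_simp
        ring
      have hs2 : v.1 * r * s = v.2.2 := by linear_combination r * hs' - hr'
      have hP : Pq v = C v.1 * ((X - C r) * (X - C s)) := by
        unfold Pq
        have e1 : C v.2.1 = -(C v.1 * (C r + C s)) := by
          rw [← C_add, ← C_mul, hs', C_neg, neg_neg]
        have e2 : C v.2.2 = C v.1 * C r * C s := by
          rw [← C_mul, ← C_mul, hs2]
        rw [e1, e2]
        ring
      have hroot : (Pf f).eval r = 0 ∨ (Pf f).eval s = 0 := by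
        by_contra hcon
        push Not at hcon
        apply hnc
        rw [hP]
        refine IsCoprime.mul_right ?_ ((RD_coprime _ r hcon.1).mul_right (RD_coprime _ s hcon.2))
        exact ⟨0, C v.1⁻¹, by rw [zero_mul, zero_add, ← C_mul, inv_mul_cancel₀ hv1, C_1]⟩
      rcases hroot with h4 | h4
      · refine ⟨r, 1, fun h6 => one_ne_zero h6.2, by rw [← eval_Pf, h4], ?_⟩
        unfold qv
        linear_combination hr'
      · refine ⟨s, 1, fun h6 => one_ne_zero h6.2, by rw [← eval_Pf, h4], ?_⟩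
        unfold qv
        linear_combination s * hs' - hs2
    · right; right
      refine ⟨hv1, ?_⟩
      have hirr : Irreducible (Pq v) := by
        refine irreducible_of_degree_le_three_of_not_isRoot ?_ fun x hx => hr ⟨x, hx⟩
        rw [RD_Pq_degree v hv1]
        decide
      by_contra hnd
      exact hnc ((hirr.coprime_iff_not_dvd.mpr hnd).symm)

end FQQ
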