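import Pool.Agent.Lib.MP_10e784_agF.D2
import Pool.Agent.Lib.MP_10e784_agF.LF
import Pool.Agent.Lib.MP_10e784_agF.RD
import Pool.Agent.Lib.MP_10e784_agF.LT

/-! JOB BA -/

set_option autoImplicit false

open Classical

namespace FQQ

open Finset Polynomial FGO

theorem BA_sum_ind {α : Type} [Fintype α] (P : α → Prop) :
    ∑ a, ind (P a) = ((univ.filter P).card : ℝ) := by
  unfold ind
  rw [Finset.sum_boole]

theorem BA_sum_ind_le {α : Type} [Fintype α] (P : α → Prop) (c : ℝ)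
    (h : ∀ S : Finset α, (∀ a ∈ S, P a) → (S.card : ℝ) ≤ c) : ∑ a, ind (P a) ≤ c := by
  rw [BA_sum_ind]
  exact h _ fun a ha => (Finset.mem_filter.1 ha).2

theorem BA_pos (p : ℕ) [hp : Fact p.Prime] : (0 : ℝ) < p := by
  exact_mod_cast hp.out.pos

/-- Proof. `v.1 ≠ 0`: if two forms `f, f'` with the same coordinates `≥ 2` are divisible by `Pq v` then `Pf f - Pf f'` has degree `≤ 1` and is divisible by the quadratic polynomial `Pq v`, so it is `0`. So there are at most `p^(m-1)` such `f`. -/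
theorem mF_dvd (m p : ℕ) [Fact p.Prime] (hm : 1 ≤ m) (v : ZMod p × ZMod p × ZMod p) (hv : v.1 ≠ 0) :
    mF m p (fun f => ind (Pq v ∣ Pf f)) ≤ 1 / (p : ℝ) ^ 2 := by
  obtain ⟨n, rfl⟩ : ∃ n, m = n + 1 := ⟨m - 1, by omega⟩
  have hp0 := BA_pos p
  unfold mF
  rw [BA_sum_ind]
  have hcard : (univ.filter fun f : Fin (n + 1 + 1) → ZMod p => Pq v ∣ Pf f).card ≤ p ^ n := by
    have h1 : Fintype.card (Fin n → ZMod p) = p ^ n := by
      rw [Fintype.card_fun, ZMod.card, Fintype.card_fin]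
    rw [← h1, ← Finset.card_univ]
    apply Finset.card_le_card_of_injOn (fun f => fun i : Fin n => f i.succ.succ)
    · intro f _
      exact Finset.mem_coe.2 (Finset.mem_univ _)
    · intro f hf f' hf' hff
      rw [Finset.mem_coe, Finset.mem_filter] at hf hf'
      have h2 : Pq v ∣ Pf f - Pf f' := dvd_sub hf.2 hf'.2
      have hdeg : (Pq v).degree = 2 := by
        unfold Pq
        exact degree_quadratic hv
      have h3 : (Pf f - Pf f').degree < (Pq v).degree := by
        rw [hdeg]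
        have h4 : (Pf f - Pf f').degree ≤ 1 := by
          rw [Polynomial.degree_le_iff_coeff_zero]
          intro k hk
          have hk2 : 2 ≤ k := by
            have h5 : (1 : WithBot ℕ) < (k : WithBot ℕ) := hk
            have h6 : 1 < k := by exact_mod_cast h5
            omega
          rw [coeff_sub]
          by_cases hkm : k < n + 1 + 1
          · have e1 := coeff_Pf f ⟨k, hkm⟩
            have e2 := coeff_Pf f' ⟨k, hkm⟩
            simp only at e1 e2
            rw [e1, e2]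
            have h7 := congrFun hff ⟨k - 2, by omega⟩
            simp only at h7
            have h8 : (⟨k - 2, by omega⟩ : Fin n).succ.succ = ⟨k, hkm⟩ := by
              apply Fin.ext
              simp only [Fin.val_succ]
              omega
            rw [h8] at h7
            rw [h7, sub_self]
          · rw [coeff_eq_zero_of_natDegree_lt (lt_of_le_of_lt (natDegree_Pf f) (by omega)),
              coeff_eq_zero_of_natDegree_lt (lt_of_le_of_lt (natDegree_Pf f') (by omega)), sub_self]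
        refine lt_of_le_of_lt h4 ?_
        norm_num
      have h4 : Pf f - Pf f' = 0 := by
        by_contra hne
        have h5 := Polynomial.degree_le_of_dvd h2 hne
        exact absurd h3 (not_lt.2 h5)
      funext i
      rw [← coeff_Pf f i, ← coeff_Pf f' i, sub_eq_zero.1 h4]
  have hcard' : ((univ.filter fun f : Fin (n + 1 + 1) → ZMod p => Pq v ∣ Pf f).card : ℝ) ≤
      (p : ℝ) ^ n := by exact_mod_cast hcard
  rw [div_le_div_iff₀ (by positivity) (by positivity)]
  calc ((univ.filter fun f : Fin (n + 1 + 1) → ZMod p => Pq v ∣ Pf f).card : ℝ) * (p : ℝ) ^ 2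
      ≤ (p : ℝ) ^ n * (p : ℝ) ^ 2 := mul_le_mul_of_nonneg_right hcard' (by positivity)
    _ = 1 * (p : ℝ) ^ (n + 1 + 1) := by ring

theorem BA_mF_dvd (m p : ℕ) [Fact p.Prime] (hm : 1 ≤ m) (v : ZMod p × ZMod p × ZMod p) :
    mF m p (fun f => ind (v.1 ≠ 0 ∧ Pq v ∣ Pf f)) ≤ 1 / (p : ℝ) ^ 2 := by
  have hp0 := BA_pos p
  by_cases hv : v.1 = 0
  · have h1 : (fun f : Fin (m + 1) → ZMod p => ind (v.1 ≠ 0 ∧ Pq v ∣ Pf f)) = fun _ => 0 := by
      funext f
      unfold ind
      rw [if_neg]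
      rintro ⟨h, -⟩
      exact h hv
    rw [h1, mF_const]
    positivity
  · refine (mF_mono m p _ _ fun f => ind_mono fun h => h.2).trans (mF_dvd m p hm v hv)

theorem BA_ind_or {P Q R : Prop} (h : P → Q ∨ R) : ind P ≤ ind Q + ind R := by
  by_cases hP : P
  · rcases h hP with hQ | hR
    · have h1 : ind Q = 1 := by unfold ind; rw [if_pos hQ]
      have h2 := ind_le_one P
      have h3 := ind_nonneg R
      linarith
    · have h1 : ind R = 1 := by unfold ind; rw [if_pos hR]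
      have h2 := ind_le_one P
      have h3 := ind_nonneg Q
      linarith
  · have h1 : ind P = 0 := by unfold ind; rw [if_neg hP]
    have h2 := ind_nonneg Q
    have h3 := ind_nonneg R
    linarith

theorem BA_fin (p : ℕ) [hp : Fact p.Prime] : 1 / (p : ℝ) ^ 3 + 1 / (p : ℝ) ^ 2 ≤ 2 / (p : ℝ) ^ 2 := by
  have hp0 := BA_pos p
  have h1 : (1 : ℝ) ≤ p := by exact_mod_cast hp.out.one_le
  have h2 : 1 / (p : ℝ) ^ 3 ≤ 1 / (p : ℝ) ^ 2 :=
    one_div_le_one_div_of_le (by positivity) (pow_le_pow_right₀ h1 (by norm_num))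
  have h3 : 2 / (p : ℝ) ^ 2 = 1 / (p : ℝ) ^ 2 + 1 / (p : ℝ) ^ 2 := by ring
  linarith

/-- the multiples of a nonzero vector -/
theorem BA_prop (p : ℕ) [Fact p.Prime] (v : ZMod p × ZMod p × ZMod p) (hv : v ≠ 0) :
    mQ p (fun w => ind (v.2.1 * w.2.2 = w.2.1 * v.2.2 ∧ v.2.2 * w.1 = v.1 * w.2.2 ∧
      v.1 * w.2.1 = v.2.1 * w.1)) ≤ 1 / (p : ℝ) ^ 2 := by
  have hp0 := BA_pos p
  have hcard : ∀ S : Finset (ZMod p × ZMod p × ZMod p), (∀ w ∈ S, v.2.1 * w.2.2 = w.2.1 * v.2.2 ∧
      v.2.2 * w.1 = v.1 * w.2.2 ∧ v.1 * w.2.1 = v.2.1 * w.1) → S.card ≤ p := by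
    intro S hS
    have h1 : (univ : Finset (ZMod p)).card = p := by rw [Finset.card_univ, ZMod.card]
    refine le_trans ?_ h1.le
    by_cases h1 : v.1 = 0
    · by_cases h2 : v.2.1 = 0
      · have h3 : v.2.2 ≠ 0 := by
          intro h3
          apply hv
          exact Prod.ext h1 (Prod.ext h2 h3)
        apply Finset.card_le_card_of_injOn (fun w => w.2.2) (fun w _ => Finset.mem_coe.2 (Finset.mem_univ _))
        intro w hw w' hw' hww
        rw [Finset.mem_coe] at hw hw'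
        obtain ⟨a1, a2, a3⟩ := hS w hw
        obtain ⟨b1, b2, b3⟩ := hS w' hw'
        simp only at hww
        rw [h2, zero_mul] at a1 b1
        rw [h1, zero_mul] at a2 b2
        have e1 : w.1 = 0 := (mul_eq_zero.1 a2).resolve_left h3
        have e2 : w'.1 = 0 := (mul_eq_zero.1 b2).resolve_left h3
        have e3 : w.2.1 = 0 := (mul_eq_zero.1 a1.symm).resolve_right h3
        have e4 : w'.2.1 = 0 := (mul_eq_zero.1 b1.symm).resolve_right h3
        exact Prod.ext (e1.trans e2.symm) (Prod.ext (e3.trans e4.symm) hww)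
      · apply Finset.card_le_card_of_injOn (fun w => w.2.1) (fun w _ => Finset.mem_coe.2 (Finset.mem_univ _))
        intro w hw w' hw' hww
        rw [Finset.mem_coe] at hw hw'
        obtain ⟨a1, a2, a3⟩ := hS w hw
        obtain ⟨b1, b2, b3⟩ := hS w' hw'
        simp only at hww
        have e1 : w.1 = w'.1 := by
          apply mul_left_cancel₀ h2
          rw [← a3, ← b3, hww]
        have e2 : w.2.2 = w'.2.2 := by
          apply mul_left_cancel₀ h2
          rw [a1, b1, hww]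
        exact Prod.ext e1 (Prod.ext hww e2)
    · apply Finset.card_le_card_of_injOn (fun w => w.1) (fun w _ => Finset.mem_coe.2 (Finset.mem_univ _))
      intro w hw w' hw' hww
      rw [Finset.mem_coe] at hw hw'
      obtain ⟨a1, a2, a3⟩ := hS w hw
      obtain ⟨b1, b2, b3⟩ := hS w' hw'
      simp only at hww
      have e1 : w.2.1 = w'.2.1 := by
        apply mul_left_cancel₀ h1
        rw [a3, b3, hww]
      have e2 : w.2.2 = w'.2.2 := by
        apply mul_left_cancel₀ h1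
        rw [← a2, ← b2, hww]
      exact Prod.ext hww (Prod.ext e1 e2)
  have h2 := BA_sum_ind_le (fun w : ZMod p × ZMod p × ZMod p => v.2.1 * w.2.2 = w.2.1 * v.2.2 ∧
      v.2.2 * w.1 = v.1 * w.2.2 ∧ v.1 * w.2.1 = v.2.1 * w.1) (p : ℝ)
      fun S hS => by exact_mod_cast hcard S hS
  unfold mQ
  rw [div_le_div_iff₀ (by positivity) (by positivity)]
  refine (mul_le_mul_of_nonneg_right h2 (by positivity)).trans (le_of_eq ?_)
  ring

/-- Proof. `i = 1, 2`: `Rs_zero`: `E i`, or `v = 0` (`1/p³`), or `v.1 ≠ 0` and `Pq v ∣ Pf f` (`1/p²`, `mF_dvd`). `i = 0`: `rs_zero`: `E 0` or the vector product vanishes: `v = 0` (`1/p³`) or `w` is a multiple of `v` (`1/p²`). -/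
theorem Av_RE (m p : ℕ) [Fact p.Prime] (hm : 1 ≤ m) (i : Fin 3) :
    Av m p (fun f v w => ind (Rv f v w i = 0 ∧ ¬ E f v w i)) ≤ 2 / (p : ℝ) ^ 2 := by
  have hp0 := BA_pos p
  refine le_trans ?_ (BA_fin p)
  fin_cases i
  · -- `i = 0`
    have h1 : ∀ (f : Fin (m + 1) → ZMod p) (v w : ZMod p × ZMod p × ZMod p),
        ind (Rv f v w 0 = 0 ∧ ¬ E f v w 0) ≤ ind (v.2.1 * w.2.2 = w.2.1 * v.2.2 ∧
          v.2.2 * w.1 = v.1 * w.2.2 ∧ v.1 * w.2.1 = v.2.1 * w.1) := by
      intro f v w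
      apply ind_mono
      rintro ⟨h2, h3⟩
      have h4 : rs v w = 0 := h2
      rcases rs_zero v w h4 with ⟨x, z, hxz, hx, hz⟩ | h5
      · exfalso
        apply h3
        refine ⟨x, z, hxz, fun j hj => ?_⟩
        fin_cases j
        · exact absurd rfl hj
        · exact hx
        · exact hz
      · exact h5
    refine (Av_mono m p _ _ h1).trans ?_
    unfold Av
    simp only [mF_const]
    refine (mQ_mono p _ (fun v => ind (v = 0) + 1 / (p : ℝ) ^ 2) fun v => ?_).trans ?_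
    · by_cases hv : v = 0
      · have h2 : ind (v = 0) = 1 := by unfold ind; rw [if_pos hv]
        rw [h2]
        have h3 : mQ p (fun w => ind (v.2.1 * w.2.2 = w.2.1 * v.2.2 ∧ v.2.2 * w.1 = v.1 * w.2.2 ∧
            v.1 * w.2.1 = v.2.1 * w.1)) ≤ mQ p fun _ => 1 := mQ_mono p _ _ fun w => ind_le_one _
        rw [mQ_const] at h3
        have h4 : 0 ≤ 1 / (p : ℝ) ^ 2 := by positivity
        linarith
      · have h2 := BA_prop p v hv
        have h3 := ind_nonneg (v = 0)
        linarith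
    · rw [mQ_add, mQ_const, mQ_zero]
  · -- `i = 1`
    have h1 : ∀ (f : Fin (m + 1) → ZMod p) (v w : ZMod p × ZMod p × ZMod p),
        ind (Rv f v w 1 = 0 ∧ ¬ E f v w 1) ≤ ind (w = 0) + ind (w.1 ≠ 0 ∧ Pq w ∣ Pf f) := by
      intro f v w
      apply BA_ind_or
      rintro ⟨h2, h3⟩
      have h4 : Rs f w = 0 := h2
      rcases Rs_zero hm f w h4 with ⟨x, z, hxz, hx, hz⟩ | h5 | h5
      · exfalso
        apply h3
        refine ⟨x, z, hxz, fun j hj => ?_⟩
        fin_cases j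
        · exact hx
        · exact absurd rfl hj
        · exact hz
      · exact Or.inl h5
      · exact Or.inr h5
    refine (Av_mono m p _ _ h1).trans ?_
    unfold Av
    have h2 : ∀ w : ZMod p × ZMod p × ZMod p, mF m p (fun f => ind (w = 0) +
        ind (w.1 ≠ 0 ∧ Pq w ∣ Pf f)) ≤ ind (w = 0) + 1 / (p : ℝ) ^ 2 := by
      intro w
      rw [mF_add, mF_const]
      have := BA_mF_dvd m p hm w
      linarith
    have h3 : mQ p (fun w => mF m p (fun f => ind (w = 0) + ind (w.1 ≠ 0 ∧ Pq w ∣ Pf f))) ≤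
        1 / (p : ℝ) ^ 3 + 1 / (p : ℝ) ^ 2 := by
      refine (mQ_mono p _ _ h2).trans ?_
      rw [mQ_add, mQ_const, mQ_zero]
    refine (mQ_mono p _ _ fun _ => h3).trans ?_
    rw [mQ_const]
  · -- `i = 2`
    have h1 : ∀ (f : Fin (m + 1) → ZMod p) (v w : ZMod p × ZMod p × ZMod p),
        ind (Rv f v w 2 = 0 ∧ ¬ E f v w 2) ≤ ind (v = 0) + ind (v.1 ≠ 0 ∧ Pq v ∣ Pf f) := by
      intro f v w
      apply BA_ind_or
      rintro ⟨h2, h3⟩
      have h4 : Rs f v = 0 := h2
      rcases Rs_zero hm f v h4 with ⟨x, z, hxz, hx, hz⟩ | h5 | h5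
      · exfalso
        apply h3
        refine ⟨x, z, hxz, fun j hj => ?_⟩
        fin_cases j
        · exact hx
        · exact hz
        · exact absurd rfl hj
      · exact Or.inl h5
      · exact Or.inr h5
    refine (Av_mono m p _ _ h1).trans ?_
    unfold Av
    have h2 : ∀ v : ZMod p × ZMod p × ZMod p, mF m p (fun f => ind (v = 0) +
        ind (v.1 ≠ 0 ∧ Pq v ∣ Pf f)) ≤ ind (v = 0) + 1 / (p : ℝ) ^ 2 := by
      intro v
      rw [mF_add, mF_const]
      have := BA_mF_dvd m p hm v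
      linarith
    have h3 : ∀ v : ZMod p × ZMod p × ZMod p, mQ p (fun _ => mF m p (fun f => ind (v = 0) +
        ind (v.1 ≠ 0 ∧ Pq v ∣ Pf f))) ≤ ind (v = 0) + 1 / (p : ℝ) ^ 2 := by
      intro v
      rw [mQ_const]
      exact h2 v
    refine (mQ_mono p _ _ h3).trans ?_
    rw [mQ_add, mQ_const, mQ_zero]

theorem BA_ind_ex {α : Type} [Fintype α] (P : Prop) (Q : α → Prop) (h : P → ∃ a, Q a) :
    ind P ≤ ∑ a, ind (Q a) := by
  by_cases hP : P
  · obtain ⟨a, ha⟩ := h hP
    have h1 : ind (Q a) = 1 := by unfold ind; rw [if_pos ha]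
    calc ind P ≤ 1 := ind_le_one P
      _ = ind (Q a) := h1.symm
      _ ≤ ∑ a, ind (Q a) := Finset.single_le_sum (f := fun a => ind (Q a))
          (fun a _ => ind_nonneg _) (Finset.mem_univ a)
  · have h1 : ind P = 0 := by unfold ind; rw [if_neg hP]
    rw [h1]
    exact Finset.sum_nonneg fun a _ => ind_nonneg _

theorem BA_ind_mul (P Q : Prop) : ind (P ∧ Q) = ind P * ind Q := by
  unfold ind
  by_cases hP : P <;> by_cases hQ : Q <;> simp [hP, hQ]

theorem BA_sum_pt (p : ℕ) [Fact p.Prime] :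
    ∑ P : Option (ZMod p), 1 / (p : ℝ) * (if P = none then 1 / (p : ℝ) else 1 / (p : ℝ) ^ 2) =
      2 / (p : ℝ) ^ 2 := by
  have hp0 := BA_pos p
  rw [Fintype.sum_option]
  simp only [if_true, reduceCtorEq, if_false]
  rw [Finset.sum_const, Finset.card_univ, ZMod.card, nsmul_eq_mul]
  field_simp
  norm_num

/-- Proof. `∑_P P(v.1 = 0 ∧ v(P) = 0) P(f(P) = 0) = (1/p + p/p²)/p` (`mQ_lead_root`). -/
theorem Av_lead1 (m p : ℕ) [Fact p.Prime] :
    Av m p (fun f v w => ind (v.1 = 0 ∧ E f v w 2)) ≤ 2 / (p : ℝ) ^ 2 ∧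
    Av m p (fun f v w => ind (w.1 = 0 ∧ E f v w 1)) ≤ 2 / (p : ℝ) ^ 2 ∧
    Av m p (fun f v w => ind (v.1 = 0 ∧ E f v w 0)) ≤ 2 / (p : ℝ) ^ 2 := by
  have hp0 := BA_pos p
  refine ⟨?_, ?_, ?_⟩
  · have h1 : ∀ (f : Fin (m + 1) → ZMod p) (v w : ZMod p × ZMod p × ZMod p),
        ind (v.1 = 0 ∧ E f v w 2) ≤ ∑ P : Option (ZMod p), ind (hv f (pt P).1 (pt P).2 = 0) *
          ind (v.1 = 0 ∧ qv v (pt P).1 (pt P).2 = 0) * 1 := by
      intro f v w
      refine (BA_ind_ex _ (fun P : Option (ZMod p) => hv f (pt P).1 (pt P).2 = 0 ∧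
        (v.1 = 0 ∧ qv v (pt P).1 (pt P).2 = 0)) ?_).trans (le_of_eq ?_)
      · rintro ⟨h2, h3⟩
        obtain ⟨P, hP⟩ := (E_iff f v w 2).1 h3
        exact ⟨P, hP 0 (by decide), h2, hP 1 (by decide)⟩
      · refine Finset.sum_congr rfl fun P _ => ?_
        rw [BA_ind_mul, mul_one]
    refine (Av_mono m p _ _ h1).trans ?_
    rw [Av_sum]
    refine le_of_eq ?_
    rw [← BA_sum_pt p]
    refine Finset.sum_congr rfl fun P _ => ?_
    rw [Av_prod m p (fun f => ind (hv f (pt P).1 (pt P).2 = 0))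
      (fun v => ind (v.1 = 0 ∧ qv v (pt P).1 (pt P).2 = 0)) (fun _ => 1), mQ_const, mul_one,
      mQ_lead_root, mF_root m p _ _ (pt_ne P)]
  · have h1 : ∀ (f : Fin (m + 1) → ZMod p) (v w : ZMod p × ZMod p × ZMod p),
        ind (w.1 = 0 ∧ E f v w 1) ≤ ∑ P : Option (ZMod p), ind (hv f (pt P).1 (pt P).2 = 0) *
          1 * ind (w.1 = 0 ∧ qv w (pt P).1 (pt P).2 = 0) := by
      intro f v w
      refine (BA_ind_ex _ (fun P : Option (ZMod p) => hv f (pt P).1 (pt P).2 = 0 ∧
        (w.1 = 0 ∧ qv w (pt P).1 (pt P).2 = 0)) ?_).trans (le_of_eq ?_)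
      · rintro ⟨h2, h3⟩
        obtain ⟨P, hP⟩ := (E_iff f v w 1).1 h3
        exact ⟨P, hP 0 (by decide), h2, hP 2 (by decide)⟩
      · refine Finset.sum_congr rfl fun P _ => ?_
        rw [BA_ind_mul, mul_one]
    refine (Av_mono m p _ _ h1).trans ?_
    rw [Av_sum]
    refine le_of_eq ?_
    rw [← BA_sum_pt p]
    refine Finset.sum_congr rfl fun P _ => ?_
    rw [Av_prod m p (fun f => ind (hv f (pt P).1 (pt P).2 = 0)) (fun _ => 1)
      (fun w => ind (w.1 = 0 ∧ qv w (pt P).1 (pt P).2 = 0)), mQ_const, mul_one,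
      mQ_lead_root, mF_root m p _ _ (pt_ne P)]
  · have h1 : ∀ (f : Fin (m + 1) → ZMod p) (v w : ZMod p × ZMod p × ZMod p),
        ind (v.1 = 0 ∧ E f v w 0) ≤ ∑ P : Option (ZMod p), 1 *
          ind (v.1 = 0 ∧ qv v (pt P).1 (pt P).2 = 0) * ind (qv w (pt P).1 (pt P).2 = 0) := by
      intro f v w
      refine (BA_ind_ex _ (fun P : Option (ZMod p) =>
        (v.1 = 0 ∧ qv v (pt P).1 (pt P).2 = 0) ∧ qv w (pt P).1 (pt P).2 = 0) ?_).trans
          (le_of_eq ?_)
      · rintro ⟨h2, h3⟩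
        obtain ⟨P, hP⟩ := (E_iff f v w 0).1 h3
        exact ⟨P, ⟨h2, hP 1 (by decide)⟩, hP 2 (by decide)⟩
      · refine Finset.sum_congr rfl fun P _ => ?_
        rw [BA_ind_mul, one_mul]
    refine (Av_mono m p _ _ h1).trans ?_
    rw [Av_sum]
    refine le_of_eq ?_
    rw [← BA_sum_pt p]
    refine Finset.sum_congr rfl fun P _ => ?_
    rw [Av_prod m p (fun _ => 1) (fun v => ind (v.1 = 0 ∧ qv v (pt P).1 (pt P).2 = 0))
      (fun w => ind (qv w (pt P).1 (pt P).2 = 0)), mF_const, one_mul,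
      mQ_lead_root, mQ_root p _ _ (pt_ne P), mul_comm]

end FQQ
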