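import Pool.Agent.Lib.MP_10e784_agF.LD

/-! JOB LM -/

set_option autoImplicit false

open Classical

namespace FQQ

open Finset Polynomial FGO

theorem mF_add (m q : ℕ) [NeZero q] (a b : (Fin (m + 1) → ZMod q) → ℝ) : mF m q (fun f => a f + b f) = mF m q a + mF m q b := by
  unfold mF
  rw [sum_add_distrib, add_div]

theorem mQ_add (q : ℕ) [NeZero q] (a b : ZMod q × ZMod q × ZMod q → ℝ) : mQ q (fun f => a f + b f) = mQ q a + mQ q b := by
  unfold mQ
  rw [sum_add_distrib, add_div]

theorem mF_mono (m q : ℕ) [NeZero q] (a b : (Fin (m + 1) → ZMod q) → ℝ) (h : ∀ f, a f ≤ b f) : mF m q a ≤ mF m q b := by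
  unfold mF
  exact div_le_div_of_nonneg_right (sum_le_sum fun f _ => h f) (by positivity)

theorem mQ_mono (q : ℕ) [NeZero q] (a b : ZMod q × ZMod q × ZMod q → ℝ) (h : ∀ f, a f ≤ b f) : mQ q a ≤ mQ q b := by
  unfold mQ
  exact div_le_div_of_nonneg_right (sum_le_sum fun f _ => h f) (by positivity)

/-- Proof. `Fintype.card` of the function space, `ZMod.card`. -/
theorem mF_const (m q : ℕ) [NeZero q] (c : ℝ) : mF m q (fun _ => c) = c := by
  have hq : (q : ℝ) ≠ 0 := by
    have := NeZero.ne q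
    exact_mod_cast this
  unfold mF
  rw [sum_const, card_univ, nsmul_eq_mul]
  have h1 : Fintype.card (Fin (m + 1) → ZMod q) = q ^ (m + 1) := by
    rw [Fintype.card_pi, prod_const, card_univ, Fintype.card_fin, ZMod.card]
  rw [h1]
  push_cast
  field_simp

theorem mQ_const (q : ℕ) [NeZero q] (c : ℝ) : mQ q (fun _ => c) = c := by
  have hq : (q : ℝ) ≠ 0 := by
    have := NeZero.ne q
    exact_mod_cast this
  unfold mQ
  rw [sum_const, card_univ, nsmul_eq_mul]
  have h1 : Fintype.card (ZMod q × ZMod q × ZMod q) = q ^ 3 := by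
    rw [Fintype.card_prod, Fintype.card_prod, ZMod.card]
    ring
  rw [h1]
  push_cast
  field_simp

theorem mF_smul (m q : ℕ) [NeZero q] (c : ℝ) (a : (Fin (m + 1) → ZMod q) → ℝ) : mF m q (fun f => c * a f) = c * mF m q a := by
  unfold mF
  rw [← mul_sum, mul_div_assoc]

theorem mQ_smul (q : ℕ) [NeZero q] (c : ℝ) (a : ZMod q × ZMod q × ZMod q → ℝ) : mQ q (fun f => c * a f) = c * mQ q a := by
  unfold mQ
  rw [← mul_sum, mul_div_assoc]

theorem mF_sum {ι : Type} (m q : ℕ) [NeZero q] (s : Finset ι) (a : ι → (Fin (m + 1) → ZMod q) → ℝ) :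
    mF m q (fun f => ∑ i ∈ s, a i f) = ∑ i ∈ s, mF m q (a i) := by
  unfold mF
  rw [sum_comm, sum_div]

theorem mQ_sum {ι : Type} (q : ℕ) [NeZero q] (s : Finset ι) (a : ι → ZMod q × ZMod q × ZMod q → ℝ) :
    mQ q (fun f => ∑ i ∈ s, a i f) = ∑ i ∈ s, mQ q (a i) := by
  unfold mQ
  rw [sum_comm, sum_div]

theorem Av_mono (m q : ℕ) [NeZero q]
    (a b : (Fin (m + 1) → ZMod q) → ZMod q × ZMod q × ZMod q → ZMod q × ZMod q × ZMod q → ℝ)
    (h : ∀ f v w, a f v w ≤ b f v w) : Av m q a ≤ Av m q b := by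
  unfold Av
  exact mQ_mono q _ _ fun v => mQ_mono q _ _ fun w => mF_mono m q _ _ fun f => h f v w

theorem Av_add (m q : ℕ) [NeZero q]
    (a b : (Fin (m + 1) → ZMod q) → ZMod q × ZMod q × ZMod q → ZMod q × ZMod q × ZMod q → ℝ) :
    Av m q (fun f v w => a f v w + b f v w) = Av m q a + Av m q b := by
  unfold Av
  have h1 : ∀ v w, mF m q (fun f => a f v w + b f v w) = mF m q (fun f => a f v w) + mF m q (fun f => b f v w) :=
    fun v w => mF_add m q _ _
  simp only [h1, mQ_add]

theorem Av_smul (m q : ℕ) [NeZero q] (c : ℝ)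
    (a : (Fin (m + 1) → ZMod q) → ZMod q × ZMod q × ZMod q → ZMod q × ZMod q × ZMod q → ℝ) :
    Av m q (fun f v w => c * a f v w) = c * Av m q a := by
  unfold Av
  have h1 : ∀ v w, mF m q (fun f => c * a f v w) = c * mF m q (fun f => a f v w) := fun v w => mF_smul m q _ _
  simp only [h1, mQ_smul]

theorem Av_const (m q : ℕ) [NeZero q] (c : ℝ) : Av m q (fun _ _ _ => c) = c := by
  unfold Av
  simp only [mF_const, mQ_const]

theorem Av_sum {ι : Type} (m q : ℕ) [NeZero q] (s : Finset ι)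
    (a : ι → (Fin (m + 1) → ZMod q) → ZMod q × ZMod q × ZMod q → ZMod q × ZMod q × ZMod q → ℝ) :
    Av m q (fun f v w => ∑ i ∈ s, a i f v w) = ∑ i ∈ s, Av m q (a i) := by
  unfold Av
  have h1 : ∀ v w, mF m q (fun f => ∑ i ∈ s, a i f v w) = ∑ i ∈ s, mF m q (fun f => a i f v w) :=
    fun v w => mF_sum m q s fun i f => a i f v w
  have h2 : ∀ v, mQ q (fun w => ∑ i ∈ s, mF m q (fun f => a i f v w)) = ∑ i ∈ s, mQ q (fun w => mF m q (fun f => a i f v w)) :=
    fun v => mQ_sum q s fun i w => mF m q (fun f => a i f v w)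
  simp only [h1, h2]
  exact mQ_sum q s fun i v => mQ q (fun w => mF m q (fun f => a i f v w))

/-- independence -/
theorem Av_prod (m q : ℕ) [NeZero q] (a : (Fin (m + 1) → ZMod q) → ℝ) (b c : ZMod q × ZMod q × ZMod q → ℝ) :
    Av m q (fun f v w => a f * b v * c w) = mF m q a * mQ q b * mQ q c := by
  unfold Av
  have h1 : ∀ v w, mF m q (fun f => a f * b v * c w) = mF m q a * b v * c w := by
    intro v w
    have e : (fun f => a f * b v * c w) = fun f => (b v * c w) * a f := funext fun f => by ring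
    rw [e, mF_smul]
    ring
  have h2 : ∀ v, mQ q (fun w => mF m q a * b v * c w) = mF m q a * b v * mQ q c := fun v => mQ_smul q _ _
  have h3 : mQ q (fun v => mF m q a * b v * mQ q c) = mF m q a * mQ q b * mQ q c := by
    have e : (fun v => mF m q a * b v * mQ q c) = fun v => (mF m q a * mQ q c) * b v := funext fun v => by ring
    rw [e, mQ_smul]
    ring
  simp only [h1, h2]
  exact h3

/-- the order of the summations does not matter: swap `v` and `w` -/
theorem Av_swap (m q : ℕ) [NeZero q]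
    (a : (Fin (m + 1) → ZMod q) → ZMod q × ZMod q × ZMod q → ZMod q × ZMod q × ZMod q → ℝ) :
    Av m q (fun f v w => a f w v) = Av m q a := by
  unfold Av mQ
  simp only [← sum_div]
  rw [sum_comm]

end FQQ
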