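import Pool.Agent.Lib.MP_10e784_agF.D2
import Pool.Agent.Lib.MP_10e784_agF.LM
import Pool.Agent.Lib.MP_10e784_agF.LT
import Pool.Agent.Lib.MP_10e784_agF.RD

/-! JOB BB -/

set_option autoImplicit false

open Classical

namespace FQQ

open Finset Polynomial FGO

private theorem bb_nonunit (p : ℕ) [Fact p.Prime] [NeZero (p ^ 2)] :
    (univ.filter (fun a : ZMod (p ^ 2) => ¬ IsUnit a)).card ≤ p := by
  have hp : p.Prime := Fact.out
  have h1 : ∀ a : ZMod (p ^ 2), ¬ IsUnit a → p ∣ a.val := by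
    intro a ha
    by_contra hpa
    apply ha
    have h2 : IsUnit ((a.val : ℕ) : ZMod (p ^ 2)) := by
      rw [ZMod.isUnit_iff_coprime]
      exact Nat.Coprime.pow_right 2 ((Nat.Prime.coprime_iff_not_dvd hp).2 hpa).symm
    rwa [ZMod.natCast_zmod_val] at h2
  refine le_of_le_of_eq ?_ (Finset.card_range p)
  refine Finset.card_le_card_of_injOn (fun a => a.val / p) ?_ ?_
  · intro a ha
    rw [Finset.mem_coe, Finset.mem_range, Nat.div_lt_iff_lt_mul hp.pos, ← sq]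
    exact ZMod.val_lt a
  · intro a ha b hb hab
    have ha1 := h1 a (Finset.mem_filter.1 (Finset.mem_coe.1 ha)).2
    have hb1 := h1 b (Finset.mem_filter.1 (Finset.mem_coe.1 hb)).2
    have h3 : a.val / p = b.val / p := hab
    have h4 : a.val = b.val := by
      rw [← Nat.div_mul_cancel ha1, ← Nat.div_mul_cancel hb1, h3]
    exact ZMod.val_injective _ h4

private theorem bb_four (p : ℕ) [Fact p.Prime] (h2 : p ≠ 2) {a : ZMod (p ^ 2)} (ha : IsUnit a) : IsUnit (4 * a) := by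
  have hp : p.Prime := Fact.out
  have h4 : IsUnit ((4 : ℕ) : ZMod (p ^ 2)) := by
    rw [ZMod.isUnit_iff_coprime]
    refine Nat.Coprime.pow_right 2 ?_
    have h3 : Nat.Coprime 2 p := (Nat.coprime_primes Nat.prime_two hp).2 h2.symm
    exact Nat.Coprime.pow_left 2 h3
  have h5 : ((4 : ℕ) : ZMod (p ^ 2)) = 4 := by norm_num
  rw [h5] at h4
  exact h4.mul ha

private theorem bb_ind_one {ι : Type} [Fintype ι] (P : ι → Prop) (h : ∀ x y, P x → P y → x = y) : ∑ x, ind (P x) ≤ 1 := by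
  have h1 : ∑ x, ind (P x) = ((univ.filter P).card : ℝ) := by
    rw [Finset.card_filter]
    push_cast
    exact Finset.sum_congr rfl fun x _ => rfl
  rw [h1]
  have h2 : (univ.filter P).card ≤ 1 := by
    rw [Finset.card_le_one]
    intro x hx y hy
    exact h x y (Finset.mem_filter.1 hx).2 (Finset.mem_filter.1 hy).2
  exact_mod_cast h2

/-- Proof. Modulo `p²`: `p ∤ v.1`: `v.2.2` is determined modulo `p²` by the others (`4 v.1` is a unit): probability `≤ 1/p²`. `p ∣ v.1`: then `p ∣ v.2.1`: probability `1/p²`. -/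
theorem mQ_ds_sq (p : ℕ) [Fact p.Prime] [NeZero (p ^ 2)] (h2 : p ≠ 2) :
    mQ (p ^ 2) (fun v => ind (ds v = 0)) ≤ 2 / (p : ℝ) ^ 2 := by
  have hp : p.Prime := Fact.out
  have hp0 : (0 : ℝ) < p := by exact_mod_cast hp.pos
  have hq : (Fintype.card (ZMod (p ^ 2)) : ℝ) = (p : ℝ) ^ 2 := by
    rw [ZMod.card]
    push_cast
    ring
  have hsum : ∑ v : ZMod (p ^ 2) × ZMod (p ^ 2) × ZMod (p ^ 2), ind (ds v = 0) ≤ 2 * (p : ℝ) ^ 4 := by
    rw [Fintype.sum_prod_type]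
    have h3 : ∀ a : ZMod (p ^ 2), ∑ y : ZMod (p ^ 2) × ZMod (p ^ 2), ind (ds (a, y) = 0) ≤
        (p : ℝ) ^ 2 + (if ¬ IsUnit a then (p : ℝ) ^ 3 else 0) := by
      intro a
      rw [Fintype.sum_prod_type]
      by_cases ha : IsUnit a
      · rw [if_neg (not_not.2 ha), add_zero]
        have h4 : ∀ b : ZMod (p ^ 2), ∑ c : ZMod (p ^ 2), ind (ds (a, b, c) = 0) ≤ 1 := by
          intro b
          refine bb_ind_one _ fun c c' hc hc' => ?_
          have h5 : b ^ 2 - 4 * a * c = 0 := hc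
          have h6 : b ^ 2 - 4 * a * c' = 0 := hc'
          have h7 : 4 * a * c = 4 * a * c' := by
            linear_combination h6 - h5
          exact (bb_four p h2 ha).mul_left_cancel h7
        refine (Finset.sum_le_sum fun b _ => h4 b).trans ?_
        rw [Finset.sum_const, Finset.card_univ, nsmul_eq_mul, mul_one, hq]
      · rw [if_pos ha]
        have h4 : ∀ b : ZMod (p ^ 2), ∑ c : ZMod (p ^ 2), ind (ds (a, b, c) = 0) ≤ if ¬ IsUnit b then (p : ℝ) ^ 2 else 0 := by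
          intro b
          by_cases hb : IsUnit b
          · rw [if_neg (not_not.2 hb)]
            refine le_of_eq (Finset.sum_eq_zero fun c _ => ?_)
            unfold ind
            rw [if_neg]
            intro h5
            have h6 : b ^ 2 - 4 * a * c = 0 := h5
            have h7 : b ^ 2 = a * (4 * c) := by
              linear_combination h6
            have h8 : IsUnit (a * (4 * c)) := by
              rw [← h7]
              exact hb.pow 2
            exact ha (isUnit_of_mul_isUnit_left h8)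
          · rw [if_pos hb]
            refine (Finset.sum_le_sum fun c _ => ind_le_one _).trans ?_
            rw [Finset.sum_const, Finset.card_univ, nsmul_eq_mul, mul_one, hq]
        refine (Finset.sum_le_sum fun b _ => h4 b).trans ?_
        rw [← Finset.sum_filter, Finset.sum_const, nsmul_eq_mul]
        have h5 : ((univ.filter (fun b : ZMod (p ^ 2) => ¬ IsUnit b)).card : ℝ) ≤ p := by exact_mod_cast bb_nonunit p
        have h6 : ((univ.filter (fun b : ZMod (p ^ 2) => ¬ IsUnit b)).card : ℝ) * (p : ℝ) ^ 2 ≤ p * (p : ℝ) ^ 2 :=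
          mul_le_mul_of_nonneg_right h5 (by positivity)
        have h7 : 0 ≤ (p : ℝ) ^ 2 := by positivity
        calc _ ≤ (p : ℝ) * (p : ℝ) ^ 2 := h6
          _ = (p : ℝ) ^ 3 := by ring
          _ ≤ (p : ℝ) ^ 2 + (p : ℝ) ^ 3 := by linarith
    refine (Finset.sum_le_sum fun a _ => h3 a).trans ?_
    rw [Finset.sum_add_distrib, ← Finset.sum_filter, Finset.sum_const, Finset.sum_const, Finset.card_univ, nsmul_eq_mul,
      nsmul_eq_mul, hq]
    have h5 : ((univ.filter (fun b : ZMod (p ^ 2) => ¬ IsUnit b)).card : ℝ) ≤ p := by exact_mod_cast bb_nonunit p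
    have h6 : ((univ.filter (fun b : ZMod (p ^ 2) => ¬ IsUnit b)).card : ℝ) * (p : ℝ) ^ 3 ≤ p * (p : ℝ) ^ 3 :=
      mul_le_mul_of_nonneg_right h5 (by positivity)
    calc _ ≤ (p : ℝ) ^ 2 * (p : ℝ) ^ 2 + (p : ℝ) * (p : ℝ) ^ 3 := by linarith
      _ = 2 * (p : ℝ) ^ 4 := by ring
  unfold mQ
  rw [div_le_div_iff₀ (by push_cast; positivity) (by positivity)]
  push_cast
  calc _ ≤ 2 * (p : ℝ) ^ 4 * (p : ℝ) ^ 2 := mul_le_mul_of_nonneg_right hsum (by positivity)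
    _ = 2 * ((p : ℝ) ^ 2) ^ 3 := by ring

/-- (Hensel, one step) Proof. `r' = r - v(r) u` with `u` an inverse of `v'(r) = 2 a r + b` modulo `p²`; `4 a v(r) = v'(r)² - ds v`, so `p ∤ v'(r)`. `v(r') = v(r) - v'(r) v(r) u + a v(r)² u² ≡ 0 mod p²`. With `s = -b/a - r'`
(inverse of `a` modulo `p²`): `v ≡ (a, -(a (r' + s)), a r' s)`. `r' ≢ s mod p` because `ds v ≡ a² (r' - s)²`. -/
theorem hensel_split (p : ℕ) [Fact p.Prime] (h2 : p ≠ 2) (v : V) (ha : ¬ (p : ℤ) ∣ v.1) (hd : ¬ (p : ℤ) ∣ ds v) (r : ℤ)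
    (hr : (p : ℤ) ∣ ev v r) :
    ∃ r' s : ℤ, ¬ (p : ℤ) ∣ r' - s ∧ (p : ℤ) ^ 2 ∣ v.2.1 + v.1 * (r' + s) ∧ (p : ℤ) ^ 2 ∣ v.2.2 - v.1 * r' * s := by
  have hp : p.Prime := Fact.out
  have hpi : Prime (p : ℤ) := Nat.prime_iff_prime_int.1 hp
  obtain ⟨a, b, c⟩ := v
  have hds : ds ((a, b, c) : ℤ × ℤ × ℤ) = b ^ 2 - 4 * a * c := rfl
  have hev : ev (a, b, c) r = a * r ^ 2 + b * r + c := rfl
  rw [hds] at hd
  rw [hev] at hr
  change ¬ (p : ℤ) ∣ a at ha
  have hcop : ∀ x : ℤ, ¬ (p : ℤ) ∣ x → ∃ u : ℤ, (p : ℤ) ^ 2 ∣ 1 - x * u := by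
    intro x hx
    have h1 : IsCoprime x ((p : ℤ) ^ 2) := IsCoprime.pow_right ((hpi.coprime_iff_not_dvd.2 hx).symm)
    obtain ⟨y, z, hyz⟩ := h1
    exact ⟨y, z, by linear_combination -hyz⟩
  have hD : ¬ (p : ℤ) ∣ 2 * a * r + b := by
    intro h
    apply hd
    have h1 : b ^ 2 - 4 * a * c = (2 * a * r + b) * (2 * a * r + b) - 4 * a * (a * r ^ 2 + b * r + c) := by ring
    rw [h1]
    exact dvd_sub (Dvd.dvd.mul_right h _) (Dvd.dvd.mul_left hr _)
  obtain ⟨u, hu⟩ := hcop _ hD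
  obtain ⟨w, hw⟩ := hcop _ ha
  obtain ⟨k, hk⟩ := hr
  obtain ⟨l, hl⟩ := hu
  obtain ⟨n, hn⟩ := hw
  obtain ⟨r', hr'⟩ : ∃ r' : ℤ, r' = r - (a * r ^ 2 + b * r + c) * u := ⟨_, rfl⟩
  have hv' : (p : ℤ) ^ 2 ∣ a * r' ^ 2 + b * r' + c := by
    refine ⟨(p : ℤ) * k * l + a * k ^ 2 * u ^ 2, ?_⟩
    have h1 : a * r' ^ 2 + b * r' + c = (a * r ^ 2 + b * r + c) * (1 - (2 * a * r + b) * u) +
        a * (a * r ^ 2 + b * r + c) ^ 2 * u ^ 2 := by
      rw [hr']
      ring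
    rw [h1, hk, hl]
    ring
  refine ⟨r', -(b * w) - r', ?_, ?_, ?_⟩
  · intro h
    apply hd
    obtain ⟨j, hj⟩ := h
    obtain ⟨i, hi⟩ := hv'
    have h1 : b ^ 2 - 4 * a * c = a ^ 2 * (r' - (-(b * w) - r')) ^ 2 - 4 * a * (a * r' ^ 2 + b * r' + c) +
        (1 - a * w) * (b ^ 2 * (1 + a * w) + 4 * a * b * r') := by ring
    rw [h1, hj, hi, hn]
    exact ⟨a ^ 2 * p * j ^ 2 - 4 * a * (p * i) + p * n * (b ^ 2 * (1 + a * w) + 4 * a * b * r'), by ring⟩
  · refine ⟨b * n, ?_⟩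
    have h1 : b + a * (r' + (-(b * w) - r')) = b * (1 - a * w) := by ring
    change b + a * (r' + (-(b * w) - r')) = _
    rw [h1, hn]
    ring
  · obtain ⟨i, hi⟩ := hv'
    refine ⟨i - b * r' * n, ?_⟩
    have h1 : c - a * r' * (-(b * w) - r') = (a * r' ^ 2 + b * r' + c) - b * r' * (1 - a * w) := by ring
    change c - a * r' * (-(b * w) - r') = _
    rw [h1, hi, hn]
    ring

/-- counting with the first two coordinates determined modulo `p` -/
private theorem bb_cntA {m : ℕ} (hm : 1 ≤ m) (p : ℕ) (hp : p.Prime) (Φ : Vn m → Prop)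
    (h : ∀ f g : Vn m, Φ f → Φ g → (∀ i : Fin (m + 1), 2 ≤ (i : ℕ) → f i = g i) →
      ∀ i : Fin (m + 1), (i : ℕ) < 2 → (p : ℤ) ∣ f i - g i) :
    ExN m (p ^ 2) (fun f => ind (Φ f)) ≤ 1 / (p : ℝ) ^ 2 := by
  have hp0 : (0 : ℝ) < p := by exact_mod_cast hp.pos
  have hpz : (0 : ℤ) < p := by exact_mod_cast hp.pos
  have h1 : ((cubeN m (p ^ 2)).filter Φ).card ≤ (Fintype.piFinset fun i : Fin (m + 1) =>
      if (i : ℕ) < 2 then Ico (0 : ℤ) (p : ℤ) else Ico (0 : ℤ) ((p ^ 2 : ℕ) : ℤ)).card := by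
    refine Finset.card_le_card_of_injOn (fun f i => if (i : ℕ) < 2 then f i / (p : ℤ) else f i) ?_ ?_
    · intro f hf
      have hf1 := (Finset.mem_filter.1 (Finset.mem_coe.1 hf)).1
      rw [cubeN, Fintype.mem_piFinset] at hf1
      rw [Finset.mem_coe, Fintype.mem_piFinset]
      intro i
      have hfi := Finset.mem_Ico.1 (hf1 i)
      change (if (i : ℕ) < 2 then f i / (p : ℤ) else f i) ∈ (if (i : ℕ) < 2 then Ico (0 : ℤ) (p : ℤ) else Ico (0 : ℤ) ((p ^ 2 : ℕ) : ℤ))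
      by_cases hi : (i : ℕ) < 2
      · rw [if_pos hi, if_pos hi, Finset.mem_Ico]
        refine ⟨Int.ediv_nonneg hfi.1 hpz.le, ?_⟩
        rw [Int.ediv_lt_iff_lt_mul hpz]
        have h3 := hfi.2
        push_cast at h3
        nlinarith
      · rw [if_neg hi, if_neg hi, Finset.mem_Ico]
        exact hfi
    · intro f hf g hg hfg
      obtain ⟨hf1, hf2⟩ := Finset.mem_filter.1 (Finset.mem_coe.1 hf)
      obtain ⟨hg1, hg2⟩ := Finset.mem_filter.1 (Finset.mem_coe.1 hg)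
      have h3 : ∀ i : Fin (m + 1), (if (i : ℕ) < 2 then f i / (p : ℤ) else f i) = if (i : ℕ) < 2 then g i / (p : ℤ) else g i :=
        fun i => congrFun hfg i
      have h4 : ∀ i : Fin (m + 1), 2 ≤ (i : ℕ) → f i = g i := by
        intro i hi
        have h5 := h3 i
        rwa [if_neg (by omega), if_neg (by omega)] at h5
      funext i
      by_cases hi : (i : ℕ) < 2
      · have h5 := h3 i
        rw [if_pos hi, if_pos hi] at h5
        have h6 := h f g hf2 hg2 h4 i hi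
        have h7 : f i % (p : ℤ) = g i % (p : ℤ) := Int.ModEq.symm ((Int.modEq_iff_dvd).2 h6)
        have h8 := Int.mul_ediv_add_emod (f i) (p : ℤ)
        have h9 := Int.mul_ediv_add_emod (g i) (p : ℤ)
        rw [← h8, ← h9, h5, h7]
      · exact h4 i (by omega)
  have h2 : (Fintype.piFinset fun i : Fin (m + 1) =>
      if (i : ℕ) < 2 then Ico (0 : ℤ) (p : ℤ) else Ico (0 : ℤ) ((p ^ 2 : ℕ) : ℤ)).card = p ^ (2 * m) := by
    rw [Fintype.card_piFinset]
    obtain ⟨k, rfl⟩ : ∃ k, m = k + 1 := ⟨m - 1, by omega⟩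
    rw [Fin.prod_univ_succ, Fin.prod_univ_succ]
    have h3 : ∀ i : Fin k, (if ((i.succ.succ : Fin (k + 1 + 1)) : ℕ) < 2 then Ico (0 : ℤ) (p : ℤ) else Ico (0 : ℤ) ((p ^ 2 : ℕ) : ℤ)).card = p ^ 2 := by
      intro i
      rw [if_neg (by rw [Fin.val_succ, Fin.val_succ]; omega), Int.card_Ico, sub_zero, Int.toNat_natCast]
    rw [Finset.prod_congr rfl fun i _ => h3 i, Finset.prod_const, Finset.card_univ, Fintype.card_fin]
    simp only [Fin.val_zero, Fin.val_succ, Int.card_Ico]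
    norm_num
    ring
  have h3 : ∑ f ∈ cubeN m (p ^ 2), ind (Φ f) = (((cubeN m (p ^ 2)).filter Φ).card : ℝ) := by
    rw [Finset.card_filter]
    push_cast
    exact Finset.sum_congr rfl fun x _ => rfl
  unfold ExN
  rw [h3, div_le_div_iff₀ (by push_cast; positivity) (by positivity)]
  have h4 : (((cubeN m (p ^ 2)).filter Φ).card : ℝ) ≤ (p : ℝ) ^ (2 * m) := by
    rw [h2] at h1
    exact_mod_cast h1
  push_cast
  calc _ ≤ (p : ℝ) ^ (2 * m) * (p : ℝ) ^ 2 := mul_le_mul_of_nonneg_right h4 (by positivity)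
    _ = 1 * ((p : ℝ) ^ 2) ^ (m + 1) := by ring

/-- counting with the first coordinate determined modulo `p²` -/
private theorem bb_cntB {m : ℕ} (p : ℕ) (hp : p.Prime) (Φ : Vn m → Prop)
    (h : ∀ f g : Vn m, Φ f → Φ g → (∀ i : Fin (m + 1), 1 ≤ (i : ℕ) → f i = g i) → ((p : ℤ) ^ 2 ∣ f 0 - g 0)) :
    ExN m (p ^ 2) (fun f => ind (Φ f)) ≤ 1 / (p : ℝ) ^ 2 := by
  have hp0 : (0 : ℝ) < p := by exact_mod_cast hp.pos
  have hpz : (0 : ℤ) < p := by exact_mod_cast hp.pos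
  have h1 : ((cubeN m (p ^ 2)).filter Φ).card ≤ (Fintype.piFinset fun i : Fin (m + 1) =>
      if (i : ℕ) < 1 then {(0 : ℤ)} else Ico (0 : ℤ) ((p ^ 2 : ℕ) : ℤ)).card := by
    refine Finset.card_le_card_of_injOn (fun f i => if (i : ℕ) < 1 then 0 else f i) ?_ ?_
    · intro f hf
      have hf1 := (Finset.mem_filter.1 (Finset.mem_coe.1 hf)).1
      rw [cubeN, Fintype.mem_piFinset] at hf1
      rw [Finset.mem_coe, Fintype.mem_piFinset]
      intro i
      change (if (i : ℕ) < 1 then 0 else f i) ∈ (if (i : ℕ) < 1 then {(0 : ℤ)} else Ico (0 : ℤ) ((p ^ 2 : ℕ) : ℤ))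
      by_cases hi : (i : ℕ) < 1
      · rw [if_pos hi, if_pos hi, Finset.mem_singleton]
      · rw [if_neg hi, if_neg hi]
        exact hf1 i
    · intro f hf g hg hfg
      obtain ⟨hf1, hf2⟩ := Finset.mem_filter.1 (Finset.mem_coe.1 hf)
      obtain ⟨hg1, hg2⟩ := Finset.mem_filter.1 (Finset.mem_coe.1 hg)
      rw [cubeN, Fintype.mem_piFinset] at hf1 hg1
      have h3 : ∀ i : Fin (m + 1), (if (i : ℕ) < 1 then 0 else f i) = if (i : ℕ) < 1 then 0 else g i :=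
        fun i => congrFun hfg i
      have h4 : ∀ i : Fin (m + 1), 1 ≤ (i : ℕ) → f i = g i := by
        intro i hi
        have h5 := h3 i
        rwa [if_neg (by omega), if_neg (by omega)] at h5
      have h0 : f 0 = g 0 := by
        have h6 := h f g hf2 hg2 h4
        have h7 := Finset.mem_Ico.1 (hf1 0)
        have h8 := Finset.mem_Ico.1 (hg1 0)
        push_cast at h7 h8
        have h9 : |f 0 - g 0| < (p : ℤ) ^ 2 := by
          rw [abs_lt]
          constructor <;> linarith [h7.1, h7.2, h8.1, h8.2]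
        have h10 := Int.eq_zero_of_abs_lt_dvd h6 h9
        linarith
      funext i
      by_cases hi : (i : ℕ) < 1
      · have h5 : i = 0 := by
          ext
          rw [Fin.val_zero]
          omega
        rw [h5, h0]
      · exact h4 i (by omega)
  have h2 : (Fintype.piFinset fun i : Fin (m + 1) =>
      if (i : ℕ) < 1 then {(0 : ℤ)} else Ico (0 : ℤ) ((p ^ 2 : ℕ) : ℤ)).card = p ^ (2 * m) := by
    rw [Fintype.card_piFinset, Fin.prod_univ_succ]
    have h3 : ∀ i : Fin m, (if ((i.succ : Fin (m + 1)) : ℕ) < 1 then {(0 : ℤ)} else Ico (0 : ℤ) ((p ^ 2 : ℕ) : ℤ)).card = p ^ 2 := by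
      intro i
      rw [if_neg (by rw [Fin.val_succ]; omega), Int.card_Ico, sub_zero, Int.toNat_natCast]
    rw [Finset.prod_congr rfl fun i _ => h3 i, Finset.prod_const, Finset.card_univ, Fintype.card_fin, if_pos (by rw [Fin.val_zero]; omega),
      Finset.card_singleton, one_mul, ← pow_mul]
  have h3 : ∑ f ∈ cubeN m (p ^ 2), ind (Φ f) = (((cubeN m (p ^ 2)).filter Φ).card : ℝ) := by
    rw [Finset.card_filter]
    push_cast
    exact Finset.sum_congr rfl fun x _ => rfl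
  unfold ExN
  rw [h3, div_le_div_iff₀ (by push_cast; positivity) (by positivity)]
  have h4 : (((cubeN m (p ^ 2)).filter Φ).card : ℝ) ≤ (p : ℝ) ^ (2 * m) := by
    rw [h2] at h1
    exact_mod_cast h1
  push_cast
  calc _ ≤ (p : ℝ) ^ (2 * m) * (p : ℝ) ^ 2 := mul_le_mul_of_nonneg_right h4 (by positivity)
    _ = 1 * ((p : ℝ) ^ 2) ^ (m + 1) := by ring

/-- a product divisible by `p²` -/
private theorem bb_mul {p : ℤ} (hp : Prime p) {x y : ℤ} (h : p ^ 2 ∣ x * y) : p ^ 2 ∣ x ∨ p ^ 2 ∣ y ∨ (p ∣ x ∧ p ∣ y) := by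
  by_cases hx : p ∣ x
  · by_cases hy : p ∣ y
    · exact Or.inr (Or.inr ⟨hx, hy⟩)
    · exact Or.inl ((IsCoprime.pow_left (hp.coprime_iff_not_dvd.2 hy)).dvd_of_dvd_mul_right h)
  · exact Or.inr (Or.inl ((IsCoprime.pow_left (hp.coprime_iff_not_dvd.2 hx)).dvd_of_dvd_mul_left h))

private theorem bb_Ex_mono {m q : ℕ} (hq : 0 < q) (a b : Vn m → ℝ) (h : ∀ f, a f ≤ b f) : ExN m q a ≤ ExN m q b := by
  unfold ExN
  exact div_le_div_of_nonneg_right (Finset.sum_le_sum fun f _ => h f) (by positivity)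

private theorem bb_Ex_add {m q : ℕ} (a b : Vn m → ℝ) : ExN m q (fun f => a f + b f) = ExN m q a + ExN m q b := by
  unfold ExN
  rw [Finset.sum_add_distrib, add_div]

/-- values of two forms which agree in the coordinates `≥ 2` -/
private theorem bb_evn_two {m : ℕ} (hm : 1 ≤ m) (f g : Vn m) (h : ∀ i : Fin (m + 1), 2 ≤ (i : ℕ) → f i = g i) (r : ℤ) :
    evn f r - evn g r = (f 0 - g 0) + (f ⟨1, by omega⟩ - g ⟨1, by omega⟩) * r := by
  unfold evn
  rw [← Finset.sum_sub_distrib]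
  obtain ⟨k, rfl⟩ : ∃ k, m = k + 1 := ⟨m - 1, by omega⟩
  rw [Fin.sum_univ_succ, Fin.sum_univ_succ]
  have h1 : ∀ i : Fin k, f i.succ.succ * r ^ ((i.succ.succ : Fin (k + 1 + 1)) : ℕ) -
      g i.succ.succ * r ^ ((i.succ.succ : Fin (k + 1 + 1)) : ℕ) = 0 := by
    intro i
    rw [h i.succ.succ (by rw [Fin.val_succ, Fin.val_succ]; omega), sub_self]
  rw [Finset.sum_eq_zero fun i _ => h1 i]
  have h2 : (⟨1, by omega⟩ : Fin (k + 1 + 1)) = Fin.succ 0 := by
    ext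
    simp
  rw [h2, Fin.val_zero, Fin.val_succ, Fin.val_zero]
  ring

private theorem bb_evn_one {m : ℕ} (f g : Vn m) (h : ∀ i : Fin (m + 1), 1 ≤ (i : ℕ) → f i = g i) (r : ℤ) :
    evn f r - evn g r = f 0 - g 0 := by
  unfold evn
  rw [← Finset.sum_sub_distrib, Fin.sum_univ_succ]
  have h1 : ∀ i : Fin m, f i.succ * r ^ ((i.succ : Fin (m + 1)) : ℕ) - g i.succ * r ^ ((i.succ : Fin (m + 1)) : ℕ) = 0 := by
    intro i
    rw [h i.succ (by rw [Fin.val_succ]; omega), sub_self]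
  rw [Finset.sum_eq_zero fun i _ => h1 i, Fin.val_zero]
  ring

/-- no root modulo `p` -/
private theorem bb_noroot (p : ℕ) [Fact p.Prime] (v : V) (ha : ¬ (p : ℤ) ∣ v.1) (hn : ∀ r : ℤ, ¬ (p : ℤ) ∣ ev v r)
    {x z : ZMod p} (hxz : ¬ (x = 0 ∧ z = 0)) (h : qv (cV p v) x z = 0) : False := by
  have ha' : (v.1 : ZMod p) ≠ 0 := by
    intro h1
    exact ha ((ZMod.intCast_zmod_eq_zero_iff_dvd _ _).1 h1)
  by_cases hz : z = 0
  · subst hz
    have h1 : (v.1 : ZMod p) * x ^ 2 = 0 := by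
      have h2 : (v.1 : ZMod p) * x ^ 2 + (v.2.1 : ZMod p) * x * 0 + (v.2.2 : ZMod p) * 0 ^ 2 = 0 := h
      linear_combination h2
    rcases mul_eq_zero.1 h1 with h2 | h2
    · exact ha' h2
    · exact hxz ⟨pow_eq_zero_iff (two_ne_zero) |>.1 h2, rfl⟩
  · have h1 : (v.1 : ZMod p) * (x / z) ^ 2 + (v.2.1 : ZMod p) * (x / z) + (v.2.2 : ZMod p) = 0 := by
      have h2 : (v.1 : ZMod p) * x ^ 2 + (v.2.1 : ZMod p) * x * z + (v.2.2 : ZMod p) * z ^ 2 = 0 := h
      have h3 : (v.1 : ZMod p) * (x / z) ^ 2 + (v.2.1 : ZMod p) * (x / z) + (v.2.2 : ZMod p) =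
          ((v.1 : ZMod p) * x ^ 2 + (v.2.1 : ZMod p) * x * z + (v.2.2 : ZMod p) * z ^ 2) / z ^ 2 := by
        field_simp
      rw [h3, h2, zero_div]
    obtain ⟨r, hr⟩ := ZMod.intCast_surjective (x / z)
    apply hn r
    rw [← ZMod.intCast_zmod_eq_zero_iff_dvd]
    have h4 : ((ev v r : ℤ) : ZMod p) = (v.1 : ZMod p) * (r : ZMod p) ^ 2 + (v.2.1 : ZMod p) * (r : ZMod p) + (v.2.2 : ZMod p) := by
      unfold ev
      push_cast
      ring
    rw [h4, hr]
    exact h1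

/-- Proof. Case 1: `v` has no root modulo `p`. If `p² ∣ Rs f v` then `p ∣ Rs f v` and `Rs_zero` over `ZMod p` (`Rs_cast`) gives `Pq ∣ Pf` modulo `p` (a common zero `(x, z)` has `z ≠ 0` as `p ∤ v.1`): probability `≤ 1/p²`
(`mF_dvd` and `ExN_dvd`, or count modulo `p²` directly: `f 0`, `f 1` modulo `p` are determined).
Case 2: `v(r) ≡ 0 mod p`: `hensel_split` and `Rs_split` over `ZMod (p²)`: `Rs f v ≡ a^m f(r') f(s) mod p²`. So `p² ∣ f(r')` or `p² ∣ f(s)` (each `1/p²`: `f 0` is determined modulo `p²`), or `p ∣ f(r')` and `p ∣ f(s)`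
(`1/p²`: `f 0`, `f 1` are determined modulo `p` as `r' ≢ s`). -/
theorem Rs_sq_mean {m : ℕ} (hm : 1 ≤ m) (p : ℕ) [Fact p.Prime] (h2 : p ≠ 2) (v : V) (ha : ¬ (p : ℤ) ∣ v.1)
    (hd : ¬ (p : ℤ) ∣ ds v) : ExN m (p ^ 2) (fun f => ind ((p : ℤ) ^ 2 ∣ Rs f v)) ≤ 3 / (p : ℝ) ^ 2 := by
  have hp : p.Prime := Fact.out
  have hpi : Prime (p : ℤ) := Nat.prime_iff_prime_int.1 hp
  have hp0 : (0 : ℝ) < p := by exact_mod_cast hp.pos
  by_cases hn : ∀ r : ℤ, ¬ (p : ℤ) ∣ ev v r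
  · -- no root
    have h1 : ExN m (p ^ 2) (fun f => ind ((p : ℤ) ^ 2 ∣ Rs f v)) ≤ ExN m (p ^ 2) (fun f => ind (Pq (cV p v) ∣ Pf (cN p f))) := by
      refine bb_Ex_mono (pow_pos hp.pos 2) _ _ fun f => ind_mono fun h => ?_
      have h3 : Rs (cN p f) (cV p v) = 0 := by
        rw [← Rs_cast, ZMod.intCast_zmod_eq_zero_iff_dvd]
        exact (Dvd.intro_left _ (by ring : (p : ℤ) * p = (p : ℤ) ^ 2)).trans h
      rcases Rs_zero hm _ _ h3 with ⟨x, z, h4, -, h5⟩ | h4 | ⟨-, h4⟩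
      · exact (bb_noroot p v ha hn h4 h5).elim
      · exfalso
        apply ha
        rw [← ZMod.intCast_zmod_eq_zero_iff_dvd]
        exact congrArg Prod.fst h4
      · exact h4
    refine h1.trans ((bb_cntA hm p hp _ ?_).trans (by gcongr; norm_num))
    intro f g hf hg hfg i hi
    have h3 : Pq (cV p v) ∣ Pf (cN p f) - Pf (cN p g) := dvd_sub hf hg
    have h4 : (Pf (cN p f) - Pf (cN p g)).degree < ((2 : ℕ) : WithBot ℕ) := by
      rw [Polynomial.degree_lt_iff_coeff_zero]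
      intro k hk
      rw [Polynomial.coeff_sub]
      by_cases hkm : k < m + 1
      · have h5 := coeff_Pf (cN p f) ⟨k, hkm⟩
        have h6 := coeff_Pf (cN p g) ⟨k, hkm⟩
        have h7 : cN p f ⟨k, hkm⟩ = cN p g ⟨k, hkm⟩ := by
          unfold cN
          rw [hfg ⟨k, hkm⟩ (by exact_mod_cast hk)]
        rw [h5, h6, h7, sub_self]
      · rw [Polynomial.coeff_eq_zero_of_natDegree_lt (lt_of_le_of_lt (natDegree_Pf _) (by omega)),
          Polynomial.coeff_eq_zero_of_natDegree_lt (lt_of_le_of_lt (natDegree_Pf _) (by omega)), sub_self]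
    have h5 : (Pq (cV p v)).degree = 2 := by
      unfold Pq
      refine Polynomial.degree_quadratic ?_
      intro h6
      exact ha ((ZMod.intCast_zmod_eq_zero_iff_dvd _ _).1 h6)
    have h6 : Pf (cN p f) - Pf (cN p g) = 0 := by
      by_contra h7
      have h8 := Polynomial.degree_le_of_dvd h3 h7
      rw [h5] at h8
      exact absurd (lt_of_le_of_lt h8 h4) (lt_irrefl _)
    have h7 : (Pf (cN p f)).coeff (i : ℕ) = (Pf (cN p g)).coeff (i : ℕ) := by
      rw [sub_eq_zero.1 h6]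
    rw [coeff_Pf, coeff_Pf] at h7
    have h8 : ((f i : ℤ) : ZMod p) = ((g i : ℤ) : ZMod p) := h7
    rw [← ZMod.intCast_zmod_eq_zero_iff_dvd, Int.cast_sub, h8, sub_self]
  · -- a root
    push Not at hn
    obtain ⟨r, hr⟩ := hn
    obtain ⟨r', s, hrs, hb, hc⟩ := hensel_split p h2 v ha hd r hr
    have hcV : cV (p ^ 2) v = ((v.1 : ZMod (p ^ 2)), -((v.1 : ZMod (p ^ 2)) * ((r' : ZMod (p ^ 2)) + (s : ZMod (p ^ 2)))),
        (v.1 : ZMod (p ^ 2)) * (r' : ZMod (p ^ 2)) * (s : ZMod (p ^ 2))) := by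
      have hb' : ((v.2.1 + v.1 * (r' + s) : ℤ) : ZMod (p ^ 2)) = 0 := by
        rw [ZMod.intCast_zmod_eq_zero_iff_dvd]
        push_cast
        exact hb
      have hc' : ((v.2.2 - v.1 * r' * s : ℤ) : ZMod (p ^ 2)) = 0 := by
        rw [ZMod.intCast_zmod_eq_zero_iff_dvd]
        push_cast
        exact hc
      push_cast at hb' hc'
      unfold cV
      refine Prod.ext rfl (Prod.ext ?_ ?_)
      · exact eq_neg_of_add_eq_zero_left hb'
      · exact sub_eq_zero.1 hc'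
    have hdv : ∀ f : Vn m, (p : ℤ) ^ 2 ∣ Rs f v → (p : ℤ) ^ 2 ∣ evn f r' * evn f s := by
      intro f hf
      have h3 : Rs (cN (p ^ 2) f) (cV (p ^ 2) v) = 0 := by
        rw [← Rs_cast, ZMod.intCast_zmod_eq_zero_iff_dvd]
        push_cast
        exact hf
      rw [hcV, Rs_split] at h3
      have h4 : ((v.1 ^ m * (evn f r' * evn f s) : ℤ) : ZMod (p ^ 2)) = 0 := by
        push_cast
        rw [evn_eq, evn_eq, hv_cast, hv_cast]
        push_cast
        rw [← h3]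
        ring
      rw [ZMod.intCast_zmod_eq_zero_iff_dvd] at h4
      push_cast at h4
      have h5 : IsCoprime ((p : ℤ) ^ 2) (v.1 ^ m) := IsCoprime.pow_left (IsCoprime.pow_right (hpi.coprime_iff_not_dvd.2 ha))
      exact h5.dvd_of_dvd_mul_left h4
    have h1 : ExN m (p ^ 2) (fun f => ind ((p : ℤ) ^ 2 ∣ Rs f v)) ≤ ExN m (p ^ 2) (fun f => ind ((p : ℤ) ^ 2 ∣ evn f r') +
        (ind ((p : ℤ) ^ 2 ∣ evn f s) + ind ((p : ℤ) ∣ evn f r' ∧ (p : ℤ) ∣ evn f s))) := by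
      refine bb_Ex_mono (pow_pos hp.pos 2) _ _ fun f => ?_
      by_cases h : (p : ℤ) ^ 2 ∣ Rs f v
      · have h3 : ind ((p : ℤ) ^ 2 ∣ Rs f v) = 1 := if_pos h
        rw [h3]
        have n1 := ind_nonneg ((p : ℤ) ^ 2 ∣ evn f r')
        have n2 := ind_nonneg ((p : ℤ) ^ 2 ∣ evn f s)
        have n3 := ind_nonneg ((p : ℤ) ∣ evn f r' ∧ (p : ℤ) ∣ evn f s)
        rcases bb_mul hpi (hdv f h) with h4 | h4 | h4
        · have : ind ((p : ℤ) ^ 2 ∣ evn f r') = 1 := if_pos h4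
          linarith
        · have : ind ((p : ℤ) ^ 2 ∣ evn f s) = 1 := if_pos h4
          linarith
        · have : ind ((p : ℤ) ∣ evn f r' ∧ (p : ℤ) ∣ evn f s) = 1 := if_pos h4
          linarith
      · have h3 : ind ((p : ℤ) ^ 2 ∣ Rs f v) = 0 := if_neg h
        rw [h3]
        have n1 := ind_nonneg ((p : ℤ) ^ 2 ∣ evn f r')
        have n2 := ind_nonneg ((p : ℤ) ^ 2 ∣ evn f s)
        have n3 := ind_nonneg ((p : ℤ) ∣ evn f r' ∧ (p : ℤ) ∣ evn f s)
        linarith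
    refine h1.trans ?_
    rw [bb_Ex_add, bb_Ex_add]
    have hB : ∀ t : ℤ, ExN m (p ^ 2) (fun f => ind ((p : ℤ) ^ 2 ∣ evn f t)) ≤ 1 / (p : ℝ) ^ 2 := by
      intro t
      refine bb_cntB p hp _ fun f g hf hg hfg => ?_
      rw [← bb_evn_one f g hfg t]
      exact dvd_sub hf hg
    have hC : ExN m (p ^ 2) (fun f => ind ((p : ℤ) ∣ evn f r' ∧ (p : ℤ) ∣ evn f s)) ≤ 1 / (p : ℝ) ^ 2 := by
      refine bb_cntA hm p hp _ fun f g hf hg hfg i hi => ?_
      have h3 := bb_evn_two hm f g hfg r'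
      have h4 := bb_evn_two hm f g hfg s
      have h5 : (p : ℤ) ∣ (f ⟨1, by omega⟩ - g ⟨1, by omega⟩) * (r' - s) := by
        have h6 : (f ⟨1, by omega⟩ - g ⟨1, by omega⟩) * (r' - s) = (evn f r' - evn g r') - (evn f s - evn g s) := by
          rw [h3, h4]
          ring
        rw [h6]
        exact dvd_sub (dvd_sub hf.1 hg.1) (dvd_sub hf.2 hg.2)
      have h6 : (p : ℤ) ∣ f ⟨1, by omega⟩ - g ⟨1, by omega⟩ := (hpi.dvd_or_dvd h5).resolve_right hrs
      have h7 : (p : ℤ) ∣ f 0 - g 0 := by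
        have h8 : f 0 - g 0 = (evn f r' - evn g r') - (f ⟨1, by omega⟩ - g ⟨1, by omega⟩) * r' := by
          rw [h3]
          ring
        rw [h8]
        exact dvd_sub (dvd_sub hf.1 hg.1) (Dvd.dvd.mul_right h6 _)
      have h8 : i = 0 ∨ i = ⟨1, by omega⟩ := by
        rcases Nat.lt_or_ge (i : ℕ) 1 with h9 | h9
        · left
          ext
          rw [Fin.val_zero]
          omega
        · right
          ext
          change (i : ℕ) = 1
          omega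
      rcases h8 with h8 | h8
      · rw [h8]
        exact h7
      · rw [h8]
        exact h6
    have e1 := hB r'
    have e2 := hB s
    have e3 : 3 / (p : ℝ) ^ 2 = 1 / (p : ℝ) ^ 2 + (1 / (p : ℝ) ^ 2 + 1 / (p : ℝ) ^ 2) := by ring
    rw [e3]
    exact add_le_add e1 (add_le_add e2 hC)

/-- counting triples -/
private theorem bb_cubeA (p : ℕ) (hp : p.Prime) (Φ : V → Prop)
    (h : ∀ f g : V, Φ f → Φ g → f.1 = g.1 → (p : ℤ) ∣ f.2.1 - g.2.1 ∧ (p : ℤ) ∣ f.2.2 - g.2.2) :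
    ∑ f ∈ cube (p ^ 2), ind (Φ f) ≤ (p : ℝ) ^ 4 := by
  have hpz : (0 : ℤ) < p := by exact_mod_cast hp.pos
  have h1 : ((cube (p ^ 2)).filter Φ).card ≤
      (Ico (0 : ℤ) ((p ^ 2 : ℕ) : ℤ) ×ˢ (Ico (0 : ℤ) (p : ℤ) ×ˢ Ico (0 : ℤ) (p : ℤ))).card := by
    refine Finset.card_le_card_of_injOn (fun f => (f.1, f.2.1 / (p : ℤ), f.2.2 / (p : ℤ))) ?_ ?_
    · intro f hf
      obtain ⟨h3, h4, h5⟩ := mem_cube.1 (Finset.mem_filter.1 (Finset.mem_coe.1 hf)).1
      rw [Finset.mem_coe, mem_product, mem_product, mem_Ico, mem_Ico, mem_Ico]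
      push_cast at h3 h4 h5 ⊢
      refine ⟨h3, ⟨Int.ediv_nonneg h4.1 hpz.le, ?_⟩, ⟨Int.ediv_nonneg h5.1 hpz.le, ?_⟩⟩
      · rw [Int.ediv_lt_iff_lt_mul hpz]
        nlinarith [h4.2]
      · rw [Int.ediv_lt_iff_lt_mul hpz]
        nlinarith [h5.2]
    · intro f hf g hg hfg
      obtain ⟨hf1, hf2⟩ := Finset.mem_filter.1 (Finset.mem_coe.1 hf)
      obtain ⟨hg1, hg2⟩ := Finset.mem_filter.1 (Finset.mem_coe.1 hg)
      have hfg' : (f.1, f.2.1 / (p : ℤ), f.2.2 / (p : ℤ)) = (g.1, g.2.1 / (p : ℤ), g.2.2 / (p : ℤ)) := hfg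
      rw [Prod.mk.injEq, Prod.mk.injEq] at hfg'
      obtain ⟨e1, e2, e3⟩ := hfg'
      obtain ⟨d1, d2⟩ := h f g hf2 hg2 e1
      have key : ∀ x y : ℤ, (p : ℤ) ∣ x - y → x / (p : ℤ) = y / (p : ℤ) → x = y := by
        intro x y hxy hd
        have h7 : x % (p : ℤ) = y % (p : ℤ) := (Int.ModEq.symm ((Int.modEq_iff_dvd).2 hxy))
        have h8 := Int.mul_ediv_add_emod x (p : ℤ)
        have h9 := Int.mul_ediv_add_emod y (p : ℤ)
        rw [← h8, ← h9, hd, h7]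
      exact Prod.ext e1 (Prod.ext (key _ _ d1 e2) (key _ _ d2 e3))
  have h3 : ∑ f ∈ cube (p ^ 2), ind (Φ f) = (((cube (p ^ 2)).filter Φ).card : ℝ) := by
    rw [Finset.card_filter]
    push_cast
    exact Finset.sum_congr rfl fun x _ => rfl
  rw [card_product, card_product, Int.card_Ico, Int.card_Ico, sub_zero, sub_zero, Int.toNat_natCast, Int.toNat_natCast] at h1
  rw [h3]
  have h4 : p ^ 2 * (p * p) = p ^ 4 := by ring
  rw [h4] at h1
  exact_mod_cast h1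

private theorem bb_cubeB (p : ℕ) (Φ : V → Prop)
    (h : ∀ f g : V, Φ f → Φ g → f.1 = g.1 → f.2.1 = g.2.1 → (p : ℤ) ^ 2 ∣ f.2.2 - g.2.2) :
    ∑ f ∈ cube (p ^ 2), ind (Φ f) ≤ (p : ℝ) ^ 4 := by
  have h1 : ((cube (p ^ 2)).filter Φ).card ≤
      (Ico (0 : ℤ) ((p ^ 2 : ℕ) : ℤ) ×ˢ Ico (0 : ℤ) ((p ^ 2 : ℕ) : ℤ)).card := by
    refine Finset.card_le_card_of_injOn (fun f => (f.1, f.2.1)) ?_ ?_
    · intro f hf
      obtain ⟨h3, h4, h5⟩ := mem_cube.1 (Finset.mem_filter.1 (Finset.mem_coe.1 hf)).1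
      rw [Finset.mem_coe, mem_product, mem_Ico, mem_Ico]
      exact ⟨h3, h4⟩
    · intro f hf g hg hfg
      obtain ⟨hf1, hf2⟩ := Finset.mem_filter.1 (Finset.mem_coe.1 hf)
      obtain ⟨hg1, hg2⟩ := Finset.mem_filter.1 (Finset.mem_coe.1 hg)
      have hfg' : (f.1, f.2.1) = (g.1, g.2.1) := hfg
      rw [Prod.mk.injEq] at hfg'
      obtain ⟨e1, e2⟩ := hfg'
      have d1 := h f g hf2 hg2 e1 e2
      obtain ⟨h3, h4, h5⟩ := mem_cube.1 hf1
      obtain ⟨h6, h7, h8⟩ := mem_cube.1 hg1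
      push_cast at h5 h8
      have h9 : |f.2.2 - g.2.2| < (p : ℤ) ^ 2 := by
        rw [abs_lt]
        constructor <;> linarith [h5.1, h5.2, h8.1, h8.2]
      have h10 := Int.eq_zero_of_abs_lt_dvd d1 h9
      exact Prod.ext e1 (Prod.ext e2 (by linarith))
  have h3 : ∑ f ∈ cube (p ^ 2), ind (Φ f) = (((cube (p ^ 2)).filter Φ).card : ℝ) := by
    rw [Finset.card_filter]
    push_cast
    exact Finset.sum_congr rfl fun x _ => rfl
  rw [card_product, Int.card_Ico, sub_zero, Int.toNat_natCast] at h1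
  rw [h3]
  have h4 : p ^ 2 * p ^ 2 = p ^ 4 := by ring
  rw [h4] at h1
  exact_mod_cast h1

/-- Proof. The same with the quadratic form `w` in place of `f` (`rs_zero`, `rs_split`; if `v` has no root modulo `p` and `p ∣ rs v w` then `w` is a multiple of `v` modulo `p`: probability `1/p²`). The mean value is taken over `w` modulo `p²`. -/
theorem rs_sq_mean (p : ℕ) [Fact p.Prime] (h2 : p ≠ 2) (v : V) (ha : ¬ (p : ℤ) ∣ v.1)
    (hd : ¬ (p : ℤ) ∣ ds v) :
    (∑ w ∈ cube (p ^ 2), ind ((p : ℤ) ^ 2 ∣ rs v w)) / ((p : ℝ) ^ 2) ^ 3 ≤ 3 / (p : ℝ) ^ 2 := by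
  have hp : p.Prime := Fact.out
  have hpi : Prime (p : ℤ) := Nat.prime_iff_prime_int.1 hp
  have hp0 : (0 : ℝ) < p := by exact_mod_cast hp.pos
  suffices hs : ∑ w ∈ cube (p ^ 2), ind ((p : ℤ) ^ 2 ∣ rs v w) ≤ 3 * (p : ℝ) ^ 4 by
    rw [div_le_div_iff₀ (by positivity) (by positivity)]
    calc _ ≤ 3 * (p : ℝ) ^ 4 * (p : ℝ) ^ 2 := mul_le_mul_of_nonneg_right hs (by positivity)
      _ = 3 * ((p : ℝ) ^ 2) ^ 3 := by ring
  have ha' : (v.1 : ZMod p) ≠ 0 := by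
    intro h1
    exact ha ((ZMod.intCast_zmod_eq_zero_iff_dvd _ _).1 h1)
  by_cases hn : ∀ r : ℤ, ¬ (p : ℤ) ∣ ev v r
  · have h1 : ∀ w : V, ind ((p : ℤ) ^ 2 ∣ rs v w) ≤ ind ((v.2.2 : ZMod p) * w.1 = v.1 * w.2.2 ∧ (v.1 : ZMod p) * w.2.1 = v.2.1 * w.1) := by
      intro w
      refine ind_mono fun h => ?_
      have h3 : rs (cV p v) (cV p w) = 0 := by
        rw [← rs_cast, ZMod.intCast_zmod_eq_zero_iff_dvd]
        exact (Dvd.intro_left _ (by ring : (p : ℤ) * p = (p : ℤ) ^ 2)).trans h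
      rcases rs_zero _ _ h3 with ⟨x, z, h4, h5, -⟩ | ⟨-, h4, h5⟩
      · exact (bb_noroot p v ha hn h4 h5).elim
      · exact ⟨h4, h5⟩
    refine (Finset.sum_le_sum fun w _ => h1 w).trans ((bb_cubeA p hp _ ?_).trans (by nlinarith [pow_pos hp0 4]))
    rintro f g ⟨f1, f2⟩ ⟨g1, g2⟩ hfg
    rw [hfg] at f1 f2
    constructor
    · rw [← ZMod.intCast_zmod_eq_zero_iff_dvd, Int.cast_sub, sub_eq_zero]
      exact mul_left_cancel₀ ha' (f2.trans g2.symm)
    · rw [← ZMod.intCast_zmod_eq_zero_iff_dvd, Int.cast_sub, sub_eq_zero]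
      exact mul_left_cancel₀ ha' (f1.symm.trans g1)
  · push Not at hn
    obtain ⟨r, hr⟩ := hn
    obtain ⟨r', s, hrs, hb, hc⟩ := hensel_split p h2 v ha hd r hr
    have hcV : cV (p ^ 2) v = ((v.1 : ZMod (p ^ 2)), -((v.1 : ZMod (p ^ 2)) * ((r' : ZMod (p ^ 2)) + (s : ZMod (p ^ 2)))),
        (v.1 : ZMod (p ^ 2)) * (r' : ZMod (p ^ 2)) * (s : ZMod (p ^ 2))) := by
      have hb' : ((v.2.1 + v.1 * (r' + s) : ℤ) : ZMod (p ^ 2)) = 0 := by
        rw [ZMod.intCast_zmod_eq_zero_iff_dvd]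
        push_cast
        exact hb
      have hc' : ((v.2.2 - v.1 * r' * s : ℤ) : ZMod (p ^ 2)) = 0 := by
        rw [ZMod.intCast_zmod_eq_zero_iff_dvd]
        push_cast
        exact hc
      push_cast at hb' hc'
      unfold cV
      refine Prod.ext rfl (Prod.ext ?_ ?_)
      · exact eq_neg_of_add_eq_zero_left hb'
      · exact sub_eq_zero.1 hc'
    have hdv : ∀ w : V, (p : ℤ) ^ 2 ∣ rs v w → (p : ℤ) ^ 2 ∣ ev w r' * ev w s := by
      intro f hf
      have h3 : rs (cV (p ^ 2) v) (cV (p ^ 2) f) = 0 := by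
        rw [← rs_cast, ZMod.intCast_zmod_eq_zero_iff_dvd]
        push_cast
        exact hf
      rw [hcV, rs_split] at h3
      have h4 : ((v.1 ^ 2 * (ev f r' * ev f s) : ℤ) : ZMod (p ^ 2)) = 0 := by
        push_cast
        rw [ev_eq, ev_eq, qv_cast, qv_cast]
        push_cast
        rw [← h3]
        ring
      rw [ZMod.intCast_zmod_eq_zero_iff_dvd] at h4
      push_cast at h4
      have h5 : IsCoprime ((p : ℤ) ^ 2) (v.1 ^ 2) := IsCoprime.pow_left (IsCoprime.pow_right (hpi.coprime_iff_not_dvd.2 ha))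
      exact h5.dvd_of_dvd_mul_left h4
    have h1 : ∀ f : V, ind ((p : ℤ) ^ 2 ∣ rs v f) ≤ ind ((p : ℤ) ^ 2 ∣ ev f r') +
        (ind ((p : ℤ) ^ 2 ∣ ev f s) + ind ((p : ℤ) ∣ ev f r' ∧ (p : ℤ) ∣ ev f s)) := by
      intro f
      have n1 := ind_nonneg ((p : ℤ) ^ 2 ∣ ev f r')
      have n2 := ind_nonneg ((p : ℤ) ^ 2 ∣ ev f s)
      have n3 := ind_nonneg ((p : ℤ) ∣ ev f r' ∧ (p : ℤ) ∣ ev f s)
      by_cases h : (p : ℤ) ^ 2 ∣ rs v f
      · have h3 : ind ((p : ℤ) ^ 2 ∣ rs v f) = 1 := if_pos h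
        rw [h3]
        rcases bb_mul hpi (hdv f h) with h4 | h4 | h4
        · have : ind ((p : ℤ) ^ 2 ∣ ev f r') = 1 := if_pos h4
          linarith
        · have : ind ((p : ℤ) ^ 2 ∣ ev f s) = 1 := if_pos h4
          linarith
        · have : ind ((p : ℤ) ∣ ev f r' ∧ (p : ℤ) ∣ ev f s) = 1 := if_pos h4
          linarith
      · have h3 : ind ((p : ℤ) ^ 2 ∣ rs v f) = 0 := if_neg h
        rw [h3]
        linarith
    refine (Finset.sum_le_sum fun w _ => h1 w).trans ?_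
    rw [Finset.sum_add_distrib, Finset.sum_add_distrib]
    have hev : ∀ (f g : V) (t : ℤ), f.1 = g.1 → ev f t - ev g t = (f.2.1 - g.2.1) * t + (f.2.2 - g.2.2) := by
      intro f g t hfg
      unfold ev
      rw [hfg]
      ring
    have hB : ∀ t : ℤ, ∑ f ∈ cube (p ^ 2), ind ((p : ℤ) ^ 2 ∣ ev f t) ≤ (p : ℝ) ^ 4 := by
      intro t
      refine bb_cubeB p _ fun f g hf hg h3 h4 => ?_
      have h5 : f.2.2 - g.2.2 = ev f t - ev g t := by
        rw [hev f g t h3, h4]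
        ring
      rw [h5]
      exact dvd_sub hf hg
    have hC : ∑ f ∈ cube (p ^ 2), ind ((p : ℤ) ∣ ev f r' ∧ (p : ℤ) ∣ ev f s) ≤ (p : ℝ) ^ 4 := by
      refine bb_cubeA p hp _ fun f g hf hg h3 => ?_
      have e1 := hev f g r' h3
      have e2 := hev f g s h3
      have h5 : (p : ℤ) ∣ (f.2.1 - g.2.1) * (r' - s) := by
        have h6 : (f.2.1 - g.2.1) * (r' - s) = (ev f r' - ev g r') - (ev f s - ev g s) := by
          rw [e1, e2]
          ring
        rw [h6]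
        exact dvd_sub (dvd_sub hf.1 hg.1) (dvd_sub hf.2 hg.2)
      have h6 : (p : ℤ) ∣ f.2.1 - g.2.1 := (hpi.dvd_or_dvd h5).resolve_right hrs
      refine ⟨h6, ?_⟩
      have h8 : f.2.2 - g.2.2 = (ev f r' - ev g r') - (f.2.1 - g.2.1) * r' := by
        rw [e1]
        ring
      rw [h8]
      exact dvd_sub (dvd_sub hf.1 hg.1) (Dvd.dvd.mul_right h6 _)
    have e1 := hB r'
    have e2 := hB s
    have e3 : 3 * (p : ℝ) ^ 4 = (p : ℝ) ^ 4 + ((p : ℝ) ^ 4 + (p : ℝ) ^ 4) := by ring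
    rw [e3]
    exact add_le_add e1 (add_le_add e2 hC)

end FQQ
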