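import Pool.Agent.Lib.MP_10e784_agF.BA
import Pool.Agent.Lib.MP_10e784_agF.BB

/-! JOB BC -/

set_option autoImplicit false

open Classical

namespace FQQ

open Finset Polynomial FGO

private theorem BC_ind_or (P Q : Prop) : ind (P ∨ Q) ≤ ind P + ind Q := by
  unfold ind
  by_cases hP : P
  · rw [if_pos hP, if_pos (Or.inl hP)]
    split_ifs <;> norm_num
  · by_cases hQ : Q
    · rw [if_pos hQ, if_pos (Or.inr hQ), if_neg hP, zero_add]
    · rw [if_neg hP, if_neg hQ, if_neg (fun h => h.elim hP hQ), add_zero]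

private theorem BC_ind_ex {n : ℕ} (P : Fin n → Prop) : ind (∃ i, P i) ≤ ∑ i, ind (P i) := by
  by_cases h : ∃ i, P i
  · obtain ⟨i, hi⟩ := h
    have h1 : ind (P i) ≤ ∑ i, ind (P i) :=
      Finset.single_le_sum (f := fun i => ind (P i)) (fun j _ => ind_nonneg (P j)) (Finset.mem_univ i)
    have h2 : ind (P i) = 1 := if_pos hi
    rw [h2] at h1
    exact le_trans (ind_le_one _) h1
  · have h1 : ind (∃ i, P i) = 0 := if_neg h
    rw [h1]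
    exact Finset.sum_nonneg fun i _ => ind_nonneg _

private theorem BC_Av_or {m q : ℕ} [NeZero q]
    {P Q : (Fin (m + 1) → ZMod q) → ZMod q × ZMod q × ZMod q → ZMod q × ZMod q × ZMod q → Prop}
    {a b : ℝ} (hP : Av m q (fun f v w => ind (P f v w)) ≤ a)
    (hQ : Av m q (fun f v w => ind (Q f v w)) ≤ b) :
    Av m q (fun f v w => ind (P f v w ∨ Q f v w)) ≤ a + b := by
  refine le_trans (Av_mono m q _ (fun f v w => ind (P f v w) + ind (Q f v w))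
    (fun f v w => BC_ind_or _ _)) ?_
  rw [Av_add]
  exact add_le_add hP hQ

private theorem BC_Av_ex {m q n : ℕ} [NeZero q]
    {P : Fin n → (Fin (m + 1) → ZMod q) → ZMod q × ZMod q × ZMod q → ZMod q × ZMod q × ZMod q → Prop}
    {a : ℝ} (hP : ∀ i, Av m q (fun f v w => ind (P i f v w)) ≤ a) :
    Av m q (fun f v w => ind (∃ i, P i f v w)) ≤ n * a := by
  refine le_trans (Av_mono m q _ (fun f v w => ∑ i, ind (P i f v w))
    (fun f v w => BC_ind_ex _)) ?_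
  rw [Av_sum]
  refine le_trans (Finset.sum_le_sum fun i _ => hP i) ?_
  rw [Finset.sum_const, Finset.card_univ, Fintype.card_fin, nsmul_eq_mul]

private theorem BC_E3_or {m q : ℕ} {P Q : Vn m → V × V → Prop} {a b : ℝ}
    (hP : E3 m q (fun f u => ind (P f u)) ≤ a) (hQ : E3 m q (fun f u => ind (Q f u)) ≤ b) :
    E3 m q (fun f u => ind (P f u ∨ Q f u)) ≤ a + b := by
  refine le_trans (E3_mono m q _ (fun f u => ind (P f u) + ind (Q f u))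
    (fun f u => BC_ind_or _ _)) ?_
  rw [E3_add]
  exact add_le_add hP hQ

/-- the bad events modulo `p` -/
private def BC_P {m p : ℕ} [Fact p.Prime] (f : Fin (m + 1) → ZMod p)
    (v w : ZMod p × ZMod p × ZMod p) : Prop :=
  ((E f v w 0 ∧ E f v w 1) ∨ (E f v w 0 ∧ E f v w 2) ∨ (E f v w 1 ∧ E f v w 2)) ∨
  (∃ i : Fin 3, ∃ j : Fin 2, Dc v w j = 0 ∧ E f v w i) ∨
  (Dc v w 0 = 0 ∧ Dc v w 1 = 0) ∨
  (∃ i : Fin 3, Rv f v w i = 0 ∧ ¬ E f v w i) ∨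
  ((v.1 = 0 ∧ E f v w 2) ∨ (w.1 = 0 ∧ E f v w 1) ∨ (v.1 = 0 ∧ E f v w 0))

private theorem BC_P_le (m p : ℕ) [Fact p.Prime] (hm : 1 ≤ m) (h2 : p ≠ 2) :
    Av m p (fun f v w => ind (BC_P f v w)) ≤ 34 / (p : ℝ) ^ 2 := by
  have hA := BC_Av_or (Av_EE m p hm 0 1 (by decide)) (BC_Av_or (Av_EE m p hm 0 2 (by decide))
    (Av_EE m p hm 1 2 (by decide)))
  have hB := BC_Av_ex (n := 3) (fun i => BC_Av_ex (n := 2) (fun j => Av_DE m p h2 i j))
  have hC := le_of_eq (Av_DD m p h2)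
  have hE := BC_Av_ex (n := 3) (fun i => Av_RE m p hm i)
  obtain ⟨l2, l1, l0⟩ := Av_lead1 m p
  have hL := BC_Av_or l2 (BC_Av_or l1 l0)
  have h := BC_Av_or hA (BC_Av_or hB (BC_Av_or hC (BC_Av_or hE hL)))
  refine le_trans h (le_of_eq ?_)
  push_cast
  ring

/-- casts of divisibility modulo `q` -/
private theorem BC_dvd (q : ℕ) (a : ℤ) : (q : ℤ) ∣ a ↔ ((a : ℤ) : ZMod q) = 0 :=
  (CharP.intCast_eq_zero_iff (ZMod q) q a).symm

private theorem BC_dvd2 (p : ℕ) (a : ℤ) : (p : ℤ) ^ 2 ∣ a ↔ ((a : ℤ) : ZMod (p ^ 2)) = 0 := by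
  rw [← BC_dvd, Nat.cast_pow]

/-- the behaviour at `p` in terms of the residues -/
private theorem BC_typ {m : ℕ} (p : ℕ) (f : Vn m) (u : V × V) : TypP p f u ↔
    (∀ i j : Fin 3, i ≠ j → ¬ (E (cN p f) (cV p u.1) (cV p u.2) i ∧ E (cN p f) (cV p u.1) (cV p u.2) j)) ∧
    (∀ (i : Fin 3) (j : Fin 2), ¬ (Dc (cV p u.1) (cV p u.2) j = 0 ∧ E (cN p f) (cV p u.1) (cV p u.2) i)) ∧
    ¬ (Dc (cV p u.1) (cV p u.2) 0 = 0 ∧ Dc (cV p u.1) (cV p u.2) 1 = 0) ∧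
    (∀ j, ¬ Dc (cV (p ^ 2) u.1) (cV (p ^ 2) u.2) j = 0) ∧
    (∀ i, Rv (cN p f) (cV p u.1) (cV p u.2) i = 0 → E (cN p f) (cV p u.1) (cV p u.2) i ∧
      ¬ Rv (cN (p ^ 2) f) (cV (p ^ 2) u.1) (cV (p ^ 2) u.2) i = 0) := by
  unfold TypP
  have h1 : ∀ j, ((p : ℤ) ^ 2 ∣ Dc u.1 u.2 j ↔ Dc (cV (p ^ 2) u.1) (cV (p ^ 2) u.2) j = 0) := by
    intro j
    rw [BC_dvd2, Dc_cast (m := m) (p ^ 2) f]
  have h2 : ∀ i, ((p : ℤ) ∣ Rv f u.1 u.2 i ↔ Rv (cN p f) (cV p u.1) (cV p u.2) i = 0) := by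
    intro i
    rw [BC_dvd, Rv_cast]
  have h3 : ∀ i, ((p : ℤ) ^ 2 ∣ Rv f u.1 u.2 i ↔
      Rv (cN (p ^ 2) f) (cV (p ^ 2) u.1) (cV (p ^ 2) u.2) i = 0) := by
    intro i
    rw [BC_dvd2, Rv_cast]
  simp only [h1, h2, h3]

private theorem BC_const2 {m q : ℕ} [NeZero q] (b : ZMod q × ZMod q × ZMod q → ℝ) :
    Av m q (fun _ v _ => b v) = mQ q b := by
  unfold Av
  simp only [mF_const, mQ_const]

private theorem BC_const3 {m q : ℕ} [NeZero q] (b : ZMod q × ZMod q × ZMod q → ℝ) :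
    Av m q (fun _ _ w => b w) = mQ q b := by
  unfold Av
  simp only [mF_const, mQ_const]

private theorem BC_nonneg (p : ℕ) : (0 : ℝ) ≤ 3 / (p : ℝ) ^ 2 := by positivity

private theorem BC_false_ExN (m q : ℕ) {P : Vn m → Prop} (h : ∀ f, ¬ P f) :
    ExN m q (fun f => ind (P f)) = 0 := by
  have h1 : (fun f => ind (P f)) = fun _ : Vn m => (0 : ℝ) := by
    funext f
    exact if_neg (h f)
  rw [h1]
  unfold ExN
  rw [Finset.sum_const_zero, zero_div]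

/-- Proof. All five conditions depend only on the residues modulo `p²` (`Rv_cast`, `Dc_cast` with `q = p²`; `cN`, `cV` modulo `p` are determined by the residues modulo `p²`). -/
theorem Per3_typ {m : ℕ} (p : ℕ) : Per3 (p ^ 2) (fun (f : Vn m) u => ind (¬ TypP p f u)) := by
  intro f g u u' hf h1 h2
  have hd : (p : ℤ) ∣ ((p ^ 2 : ℕ) : ℤ) := by
    rw [Nat.cast_pow]
    exact dvd_pow_self _ two_ne_zero
  have e1 : cN (p ^ 2) f = cN (p ^ 2) g := (cN_eq_iff _ f g).2 hf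
  have e2 : cV (p ^ 2) u.1 = cV (p ^ 2) u'.1 := (cV_eq_iff _ _ _).2 h1
  have e3 : cV (p ^ 2) u.2 = cV (p ^ 2) u'.2 := (cV_eq_iff _ _ _).2 h2
  have e4 : cN p f = cN p g := (cN_eq_iff _ f g).2 fun i => hd.trans (hf i)
  have e5 : cV p u.1 = cV p u'.1 :=
    (cV_eq_iff _ _ _).2 ⟨hd.trans h1.1, hd.trans h1.2.1, hd.trans h1.2.2⟩
  have e6 : cV p u.2 = cV p u'.2 :=
    (cV_eq_iff _ _ _).2 ⟨hd.trans h2.1, hd.trans h2.2.1, hd.trans h2.2.2⟩
  have h3 : TypP p f u ↔ TypP p g u' := by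
    rw [BC_typ, BC_typ, e1, e2, e3, e4, e5, e6]
  simp only [h3]

/-- Proof. `ind (¬ TypP)` is at most the sum of the indicators of: (a) `E i ∧ E j` for the three pairs `i < j`: `9/p²` (`Av_EE`); (b) `Dc j = 0 ∧ E i`: `6 · 2/p²` (`Av_DE`); (c) `1/p²` (`Av_DD`); (d) `p² ∣ Dc j`:
`2 · 2/p²` (`mQ_ds_sq`); (e) `p ∣ Rv i ∧ ¬ E i`: `3 · 2/p²` (`Av_RE`); (f) `E i ∧ p² ∣ Rv i`: for `i = 2`: contained in `(v.1 ≡ 0 ∧ E 2) ∪ (Dc 0 ≡ 0 ∧ E 2) ∪ (p ∤ v.1, p ∤ ds v, p² ∣ Rs f v)`: `2/p² + (b) + 3/p²`; the same for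
`i = 1` (with `w`) and `i = 0` (`rs v w`, `rs_sq_mean`): `15/p²`. Total `≤ 47/p²`. The mean values modulo `p` are transferred to `p²` by `E3_dvd` (`p ∣ p²`), `E3_eq_Av`. -/
theorem E3_typ {m : ℕ} (hm : 1 ≤ m) (p : ℕ) (hp : p.Prime) (h2 : p ≠ 2) :
    E3 m (p ^ 2) (fun f u => ind (¬ TypP p f u)) ≤ 60 / (p : ℝ) ^ 2 := by
  have : Fact p.Prime := ⟨hp⟩
  have : NeZero p := ⟨hp.ne_zero⟩
  have : NeZero (p ^ 2) := ⟨pow_ne_zero 2 hp.ne_zero⟩
  have hp2 : 0 < p ^ 2 := pow_pos hp.pos 2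
  -- the events modulo `p`
  have hP : E3 m (p ^ 2) (fun f u => ind (BC_P (cN p f) (cV p u.1) (cV p u.2))) ≤
      34 / (p : ℝ) ^ 2 := by
    rw [E3_dvd hp2 (dvd_pow_self p two_ne_zero)
      (Per3_of m p fun f v w => ind (BC_P f v w)), E3_eq_Av m p fun f v w => ind (BC_P f v w)]
    exact BC_P_le m p hm h2
  -- the discriminants
  have hD0 : E3 m (p ^ 2) (fun _ u => ind ((p : ℤ) ^ 2 ∣ ds u.1)) ≤ 2 / (p : ℝ) ^ 2 := by
    have h1 : E3 m (p ^ 2) (fun _ u => ind ((p : ℤ) ^ 2 ∣ ds u.1)) =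
        Av m (p ^ 2) (fun _ v _ => ind (ds v = 0)) := by
      rw [← E3_eq_Av m (p ^ 2) (fun _ v _ => ind (ds v = 0))]
      refine congrArg (E3 m (p ^ 2)) ?_
      funext f u
      simp only [BC_dvd2, ds_cast]
    rw [h1, BC_const2]
    exact mQ_ds_sq p h2
  have hD1 : E3 m (p ^ 2) (fun _ u => ind ((p : ℤ) ^ 2 ∣ ds u.2)) ≤ 2 / (p : ℝ) ^ 2 := by
    have h1 : E3 m (p ^ 2) (fun _ u => ind ((p : ℤ) ^ 2 ∣ ds u.2)) =
        Av m (p ^ 2) (fun _ _ w => ind (ds w = 0)) := by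
      rw [← E3_eq_Av m (p ^ 2) (fun _ _ w => ind (ds w = 0))]
      refine congrArg (E3 m (p ^ 2)) ?_
      funext f u
      simp only [BC_dvd2, ds_cast]
    rw [h1, BC_const3]
    exact mQ_ds_sq p h2
  -- the squares dividing the resultants
  have hT2 : E3 m (p ^ 2) (fun f u => ind (¬ (p : ℤ) ∣ u.1.1 ∧ ¬ (p : ℤ) ∣ ds u.1 ∧
      (p : ℤ) ^ 2 ∣ Rs f u.1)) ≤ 3 / (p : ℝ) ^ 2 := by
    unfold E3
    refine le_trans (Ex_mono (p ^ 2) _ (fun _ => 3 / (p : ℝ) ^ 2) fun u => ?_)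
      (le_of_eq (Ex_const hp2 _))
    by_cases ha : ¬ (p : ℤ) ∣ u.1.1 ∧ ¬ (p : ℤ) ∣ ds u.1
    · refine le_trans (ExN_mono m (p ^ 2) _ _ fun f => ind_mono fun h => h.2.2)
        (Rs_sq_mean hm p h2 u.1 ha.1 ha.2)
    · rw [BC_false_ExN m (p ^ 2) (fun f h => ha ⟨h.1, h.2.1⟩)]
      exact BC_nonneg p
  have hT1 : E3 m (p ^ 2) (fun f u => ind (¬ (p : ℤ) ∣ u.2.1 ∧ ¬ (p : ℤ) ∣ ds u.2 ∧
      (p : ℤ) ^ 2 ∣ Rs f u.2)) ≤ 3 / (p : ℝ) ^ 2 := by
    unfold E3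
    refine le_trans (Ex_mono (p ^ 2) _ (fun _ => 3 / (p : ℝ) ^ 2) fun u => ?_)
      (le_of_eq (Ex_const hp2 _))
    by_cases ha : ¬ (p : ℤ) ∣ u.2.1 ∧ ¬ (p : ℤ) ∣ ds u.2
    · refine le_trans (ExN_mono m (p ^ 2) _ _ fun f => ind_mono fun h => h.2.2)
        (Rs_sq_mean hm p h2 u.2 ha.1 ha.2)
    · rw [BC_false_ExN m (p ^ 2) (fun f h => ha ⟨h.1, h.2.1⟩)]
      exact BC_nonneg p
  have hT0 : E3 m (p ^ 2) (fun _ u => ind (¬ (p : ℤ) ∣ u.1.1 ∧ ¬ (p : ℤ) ∣ ds u.1 ∧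
      (p : ℤ) ^ 2 ∣ rs u.1 u.2)) ≤ 3 / (p : ℝ) ^ 2 := by
    unfold E3
    simp only [ExN_const hp2]
    have hq : (0 : ℝ) < ((p ^ 2 : ℕ) : ℝ) ^ 3 := by positivity
    have h3 : ∀ v ∈ cube (p ^ 2), ∑ w ∈ cube (p ^ 2), ind (¬ (p : ℤ) ∣ v.1 ∧ ¬ (p : ℤ) ∣ ds v ∧
        (p : ℤ) ^ 2 ∣ rs v w) ≤ 3 / (p : ℝ) ^ 2 * ((p ^ 2 : ℕ) : ℝ) ^ 3 := by
      intro v _
      by_cases ha : ¬ (p : ℤ) ∣ v.1 ∧ ¬ (p : ℤ) ∣ ds v
      · have h4 := rs_sq_mean p h2 v ha.1 ha.2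
        have h5 : ((p : ℝ) ^ 2) ^ 3 = ((p ^ 2 : ℕ) : ℝ) ^ 3 := by
          push_cast
          ring
        rw [h5, div_le_iff₀ hq] at h4
        refine le_trans (Finset.sum_le_sum fun w _ => ?_) h4
        exact ind_mono fun h => h.2.2
      · have h4 : ∑ w ∈ cube (p ^ 2), ind (¬ (p : ℤ) ∣ v.1 ∧ ¬ (p : ℤ) ∣ ds v ∧
            (p : ℤ) ^ 2 ∣ rs v w) = 0 := by
          apply Finset.sum_eq_zero
          intro w _
          exact if_neg fun h => ha ⟨h.1, h.2.1⟩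
        rw [h4]
        exact mul_nonneg (BC_nonneg p) hq.le
    have hcard : ((cube (p ^ 2)).card : ℝ) = ((p ^ 2 : ℕ) : ℝ) ^ 3 := by
      unfold cube
      rw [Finset.card_product, Finset.card_product, Int.card_Ico, sub_zero, Int.toNat_natCast]
      push_cast
      ring
    have h6 : ∑ u ∈ cube2 (p ^ 2), ind (¬ (p : ℤ) ∣ u.1.1 ∧ ¬ (p : ℤ) ∣ ds u.1 ∧
        (p : ℤ) ^ 2 ∣ rs u.1 u.2) ≤ 3 / (p : ℝ) ^ 2 * ((p ^ 2 : ℕ) : ℝ) ^ 6 := by
      unfold cube2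
      rw [Finset.sum_product]
      refine le_trans (Finset.sum_le_sum h3) ?_
      rw [Finset.sum_const, nsmul_eq_mul, hcard]
      refine le_of_eq ?_
      ring
    unfold Ex
    rw [div_le_iff₀ (by positivity)]
    exact h6
  have hall := BC_E3_or hP (BC_E3_or hD0 (BC_E3_or hD1 (BC_E3_or hT2 (BC_E3_or hT1 hT0))))
  refine le_trans (le_trans (E3_mono m (p ^ 2) _ _ fun f u => ind_mono fun hnot => ?_) hall) ?_
  · -- the union
    by_contra hcon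
    push Not at hcon
    obtain ⟨hnP, hn0, hn1, hn2, hn3, hn4⟩ := hcon
    apply hnot
    unfold BC_P at hnP
    push Not at hnP
    obtain ⟨⟨a1, a2, a3⟩, b1, c1, e1, l2, l1, l0⟩ := hnP
    refine ⟨?_, ?_, ?_, ?_, ?_⟩
    · intro i j hij hE
      fin_cases i <;> fin_cases j
      · exact hij rfl
      · exact a1 hE.1 hE.2
      · exact a2 hE.1 hE.2
      · exact a1 hE.2 hE.1
      · exact hij rfl
      · exact a3 hE.1 hE.2
      · exact a2 hE.2 hE.1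
      · exact a3 hE.2 hE.1
      · exact hij rfl
    · intro i j h
      exact b1 i j h.1 h.2
    · intro h
      exact c1 h.1 h.2
    · intro j
      fin_cases j
      · exact hn0
      · exact hn1
    · intro i hi
      have hE : E (cN p f) (cV p u.1) (cV p u.2) i := by
        apply e1 i
        rw [← Rv_cast, ← BC_dvd]
        exact hi
      refine ⟨hE, fun hsq => ?_⟩
      have hds : ∀ v : V, (p : ℤ) ∣ ds v → ds (cV p v) = 0 := by
        intro v hv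
        rw [← ds_cast, ← BC_dvd]
        exact hv
      have hld : ∀ v : V, (p : ℤ) ∣ v.1 → (cV p v).1 = 0 := by
        intro v hv
        exact (BC_dvd p v.1).1 hv
      fin_cases i
      · refine hn4 ?_ ?_ hsq
        · intro h
          exact l0 (hld _ h) hE
        · intro h
          exact b1 0 0 (hds _ h) hE
      · refine hn3 ?_ ?_ hsq
        · intro h
          exact l1 (hld _ h) hE
        · intro h
          exact b1 1 1 (hds _ h) hE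
      · refine hn2 ?_ ?_ hsq
        · intro h
          exact l2 (hld _ h) hE
        · intro h
          exact b1 2 0 (hds _ h) hE
  · have hpos : (0 : ℝ) < (p : ℝ) ^ 2 := by
      have := hp.pos
      positivity
    rw [← add_div, ← add_div, ← add_div, ← add_div, ← add_div]
    exact div_le_div_of_nonneg_right (by norm_num) hpos.le

end FQQ
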