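import Pool.Agent.Lib.MP_10e784_agF.LD
import Pool.Agent.Lib.MP_10e784_agF.RB

/-! JOB D2 -/

set_option autoImplicit false

open Classical

namespace FQQ

open Finset Polynomial FGO

/-- the five quantities behave well at the prime `p` -/
def TypP {m : ℕ} (p : ℕ) (f : Vn m) (u : V × V) : Prop :=
  (∀ i j : Fin 3, i ≠ j → ¬ (E (cN p f) (cV p u.1) (cV p u.2) i ∧ E (cN p f) (cV p u.1) (cV p u.2) j)) ∧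
  (∀ (i : Fin 3) (j : Fin 2), ¬ (Dc (cV p u.1) (cV p u.2) j = 0 ∧ E (cN p f) (cV p u.1) (cV p u.2) i)) ∧
  ¬ (Dc (cV p u.1) (cV p u.2) 0 = 0 ∧ Dc (cV p u.1) (cV p u.2) 1 = 0) ∧
  (∀ j, ¬ (p : ℤ) ^ 2 ∣ Dc u.1 u.2 j) ∧
  (∀ i, (p : ℤ) ∣ Rv f u.1 u.2 i → E (cN p f) (cV p u.1) (cV p u.2) i ∧ ¬ (p : ℤ) ^ 2 ∣ Rv f u.1 u.2 i)

/-- the large primes `z < p` behave well (`p ≤ P` where necessary) -/
def Rough {m : ℕ} (z P : ℕ) (f : Vn m) (u : V × V) : Prop :=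
  ∀ p : ℕ, p.Prime → z < p →
    (p ≤ P → ((p : ℤ) ∣ Rs f u.1 → ¬ (p : ℤ) ∣ u.1.1 ∧ ¬ Pq (cV p u.1) ∣ Pf (cN p f)) ∧
      ((p : ℤ) ∣ Rs f u.2 → ¬ (p : ℤ) ∣ u.2.1 ∧ ¬ Pq (cV p u.2) ∣ Pf (cN p f)) ∧
      ¬ ((p : ℤ) ∣ Rs f u.1 ∧ (p : ℤ) ∣ Rs f u.2)) ∧
    ((p : ℤ) ∣ rs u.1 u.2 → ¬ (p : ℤ) ∣ Rs f u.1 ∧ ¬ (p : ℤ) ∣ Rs f u.2)

/-- The lattices which occur for `f` may be bad. -/
def ExcF {m : ℕ} (H q0 P : ℕ) (f : Vn m) (u : V × V) : Prop :=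
  ∃ (D1 D2 : ℕ) (r : ℤ), Squarefree D1 ∧ Squarefree D2 ∧ 0 < D1 ∧ 0 < D2 ∧ D1 ≤ P ∧ D2 ≤ P ∧ D1.Coprime D2 ∧
    (D1 * D2).Coprime (rs u.1 u.2).natAbs ∧ (D1 : ℤ) ∣ ev u.2 r ∧ (D2 : ℤ) ∣ ev u.1 r ∧
    ((D1 * D2 : ℕ) : ℤ) ∣ evn f r ∧ ¬ GoodN m H q0 (D1 * D2) r

/-- the primes `P0 < p ≤ z` -/
def PQ (P0 z : ℕ) : Finset ℕ := (Ioc P0 z).filter Nat.Prime

/-- the product of the primes of `Q` which have a label -/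
noncomputable def Lpr {m : ℕ} (Q : Finset ℕ) (f : Vn m) (u : V × V) : ℕ :=
  ∏ p ∈ Q.filter (fun p => Em (cN p f) (cV p u.1) (cV p u.2)), p

/-- the number of primes of `Q` with `E i` -/
noncomputable def nE {m : ℕ} (Q : Finset ℕ) (i : Fin 3) (f : Vn m) (u : V × V) : ℕ :=
  (Q.filter (fun p => E (cN p f) (cV p u.1) (cV p u.2) i)).card

/-- the number of primes of `Q` dividing the discriminant number `j` -/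
noncomputable def nD (Q : Finset ℕ) (j : Fin 2) (u : V × V) : ℕ :=
  (Q.filter (fun p => Dc (cV p u.1) (cV p u.2) j = 0)).card

/-- the box of the triples -/
noncomputable def Bx (m H N : ℕ) : Finset (Vn m × (V × V)) := boxN m H ×ˢ box2 N

/-- The curve `y² = f v w` has a rational point. -/
def HasPt {m : ℕ} (f : Vn m) (u : V × V) : Prop :=
  ∃ x z y : ℚ, ¬ (x = 0 ∧ z = 0) ∧
    y ^ 2 = hv (fun i => (f i : ℚ)) x z * qv ((u.1.1 : ℚ), (u.1.2.1 : ℚ), (u.1.2.2 : ℚ)) x z *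
      qv ((u.2.1 : ℚ), (u.2.2.1 : ℚ), (u.2.2.2 : ℚ)) x z

/-- The covering `f = δ₀ y₀²`, `v = δ₁ y₁²`, `w = δ₂ y₂²` has a point over `ℚ_p`. -/
def LocD {m : ℕ} (p : ℕ) [Fact p.Prime] (δ : Fin 3 → ℤ) (f : Vn m) (u : V × V) : Prop :=
  ∃ (x z : ℚ_[p]) (y : Fin 3 → ℚ_[p]), ¬ (x = 0 ∧ z = 0) ∧
    ∀ i, Fv (fun i => (f i : ℚ_[p])) ((u.1.1 : ℚ_[p]), (u.1.2.1 : ℚ_[p]), (u.1.2.2 : ℚ_[p]))
      ((u.2.1 : ℚ_[p]), (u.2.2.1 : ℚ_[p]), (u.2.2.2 : ℚ_[p])) i x z = (δ i : ℚ_[p]) * y i ^ 2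

/-- Some covering `f = δ₀ y₀²`, `v = δ₁ y₁²`, `w = δ₂ y₂²` with `δ₀ δ₁ δ₂` a square has points over all `ℚ_p`. -/
def Sel {m : ℕ} (f : Vn m) (u : V × V) : Prop :=
  ∃ δ : Fin 3 → ℤ, (∀ i, δ i ≠ 0) ∧ IsSquare (δ 0 * δ 1 * δ 2) ∧ ∀ (p : ℕ) [Fact p.Prime], LocD p δ f u

/-- squarefree numbers `≤ P` without prime factors `≤ z` -/
noncomputable def DR (z P : ℕ) : Finset ℕ :=
  (Icc 1 P).filter fun d => Squarefree d ∧ ∀ p : ℕ, p.Prime → p ∣ d → z < p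

/-- the bound for the moduli `D 1`, `D 2` -/
def PM (m H N : ℕ) : ℕ := (m + 2).factorial * H * N ^ (m / 2)

end FQQ
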