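import Pool.Agent.Lib.MP_10e784_agF.D2

/-! JOB D3 -/

set_option autoImplicit false

open Classical

namespace FQQ

open Finset Polynomial FGO

/-- the parameters of a structure: signs, types, smooth parts, moduli; `lam` is the label function -/
def Up (Q : Finset ℕ) (τ : Fin 3 → ℤ) (t : Fin 3 → Bool) (κ : Fin 3 → ℕ) (lam : ℕ → Lab) (D : Fin 3 → ℕ) (i : Fin 3) : ℤ :=
  τ i * ∏ j ∈ univ.erase i, ((κ j * lprod Q lam (LT t j) * D j : ℕ) : ℤ)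

/-- the roots modulo `D 1 * D 2` -/
noncomputable def RS (D1 D2 : ℕ) (u : V × V) : Finset ℕ :=
  (range (D1 * D2)).filter fun r => (D1 : ℤ) ∣ ev u.2 (r : ℤ) ∧ (D2 : ℤ) ∣ ev u.1 (r : ℤ)

/-- the pair `(f, u)` has the structure given by the parameters -/
def Str {m : ℕ} (H N q0 : ℕ) (Q : Finset ℕ) (τ : Fin 3 → ℤ) (t : Fin 3 → Bool) (κ : Fin 3 → ℕ) (lam : ℕ → Lab)
    (D : Fin 3 → ℕ) (f : Vn m) (u : V × V) : Prop :=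
  (∃ r0 ∈ range (D 0), Good N q0 (D 0) (r0 : ℤ) ∧ Lam (D 0) (r0 : ℤ) u) ∧
  ((∀ p : ℕ, p.Prime → p ∣ D 1 → ¬ (p : ℤ) ∣ u.2.1) ∧ (∀ p : ℕ, p.Prime → p ∣ D 2 → ¬ (p : ℤ) ∣ u.1.1)) ∧
  (∃ r ∈ RS (D 1) (D 2) u, ((D 1 * D 2 : ℕ) : ℤ) ∣ evn f (r : ℤ) ∧ GoodN m H q0 (D 1 * D 2) (r : ℤ)) ∧
  (∀ p ∈ Q, Ev t (fun i => (Up Q τ t κ lam D i : ZMod p)) (cN p f) (cV p u.1) (cV p u.2) (lam p))

/-- everything that holds for typical triples (`z0` is the bound for the small primes, `P0` the one for the very small primes) -/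
def Typical {m : ℕ} (H N P0 z0 q0 q1 : ℕ) (f : Vn m) (u : V × V) : Prop :=
  (∀ p ∈ PQ P0 z0, TypP p f u) ∧
  (∀ i, (nE (PQ P0 z0) i f u : ℝ) ≤ 101 / 100 * ∑ p ∈ PQ P0 z0, 1 / (p : ℝ)) ∧
  (∀ j, 99 / 100 * ∑ p ∈ PQ P0 z0, 1 / (p : ℝ) ≤ (nD (PQ P0 z0) j u : ℝ)) ∧
  Lpr (PQ P0 z0) f u ≤ q1 ∧ Rough z0 (PM m H N) f u ∧ ¬ Exc2 P0 u ∧ ¬ Exc3 N q0 u ∧ ¬ ExcF H q0 (PM m H N) f u

end FQQ
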