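import Pool.Agent.Lib.MP_10e784_agF.Defs

/-! JOB RA -/

set_option autoImplicit false

open Classical

namespace FQQ

open Finset Polynomial FGO

theorem hv_smul {F : Type} [CommRing F] {m : ℕ} (f : Fin (m + 1) → F) (c x z : F) :
    hv f (c * x) (c * z) = c ^ m * hv f x z := by
  unfold hv
  rw [Finset.mul_sum]
  refine Finset.sum_congr rfl (fun i _ => ?_)
  have h : m = (i : ℕ) + (m - (i : ℕ)) := by omega
  rw [mul_pow, mul_pow]
  calc f i * (c ^ (i : ℕ) * x ^ (i : ℕ)) * (c ^ (m - (i : ℕ)) * z ^ (m - (i : ℕ))) =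
        (c ^ (i : ℕ) * c ^ (m - (i : ℕ))) * (f i * x ^ (i : ℕ) * z ^ (m - (i : ℕ))) := by ring
    _ = c ^ m * (f i * x ^ (i : ℕ) * z ^ (m - (i : ℕ))) := by rw [← pow_add, ← h]

theorem qv_smul {F : Type} [CommRing F] (v : F × F × F) (c x z : F) : qv v (c * x) (c * z) = c ^ 2 * qv v x z := by
  unfold qv
  ring

theorem hv_cmul {F : Type} [CommRing F] {m : ℕ} (f : Fin (m + 1) → F) (c x z : F) :
    hv (fun i => c * f i) x z = c * hv f x z := by
  unfold hv
  rw [Finset.mul_sum]
  refine Finset.sum_congr rfl (fun i _ => ?_)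
  ring

theorem qv_cmul {F : Type} [CommRing F] (v : F × F × F) (c x z : F) : qv (c • v) x z = c * qv v x z := by
  unfold qv
  simp only [Prod.smul_fst, Prod.smul_snd, smul_eq_mul]
  ring

theorem natDegree_Pf {F : Type} [CommRing F] {m : ℕ} (f : Fin (m + 1) → F) : (Pf f).natDegree ≤ m := by
  unfold Pf
  refine Polynomial.natDegree_sum_le_of_forall_le _ _ (fun i _ => ?_)
  refine (Polynomial.natDegree_C_mul_X_pow_le _ _).trans ?_
  omega

theorem natDegree_Pq {F : Type} [CommRing F] (v : F × F × F) : (Pq v).natDegree ≤ 2 := by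
  unfold Pq
  exact Polynomial.natDegree_quadratic_le

theorem coeff_Pf {F : Type} [CommRing F] {m : ℕ} (f : Fin (m + 1) → F) (i : Fin (m + 1)) :
    (Pf f).coeff (i : ℕ) = f i := by
  unfold Pf
  rw [Polynomial.finsetSum_coeff]
  simp only [Polynomial.coeff_C_mul, Polynomial.coeff_X_pow]
  rw [Finset.sum_eq_single i]
  · simp
  · intro b _ hb
    rw [if_neg (fun h => hb (Fin.ext h.symm)), mul_zero]
  · intro h
    exact absurd (Finset.mem_univ _) h

theorem eval_Pf {F : Type} [CommRing F] {m : ℕ} (f : Fin (m + 1) → F) (r : F) : (Pf f).eval r = hv f r 1 := by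
  unfold Pf hv
  rw [Polynomial.eval_finsetSum]
  refine Finset.sum_congr rfl (fun i _ => ?_)
  simp

theorem eval_Pq {F : Type} [CommRing F] (v : F × F × F) (r : F) : (Pq v).eval r = qv v r 1 := by
  unfold Pq qv
  simp

theorem hv_inf {F : Type} [CommRing F] {m : ℕ} (f : Fin (m + 1) → F) : hv f 1 0 = f (Fin.last m) := by
  unfold hv
  rw [Finset.sum_eq_single (Fin.last m)]
  · simp
  · intro b _ hb
    have h : m - (b : ℕ) ≠ 0 := by
      have h1 : (b : ℕ) ≠ m := fun h => hb (Fin.ext (by simpa using h))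
      omega
    rw [zero_pow h, mul_zero]
  · intro h
    exact absurd (Finset.mem_univ _) h

/-- Proof. `Polynomial.resultant_C_mul_left`; `Pf (c f) = C c * Pf f`. -/
theorem Rs_cmul_left {F : Type} [CommRing F] {m : ℕ} (f : Fin (m + 1) → F) (v : F × F × F) (c : F) :
    Rs (fun i => c * f i) v = c ^ 2 * Rs f v := by
  have h : Pf (fun i => c * f i) = C c * Pf f := by
    unfold Pf
    rw [Finset.mul_sum]
    refine Finset.sum_congr rfl (fun i _ => ?_)
    rw [C_mul, mul_assoc]
  unfold Rs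
  rw [h, Polynomial.resultant_C_mul_left]

/-- Proof. `Polynomial.resultant_C_mul_right`. -/
theorem Rs_cmul_right {F : Type} [CommRing F] {m : ℕ} (f : Fin (m + 1) → F) (v : F × F × F) (c : F) :
    Rs f (c • v) = c ^ m * Rs f v := by
  have h : Pq (c • v) = C c * Pq v := by
    unfold Pq
    simp only [Prod.smul_fst, Prod.smul_snd, smul_eq_mul, C_mul]
    ring
  unfold Rs
  rw [h, Polynomial.resultant_C_mul_right]

theorem rs_cmul_left {F : Type} [CommRing F] (v w : F × F × F) (c : F) : rs (c • v) w = c ^ 2 * rs v w := by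
  unfold rs
  simp only [Prod.smul_fst, Prod.smul_snd, smul_eq_mul]
  ring

theorem rs_cmul_right {F : Type} [CommRing F] (v w : F × F × F) (c : F) : rs v (c • w) = c ^ 2 * rs v w := by
  unfold rs
  simp only [Prod.smul_fst, Prod.smul_snd, smul_eq_mul]
  ring

theorem ds_cmul {F : Type} [CommRing F] (v : F × F × F) (c : F) : ds (c • v) = c ^ 2 * ds v := by
  unfold ds
  simp only [Prod.smul_fst, Prod.smul_snd, smul_eq_mul]
  ring

end FQQ
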