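import Pool.Agent.Lib.MP_10e784_agF.D2
import Pool.Agent.Lib.MP_10e784_agF.RA

/-! JOB DA: the 2-descent over the integers. -/

set_option autoImplicit false

open Classical

namespace FQQ

open Finset Polynomial FGO

private theorem DA_scale (x z : ℚ) (h : ¬ (x = 0 ∧ z = 0)) :
    ∃ (c : ℚ) (x' z' : ℤ), c ≠ 0 ∧ IsCoprime x' z' ∧ x = c * x' ∧ z = c * z' := by
  set X : ℤ := x.num * z.den with hX
  set Z : ℤ := z.num * x.den with hZ
  have hxd : (x.den : ℚ) ≠ 0 := by exact_mod_cast x.den_nz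
  have hzd : (z.den : ℚ) ≠ 0 := by exact_mod_cast z.den_nz
  have hx : x * x.den = x.num := Rat.mul_den_eq_num x
  have hz : z * z.den = z.num := Rat.mul_den_eq_num z
  have hxX : x * ((x.den : ℚ) * z.den) = X := by
    rw [hX]
    push_cast
    rw [← hx]
    ring
  have hzZ : z * ((x.den : ℚ) * z.den) = Z := by
    rw [hZ]
    push_cast
    rw [← hz]
    ring
  have hne : ¬ (X = 0 ∧ Z = 0) := by
    rintro ⟨h1, h2⟩
    apply h
    constructor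
    · rw [h1, Int.cast_zero] at hxX
      exact (mul_eq_zero.1 hxX).resolve_right (mul_ne_zero hxd hzd)
    · rw [h2, Int.cast_zero] at hzZ
      exact (mul_eq_zero.1 hzZ).resolve_right (mul_ne_zero hxd hzd)
  have hg : Int.gcd X Z ≠ 0 := fun h0 => hne (Int.gcd_eq_zero_iff.1 h0)
  have hgpos : 0 < Int.gcd X Z := Nat.pos_of_ne_zero hg
  have hco := Int.isCoprime_iff_gcd_eq_one.2 (Int.gcd_ediv_gcd_ediv_gcd hgpos)
  have h1 : (Int.gcd X Z : ℤ) * (X / Int.gcd X Z) = X := Int.mul_ediv_cancel' (Int.gcd_dvd_left ..)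
  have h2 : (Int.gcd X Z : ℤ) * (Z / Int.gcd X Z) = Z := Int.mul_ediv_cancel' (Int.gcd_dvd_right ..)
  have hgq : ((Int.gcd X Z : ℕ) : ℚ) ≠ 0 := by exact_mod_cast hg
  have hD : (x.den : ℚ) * z.den ≠ 0 := mul_ne_zero hxd hzd
  refine ⟨(Int.gcd X Z : ℕ) / ((x.den : ℚ) * z.den), X / Int.gcd X Z, Z / Int.gcd X Z,
    div_ne_zero hgq hD, hco, ?_, ?_⟩
  · have h3 : ((Int.gcd X Z : ℕ) : ℚ) * ((X / Int.gcd X Z : ℤ) : ℚ) = (X : ℚ) := by
      exact_mod_cast h1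
    rw [div_mul_eq_mul_div, h3, ← hxX, mul_div_assoc, div_self hD, mul_one]
  · have h3 : ((Int.gcd X Z : ℕ) : ℚ) * ((Z / Int.gcd X Z : ℤ) : ℚ) = (Z : ℚ) := by
      exact_mod_cast h2
    rw [div_mul_eq_mul_div, h3, ← hzZ, mul_div_assoc, div_self hD, mul_one]

/-- A rational point gives a solution in coprime integers. -/
theorem to_int {m : ℕ} (hme : Even m) (f : Vn m) (u : V × V) (h : HasPt f u) :
    ∃ x z y : ℤ, IsCoprime x z ∧ y ^ 2 = hv f x z * qv u.1 x z * qv u.2 x z := by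
  obtain ⟨x, z, y, hxz, hy⟩ := h
  obtain ⟨c, x', z', hc, hco, rfl, rfl⟩ := DA_scale x z hxz
  obtain ⟨n, hn⟩ := hme
  rw [hv_smul, qv_smul, qv_smul] at hy
  set I : ℤ := hv f x' z' * qv u.1 x' z' * qv u.2 x' z' with hI
  have h1 : (I : ℚ) = hv (fun i => (f i : ℚ)) x' z' * qv ((u.1.1 : ℚ), (u.1.2.1 : ℚ), (u.1.2.2 : ℚ)) x' z' *
      qv ((u.2.1 : ℚ), (u.2.2.1 : ℚ), (u.2.2.2 : ℚ)) x' z' := by
    rw [hI]
    unfold hv qv
    push_cast
    ring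
  have h2 : y ^ 2 = (c ^ (n + 2)) ^ 2 * I := by
    have hcm : c ^ m = c ^ n * c ^ n := by rw [hn, pow_add]
    rw [hy, h1, hcm]
    ring
  have hcn : c ^ (n + 2) ≠ 0 := pow_ne_zero _ hc
  have h3 : IsSquare (I : ℚ) := by
    refine ⟨y / c ^ (n + 2), ?_⟩
    rw [← pow_two, div_pow, h2, mul_comm, mul_div_assoc, div_self (pow_ne_zero 2 hcn), mul_one]
  obtain ⟨r, hr⟩ := Rat.isSquare_intCast_iff.1 h3
  exact ⟨x', z', r, hco, by rw [pow_two, ← hr]⟩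

/-- The squarefree part of an integer. -/
theorem sqf_int (a : ℤ) (ha : a ≠ 0) : ∃ (σ : ℤ) (d k : ℕ), (σ = 1 ∨ σ = -1) ∧ Squarefree d ∧ 0 < k ∧
    a = σ * (d : ℤ) * (k : ℤ) ^ 2 := by
  obtain ⟨d, k, hd0, hk0, hdk, hd⟩ := Nat.sq_mul_squarefree_of_pos (Int.natAbs_pos.2 ha)
  have h1 : ((a.natAbs : ℕ) : ℤ) = (d : ℤ) * (k : ℤ) ^ 2 := by
    rw [← hdk]
    push_cast
    ring
  rcases Int.natAbs_eq a with h | h
  · exact ⟨1, d, k, Or.inl rfl, hd, hk0, by rw [h, h1]; ring⟩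
  · exact ⟨-1, d, k, Or.inr rfl, hd, hk0, by rw [h, h1]; ring⟩

/-- (2-descent) -/
theorem descent (X : Fin 3 → ℤ) (y : ℤ) (h : y ^ 2 = X 0 * X 1 * X 2) (h1 : X 1 ≠ 0) (h2 : X 2 ≠ 0) :
    ∃ (e : Fin 3 → ℕ) (σ : Fin 3 → ℤ) (k : Fin 3 → ℤ), (∀ i, Squarefree (e i)) ∧
      (∀ i j, i ≠ j → (e i).Coprime (e j)) ∧ (∀ i, σ i = 1 ∨ σ i = -1) ∧
      ∀ i, X i = σ i * (∏ j ∈ univ.erase i, (e j : ℤ)) * (k i) ^ 2 := by
  obtain ⟨s1, d1, k1, hs1, hd1, hk1, hX1⟩ := sqf_int _ h1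
  obtain ⟨s2, d2, k2, hs2, hd2, hk2, hX2⟩ := sqf_int _ h2
  obtain ⟨g, a, b, hgpos, hab, ha, hb⟩ : ∃ g a b : ℕ, 0 < g ∧ a.Coprime b ∧ d1 = a * g ∧ d2 = b * g := by
    have hg : 0 < Nat.gcd d1 d2 := Nat.gcd_pos_of_pos_left _ (Nat.pos_of_ne_zero hd1.ne_zero)
    obtain ⟨a, b, hab, ha, hb⟩ := Nat.exists_coprime d1 d2
    exact ⟨Nat.gcd d1 d2, a, b, hg, hab, ha, hb⟩
  subst ha hb
  obtain ⟨hag, hsa, hsg⟩ := Nat.squarefree_mul_iff.1 hd1
  obtain ⟨hbg, hsb, _⟩ := Nat.squarefree_mul_iff.1 hd2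
  have hsab : Squarefree (a * b) := Nat.squarefree_mul_iff.2 ⟨hab, hsa, hsb⟩
  have hs1s : s1 * s1 = 1 := by rcases hs1 with rfl | rfl <;> norm_num
  have hs2s : s2 * s2 = 1 := by rcases hs2 with rfl | rfl <;> norm_num
  -- the first division
  have hq0 : ((g : ℤ) * k1 * k2) ≠ 0 := by
    have : 0 < g * k1 * k2 := Nat.mul_pos (Nat.mul_pos hgpos hk1) hk2
    exact_mod_cast this.ne'
  have hy2 : y ^ 2 = X 0 * (s1 * s2) * ((a : ℤ) * b) * ((g : ℤ) * k1 * k2) ^ 2 := by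
    rw [h, hX1, hX2]
    push_cast
    ring
  have hdvd : ((g : ℤ) * k1 * k2) ∣ y := by
    rw [← Int.pow_dvd_pow_iff (two_ne_zero), hy2]
    exact dvd_mul_left _ _
  obtain ⟨y', rfl⟩ := hdvd
  have hy' : y' ^ 2 = X 0 * (s1 * s2) * ((a : ℤ) * b) := by
    have h3 : ((g : ℤ) * k1 * k2) ^ 2 * y' ^ 2 =
        ((g : ℤ) * k1 * k2) ^ 2 * (X 0 * (s1 * s2) * ((a : ℤ) * b)) := by
      rw [← mul_pow, hy2]
      ring
    exact mul_left_cancel₀ (pow_ne_zero 2 hq0) h3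
  -- the second division
  have hdvd' : ((a : ℤ) * b) ∣ y' := by
    have h3 : (a * b : ℕ) ∣ y'.natAbs ^ 2 := by
      rw [← Int.natAbs_pow, hy', Int.natAbs_mul]
      have h4 : ((a : ℤ) * b).natAbs = a * b := by
        rw [Int.natAbs_mul, Int.natAbs_natCast, Int.natAbs_natCast]
      rw [h4]
      exact dvd_mul_left _ _
    have h5 : (a * b : ℕ) ∣ y'.natAbs := (hsab.dvd_pow_iff_dvd two_ne_zero).1 h3
    have h6 := Int.natCast_dvd.2 h5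
    rwa [Nat.cast_mul] at h6
  obtain ⟨k0, rfl⟩ := hdvd'
  have hab0 : ((a : ℤ) * b) ≠ 0 := by
    have : a * b ≠ 0 := hsab.ne_zero
    exact_mod_cast this
  have h7 : X 0 * (s1 * s2) = ((a : ℤ) * b) * k0 ^ 2 := by
    have h8 : ((a : ℤ) * b) * (X 0 * (s1 * s2)) = ((a : ℤ) * b) * (((a : ℤ) * b) * k0 ^ 2) := by
      rw [mul_comm, ← hy']
      ring
    exact mul_left_cancel₀ hab0 h8
  have hX0 : X 0 = s1 * s2 * ((b : ℤ) * a) * k0 ^ 2 := by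
    linear_combination (s1 * s2) * h7 - (X 0 * (s2 * s2)) * hs1s - X 0 * hs2s
  have he0 : (univ.erase (0 : Fin 3)) = {1, 2} := by decide
  have he1 : (univ.erase (1 : Fin 3)) = {0, 2} := by decide
  have he2 : (univ.erase (2 : Fin 3)) = {0, 1} := by decide
  refine ⟨![g, b, a], ![s1 * s2, s1, s2], ![k0, k1, k2], ?_, ?_, ?_, ?_⟩
  · intro i
    fin_cases i
    · exact hsg
    · exact hsb
    · exact hsa
  · intro i j hij
    fin_cases i <;> fin_cases j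
    · exact absurd rfl hij
    · exact hbg.symm
    · exact hag.symm
    · exact hbg
    · exact absurd rfl hij
    · exact hab.symm
    · exact hag
    · exact hab
    · exact absurd rfl hij
  · intro i
    fin_cases i
    · rcases hs1 with rfl | rfl <;> rcases hs2 with rfl | rfl <;> simp
    · exact hs1
    · exact hs2
  · intro i
    fin_cases i
    · show X 0 = s1 * s2 * (∏ j ∈ univ.erase (0 : Fin 3), (((![g, b, a] : Fin 3 → ℕ) j : ℕ) : ℤ)) * k0 ^ 2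
      rw [he0, prod_pair (by decide)]
      exact hX0
    · show X 1 = s1 * (∏ j ∈ univ.erase (1 : Fin 3), (((![g, b, a] : Fin 3 → ℕ) j : ℕ) : ℤ)) * (k1 : ℤ) ^ 2
      rw [he1, prod_pair (by decide), hX1]
      show s1 * ((a * g : ℕ) : ℤ) * (k1 : ℤ) ^ 2 = s1 * ((g : ℤ) * (a : ℤ)) * (k1 : ℤ) ^ 2
      push_cast
      ring
    · show X 2 = s2 * (∏ j ∈ univ.erase (2 : Fin 3), (((![g, b, a] : Fin 3 → ℕ) j : ℕ) : ℤ)) * (k2 : ℤ) ^ 2
      rw [he2, prod_pair (by decide), hX2]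
      show s2 * ((b * g : ℕ) : ℤ) * (k2 : ℤ) ^ 2 = s2 * ((g : ℤ) * (b : ℤ)) * (k2 : ℤ) ^ 2
      push_cast
      ring

end FQQ
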