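import Pool.Agent.Lib.MP_10e784_agF.Defs

/-! JOB DB -/

set_option autoImplicit false

open Classical

namespace FQQ

open Finset Polynomial FGO

/-- the part of `s` composed of the primes `> z` -/
def rpart (z s : ℕ) : ℕ := ∏ p ∈ s.primeFactors.filter (fun p => z < p), p

/-- the part of `s` composed of the primes `≤ P0` -/
def spart (P0 s : ℕ) : ℕ := ∏ p ∈ s.primeFactors.filter (fun p => p ≤ P0), p

/-- products of primes from a set of primes -/
private theorem DB_sqf {S : Finset ℕ} (hS : ∀ p ∈ S, p.Prime) : Squarefree (∏ p ∈ S, p) := by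
  refine Finset.squarefree_prod_of_pairwise_isCoprime (fun p hp q hq hpq ↦ ?_)
    (fun p hp => (hS p hp).squarefree)
  exact Nat.coprime_iff_isRelPrime.1 ((Nat.coprime_primes (hS p hp) (hS q hq)).2 hpq)

private theorem DB_dvd {S : Finset ℕ} (hS : ∀ p ∈ S, p.Prime) {p : ℕ} (hp : p.Prime) :
    p ∣ ∏ q ∈ S, q ↔ p ∈ S := by
  constructor
  · intro h
    obtain ⟨q, hq, hpq⟩ := (hp.prime.dvd_finsetProd_iff _).1 h
    rw [(Nat.prime_dvd_prime_iff_eq hp (hS q hq)).1 hpq]
    exact hq
  · intro h
    exact Finset.dvd_prod_of_mem _ h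

private theorem DB_prod_dvd {S : Finset ℕ} {n : ℕ} (hS : ∀ p ∈ S, p.Prime) (h : ∀ p ∈ S, p ∣ n) :
    ∏ p ∈ S, p ∣ n :=
  Finset.prod_primes_dvd n (fun p hp => (hS p hp).prime) h

/-- Proof. A squarefree number is the product of its prime factors (`Nat.prod_primeFactors_of_squarefree`); split them into `p ≤ P0`, `P0 < p ≤ z`, `z < p`. -/
theorem split3 (s P0 z : ℕ) (hs : Squarefree s) (h : P0 ≤ z) :
    s = spart P0 s * (∏ p ∈ s.primeFactors.filter (fun p => P0 < p ∧ p ≤ z), p) * rpart z s := by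
  have h1 := Nat.prod_primeFactors_of_squarefree hs
  conv_lhs => rw [← h1]
  rw [← Finset.prod_filter_mul_prod_filter_not s.primeFactors (fun p => p ≤ P0),
    ← Finset.prod_filter_mul_prod_filter_not (s.primeFactors.filter (fun p => ¬ p ≤ P0))
      (fun p => p ≤ z), Finset.filter_filter, Finset.filter_filter, mul_assoc]
  unfold spart rpart
  congr 1
  congr 1
  · refine Finset.prod_congr (Finset.filter_congr fun p _ => ?_) fun _ _ => rfl
    rw [not_le]
  · refine Finset.prod_congr (Finset.filter_congr fun p _ => ?_) fun _ _ => rfl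
    rw [not_le, not_le]
    exact ⟨fun h2 => h2.2, fun h2 => ⟨lt_of_le_of_lt h h2, h2⟩⟩

/-- Proof. The primes `p ≤ P0` divide `primorial P0 = ∏ p ∈ (range (P0+1)).filter Nat.Prime, p`; product over a subset. -/
theorem spart_dvd (P0 s : ℕ) : spart P0 s ∣ primorial P0 := by
  unfold spart primorial
  apply Finset.prod_dvd_prod_of_subset
  intro p hp
  rw [Finset.mem_filter] at hp ⊢
  rw [Finset.mem_range]
  exact ⟨by omega, Nat.prime_of_mem_primeFactors hp.1⟩

/-- Proof. Products of distinct primes are squarefree (`Finset.squarefree_prod_of_pairwise_isCoprime` or induction), and every prime factor is one of them. -/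
theorem rpart_spec (z s : ℕ) : Squarefree (rpart z s) ∧ 0 < rpart z s ∧ (∀ p : ℕ, p.Prime → (p ∣ rpart z s ↔ p ∈ s.primeFactors ∧ z < p)) ∧
    (Squarefree s → rpart z s ∣ s) := by
  have hS : ∀ p ∈ s.primeFactors.filter (fun p => z < p), p.Prime := fun p hp =>
    Nat.prime_of_mem_primeFactors (Finset.mem_filter.1 hp).1
  refine ⟨DB_sqf hS, Finset.prod_pos fun p hp => (hS p hp).pos, fun p hp => ?_, fun _ => ?_⟩
  · unfold rpart
    rw [DB_dvd hS hp, Finset.mem_filter]
  · unfold rpart
    exact DB_prod_dvd hS fun p hp => Nat.dvd_of_mem_primeFactors (Finset.mem_filter.1 hp).1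

/-- the choice of the type of a modulus.
Proof. If `(rpart z e)² ≤ |R|` take `t = false`, `s = e`, `k = 1`. Otherwise `t = true`: `|R| e = s k²` with `s` squarefree (`Nat.sq_mul_squarefree`). A prime `p ∣ s` divides `|R| e`, so `p ∣ R` (by `hd` if `p ∣ e`).
`rpart z s * rpart z e ∣ |R|`: both are squarefree; a prime `p ∣ rpart z s` or `p ∣ rpart z e` divides `R`; if it divides both then `p ∣ e` exactly once and `v_p(|R| e)` is odd, so `v_p(R)` is even and positive: `p² ∣ R` (write it with
`Nat.factorization`: `factorization` of the product is `≤` that of `|R|`). So `rpart z s * rpart z e ≤ |R| < (rpart z e)²`, `rpart z s < rpart z e`, `(rpart z s)² < rpart z s * rpart z e ≤ |R|` (if `rpart z s > 0`).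
Last claim: `v_p(R) = 1`; `v_p(s)` is odd iff `v_p(|R| e) = 1 + v_p(e)` is odd iff `p ∤ e` (`v_p(e) ≤ 1`). -/
theorem type_choice (R : ℤ) (hR : R ≠ 0) (e : ℕ) (he : Squarefree e) (hd : ∀ p : ℕ, p.Prime → p ∣ e → (p : ℤ) ∣ R)
    (z : ℕ) : ∃ (t : Bool) (s k : ℕ), Squarefree s ∧ 0 < k ∧ (if t then R.natAbs * e else e) = s * k ^ 2 ∧
      (∀ p : ℕ, p.Prime → p ∣ s → (p : ℤ) ∣ R) ∧ rpart z s ^ 2 ≤ R.natAbs ∧ (t = false → s = e) ∧
      (t = true → ∀ p : ℕ, p.Prime → (p : ℤ) ∣ R → ¬ (p : ℤ) ^ 2 ∣ R → (p ∣ s ↔ ¬ p ∣ e)) := by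
  have hA : 0 < R.natAbs := Int.natAbs_pos.2 hR
  have hz : ∀ p : ℕ, (p : ℤ) ∣ R ↔ p ∣ R.natAbs := fun p => Int.natCast_dvd
  have hz2 : ∀ p : ℕ, (p : ℤ) ^ 2 ∣ R ↔ p ^ 2 ∣ R.natAbs := by
    intro p
    rw [← Int.natCast_dvd, Nat.cast_pow]
  by_cases hcase : rpart z e ^ 2 ≤ R.natAbs
  · refine ⟨false, e, 1, he, one_pos, ?_, hd, hcase, fun _ => rfl, fun h => ?_⟩
    · simp
    · exact absurd h (by decide)
  · rw [not_le] at hcase
    have heA : e ∣ R.natAbs := by
      rw [← Nat.prod_primeFactors_of_squarefree he]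
      refine DB_prod_dvd (fun p hp => Nat.prime_of_mem_primeFactors hp) fun p hp => ?_
      exact (hz p).1 (hd p (Nat.prime_of_mem_primeFactors hp) (Nat.dvd_of_mem_primeFactors hp))
    obtain ⟨B, hB⟩ := heA
    have hB0 : 0 < B := by
      rcases Nat.eq_zero_or_pos B with h | h
      · rw [h, mul_zero] at hB
        omega
      · exact h
    obtain ⟨s, k, hsk, hs⟩ := Nat.sq_mul_squarefree B
    have he0 : 0 < e := Nat.pos_of_ne_zero he.ne_zero
    have hk0 : 0 < k := by
      rcases Nat.eq_zero_or_pos k with h | h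
      · rw [h] at hsk
        rw [← hsk] at hB0
        simp at hB0
      · exact h
    have hsB : s ∣ B := ⟨k ^ 2, by rw [← hsk, mul_comm]⟩
    refine ⟨true, s, e * k, hs, Nat.mul_pos he0 hk0, ?_, ?_, ?_, ?_, ?_⟩
    · rw [if_pos rfl, hB, ← hsk]
      ring
    · intro p _ hps
      rw [hz, hB]
      exact (hps.trans hsB).mul_left e
    · obtain ⟨_, hw0, _, hwd⟩ := rpart_spec z e
      obtain ⟨_, hu0, _, hud⟩ := rpart_spec z s
      have h1 : rpart z e * rpart z s ∣ R.natAbs := by
        rw [hB]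
        exact Nat.mul_dvd_mul (hwd he) ((hud hs).trans hsB)
      have h2 := Nat.le_of_dvd hA h1
      have h3 : rpart z s ≤ rpart z e := by
        by_contra h4
        rw [not_le] at h4
        have h5 : rpart z e ^ 2 ≤ rpart z e * rpart z s := by
          rw [pow_two]
          exact Nat.mul_le_mul_left _ h4.le
        omega
      calc rpart z s ^ 2 = rpart z s * rpart z s := pow_two _
        _ ≤ rpart z e * rpart z s := Nat.mul_le_mul_right _ h3
        _ ≤ R.natAbs := h2
    · intro h
      exact absurd h (by decide)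
    · intro _ p hp hpR hpR2
      rw [hz] at hpR
      rw [hz2] at hpR2
      constructor
      · intro hps hpe
        apply hpR2
        rw [hB, pow_two]
        exact Nat.mul_dvd_mul hpe (hps.trans hsB)
      · intro hpe
        rw [hB] at hpR
        rcases hp.dvd_mul.1 hpR with h | h
        · exact absurd h hpe
        · rw [← hsk] at h
          rcases hp.dvd_mul.1 h with h2 | h2
          · exfalso
            apply hpR2
            have h3 : p ∣ k := hp.dvd_of_dvd_pow h2
            rw [hB, ← hsk]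
            exact ((pow_dvd_pow_of_dvd h3 2).mul_right s).mul_left e
          · exact h2

end FQQ
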