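import Pool.Agent.Lib.MP_10e784_agF.RB

/-! JOB RC -/

set_option autoImplicit false

open Classical

namespace FQQ

open Finset Polynomial FGO

/-- Proof. `Polynomial.exists_mul_add_mul_eq_C_resultant` gives `Pf f * p + Pq v * q = C (Rs f v)`; evaluate at `r`. -/
theorem dvd_Rs {m : ℕ} (D : ℤ) (f : Vn m) (v : V) (r : ℤ) (h1 : D ∣ evn f r) (h2 : D ∣ ev v r) : D ∣ Rs f v := by
  obtain ⟨p, q, _, _, h⟩ := exists_mul_add_mul_eq_C_resultant (Pf f) (Pq v) (natDegree_Pf f)
    (natDegree_Pq v) (Or.inr two_ne_zero)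
  have h3 := congrArg (Polynomial.eval r) h
  rw [eval_add, eval_mul, eval_mul, eval_C, eval_Pf, eval_Pq, ← evn_eq, ← ev_eq] at h3
  change evn f r * eval r p + ev v r * eval r q = Rs f v at h3
  rw [← h3]
  exact dvd_add (h1.mul_right _) (h2.mul_right _)

/-- Proof. `res v w` is a combination: with `r`: `a_v^2 ...`; simplest: if `D ∣ v(r)`, `D ∣ w(r)` write `v.2.2 = - (v.1 r^2 + v.2.1 r) + D k`, the same for `w`, substitute into `rs v w`; it vanishes for `k = k' = 0`
(common root `r`), so `rs v w = D * (...)` (find the cofactor, `ring`). -/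
theorem dvd_rs (D : ℤ) (v w : V) (r : ℤ) (h1 : D ∣ ev v r) (h2 : D ∣ ev w r) : D ∣ rs v w := by
  obtain ⟨v1, v2, v3⟩ := v
  obtain ⟨w1, w2, w3⟩ := w
  obtain ⟨k, hk⟩ := h1
  obtain ⟨k', hk'⟩ := h2
  simp only [ev] at hk hk'
  have hv3 : v3 = D * k - v1 * r ^ 2 - v2 * r := by linear_combination hk
  have hw3 : w3 = D * k' - w1 * r ^ 2 - w2 * r := by linear_combination hk'
  subst hv3 hw3
  refine ⟨D * (v1 * k' - w1 * k) ^ 2 - 2 * (v1 * k' - w1 * k) * r * (v1 * w2 - w1 * v2)
    - (v1 * w2 - w1 * v2) * (v2 * k' - w2 * k), ?_⟩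
  simp only [rs]
  ring

/-- a common zero over a field makes the resultant vanish.
Proof. If `z ≠ 0`: `r = x/z` is a root of both polynomials (`hv_smul`, `qv_smul`), evaluate `exists_mul_add_mul_eq_C_resultant` at `r`. If `z = 0` then `x ≠ 0`, so the coefficient `f m = 0` and `v.1 = 0`, the degrees are
`< m` (`m ≥ 1`) and `< 2`: `Polynomial.resultant_eq_zero_of_lt_lt`. -/
theorem Rs_zero_of_root {F : Type} [Field F] {m : ℕ} (hm : 1 ≤ m) (f : Fin (m + 1) → F) (v : F × F × F) (x z : F)
    (h : ¬ (x = 0 ∧ z = 0)) (h1 : hv f x z = 0) (h2 : qv v x z = 0) : Rs f v = 0 := by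
  by_cases hz : z = 0
  · have hx : x ≠ 0 := fun h0 => h ⟨h0, hz⟩
    have e1 := hv_smul f x 1 0
    rw [mul_one, mul_zero, hv_inf] at e1
    rw [hz] at h1 h2
    rw [h1] at e1
    have hfm : f (Fin.last m) = 0 := by
      rcases mul_eq_zero.1 e1.symm with h3 | h3
      · exact absurd h3 (pow_ne_zero _ hx)
      · exact h3
    have hv1 : v.1 = 0 := by
      have h3 : v.1 * x ^ 2 = 0 := by
        simp only [qv] at h2
        linear_combination h2
      rcases mul_eq_zero.1 h3 with h4 | h4
      · exact h4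
      · exact absurd h4 (pow_ne_zero _ hx)
    have hd1 : (Pf f).natDegree < m := by
      refine lt_of_le_of_ne (natDegree_Pf f) fun h3 => ?_
      have h4 := coeff_Pf f (Fin.last m)
      rw [hfm, Fin.val_last] at h4
      have h5 : (Pf f).leadingCoeff = 0 := by
        rw [leadingCoeff, h3]
        exact h4
      rw [leadingCoeff_eq_zero] at h5
      rw [h5, natDegree_zero] at h3
      omega
    have hd2 : (Pq v).natDegree < 2 := by
      have h3 : Pq v = C v.2.1 * X + C v.2.2 := by
        unfold Pq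
        rw [hv1, C_0, zero_mul, zero_add]
      rw [h3]
      exact lt_of_le_of_lt natDegree_linear_le one_lt_two
    exact resultant_eq_zero_of_lt_lt _ _ _ _ hd1 hd2
  · have e1 := hv_smul f z (x / z) 1
    have e2 := qv_smul v z (x / z) 1
    rw [mul_div_cancel₀ x hz, mul_one, h1] at e1
    rw [mul_div_cancel₀ x hz, mul_one, h2] at e2
    have e3 : hv f (x / z) 1 = 0 := by
      rcases mul_eq_zero.1 e1.symm with h3 | h3
      · exact absurd h3 (pow_ne_zero _ hz)
      · exact h3
    have e4 : qv v (x / z) 1 = 0 := by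
      rcases mul_eq_zero.1 e2.symm with h3 | h3
      · exact absurd h3 (pow_ne_zero _ hz)
      · exact h3
    obtain ⟨p, q, _, _, h⟩ := exists_mul_add_mul_eq_C_resultant (Pf f) (Pq v) (natDegree_Pf f)
      (natDegree_Pq v) (Or.inr two_ne_zero)
    have h3 := congrArg (Polynomial.eval (x / z)) h
    rw [eval_add, eval_mul, eval_mul, eval_C, eval_Pf, eval_Pq, e3, e4, zero_mul, zero_mul,
      add_zero] at h3
    exact h3.symm

/-- Proof. If `z ≠ 0` as in `dvd_rs` with `r = x/z`; if `z = 0`: `v.1 = w.1 = 0`, `ring`. -/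
theorem rs_zero_of_root {F : Type} [Field F] (v w : F × F × F) (x z : F)
    (h : ¬ (x = 0 ∧ z = 0)) (h1 : qv v x z = 0) (h2 : qv w x z = 0) : rs v w = 0 := by
  obtain ⟨v1, v2, v3⟩ := v
  obtain ⟨w1, w2, w3⟩ := w
  by_cases hz : z = 0
  · have hx : x ≠ 0 := fun h0 => h ⟨h0, hz⟩
    simp only [qv] at h1 h2
    have hv1 : v1 = 0 := by
      have h3 : v1 * x ^ 2 = 0 := by
        rw [hz] at h1
        linear_combination h1
      rcases mul_eq_zero.1 h3 with h4 | h4
      · exact h4
      · exact absurd h4 (pow_ne_zero _ hx)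
    have hw1 : w1 = 0 := by
      have h3 : w1 * x ^ 2 = 0 := by
        rw [hz] at h2
        linear_combination h2
      rcases mul_eq_zero.1 h3 with h4 | h4
      · exact h4
      · exact absurd h4 (pow_ne_zero _ hx)
    simp only [rs]
    rw [hv1, hw1]
    ring
  · have e1 := qv_smul (v1, v2, v3) z (x / z) 1
    have e2 := qv_smul (w1, w2, w3) z (x / z) 1
    rw [mul_div_cancel₀ x hz, mul_one, h1] at e1
    rw [mul_div_cancel₀ x hz, mul_one, h2] at e2
    have e3 : qv (v1, v2, v3) (x / z) 1 = 0 := by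
      rcases mul_eq_zero.1 e1.symm with h3 | h3
      · exact absurd h3 (pow_ne_zero _ hz)
      · exact h3
    have e4 : qv (w1, w2, w3) (x / z) 1 = 0 := by
      rcases mul_eq_zero.1 e2.symm with h3 | h3
      · exact absurd h3 (pow_ne_zero _ hz)
      · exact h3
    simp only [qv] at e3 e4
    have hv3 : v3 = - v1 * (x / z) ^ 2 - v2 * (x / z) := by linear_combination e3
    have hw3 : w3 = - w1 * (x / z) ^ 2 - w2 * (x / z) := by linear_combination e4
    simp only [rs]
    rw [hv3, hw3]
    ring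

/-- Proof. `fin_cases i`, the two lemmas above. -/
theorem Rv_zero_of_E {F : Type} [Field F] {m : ℕ} (hm : 1 ≤ m) (f : Fin (m + 1) → F) (v w : F × F × F) (i : Fin 3)
    (h : E f v w i) : Rv f v w i = 0 := by
  obtain ⟨x, z, hxz, hj⟩ := h
  fin_cases i
  · exact rs_zero_of_root v w x z hxz (hj 1 (by decide)) (hj 2 (by decide))
  · exact Rs_zero_of_root hm f w x z hxz (hj 0 (by decide)) (hj 2 (by decide))
  · exact Rs_zero_of_root hm f v x z hxz (hj 0 (by decide)) (hj 1 (by decide))

/-- the resultant with a split quadratic form, over any commutative ring.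
Proof. `Pq (a, -(a(r+s)), a r s) = C a * ((X - C r) * (X - C s))`; `Polynomial.resultant_C_mul_right`, `Polynomial.resultant_mul_right` (natDegree of `X - C r` is `1` if the ring is nontrivial; the trivial ring is trivial),
`Polynomial.resultant_X_sub_C_right` (signs `(-1)^m (-1)^m = 1`). -/
theorem Rs_split {F : Type} [CommRing F] {m : ℕ} (f : Fin (m + 1) → F) (a r s : F) :
    Rs f (a, -(a * (r + s)), a * r * s) = a ^ m * hv f r 1 * hv f s 1 := by
  nontriviality F
  have h1 : Pq (a, -(a * (r + s)), a * r * s) = C a * ((X - C r) * (X - C s)) := by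
    simp only [Pq, map_neg, map_mul, map_add]
    ring
  have h2 := resultant_mul_right (Pf f) (X - C r) (X - C s) m (natDegree_Pf f)
  rw [natDegree_X_sub_C, natDegree_X_sub_C, resultant_X_sub_C_right _ _ _ (natDegree_Pf f),
    resultant_X_sub_C_right _ _ _ (natDegree_Pf f), eval_Pf, eval_Pf] at h2
  have h3 : ((-1 : F) ^ m) * (-1) ^ m = 1 := by
    rw [← mul_pow, neg_one_mul, neg_neg, one_pow]
  unfold Rs
  rw [h1, resultant_C_mul_right]
  have h4 : (Pf f).resultant ((X - C r) * (X - C s)) m 2 = (-1) ^ m * hv f r 1 * ((-1) ^ m * hv f s 1) := h2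
  rw [h4]
  linear_combination (a ^ m * hv f r 1 * hv f s 1) * h3

theorem rs_split {F : Type} [CommRing F] (w : F × F × F) (a r s : F) :
    rs (a, -(a * (r + s)), a * r * s) w = a ^ 2 * qv w r 1 * qv w s 1 := by
  simp only [rs, qv]
  ring

end FQQ
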