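import Pool.Agent.Lib.MP_10e784_agF.D2
import Pool.Agent.Lib.MP_10e784_agF.DB
import Pool.Agent.Lib.MP_10e784_agF.RC

/-! JOB DC -/

set_option autoImplicit false

open Classical

namespace FQQ

open Finset Polynomial FGO

/-- the integral version of `Kc` -/
noncomputable def KI {m : ℕ} (t : Fin 3 → Bool) (U : Fin 3 → ℤ) (f : Vn m) (u : V × V) (i : Fin 3) : ℤ :=
  U i * ∏ j ∈ univ.erase i, if t j then Rv f u.1 u.2 j else 1

/-- Proof. `Rv_cast`, casts of products. -/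
theorem KI_cast {m : ℕ} (q : ℕ) (t : Fin 3 → Bool) (U : Fin 3 → ℤ) (f : Vn m) (u : V × V) (i : Fin 3) :
    ((KI t U f u i : ℤ) : ZMod q) = Kc t (fun i => (U i : ZMod q)) (cN q f) (cV q u.1) (cV q u.2) i := by
  unfold KI Kc
  rw [Int.cast_mul, Int.cast_prod]
  congr 1
  refine Finset.prod_congr rfl fun j _ => ?_
  split_ifs
  · exact Rv_cast q f u.1 u.2 j
  · exact Int.cast_one

/-- the products `K i * (∏_{j ≠ i} e j)` are squares up to sign.
Proof. `|R j|^{t j} e j = s j k_j²` (`R j ≠ 0`), so `s j e j R_j^{t j} = ± (s j k_j)²`; `τ i` is `σ i` times the product of the signs of the `R j` with `j ≠ i`, `t j = true`. Then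
`KI .. i * (σ i ∏ e j) = (∏_{j ≠ i} s j k_j)²` (`τ i * σ i * signs = 1`). -/
theorem KI_sq {m : ℕ} (f : Vn m) (u : V × V) (hR : ∀ i, Rv f u.1 u.2 i ≠ 0) (e s k : Fin 3 → ℕ) (t : Fin 3 → Bool)
    (σ : Fin 3 → ℤ) (hσ : ∀ i, σ i = 1 ∨ σ i = -1)
    (h : ∀ j, (if t j then (Rv f u.1 u.2 j).natAbs * e j else e j) = s j * (k j) ^ 2) :
    ∃ τ : Fin 3 → ℤ, (∀ i, τ i = 1 ∨ τ i = -1) ∧ ∀ i, ∃ c : ℤ,
      KI t (fun i => τ i * ∏ j ∈ univ.erase i, (s j : ℤ)) f u i * (σ i * ∏ j ∈ univ.erase i, (e j : ℤ)) = c ^ 2 := by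
  have hsg : ∀ j, ∃ g : ℤ, g * g = 1 ∧ (if t j then Rv f u.1 u.2 j else 1) * (e j : ℤ) =
      g * ((s j : ℤ) * (k j : ℤ) ^ 2) := by
    intro j
    have h1 := h j
    by_cases ht : t j = true
    · rw [if_pos ht] at h1
      have h2 : |Rv f u.1 u.2 j| * (e j : ℤ) = (s j : ℤ) * (k j : ℤ) ^ 2 := by
        rw [← Int.natCast_natAbs]
        exact_mod_cast h1
      rw [if_pos ht, ← h2]
      rcases lt_or_gt_of_ne (hR j) with h3 | h3
      · refine ⟨-1, by norm_num, ?_⟩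
        rw [abs_of_neg h3]
        ring
      · refine ⟨1, by norm_num, ?_⟩
        rw [abs_of_pos h3, one_mul]
    · rw [if_neg ht] at h1
      rw [if_neg ht]
      refine ⟨1, by norm_num, ?_⟩
      rw [one_mul, one_mul]
      exact_mod_cast h1
  choose sg hsg1 hkey using hsg
  have hpp : ∀ i : Fin 3, (∏ j ∈ univ.erase i, sg j) * ∏ j ∈ univ.erase i, sg j = 1 := by
    intro i
    rw [← Finset.prod_mul_distrib]
    exact Finset.prod_eq_one fun j _ => hsg1 j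
  have hσ1 : ∀ i, σ i * σ i = 1 := by
    intro i
    rcases hσ i with h1 | h1 <;> rw [h1] <;> norm_num
  refine ⟨fun i => σ i * ∏ j ∈ univ.erase i, sg j, fun i => ?_, fun i =>
    ⟨∏ j ∈ univ.erase i, ((s j : ℤ) * (k j : ℤ)), ?_⟩⟩
  · rw [← mul_self_eq_one_iff]
    simp only
    linear_combination (∏ j ∈ univ.erase i, sg j) ^ 2 * hσ1 i + hpp i
  · unfold KI
    simp only
    have e1 : (∏ j ∈ univ.erase i, if t j then Rv f u.1 u.2 j else 1) * ∏ j ∈ univ.erase i, (e j : ℤ) =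
        (∏ j ∈ univ.erase i, sg j) * ∏ j ∈ univ.erase i, ((s j : ℤ) * (k j : ℤ) ^ 2) := by
      rw [← Finset.prod_mul_distrib, ← Finset.prod_mul_distrib]
      exact Finset.prod_congr rfl fun j _ => hkey j
    have e2 : (∏ j ∈ univ.erase i, (s j : ℤ)) * ∏ j ∈ univ.erase i, ((s j : ℤ) * (k j : ℤ) ^ 2) =
        (∏ j ∈ univ.erase i, ((s j : ℤ) * (k j : ℤ))) ^ 2 := by
      rw [← Finset.prod_mul_distrib, ← Finset.prod_pow]
      refine Finset.prod_congr rfl fun j _ => ?_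
      ring
    rw [← e2]
    set A := ∏ j ∈ univ.erase i, sg j
    set B := ∏ j ∈ univ.erase i, (s j : ℤ)
    set P := ∏ j ∈ univ.erase i, ((s j : ℤ) * (k j : ℤ) ^ 2)
    linear_combination (A * B * σ i * σ i) * e1 + (A * A * B * P) * hσ1 i + (B * P) * hpp i

/-- Proof. `KI * X = (c k)²`, an integer square which is nonzero modulo `p`. -/
theorem sq_of {p : ℕ} (hp : p.Prime) (K X d k c : ℤ) (h1 : K * d = c ^ 2) (h2 : X = d * k ^ 2) (hK : ¬ (p : ℤ) ∣ K)
    (hX : ¬ (p : ℤ) ∣ X) : Sq ((K : ZMod p) * (X : ZMod p)) := by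
  have := Fact.mk hp
  have hK' : (K : ZMod p) ≠ 0 := fun h => hK ((ZMod.intCast_zmod_eq_zero_iff_dvd K p).1 h)
  have hX' : (X : ZMod p) ≠ 0 := fun h => hX ((ZMod.intCast_zmod_eq_zero_iff_dvd X p).1 h)
  refine ⟨mul_ne_zero hK' hX', (((c * k : ℤ)) : ZMod p), ?_⟩
  have h3 : K * X = (c * k) * (c * k) := by
    rw [h2]
    linear_combination k ^ 2 * h1
  rw [← Int.cast_mul, ← Int.cast_mul, h3]

/-- a value of a quadratic form at a coprime pair is divisible at most once by a prime dividing the discriminant exactly once.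
Proof. `4 a X = (2 a x + b z)² - ds z²`, `4 c X = (2 c z + b x)² - ds x²`. If `p² ∣ X`: `p ∣ 2 a x + b z`, so `p² ∣ ds z²`, and `p² ∤ ds`: `p ∣ z`; in the same way `p ∣ x`: contradiction. -/
theorem val_once {p : ℕ} (hp : p.Prime) (q : V) (h1 : (p : ℤ) ∣ ds q) (h2 : ¬ (p : ℤ) ^ 2 ∣ ds q) (x z : ℤ)
    (hxz : IsCoprime x z) : ¬ (p : ℤ) ^ 2 ∣ qv q x z := by
  have hp' : Prime (p : ℤ) := Nat.prime_iff_prime_int.1 hp
  intro hX
  have key : ∀ (y w α : ℤ), 4 * α * qv q x z = w ^ 2 - ds q * y ^ 2 → (p : ℤ) ∣ y := by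
    intro y w α h
    have h3 : (p : ℤ) ∣ w ^ 2 := by
      have h4 : w ^ 2 = 4 * α * qv q x z + ds q * y ^ 2 := by linear_combination -h
      rw [h4]
      exact dvd_add (Dvd.dvd.mul_left ((dvd_pow_self _ two_ne_zero).trans hX) _)
        (Dvd.dvd.mul_right h1 _)
    have h4 : (p : ℤ) ^ 2 ∣ w ^ 2 := pow_dvd_pow_of_dvd (hp'.dvd_of_dvd_pow h3) 2
    have h5 : (p : ℤ) ^ 2 ∣ ds q * y ^ 2 := by
      have h6 : ds q * y ^ 2 = w ^ 2 - 4 * α * qv q x z := by linear_combination h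
      rw [h6]
      exact dvd_sub h4 (Dvd.dvd.mul_left hX _)
    obtain ⟨m, hm⟩ := h1
    have h6 : (p : ℤ) ∣ m * y ^ 2 := by
      rw [hm, pow_two, mul_assoc] at h5
      exact (mul_dvd_mul_iff_left hp'.ne_zero).1 h5
    rcases hp'.dvd_or_dvd h6 with h7 | h7
    · exfalso
      apply h2
      rw [hm, pow_two]
      exact mul_dvd_mul_left _ h7
    · exact hp'.dvd_of_dvd_pow h7
  have hz := key z (2 * q.1 * x + q.2.1 * z) q.1 (by unfold qv ds; ring)
  have hx := key x (2 * q.2.2 * z + q.2.1 * x) q.2.2 (by unfold qv ds; ring)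
  exact hp'.not_isUnit (hxz.isUnit_of_dvd' hx hz)

end FQQ
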