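import Pool.Agent.Lib.MP_10e784_agF.DA

/-! JOB DS: points of the coverings. -/

set_option autoImplicit false

open Classical

namespace FQQ

open Finset Polynomial FGO

/-- the values of the forms and ring homomorphisms -/
private theorem DS_map {F K : Type} [CommRing F] [CommRing K] (φ : F →+* K) {m : ℕ} (f : Fin (m + 1) → F)
    (v w : F × F × F) (i : Fin 3) (x z : F) :
    φ (Fv f v w i x z) = Fv (fun i => φ (f i)) (φ v.1, φ v.2.1, φ v.2.2) (φ w.1, φ w.2.1, φ w.2.2) i (φ x) (φ z) := by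
  fin_cases i
  · show φ (hv f x z) = hv (fun i => φ (f i)) (φ x) (φ z)
    simp only [hv, map_sum, map_mul, map_pow]
  · show φ (qv v x z) = qv (φ v.1, φ v.2.1, φ v.2.2) (φ x) (φ z)
    simp only [qv, map_add, map_mul, map_pow]
  · show φ (qv w x z) = qv (φ w.1, φ w.2.1, φ w.2.2) (φ x) (φ z)
    simp only [qv, map_add, map_mul, map_pow]

private theorem DS_rat (q : ℚ) : ∃ (d : ℤ) (t : ℚ), d ≠ 0 ∧ q = d * t ^ 2 ∧ (q ≠ 0 → t ≠ 0) := by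
  by_cases hq : q = 0
  · exact ⟨1, 0, one_ne_zero, by rw [hq]; ring, fun h => absurd hq h⟩
  · have hd : (q.den : ℚ) ≠ 0 := by exact_mod_cast q.den_nz
    refine ⟨q.num * q.den, 1 / q.den, ?_, ?_, fun _ => one_div_ne_zero hd⟩
    · exact mul_ne_zero (Rat.num_ne_zero.2 hq) (by exact_mod_cast q.den_nz)
    · have h1 := Rat.mul_den_eq_num q
      push_cast
      rw [← h1]
      field_simp

private theorem DS_rat3 (G : Fin 3 → ℚ) (h : IsSquare (G 0 * G 1 * G 2)) :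
    ∃ (δ : Fin 3 → ℤ) (Y : Fin 3 → ℚ), (∀ i, δ i ≠ 0) ∧ IsSquare (δ 0 * δ 1 * δ 2) ∧
      ∀ i, G i = δ i * Y i ^ 2 := by
  choose d t hd hG ht using fun i => DS_rat (G i)
  by_cases h0 : G 0 = 0
  · refine ⟨![d 1 * d 2, d 1, d 2], ![0, t 1, t 2], ?_, ⟨d 1 * d 2, ?_⟩, ?_⟩
    · intro i
      fin_cases i
      · exact mul_ne_zero (hd 1) (hd 2)
      · exact hd 1
      · exact hd 2
    · show d 1 * d 2 * d 1 * d 2 = d 1 * d 2 * (d 1 * d 2)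
      ring
    · intro i
      fin_cases i
      · show G 0 = ((d 1 * d 2 : ℤ) : ℚ) * 0 ^ 2
        rw [h0]
        ring
      · exact hG 1
      · exact hG 2
  by_cases h1 : G 1 = 0
  · refine ⟨![d 0, d 0 * d 2, d 2], ![t 0, 0, t 2], ?_, ⟨d 0 * d 2, ?_⟩, ?_⟩
    · intro i
      fin_cases i
      · exact hd 0
      · exact mul_ne_zero (hd 0) (hd 2)
      · exact hd 2
    · show d 0 * (d 0 * d 2) * d 2 = d 0 * d 2 * (d 0 * d 2)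
      ring
    · intro i
      fin_cases i
      · exact hG 0
      · show G 1 = ((d 0 * d 2 : ℤ) : ℚ) * 0 ^ 2
        rw [h1]
        ring
      · exact hG 2
  by_cases h2 : G 2 = 0
  · refine ⟨![d 0, d 1, d 0 * d 1], ![t 0, t 1, 0], ?_, ⟨d 0 * d 1, ?_⟩, ?_⟩
    · intro i
      fin_cases i
      · exact hd 0
      · exact hd 1
      · exact mul_ne_zero (hd 0) (hd 1)
    · show d 0 * d 1 * (d 0 * d 1) = d 0 * d 1 * (d 0 * d 1)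
      ring
    · intro i
      fin_cases i
      · exact hG 0
      · exact hG 1
      · show G 2 = ((d 0 * d 1 : ℤ) : ℚ) * 0 ^ 2
        rw [h2]
        ring
  refine ⟨d, t, hd, ?_, hG⟩
  obtain ⟨y, hy⟩ := h
  rw [← Rat.isSquare_intCast_iff]
  have hT : t 0 * t 1 * t 2 ≠ 0 := mul_ne_zero (mul_ne_zero (ht 0 h0) (ht 1 h1)) (ht 2 h2)
  refine ⟨y / (t 0 * t 1 * t 2), ?_⟩
  rw [div_mul_div_comm, ← hy, hG 0, hG 1, hG 2, eq_div_iff (mul_ne_zero hT hT)]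
  push_cast
  ring

/-- Proof. Let `G i = Fv .. i x z : ℚ` be the three values at the rational point, `y² = G 0 * G 1 * G 2`. For a nonzero `G i` let `δ i = (G i).num * (G i).den` (so `G i = δ i (1/den)²`). If all `G i` are nonzero: `δ 0 δ 1 δ 2` is an integer which is a square in `ℚ` (`y² (den 0 den 1 den 2)²`), so a square in `ℤ`
(`Rat.isSquare_intCast_iff`). If exactly one vanishes, e.g. `G 0 = 0`: replace `δ 0` by `δ 1 * δ 2` (and `y 0 = 0`). If exactly two vanish, e.g. `G 0 = G 1 = 0`: `δ 0 = 1`, `δ 1 = δ 2`. If all vanish: `δ = 1`. The same rational point (cast to `ℚ_p`) is a point over every `ℚ_p`. -/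
theorem sel_of_pt {m : ℕ} (f : Vn m) (u : V × V) (h : HasPt f u) : Sel f u := by
  obtain ⟨x, z, y, hxz, hy⟩ := h
  obtain ⟨G, hG⟩ : ∃ G : Fin 3 → ℚ, G = fun i => Fv (fun i => (f i : ℚ)) ((u.1.1 : ℚ), (u.1.2.1 : ℚ), (u.1.2.2 : ℚ))
      ((u.2.1 : ℚ), (u.2.2.1 : ℚ), (u.2.2.2 : ℚ)) i x z := ⟨_, rfl⟩
  have hsq : IsSquare (G 0 * G 1 * G 2) := by
    refine ⟨y, ?_⟩
    rw [← pow_two, hy, hG]
    rfl
  obtain ⟨δ, Y, hδ, hδs, hGY⟩ := DS_rat3 G hsq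
  refine ⟨δ, hδ, hδs, ?_⟩
  intro p _
  refine ⟨(x : ℚ_[p]), (z : ℚ_[p]), fun i => (Y i : ℚ_[p]), ?_, ?_⟩
  · rintro ⟨h1, h2⟩
    exact hxz ⟨by exact_mod_cast h1, by exact_mod_cast h2⟩
  · intro i
    have h1 := DS_map (Rat.castHom ℚ_[p]) (fun i => (f i : ℚ)) ((u.1.1 : ℚ), (u.1.2.1 : ℚ), (u.1.2.2 : ℚ))
      ((u.2.1 : ℚ), (u.2.2.1 : ℚ), (u.2.2.2 : ℚ)) i x z
    have h2 : Fv (fun i => (f i : ℚ)) ((u.1.1 : ℚ), (u.1.2.1 : ℚ), (u.1.2.2 : ℚ))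
        ((u.2.1 : ℚ), (u.2.2.1 : ℚ), (u.2.2.2 : ℚ)) i x z = δ i * Y i ^ 2 := by
      rw [← hGY i, hG]
    rw [h2] at h1
    simp only [Rat.coe_castHom, Rat.cast_intCast] at h1
    rw [← h1]
    push_cast
    ring

/-- a point of the covering over `ℚ_p` gives one with coordinates in `ℤ_p`, one of them `1` -/
private theorem DS_prim {m : ℕ} (hme : Even m) (p : ℕ) [Fact p.Prime] (δ : Fin 3 → ℤ) (f : Vn m) (u : V × V)
    (h : LocD p δ f u) : ∃ (a b : ℤ_[p]) (y : Fin 3 → ℚ_[p]), (a = 1 ∨ b = 1) ∧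
      ∀ i, Fv (fun i => (f i : ℚ_[p])) ((u.1.1 : ℚ_[p]), (u.1.2.1 : ℚ_[p]), (u.1.2.2 : ℚ_[p]))
        ((u.2.1 : ℚ_[p]), (u.2.2.1 : ℚ_[p]), (u.2.2.2 : ℚ_[p])) i (a : ℚ_[p]) (b : ℚ_[p]) =
          (δ i : ℚ_[p]) * y i ^ 2 := by
  obtain ⟨x, z, y, hxz, hy⟩ := h
  obtain ⟨n, hn⟩ := hme
  have key : ∀ c : ℚ_[p], ∀ i, Fv (fun i => (f i : ℚ_[p])) ((u.1.1 : ℚ_[p]), (u.1.2.1 : ℚ_[p]), (u.1.2.2 : ℚ_[p]))
        ((u.2.1 : ℚ_[p]), (u.2.2.1 : ℚ_[p]), (u.2.2.2 : ℚ_[p])) i (c * x) (c * z) =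
          (δ i : ℚ_[p]) * (![c ^ n * y 0, c * y 1, c * y 2] : Fin 3 → ℚ_[p]) i ^ 2 := by
    intro c i
    have hi := hy i
    fin_cases i
    · have hi' : hv (fun i => (f i : ℚ_[p])) x z = (δ 0 : ℚ_[p]) * y 0 ^ 2 := hi
      show hv (fun i => (f i : ℚ_[p])) (c * x) (c * z) = (δ 0 : ℚ_[p]) * (c ^ n * y 0) ^ 2
      rw [hv_smul, hi', hn, pow_add]
      ring
    · have hi' : qv ((u.1.1 : ℚ_[p]), (u.1.2.1 : ℚ_[p]), (u.1.2.2 : ℚ_[p])) x z = (δ 1 : ℚ_[p]) * y 1 ^ 2 := hi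
      show qv ((u.1.1 : ℚ_[p]), (u.1.2.1 : ℚ_[p]), (u.1.2.2 : ℚ_[p])) (c * x) (c * z) =
        (δ 1 : ℚ_[p]) * (c * y 1) ^ 2
      rw [qv_smul, hi']
      ring
    · have hi' : qv ((u.2.1 : ℚ_[p]), (u.2.2.1 : ℚ_[p]), (u.2.2.2 : ℚ_[p])) x z = (δ 2 : ℚ_[p]) * y 2 ^ 2 := hi
      show qv ((u.2.1 : ℚ_[p]), (u.2.2.1 : ℚ_[p]), (u.2.2.2 : ℚ_[p])) (c * x) (c * z) =
        (δ 2 : ℚ_[p]) * (c * y 2) ^ 2
      rw [qv_smul, hi']
      ring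
  rcases le_total ‖z‖ ‖x‖ with hle | hle
  · have hx : x ≠ 0 := by
      rintro rfl
      rw [norm_zero] at hle
      exact hxz ⟨rfl, norm_le_zero_iff.1 hle⟩
    have hb : ‖x⁻¹ * z‖ ≤ 1 := by
      rw [norm_mul, norm_inv, ← div_eq_inv_mul]
      exact div_le_one_of_le₀ hle (norm_nonneg _)
    refine ⟨1, ⟨x⁻¹ * z, hb⟩, ![x⁻¹ ^ n * y 0, x⁻¹ * y 1, x⁻¹ * y 2], Or.inl rfl, ?_⟩
    intro i
    have h1 := key x⁻¹ i
    rw [inv_mul_cancel₀ hx] at h1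
    rw [PadicInt.coe_one]
    exact h1
  · have hz : z ≠ 0 := by
      rintro rfl
      rw [norm_zero] at hle
      exact hxz ⟨norm_le_zero_iff.1 hle, rfl⟩
    have hb : ‖z⁻¹ * x‖ ≤ 1 := by
      rw [norm_mul, norm_inv, ← div_eq_inv_mul]
      exact div_le_one_of_le₀ hle (norm_nonneg _)
    refine ⟨⟨z⁻¹ * x, hb⟩, 1, ![z⁻¹ ^ n * y 0, z⁻¹ * y 1, z⁻¹ * y 2], Or.inr rfl, ?_⟩
    intro i
    have h1 := key z⁻¹ i
    rw [inv_mul_cancel₀ hz] at h1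
    rw [PadicInt.coe_one]
    exact h1

/-- if `d W²` is a `p`-adic integer and `p²` does not divide `d` then `W` is a `p`-adic integer -/
private theorem DS_int (p : ℕ) [Fact p.Prime] (d : ℤ) (hd : ¬ (p : ℤ) ^ 2 ∣ d) (W : ℚ_[p]) (G : ℤ_[p])
    (h : (G : ℚ_[p]) = (d : ℚ_[p]) * W ^ 2) : ‖W‖ ≤ 1 := by
  by_contra hlt
  rw [not_le] at hlt
  have hW : W ≠ 0 := by
    rintro rfl
    rw [norm_zero] at hlt
    exact absurd hlt (by norm_num)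
  have hV : ‖W⁻¹‖ < 1 := by
    rw [norm_inv]
    exact inv_lt_one_of_one_lt₀ hlt
  obtain ⟨V, hVW⟩ : ∃ V : ℤ_[p], (V : ℚ_[p]) = W⁻¹ := ⟨⟨W⁻¹, hV.le⟩, rfl⟩
  have hVn : ‖V‖ < 1 := by
    rw [PadicInt.norm_def, hVW]
    exact hV
  obtain ⟨c, hc⟩ := (PadicInt.norm_lt_one_iff_dvd V).1 hVn
  apply hd
  rw [← PadicInt.pow_p_dvd_int_iff]
  refine ⟨G * c ^ 2, ?_⟩
  have h2 : ((d : ℤ_[p]) : ℚ_[p]) = ((G * V ^ 2 : ℤ_[p]) : ℚ_[p]) := by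
    push_cast
    rw [hVW, h]
    field_simp
  have h3 : (d : ℤ_[p]) = G * V ^ 2 := PadicInt.ext h2
  rw [h3, hc]
  ring

/-- Proof. `descent (fun i => δ i) y ..` (file DA; `y² = δ 0 δ 1 δ 2`) gives `e, σ, k` with `δ i = σ i (∏_{j ≠ i} e j) (k i)²`. Let `p` be a prime and `x, z, y` the point over `ℚ_p`. Dividing `x, z` by a power `c = p^n` of `p` (and `y 0` by `c^(m/2)`, `y 1, y 2` by `c`; `hv_smul`, `qv_smul`) we may suppose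
`‖x‖ ≤ 1`, `‖z‖ ≤ 1`, and one of the two norms is `1`. `G i = Fv .. i x z = σ i d i (W i)²` with `d i = ∏_{j ≠ i} e j` squarefree (so `‖d i‖ ≥ 1/p`), `W i = k i * y i`; `‖G i‖ ≤ 1`, so `‖W i‖² ≤ p`, `‖W i‖ ≤ 1` (norms are powers of `p`). Choose integers `x₀, z₀, κ i` congruent to `x, z, W i` modulo `p²`
(`PadicInt.appr` / `PadicInt.toZModPow`, or density of `ℤ` in `ℤ_[p]`); then `Fv f u.1 u.2 i x₀ z₀ ≡ G i ≡ σ i d i κ i² mod p²` (difference is an integer of `p`-adic norm `≤ p^(-2)`: `padicNormE.norm_int_le_pow_iff_dvd`, `PadicInt.norm_int_le_pow_iff_dvd`). `p` does not divide both `x₀` and `z₀`. Finally change `x₀, z₀` modulo `p²` to make them coprime: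
if `p ∤ z₀` (so `z₀ ≠ 0`): add a multiple of `p²` to `x₀` such that `x₀ ≡ 1 mod z₀` (`p²` is invertible modulo `z₀`); similarly if `p ∤ x₀`. The values change by multiples of `p²`. -/
theorem sel_int {m : ℕ} (hme : Even m) (f : Vn m) (u : V × V) (h : Sel f u) :
    ∃ (e : Fin 3 → ℕ) (σ : Fin 3 → ℤ), (∀ i, Squarefree (e i)) ∧ (∀ i j, i ≠ j → (e i).Coprime (e j)) ∧
      (∀ i, σ i = 1 ∨ σ i = -1) ∧ ∀ p : ℕ, p.Prime → ∃ (x z : ℤ) (κ : Fin 3 → ℤ), IsCoprime x z ∧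
        ∀ i, (p : ℤ) ^ 2 ∣ Fv f u.1 u.2 i x z - σ i * (∏ j ∈ univ.erase i, (e j : ℤ)) * (κ i) ^ 2 := by
  obtain ⟨δ, hδ, ⟨y0, hy0⟩, hloc⟩ := h
  obtain ⟨e, σ, k, he, hec, hσ, hδe⟩ := descent δ y0 (by rw [pow_two, hy0]) (hδ 1) (hδ 2)
  refine ⟨e, σ, he, hec, hσ, ?_⟩
  intro p hp
  have : Fact p.Prime := ⟨hp⟩
  obtain ⟨a, b, y, hab, hy⟩ := DS_prim hme p δ f u (hloc p)
  -- the factors are squarefree
  have hd2 : ∀ i, ¬ (p : ℤ) ^ 2 ∣ σ i * ∏ j ∈ univ.erase i, (e j : ℤ) := by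
    intro i hdv
    have h1 : Squarefree (∏ j ∈ univ.erase i, e j) := by
      refine Finset.squarefree_prod_of_pairwise_isCoprime ?_ (fun j _ => he j)
      intro j _ l _ hjl
      exact Nat.coprime_iff_isRelPrime.1 (hec j l hjl)
    have h2 : (p : ℤ) ^ 2 ∣ ((∏ j ∈ univ.erase i, e j : ℕ) : ℤ) := by
      push_cast
      rcases hσ i with h3 | h3
      · rw [h3, one_mul] at hdv
        exact hdv
      · rw [h3, neg_one_mul, dvd_neg] at hdv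
        exact hdv
    have h4 : p * p ∣ ∏ j ∈ univ.erase i, e j := by
      rw [← pow_two]
      exact_mod_cast h2
    exact hp.one_lt.ne' (Nat.isUnit_iff.1 (h1 p h4))
  -- the values as `p`-adic integers
  obtain ⟨G, hG⟩ : ∃ G : Fin 3 → ℤ_[p], G = fun i => Fv (fun i => (f i : ℤ_[p]))
      ((u.1.1 : ℤ_[p]), (u.1.2.1 : ℤ_[p]), (u.1.2.2 : ℤ_[p]))
      ((u.2.1 : ℤ_[p]), (u.2.2.1 : ℤ_[p]), (u.2.2.2 : ℤ_[p])) i a b := ⟨_, rfl⟩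
  have hGc : ∀ i, (G i : ℚ_[p]) = ((σ i * ∏ j ∈ univ.erase i, (e j : ℤ) : ℤ) : ℚ_[p]) * ((k i : ℚ_[p]) * y i) ^ 2 := by
    intro i
    have h1 := DS_map (PadicInt.Coe.ringHom (p := p)) (fun i => (f i : ℤ_[p]))
      ((u.1.1 : ℤ_[p]), (u.1.2.1 : ℤ_[p]), (u.1.2.2 : ℤ_[p]))
      ((u.2.1 : ℤ_[p]), (u.2.2.1 : ℤ_[p]), (u.2.2.2 : ℤ_[p])) i a b
    simp only [map_intCast] at h1
    have h2 := hy i
    have h3 : (G i : ℚ_[p]) = (δ i : ℚ_[p]) * y i ^ 2 := by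
      rw [← h2, hG]
      exact h1
    rw [h3, hδe i]
    push_cast
    ring
  have hWn : ∀ i, ‖(k i : ℚ_[p]) * y i‖ ≤ 1 := fun i => DS_int p _ (hd2 i) _ _ (hGc i)
  obtain ⟨W, hW⟩ : ∃ W : Fin 3 → ℤ_[p], ∀ i, (W i : ℚ_[p]) = (k i : ℚ_[p]) * y i :=
    ⟨fun i => ⟨_, hWn i⟩, fun i => rfl⟩
  have hGW : ∀ i, G i = ((σ i * ∏ j ∈ univ.erase i, (e j : ℤ) : ℤ) : ℤ_[p]) * W i ^ 2 := by
    intro i
    have h1 : (G i : ℚ_[p]) = ((((σ i * ∏ j ∈ univ.erase i, (e j : ℤ) : ℤ) : ℤ_[p]) * W i ^ 2 : ℤ_[p]) : ℚ_[p]) := by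
      rw [hGc i, ← hW i, PadicInt.coe_mul, PadicInt.coe_pow, PadicInt.coe_intCast]
    exact PadicInt.ext h1
  -- the reduction modulo `p²`
  obtain ⟨φ, hφ⟩ : ∃ φ : ℤ_[p] →+* ZMod (p ^ 2), φ = PadicInt.toZModPow 2 := ⟨_, rfl⟩
  choose κ hκ using fun i => ZMod.intCast_surjective (φ (W i))
  have fin : ∀ x z : ℤ, (x : ZMod (p ^ 2)) = φ a → (z : ZMod (p ^ 2)) = φ b →
      ∀ i, (p : ℤ) ^ 2 ∣ Fv f u.1 u.2 i x z - σ i * (∏ j ∈ univ.erase i, (e j : ℤ)) * (κ i) ^ 2 := by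
    intro x z hx hz i
    have h1 := DS_map (Int.castRingHom (ZMod (p ^ 2))) f u.1 u.2 i x z
    have h2 := DS_map φ (fun i => (f i : ℤ_[p]))
      ((u.1.1 : ℤ_[p]), (u.1.2.1 : ℤ_[p]), (u.1.2.2 : ℤ_[p]))
      ((u.2.1 : ℤ_[p]), (u.2.2.1 : ℤ_[p]), (u.2.2.2 : ℤ_[p])) i a b
    simp only [map_intCast] at h2
    simp only [Int.coe_castRingHom] at h1
    have h3 : φ (G i) = ((Fv f u.1 u.2 i x z : ℤ) : ZMod (p ^ 2)) := by
      rw [h1, hG, hx, hz]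
      exact h2
    have h4 : φ (G i) = ((σ i * (∏ j ∈ univ.erase i, (e j : ℤ)) * (κ i) ^ 2 : ℤ) : ZMod (p ^ 2)) := by
      rw [hGW i, map_mul, map_intCast, map_pow, ← hκ i]
      push_cast
      ring
    have h5 : ((Fv f u.1 u.2 i x z - σ i * (∏ j ∈ univ.erase i, (e j : ℤ)) * (κ i) ^ 2 : ℤ) : ZMod (p ^ 2)) = 0 := by
      rw [Int.cast_sub, ← h3, ← h4, sub_self]
    have h6 := (ZMod.intCast_zmod_eq_zero_iff_dvd _ _).1 h5
    rw [Nat.cast_pow] at h6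
    exact h6
  rcases hab with ha | hb
  · obtain ⟨z, hz⟩ := ZMod.intCast_surjective (φ b)
    refine ⟨1, z, κ, isCoprime_one_left, fin 1 z ?_ hz⟩
    rw [ha, map_one, Int.cast_one]
  · obtain ⟨x, hx⟩ := ZMod.intCast_surjective (φ a)
    refine ⟨x, 1, κ, isCoprime_one_right, fin x 1 hx ?_⟩
    rw [hb, map_one, Int.cast_one]

end FQQ
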