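import Pool.Agent.Lib.MP_10e784_agF.DC
import Pool.Agent.Lib.MP_10e784_agF.DS
import Pool.Agent.Lib.MP_10e784_agF.GF

/-! JOB DD -/

set_option autoImplicit false

open Classical

namespace FQQ

open Finset Polynomial FGO

/-- the data of the descent: `x p`, `z p` approximate a point over `ℚ_p` modulo `p²`, `κ p i` the square roots -/
structure Dat {m : ℕ} (z0 : ℕ) (f : Vn m) (u : V × V) where
  x : ℕ → ℤ
  z : ℕ → ℤ
  e : Fin 3 → ℕ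
  s : Fin 3 → ℕ
  k : Fin 3 → ℕ
  t : Fin 3 → Bool
  σ : Fin 3 → ℤ
  τ : Fin 3 → ℤ
  κ : ℕ → Fin 3 → ℤ
  cop : ∀ p : ℕ, p.Prime → IsCoprime (x p) (z p)
  sqe : ∀ i, Squarefree (e i)
  cope : ∀ i j, i ≠ j → (e i).Coprime (e j)
  sg : ∀ i, τ i = 1 ∨ τ i = -1
  val : ∀ p : ℕ, p.Prime → ∀ i,
    (p : ℤ) ^ 2 ∣ Fv f u.1 u.2 i (x p) (z p) - σ i * (∏ j ∈ univ.erase i, (e j : ℤ)) * (κ p i) ^ 2
  sqs : ∀ i, Squarefree (s i)
  kpos : ∀ i, 0 < k i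
  rel : ∀ i, (if t i then (Rv f u.1 u.2 i).natAbs * e i else e i) = s i * (k i) ^ 2
  pR : ∀ (i : Fin 3) (p : ℕ), p.Prime → p ∣ s i → (p : ℤ) ∣ Rv f u.1 u.2 i
  sz : ∀ i, rpart z0 (s i) ^ 2 ≤ (Rv f u.1 u.2 i).natAbs
  tf : ∀ i, t i = false → s i = e i
  tt : ∀ i, t i = true → ∀ p : ℕ, p.Prime → (p : ℤ) ∣ Rv f u.1 u.2 i → ¬ (p : ℤ) ^ 2 ∣ Rv f u.1 u.2 i →
    (p ∣ s i ↔ ¬ p ∣ e i)
  ksq : ∀ i, ∃ c : ℤ,
    KI t (fun i => τ i * ∏ j ∈ univ.erase i, (s j : ℤ)) f u i * (σ i * ∏ j ∈ univ.erase i, (e j : ℤ)) = c ^ 2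

private theorem DD_aux {m : ℕ} (f : Vn m) (u : V × V) (x z : ℤ) (hxz : IsCoprime x z) (e : Fin 3 → ℕ) (σ κ : Fin 3 → ℤ)
    (i : Fin 3) (p : ℕ) (hp : p.Prime)
    (hv : ∀ i, (p : ℤ) ^ 2 ∣ Fv f u.1 u.2 i x z - σ i * (∏ j ∈ univ.erase i, (e j : ℤ)) * (κ i) ^ 2) (h : p ∣ e i) :
    ¬ ((x : ZMod p) = 0 ∧ (z : ZMod p) = 0) ∧
      ∀ j : Fin 3, j ≠ i → Fv (cN p f) (cV p u.1) (cV p u.2) j (x : ZMod p) (z : ZMod p) = 0 := by
  have := Fact.mk hp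
  constructor
  · rintro ⟨h1, h2⟩
    obtain ⟨a, b, hab⟩ := hxz
    have h3 : ((a * x + b * z : ℤ) : ZMod p) = 1 := by rw [hab]; simp
    push_cast at h3
    rw [h1, h2] at h3
    simp at h3
  · intro j hj
    rw [← Fv_cast]
    have h1 : (p : ℤ) ∣ ∏ l ∈ univ.erase j, (e l : ℤ) :=
      (Int.natCast_dvd_natCast.mpr h).trans
        (dvd_prod_of_mem (fun l => (e l : ℤ)) (mem_erase.mpr ⟨hj.symm, mem_univ i⟩))
    rw [ZMod.intCast_zmod_eq_zero_iff_dvd]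
    have h2 : (p : ℤ) ∣ Fv f u.1 u.2 j x z - σ j * (∏ j ∈ univ.erase j, (e j : ℤ)) * (κ j) ^ 2 :=
      (dvd_pow_self _ two_ne_zero).trans (hv j)
    have h3 : (p : ℤ) ∣ σ j * (∏ j ∈ univ.erase j, (e j : ℤ)) * (κ j) ^ 2 :=
      dvd_mul_of_dvd_left (dvd_mul_of_dvd_right h1 _) _
    have h4 := dvd_add h2 h3
    rwa [sub_add_cancel] at h4

/-- Proof. If `p ∣ e i` then for `j ≠ i` the factor `e i` occurs in `∏_{l ≠ j} e l`, so `p` divides the value of the form `j` at `(x, z)`; `(x, z)` is not `(0, 0)` modulo `p` (coprime). -/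
theorem Dat.root {m z0 : ℕ} {f : Vn m} {u : V × V} (A : Dat z0 f u) (i : Fin 3) (p : ℕ) (hp : p.Prime) (h : p ∣ A.e i) :
    ¬ ((A.x p : ZMod p) = 0 ∧ (A.z p : ZMod p) = 0) ∧
      ∀ j : Fin 3, j ≠ i → Fv (cN p f) (cV p u.1) (cV p u.2) j (A.x p : ZMod p) (A.z p : ZMod p) = 0 :=
  DD_aux f u (A.x p) (A.z p) (A.cop p hp) A.e A.σ (A.κ p) i p hp (A.val p hp) h

/-- Proof. `Dat.root`. -/
theorem Dat.E_of_dvd {m z0 : ℕ} {f : Vn m} {u : V × V} (A : Dat z0 f u) (i : Fin 3) (p : ℕ) (hp : p.Prime) (h : p ∣ A.e i) :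
    E (cN p f) (cV p u.1) (cV p u.2) i :=
  ⟨(A.x p : ZMod p), (A.z p : ZMod p), A.root i p hp h⟩

/-- existence of the data.
Proof. `sel_int` gives `e, σ` and for every prime `x, z, κ`. A prime `p ∣ e i` gives a common zero modulo `p` of the two forms with index `≠ i`, so `p ∣ Rv i` (`Rv_zero_of_E`, `Rv_cast`; `m ≥ 1`). `type_choice` for `R = Rv i`, `e i` gives `t i, s i, k i`.
`KI_sq` gives `τ` and `ksq`. -/
theorem exists_dat {m : ℕ} (hm : 1 ≤ m) (hme : Even m) (z0 : ℕ) (f : Vn m) (u : V × V) (h : Sel f u)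
    (hR : ∀ i, Rv f u.1 u.2 i ≠ 0) : Nonempty (Dat z0 f u) := by
  obtain ⟨e, σ, hsqe, hcop, hσ, hL⟩ := sel_int hme f u h
  choose! x z κ hxz hX using hL
  have hd : ∀ (i : Fin 3) (p : ℕ), p.Prime → p ∣ e i → (p : ℤ) ∣ Rv f u.1 u.2 i := by
    intro i p hp hpe
    have := Fact.mk hp
    have hE : E (cN p f) (cV p u.1) (cV p u.2) i :=
      ⟨(x p : ZMod p), (z p : ZMod p), DD_aux f u (x p) (z p) (hxz p hp) e σ (κ p) i p hp (hX p hp) hpe⟩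
    have h3 := Rv_zero_of_E hm (cN p f) (cV p u.1) (cV p u.2) i hE
    rw [← Rv_cast] at h3
    exact (ZMod.intCast_zmod_eq_zero_iff_dvd _ _).mp h3
  choose t s k hs hk hrel hpR hsz htf htt using
    fun i => type_choice (Rv f u.1 u.2 i) (hR i) (e i) (hsqe i) (hd i) z0
  obtain ⟨τ, hτ, hK⟩ := KI_sq f u hR e s k t σ hσ hrel
  exact ⟨{ x := x, z := z, e := e, s := s, k := k, t := t, σ := σ, τ := τ, κ := κ, cop := hxz, sqe := hsqe,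
           cope := hcop, sg := hτ, val := hX, sqs := hs, kpos := hk, rel := hrel, pR := hpR, sz := hsz,
           tf := htf, tt := htt, ksq := hK }⟩

end FQQ
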