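import Pool.Agent.Lib.MP_10e784_agF.DD

/-! JOB DE -/

set_option autoImplicit false

open Classical

namespace FQQ

open Finset Polynomial FGO

/-- the label of a prime -/
noncomputable def lamD {m z0 : ℕ} {f : Vn m} {u : V × V} (A : Dat z0 f u) (p : ℕ) : Lab :=
  if h : ∃ i, E (cN p f) (cV p u.1) (cV p u.2) i then
    (if p ∣ A.e h.choose then Lab.B h.choose else Lab.A h.choose)
  else if h' : ∃ j, Dc (cV p u.1) (cV p u.2) j = 0 then Lab.C h'.choose else Lab.O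

theorem DE_cast {p : ℕ} (hp : p.Prime) (a : ℤ) : ((a : ZMod p) = 0) ↔ (p : ℤ) ∣ a := by
  haveI : NeZero p := ⟨hp.ne_zero⟩
  exact ZMod.intCast_zmod_eq_zero_iff_dvd a p

theorem DE_two (a b : Fin 2) (h : a ≠ b) : (a = 0 ∧ b = 1) ∨ (a = 1 ∧ b = 0) := by
  revert a b
  decide

/-- Proof. By `TypP` (first two parts) the index `i` is unique and no `Dc j` vanishes. -/
theorem lamD_E {m z0 : ℕ} {f : Vn m} {u : V × V} (A : Dat z0 f u) (p : ℕ) (hT : TypP p f u) (i : Fin 3)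
    (h : E (cN p f) (cV p u.1) (cV p u.2) i) : lamD A p = if p ∣ A.e i then Lab.B i else Lab.A i := by
  have hex : ∃ i, E (cN p f) (cV p u.1) (cV p u.2) i := ⟨i, h⟩
  have hi : hex.choose = i := by
    by_contra hne
    exact hT.1 _ _ hne ⟨hex.choose_spec, h⟩
  unfold lamD
  rw [dif_pos hex, hi]

theorem lamD_D {m z0 : ℕ} {f : Vn m} {u : V × V} (A : Dat z0 f u) (p : ℕ) (hT : TypP p f u) (j : Fin 2)
    (h : Dc (cV p u.1) (cV p u.2) j = 0) : lamD A p = Lab.C j := by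
  have hno : ¬ ∃ i, E (cN p f) (cV p u.1) (cV p u.2) i := by
    rintro ⟨i, hi⟩
    exact hT.2.1 i j ⟨h, hi⟩
  have hex : ∃ j, Dc (cV p u.1) (cV p u.2) j = 0 := ⟨j, h⟩
  have hj : hex.choose = j := by
    by_contra hne
    rcases DE_two _ _ hne with ⟨h1, h2⟩ | ⟨h1, h2⟩
    · have h3 := hex.choose_spec
      rw [h1] at h3
      rw [h2] at h
      exact hT.2.2.1 ⟨h3, h⟩
    · have h3 := hex.choose_spec
      rw [h1] at h3
      rw [h2] at h
      exact hT.2.2.1 ⟨h, h3⟩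
  unfold lamD
  rw [dif_neg hno, dif_pos hex, hj]

theorem lamD_O {m z0 : ℕ} {f : Vn m} {u : V × V} (A : Dat z0 f u) (p : ℕ)
    (h : ¬ Em (cN p f) (cV p u.1) (cV p u.2)) : lamD A p = Lab.O := by
  have h1 : ¬ ∃ i, E (cN p f) (cV p u.1) (cV p u.2) i := fun h2 => h (Or.inl h2)
  have h3 : ¬ ∃ j, Dc (cV p u.1) (cV p u.2) j = 0 := fun h2 => h (Or.inr h2)
  unfold lamD
  rw [dif_neg h1, dif_neg h3]

theorem DE_inv {m z0 : ℕ} {f : Vn m} {u : V × V} (A : Dat z0 f u) (p : ℕ) (hT : TypP p f u) :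
    (∃ i, E (cN p f) (cV p u.1) (cV p u.2) i ∧ p ∣ A.e i ∧ lamD A p = Lab.B i) ∨
    (∃ i, E (cN p f) (cV p u.1) (cV p u.2) i ∧ ¬ p ∣ A.e i ∧ lamD A p = Lab.A i) ∨
    (∃ j, Dc (cV p u.1) (cV p u.2) j = 0 ∧ lamD A p = Lab.C j) ∨
    (¬ Em (cN p f) (cV p u.1) (cV p u.2) ∧ lamD A p = Lab.O) := by
  by_cases h : ∃ i, E (cN p f) (cV p u.1) (cV p u.2) i
  · obtain ⟨i, hi⟩ := h
    have h1 := lamD_E A p hT i hi
    by_cases h2 : p ∣ A.e i
    · rw [if_pos h2] at h1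
      exact Or.inl ⟨i, hi, h2, h1⟩
    · rw [if_neg h2] at h1
      exact Or.inr (Or.inl ⟨i, hi, h2, h1⟩)
  · by_cases h' : ∃ j, Dc (cV p u.1) (cV p u.2) j = 0
    · obtain ⟨j, hj⟩ := h'
      exact Or.inr (Or.inr (Or.inl ⟨j, hj, lamD_D A p hT j hj⟩))
    · have h3 : ¬ Em (cN p f) (cV p u.1) (cV p u.2) := by
        rintro (h4 | h4)
        · exact h h4
        · exact h' h4
      exact Or.inr (Or.inr (Or.inr ⟨h3, lamD_O A p h3⟩))

/-- the primes of `s i`.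
Proof. `LT t i = if t i then A i else B i`. If `p ∣ s i` then `p ∣ Rv i` (`pR`), so `E i` holds and `p² ∤ Rv i` (`TypP`, last part). `t i = false`: `s i = e i`: `p ∣ e i` iff `E i` and the label is `B i` (`Dat.E_of_dvd`, `lamD_E`).
`t i = true`: if `p ∣ s i`: `p ∤ e i` (`tt`), the label is `A i`. Conversely the label `A i` means `E i` holds (if `lamD A p = A i` then by the definition of `lamD` and uniqueness) and `p ∤ e i`; `E i` gives `p ∣ Rv i` (`Rv_zero_of_E`, `Rv_cast`),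
so `p² ∤ Rv i` and `p ∣ s i` by `tt`. -/
theorem dvd_s_iff {m z0 : ℕ} (hm : 1 ≤ m) {f : Vn m} {u : V × V} (A : Dat z0 f u) (p : ℕ) (hp : p.Prime) (hT : TypP p f u)
    (i : Fin 3) : p ∣ A.s i ↔ lamD A p = LT A.t i := by
  haveI : Fact p.Prime := ⟨hp⟩
  constructor
  · intro h
    obtain ⟨h1, h2⟩ := hT.2.2.2.2 i (A.pR i p hp h)
    rw [lamD_E A p hT i h1]
    unfold LT
    cases ht : A.t i with
    | false =>
      rw [A.tf i ht] at h
      rw [if_pos h]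
      rfl
    | true =>
      have h3 : ¬ p ∣ A.e i := (A.tt i ht p hp (A.pR i p hp h) h2).1 h
      rw [if_neg h3]
      rfl
  · intro h
    unfold LT at h
    cases ht : A.t i with
    | false =>
      rw [ht] at h
      rw [A.tf i ht]
      rcases DE_inv A p hT with ⟨i', h1, h2, h3⟩ | ⟨i', h1, h2, h3⟩ | ⟨j, h1, h3⟩ | ⟨h1, h3⟩
      · rw [h3] at h
        have h4 : i' = i := by
          injection h
        rw [← h4]
        exact h2
      · rw [h3] at h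
        exact absurd h (by simp)
      · rw [h3] at h
        exact absurd h (by simp)
      · rw [h3] at h
        exact absurd h (by simp)
    | true =>
      rw [ht] at h
      rcases DE_inv A p hT with ⟨i', h1, h2, h3⟩ | ⟨i', h1, h2, h3⟩ | ⟨j, h1, h3⟩ | ⟨h1, h3⟩
      · rw [h3] at h
        exact absurd h (by simp)
      · rw [h3] at h
        have h4 : i' = i := by
          injection h
        rw [h4] at h1 h2
        have h5 : (p : ℤ) ∣ Rv f u.1 u.2 i := by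
          rw [← DE_cast hp, Rv_cast]
          exact Rv_zero_of_E hm _ _ _ i h1
        exact (A.tt i ht p hp h5 (hT.2.2.2.2 i h5).2).2 h2
      · rw [h3] at h
        exact absurd h (by simp)
      · rw [h3] at h
        exact absurd h (by simp)

/-- Proof. If `p ∣ KI`: `p` divides `s j` or `R j` for some `j ≠ i` (`τ` is a unit), so `p ∣ R j` (`pR`) and `E j` holds (`TypP`). -/
theorem dvd_KI {m z0 : ℕ} {f : Vn m} {u : V × V} (A : Dat z0 f u) (p : ℕ) (hp : p.Prime) (hT : TypP p f u)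
    (i : Fin 3) (h : (p : ℤ) ∣ KI A.t (fun i => A.τ i * ∏ j ∈ univ.erase i, (A.s j : ℤ)) f u i) :
    ∃ j, j ≠ i ∧ E (cN p f) (cV p u.1) (cV p u.2) j := by
  have hpi : Prime (p : ℤ) := Nat.prime_iff_prime_int.1 hp
  unfold KI at h
  rcases hpi.dvd_or_dvd h with h1 | h1
  · rcases hpi.dvd_or_dvd h1 with h2 | h2
    · exfalso
      rcases A.sg i with h3 | h3
      · rw [h3] at h2
        exact hpi.not_unit (isUnit_of_dvd_one h2)
      · rw [h3, dvd_neg] at h2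
        exact hpi.not_unit (isUnit_of_dvd_one h2)
    · rw [hpi.dvd_finset_prod_iff] at h2
      obtain ⟨j, hj, h3⟩ := h2
      have h4 : p ∣ A.s j := by exact_mod_cast h3
      exact ⟨j, Finset.ne_of_mem_erase hj, (hT.2.2.2.2 j (A.pR j p hp h4)).1⟩
  · rw [hpi.dvd_finset_prod_iff] at h1
    obtain ⟨j, hj, h3⟩ := h1
    by_cases ht : A.t j = true
    · rw [if_pos ht] at h3
      exact ⟨j, Finset.ne_of_mem_erase hj, (hT.2.2.2.2 j h3).1⟩
    · rw [if_neg ht] at h3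
      exact absurd (isUnit_of_dvd_one h3) hpi.not_unit

theorem DE_once {m : ℕ} {p : ℕ} (hp : p.Prime) {f : Vn m} {u : V × V} (j : Fin 2)
    (h1 : (p : ℤ) ∣ Dc u.1 u.2 j) (h2 : ¬ (p : ℤ) ^ 2 ∣ Dc u.1 u.2 j) (x z : ℤ)
    (hxz : IsCoprime x z) : ¬ (p : ℤ) ^ 2 ∣ Fv f u.1 u.2 j.succ x z := by
  have hj : j = 0 ∨ j = 1 := by
    revert j
    intro j _ _
    fin_cases j
    · exact Or.inl rfl
    · exact Or.inr rfl
  rcases hj with rfl | rfl
  · exact val_once hp u.1 h1 h2 x z hxz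
  · exact val_once hp u.2 h1 h2 x z hxz

theorem DE_sq {p : ℕ} (hp : p.Prime) (K X d k c : ℤ) (h1 : K * d = c ^ 2) (h2 : (p : ℤ) ^ 2 ∣ X - d * k ^ 2)
    (hK : ¬ (p : ℤ) ∣ K) (hX : ¬ (p : ℤ) ^ 2 ∣ X) : ¬ (p : ℤ) ∣ X := by
  intro h0
  have hpi : Prime (p : ℤ) := Nat.prime_iff_prime_int.1 hp
  have hX' : ¬ (p : ℤ) ^ 2 ∣ d * k ^ 2 := by
    intro h3
    apply hX
    have h4 := dvd_add h2 h3
    rwa [sub_add_cancel] at h4
  have h : (p : ℤ) ∣ d * k ^ 2 := by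
    have h3 := dvd_sub h0 ((dvd_pow_self (p : ℤ) two_ne_zero).trans h2)
    rwa [sub_sub_cancel] at h3
  rcases hpi.dvd_or_dvd h with h3 | h3
  · have h4 : (p : ℤ) ∣ c := hpi.dvd_of_dvd_pow (h1 ▸ Dvd.dvd.mul_left h3 K)
    have h5 : (p : ℤ) ^ 2 ∣ K * d := by
      rw [h1]
      exact pow_dvd_pow_of_dvd h4 2
    have h6 : IsCoprime ((p : ℤ) ^ 2) K := ((Prime.coprime_iff_not_dvd hpi).2 hK).pow_left
    have h7 : (p : ℤ) ^ 2 ∣ d := h6.dvd_of_dvd_mul_left h5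
    exact hX' (Dvd.dvd.mul_right h7 _)
  · have h4 : (p : ℤ) ∣ k := hpi.dvd_of_dvd_pow h3
    have h5 : (p : ℤ) ^ 2 ∣ k ^ 2 := pow_dvd_pow_of_dvd h4 2
    exact hX' (Dvd.dvd.mul_left h5 _)

theorem DE_sqof {p : ℕ} (hp : p.Prime) (K X d k c : ℤ) (h1 : K * d = c ^ 2) (h2 : (p : ℤ) ^ 2 ∣ X - d * k ^ 2)
    (hK : ¬ (p : ℤ) ∣ K) (hX : ¬ (p : ℤ) ∣ X) : Sq ((K : ZMod p) * (X : ZMod p)) := by
  have := Fact.mk hp
  have hK' : (K : ZMod p) ≠ 0 := fun h => hK ((ZMod.intCast_zmod_eq_zero_iff_dvd K p).1 h)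
  have hX' : (X : ZMod p) ≠ 0 := fun h => hX ((ZMod.intCast_zmod_eq_zero_iff_dvd X p).1 h)
  have h3 : ((X - d * k ^ 2 : ℤ) : ZMod p) = 0 :=
    (ZMod.intCast_zmod_eq_zero_iff_dvd _ p).2 ((dvd_pow_self (p : ℤ) two_ne_zero).trans h2)
  have h4 : ((K * d : ℤ) : ZMod p) = ((c ^ 2 : ℤ) : ZMod p) := by rw [h1]
  push_cast at h3 h4
  refine ⟨mul_ne_zero hK' hX', (((c * k : ℤ)) : ZMod p), ?_⟩
  push_cast
  linear_combination (K : ZMod p) * h3 + (k : ZMod p) ^ 2 * h4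

theorem DE_Sq {m z0 : ℕ} {f : Vn m} {u : V × V} (A : Dat z0 f u) (p : ℕ) (hp : p.Prime)
    (i : Fin 3) (hK : ¬ (p : ℤ) ∣ KI A.t (fun i => A.τ i * ∏ j ∈ univ.erase i, (A.s j : ℤ)) f u i)
    (hX : ¬ (p : ℤ) ∣ Fv f u.1 u.2 i (A.x p) (A.z p)) :
    Sq (Kc A.t (fun i => ((A.τ i * ∏ j ∈ univ.erase i, (A.s j : ℤ) : ℤ) : ZMod p)) (cN p f)
      (cV p u.1) (cV p u.2) i * Fv (cN p f) (cV p u.1) (cV p u.2) i (A.x p : ZMod p) (A.z p : ZMod p)) := by
  obtain ⟨c, hc⟩ := A.ksq i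
  have h1 := DE_sqof hp _ (Fv f u.1 u.2 i (A.x p) (A.z p)) _ (A.κ p i) c hc (A.val p hp i) hK hX
  rw [KI_cast, Fv_cast] at h1
  exact h1

/-- (the main step) every label describes a true event.
Proof. Let `K i = KI ..` and `X i = Fv f u.1 u.2 i x z` (`KI_cast`, `Fv_cast`). `sq_of` with `d = σ i ∏ e j` (`ksq`, `val`): if `p ∤ K i` and `p ∤ X i` then `Sq (K i X i)` modulo `p`.
Label `O`: not `Em`. Label `A i`: `E i`. Label `B i`: `E i` and `p ∣ e i`: `Dat.root`: the forms `j ≠ i` vanish at `(x, z)`; `p ∤ K i` (else `E j` for some `j ≠ i`, excluded by `TypP`), `p ∤ X i` (else all three forms vanish at `(x, z)` modulo `p`, so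
`E j` for `j ≠ i`: excluded).
Label `C j`: `Dc j ≡ 0`, no `E` holds. `i = j.succ`. `p ∤ K i` (`dvd_KI`). `p ∤ X i`: otherwise `v_p(X i) = 1` (`val_once`: `p² ∤ X i`; `p² ∤ Dc j` by `TypP`), so `p` divides `∏_{l ≠ i} e l` (`val`: `X i = σ (∏ e l) κ²`, `p ∣ κ` would give
`p² ∣ X i`), so `p ∣ e l` and `E l` holds: contradiction. -/
theorem ev_lamD {m z0 : ℕ} (hm : 1 ≤ m) {f : Vn m} {u : V × V} (A : Dat z0 f u) (p : ℕ) (hp : p.Prime) (hT : TypP p f u) :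
    Ev A.t (fun i => ((A.τ i * ∏ j ∈ univ.erase i, (A.s j : ℤ) : ℤ) : ZMod p)) (cN p f) (cV p u.1) (cV p u.2)
      (lamD A p) := by
  haveI : Fact p.Prime := ⟨hp⟩
  rcases DE_inv A p hT with ⟨i, h1, h2, h3⟩ | ⟨i, h1, h2, h3⟩ | ⟨j, h1, h3⟩ | ⟨h1, h3⟩
  · rw [h3]
    obtain ⟨hr1, hr2⟩ := A.root i p hp h2
    refine ⟨(A.x p : ZMod p), (A.z p : ZMod p), hr1, hr2, DE_Sq A p hp i ?_ ?_⟩
    · intro h
      obtain ⟨j, hj, hE⟩ := dvd_KI A p hp hT i h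
      exact hT.1 j i hj ⟨hE, h1⟩
    · intro h
      have h4 : Fv (cN p f) (cV p u.1) (cV p u.2) i (A.x p : ZMod p) (A.z p : ZMod p) = 0 := by
        rw [← Fv_cast, DE_cast hp]
        exact h
      obtain ⟨j, hj⟩ : ∃ j : Fin 3, j ≠ i := exists_ne i
      have hE : E (cN p f) (cV p u.1) (cV p u.2) j := by
        refine ⟨(A.x p : ZMod p), (A.z p : ZMod p), hr1, fun l _ => ?_⟩
        by_cases hl : l = i
        · rw [hl]
          exact h4
        · exact hr2 l hl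
      exact hT.1 j i hj ⟨hE, h1⟩
  · rw [h3]
    exact h1
  · rw [h3]
    have hno : ∀ i, ¬ E (cN p f) (cV p u.1) (cV p u.2) i := fun i hi => hT.2.1 i j ⟨h1, hi⟩
    have hK : ¬ (p : ℤ) ∣ KI A.t (fun i => A.τ i * ∏ j ∈ univ.erase i, (A.s j : ℤ)) f u j.succ := by
      intro h
      obtain ⟨l, _, hE⟩ := dvd_KI A p hp hT j.succ h
      exact hno l hE
    have hd : (p : ℤ) ∣ Dc u.1 u.2 j := by
      rw [← DE_cast hp, Dc_cast p f]
      exact h1
    have hX2 := DE_once (f := f) hp j hd (hT.2.2.2.1 j) (A.x p) (A.z p) (A.cop p hp)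
    obtain ⟨c, hc⟩ := A.ksq j.succ
    refine ⟨h1, (A.x p : ZMod p), (A.z p : ZMod p), DE_Sq A p hp j.succ hK ?_⟩
    exact DE_sq hp _ _ _ _ c hc (A.val p hp j.succ) hK hX2
  · rw [h3]
    exact h1

end FQQ
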