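import Pool.Agent.Lib.MP_10e784_agF.D2

/-! JOB DV -/

set_option autoImplicit false

open Classical

namespace FQQ

open Finset Polynomial FGO

/-- the bad primes for the local solubility -/
def BadT {m : ℕ} (p : ℕ) (f : Vn m) (u : V × V) : Prop :=
  Dv p (crs u.1 u.2) ∨ ((p : ℤ) ∣ ds u.1 ∧ (p : ℤ) ∣ ds u.2) ∨ Pq (cV p u.1) ∣ Pf (cN p f) ∨
    Pq (cV p u.2) ∣ Pf (cN p f) ∨
    ((p : ℤ) ∣ rs u.1 u.2 ∧ (E (cN p f) (cV p u.1) (cV p u.2) 1 ∨ E (cN p f) (cV p u.1) (cV p u.2) 2))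

/-- The curve `y² = f v w` has a point over `ℚ_p`. -/
def LocP {m : ℕ} (p : ℕ) [Fact p.Prime] (f : Vn m) (u : V × V) : Prop :=
  ∃ x z y : ℚ_[p], ¬ (x = 0 ∧ z = 0) ∧
    y ^ 2 = hv (fun i => (f i : ℚ_[p])) x z * qv ((u.1.1 : ℚ_[p]), (u.1.2.1 : ℚ_[p]), (u.1.2.2 : ℚ_[p])) x z *
      qv ((u.2.1 : ℚ_[p]), (u.2.2.1 : ℚ_[p]), (u.2.2.2 : ℚ_[p])) x z

/-- The curve `y² = f v w` has points over all `ℚ_p` and over `ℝ`. -/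
def ELS3 {m : ℕ} (f : Vn m) (u : V × V) : Prop :=
  (∀ (p : ℕ) [Fact p.Prime], LocP p f u) ∧
    ∃ x z y : ℝ, ¬ (x = 0 ∧ z = 0) ∧
      y ^ 2 = hv (fun i => (f i : ℝ)) x z * qv ((u.1.1 : ℝ), (u.1.2.1 : ℝ), (u.1.2.2 : ℝ)) x z *
        qv ((u.2.1 : ℝ), (u.2.2.1 : ℝ), (u.2.2.2 : ℝ)) x z

end FQQ
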