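import Pool.Agent.Lib.MP_1ad228_ntG.Defs
import Mathlib

/-!
# MP_10e784_ag, hyperelliptic curves `y² = f(x, z) v(x, z) w(x, z)`: definitions

`f` is a binary form of even degree `m`, `v` and `w` are binary quadratic forms (vectors `(a, b, c) : FGO.V`).
Everything is defined over an arbitrary commutative ring `F`; it is used for `F = ℤ`, `ZMod p`, `ZMod (p ^ 2)`.
The three forms are numbered `0, 1, 2` (`f`, `v`, `w`); `R i` is the resultant of the two forms with indices `≠ i`.
-/

set_option autoImplicit false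

namespace FQQ

open Finset Polynomial FGO

/-- integer binary forms of degree `m`: `f i` is the coefficient of `x^i z^(m-i)` -/
abbrev Vn (m : ℕ) : Type := Fin (m + 1) → ℤ

section ring

variable {F : Type} [CommRing F] {m : ℕ}

/-- the value of the form `f` at `(x, z)` -/
def hv (f : Fin (m + 1) → F) (x z : F) : F := ∑ i : Fin (m + 1), f i * x ^ (i : ℕ) * z ^ (m - (i : ℕ))

/-- the value of the quadratic form `v` at `(x, z)` -/
def qv (v : F × F × F) (x z : F) : F := v.1 * x ^ 2 + v.2.1 * x * z + v.2.2 * z ^ 2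

/-- the discriminant of a quadratic form -/
def ds (v : F × F × F) : F := v.2.1 ^ 2 - 4 * v.1 * v.2.2

/-- the resultant of two quadratic forms -/
def rs (v w : F × F × F) : F :=
  (v.1 * w.2.2 - w.1 * v.2.2) ^ 2 - (v.1 * w.2.1 - w.1 * v.2.1) * (v.2.1 * w.2.2 - w.2.1 * v.2.2)

/-- the polynomial `f(X, 1)` -/
noncomputable def Pf (f : Fin (m + 1) → F) : F[X] := ∑ i : Fin (m + 1), C (f i) * X ^ (i : ℕ)

/-- the polynomial `v(X, 1)` -/
noncomputable def Pq (v : F × F × F) : F[X] := C v.1 * X ^ 2 + C v.2.1 * X + C v.2.2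

/-- the resultant of the form `f` of degree `m` and the quadratic form `v` -/
noncomputable def Rs (f : Fin (m + 1) → F) (v : F × F × F) : F := (Pf f).resultant (Pq v) m 2

/-- the value of the form number `i` -/
def Fv (f : Fin (m + 1) → F) (v w : F × F × F) : Fin 3 → F → F → F :=
  ![fun x z => hv f x z, fun x z => qv v x z, fun x z => qv w x z]

/-- `Rv i` is the resultant of the two forms with indices different from `i` -/
noncomputable def Rv (f : Fin (m + 1) → F) (v w : F × F × F) : Fin 3 → F := ![rs v w, Rs f w, Rs f v]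

/-- the two discriminants -/
def Dc (v w : F × F × F) : Fin 2 → F := ![ds v, ds w]

/-- the two forms with indices different from `i` have a common zero -/
def E (f : Fin (m + 1) → F) (v w : F × F × F) (i : Fin 3) : Prop :=
  ∃ x z : F, ¬ (x = 0 ∧ z = 0) ∧ ∀ j : Fin 3, j ≠ i → Fv f v w j x z = 0

/-- one of the five quantities vanishes -/
def Em (f : Fin (m + 1) → F) (v w : F × F × F) : Prop := (∃ i, E f v w i) ∨ ∃ j, Dc v w j = 0

/-- nonzero squares -/
def Sq (x : F) : Prop := x ≠ 0 ∧ IsSquare x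

/-- `U i` times the resultants with index `j ≠ i` and `t j = true` -/
noncomputable def Kc (t : Fin 3 → Bool) (U : Fin 3 → F) (f : Fin (m + 1) → F) (v w : F × F × F) (i : Fin 3) : F :=
  U i * ∏ j ∈ univ.erase i, if t j then Rv f v w j else 1

end ring

/-- the labels of a prime -/
inductive Lab
  | O : Lab
  | A : Fin 3 → Lab
  | B : Fin 3 → Lab
  | C : Fin 2 → Lab
  deriving DecidableEq, Fintype

/-- the event described by a label, over the ring `F` -/
def Ev {F : Type} [CommRing F] {m : ℕ} (t : Fin 3 → Bool) (U : Fin 3 → F) (f : Fin (m + 1) → F) (v w : F × F × F) :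
    Lab → Prop
  | Lab.O => ¬ Em f v w
  | Lab.A i => E f v w i
  | Lab.B i => ∃ x z : F, ¬ (x = 0 ∧ z = 0) ∧ (∀ j : Fin 3, j ≠ i → Fv f v w j x z = 0) ∧
      Sq (Kc t U f v w i * Fv f v w i x z)
  | Lab.C j => Dc v w j = 0 ∧ ∃ x z : F, Sq (Kc t U f v w j.succ * Fv f v w j.succ x z)

/-- reduction modulo `q` -/
def cN (q : ℕ) {m : ℕ} (f : Vn m) : Fin (m + 1) → ZMod q := fun i => (f i : ZMod q)

/-- reduction modulo `q` -/
def cV (q : ℕ) (v : V) : ZMod q × ZMod q × ZMod q := ((v.1 : ZMod q), (v.2.1 : ZMod q), (v.2.2 : ZMod q))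

/-- the value at `(r, 1)` -/
def evn {m : ℕ} (f : Vn m) (r : ℤ) : ℤ := ∑ i : Fin (m + 1), f i * r ^ (i : ℕ)

/-- congruence modulo `q` of all coordinates -/
def CgN {m : ℕ} (q : ℕ) (f g : Vn m) : Prop := ∀ i, (q : ℤ) ∣ f i - g i

/-- the forms with all coefficients in `[-H, H]` -/
noncomputable def boxN (m H : ℕ) : Finset (Vn m) := Fintype.piFinset fun _ => Icc (-(H : ℤ)) (H : ℤ)

/-- the forms with all coefficients in `[0, q)` -/
noncomputable def cubeN (m q : ℕ) : Finset (Vn m) := Fintype.piFinset fun _ => Ico (0 : ℤ) (q : ℤ)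

/-- functions which depend only on the residues modulo `q` -/
def PerN {m : ℕ} (q : ℕ) (φ : Vn m → ℝ) : Prop := ∀ f g : Vn m, CgN q f g → φ f = φ g

/-- the mean value of a function modulo `q` -/
noncomputable def ExN (m q : ℕ) (φ : Vn m → ℝ) : ℝ := (∑ f ∈ cubeN m q, φ f) / (q : ℝ) ^ (m + 1)

/-- the mean value modulo `q` of a function of `f` and `(v, w)` -/
noncomputable def E3 (m q : ℕ) (φ : Vn m → V × V → ℝ) : ℝ := Ex q fun u => ExN m q fun f => φ f u

/-- functions of `f` and `(v, w)` which depend only on the residues modulo `q` -/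
def Per3 {m : ℕ} (q : ℕ) (φ : Vn m → V × V → ℝ) : Prop :=
  ∀ (f g : Vn m) (u u' : V × V), CgN q f g → Cg q u.1 u'.1 → Cg q u.2 u'.2 → φ f u = φ g u'

/-- the kernel -/
noncomputable def WN {m : ℕ} (J M : ℕ) (f : Vn m) : ℝ := ∏ i, wt J M (f i)

/-- the coset of `c` modulo `q` in the lattice `evn f r ≡ 0 mod M` -/
def CosN {m : ℕ} (M q : ℕ) (r : ℤ) (c f : Vn m) : Prop := CgN q f c ∧ (M : ℤ) ∣ evn f r

/-- The root `r` modulo `M` is good: the dual of the lattice `evn f r ≡ 0 mod M` contains no short vectors. -/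
def GoodN (m H q0 M : ℕ) (r : ℤ) : Prop :=
  ∀ k : Vn m, k ≠ 0 → (∃ t : ℤ, ∀ i, (M : ℤ) ∣ k i - t * r ^ (i : ℕ)) → ∃ i, q0 * M ≤ 4 * H * (k i).natAbs

open Classical in
/-- the indicator function of the event of a label -/
noncomputable def gp {m : ℕ} (t : Fin 3 → Bool) (U : Fin 3 → ℤ) (l : Lab) (p : ℕ) (f : Vn m) (u : V × V) : ℝ :=
  if Ev t (fun i => (U i : ZMod p)) (cN p f) (cV p u.1) (cV p u.2) l then 1 else 0

open Classical in
/-- the indicator function of `Em` -/
noncomputable def xo {m : ℕ} (p : ℕ) (f : Vn m) (u : V × V) : ℝ :=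
  if Em (cN p f) (cV p u.1) (cV p u.2) then 1 else 0

/-- the upper bounds for the densities of the labels -/
noncomputable def eb (l : Lab) (p : ℕ) : ℝ :=
  match l with
  | Lab.O => 1
  | Lab.A _ => 1 / (p : ℝ) + 1 / (p : ℝ) ^ 2
  | Lab.B _ => (1 / (p : ℝ) + 3 / (p : ℝ) ^ 2) / 2
  | Lab.C _ => 1 / (2 * (p : ℝ))

/-- the lower bound for the density of `Em` -/
noncomputable def dn5 (p : ℕ) : ℝ := 5 / (p : ℝ) - 22 / (p : ℝ) ^ 2

/-- the weights of the labels -/
noncomputable def yw (l : Lab) : ℝ :=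
  match l with
  | Lab.O => 1
  | Lab.A _ => 2 / 3
  | Lab.B _ => 2 / 3
  | Lab.C _ => 2

/-- the product of the primes in `Q` with label `l` -/
def lprod (Q : Finset ℕ) (lam : ℕ → Lab) (l : Lab) : ℕ := ∏ p ∈ Q.filter (fun p => lam p = l), p

/-- the label which is used for the modulus number `i` in type `t i` -/
def LT (t : Fin 3 → Bool) (i : Fin 3) : Lab := if t i then Lab.A i else Lab.B i

end FQQ
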