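import Pool.Agent.Lib.MP_10e784_agF.WD

/-! GT: the counting theorem `thm_all` in the coordinates `(Fin 2 × Fin 3 → ℤ) × (Fin (m + 1) → ℤ)`. -/

set_option autoImplicit false

namespace FQQ

open Finset Polynomial FGO

/-- The curve `y² = q₀ q₁ F` has a point over `K`. -/
def GPt (K : Type) [Field K] {m : ℕ} (a : (Fin 2 × Fin 3 → ℤ) × (Fin (m + 1) → ℤ)) : Prop :=
  ∃ x z y : K, (x ≠ 0 ∨ z ≠ 0) ∧
    y ^ 2 = (∏ i : Fin 2, ∑ j : Fin 3, (a.1 (i, j) : K) * x ^ (j : ℕ) * z ^ (2 - (j : ℕ))) *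
      ∑ i : Fin (m + 1), (a.2 i : K) * x ^ (i : ℕ) * z ^ (m - (i : ℕ))

/-- The polynomial `q₀ q₁ F` at `z = 1`. -/
noncomputable def GPol {m : ℕ} (a : (Fin 2 × Fin 3 → ℤ) × (Fin (m + 1) → ℤ)) : ℚ[X] :=
  (∏ i : Fin 2, ∑ j : Fin 3, C (a.1 (i, j) : ℚ) * X ^ (j : ℕ)) * ∑ i : Fin (m + 1), C (a.2 i : ℚ) * X ^ (i : ℕ)

/-- the change of the notation -/
def geq (m : ℕ) : ((Fin 2 × Fin 3 → ℤ) × (Fin (m + 1) → ℤ)) ≃ Vn m × (V × V) where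
  toFun a := (a.2, ((a.1 (0, 2), a.1 (0, 1), a.1 (0, 0)), (a.1 (1, 2), a.1 (1, 1), a.1 (1, 0))))
  invFun g := (fun ij => ![![g.2.1.2.2, g.2.1.2.1, g.2.1.1], ![g.2.2.2.2, g.2.2.2.1, g.2.2.1]] ij.1 ij.2, g.1)
  left_inv a := by
    refine Prod.ext ?_ rfl
    funext ⟨i, j⟩
    fin_cases i <;> fin_cases j <;> rfl
  right_inv g := rfl

theorem geq_one {K : Type} [Field K] (v : Fin 3 → ℤ) (x z : K) :
    ∑ j : Fin 3, (v j : K) * x ^ (j : ℕ) * z ^ (2 - (j : ℕ)) = qv ((v 2 : K), (v 1 : K), (v 0 : K)) x z := by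
  simp only [Fin.sum_univ_three, qv, Fin.val_zero, Fin.val_one, Fin.val_two, pow_zero, pow_one, Nat.sub_zero,
    Nat.sub_self, mul_one, show 2 - 1 = 1 from rfl]
  ring

theorem geq_pt (K : Type) [Field K] {m : ℕ} (a : (Fin 2 × Fin 3 → ℤ) × (Fin (m + 1) → ℤ)) :
    GPt K a ↔ ∃ x z y : K, ¬ (x = 0 ∧ z = 0) ∧
      y ^ 2 = hv (fun i => ((geq m a).1 i : K)) x z *
        qv (((geq m a).2.1.1 : K), ((geq m a).2.1.2.1 : K), ((geq m a).2.1.2.2 : K)) x z *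
        qv (((geq m a).2.2.1 : K), ((geq m a).2.2.2.1 : K), ((geq m a).2.2.2.2 : K)) x z := by
  unfold GPt hv
  refine exists_congr fun x => exists_congr fun z => exists_congr fun y => and_congr ?_ ?_
  · rw [not_and_or]
  · rw [Fin.prod_univ_two, geq_one (fun j => a.1 (0, j)), geq_one (fun j => a.1 (1, j))]
    have e : (qv (((fun j => a.1 (0, j)) 2 : K), ((fun j => a.1 (0, j)) 1 : K), ((fun j => a.1 (0, j)) 0 : K)) x z *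
        qv (((fun j => a.1 (1, j)) 2 : K), ((fun j => a.1 (1, j)) 1 : K), ((fun j => a.1 (1, j)) 0 : K)) x z) *
        ∑ i : Fin (m + 1), (a.2 i : K) * x ^ (i : ℕ) * z ^ (m - (i : ℕ)) =
      (∑ i : Fin (m + 1), (a.2 i : K) * x ^ (i : ℕ) * z ^ (m - (i : ℕ))) *
        qv (((fun j => a.1 (0, j)) 2 : K), ((fun j => a.1 (0, j)) 1 : K), ((fun j => a.1 (0, j)) 0 : K)) x z *
        qv (((fun j => a.1 (1, j)) 2 : K), ((fun j => a.1 (1, j)) 1 : K), ((fun j => a.1 (1, j)) 0 : K)) x z := by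
      ring
    rw [e]
    rfl

theorem geq_pol {m : ℕ} (a : (Fin 2 × Fin 3 → ℤ) × (Fin (m + 1) → ℤ)) :
    GPol a = PQ3 (geq m a).1 (geq m a).2 := by
  unfold GPol PQ3 Pf Pq
  simp only [Fin.prod_univ_two, Fin.sum_univ_three, Fin.val_zero, Fin.val_one, Fin.val_two, pow_zero, pow_one,
    mul_one, geq, Equiv.coe_fn_mk]
  ring

theorem geq_box {m k H : ℕ} (a : (Fin 2 × Fin 3 → ℤ) × (Fin (m + 1) → ℤ)) :
    geq m a ∈ Bx m (H ^ k) H ↔ (∀ i, |a.1 i| ≤ (H : ℤ)) ∧ ∀ i, |a.2 i| ≤ (H : ℤ) ^ k := by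
  rw [WD_mem]
  simp only [geq, Equiv.coe_fn_mk, Nat.cast_pow]
  constructor
  · rintro ⟨h1, ⟨h2, h3, h4⟩, h5, h6, h7⟩
    refine ⟨?_, h1⟩
    rintro ⟨i, j⟩
    fin_cases i <;> fin_cases j <;> assumption
  · rintro ⟨h1, h2⟩
    exact ⟨h2, ⟨h1 _, h1 _, h1 _⟩, h1 _, h1 _, h1 _⟩

theorem pf_natDegree {m : ℕ} (f : Fin (m + 1) → ℚ) (h : f (Fin.last m) ≠ 0) : (Pf f).natDegree = m := by
  have hle : (Pf f).natDegree ≤ m := by
    unfold Pf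
    refine natDegree_sum_le_of_forall_le _ _ fun i _ => ?_
    refine (natDegree_C_mul_X_pow_le _ _).trans ?_
    exact Nat.lt_succ_iff.mp i.2
  refine natDegree_eq_of_le_of_coeff_ne_zero hle ?_
  unfold Pf
  rw [finsetSum_coeff, Finset.sum_eq_single (Fin.last m)]
  · rw [coeff_C_mul_X_pow, Fin.val_last, if_pos rfl]
    exact h
  · intro i _ hi
    rw [coeff_C_mul_X_pow, if_neg]
    intro e
    exact hi (Fin.ext (by rw [Fin.val_last]; exact e.symm))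
  · intro h1
    exact absurd (Finset.mem_univ _) h1

theorem pq3_natDegree {m : ℕ} (g : Vn m × (V × V)) (h0 : g.1 (Fin.last m) ≠ 0) (h1 : g.2.1.1 ≠ 0)
    (h2 : g.2.2.1 ≠ 0) : (PQ3 g.1 g.2).natDegree = m + 4 := by
  have e0 := pf_natDegree (fun i => (g.1 i : ℚ)) (Int.cast_ne_zero.2 h0)
  have e1 : (Pq ((g.2.1.1 : ℚ), (g.2.1.2.1 : ℚ), (g.2.1.2.2 : ℚ))).natDegree = 2 :=
    natDegree_quadratic (Int.cast_ne_zero.2 h1)
  have e2 : (Pq ((g.2.2.1 : ℚ), (g.2.2.2.1 : ℚ), (g.2.2.2.2 : ℚ))).natDegree = 2 :=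
    natDegree_quadratic (Int.cast_ne_zero.2 h2)
  have n0 : Pf (fun i => (g.1 i : ℚ)) ≠ 0 := by
    intro h
    have h3 : (Pf (fun i => (g.1 i : ℚ))).coeff m = (g.1 (Fin.last m) : ℚ) := by
      unfold Pf
      rw [finsetSum_coeff, Finset.sum_eq_single (Fin.last m)]
      · rw [coeff_C_mul_X_pow, Fin.val_last, if_pos rfl]
      · intro i _ hi
        rw [coeff_C_mul_X_pow, if_neg]
        intro e
        exact hi (Fin.ext (by rw [Fin.val_last]; exact e.symm))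
      · intro h1
        exact absurd (Finset.mem_univ _) h1
    rw [h, coeff_zero] at h3
    exact (Int.cast_ne_zero.2 h0) h3.symm
  have n1 : Pq ((g.2.1.1 : ℚ), (g.2.1.2.1 : ℚ), (g.2.1.2.2 : ℚ)) ≠ 0 := by
    intro h
    rw [h, natDegree_zero] at e1
    omega
  have n2 : Pq ((g.2.2.1 : ℚ), (g.2.2.2.1 : ℚ), (g.2.2.2.2 : ℚ)) ≠ 0 := by
    intro h
    rw [h, natDegree_zero] at e2
    omega
  unfold PQ3
  rw [natDegree_mul (mul_ne_zero n0 n1) n2, natDegree_mul n0 n1, e0, e1, e2]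

theorem genus_two {m k : ℕ} (hm : 2 ≤ m) (hme : Even m) (hk : m / 2 + 10 ≤ k) :
    (∃ (C : ℝ) (H1 : ℕ), ∀ H : ℕ, H1 ≤ H →
      (Nat.card {a : (Fin 2 × Fin 3 → ℤ) × (Fin (m + 1) → ℤ) //
        (∀ i, |a.1 i| ≤ (H : ℤ)) ∧ (∀ i, |a.2 i| ≤ (H : ℤ) ^ k) ∧ GPt ℚ a} : ℝ) ≤
        C * (H : ℝ) ^ (6 + k * (m + 1)) * (Real.log (Real.log H))⁻¹) ∧
    ∃ (η : ℝ) (H0 : ℕ), 0 < η ∧ ∀ H : ℕ, H0 ≤ H → η * (H : ℝ) ^ (6 + k * (m + 1)) ≤
      (Nat.card {a : (Fin 2 × Fin 3 → ℤ) × (Fin (m + 1) → ℤ) //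
        (∀ i, |a.1 i| ≤ (H : ℤ)) ∧ (∀ i, |a.2 i| ≤ (H : ℤ) ^ k) ∧
        Squarefree (GPol a) ∧ (GPol a).natDegree = m + 4 ∧
        GPt ℝ a ∧ (∀ (p : ℕ) [Fact p.Prime], GPt ℚ_[p] a) ∧ ¬ GPt ℚ a} : ℝ) := by
  obtain ⟨c, C, hc, N₀, h⟩ := thm_all m k hm hme hk
  have key : ∀ N : ℕ, N₀ ≤ N → _ := fun N hN => h N hN
    (fun g => g ∈ Bx m (N ^ k) N ∧ HasPt g.1 g.2)
    (fun g => g ∈ Bx m (N ^ k) N ∧ Squarefree (PQ3 g.1 g.2) ∧ (PQ3 g.1 g.2).natDegree = m + 4 ∧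
      (∃ x z y : ℝ, ¬ (x = 0 ∧ z = 0) ∧
        y ^ 2 = hv (fun i => (g.1 i : ℝ)) x z * qv ((g.2.1.1 : ℝ), (g.2.1.2.1 : ℝ), (g.2.1.2.2 : ℝ)) x z *
          qv ((g.2.2.1 : ℝ), (g.2.2.2.1 : ℝ), (g.2.2.2.2 : ℝ)) x z) ∧
      (∀ (p : ℕ) [Fact p.Prime], LocP p g.1 g.2) ∧ ¬ HasPt g.1 g.2)
    (fun g hg => ⟨hg.1, sel_of_pt g.1 g.2 hg.2⟩)
    (fun g hg h1 h2 h3 h4 h5 h6 => ⟨hg, h5, pq3_natDegree g h2 h3 h4, h1.2, h1.1,
      fun h7 => h6 (sel_of_pt g.1 g.2 h7)⟩)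
    (fun g hg => hg.1)
  have epow : ∀ N : ℕ, (((N : ℝ) ^ k) ^ (m + 1) * (N : ℝ) ^ 6) = (N : ℝ) ^ (6 + k * (m + 1)) := by
    intro N
    rw [← pow_mul, ← pow_add, add_comm]
  refine ⟨⟨C, N₀, fun H hH => ?_⟩, ⟨c, N₀, hc, fun H hH => ?_⟩⟩
  · have h1 := (key H hH).1
    rw [epow, div_eq_mul_inv] at h1
    refine le_trans (le_of_eq ?_) h1
    rw [Nat.cast_inj]
    refine Nat.card_congr (Equiv.subtypeEquiv (geq m) fun a => ?_)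
    rw [geq_box, geq_pt, and_assoc]
    rfl
  · have h1 := (key H hH).2
    rw [epow] at h1
    refine le_trans h1 (le_of_eq ?_)
    rw [Nat.cast_inj]
    refine Nat.card_congr (Equiv.subtypeEquiv (geq m) fun a => ?_).symm
    rw [geq_box, geq_pol, geq_pt, geq_pt, and_assoc]
    refine and_congr_right fun _ => and_congr_right fun _ => and_congr_right fun _ => and_congr_right fun _ =>
      and_congr_right fun _ => and_congr ?_ Iff.rfl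
    exact forall_congr' fun p => forall_congr' fun hp => geq_pt ℚ_[p] a

end FQQ
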