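import Pool.Agent.Lib.MP_10e784_agF.HD

/-! JOB HA -/

set_option autoImplicit false

open Classical

namespace FQQ

open Finset Polynomial FGO

theorem HA_ev (d : ℤ) (v : V) (r : ℤ) : d ∣ ev v r - ev v (r % d) := by
  have h : r - r % d = d * (r / d) := by
    have := Int.emod_add_mul_ediv r d
    linarith
  refine ⟨(r / d) * (v.1 * (r + r % d) + v.2.1), ?_⟩
  unfold ev
  have e : v.1 * r ^ 2 + v.2.1 * r + v.2.2 - (v.1 * (r % d) ^ 2 + v.2.1 * (r % d) + v.2.2) =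
      (r - r % d) * (v.1 * (r + r % d) + v.2.1) := by ring
  rw [e, h]
  ring

theorem HA_ev2 {d d' : ℤ} (hd : d' ∣ d) (v : V) (r : ℤ) (h : d' ∣ ev v r) : d' ∣ ev v (r % d) := by
  have h1 := hd.trans (HA_ev d v r)
  have h2 : ev v (r % d) = ev v r - (ev v r - ev v (r % d)) := by ring
  rw [h2]
  exact dvd_sub h h1

theorem HA_cop {D e : ℕ} (hD : Squarefree D) : e.Coprime (D / D.gcd e) := by
  have hD0 : 0 < D := Nat.pos_of_ne_zero hD.ne_zero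
  have hg : 0 < D.gcd e := Nat.gcd_pos_of_pos_left _ hD0
  have h1 : D.gcd e * (D / D.gcd e) = D := Nat.mul_div_cancel' (Nat.gcd_dvd_left D e)
  refine Nat.Coprime.symm ?_
  by_contra hc
  obtain ⟨p, hp, hp1, hp2⟩ := Nat.Prime.not_coprime_iff_dvd.1 hc
  have h2 : p ∣ D := hp1.trans (Nat.div_dvd_of_dvd (Nat.gcd_dvd_left D e))
  have h3 : p ∣ D.gcd e := Nat.dvd_gcd h2 hp2
  have h4 : p * p ∣ D := by
    rw [← h1]
    exact Nat.mul_dvd_mul h3 hp1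
  exact hp.one_lt.ne' (Nat.isUnit_iff.1 (hD p h4))

/-- Proof. Let `D1, D2, r, k, t` be as in `ExcF` (`¬ GoodN`: `k ≠ 0`, `D1 D2 ∣ k i - t r^i`, `4 H |k i| < q0 D1 D2` for `i = 0, 1, 2`). `e > 0` the greatest common divisor of the coordinates of `k`, `n = (k 2, k 1, k 0)/e` (primitive, `≠ 0`), `d1 = D1/gcd(D1, e)`,
`d2 = D2/gcd(D2, e)`, `d = d1 d2`. `D1 D2` is squarefree, so `e` is prime to `d`; let `e e' ≡ 1 mod d`, `s = e' t`: `n ≡ s (r², r, 1) mod d`, hence the congruence for all `v`. `s` is prime to `d`: a prime dividing both would divide all coordinates of `n`.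
`4 H nm(n) e = 4 H nm(k) < q0 D1 D2 = q0 d gcd(D1, e) gcd(D2, e) ≤ q0 d e` (the two gcd's are coprime divisors of `e`). Finally replace `r` by `r % d` (all conditions depend only on `r mod d`). `evn f r = ev (tV f) r` (`Fin.sum_univ_three`). `D ∣ ev w r` implies `d1 ∣ ev w r` etc. -/
theorem occ_of_excF {H q0 P : ℕ} {f : Vn 2} {u : V × V} (h : ExcF H q0 P f u) :
    ∃ (d1 d2 : ℕ) (r : ℤ), Occ H q0 P u.1 u.2 d1 d2 r ∧ 0 ≤ r ∧ r < ((d1 * d2 : ℕ) : ℤ) ∧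
      ((d1 * d2 : ℕ) : ℤ) ∣ ev (tV f) r := by
  obtain ⟨D1, D2, r, hs1, hs2, hp1, hp2, hle1, hle2, hcop, hcr, hw, hv, hf, hg⟩ := h
  unfold GoodN at hg
  push Not at hg
  obtain ⟨k, hk0, ⟨t, ht⟩, hk⟩ := hg
  -- the greatest common divisor
  obtain ⟨e, he⟩ : ∃ e : ℕ, e = Nat.gcd (k 0).natAbs (Nat.gcd (k 1).natAbs (k 2).natAbs) := ⟨_, rfl⟩
  have hek : ∀ i, (e : ℤ) ∣ k i := by
    intro i
    rw [Int.natCast_dvd, he]
    fin_cases i
    · exact Nat.gcd_dvd_left _ _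
    · exact (Nat.gcd_dvd_right _ _).trans (Nat.gcd_dvd_left _ _)
    · exact (Nat.gcd_dvd_right _ _).trans (Nat.gcd_dvd_right _ _)
  have hgr : ∀ q : ℕ, (∀ i, (q : ℤ) ∣ k i) → q ∣ e := by
    intro q hq
    rw [he]
    exact Nat.dvd_gcd (Int.natCast_dvd.1 (hq 0)) (Nat.dvd_gcd (Int.natCast_dvd.1 (hq 1)) (Int.natCast_dvd.1 (hq 2)))
  have he0 : 0 < e := by
    rw [Nat.pos_iff_ne_zero]
    intro h0
    apply hk0
    funext i
    have := hek i
    rw [h0] at this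
    simpa using this
  have he0' : (e : ℤ) ≠ 0 := by exact_mod_cast he0.ne'
  choose k' hk' using hek
  obtain ⟨n, hn⟩ : ∃ n : V, n = (k' 2, k' 1, k' 0) := ⟨_, rfl⟩
  have hprim : Prim n := by
    intro q hq
    rw [hn] at hq
    obtain ⟨q1, q2, q3⟩ := hq
    simp only at q1 q2 q3
    have h1 : e * q ∣ e := by
      refine hgr (e * q) fun i => ?_
      rw [hk' i]
      push_cast
      refine mul_dvd_mul_left _ ?_
      fin_cases i
      · exact q3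
      · exact q2
      · exact q1
    have h2 : e * q ∣ e * 1 := by rwa [mul_one]
    exact Nat.dvd_one.1 (Nat.dvd_of_mul_dvd_mul_left he0 h2)
  have hn0 : n ≠ 0 := by
    intro h0
    have h1 := hprim 0 (by
      rw [h0]
      exact ⟨dvd_refl _, dvd_refl _, dvd_refl _⟩)
    omega
  -- the moduli
  obtain ⟨g1, hg1⟩ : ∃ g1 : ℕ, g1 = D1.gcd e := ⟨_, rfl⟩
  obtain ⟨g2, hg2⟩ : ∃ g2 : ℕ, g2 = D2.gcd e := ⟨_, rfl⟩
  obtain ⟨d1, hd1⟩ : ∃ d1 : ℕ, d1 = D1 / g1 := ⟨_, rfl⟩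
  obtain ⟨d2, hd2⟩ : ∃ d2 : ℕ, d2 = D2 / g2 := ⟨_, rfl⟩
  have hD1 : g1 * d1 = D1 := by
    rw [hd1, hg1]
    exact Nat.mul_div_cancel' (Nat.gcd_dvd_left D1 e)
  have hD2 : g2 * d2 = D2 := by
    rw [hd2, hg2]
    exact Nat.mul_div_cancel' (Nat.gcd_dvd_left D2 e)
  have hdD1 : d1 ∣ D1 := ⟨g1, by rw [← hD1]; ring⟩
  have hdD2 : d2 ∣ D2 := ⟨g2, by rw [← hD2]; ring⟩
  have hc1 : e.Coprime d1 := by
    rw [hd1, hg1]
    exact HA_cop hs1
  have hc2 : e.Coprime d2 := by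
    rw [hd2, hg2]
    exact HA_cop hs2
  have hc : e.Coprime (d1 * d2) := Nat.Coprime.mul_right hc1 hc2
  have hdD : d1 * d2 ∣ D1 * D2 := Nat.mul_dvd_mul hdD1 hdD2
  have hdD' : ((d1 * d2 : ℕ) : ℤ) ∣ ((D1 * D2 : ℕ) : ℤ) := by exact_mod_cast hdD
  have hd1p : 0 < d1 := Nat.pos_of_dvd_of_pos hdD1 hp1
  have hd2p : 0 < d2 := Nat.pos_of_dvd_of_pos hdD2 hp2
  have hdp : 0 < d1 * d2 := Nat.mul_pos hd1p hd2p
  obtain ⟨a, b, hab⟩ := (Nat.isCoprime_iff_coprime.2 hc)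
  -- the congruences
  have hcong : ∀ i, ((d1 * d2 : ℕ) : ℤ) ∣ k' i - (a * t) * r ^ (i : ℕ) := by
    intro i
    obtain ⟨c, hc'⟩ := hdD'.trans (ht i)
    refine ⟨a * c + b * k' i, ?_⟩
    rw [hk' i] at hc'
    have : k' i = (a * e + b * ((d1 * d2 : ℕ) : ℤ)) * k' i := by rw [hab, one_mul]
    linear_combination a * hc' + this
  have hdual0 : ∀ v : V, ((d1 * d2 : ℕ) : ℤ) ∣ dot n v - (a * t) * ev v r := by
    intro v
    have h0 := hcong 0
    have h1 := hcong 1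
    have h2 := hcong 2
    have e : dot n v - (a * t) * ev v r = (k' 2 - (a * t) * r ^ ((2 : Fin 3) : ℕ)) * v.1 +
        (k' 1 - (a * t) * r ^ ((1 : Fin 3) : ℕ)) * v.2.1 + (k' 0 - (a * t) * r ^ ((0 : Fin 3) : ℕ)) * v.2.2 := by
      rw [hn]
      unfold dot ev
      simp only [Fin.val_zero, Fin.val_one, Fin.val_two, pow_zero, pow_one]
      ring
    rw [e]
    exact dvd_add (dvd_add (h2.mul_right _) (h1.mul_right _)) (h0.mul_right _)
  have hcs : IsCoprime (a * t) ((d1 * d2 : ℕ) : ℤ) := by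
    rw [Int.isCoprime_iff_gcd_eq_one]
    have hx1 : ((Int.gcd (a * t) ((d1 * d2 : ℕ) : ℤ) : ℕ) : ℤ) ∣ a * t := Int.gcd_dvd_left _ _
    have hx2 : ((Int.gcd (a * t) ((d1 * d2 : ℕ) : ℤ) : ℕ) : ℤ) ∣ ((d1 * d2 : ℕ) : ℤ) := Int.gcd_dvd_right _ _
    have hx : ∀ i, ((Int.gcd (a * t) ((d1 * d2 : ℕ) : ℤ) : ℕ) : ℤ) ∣ k' i := by
      intro i
      have h1 := hx2.trans (hcong i)
      have h2 : k' i = (k' i - (a * t) * r ^ (i : ℕ)) + (a * t) * r ^ (i : ℕ) := by ring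
      rw [h2]
      exact dvd_add h1 (hx1.mul_right _)
    refine hprim _ ?_
    rw [hn]
    exact ⟨hx 2, hx 1, hx 0⟩
  -- the size
  have hgg : g1 * g2 ≤ e := by
    have h1 : g1.Coprime g2 := by
      rw [hg1, hg2]
      exact Nat.Coprime.coprime_dvd_left (Nat.gcd_dvd_left _ _) (Nat.Coprime.coprime_dvd_right (Nat.gcd_dvd_left _ _) hcop)
    refine Nat.le_of_dvd he0 (h1.mul_dvd_of_dvd_of_dvd ?_ ?_)
    · rw [hg1]
      exact Nat.gcd_dvd_right _ _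
    · rw [hg2]
      exact Nat.gcd_dvd_right _ _
  have hsz : ∀ i, 4 * H * (k' i).natAbs < q0 * (d1 * d2) := by
    intro i
    have h1 := hk i
    rw [hk' i, Int.natAbs_mul, Int.natAbs_natCast, ← hD1, ← hD2] at h1
    have h2 : q0 * (g1 * d1 * (g2 * d2)) ≤ e * (q0 * (d1 * d2)) := by
      calc q0 * (g1 * d1 * (g2 * d2)) = (g1 * g2) * (q0 * (d1 * d2)) := by ring
        _ ≤ e * (q0 * (d1 * d2)) := Nat.mul_le_mul_right _ hgg
    have h3 : e * (4 * H * (k' i).natAbs) < e * (q0 * (d1 * d2)) := by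
      calc e * (4 * H * (k' i).natAbs) = 4 * H * (e * (k' i).natAbs) := by ring
        _ < q0 * (g1 * d1 * (g2 * d2)) := h1
        _ ≤ _ := h2
    exact Nat.lt_of_mul_lt_mul_left h3
  have hnm : 4 * H * nm n < q0 * (d1 * d2) := by
    rw [hn]
    unfold nm
    simp only
    rcases max_choice (k' 2).natAbs (max (k' 1).natAbs (k' 0).natAbs) with h1 | h1
    · rw [h1]
      exact hsz 2
    · rw [h1]
      rcases max_choice (k' 1).natAbs (k' 0).natAbs with h2 | h2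
      · rw [h2]
        exact hsz 1
      · rw [h2]
        exact hsz 0
  have hdz : ((d1 * d2 : ℕ) : ℤ) ≠ 0 := by exact_mod_cast hdp.ne'
  have hdd1 : (d1 : ℤ) ∣ ((d1 * d2 : ℕ) : ℤ) := by
    exact_mod_cast (Dvd.intro d2 rfl : d1 ∣ d1 * d2)
  have hdd2 : (d2 : ℤ) ∣ ((d1 * d2 : ℕ) : ℤ) := by
    exact_mod_cast (Dvd.intro_left d1 rfl : d2 ∣ d1 * d2)
  refine ⟨d1, d2, r % ((d1 * d2 : ℕ) : ℤ), ⟨hs1.squarefree_of_dvd hdD1, hs2.squarefree_of_dvd hdD2, hd1p, hd2p,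
    (Nat.le_of_dvd hp1 hdD1).trans hle1, (Nat.le_of_dvd hp2 hdD2).trans hle2,
    Nat.Coprime.coprime_dvd_left hdD1 (Nat.Coprime.coprime_dvd_right hdD2 hcop),
    Nat.Coprime.coprime_dvd_left hdD hcr, ?_, ?_, n, a * t, hprim, hn0, hnm, hcs, ?_⟩,
    Int.emod_nonneg _ hdz, Int.emod_lt_of_pos _ (by exact_mod_cast hdp), ?_⟩
  · refine HA_ev2 hdd1 u.2 r ?_
    exact (Int.natCast_dvd_natCast.2 hdD1).trans hw
  · refine HA_ev2 hdd2 u.1 r ?_
    exact (Int.natCast_dvd_natCast.2 hdD2).trans hv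
  · intro v
    have h1 := HA_ev ((d1 * d2 : ℕ) : ℤ) v r
    have h2 : dot n v - a * t * ev v (r % ((d1 * d2 : ℕ) : ℤ)) =
        (dot n v - (a * t) * ev v r) + (a * t) * (ev v r - ev v (r % ((d1 * d2 : ℕ) : ℤ))) := by ring
    rw [h2]
    exact dvd_add (hdual0 v) (h1.mul_left _)
  · refine HA_ev2 (dvd_refl _) (tV f) r ?_
    refine hdD'.trans ?_
    have h1 : ev (tV f) r = evn f r := by
      unfold ev tV evn
      rw [Fin.sum_univ_three]
      simp only [Fin.val_zero, Fin.val_one, Fin.val_two, pow_zero, pow_one]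
      ring
    rw [h1]
    exact hf

end FQQ
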