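import Pool.Agent.Lib.MP_10e784_agF.HD
import Pool.Agent.Lib.MP_1ad228_ntG.E3b
import Pool.Agent.Lib.MP_1ad228_ntG.E3c

/-! JOB HB -/

set_option autoImplicit false

open Classical

namespace FQQ

open Finset Polynomial FGO

/-- Proof. `(2 v₁ x + v₂ y)² = ds v · y²` if `v₁ x² + v₂ x y + v₃ y² = 0`: if `y ≠ 0` then `ds v` is a square (`IsSquare` over `ℤ`: `y² ∣ ..²` so `y ∣ ..`); if `y = 0` then `x ≠ 0`, `v₁ = 0`, `ds v = v₂²`. -/
theorem qv_ne {v : V} (hv : ¬ IsSquare (ds v)) {x y : ℤ} (h : ¬ (x = 0 ∧ y = 0)) :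
    v.1 * x ^ 2 + v.2.1 * (x * y) + v.2.2 * y ^ 2 ≠ 0 := by
  intro h0
  apply hv
  by_cases hy : y = 0
  · have hx : x ≠ 0 := fun hx => h ⟨hx, hy⟩
    subst hy
    have h1 : v.1 * x ^ 2 = 0 := by
      have e : v.1 * x ^ 2 + v.2.1 * (x * 0) + v.2.2 * 0 ^ 2 = v.1 * x ^ 2 := by ring
      rw [e] at h0
      exact h0
    have h2 : v.1 = 0 := by
      rcases mul_eq_zero.1 h1 with h3 | h3
      · exact h3
      · exact absurd (pow_eq_zero_iff (two_ne_zero) |>.1 h3) hx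
    refine ⟨v.2.1, ?_⟩
    unfold ds
    rw [h2]
    ring
  · have e : (2 * v.1 * x + v.2.1 * y) ^ 2 = ds v * y ^ 2 := by
      unfold ds
      have e2 : (2 * v.1 * x + v.2.1 * y) ^ 2 =
          4 * v.1 * (v.1 * x ^ 2 + v.2.1 * (x * y) + v.2.2 * y ^ 2) + (v.2.1 ^ 2 - 4 * v.1 * v.2.2) * y ^ 2 := by
        ring
      rw [e2, h0]
      ring
    have hd : y ∣ 2 * v.1 * x + v.2.1 * y := by
      have h3 : y ^ 2 ∣ (2 * v.1 * x + v.2.1 * y) ^ 2 := ⟨ds v, by rw [e]; ring⟩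
      exact (Int.pow_dvd_pow_iff two_ne_zero).1 h3
    obtain ⟨k, hk⟩ := hd
    refine ⟨k, ?_⟩
    rw [hk] at e
    have hy2 : y ^ 2 ≠ 0 := pow_ne_zero 2 hy
    apply mul_right_cancel₀ hy2
    rw [← e]
    ring

theorem HB_nm_pos {n : V} (hn : n ≠ 0) : 0 < nm n := by
  rcases Nat.eq_zero_or_pos (nm n) with h | h
  · exfalso
    apply hn
    obtain ⟨k1, k2, k3⟩ := E3b_nm n
    rw [h] at k1 k2 k3
    have e1 : n.1 = 0 := abs_nonpos_iff.1 (by exact_mod_cast k1)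
    have e2 : n.2.1 = 0 := abs_nonpos_iff.1 (by exact_mod_cast k2)
    have e3 : n.2.2 = 0 := abs_nonpos_iff.1 (by exact_mod_cast k3)
    exact Prod.ext e1 (Prod.ext e2 e3)
  · exact h

theorem HB_dvd_dsc {d : ℕ} {r s : ℤ} {n : V} (h : ∀ v : V, (d : ℤ) ∣ dot n v - s * ev v r) : (d : ℤ) ∣ dsc n := by
  have h1 : (d : ℤ) ∣ n.1 - s * r ^ 2 := by
    have := h (1, 0, 0)
    have e : dot n (1, 0, 0) - s * ev (1, 0, 0) r = n.1 - s * r ^ 2 := by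
      unfold dot ev
      ring
    rw [e] at this
    exact this
  have h2 : (d : ℤ) ∣ n.2.1 - s * r := by
    have := h (0, 1, 0)
    have e : dot n (0, 1, 0) - s * ev (0, 1, 0) r = n.2.1 - s * r := by
      unfold dot ev
      ring
    rw [e] at this
    exact this
  have h3 : (d : ℤ) ∣ n.2.2 - s := by
    have := h (0, 0, 1)
    have e : dot n (0, 0, 1) - s * ev (0, 0, 1) r = n.2.2 - s := by
      unfold dot ev
      ring
    rw [e] at this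
    exact this
  have e : dsc n = (n.2.1 - s * r) * (n.2.1 + s * r) - (n.1 - s * r ^ 2) * n.2.2 - s * r ^ 2 * (n.2.2 - s) := by
    unfold dsc
    ring
  rw [e]
  exact dvd_sub (dvd_sub (dvd_mul_of_dvd_left h2 _) (dvd_mul_of_dvd_left h1 _)) (dvd_mul_of_dvd_right h3 _)

theorem HB_le {N e : ℕ} {v : V} {n : V} {r s a b t : ℤ} {d : ℕ} (hv : v ∈ box N) (hdv : ¬ IsSquare (ds v))
    (he : e ∣ d) (h : (e : ℤ) ∣ ev v r) (hn : ∀ v : V, (d : ℤ) ∣ dot n v - s * ev v r)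
    (ht : t = 1 ∨ t = -1) (hab : ¬ (a = 0 ∧ b = 0)) (e1 : n.1 = t * a ^ 2) (e2 : n.2.1 = t * (a * b))
    (e3 : n.2.2 = t * b ^ 2) : e ≤ 3 * N * nm n := by
  have h0 : dot n v ≠ 0 := by
    have h1 := qv_ne hdv hab
    have e : dot n v = t * (v.1 * a ^ 2 + v.2.1 * (a * b) + v.2.2 * b ^ 2) := by
      unfold dot
      rw [e1, e2, e3]
      ring
    rw [e]
    apply mul_ne_zero _ h1
    rcases ht with h | h <;> rw [h] <;> norm_num
  have h1 : (e : ℤ) ∣ dot n v := by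
    have h2 : (e : ℤ) ∣ dot n v - s * ev v r := (Int.natCast_dvd_natCast.2 he).trans (hn v)
    have h3 : (e : ℤ) ∣ s * ev v r := dvd_mul_of_dvd_right h _
    have h4 := dvd_add h2 h3
    rw [sub_add_cancel] at h4
    exact h4
  have h2 : (e : ℤ) ≤ |dot n v| := Int.le_of_dvd (abs_pos.2 h0) ((dvd_abs _ _).2 h1)
  have h3 := E3b_dot (n := n) hv
  have h4 := h2.trans h3
  exact_mod_cast h4

/-- Proof. `d = d1 d2`, `ν = nm n ≥ 1`. The congruence for the unit vectors gives `n ≡ s (r², r, 1)`, so `d ∣ dsc n`. If `dsc n ≠ 0`: `d ≤ 2 ν²` (`FGO.E3b_dsc`), `4 H ν < 2 q0 ν²`, `4 H < 2 q0 ν`.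
If `dsc n = 0`: `n = ± (a², a b, b²)` (`FGO.dsc_zero`), `dot n v = ± (v₁ a² + v₂ a b + v₃ b²) ≠ 0` (`qv_ne`), divisible by `d2` (`d2 ∣ d`, `d2 ∣ ev v r`), so `d2 ≤ 3 N ν` (`FGO.E3b_dot`); in the same way `d1 ≤ 3 N ν`; so `4 H ν < 9 q0 N² ν²`. -/
theorem dual_size {H N q0 d1 d2 : ℕ} {v w : V} {r s : ℤ} {n : V} (hN : 0 < N) (hv : v ∈ box N) (hw : w ∈ box N)
    (hdv : ¬ IsSquare (ds v)) (hdw : ¬ IsSquare (ds w)) (h1 : 0 < d1) (h2 : 0 < d2) (h3 : (d1 : ℤ) ∣ ev w r)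
    (h4 : (d2 : ℤ) ∣ ev v r) (hn : Dual H q0 (d1 * d2) r n s) : 4 * H < 9 * q0 * N ^ 2 * nm n := by
  obtain ⟨hP, hn0, hlt, -, hc⟩ := hn
  have hν : 0 < nm n := HB_nm_pos hn0
  by_cases hds : dsc n = 0
  · obtain ⟨t, a, b, ht, hab, e1, e2, e3⟩ := dsc_zero n hP hds
    have k2 : d2 ≤ 3 * N * nm n := HB_le hv hdv (Dvd.intro_left _ rfl) h4 hc ht hab e1 e2 e3
    have k1 : d1 ≤ 3 * N * nm n := HB_le hw hdw (Dvd.intro _ rfl) h3 hc ht hab e1 e2 e3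
    have k3 : d1 * d2 ≤ (3 * N * nm n) * (3 * N * nm n) := Nat.mul_le_mul k1 k2
    have k4 : (4 * H) * nm n < (9 * q0 * N ^ 2 * nm n) * nm n :=
      calc (4 * H) * nm n < q0 * (d1 * d2) := hlt
        _ ≤ q0 * ((3 * N * nm n) * (3 * N * nm n)) := Nat.mul_le_mul_left _ k3
        _ = (9 * q0 * N ^ 2 * nm n) * nm n := by ring
    exact lt_of_mul_lt_mul_right k4 (Nat.zero_le _)
  · have k1 : ((d1 * d2 : ℕ) : ℤ) ≤ |dsc n| := Int.le_of_dvd (abs_pos.2 hds) ((dvd_abs _ _).2 (HB_dvd_dsc hc))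
    have k2 := k1.trans (E3b_dsc n)
    have k3 : d1 * d2 ≤ 2 * nm n ^ 2 := by exact_mod_cast k2
    have hN2 : 1 ≤ N ^ 2 := Nat.one_le_pow _ _ hN
    have k4 : (4 * H) * nm n < (9 * q0 * N ^ 2 * nm n) * nm n :=
      calc (4 * H) * nm n < q0 * (d1 * d2) := hlt
        _ ≤ q0 * (2 * nm n ^ 2) := Nat.mul_le_mul_left _ k3
        _ = 2 * q0 * nm n * nm n * 1 := by ring
        _ ≤ 9 * q0 * nm n * nm n * N ^ 2 :=
          Nat.mul_le_mul (Nat.mul_le_mul_right _ (Nat.mul_le_mul_right _ (Nat.mul_le_mul_right _ (by norm_num)))) hN2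
        _ = (9 * q0 * N ^ 2 * nm n) * nm n := by ring
    exact lt_of_mul_lt_mul_right k4 (Nat.zero_le _)

theorem HB_fin {H N q0 d1 d2 ν : ℕ} (hH : 0 < H) (h : 4 * H < 9 * q0 * N ^ 2 * ν) (hlt : 4 * H * ν < q0 * (d1 * d2))
    (h2 : d2 ≤ 24 * H * N) : 2 * H < 27 * q0 ^ 2 * N ^ 3 * d1 := by
  have hp : 0 < 9 * q0 * N ^ 2 := by
    rcases Nat.eq_zero_or_pos (9 * q0 * N ^ 2) with h0 | h0
    · rw [h0, zero_mul] at h
      exact absurd h (Nat.not_lt_zero _)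
    · exact h0
  have k : (2 * H) * (8 * H) < (27 * q0 ^ 2 * N ^ 3 * d1) * (8 * H) :=
    calc (2 * H) * (8 * H) = (4 * H) * (4 * H) := by ring
      _ < (9 * q0 * N ^ 2 * ν) * (4 * H) := Nat.mul_lt_mul_of_pos_right h (by omega)
      _ = (9 * q0 * N ^ 2) * (4 * H * ν) := by ring
      _ ≤ (9 * q0 * N ^ 2) * (q0 * (d1 * d2)) := Nat.mul_le_mul_left _ hlt.le
      _ ≤ (9 * q0 * N ^ 2) * (q0 * (d1 * (24 * H * N))) :=
        Nat.mul_le_mul_left _ (Nat.mul_le_mul_left _ (Nat.mul_le_mul_left _ h2))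
      _ = (27 * q0 ^ 2 * N ^ 3 * d1) * (8 * H) := by ring
  exact lt_of_mul_lt_mul_right k (Nat.zero_le _)

/-- Proof. `dual_size` and `4 H nm(n) < q0 d1 d2`: `16 H² < 9 q0² N² d1 d2 ≤ 9 q0² N² d1 (24 H N)`; divide by `8 H` (`H > 0`, because `0 < d2 ≤ 24 H N`). The same for `d2`. -/
theorem occ_size {H N q0 d1 d2 : ℕ} {v w : V} {r : ℤ} (hN : 0 < N) (hv : v ∈ box N) (hw : w ∈ box N)
    (hdv : ¬ IsSquare (ds v)) (hdw : ¬ IsSquare (ds w)) (h : Occ H q0 (24 * H * N) v w d1 d2 r) :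
    2 * H < 27 * q0 ^ 2 * N ^ 3 * d1 ∧ 2 * H < 27 * q0 ^ 2 * N ^ 3 * d2 := by
  obtain ⟨-, -, p1, p2, l1, l2, -, -, k1, k2, n, s, hn⟩ := h
  have hH : 0 < H := by
    rcases Nat.eq_zero_or_pos H with h0 | h0
    · rw [h0, mul_zero, zero_mul] at l2
      omega
    · exact h0
  have h5 := dual_size hN hv hw hdv hdw p1 p2 k1 k2 hn
  have h6 := hn.2.2.1
  refine ⟨HB_fin hH h5 h6 l2, HB_fin hH h5 ?_ l1⟩
  rw [mul_comm d2 d1]
  exact h6

end FQQ
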