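import Pool.Agent.Lib.MP_10e784_agF.HD
import Pool.Agent.Lib.MP_1ad228_ntG.E3b

/-! JOB HC -/

set_option autoImplicit false

open Classical

namespace FQQ

open Finset Polynomial FGO

theorem HC_nm_pos {n : V} (hn : n ≠ 0) : 0 < nm n := by
  rcases Nat.eq_zero_or_pos (nm n) with h | h
  · exfalso
    apply hn
    obtain ⟨k1, k2, k3⟩ := E3b_nm n
    rw [h] at k1 k2 k3
    have e1 : n.1 = 0 := abs_nonpos_iff.1 (by exact_mod_cast k1)
    have e2 : n.2.1 = 0 := abs_nonpos_iff.1 (by exact_mod_cast k2)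
    have e3 : n.2.2 = 0 := abs_nonpos_iff.1 (by exact_mod_cast k3)
    exact Prod.ext e1 (Prod.ext e2 e3)
  · exact h

/-- one coordinate: `n u` is between `-(ν B)` and `ν B`, in an interval of length `|n| B` -/
theorem HC_one (n B u : ℤ) (h0 : 0 ≤ u) (hB : u ≤ B) : min n 0 * B ≤ n * u ∧ n * u ≤ max n 0 * B := by
  rcases le_total n 0 with h | h
  · rw [min_eq_left h, max_eq_right h]
    constructor
    · nlinarith
    · nlinarith
  · rw [min_eq_right h, max_eq_left h]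
    constructor
    · nlinarith
    · nlinarith

theorem HC_len (n : ℤ) : max n 0 - min n 0 = |n| := by
  rcases le_total n 0 with h | h
  · rw [min_eq_left h, max_eq_right h, abs_of_nonpos h]
    ring
  · rw [min_eq_right h, max_eq_left h, abs_of_nonneg h]
    ring

/-- (Siegel's lemma) Proof. `ν = nm n ≥ 1`, `B = Nat.sqrt (3 ν) ≥ 1`, `(B + 1)² > 3 ν`. The `(B + 1)³` vectors `u` with coordinates in `[0, B]` have `dot n u` in an interval `[-S₁, S₂]` with `S₁ + S₂ = (|n₁| + |n₂| + |n₃|) B ≤ 3 ν B`, so at most `3 ν B + 1 ≤ (B + 1)² B + 1 < (B + 1)³` values: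
two different vectors have the same value (`Finset.exists_ne_map_eq_of_card_lt_of_maps_to`), take their difference: coordinates in `[-B, B]`, `nm ≤ B`, `B² ≤ 3 ν`. -/
theorem siegel3 (n : V) (hn : n ≠ 0) : ∃ u : V, u ≠ 0 ∧ dot n u = 0 ∧ nm u ^ 2 ≤ 3 * nm n := by
  have hν : 0 < nm n := HC_nm_pos hn
  obtain ⟨B, hB⟩ : ∃ B : ℕ, B = Nat.sqrt (3 * nm n) := ⟨_, rfl⟩
  have hB1 : B * B ≤ 3 * nm n := by
    rw [hB]
    exact Nat.sqrt_le _
  have hB2 : 3 * nm n < (B + 1) * (B + 1) := by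
    rw [hB]
    exact Nat.lt_succ_sqrt _
  have hB0 : 0 < B := by
    rcases Nat.eq_zero_or_pos B with h | h
    · rw [h] at hB2
      omega
    · exact h
  obtain ⟨k1, k2, k3⟩ := E3b_nm n
  obtain ⟨S1, hS1⟩ : ∃ S1 : ℤ, S1 = min n.1 0 * B + min n.2.1 0 * B + min n.2.2 0 * B := ⟨_, rfl⟩
  obtain ⟨S2, hS2⟩ : ∃ S2 : ℤ, S2 = max n.1 0 * B + max n.2.1 0 * B + max n.2.2 0 * B := ⟨_, rfl⟩
  have hlen : S2 - S1 ≤ 3 * nm n * B := by
    have e : S2 - S1 = (|n.1| + |n.2.1| + |n.2.2|) * B := by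
      rw [hS1, hS2, ← HC_len n.1, ← HC_len n.2.1, ← HC_len n.2.2]
      ring
    rw [e]
    exact mul_le_mul_of_nonneg_right (by linarith) (by positivity)
  have hS : S1 ≤ S2 := by
    have h0 : (0 : ℤ) ≤ (B : ℤ) := by positivity
    rw [hS1, hS2]
    have a1 : min n.1 0 ≤ max n.1 0 := min_le_max
    have a2 : min n.2.1 0 ≤ max n.2.1 0 := min_le_max
    have a3 : min n.2.2 0 ≤ max n.2.2 0 := min_le_max
    have b1 := mul_le_mul_of_nonneg_right a1 h0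
    have b2 := mul_le_mul_of_nonneg_right a2 h0
    have b3 := mul_le_mul_of_nonneg_right a3 h0
    linarith
  have hmaps : ∀ u ∈ (Icc (0 : ℤ) (B : ℤ) ×ˢ (Icc (0 : ℤ) (B : ℤ) ×ˢ Icc (0 : ℤ) (B : ℤ)) : Finset V),
      dot n u ∈ Icc S1 S2 := by
    intro u hu
    rw [mem_product, mem_product, mem_Icc, mem_Icc, mem_Icc] at hu
    obtain ⟨⟨a1, a2⟩, ⟨b1, b2⟩, c1, c2⟩ := hu
    have h1 := HC_one n.1 B u.1 a1 a2
    have h2 := HC_one n.2.1 B u.2.1 b1 b2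
    have h3 := HC_one n.2.2 B u.2.2 c1 c2
    rw [mem_Icc]
    unfold dot
    constructor
    · rw [hS1]
      linarith [h1.1, h2.1, h3.1]
    · rw [hS2]
      linarith [h1.2, h2.2, h3.2]
  have hcard : (Icc S1 S2).card <
      (Icc (0 : ℤ) (B : ℤ) ×ˢ (Icc (0 : ℤ) (B : ℤ) ×ˢ Icc (0 : ℤ) (B : ℤ)) : Finset V).card := by
    rw [card_product, card_product, Int.card_Icc, Int.card_Icc]
    have e1 : ((B : ℤ) + 1 - 0).toNat = B + 1 := by omega
    rw [e1]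
    have e2 : ((S2 + 1 - S1).toNat : ℤ) = S2 + 1 - S1 := Int.toNat_of_nonneg (by linarith)
    have e3 : ((S2 + 1 - S1).toNat : ℤ) < (((B + 1) * ((B + 1) * (B + 1)) : ℕ) : ℤ) := by
      rw [e2]
      have h1 : (3 * nm n + 1 : ℕ) ≤ (B + 1) * (B + 1) := hB2
      have h2 : (3 * nm n + 1) * B ≤ ((B + 1) * (B + 1)) * B := Nat.mul_le_mul_right _ h1
      have h3 : 3 * nm n * B + 1 < (B + 1) * ((B + 1) * (B + 1)) := by nlinarith
      have h4 : ((3 * nm n * B + 1 : ℕ) : ℤ) < (((B + 1) * ((B + 1) * (B + 1)) : ℕ) : ℤ) := by exact_mod_cast h3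
      push_cast at h4 ⊢
      linarith
    exact_mod_cast e3
  obtain ⟨x, hx, y, hy, hne, he⟩ := Finset.exists_ne_map_eq_of_card_lt_of_maps_to hcard hmaps
  rw [mem_product, mem_product, mem_Icc, mem_Icc, mem_Icc] at hx hy
  obtain ⟨⟨a1, a2⟩, ⟨b1, b2⟩, c1, c2⟩ := hx
  obtain ⟨⟨a3, a4⟩, ⟨b3, b4⟩, c3, c4⟩ := hy
  refine ⟨(x.1 - y.1, x.2.1 - y.2.1, x.2.2 - y.2.2), ?_, ?_, ?_⟩
  · intro h
    have h1 : x.1 - y.1 = 0 := congrArg (fun z : V => z.1) h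
    have h2 : x.2.1 - y.2.1 = 0 := congrArg (fun z : V => z.2.1) h
    have h3 : x.2.2 - y.2.2 = 0 := congrArg (fun z : V => z.2.2) h
    exact hne (Prod.ext (by linarith) (Prod.ext (by linarith) (by linarith)))
  · have e : dot n (x.1 - y.1, x.2.1 - y.2.1, x.2.2 - y.2.2) = dot n x - dot n y := by
      unfold dot
      ring
    rw [e, he, sub_self]
  · have h1 : nm (x.1 - y.1, x.2.1 - y.2.1, x.2.2 - y.2.2) ≤ B := by
      unfold nm
      simp only [max_le_iff]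
      omega
    calc nm (x.1 - y.1, x.2.1 - y.2.1, x.2.2 - y.2.2) ^ 2 ≤ B ^ 2 := Nat.pow_le_pow_left h1 2
      _ = B * B := by ring
      _ ≤ 3 * nm n := hB1

/-- Proof. `siegel3`: `d1 d2 ∣ dot n u - s ev u r = - s ev u r` and `s` is prime to `d1 d2`. `4 H nm(n) < q0 d1 d2 ≤ q0 (24 H N)²` and `H > 0`: `nm n ≤ 144 q0 H N²`. -/
theorem short_vec {H N q0 d1 d2 : ℕ} {r s : ℤ} {n : V} (hn : Dual H q0 (d1 * d2) r n s) (h1 : d1 ≤ 24 * H * N)
    (h2 : d2 ≤ 24 * H * N) :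
    ∃ u : V, u ≠ 0 ∧ ((d1 * d2 : ℕ) : ℤ) ∣ ev u r ∧ nm u ^ 2 ≤ 432 * q0 * H * N ^ 2 := by
  obtain ⟨-, hn0, hlt, hs, hc⟩ := hn
  obtain ⟨u, hu0, hu1, hu2⟩ := siegel3 n hn0
  refine ⟨u, hu0, ?_, ?_⟩
  · have h3 := hc u
    rw [hu1, zero_sub] at h3
    have h4 : ((d1 * d2 : ℕ) : ℤ) ∣ s * ev u r := (dvd_neg).1 h3
    exact hs.symm.dvd_of_dvd_mul_left h4
  · have hH : 0 < H := by
      rcases Nat.eq_zero_or_pos H with h0 | h0
      · rw [h0, mul_zero, zero_mul] at h1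
        have h5 : d1 = 0 := by omega
        rw [h5, zero_mul, mul_zero] at hlt
        exact absurd hlt (Nat.not_lt_zero _)
      · exact h0
    have h3 : (4 * H) * nm n ≤ (4 * H) * (144 * q0 * H * N ^ 2) :=
      calc (4 * H) * nm n ≤ q0 * (d1 * d2) := hlt.le
        _ ≤ q0 * ((24 * H * N) * (24 * H * N)) := Nat.mul_le_mul_left _ (Nat.mul_le_mul h1 h2)
        _ = (4 * H) * (144 * q0 * H * N ^ 2) := by ring
    have h4 : nm n ≤ 144 * q0 * H * N ^ 2 := Nat.le_of_mul_le_mul_left h3 (by omega)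
    calc nm u ^ 2 ≤ 3 * nm n := hu2
      _ ≤ 3 * (144 * q0 * H * N ^ 2) := Nat.mul_le_mul_left _ h4
      _ = 432 * q0 * H * N ^ 2 := by ring

end FQQ
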