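import Pool.Agent.Lib.MP_10e784_agF.D2
import Pool.Agent.Lib.MP_1ad228_ntG.E3a
import Pool.Agent.Lib.MP_1ad228_ntG.Pl

/-! JOB HD -/

set_option autoImplicit false

open Classical

namespace FQQ

open Finset Polynomial FGO

/-- the vector of the binary quadratic form `f` -/
def tV (f : Vn 2) : V := (f 2, f 1, f 0)

/-- a short vector of the dual of the lattice `ev v r ≡ 0 mod d` -/
def Dual (H q0 d : ℕ) (r : ℤ) (n : V) (s : ℤ) : Prop :=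
  Prim n ∧ n ≠ 0 ∧ 4 * H * nm n < q0 * d ∧ IsCoprime s (d : ℤ) ∧ ∀ v : V, (d : ℤ) ∣ dot n v - s * ev v r

/-- the lattices which occur -/
def Occ (H q0 P : ℕ) (v w : V) (d1 d2 : ℕ) (r : ℤ) : Prop :=
  Squarefree d1 ∧ Squarefree d2 ∧ 0 < d1 ∧ 0 < d2 ∧ d1 ≤ P ∧ d2 ≤ P ∧ d1.Coprime d2 ∧
    (d1 * d2).Coprime (rs v w).natAbs ∧ (d1 : ℤ) ∣ ev w r ∧ (d2 : ℤ) ∣ ev v r ∧
    ∃ (n : V) (s : ℤ), Dual H q0 (d1 * d2) r n s

end FQQ
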