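import Pool.Agent.Lib.MP_10e784_agF.HB

/-! JOB HE -/

set_option autoImplicit false
set_option linter.unusedSectionVars false

open Classical

namespace FQQ

open Finset Polynomial FGO

/-- Proof. `rs v w` is a combination of `ev v r` and `ev w r` with integer coefficients (resultant; polynomial identity). There is a similar lemma in the FGO files or in RA-RE. -/
theorem dvd_rs_of_ev {d : ℕ} {v w : V} {r : ℤ} (h1 : (d : ℤ) ∣ ev v r) (h2 : (d : ℤ) ∣ ev w r) : (d : ℤ) ∣ rs v w := by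
  obtain ⟨v1, v2, v3⟩ := v
  obtain ⟨w1, w2, w3⟩ := w
  obtain ⟨k, hk⟩ := h1
  obtain ⟨k', hk'⟩ := h2
  simp only [ev] at hk hk'
  have hv3 : v3 = (d : ℤ) * k - v1 * r ^ 2 - v2 * r := by linear_combination hk
  have hw3 : w3 = (d : ℤ) * k' - w1 * r ^ 2 - w2 * r := by linear_combination hk'
  subst hv3 hw3
  refine ⟨(d : ℤ) * (v1 * k' - w1 * k) ^ 2 - 2 * (v1 * k' - w1 * k) * r * (v1 * w2 - w1 * v2)
    - (v1 * w2 - w1 * v2) * (v2 * k' - w2 * k), ?_⟩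
  simp only [rs]
  ring

/-- Proof. Let `rs v u = 0`, `(x, y, z) = crs v u`: `y² = x z` (this is `rs v u = 0` up to sign) and `v₁ x + v₂ y + v₃ z = 0`. If `x ≠ 0`: `v₁ x² + v₂ x y + v₃ y² = x (v₁ x + v₂ y + v₃ z) = 0`, contradiction to `qv_ne`. If `x = 0`: `y = 0`, `v₃ z = 0`; if `z ≠ 0` then `v₃ = 0` and `qv_ne` (with `(0, 1)`) gives a contradiction.
So `crs v u = 0`, i.e. `u_i v_j = u_j v_i` for all `i, j`. Hence `u_i · ev v r = v_i · ev u r ≡ 0 mod d`. `gcd(d, ev v r) = 1`: a common divisor divides `ev v r`, `ev w r`, so `rs v w`, which is prime to `d`. So `d ∣ u_i` for all `i`, and `|u_i| ≤ nm u < d`: `u = 0`. -/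
theorem rs_ne {d : ℕ} {v w u : V} {r : ℤ} (hdv : ¬ IsSquare (ds v)) (hc : d.Coprime (rs v w).natAbs) (h1 : (d : ℤ) ∣ ev w r)
    (h2 : (d : ℤ) ∣ ev u r) (hu : u ≠ 0) (hd : nm u < d) : rs v u ≠ 0 := by
  intro h0
  obtain ⟨v1, v2, v3⟩ := v
  obtain ⟨u1, u2, u3⟩ := u
  have hq := fun {x y : ℤ} (h : ¬ (x = 0 ∧ y = 0)) => qv_ne hdv h
  simp only at hq
  have h0' : (v1 * u3 - u1 * v3) ^ 2 = (v1 * u2 - u1 * v2) * (v2 * u3 - u2 * v3) := by
    simp only [rs] at h0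
    linear_combination h0
  have hx0 : v2 * u3 - u2 * v3 = 0 := by
    by_contra hx
    apply hq (x := v2 * u3 - u2 * v3) (y := -(v1 * u3 - u1 * v3)) (fun h => hx h.1)
    linear_combination v3 * h0'
  have hy0 : v1 * u3 - u1 * v3 = 0 := by
    have h3 : (v1 * u3 - u1 * v3) ^ 2 = 0 := by rw [h0', hx0, mul_zero]
    exact pow_eq_zero_iff (two_ne_zero) |>.1 h3
  have hz0 : v1 * u2 - u1 * v2 = 0 := by
    by_contra hz
    have h3 : v3 * (v1 * u2 - u1 * v2) = 0 := by linear_combination v2 * hy0 - v1 * hx0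
    rcases mul_eq_zero.1 h3 with h4 | h4
    · apply hq (x := 0) (y := 1) (fun h => one_ne_zero h.2)
      rw [h4]
      ring
    · exact hz h4
  have hg : IsCoprime (d : ℤ) (ev (v1, v2, v3) r) := by
    rw [Int.isCoprime_iff_gcd_eq_one]
    have hgd : ((Int.gcd (d : ℤ) (ev (v1, v2, v3) r) : ℕ) : ℤ) ∣ (d : ℤ) := Int.gcd_dvd_left _ _
    have hgv : ((Int.gcd (d : ℤ) (ev (v1, v2, v3) r) : ℕ) : ℤ) ∣ ev (v1, v2, v3) r := Int.gcd_dvd_right _ _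
    have hgr := dvd_rs_of_ev hgv (hgd.trans h1)
    have h5 : Int.gcd (d : ℤ) (ev (v1, v2, v3) r) ∣ d := by exact_mod_cast hgd
    have h6 : Int.gcd (d : ℤ) (ev (v1, v2, v3) r) ∣ (rs (v1, v2, v3) w).natAbs := Int.natCast_dvd.1 hgr
    exact Nat.dvd_one.1 (hc ▸ Nat.dvd_gcd h5 h6)
  obtain ⟨b1, b2, b3⟩ := E3b_nm (u1, u2, u3)
  simp only at b1 b2 b3
  have hd' : ((nm (u1, u2, u3) : ℕ) : ℤ) < (d : ℤ) := by exact_mod_cast hd
  have e1 : u1 * ev (v1, v2, v3) r = v1 * ev (u1, u2, u3) r := by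
    simp only [ev]
    linear_combination (-r) * hz0 - hy0
  have e2 : u2 * ev (v1, v2, v3) r = v2 * ev (u1, u2, u3) r := by
    simp only [ev]
    linear_combination (r ^ 2) * hz0 - hx0
  have e3 : u3 * ev (v1, v2, v3) r = v3 * ev (u1, u2, u3) r := by
    simp only [ev]
    linear_combination (r ^ 2) * hy0 + r * hx0
  have f1 : (d : ℤ) ∣ u1 := hg.dvd_of_dvd_mul_right (e1 ▸ h2.mul_left v1)
  have f2 : (d : ℤ) ∣ u2 := hg.dvd_of_dvd_mul_right (e2 ▸ h2.mul_left v2)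
  have f3 : (d : ℤ) ∣ u3 := hg.dvd_of_dvd_mul_right (e3 ▸ h2.mul_left v3)
  apply hu
  rw [Int.eq_zero_of_abs_lt_dvd f1 (b1.trans_lt hd'), Int.eq_zero_of_abs_lt_dvd f2 (b2.trans_lt hd'),
    Int.eq_zero_of_abs_lt_dvd f3 (b3.trans_lt hd')]
  rfl

/-- Proof. Expand: `|v_i|, |w_i| ≤ A, B`: `(2 A B)² + (2 A B)(2 A B) = 8 A² B²`. -/
theorem abs_rs_le {A B : ℕ} {v w : V} (hv : v ∈ box A) (hw : w ∈ box B) : |rs v w| ≤ 8 * (A : ℤ) ^ 2 * (B : ℤ) ^ 2 := by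
  obtain ⟨v1, v2, v3⟩ := v
  obtain ⟨w1, w2, w3⟩ := w
  rw [mem_box] at hv hw
  obtain ⟨a1, a2, a3⟩ := hv
  obtain ⟨b1, b2, b3⟩ := hw
  simp only at a1 a2 a3 b1 b2 b3
  have key : ∀ x y z t : ℤ, |x| ≤ (A : ℤ) → |y| ≤ (A : ℤ) → |z| ≤ (B : ℤ) → |t| ≤ (B : ℤ) →
      |x * z - t * y| ≤ 2 * ((A : ℤ) * (B : ℤ)) := by
    intro x y z t hx hy hz ht
    have g1 : |x * z| ≤ (A : ℤ) * (B : ℤ) := by
      rw [abs_mul]
      exact mul_le_mul hx hz (abs_nonneg _) (Int.natCast_nonneg _)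
    have g2 : |t * y| ≤ (A : ℤ) * (B : ℤ) := by
      rw [abs_mul, mul_comm]
      exact mul_le_mul hy ht (abs_nonneg _) (Int.natCast_nonneg _)
    have g3 := abs_sub (x * z) (t * y)
    linarith
  have k1 := key v1 v3 w3 w1 a1 a3 b3 b1
  have k2 := key v1 v2 w2 w1 a1 a2 b2 b1
  have k3 := key v2 v3 w3 w2 a2 a3 b3 b2
  have hAB : (0 : ℤ) ≤ (A : ℤ) * (B : ℤ) := by positivity
  simp only [rs]
  have g1 : |(v1 * w3 - w1 * v3) ^ 2| ≤ (2 * ((A : ℤ) * (B : ℤ))) ^ 2 := by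
    rw [abs_pow]
    exact pow_le_pow_left₀ (abs_nonneg _) k1 2
  have g2 : |(v1 * w2 - w1 * v2) * (v2 * w3 - w2 * v3)| ≤ (2 * ((A : ℤ) * (B : ℤ))) * (2 * ((A : ℤ) * (B : ℤ))) := by
    rw [abs_mul]
    exact mul_le_mul k2 k3 (abs_nonneg _) (by positivity)
  have g3 := abs_sub ((v1 * w3 - w1 * v3) ^ 2) ((v1 * w2 - w1 * v2) * (v2 * w3 - w2 * v3))
  nlinarith

end FQQ
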