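import Pool.Agent.Lib.MP_10e784_agF.HB

/-! JOB HG -/

set_option autoImplicit false

open Classical

namespace FQQ

open Finset Polynomial FGO

/-- Proof. `f ↦ tV f` is a bijection of `boxN 2 H` onto `box H` (injectivity is enough); `d1 d2 ∣ ev (tV f) r` implies `d1 d2 ∣ dot n (tV f)`; `FGO.mult_count` (with `N := H`): `≤ 2 q0 (4 H²/ν + 5 H)`, and `4 H < 9 q0 N² ν` (`dual_size`): `4 H²/ν ≤ 9 q0 N² H`. Total `≤ 2 q0 (9 q0 N² H + 5 H) ≤ 28 q0² N² H`. -/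
theorem f_cnt {H N q0 d1 d2 : ℕ} {v w : V} {r : ℤ} (hH : 0 < H) (hN : 0 < N) (hq : 0 < q0) (hv : v ∈ box N) (hw : w ∈ box N)
    (hdv : ¬ IsSquare (ds v)) (hdw : ¬ IsSquare (ds w)) (h : Occ H q0 (24 * H * N) v w d1 d2 r) :
    (((boxN 2 H).filter fun f => ((d1 * d2 : ℕ) : ℤ) ∣ ev (tV f) r).card : ℝ) ≤ 28 * (q0 : ℝ) ^ 2 * (N : ℝ) ^ 2 * H := by
  obtain ⟨-, -, hd1, hd2, -, -, -, -, he1, he2, n, s, hn⟩ := h
  have hsz := dual_size hN hv hw hdv hdw hd1 hd2 he1 he2 hn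
  obtain ⟨hprim, -, hsz2, -, hdual⟩ := hn
  have hcard : ((boxN 2 H).filter fun f => ((d1 * d2 : ℕ) : ℤ) ∣ ev (tV f) r).card ≤
      ((box H).filter fun v => ((d1 * d2 : ℕ) : ℤ) ∣ dot n v).card := by
    refine Finset.card_le_card_of_injOn tV ?_ ?_
    · intro f hf
      rw [Finset.mem_coe, Finset.mem_filter] at hf ⊢
      obtain ⟨h1, h2⟩ := hf
      rw [boxN, Fintype.mem_piFinset] at h1
      refine ⟨?_, ?_⟩
      · rw [mem_box]
        have g : ∀ i, |f i| ≤ (H : ℤ) := fun i => by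
          have := h1 i
          rw [Finset.mem_Icc] at this
          exact abs_le.2 this
        exact ⟨g 2, g 1, g 0⟩
      · have h3 := hdual (tV f)
        have h4 : dot n (tV f) = (dot n (tV f) - s * ev (tV f) r) + s * ev (tV f) r := by ring
        rw [h4]
        exact dvd_add h3 (Dvd.dvd.mul_left h2 s)
    · intro f _ g _ hfg
      have h2 : f 2 = g 2 := congrArg Prod.fst hfg
      have h1 : f 1 = g 1 := congrArg (fun x : V => x.2.1) hfg
      have h0 : f 0 = g 0 := congrArg (fun x : V => x.2.2) hfg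
      funext i
      fin_cases i
      · exact h0
      · exact h1
      · exact h2
  have hm := mult_count H q0 (d1 * d2) hH hq n hprim hsz2
  have hν : 0 < nm n := by
    rcases Nat.eq_zero_or_pos (nm n) with h0 | h0
    · rw [h0, mul_zero] at hsz
      exact absurd hsz (Nat.not_lt_zero _)
    · exact h0
  have hν' : (0 : ℝ) < nm n := by exact_mod_cast hν
  have hH' : (0 : ℝ) < H := by exact_mod_cast hH
  have hq' : (1 : ℝ) ≤ q0 := by exact_mod_cast hq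
  have hN' : (1 : ℝ) ≤ N := by exact_mod_cast hN
  have hszR : (4 : ℝ) * H < 9 * q0 * (N : ℝ) ^ 2 * nm n := by exact_mod_cast hsz
  have h5 : 4 * (H : ℝ) ^ 2 / nm n ≤ 9 * q0 * (N : ℝ) ^ 2 * H := by
    rw [div_le_iff₀ hν']
    nlinarith
  have h6 : (5 : ℝ) * H ≤ 5 * (q0 * (N : ℝ) ^ 2 * H) := by
    have h7 : (1 : ℝ) ≤ q0 * (N : ℝ) ^ 2 := by
      have h8 : (1 : ℝ) ≤ (N : ℝ) ^ 2 := one_le_pow₀ hN'
      nlinarith
    nlinarith
  calc (((boxN 2 H).filter fun f => ((d1 * d2 : ℕ) : ℤ) ∣ ev (tV f) r).card : ℝ)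
      ≤ (((box H).filter fun v => ((d1 * d2 : ℕ) : ℤ) ∣ dot n v).card : ℝ) := by
        exact_mod_cast hcard
    _ ≤ 2 * q0 * (4 * (H : ℝ) ^ 2 / nm n + 5 * H) := hm
    _ ≤ 2 * q0 * (9 * q0 * (N : ℝ) ^ 2 * H + 5 * (q0 * (N : ℝ) ^ 2 * H)) := by
        refine mul_le_mul_of_nonneg_left (add_le_add h5 h6) (by positivity)
    _ = 28 * (q0 : ℝ) ^ 2 * (N : ℝ) ^ 2 * H := by ring

end FQQ
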