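import Pool.Agent.Lib.MP_10e784_agF.HD

/-! JOB HR -/

set_option autoImplicit false

open Classical

namespace FQQ

open Finset Polynomial FGO

theorem HR_mul {a b : ℕ} (hab : a.Coprime b) (ha : 0 < a) (hb : 0 < b) (P Q : ℤ → Prop)
    [DecidablePred P] [DecidablePred Q] [DecidablePred fun r => P r ∧ Q r] (hP : ∀ r : ℤ, P r → P (r % (a : ℤ))) (hQ : ∀ r : ℤ, Q r → Q (r % (b : ℤ))) :
    ((Ico (0 : ℤ) ((a * b : ℕ) : ℤ)).filter fun r => P r ∧ Q r).card ≤
      ((Ico (0 : ℤ) (a : ℤ)).filter fun r => P r).card * ((Ico (0 : ℤ) (b : ℤ)).filter fun r => Q r).card := by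
  rw [← Finset.card_product]
  have ha' : (0 : ℤ) < (a : ℤ) := by exact_mod_cast ha
  have hb' : (0 : ℤ) < (b : ℤ) := by exact_mod_cast hb
  refine Finset.card_le_card_of_injOn (fun r => (r % (a : ℤ), r % (b : ℤ))) ?_ ?_
  · intro r hr
    have hr' := Finset.mem_filter.mp (Finset.mem_coe.mp hr)
    refine Finset.mem_coe.mpr (Finset.mem_product.mpr ⟨?_, ?_⟩)
    · exact Finset.mem_filter.mpr ⟨Finset.mem_Ico.mpr ⟨Int.emod_nonneg _ ha'.ne', Int.emod_lt_of_pos _ ha'⟩,
        hP r hr'.2.1⟩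
    · exact Finset.mem_filter.mpr ⟨Finset.mem_Ico.mpr ⟨Int.emod_nonneg _ hb'.ne', Int.emod_lt_of_pos _ hb'⟩,
        hQ r hr'.2.2⟩
  · intro r hr s hs hrs
    have hr' := Finset.mem_Ico.mp (Finset.mem_filter.mp (Finset.mem_coe.mp hr)).1
    have hs' := Finset.mem_Ico.mp (Finset.mem_filter.mp (Finset.mem_coe.mp hs)).1
    have h12 := Prod.mk.inj hrs
    have h1 : (a : ℤ) ∣ s - r := Int.ModEq.dvd (h12.1)
    have h2 : (b : ℤ) ∣ s - r := Int.ModEq.dvd (h12.2)
    have hc : IsCoprime (a : ℤ) (b : ℤ) := Nat.isCoprime_iff_coprime.mpr hab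
    have h3 : ((a * b : ℕ) : ℤ) ∣ s - r := by
      push_cast
      exact hc.mul_dvd h1 h2
    have h4 : s - r = 0 := by
      refine Int.eq_zero_of_abs_lt_dvd h3 ?_
      rw [abs_lt]
      constructor
      · linarith [hr'.1, hr'.2, hs'.1, hs'.2]
      · linarith [hr'.1, hr'.2, hs'.1, hs'.2]
    linarith

theorem HR_mod {d : ℕ} (v : V) (r : ℤ) (h : (d : ℤ) ∣ ev v r) : (d : ℤ) ∣ ev v (r % (d : ℤ)) := by
  have h1 : ev v r - ev v (r % (d : ℤ)) = (r - r % (d : ℤ)) * (v.1 * (r + r % (d : ℤ)) + v.2.1) := by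
    unfold ev
    ring
  have h2 : (d : ℤ) ∣ r - r % (d : ℤ) := Int.dvd_self_sub_emod
  have h3 : (d : ℤ) ∣ ev v r - ev v (r % (d : ℤ)) := by
    rw [h1]
    exact Dvd.dvd.mul_right h2 _
  have h4 : ev v (r % (d : ℤ)) = ev v r - (ev v r - ev v (r % (d : ℤ))) := by ring
  rw [h4]
  exact dvd_sub h h3

theorem HR_prime {p : ℕ} (hp : p.Prime) {v : V} (h : ¬ Dv p v) :
    ((Ico (0 : ℤ) (p : ℤ)).filter fun r => (p : ℤ) ∣ ev v r).card ≤ 2 := by
  have : Fact p.Prime := ⟨hp⟩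
  set f : (ZMod p)[X] := C (v.1 : ZMod p) * X ^ 2 + C (v.2.1 : ZMod p) * X + C (v.2.2 : ZMod p) with hf
  have hf0 : f ≠ 0 := by
    intro h0
    apply h
    have c0 : f.coeff 0 = (v.2.2 : ZMod p) := by
      rw [hf, Polynomial.coeff_add, Polynomial.coeff_add, Polynomial.coeff_C_mul, Polynomial.coeff_C_mul,
        Polynomial.coeff_X_pow, Polynomial.coeff_X, Polynomial.coeff_C]
      norm_num
    have c1 : f.coeff 1 = (v.2.1 : ZMod p) := by
      rw [hf, Polynomial.coeff_add, Polynomial.coeff_add, Polynomial.coeff_C_mul, Polynomial.coeff_C_mul,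
        Polynomial.coeff_X_pow, Polynomial.coeff_X, Polynomial.coeff_C]
      norm_num
    have c2 : f.coeff 2 = (v.1 : ZMod p) := by
      rw [hf, Polynomial.coeff_add, Polynomial.coeff_add, Polynomial.coeff_C_mul, Polynomial.coeff_C_mul,
        Polynomial.coeff_X_pow, Polynomial.coeff_X, Polynomial.coeff_C]
      norm_num
    rw [h0] at c0 c1 c2
    simp only [Polynomial.coeff_zero] at c0 c1 c2
    refine ⟨?_, ?_, ?_⟩
    · exact (ZMod.intCast_zmod_eq_zero_iff_dvd _ _).mp c2.symm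
    · exact (ZMod.intCast_zmod_eq_zero_iff_dvd _ _).mp c1.symm
    · exact (ZMod.intCast_zmod_eq_zero_iff_dvd _ _).mp c0.symm
  have hdeg : f.natDegree ≤ 2 := by
    rw [hf]
    exact Polynomial.natDegree_quadratic_le
  have hcard : f.roots.toFinset.card ≤ 2 :=
    le_trans (Multiset.toFinset_card_le _) (le_trans (Polynomial.card_roots' f) hdeg)
  refine le_trans (Finset.card_le_card_of_injOn (fun r => (r : ZMod p)) ?_ ?_) hcard
  · intro r hr
    have hr' := Finset.mem_filter.mp (Finset.mem_coe.mp hr)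
    refine Finset.mem_coe.mpr (Multiset.mem_toFinset.mpr ((Polynomial.mem_roots hf0).mpr ?_))
    have h1 : ((ev v r : ℤ) : ZMod p) = 0 := (ZMod.intCast_zmod_eq_zero_iff_dvd _ _).mpr hr'.2
    unfold ev at h1
    push_cast at h1
    rw [Polynomial.IsRoot.def, hf]
    simp only [Polynomial.eval_add, Polynomial.eval_mul, Polynomial.eval_C, Polynomial.eval_pow,
      Polynomial.eval_X]
    exact h1
  · intro r hr s hs hrs
    have hr' := Finset.mem_Ico.mp (Finset.mem_filter.mp (Finset.mem_coe.mp hr)).1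
    have hs' := Finset.mem_Ico.mp (Finset.mem_filter.mp (Finset.mem_coe.mp hs)).1
    have h1 : ((r : ℤ) : ZMod p) = ((s : ℤ) : ZMod p) := hrs
    have h3 : (p : ℤ) ∣ s - r := (ZMod.intCast_eq_intCast_iff_dvd_sub _ _ _).mp h1
    have h4 : s - r = 0 := by
      refine Int.eq_zero_of_abs_lt_dvd h3 ?_
      rw [abs_lt]
      constructor
      · linarith [hr'.1, hr'.2, hs'.1, hs'.2]
      · linarith [hr'.1, hr'.2, hs'.1, hs'.2]
    linarith

/-- Proof. Induction on the prime factors of `d` (`Nat.recOnMul`-type induction on squarefree numbers, or `d.primeFactors`): for `d = p e`, `p ∤ e`: the map `r ↦ (r mod p, r mod e)` is injective on `[0, p e)` and maps the roots modulo `p e` to pairs of roots; at most two roots modulo a prime `p` (`v mod p` is not zero: a polynomial of degree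
`≤ 2` over the field `ZMod p`, not zero, `Polynomial.card_roots'`; or directly), and `τ(p e) = 2 τ(e)`. -/
theorem roots_one {d : ℕ} (hd : Squarefree d) {v : V} (h : ∀ p : ℕ, p.Prime → p ∣ d → ¬ Dv p v) :
    ((Ico (0 : ℤ) (d : ℤ)).filter fun r => (d : ℤ) ∣ ev v r).card ≤ d.divisors.card := by
  induction d using Nat.strong_induction_on with
  | _ d ih =>
    have hd0 : d ≠ 0 := hd.ne_zero
    rcases Nat.eq_or_lt_of_le (Nat.one_le_iff_ne_zero.mpr hd0) with h1 | h1
    · subst h1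
      have h2 : ((Ico (0 : ℤ) ((1 : ℕ) : ℤ)).filter fun r => ((1 : ℕ) : ℤ) ∣ ev v r).card ≤
          (Ico (0 : ℤ) ((1 : ℕ) : ℤ)).card := Finset.card_filter_le _ _
      refine le_trans h2 ?_
      simp
    · obtain ⟨p, hp, e, rfl⟩ := Nat.exists_prime_and_dvd (by omega : d ≠ 1)
      have hsq := (Nat.squarefree_mul_iff.mp hd)
      have hcop : p.Coprime e := hsq.1
      have he0 : 0 < e := Nat.pos_of_ne_zero hsq.2.2.ne_zero
      have hlt : e < p * e := by
        have := hp.two_le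
        nlinarith
      have ihe := ih e hlt hsq.2.2 (fun q hq hqe => h q hq (Dvd.dvd.mul_left hqe p))
      have hpv := HR_prime hp (h p hp (Dvd.intro e rfl))
      have hsub : ((Ico (0 : ℤ) ((p * e : ℕ) : ℤ)).filter fun r => ((p * e : ℕ) : ℤ) ∣ ev v r) ⊆
          ((Ico (0 : ℤ) ((p * e : ℕ) : ℤ)).filter fun r => (p : ℤ) ∣ ev v r ∧ (e : ℤ) ∣ ev v r) := by
        intro r hr
        have hr' := Finset.mem_filter.mp hr
        have h5 : ((p : ℤ) * (e : ℤ)) ∣ ev v r := by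
          have := hr'.2
          push_cast at this
          exact this
        exact Finset.mem_filter.mpr ⟨hr'.1, dvd_trans (Dvd.intro _ rfl) h5, dvd_trans (Dvd.intro_left _ rfl) h5⟩
      refine le_trans (Finset.card_le_card hsub) ?_
      refine le_trans (HR_mul hcop hp.pos he0 (fun r => (p : ℤ) ∣ ev v r) (fun r => (e : ℤ) ∣ ev v r)
        (fun r hr => HR_mod v r hr) (fun r hr => HR_mod v r hr)) ?_
      rw [Nat.Coprime.card_divisors_mul hcop]
      have h6 : p.divisors.card = 2 := by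
        rw [hp.divisors]
        exact Finset.card_pair hp.one_lt.ne
      rw [h6]
      exact Nat.mul_le_mul hpv ihe

/-- Proof. No prime `p ∣ d2` divides all coordinates of `v` (otherwise `p ∣ rs v w`), and no `p ∣ d1` those of `w`. The map `r ↦ (r mod d1, r mod d2)` is injective on `[0, d1 d2)`; `roots_one` twice. -/
theorem roots_cnt {d1 d2 : ℕ} {v w : V} (h1 : Squarefree d1) (h2 : Squarefree d2) (hc : d1.Coprime d2)
    (h : (d1 * d2).Coprime (rs v w).natAbs) :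
    ((Ico (0 : ℤ) ((d1 * d2 : ℕ) : ℤ)).filter fun r => (d1 : ℤ) ∣ ev w r ∧ (d2 : ℤ) ∣ ev v r).card ≤
      d1.divisors.card * d2.divisors.card := by
  have key : ∀ p : ℕ, p.Prime → p ∣ d1 * d2 → (p : ℤ) ∣ rs v w → False := by
    intro p hp hpd hpr
    have h3 : p ∣ (rs v w).natAbs := Int.natCast_dvd.mp hpr
    have h4 : p ∣ Nat.gcd (d1 * d2) (rs v w).natAbs := Nat.dvd_gcd hpd h3
    have h5 : Nat.gcd (d1 * d2) (rs v w).natAbs = 1 := h
    rw [h5] at h4
    exact hp.one_lt.ne' (Nat.dvd_one.mp h4)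
  have hw : ∀ p : ℕ, p.Prime → p ∣ d1 → ¬ Dv p w := by
    intro p hp hpd hD
    obtain ⟨⟨a, ha⟩, ⟨b, hb⟩, ⟨c, hc'⟩⟩ := hD
    refine key p hp (Dvd.dvd.mul_right hpd d2) ?_
    refine ⟨(v.1 * c - a * v.2.2) * (v.1 * w.2.2 - w.1 * v.2.2) -
      (v.1 * b - a * v.2.1) * (v.2.1 * w.2.2 - w.2.1 * v.2.2), ?_⟩
    unfold rs
    rw [ha, hb, hc']
    ring
  have hv : ∀ p : ℕ, p.Prime → p ∣ d2 → ¬ Dv p v := by
    intro p hp hpd hD
    obtain ⟨⟨a, ha⟩, ⟨b, hb⟩, ⟨c, hc'⟩⟩ := hD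
    refine key p hp (Dvd.dvd.mul_left hpd d1) ?_
    refine ⟨(a * w.2.2 - w.1 * c) * (v.1 * w.2.2 - w.1 * v.2.2) -
      (a * w.2.1 - w.1 * b) * (v.2.1 * w.2.2 - w.2.1 * v.2.2), ?_⟩
    unfold rs
    rw [ha, hb, hc']
    ring
  refine le_trans (HR_mul hc (Nat.pos_of_ne_zero h1.ne_zero) (Nat.pos_of_ne_zero h2.ne_zero)
    (fun r => (d1 : ℤ) ∣ ev w r) (fun r => (d2 : ℤ) ∣ ev v r)
    (fun r hr => HR_mod w r hr) (fun r hr => HR_mod v r hr)) ?_
  exact Nat.mul_le_mul (roots_one h1 hw) (roots_one h2 hv)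

end FQQ
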