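import Pool.Agent.Lib.MP_10e784_agF.HC
import Pool.Agent.Lib.MP_10e784_agF.HE
import Pool.Agent.Lib.MP_10e784_agF.HR
import Pool.Agent.Lib.MP_2a816b_nt.Divisor

/-! JOB HT -/

set_option autoImplicit false

open Classical

namespace FQQ

open Finset Polynomial FGO

/-- the set of the lattices which occur -/
noncomputable def OcS (H N q0 : ℕ) (v w : V) : Finset ((ℕ × ℕ) × ℤ) :=
  ((Icc 1 (24 * H * N) ×ˢ Icc 1 (24 * H * N)) ×ˢ Ico (0 : ℤ) (((24 * H * N) ^ 2 : ℕ) : ℤ)).filter fun x =>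
    Occ H q0 (24 * H * N) v w x.1.1 x.1.2 x.2 ∧ x.2 < ((x.1.1 * x.1.2 : ℕ) : ℤ)

private theorem HT_box {u : V} {B : ℕ} (h : nm u ≤ B) : u ∈ box B := by
  have h1 : u.1.natAbs ≤ B := le_trans (le_max_left _ _) h
  have h2 : u.2.1.natAbs ≤ B := le_trans (le_trans (le_max_left _ _) (le_max_right _ _)) h
  have h3 : u.2.2.natAbs ≤ B := le_trans (le_trans (le_max_right _ _) (le_max_right _ _)) h
  unfold FGO.box
  rw [Finset.mem_product, Finset.mem_product, Finset.mem_Icc, Finset.mem_Icc, Finset.mem_Icc]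
  omega

private theorem HT_card (B : ℕ) : (box B).card = (2 * B + 1) ^ 3 := by
  unfold FGO.box
  rw [Finset.card_product, Finset.card_product, Int.card_Icc]
  have h : ((B : ℤ) + 1 - -(B : ℤ)).toNat = 2 * B + 1 := by omega
  rw [h]
  ring

private theorem HT_rs_comm (v w : V) : rs w v = rs v w := by
  unfold rs
  ring

private theorem HT_lt {H N q0 d k : ℕ} (hH : 80000 * q0 ^ 5 * N ^ 8 ≤ H) (h1 : 2 * H < 27 * q0 ^ 2 * N ^ 3 * d)
    (h2 : k ^ 2 ≤ 432 * q0 * H * N ^ 2) : k < d := by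
  by_contra hlt
  push Not at hlt
  have h3 : d ^ 2 ≤ 432 * q0 * H * N ^ 2 := le_trans (Nat.pow_le_pow_left hlt 2) h2
  have h4 : (2 * H) ^ 2 < (27 * q0 ^ 2 * N ^ 3 * d) ^ 2 := Nat.pow_lt_pow_left h1 (by norm_num)
  have h5 : (27 * q0 ^ 2 * N ^ 3 * d) ^ 2 ≤ 4 * H ^ 2 := by
    calc (27 * q0 ^ 2 * N ^ 3 * d) ^ 2 = 729 * q0 ^ 4 * N ^ 6 * d ^ 2 := by ring
      _ ≤ 729 * q0 ^ 4 * N ^ 6 * (432 * q0 * H * N ^ 2) := Nat.mul_le_mul_left _ h3
      _ = 78732 * q0 ^ 5 * N ^ 8 * (4 * H) := by ring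
      _ ≤ 80000 * q0 ^ 5 * N ^ 8 * (4 * H) := by
        apply Nat.mul_le_mul_right
        apply Nat.mul_le_mul_right
        apply Nat.mul_le_mul_right
        norm_num
      _ ≤ H * (4 * H) := Nat.mul_le_mul_right _ hH
      _ = 4 * H ^ 2 := by ring
  have h6 : (2 * H) ^ 2 = 4 * H ^ 2 := by ring
  omega

/-- the roots for `(d1, d2)` -/
private noncomputable def HT_R (v w : V) (e : ℕ × ℕ) : Finset ((ℕ × ℕ) × ℤ) :=
  if Squarefree e.1 ∧ Squarefree e.2 ∧ e.1.Coprime e.2 ∧ (e.1 * e.2).Coprime (rs v w).natAbs then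
    ((Ico (0 : ℤ) ((e.1 * e.2 : ℕ) : ℤ)).filter fun r => (e.1 : ℤ) ∣ ev w r ∧ (e.2 : ℤ) ∣ ev v r).image fun r => (e, r)
  else ∅

private theorem HT_R_card (v w : V) (e : ℕ × ℕ) : (HT_R v w e).card ≤ e.1.divisors.card * e.2.divisors.card := by
  unfold HT_R
  split_ifs with h
  · exact le_trans Finset.card_image_le (roots_cnt h.1 h.2.1 h.2.2.1 h.2.2.2)
  · simp

/-- the lattices belonging to `u` -/
private noncomputable def HT_U (v w u : V) : Finset ((ℕ × ℕ) × ℤ) :=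
  if rs v u ≠ 0 ∧ rs w u ≠ 0 then
    ((rs w u).natAbs.divisors ×ˢ (rs v u).natAbs.divisors).biUnion (HT_R v w)
  else ∅

private theorem HT_U_card {v w u : V} {T : ℕ} (hv : (rs v u).natAbs.divisors.card ≤ T ∨ rs v u = 0)
    (hw : (rs w u).natAbs.divisors.card ≤ T ∨ rs w u = 0) : (HT_U v w u).card ≤ T ^ 4 := by
  unfold HT_U
  split_ifs with h
  · have hv1 := hv.resolve_right h.1
    have hw1 := hw.resolve_right h.2
    have hv0 : (rs v u).natAbs ≠ 0 := Int.natAbs_ne_zero.2 h.1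
    have hw0 : (rs w u).natAbs ≠ 0 := Int.natAbs_ne_zero.2 h.2
    refine le_trans (Finset.card_biUnion_le_card_mul _ _ (T * T) ?_) ?_
    · intro e he
      obtain ⟨he1, he2⟩ := Finset.mem_product.1 he
      refine le_trans (HT_R_card v w e) ?_
      apply Nat.mul_le_mul
      · refine le_trans (Finset.card_le_card ?_) hw1
        exact Nat.divisors_subset_of_dvd hw0 (Nat.dvd_of_mem_divisors he1)
      · refine le_trans (Finset.card_le_card ?_) hv1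
        exact Nat.divisors_subset_of_dvd hv0 (Nat.dvd_of_mem_divisors he2)
    · rw [Finset.card_product]
      calc (rs w u).natAbs.divisors.card * (rs v u).natAbs.divisors.card * (T * T) ≤ T * T * (T * T) :=
            Nat.mul_le_mul_right _ (Nat.mul_le_mul hw1 hv1)
        _ = T ^ 4 := by ring
  · simp

/-- Proof. `B = Nat.sqrt (432 q0 H N²)`. For `((d1, d2), r)` in the set take `u` from `short_vec`: `nm u ≤ B`, `u ∈ box B`. `nm u < d1` and `nm u < d2`: `nm u ² ≤ 432 q0 H N²` and `2 H < 27 q0² N³ d_i` (`occ_size`), so `432 q0 H N² (27 q0² N³)² = 314928 q0^5 N^8 H ≤ 4 H²` (as `80000 q0^5 N^8 ≤ H`) `< (27 q0² N³)² d_i²`.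
`rs v u ≠ 0` (`rs_ne` with `d1`: `d1 ∣ ev w r`, `d1 ∣ ev u r`) and `rs w u ≠ 0` (`rs_ne` with `v, w` exchanged, `d2 ∣ ev v r`; `rs w v = rs v w`). `d2 ∣ rs v u` (`dvd_rs_of_ev`), `d1 ∣ rs w u`. So the set is contained in the union over `u ∈ box B` with both resultants nonzero, over the divisors `d1` of
`|rs w u|` and `d2` of `|rs v u|` (squarefree, coprime, `d1 d2` prime to `rs v w`) of the sets `{r}` of `roots_cnt`. So the cardinality is `≤ ∑_{u ∈ box B} τ(|rs w u|)² τ(|rs v u|)²` (`τ(d) ≤ τ(R)` for `d ∣ R`) and the bound holds because `|rs v u| ≤ 8 N² B² ≤ 3456 q0 H N⁴` (`abs_rs_le`). -/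
theorem OcS_card {H N q0 : ℕ} {v w : V} (hN : 0 < N) (hq : 0 < q0) (hH : 80000 * q0 ^ 5 * N ^ 8 ≤ H) (hv : v ∈ box N)
    (hw : w ∈ box N) (hdv : ¬ IsSquare (ds v)) (hdw : ¬ IsSquare (ds w)) (T : ℕ)
    (hT : ∀ n : ℕ, 0 < n → n ≤ 3456 * q0 * H * N ^ 4 → n.divisors.card ≤ T) :
    (OcS H N q0 v w).card ≤ (2 * Nat.sqrt (432 * q0 * H * N ^ 2) + 1) ^ 3 * T ^ 4 := by
  classical
  obtain ⟨B, hB⟩ : ∃ B, B = Nat.sqrt (432 * q0 * H * N ^ 2) := ⟨_, rfl⟩
  rw [← hB]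
  have hBB : B ^ 2 ≤ 432 * q0 * H * N ^ 2 := by
    rw [hB]
    exact Nat.sqrt_le' _
  have hsub : OcS H N q0 v w ⊆ (box B).biUnion (HT_U v w) := by
    rintro ⟨⟨d1, d2⟩, r⟩ hx
    unfold OcS at hx
    obtain ⟨hx1, hx2, hx3⟩ := Finset.mem_filter.1 hx
    obtain ⟨hx4, hx5⟩ := Finset.mem_product.1 hx1
    have hr0 : (0 : ℤ) ≤ r := (Finset.mem_Ico.1 hx5).1
    have hocc : Occ H q0 (24 * H * N) v w d1 d2 r := hx2
    have hr1 : r < ((d1 * d2 : ℕ) : ℤ) := hx3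
    obtain ⟨s1, s2, p1, p2, l1, l2, hc, hcr, e1, e2, n, s, hn⟩ := id hocc
    obtain ⟨u, hu0, hu1, hu2⟩ := short_vec hn l1 l2
    obtain ⟨o1, o2⟩ := occ_size hN hv hw hdv hdw hocc
    have hb1 : nm u < d1 := HT_lt hH o1 hu2
    have hb2 : nm u < d2 := HT_lt hH o2 hu2
    have hnB : nm u ≤ B := by
      rw [hB, Nat.le_sqrt']
      exact hu2
    have hd1u : (d1 : ℤ) ∣ ev u r := dvd_trans (by push_cast; exact dvd_mul_right _ _) hu1
    have hd2u : (d2 : ℤ) ∣ ev u r := dvd_trans (by push_cast; exact dvd_mul_left _ _) hu1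
    have hc1 : d1.Coprime (rs v w).natAbs := Nat.Coprime.coprime_dvd_left (dvd_mul_right _ _) hcr
    have hc2 : d2.Coprime (rs w v).natAbs := by
      rw [HT_rs_comm]
      exact Nat.Coprime.coprime_dvd_left (dvd_mul_left _ _) hcr
    have r1 : rs v u ≠ 0 := rs_ne hdv hc1 e1 hd1u hu0 hb1
    have r2 : rs w u ≠ 0 := rs_ne hdw hc2 e2 hd2u hu0 hb2
    have k2 : (d2 : ℤ) ∣ rs v u := dvd_rs_of_ev e2 hd2u
    have k1 : (d1 : ℤ) ∣ rs w u := dvd_rs_of_ev e1 hd1u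
    rw [Finset.mem_biUnion]
    refine ⟨u, HT_box hnB, ?_⟩
    unfold HT_U
    rw [if_pos ⟨r1, r2⟩, Finset.mem_biUnion]
    refine ⟨(d1, d2), ?_, ?_⟩
    · rw [Finset.mem_product, Nat.mem_divisors, Nat.mem_divisors]
      exact ⟨⟨Int.natCast_dvd.1 k1, Int.natAbs_ne_zero.2 r2⟩, ⟨Int.natCast_dvd.1 k2, Int.natAbs_ne_zero.2 r1⟩⟩
    · unfold HT_R
      rw [if_pos ⟨s1, s2, hc, hcr⟩, Finset.mem_image]
      refine ⟨r, ?_, rfl⟩
      rw [Finset.mem_filter, Finset.mem_Ico]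
      exact ⟨⟨hr0, hr1⟩, e1, e2⟩
  have habs : ∀ x : V, x ∈ box N → ∀ u ∈ box B, (rs x u).natAbs.divisors.card ≤ T ∨ rs x u = 0 := by
    intro x hx u hu
    by_cases h0 : rs x u = 0
    · exact Or.inr h0
    · left
      apply hT
      · exact Int.natAbs_pos.2 h0
      · have h1 := abs_rs_le hx hu
        have h2 : ((rs x u).natAbs : ℤ) ≤ ((8 * N ^ 2 * B ^ 2 : ℕ) : ℤ) := by
          rw [Int.natCast_natAbs]
          push_cast
          exact h1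
        have h3 : (rs x u).natAbs ≤ 8 * N ^ 2 * B ^ 2 := by exact_mod_cast h2
        calc (rs x u).natAbs ≤ 8 * N ^ 2 * B ^ 2 := h3
          _ ≤ 8 * N ^ 2 * (432 * q0 * H * N ^ 2) := Nat.mul_le_mul_left _ hBB
          _ = 3456 * q0 * H * N ^ 4 := by ring
  calc (OcS H N q0 v w).card ≤ ((box B).biUnion (HT_U v w)).card := Finset.card_le_card hsub
    _ ≤ (box B).card * T ^ 4 :=
      Finset.card_biUnion_le_card_mul _ _ _ fun u hu => HT_U_card (habs v hv u hu) (habs w hw u hu)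
    _ = (2 * B + 1) ^ 3 * T ^ 4 := by rw [HT_card]

end FQQ
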