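import Pool.Agent.Lib.MP_10e784_agF.HA
import Pool.Agent.Lib.MP_10e784_agF.HG
import Pool.Agent.Lib.MP_10e784_agF.HT

/-! JOB HU: the number of exceptional forms `f` for fixed `(v, w)`. -/

set_option autoImplicit false

open Classical

namespace FQQ

open Finset Polynomial FGO

/-- The number of exceptional forms `f` for fixed `(v, w)`. -/
theorem excF_cnt {H N q0 : ℕ} {u : V × V} (hN : 0 < N) (hq : 0 < q0) (hH : 80000 * q0 ^ 5 * N ^ 8 ≤ H) (hu : u ∈ box2 N)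
    (hdv : ¬ IsSquare (ds u.1)) (hdw : ¬ IsSquare (ds u.2)) (T : ℕ)
    (hT : ∀ n : ℕ, 0 < n → n ≤ 3456 * q0 * H * N ^ 4 → n.divisors.card ≤ T) :
    (((boxN 2 H).filter fun f => ExcF H q0 (24 * H * N) f u).card : ℝ) ≤
      (2 * (Nat.sqrt (432 * q0 * H * N ^ 2) : ℝ) + 1) ^ 3 * (T : ℝ) ^ 4 * (28 * (q0 : ℝ) ^ 2 * (N : ℝ) ^ 2 * H) := by
  have hH0 : 0 < H := by
    have h1 : 0 < 80000 * q0 ^ 5 * N ^ 8 := by positivity
    omega
  rw [mem_box2] at hu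
  have hsub : ((boxN 2 H).filter fun f => ExcF H q0 (24 * H * N) f u) ⊆
      (OcS H N q0 u.1 u.2).biUnion fun x =>
        (boxN 2 H).filter fun f => ((x.1.1 * x.1.2 : ℕ) : ℤ) ∣ ev (tV f) x.2 := by
    intro f hf
    rw [mem_filter] at hf
    obtain ⟨hf1, hf2⟩ := hf
    obtain ⟨d1, d2, r, hO, hr0, hr1, hd⟩ := occ_of_excF hf2
    rw [mem_biUnion]
    refine ⟨((d1, d2), r), ?_, mem_filter.2 ⟨hf1, hd⟩⟩
    have hO' := hO
    obtain ⟨_, _, hd1, hd2, hd1P, hd2P, _⟩ := hO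
    unfold OcS
    rw [mem_filter]
    refine ⟨?_, hO', hr1⟩
    rw [mem_product, mem_product]
    refine ⟨⟨mem_Icc.2 ⟨hd1, hd1P⟩, mem_Icc.2 ⟨hd2, hd2P⟩⟩, mem_Ico.2 ⟨hr0, ?_⟩⟩
    refine lt_of_lt_of_le hr1 ?_
    have h1 : d1 * d2 ≤ (24 * H * N) ^ 2 := by
      rw [pow_two]
      exact Nat.mul_le_mul hd1P hd2P
    exact_mod_cast h1
  have hcard : (((OcS H N q0 u.1 u.2).card : ℕ) : ℝ) ≤
      (2 * (Nat.sqrt (432 * q0 * H * N ^ 2) : ℝ) + 1) ^ 3 * (T : ℝ) ^ 4 := by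
    have h1 := OcS_card hN hq hH hu.1 hu.2 hdv hdw T hT
    exact_mod_cast h1
  have h2 : (((boxN 2 H).filter fun f => ExcF H q0 (24 * H * N) f u).card : ℝ) ≤
      ∑ x ∈ OcS H N q0 u.1 u.2,
        (((boxN 2 H).filter fun f => ((x.1.1 * x.1.2 : ℕ) : ℤ) ∣ ev (tV f) x.2).card : ℝ) := by
    have h3 := (card_le_card hsub).trans card_biUnion_le
    exact_mod_cast h3
  refine h2.trans ?_
  have h4 : ∀ x ∈ OcS H N q0 u.1 u.2,
      (((boxN 2 H).filter fun f => ((x.1.1 * x.1.2 : ℕ) : ℤ) ∣ ev (tV f) x.2).card : ℝ) ≤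
        28 * (q0 : ℝ) ^ 2 * (N : ℝ) ^ 2 * H := by
    intro x hx
    unfold OcS at hx
    rw [mem_filter] at hx
    exact f_cnt hH0 hN hq hu.1 hu.2 hdv hdw hx.2.1
  refine (sum_le_sum h4).trans ?_
  rw [sum_const, nsmul_eq_mul]
  exact mul_le_mul_of_nonneg_right hcard (by positivity)

end FQQ
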