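import Pool.Agent.Lib.MP_10e784_agF.HU
import Pool.Agent.Lib.MP_10e784_agF.AN2
import Pool.Agent.Lib.MP_2a816b_nt.Divisor

/-! JOB HV -/

set_option autoImplicit false

open Classical

namespace FQQ

open Finset Polynomial FGO

private theorem HV_y {N : ℕ} (hN : 300 ≤ N) : ∃ y : ℝ, 1 ≤ y ∧ y ^ 100 = (N : ℝ) ∧
    (N : ℝ) ^ (1 / 20 : ℝ) = y ^ 5 ∧ Real.log (Real.log N) ≤ 100 * y ∧ 0 < Real.log (Real.log N) := by
  have hNR : (300 : ℝ) ≤ N := by exact_mod_cast hN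
  have hN0 : (0 : ℝ) ≤ N := by linarith
  have hy0 : (0 : ℝ) < (N : ℝ) ^ (1 / 100 : ℝ) := Real.rpow_pos_of_pos (by linarith) _
  have h100 : ((N : ℝ) ^ (1 / 100 : ℝ)) ^ 100 = (N : ℝ) := by
    rw [← Real.rpow_natCast, ← Real.rpow_mul hN0]
    norm_num
  have h5 : (N : ℝ) ^ (1 / 20 : ℝ) = ((N : ℝ) ^ (1 / 100 : ℝ)) ^ 5 := by
    rw [← Real.rpow_natCast, ← Real.rpow_mul hN0]
    norm_num
  have hlog1 : 1 < Real.log N := by
    have h3 : Real.log 16 ≤ Real.log N := Real.log_le_log (by norm_num) (by linarith)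
    have h4 : Real.log 16 = 4 * Real.log 2 := by
      rw [show (16 : ℝ) = 2 ^ 4 by norm_num, Real.log_pow]
      norm_num
    have h5 := Real.log_two_gt_d9
    rw [h4] at h3
    linarith
  refine ⟨(N : ℝ) ^ (1 / 100 : ℝ), Real.one_le_rpow (by linarith) (by norm_num), h100, h5, ?_,
    Real.log_pos hlog1⟩
  have e1 : Real.log (Real.log N) ≤ Real.log N :=
    (Real.log_le_sub_one_of_pos (by linarith)).trans (by linarith)
  have e2 : Real.log N = 100 * Real.log ((N : ℝ) ^ (1 / 100 : ℝ)) := by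
    rw [Real.log_rpow (by linarith)]
    ring
  have e3 := Real.log_le_sub_one_of_pos hy0
  linarith

private theorem HV_T (K : ℕ) : ∃ C1 : ℝ, 1 ≤ C1 ∧ ∀ (N q0 : ℕ) (y : ℝ), 1 ≤ y → y ^ 100 = (N : ℝ) →
    (q0 : ℝ) ≤ y ^ 5 → ∃ T : ℕ, (T : ℝ) ≤ C1 * y ∧
      ∀ n : ℕ, 0 < n → n ≤ 3456 * q0 * N ^ K * N ^ 4 → n.divisors.card ≤ T := by
  have hε : (0 : ℝ) < 1 / (100 * ((K : ℝ) + 5)) := by positivity
  obtain ⟨C0, hC0, hdiv⟩ := Pool.Agent.Lib.MP_2a816b_nt.divisor_bound _ hε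
  refine ⟨3456 * C0 + 1, by linarith, ?_⟩
  intro N q0 y hy hyN hq
  have hy0 : (0 : ℝ) < y := by linarith
  refine ⟨⌈C0 * (3456 * y)⌉₊, ?_, ?_⟩
  · have h1 := (Nat.ceil_lt_add_one (show (0 : ℝ) ≤ C0 * (3456 * y) by positivity)).le
    linarith
  · intro n hn hle
    have h1 : (n : ℝ) ≤ 3456 * y ^ (100 * (K + 5)) := by
      have h2 : (n : ℝ) ≤ 3456 * (q0 : ℝ) * (N : ℝ) ^ K * (N : ℝ) ^ 4 := by exact_mod_cast hle
      refine h2.trans ?_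
      rw [← hyN]
      calc 3456 * (q0 : ℝ) * (y ^ 100) ^ K * (y ^ 100) ^ 4 ≤ 3456 * y ^ 5 * (y ^ 100) ^ K * (y ^ 100) ^ 4 := by
            gcongr
        _ = 3456 * y ^ (100 * K + 405) := by
            rw [← pow_mul, ← pow_mul]
            ring
        _ ≤ 3456 * y ^ (100 * (K + 5)) := by
            refine mul_le_mul_of_nonneg_left (pow_le_pow_right₀ hy (by omega)) (by norm_num)
    have h3 : (n : ℝ) ^ (1 / (100 * ((K : ℝ) + 5))) ≤ 3456 * y := by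
      calc (n : ℝ) ^ (1 / (100 * ((K : ℝ) + 5))) ≤ (3456 * y ^ (100 * (K + 5))) ^ (1 / (100 * ((K : ℝ) + 5))) :=
            Real.rpow_le_rpow (Nat.cast_nonneg _) h1 hε.le
        _ = 3456 ^ (1 / (100 * ((K : ℝ) + 5))) * (y ^ (100 * (K + 5))) ^ (1 / (100 * ((K : ℝ) + 5))) :=
            Real.mul_rpow (by norm_num) (by positivity)
        _ ≤ 3456 * y := by
            have e1 : (3456 : ℝ) ^ (1 / (100 * ((K : ℝ) + 5))) ≤ 3456 := by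
              have e2 : 1 / (100 * ((K : ℝ) + 5)) ≤ 1 := by
                rw [div_le_one (by positivity)]
                have : (0 : ℝ) ≤ K := Nat.cast_nonneg _
                linarith
              calc (3456 : ℝ) ^ (1 / (100 * ((K : ℝ) + 5))) ≤ 3456 ^ (1 : ℝ) :=
                    Real.rpow_le_rpow_of_exponent_le (by norm_num) e2
                _ = 3456 := Real.rpow_one _
            have e3 : (y ^ (100 * (K + 5))) ^ (1 / (100 * ((K : ℝ) + 5))) = y := by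
              rw [← Real.rpow_natCast, ← Real.rpow_mul hy0.le]
              push_cast
              rw [mul_one_div_cancel (by positivity), Real.rpow_one]
            rw [e3]
            exact mul_le_mul_of_nonneg_right e1 hy0.le
    have h4 : (n.divisors.card : ℝ) ≤ (⌈C0 * (3456 * y)⌉₊ : ℝ) :=
      (hdiv n hn).trans ((mul_le_mul_of_nonneg_left h3 (by linarith)).trans (Nat.le_ceil _))
    exact_mod_cast h4

private theorem HV_sq {K : ℕ} (hK : 11 ≤ K) {y q b T L C1 : ℝ} (hy : 1 ≤ y) (hq0 : 0 ≤ q) (hq : q ≤ y ^ 5)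
    (hb : b ^ 2 ≤ 3888 * q * (y ^ 100) ^ K * (y ^ 100) ^ 2) (hT0 : 0 ≤ T) (hT : T ≤ C1 * y)
    (hL0 : 0 ≤ L) (hL : L ≤ 100 * y) (hb0 : 0 ≤ b) (hC1 : 1 ≤ C1) :
    b ^ 3 * T ^ 4 * (28 * q ^ 2 * (y ^ 100) ^ 2 * (y ^ 100) ^ K) * L ≤
      3888 ^ 2 * 28 * 100 * C1 ^ 4 * ((y ^ 100) ^ K) ^ 3 := by
  have hy0 : (0 : ℝ) < y := by linarith
  have hC0 : (0 : ℝ) < C1 := by linarith
  obtain ⟨h, hh⟩ : ∃ h : ℝ, h = (y ^ 100) ^ K := ⟨_, rfl⟩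
  have hh0 : 0 < h := by rw [hh]; positivity
  have hyh : y ^ 1045 ≤ h := by
    rw [hh, ← pow_mul]
    exact pow_le_pow_right₀ hy (by omega)
  rw [← hh] at hb ⊢
  rw [← pow_le_pow_iff_left₀ (by positivity) (by positivity) (two_ne_zero)]
  calc (b ^ 3 * T ^ 4 * (28 * q ^ 2 * (y ^ 100) ^ 2 * h) * L) ^ 2 =
        (b ^ 2) ^ 3 * T ^ 8 * (28 * q ^ 2 * (y ^ 100) ^ 2 * h) ^ 2 * L ^ 2 := by ring
    _ ≤ (3888 * q * h * (y ^ 100) ^ 2) ^ 3 * (C1 * y) ^ 8 * (28 * q ^ 2 * (y ^ 100) ^ 2 * h) ^ 2 * (100 * y) ^ 2 := by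
        gcongr
    _ = 3888 ^ 3 * 28 ^ 2 * 100 ^ 2 * C1 ^ 8 * (q ^ 7 * y ^ 1010) * h ^ 5 := by ring
    _ ≤ 3888 ^ 3 * 28 ^ 2 * 100 ^ 2 * C1 ^ 8 * ((y ^ 5) ^ 7 * y ^ 1010) * h ^ 5 := by
        gcongr
    _ = 3888 ^ 3 * 28 ^ 2 * 100 ^ 2 * C1 ^ 8 * y ^ 1045 * h ^ 5 := by ring
    _ ≤ 3888 ^ 3 * 28 ^ 2 * 100 ^ 2 * C1 ^ 8 * h * h ^ 5 := by
        gcongr
    _ ≤ 3888 ^ 4 * 28 ^ 2 * 100 ^ 2 * C1 ^ 8 * h * h ^ 5 := by
        gcongr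
        · norm_num
        · norm_num
    _ = (3888 ^ 2 * 28 * 100 * C1 ^ 4 * h ^ 3) ^ 2 := by ring

private theorem HV_box (N : ℕ) (hN : 1 ≤ N) : ((box2 N).card : ℝ) ≤ 729 * (N : ℝ) ^ 6 := by
  have h0 : (Icc (-(N : ℤ)) (N : ℤ)).card = 2 * N + 1 := by
    rw [Int.card_Icc]
    omega
  have h1 : (box2 N).card = (2 * N + 1) ^ 6 := by
    unfold box2 FGO.box
    simp only [Finset.card_product, h0]
    ring
  have h2 : (box2 N).card ≤ (3 * N) ^ 6 := by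
    rw [h1]
    exact Nat.pow_le_pow_left (by omega) _
  have h3 : ((box2 N).card : ℝ) ≤ (((3 * N) ^ 6 : ℕ) : ℝ) := by exact_mod_cast h2
  refine h3.trans (le_of_eq ?_)
  push_cast
  ring

/-- Proof. `H = N^K`. `ε = 1/(100 (K + 5))`, `divisor_bound ε`: `τ(n) ≤ C₀ n^ε ≤ T := ⌈C₀ (3456 q0 H N⁴)^ε⌉`, `T ≤ 2 C₀ (3456 N^(K+5))^ε ≤ C₁ N^(1/100)`; `T⁴ ≤ C₁⁴ N^(1/25)`. `80000 q0^5 N^8 ≤ N^9 ≤ H` for `N ≥ N1` (`q0^5 ≤ N^(1/4)`).
`Nat.sqrt (432 q0 H N²) ≤ √(432 q0 H) N ≤ 21 N^(1 + 1/40) √H`, so `(2 B + 1)³ ≤ C N^(3 + 3/40) H^(3/2)`. The factor `28 q0² N² H ≤ 28 N^(2 + 1/10) H`. Total for each `u`: `≤ C N^(5 + 3/40 + 1/10 + 1/25) H^(5/2) ≤ C N^(5.215) H^(5/2) = C H³ N^(5.215 - K/2) ≤ C H³ N^(-0.28)` (`K ≥ 11`).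
Sum over the at most `(3N)^6` pairs `u ∈ box2 N` (fibres over `u`; `Finset.card_eq_sum_card_fiberwise` or a double sum). `N^(-0.28) ≤ C/log log N` for `N ≥ 16` (e.g. `log log N ≤ log N ≤ N^0.28/0.28`, `Real.log_le_rpow_div`, and `log log N > 0`).
`typ7_ne` gives the two discriminants which are not squares. `PM 2 H N = 4! H N = 24 H N` (`unfold PM`, `norm_num [Nat.factorial]`). -/
theorem exc_two (K : ℕ) (hK : 11 ≤ K) :
    ∃ C : ℝ, ∃ N1 : ℕ, ∀ N P0 z0 q0 q1 : ℕ, N1 ≤ N → (q0 : ℝ) ≤ (N : ℝ) ^ (1 / 20 : ℝ) → 0 < q0 →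
      0 < ∑ p ∈ PQ P0 z0, 1 / (p : ℝ) →
      (((Bx 2 (N ^ K) N).filter fun g => Typ7 (N ^ K) N P0 z0 q0 q1 g.1 g.2 ∧
        ExcF (N ^ K) q0 (PM 2 (N ^ K) N) g.1 g.2).card : ℝ) ≤ C * ((N : ℝ) ^ K) ^ (2 + 1) * (N : ℝ) ^ 6 / Real.log (Real.log N) := by
  obtain ⟨C1, hC1, HT⟩ := HV_T K
  refine ⟨729 * (3888 ^ 2 * 28 * 100 * C1 ^ 4), 300, ?_⟩
  intro N P0 z0 q0 q1 hN hq hq0 hS
  obtain ⟨y, hy1, hyN, hy20, hLLy, hLL⟩ := HV_y hN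
  rw [hy20] at hq
  obtain ⟨T, hT1, hT2⟩ := HT N q0 y hy1 hyN hq
  have hN1 : 0 < N := by omega
  have hPM : PM 2 (N ^ K) N = 24 * N ^ K * N := by
    unfold PM
    norm_num [Nat.factorial]
  rw [hPM]
  have hq5 : q0 ^ 5 ≤ N := by
    have h1 : (q0 : ℝ) ^ 5 ≤ (N : ℝ) := by
      calc (q0 : ℝ) ^ 5 ≤ (y ^ 5) ^ 5 := pow_le_pow_left₀ (Nat.cast_nonneg _) hq 5
        _ = y ^ 25 := by ring
        _ ≤ y ^ 100 := pow_le_pow_right₀ hy1 (by norm_num)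
        _ = N := hyN
    exact_mod_cast h1
  have hH : 80000 * q0 ^ 5 * N ^ 8 ≤ N ^ K := by
    calc 80000 * q0 ^ 5 * N ^ 8 ≤ (N * N) * N * N ^ 8 := by
          refine Nat.mul_le_mul_right _ (Nat.mul_le_mul ?_ hq5)
          nlinarith
      _ = N ^ 11 := by ring
      _ ≤ N ^ K := Nat.pow_le_pow_right hN1 hK
  obtain ⟨A, hA⟩ : ∃ A : ℝ, A = (2 * (Nat.sqrt (432 * q0 * N ^ K * N ^ 2) : ℝ) + 1) ^ 3 * (T : ℝ) ^ 4 *
    (28 * (q0 : ℝ) ^ 2 * (N : ℝ) ^ 2 * ((N ^ K : ℕ) : ℝ)) := ⟨_, rfl⟩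
  have hA0 : 0 ≤ A := by rw [hA]; positivity
  have hu : ∀ u ∈ box2 N, (((boxN 2 (N ^ K)).filter fun f => Typ7 (N ^ K) N P0 z0 q0 q1 f u ∧
      ExcF (N ^ K) q0 (24 * N ^ K * N) f u).card : ℝ) ≤ A := by
    intro u hu
    by_cases h : ∃ f : Vn 2, Typ7 (N ^ K) N P0 z0 q0 q1 f u
    · obtain ⟨f0, hf0⟩ := h
      obtain ⟨h1, h2, _⟩ := typ7_ne hf0 hS
      rw [hA]
      refine le_trans ?_ (excF_cnt hN1 hq0 hH hu h1 h2 T hT2)
      refine Nat.cast_le.2 (Finset.card_le_card fun f hf => ?_)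
      rw [Finset.mem_filter] at hf ⊢
      exact ⟨hf.1, hf.2.2⟩
    · have h1 : (boxN 2 (N ^ K)).filter (fun f => Typ7 (N ^ K) N P0 z0 q0 q1 f u ∧
          ExcF (N ^ K) q0 (24 * N ^ K * N) f u) = ∅ :=
        Finset.filter_eq_empty_iff.2 fun f _ hf => h ⟨f, hf.1⟩
      rw [h1, Finset.card_empty, Nat.cast_zero]
      exact hA0
  have hcount : (((Bx 2 (N ^ K) N).filter fun g => Typ7 (N ^ K) N P0 z0 q0 q1 g.1 g.2 ∧
      ExcF (N ^ K) q0 (24 * N ^ K * N) g.1 g.2).card : ℝ) ≤ ((box2 N).card : ℝ) * A := by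
    have e : (((Bx 2 (N ^ K) N).filter fun g => Typ7 (N ^ K) N P0 z0 q0 q1 g.1 g.2 ∧
        ExcF (N ^ K) q0 (24 * N ^ K * N) g.1 g.2).card : ℝ) =
        ∑ u ∈ box2 N, (((boxN 2 (N ^ K)).filter fun f => Typ7 (N ^ K) N P0 z0 q0 q1 f u ∧
          ExcF (N ^ K) q0 (24 * N ^ K * N) f u).card : ℝ) := by
      unfold Bx
      rw [Finset.card_filter, Finset.sum_product_right]
      push_cast
      refine Finset.sum_congr rfl fun u _ => ?_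
      rw [Finset.card_filter]
      push_cast
      rfl
    rw [e, ← nsmul_eq_mul]
    exact Finset.sum_le_card_nsmul _ _ _ hu
  have hkey : A * Real.log (Real.log N) ≤ 3888 ^ 2 * 28 * 100 * C1 ^ 4 * ((N : ℝ) ^ K) ^ 3 := by
    have hb : (2 * (Nat.sqrt (432 * q0 * N ^ K * N ^ 2) : ℝ) + 1) ^ 2 ≤
        3888 * (q0 : ℝ) * (y ^ 100) ^ K * (y ^ 100) ^ 2 := by
      rw [hyN]
      have h1 : Nat.sqrt (432 * q0 * N ^ K * N ^ 2) ^ 2 ≤ 432 * q0 * N ^ K * N ^ 2 := Nat.sqrt_le' _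
      have h2 : Nat.sqrt (432 * q0 * N ^ K * N ^ 2) ≤ 432 * q0 * N ^ K * N ^ 2 := Nat.sqrt_le_self _
      have h3 : 1 ≤ 432 * q0 * N ^ K * N ^ 2 := by
        have : 0 < 432 * q0 * N ^ K * N ^ 2 := by positivity
        exact this
      have h4 : (2 * Nat.sqrt (432 * q0 * N ^ K * N ^ 2) + 1) ^ 2 ≤ 9 * (432 * q0 * N ^ K * N ^ 2) := by
        calc (2 * Nat.sqrt (432 * q0 * N ^ K * N ^ 2) + 1) ^ 2 =
              4 * Nat.sqrt (432 * q0 * N ^ K * N ^ 2) ^ 2 + 4 * Nat.sqrt (432 * q0 * N ^ K * N ^ 2) + 1 := by ring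
          _ ≤ 4 * (432 * q0 * N ^ K * N ^ 2) + 4 * (432 * q0 * N ^ K * N ^ 2) + 432 * q0 * N ^ K * N ^ 2 := by
              gcongr
          _ = 9 * (432 * q0 * N ^ K * N ^ 2) := by ring
      have h5 : ((2 * (Nat.sqrt (432 * q0 * N ^ K * N ^ 2) : ℝ) + 1) ^ 2) ≤
          9 * (432 * (q0 : ℝ) * (N : ℝ) ^ K * (N : ℝ) ^ 2) := by exact_mod_cast h4
      refine h5.trans (le_of_eq ?_)
      ring
    have h1 := HV_sq (K := K) (y := y) (q := q0) (b := 2 * (Nat.sqrt (432 * q0 * N ^ K * N ^ 2) : ℝ) + 1)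
      (T := T) (L := Real.log (Real.log N)) (C1 := C1) hK hy1 (Nat.cast_nonneg _) hq hb (Nat.cast_nonneg _) hT1
      hLL.le hLLy (by positivity) hC1
    rw [hyN] at h1
    rw [hA]
    push_cast
    exact h1
  refine hcount.trans ?_
  rw [le_div_iff₀ hLL]
  calc ((box2 N).card : ℝ) * A * Real.log (Real.log N) = ((box2 N).card : ℝ) * (A * Real.log (Real.log N)) := by
        ring
    _ ≤ (729 * (N : ℝ) ^ 6) * (3888 ^ 2 * 28 * 100 * C1 ^ 4 * ((N : ℝ) ^ K) ^ 3) :=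
        mul_le_mul (HV_box N hN1) hkey (mul_nonneg hA0 hLL.le) (by positivity)
    _ = 729 * (3888 ^ 2 * 28 * 100 * C1 ^ 4) * ((N : ℝ) ^ K) ^ (2 + 1) * (N : ℝ) ^ 6 := by ring

end FQQ
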