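import Pool.Agent.Lib.MP_10e784_agF.HV

/-! JOB HW -/

set_option autoImplicit false

open Classical

namespace FQQ

open Finset Polynomial FGO

/-- Proof. `m = 2`: `bad_of_exc` and `exc_two`. `m ≥ 4`: `bad_card4`. (`m` even, `m ≥ 2`, so `m = 2` or `m ≥ 4`.) -/
theorem bad_all (m K : ℕ) (hm : 2 ≤ m) (hme : Even m) (hK : m / 2 + 10 ≤ K) :
    ∃ C : ℝ, 0 < C ∧ ∀ N : ℕ, 16 ≤ N →
      (((Bx m (N ^ K) N).filter fun g => Sel g.1 g.2).card : ℝ) ≤
        C * (((N : ℝ) ^ K) ^ (m + 1) * (N : ℝ) ^ 6) / Real.log (Real.log N) := by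
  rcases lt_or_ge m 4 with h | h
  · have h2 : m = 2 := by
      obtain ⟨k, hk⟩ := hme
      omega
    subst h2
    exact bad_of_exc 2 K (by omega) hme (by omega) (by omega) (exc_two K (by omega))
  · exact bad_card4 m K h hme (by omega)

end FQQ
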