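import Pool.Agent.Lib.MP_10e784_agF.Defs
import Pool.Agent.Lib.MP_1ad228_ntG.Kr1

/-! JOB KN1: elementary properties of the boxes and of the kernel for forms of degree `m`. -/

set_option autoImplicit false

open Classical

namespace FQQ

open Finset Polynomial FGO

theorem mem_boxN {m H : ℕ} {f : Vn m} : f ∈ boxN m H ↔ ∀ i, |f i| ≤ (H : ℤ) := by
  unfold boxN
  rw [Fintype.mem_piFinset]
  exact forall_congr' fun i => by rw [Finset.mem_Icc, abs_le]

theorem mem_cubeN {m q : ℕ} {f : Vn m} : f ∈ cubeN m q ↔ ∀ i, 0 ≤ f i ∧ f i < (q : ℤ) := by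
  unfold cubeN
  rw [Fintype.mem_piFinset]
  exact forall_congr' fun i => by rw [Finset.mem_Ico]

theorem card_boxN (m H : ℕ) : (boxN m H).card = (2 * H + 1) ^ (m + 1) := by
  unfold boxN
  rw [Fintype.card_piFinset_const, Int.card_Icc]
  congr 1
  omega

theorem WN_nonneg {m : ℕ} (J M : ℕ) (f : Vn m) : 0 ≤ WN J M f :=
  Finset.prod_nonneg fun _ _ => wt_nonneg J M _

theorem WN_periodic {m : ℕ} (J M : ℕ) (hM : 0 < M) (f g : Vn m) (h : CgN M f g) : WN J M f = WN J M g := by
  unfold WN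
  exact Finset.prod_congr rfl fun i _ => wt_periodic J M hM _ _ (h i)

private theorem KN1_prod {ι : Type*} (s : Finset ι) (φ : ι → ℝ) (h : ∀ i ∈ s, 1 ≤ φ i) :
    1 ≤ ∏ i ∈ s, φ i := by
  induction s using Finset.induction_on with
  | empty => rw [Finset.prod_empty]
  | insert a s ha ih =>
    rw [Finset.prod_insert ha]
    exact one_le_mul_of_one_le_of_one_le (h a (Finset.mem_insert_self a s))
      (ih fun i hi => h i (Finset.mem_insert_of_mem hi))

theorem WN_ge_one {m : ℕ} (H J : ℕ) (hH : 0 < H) (hJ : 0 < J) (f : Vn m) (hf : f ∈ boxN m H) :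
    1 ≤ WN J (4 * H * J) f := by
  rw [mem_boxN] at hf
  unfold WN
  exact KN1_prod _ _ fun i _ => wt_ge_one H J hH hJ _ (hf i)

end FQQ
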