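import Pool.Agent.Lib.MP_10e784_agF.Defs

/-! JOB KN2 -/

set_option autoImplicit false

open Classical

namespace FQQ

open Finset Polynomial FGO

theorem PerN.mono {m a b : ℕ} {φ : Vn m → ℝ} (h : PerN a φ) (hab : a ∣ b) : PerN b φ := by
  intro f g h1
  exact h f g fun i => (Int.natCast_dvd_natCast.2 hab).trans (h1 i)

theorem PerN.mul {m a b : ℕ} {φ ψ : Vn m → ℝ} (h : PerN a φ) (h' : PerN b ψ) : PerN (a * b) fun f => φ f * ψ f := by
  intro f g h1
  have e1 := h.mono (Dvd.intro b rfl) f g h1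
  have e2 := h'.mono (Dvd.intro_left a rfl) f g h1
  simp only [e1, e2]

private theorem KN2_card (m q : ℕ) : (cubeN m q).card = q ^ (m + 1) := by
  unfold cubeN
  rw [Fintype.card_piFinset]
  simp

private theorem KN2_mem {m q : ℕ} {f : Vn m} : f ∈ cubeN m q ↔ ∀ i, 0 ≤ f i ∧ f i < (q : ℤ) := by
  unfold cubeN
  rw [Fintype.mem_piFinset]
  simp only [Finset.mem_Ico]

theorem ExN_add (m q : ℕ) (φ ψ : Vn m → ℝ) : ExN m q (fun f => φ f + ψ f) = ExN m q φ + ExN m q ψ := by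
  unfold ExN
  rw [Finset.sum_add_distrib, add_div]

theorem ExN_sub (m q : ℕ) (φ ψ : Vn m → ℝ) : ExN m q (fun f => φ f - ψ f) = ExN m q φ - ExN m q ψ := by
  unfold ExN
  rw [Finset.sum_sub_distrib, sub_div]

theorem ExN_smul (m q : ℕ) (c : ℝ) (φ : Vn m → ℝ) : ExN m q (fun f => c * φ f) = c * ExN m q φ := by
  unfold ExN
  rw [← Finset.mul_sum, mul_div_assoc]

theorem ExN_mono (m q : ℕ) (φ ψ : Vn m → ℝ) (h : ∀ f, φ f ≤ ψ f) : ExN m q φ ≤ ExN m q ψ := by
  unfold ExN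
  exact div_le_div_of_nonneg_right (Finset.sum_le_sum fun f _ => h f) (by positivity)

/-- Proof. `#(cubeN m q) = q^(m+1)`. -/
theorem ExN_const {m q : ℕ} (hq : 0 < q) (c : ℝ) : ExN m q (fun _ => c) = c := by
  unfold ExN
  rw [Finset.sum_const, KN2_card, nsmul_eq_mul]
  have h1 : (q : ℝ) ^ (m + 1) ≠ 0 := by positivity
  push_cast
  field_simp

theorem ExN_nonneg (m q : ℕ) (φ : Vn m → ℝ) (h : ∀ f, 0 ≤ φ f) : 0 ≤ ExN m q φ := by
  unfold ExN
  exact div_nonneg (Finset.sum_nonneg fun f _ => h f) (by positivity)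

/-- Proof. `ExN_mono` and `ExN_const`. -/
theorem ExN_le_one {m q : ℕ} (hq : 0 < q) (φ : Vn m → ℝ) (h : ∀ f, φ f ≤ 1) : ExN m q φ ≤ 1 := by
  have h1 := ExN_mono m q φ (fun _ => 1) h
  rw [ExN_const hq] at h1
  exact h1

/-- Proof. Chinese remainder theorem: `cubeN m (a b) → cubeN m a × cubeN m b`, `f ↦ (f mod a, f mod b)` (coordinatewise) is a bijection, and `φ f = φ (f mod a)`, `ψ f = ψ (f mod b)`
(for one coordinate `x ↦ (x mod a, x mod b)` is injective on `Ico 0 (ab)` by coprimality, and the cardinalities agree). -/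
theorem ExN_mul {m a b : ℕ} (ha : 0 < a) (hb : 0 < b) (h : a.Coprime b) {φ ψ : Vn m → ℝ} (hφ : PerN a φ)
    (hψ : PerN b ψ) : ExN m (a * b) (fun f => φ f * ψ f) = ExN m a φ * ExN m b ψ := by
  have hab : IsCoprime (a : ℤ) (b : ℤ) := Nat.isCoprime_iff_coprime.mpr h
  have haz : (0 : ℤ) < a := by exact_mod_cast ha
  have hbz : (0 : ℤ) < b := by exact_mod_cast hb
  have hmaps : ∀ f ∈ cubeN m (a * b), ((fun i => f i % (a : ℤ), fun i => f i % (b : ℤ)) : Vn m × Vn m)
      ∈ cubeN m a ×ˢ cubeN m b := by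
    intro f _
    rw [Finset.mem_product, KN2_mem, KN2_mem]
    exact ⟨fun i => ⟨Int.emod_nonneg _ haz.ne', Int.emod_lt_of_pos _ haz⟩,
      fun i => ⟨Int.emod_nonneg _ hbz.ne', Int.emod_lt_of_pos _ hbz⟩⟩
  have hinj : Set.InjOn (fun f : Vn m => ((fun i => f i % (a : ℤ), fun i => f i % (b : ℤ)) : Vn m × Vn m))
      (cubeN m (a * b)) := by
    intro f hf g hg hfg
    rw [Finset.mem_coe, KN2_mem] at hf hg
    have h1 := congrArg Prod.fst hfg
    have h2 := congrArg Prod.snd hfg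
    funext i
    have h3 : f i % (a : ℤ) = g i % (a : ℤ) := congrFun h1 i
    have h4 : f i % (b : ℤ) = g i % (b : ℤ) := congrFun h2 i
    have h5 : (a : ℤ) ∣ g i - f i := Int.ModEq.dvd h3
    have h6 : (b : ℤ) ∣ g i - f i := Int.ModEq.dvd h4
    have h7 : ((a * b : ℕ) : ℤ) ∣ g i - f i := by
      push_cast
      exact hab.mul_dvd h5 h6
    have h8 : |g i - f i| < ((a * b : ℕ) : ℤ) := by
      rw [abs_lt]
      have := hf i
      have := hg i
      constructor <;> linarith [(hf i).1, (hf i).2, (hg i).1, (hg i).2]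
    have h9 := Int.eq_zero_of_abs_lt_dvd h7 h8
    linarith
  have hsurj := Finset.surjOn_of_injOn_of_card_le _ (fun f hf => hmaps f hf) hinj (by
    rw [Finset.card_product, KN2_card, KN2_card, KN2_card, mul_pow])
  have hsum : ∑ f ∈ cubeN m (a * b), φ f * ψ f = (∑ f ∈ cubeN m a, φ f) * ∑ f ∈ cubeN m b, ψ f := by
    rw [Finset.sum_mul_sum, ← Finset.sum_product']
    refine Finset.sum_nbij _ hmaps hinj hsurj ?_
    intro f _
    have h1 : φ f = φ (fun i => f i % (a : ℤ)) := hφ f _ fun i => Int.dvd_self_sub_emod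
    have h2 : ψ f = ψ (fun i => f i % (b : ℤ)) := hψ f _ fun i => Int.dvd_self_sub_emod
    rw [h1, h2]
  unfold ExN
  rw [hsum]
  push_cast
  rw [mul_pow, mul_div_mul_comm]

end FQQ
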