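import Pool.Agent.Lib.MP_10e784_agF.KN2

/-! JOB KN2b -/

set_option autoImplicit false

open Classical

namespace FQQ

open Finset Polynomial FGO

/-- Proof. `Finset.induction_on D` with `ExN_mul` (different primes are coprime) and `PerN.mul`. The empty product: `ExN m 1 1 = 1`. -/
theorem ExN_prod {m : ℕ} (D : Finset ℕ) (hD : ∀ p ∈ D, p.Prime) (x : ℕ → Vn m → ℝ) (hx : ∀ p ∈ D, PerN p (x p)) :
    PerN (∏ p ∈ D, p) (fun f => ∏ p ∈ D, x p f) ∧
      ExN m (∏ p ∈ D, p) (fun f => ∏ p ∈ D, x p f) = ∏ p ∈ D, ExN m p (x p) := by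
  induction D using Finset.induction_on with
  | empty =>
    refine ⟨fun f g _ => ?_, ?_⟩
    · simp only [Finset.prod_empty]
    · simp only [Finset.prod_empty]
      exact ExN_const Nat.one_pos 1
  | insert p D hp ih =>
    have hD' : ∀ q ∈ D, q.Prime := fun q hq => hD q (Finset.mem_insert_of_mem hq)
    have hx' : ∀ q ∈ D, PerN q (x q) := fun q hq => hx q (Finset.mem_insert_of_mem hq)
    obtain ⟨ih1, ih2⟩ := ih hD' hx'
    have hpp : p.Prime := hD p (Finset.mem_insert_self p D)
    have hxp : PerN p (x p) := hx p (Finset.mem_insert_self p D)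
    have hpos : 0 < ∏ q ∈ D, q := Finset.prod_pos fun q hq => (hD' q hq).pos
    have hco : Nat.Coprime p (∏ q ∈ D, q) := by
      refine Nat.Coprime.prod_right fun q hq => ?_
      refine (Nat.coprime_primes hpp (hD' q hq)).2 ?_
      rintro rfl
      exact hp hq
    have e1 : (fun f : Vn m => ∏ q ∈ insert p D, x q f) = fun f => x p f * ∏ q ∈ D, x q f := by
      funext f
      exact Finset.prod_insert hp
    rw [e1, Finset.prod_insert hp, Finset.prod_insert hp]
    refine ⟨hxp.mul ih1, ?_⟩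
    rw [ExN_mul hpp.pos hpos hco hxp ih1, ih2]

private theorem KN2b_card (m q : ℕ) : (cubeN m q).card = q ^ (m + 1) := by
  simp only [cubeN, Fintype.card_piFinset, Int.card_Ico, sub_zero, Int.toNat_natCast,
    Finset.prod_const, Finset.card_univ, Fintype.card_fin]

/-- Proof. `b = a k`: every class modulo `a` contains `k^(m+1)` elements of `cubeN m b` (fibres of `f ↦ f mod a`). -/
theorem ExN_dvd {m a b : ℕ} (hb : 0 < b) (hab : a ∣ b) {φ : Vn m → ℝ} (hφ : PerN a φ) :
    ExN m b φ = ExN m a φ := by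
  obtain ⟨k, rfl⟩ := hab
  have ha : 0 < a := Nat.pos_of_mul_pos_right hb
  have hk : 0 < k := Nat.pos_of_mul_pos_left hb
  have ha' : (0 : ℤ) < a := Int.natCast_pos.2 ha
  have hs : ∑ f ∈ cubeN m (a * k), φ f = ∑ z ∈ cubeN m a ×ˢ cubeN m k, φ z.1 := by
    refine Finset.sum_nbij' (fun f => ((fun i => f i % (a : ℤ)), (fun i => f i / (a : ℤ))))
      (fun z i => z.1 i + (a : ℤ) * z.2 i) ?_ ?_ ?_ ?_ ?_
    · intro f hf
      simp only [cubeN, Fintype.mem_piFinset, Finset.mem_Ico, Finset.mem_product] at hf ⊢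
      refine ⟨fun i => ⟨Int.emod_nonneg _ ha'.ne', Int.emod_lt_of_pos _ ha'⟩, fun i => ⟨Int.ediv_nonneg (hf i).1 ha'.le, ?_⟩⟩
      refine Int.ediv_lt_of_lt_mul ha' ?_
      have := (hf i).2
      rw [Nat.cast_mul] at this
      linarith [mul_comm (a : ℤ) (k : ℤ)]
    · intro z hz
      simp only [cubeN, Fintype.mem_piFinset, Finset.mem_Ico, Finset.mem_product] at hz ⊢
      intro i
      have h1 := hz.1 i
      have h2 := hz.2 i
      rw [Nat.cast_mul]
      constructor
      · exact add_nonneg h1.1 (mul_nonneg ha'.le h2.1)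
      · have h3 : z.2 i + 1 ≤ (k : ℤ) := h2.2
        have h4 : (a : ℤ) * (z.2 i + 1) ≤ a * k := mul_le_mul_of_nonneg_left h3 ha'.le
        linarith [h1.2]
    · intro f _
      funext i
      exact Int.emod_add_mul_ediv (f i) a
    · intro z hz
      simp only [cubeN, Fintype.mem_piFinset, Finset.mem_Ico, Finset.mem_product] at hz
      refine Prod.ext (funext fun i => ?_) (funext fun i => ?_)
      · have h1 := hz.1 i
        show (z.1 i + (a : ℤ) * z.2 i) % (a : ℤ) = z.1 i
        rw [Int.add_mul_emod_self_left]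
        exact Int.emod_eq_of_lt h1.1 h1.2
      · have h1 := hz.1 i
        show (z.1 i + (a : ℤ) * z.2 i) / (a : ℤ) = z.2 i
        rw [Int.add_mul_ediv_left _ _ ha'.ne', Int.ediv_eq_zero_of_lt h1.1 h1.2, zero_add]
    · intro f _
      refine hφ _ _ fun i => ?_
      show (a : ℤ) ∣ f i - f i % (a : ℤ)
      exact ⟨f i / a, by linear_combination - Int.emod_add_mul_ediv (f i) a⟩
  have hk' : ((k : ℝ)) ^ (m + 1) ≠ 0 := pow_ne_zero _ (Nat.cast_ne_zero.2 hk.ne')
  unfold ExN
  rw [hs, Finset.sum_product]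
  simp only [Finset.sum_const, KN2b_card, nsmul_eq_mul]
  rw [← Finset.mul_sum, Nat.cast_mul, mul_pow, Nat.cast_pow, mul_comm ((a : ℝ) ^ (m + 1)), mul_div_mul_left _ _ hk']

end FQQ
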