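import Pool.Agent.Lib.MP_10e784_agF.KN5
import Pool.Agent.Lib.MP_10e784_agF.KN2b

/-! JOB KN6 -/

set_option autoImplicit false

open Classical

namespace FQQ

open Finset Polynomial FGO

/-- reduction of the coordinates modulo `q` -/
private def KN6_md {m : ℕ} (q : ℕ) (f : Vn m) : Vn m := fun i => f i % (q : ℤ)

private theorem KN6_mem {m q : ℕ} (hq : 0 < q) (f : Vn m) : KN6_md q f ∈ cubeN m q := by
  rw [mem_cubeN]
  intro i
  have hq' : (0 : ℤ) < q := by exact_mod_cast hq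
  exact ⟨Int.emod_nonneg _ hq'.ne', Int.emod_lt_of_pos _ hq'⟩

private theorem KN6_cg {m : ℕ} (q : ℕ) (f : Vn m) : CgN q f (KN6_md q f) := by
  intro i
  exact Int.dvd_self_sub_emod

private theorem KN6_eq {m q : ℕ} {f c : Vn m} (hc : c ∈ cubeN m q) : KN6_md q f = c ↔ CgN q f c := by
  rw [mem_cubeN] at hc
  constructor
  · rintro rfl
    exact KN6_cg q f
  · intro h
    funext i
    have h1 : f i % (q : ℤ) = c i % (q : ℤ) := (Int.emod_emod_of_dvd _ (dvd_refl _)).symm.trans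
      (by
        have h2 := (Int.emod_emod_of_dvd (f i) (dvd_refl (q : ℤ)))
        rw [h2]
        exact (Int.emod_emod_of_dvd (f i) (dvd_refl (q : ℤ))).symm.trans (by
          rw [h2]
          exact (Int.emod_eq_emod_iff_emod_sub_eq_zero).2 (Int.emod_eq_zero_of_dvd (h i))))
    change f i % (q : ℤ) = c i
    rw [h1, Int.emod_eq_of_lt (hc i).1 (hc i).2]

private theorem KN6_evn {m M : ℕ} {f g : Vn m} (h : CgN M f g) (r : ℤ) :
    (M : ℤ) ∣ evn f r ↔ (M : ℤ) ∣ evn g r := by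
  have h1 : (M : ℤ) ∣ evn f r - evn g r := by
    unfold evn
    rw [← Finset.sum_sub_distrib]
    refine Finset.dvd_sum fun i _ => ?_
    rw [← sub_mul]
    exact (h i).mul_right _
  exact (dvd_iff_dvd_of_dvd_sub h1)

/-- Proof. Group the `f` by their residues `c ∈ cubeN m q` modulo `q` (`Finset.sum_fiberwise_of_maps_to`, `q ∣ 4HJ`); on a fibre `φ f = φ c` and the sum of `WN` over the fibre is `ex_cosetN`.
Total `∑_c φ c (8H)^(m+1)/(M q^(m+1)) = (8H)^(m+1)/M * ExN m q φ`. -/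
theorem ex_perN {m H J M q q0 : ℕ} {r : ℤ} (hH : 0 < H) (hJ : 0 < J) (hM : 0 < M) (hq : 0 < q)
    (hc : M.Coprime q) (hd : M * q ∣ J) (hq0 : q ≤ q0) (hG : GoodN m H q0 M r) (φ : Vn m → ℝ) (hφ : PerN q φ) :
    ∑ f ∈ (cubeN m (4 * H * J)).filter (fun f => (M : ℤ) ∣ evn f r), WN J (4 * H * J) f * φ f =
      (8 * (H : ℝ)) ^ (m + 1) / (M : ℝ) * ExN m q φ := by
  rw [← Finset.sum_fiberwise_of_maps_to (s := (cubeN m (4 * H * J)).filter
    (fun f => (M : ℤ) ∣ evn f r)) (t := cubeN m q) (g := KN6_md q) (fun f _ => KN6_mem hq f)]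
  have h1 : ∀ c ∈ cubeN m q, (∑ f ∈ ((cubeN m (4 * H * J)).filter
      (fun f => (M : ℤ) ∣ evn f r)).filter (fun f => KN6_md q f = c), WN J (4 * H * J) f * φ f) =
      φ c * ((8 * (H : ℝ)) ^ (m + 1) / ((M : ℝ) * (q : ℝ) ^ (m + 1))) := by
    intro c hcm
    rw [← ex_cosetN hH hJ hM hq hc hd hq0 hG c, Finset.mul_sum, Finset.filter_filter]
    refine Finset.sum_congr ?_ ?_
    · refine Finset.filter_congr fun f _ => ?_
      unfold CosN
      rw [KN6_eq hcm, and_comm]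
    · intro f hf
      rw [Finset.mem_filter] at hf
      rw [hφ f c hf.2.1, mul_comm]
  rw [Finset.sum_congr rfl h1, ← Finset.sum_mul]
  unfold ExN
  have hq' : (q : ℝ) ≠ 0 := by
    have : (0 : ℝ) < q := by exact_mod_cast hq
    exact this.ne'
  have hM' : (M : ℝ) ≠ 0 := by
    have : (0 : ℝ) < M := by exact_mod_cast hM
    exact this.ne'
  field_simp

/-- Proof. (Model: `FGO.box_le_cube`.) `4HJ > 2H`: the map `f ↦ f mod 4HJ` (coordinatewise `Int.emod`) from the box to the cube is injective, and `WN`, `φ`, `M ∣ evn f r` (as `M ∣ J`) do not change;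
`1 ≤ WN` on the box (`WN_ge_one`), all terms are `≥ 0`. -/
theorem box_le_cubeN {m H J M : ℕ} {r : ℤ} (hH : 0 < H) (hJ : 0 < J) (hM : M ∣ J) (φ : Vn m → ℝ)
    (h0 : ∀ f, 0 ≤ φ f) (hφ : PerN (4 * H * J) φ) :
    ∑ f ∈ (boxN m H).filter (fun f => (M : ℤ) ∣ evn f r), φ f ≤
      ∑ f ∈ (cubeN m (4 * H * J)).filter (fun f => (M : ℤ) ∣ evn f r), WN J (4 * H * J) f * φ f := by
  have hM4 : 0 < 4 * H * J := by positivity
  have h1 : ∀ f ∈ (boxN m H).filter (fun f => (M : ℤ) ∣ evn f r),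
      φ f ≤ WN J (4 * H * J) (KN6_md (4 * H * J) f) * φ (KN6_md (4 * H * J) f) := by
    intro f hf
    rw [Finset.mem_filter] at hf
    rw [← WN_periodic J (4 * H * J) hM4 _ _ (KN6_cg (4 * H * J) f),
      ← hφ _ _ (KN6_cg (4 * H * J) f)]
    have h2 := WN_ge_one H J hH hJ f hf.1
    nlinarith [h0 f]
  refine (Finset.sum_le_sum h1).trans ?_
  have hinj : Set.InjOn (KN6_md (m := m) (4 * H * J))
      ((boxN m H).filter (fun f => (M : ℤ) ∣ evn f r) : Finset (Vn m)) := by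
    intro f hf g hg hfg
    rw [Finset.mem_coe, Finset.mem_filter, mem_boxN] at hf hg
    funext i
    have h2 := KN6_cg (4 * H * J) f i
    have h3 := KN6_cg (4 * H * J) g i
    rw [hfg] at h2
    have h4 : ((4 * H * J : ℕ) : ℤ) ∣ f i - g i := by
      have h5 := dvd_sub h2 h3
      have h6 : f i - KN6_md (4 * H * J) g i - (g i - KN6_md (4 * H * J) g i) = f i - g i := by ring
      rwa [h6] at h5
    have h7 := abs_le.1 (hf.1 i)
    have h8 := abs_le.1 (hg.1 i)
    have h9 : |f i - g i| < ((4 * H * J : ℕ) : ℤ) := by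
      rw [abs_lt]
      have hJ' : (1 : ℤ) ≤ J := by exact_mod_cast hJ
      have hH' : (1 : ℤ) ≤ H := by exact_mod_cast hH
      push_cast
      constructor <;> nlinarith
    exact sub_eq_zero.1 (Int.eq_zero_of_abs_lt_dvd h4 h9)
  rw [← Finset.sum_image (f := fun f => WN J (4 * H * J) f * φ f) hinj]
  refine Finset.sum_le_sum_of_subset_of_nonneg ?_ ?_
  · intro g hg
    obtain ⟨f, hf, rfl⟩ := Finset.mem_image.1 hg
    rw [Finset.mem_filter] at hf ⊢
    refine ⟨KN6_mem hM4 f, ?_⟩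
    have h2 : CgN M f (KN6_md (4 * H * J) f) := by
      intro i
      refine (Int.natCast_dvd_natCast.2 ?_).trans (KN6_cg (4 * H * J) f i)
      exact hM.trans (Dvd.intro_left _ rfl)
    exact (KN6_evn h2 r).1 hf.2
  · intro f _ _
    exact mul_nonneg (WN_nonneg J _ f) (h0 f)

end FQQ
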