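import Pool.Agent.Lib.MP_10e784_agF.KT1

/-! JOB KT2 -/

set_option autoImplicit false

open Classical

namespace FQQ

open Finset Polynomial FGO

/-- the weighted sum over the two cubes -/
noncomputable def S3 (m H N J : ℕ) (φ : Vn m → V × V → ℝ) : ℝ :=
  ∑ u ∈ cube2 (4 * N * J), ∑ f ∈ cubeN m (4 * H * J),
    WN J (4 * H * J) f * (W J (4 * N * J) u.1 * W J (4 * N * J) u.2) * φ f u

private theorem KT2_filt {m : ℕ} (s : Finset (Vn m)) (r : ℤ) :
    s.filter (fun f => ((1 : ℕ) : ℤ) ∣ evn f r) = s :=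
  Finset.filter_true_of_mem fun f _ => by simp

private theorem KT2_filt2 (s : Finset (V × V)) (r : ℤ) : s.filter (Lam 1 r) = s :=
  Finset.filter_true_of_mem fun u _ => ⟨by simp, by simp⟩

private theorem KT2_swap (m H N J : ℕ) (φ : Vn m → V × V → ℝ) :
    S3 m H N J φ = ∑ u ∈ cube2 (4 * N * J), W J (4 * N * J) u.1 * W J (4 * N * J) u.2 *
      ∑ f ∈ cubeN m (4 * H * J), WN J (4 * H * J) f * φ f u := by
  unfold S3
  refine Finset.sum_congr rfl fun u _ => ?_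
  rw [Finset.mul_sum]
  refine Finset.sum_congr rfl fun f _ => ?_
  ring

/-- Proof. For fixed `u` apply `ex_perN` with `M = 1`, `q0 = 4H`, `goodN_one` (the filter `1 ∣ evn f r` is everything), `q ≤ 4N ≤ 4H`; then `ex_pair` with `δ = 1`, `q0 = 4N`, `good_one'` (`Lam 1 r u` is always true)
for the function `u ↦ ExN m q (φ · u)`. -/
theorem S3_eq {m H N J q : ℕ} (hN : 0 < N) (hH : N ≤ H) (hJ : 0 < J) (hq : 0 < q) (hd : q ∣ J) (hq4 : q ≤ 4 * N)
    (φ : Vn m → V × V → ℝ) (hφ : Per3 q φ) :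
    S3 m H N J φ = (8 * (H : ℝ)) ^ (m + 1) * (8 * (N : ℝ)) ^ 6 * E3 m q φ := by
  have hH0 : 0 < H := lt_of_lt_of_le hN hH
  have hd1 : 1 * q ∣ J := by rw [one_mul]; exact hd
  have e1 : ∀ u : V × V, ∑ f ∈ cubeN m (4 * H * J), WN J (4 * H * J) f * φ f u =
      (8 * (H : ℝ)) ^ (m + 1) * ExN m q fun f => φ f u := by
    intro u
    have h := ex_perN (m := m) (H := H) (J := J) (M := 1) (q := q) (q0 := 4 * H) (r := 0) hH0 hJ one_pos hq
      (Nat.coprime_one_left q) hd1 (by omega) (goodN_one m H 0) (fun f => φ f u) (hφ.left u)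
    rw [KT2_filt] at h
    rw [h, Nat.cast_one, div_one]
  have h2 := ex_pair (N := N) (J := J) (δ := 1) (q := q) (q0 := 4 * N) (r := 0) hN hJ one_pos hq
    (Nat.coprime_one_left q) hd1 hq4 (good_one' N 0) (fun u => ExN m q fun f => φ f u) hφ.right
  rw [KT2_filt2, Nat.cast_one, one_pow, div_one] at h2
  rw [KT2_swap]
  calc ∑ u ∈ cube2 (4 * N * J), W J (4 * N * J) u.1 * W J (4 * N * J) u.2 *
        ∑ f ∈ cubeN m (4 * H * J), WN J (4 * H * J) f * φ f u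
      = (8 * (H : ℝ)) ^ (m + 1) * ∑ u ∈ cube2 (4 * N * J), W J (4 * N * J) u.1 * W J (4 * N * J) u.2 *
          ExN m q fun f => φ f u := by
        rw [Finset.mul_sum]
        refine Finset.sum_congr rfl fun u _ => ?_
        rw [e1 u]
        ring
    _ = (8 * (H : ℝ)) ^ (m + 1) * (8 * (N : ℝ)) ^ 6 * E3 m q φ := by
        rw [h2]
        unfold E3
        ring

/-- Proof. For fixed `u`: `box_le_cubeN` with `M = 1`; then `box_le_cube` with `δ = 1` for the function `u ↦ ∑_{f ∈ cubeN} WN φ f u` (nonnegative and periodic modulo `4NJ`: `φ f u` is periodic modulo `J`, and `J ∣ 4NJ`). -/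
theorem box_le_S3 {m H N J : ℕ} (hN : 0 < N) (hH : 0 < H) (hJ : 0 < J) (φ : Vn m → V × V → ℝ)
    (h0 : ∀ f u, 0 ≤ φ f u) (hφ : Per3 J φ) :
    ∑ u ∈ box2 N, ∑ f ∈ boxN m H, φ f u ≤ S3 m H N J φ := by
  have e1 : ∀ u : V × V, ∑ f ∈ boxN m H, φ f u ≤
      ∑ f ∈ cubeN m (4 * H * J), WN J (4 * H * J) f * φ f u := by
    intro u
    have h := box_le_cubeN (m := m) (H := H) (J := J) (M := 1) (r := 0) hH hJ (one_dvd J) (fun f => φ f u)
      (fun f => h0 f u) ((hφ.left u).mono (Dvd.intro_left (4 * H) rfl))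
    rw [KT2_filt, KT2_filt] at h
    exact h
  have h2 := box_le_cube (N := N) (J := J) (δ := 1) (r := 0) hN hJ (one_dvd J)
    (fun u => ∑ f ∈ cubeN m (4 * H * J), WN J (4 * H * J) f * φ f u)
    (fun u => Finset.sum_nonneg fun f _ => mul_nonneg (WN_nonneg _ _ _) (h0 f u))
    (by
      intro u u' h1 h2
      refine Finset.sum_congr rfl fun f _ => ?_
      rw [(hφ.mono (Dvd.intro_left (4 * N) rfl)) f f u u' (fun i => by rw [sub_self]; exact dvd_zero _) h1 h2])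
  rw [KT2_filt2, KT2_filt2] at h2
  rw [KT2_swap]
  exact (Finset.sum_le_sum fun u _ => e1 u).trans h2

/-- Proof. `box_le_S3` and `S3_eq` with `J = q`. -/
theorem box3_mean {m H N q : ℕ} (hN : 0 < N) (hH : N ≤ H) (hq : 0 < q) (hq4 : q ≤ 4 * N)
    (φ : Vn m → V × V → ℝ) (h0 : ∀ f u, 0 ≤ φ f u) (hφ : Per3 q φ) :
    ∑ u ∈ box2 N, ∑ f ∈ boxN m H, φ f u ≤ (8 * (H : ℝ)) ^ (m + 1) * (8 * (N : ℝ)) ^ 6 * E3 m q φ := by
  rw [← S3_eq hN hH hq hq dvd_rfl hq4 φ hφ]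
  exact box_le_S3 hN (lt_of_lt_of_le hN hH) hq φ h0 hφ

end FQQ
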