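import Pool.Agent.Lib.MP_10e784_agF.LG

/-! JOB LC -/

set_option autoImplicit false

open Classical

namespace FQQ

open Finset Polynomial FGO

private theorem LC_two {p : ℕ} [Fact p.Prime] (h2 : p ≠ 2) : (2 : ZMod p) ≠ 0 := by
  intro h
  have h1 : ((2 : ℕ) : ZMod p) = 0 := by exact_mod_cast h
  rw [ZMod.natCast_eq_zero_iff] at h1
  exact h2 ((Nat.prime_dvd_prime_iff_eq Fact.out Nat.prime_two).1 h1)

/-- a quadratic form with discriminant `0` represents only one square class.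
Proof. `v.1 ≠ 0`: `4 v.1 v(x,z) = (2 v.1 x + v.2.1 z)²`, so `v(x,z) v(x',z') (4 v.1)² = square²`; `v.1 = 0`: `v.2.1 = 0`, `v(x,z) = v.2.2 z²`. So the product of two values is a square. -/
theorem disc_sq {p : ℕ} [Fact p.Prime] (h2 : p ≠ 2) (v : ZMod p × ZMod p × ZMod p) (h : ds v = 0) (x z x' z' : ZMod p) :
    IsSquare (qv v x z * qv v x' z') := by
  have hd : v.2.1 ^ 2 = 4 * v.1 * v.2.2 := by
    unfold ds at h
    linear_combination h
  by_cases ha : v.1 = 0
  · rw [ha, mul_zero, zero_mul] at hd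
    have hb : v.2.1 = 0 := pow_eq_zero_iff (two_ne_zero) |>.1 hd
    refine ⟨v.2.2 * z * z', ?_⟩
    unfold qv
    rw [ha, hb]
    ring
  · have h20 : (2 : ZMod p) ≠ 0 := LC_two h2
    have h40 : (4 * v.1 : ZMod p) ≠ 0 := by
      have : (4 : ZMod p) = 2 * 2 := by norm_num
      rw [this]
      exact mul_ne_zero (mul_ne_zero h20 h20) ha
    have e : ∀ x z : ZMod p, 4 * v.1 * qv v x z = (2 * v.1 * x + v.2.1 * z) ^ 2 := by
      intro x z
      unfold qv
      linear_combination (-z ^ 2) * hd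
    refine ⟨(2 * v.1 * x + v.2.1 * z) * (2 * v.1 * x' + v.2.1 * z') / (4 * v.1), ?_⟩
    rw [div_mul_div_comm, eq_div_iff (mul_ne_zero h40 h40)]
    calc qv v x z * qv v x' z' * (4 * v.1 * (4 * v.1))
        = (4 * v.1 * qv v x z) * (4 * v.1 * qv v x' z') := by ring
      _ = _ := by rw [e, e]; ring

private theorem LC_core {p : ℕ} [Fact p.Prime] (h2 : p ≠ 2) {v : ZMod p × ZMod p × ZMod p} (h : ds v = 0)
    {c K s x z x' z' : ZMod p} (hc : ¬ IsSquare c) (hs : s ≠ 0) (h1 : Sq (K * qv v x z))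
    (h3 : Sq (s ^ 2 * K * (c * qv v x' z'))) : False := by
  obtain ⟨h10, a, ha⟩ := h1
  obtain ⟨h30, b, hb⟩ := h3
  obtain ⟨r, hr⟩ := disc_sq h2 v h x z x' z'
  have hK : K ≠ 0 := left_ne_zero_of_mul h10
  have hq : qv v x z ≠ 0 := right_ne_zero_of_mul h10
  have hq' : qv v x' z' ≠ 0 := right_ne_zero_of_mul (right_ne_zero_of_mul h30)
  have hr0 : r ≠ 0 := by
    intro h0
    rw [h0, mul_zero] at hr
    exact mul_ne_zero hq hq' hr
  apply hc
  refine ⟨a * b / (s * K * r), ?_⟩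
  have h0 : s * K * r ≠ 0 := mul_ne_zero (mul_ne_zero hs hK) hr0
  rw [div_mul_div_comm, eq_div_iff (mul_ne_zero h0 h0)]
  calc c * (s * K * r * (s * K * r)) = c * (s * K) ^ 2 * (r * r) := by ring
    _ = (K * qv v x z) * (s ^ 2 * K * (c * qv v x' z')) := by rw [← hr]; ring
    _ = a * b * (a * b) := by rw [ha, hb]; ring

private theorem LC_erase1 {F : Type} [CommRing F] (g : Fin 3 → F) :
    ∏ j ∈ univ.erase (1 : Fin 3), g j = g 0 * g 2 := by
  have h : (univ.erase (1 : Fin 3)) = {0, 2} := by decide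
  rw [h, Finset.prod_pair (by decide)]

private theorem LC_erase2 {F : Type} [CommRing F] (g : Fin 3 → F) :
    ∏ j ∈ univ.erase (2 : Fin 3), g j = g 0 * g 1 := by
  have h : (univ.erase (2 : Fin 3)) = {0, 1} := by decide
  rw [h, Finset.prod_pair (by decide)]

private theorem LC_K1 {p m : ℕ} [Fact p.Prime] (hme : Even m) (t : Fin 3 → Bool) (U : Fin 3 → ZMod p)
    {c : ZMod p} (hc : c ≠ 0) (f : Fin (m + 1) → ZMod p) (v w : ZMod p × ZMod p × ZMod p) :
    ∃ s : ZMod p, s ≠ 0 ∧ Kc t U f (c • v) w 1 = s ^ 2 * Kc t U f v w 1 := by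
  obtain ⟨k, hk⟩ := hme
  refine ⟨(if t 0 then c else 1) * (if t 2 then c ^ k else 1), ?_, ?_⟩
  · refine mul_ne_zero ?_ ?_
    · split_ifs
      · exact hc
      · exact one_ne_zero
    · split_ifs
      · exact pow_ne_zero _ hc
      · exact one_ne_zero
  · unfold Kc
    rw [LC_erase1, LC_erase1]
    have e0 : Rv f (c • v) w 0 = c ^ 2 * Rv f v w 0 := rs_cmul_left v w c
    have e2 : Rv f (c • v) w 2 = c ^ m * Rv f v w 2 := Rs_cmul_right f v c
    have ek : c ^ m = c ^ k * c ^ k := by rw [← pow_add, ← hk]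
    rw [e0, e2, ek]
    split_ifs <;> ring

private theorem LC_K2 {p m : ℕ} [Fact p.Prime] (hme : Even m) (t : Fin 3 → Bool) (U : Fin 3 → ZMod p)
    {c : ZMod p} (hc : c ≠ 0) (f : Fin (m + 1) → ZMod p) (v w : ZMod p × ZMod p × ZMod p) :
    ∃ s : ZMod p, s ≠ 0 ∧ Kc t U f v (c • w) 2 = s ^ 2 * Kc t U f v w 2 := by
  obtain ⟨k, hk⟩ := hme
  refine ⟨(if t 0 then c else 1) * (if t 1 then c ^ k else 1), ?_, ?_⟩
  · refine mul_ne_zero ?_ ?_
    · split_ifs
      · exact hc
      · exact one_ne_zero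
    · split_ifs
      · exact pow_ne_zero _ hc
      · exact one_ne_zero
  · unfold Kc
    rw [LC_erase2, LC_erase2]
    have e0 : Rv f v (c • w) 0 = c ^ 2 * Rv f v w 0 := rs_cmul_right v w c
    have e1 : Rv f v (c • w) 1 = c ^ m * Rv f v w 1 := Rs_cmul_right f w c
    have ek : c ^ m = c ^ k * c ^ k := by rw [← pow_add, ← hk]
    rw [e0, e1, ek]
    split_ifs <;> ring

private theorem LC_half {a b : ℝ} (h : a + a ≤ 1 / b) : a ≤ 1 / (2 * b) := by
  have e : 1 / (2 * b) = 1 / b / 2 := by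
    rw [div_div, mul_comm]
  rw [e]
  linarith

/-- Proof. `v' = c v`, `c` a nonsquare: `Kc .. 1` changes by a square (`Rv 0 = rs v w`, `Rv 2 = Rs f v`, `m` even), `qv (c v) = c * qv v`, `ds (c v) = c² ds v`. If `Ev (C 0)` holds for `v` (at `(x,z)`) and for `v'` (at `(x',z')`):
`Sq (K v(x,z))`, `Sq (c (square) K v(x',z'))`, and `v(x,z) v(x',z')` is a square (`disc_sq`), nonzero: contradiction. So `ind(v) + ind(v') ≤ ind (ds v = 0)`, `2 Av ≤ 1/p`. -/
theorem Av_C0 (m p : ℕ) [Fact p.Prime] (hme : Even m) (h2 : p ≠ 2) (t : Fin 3 → Bool) (U : Fin 3 → ZMod p) :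
    Av m p (fun f v w => ind (Ev t U f v w (Lab.C 0))) ≤ 1 / (2 * (p : ℝ)) := by
  obtain ⟨c, hc0, hc⟩ := exists_nonsq p h2
  have h1 : Av m p (fun f v w => ind (Ev t U f (c • v) w (Lab.C 0))) =
      Av m p (fun f v w => ind (Ev t U f v w (Lab.C 0))) :=
    mQ_scale p c hc0 (fun v => mQ p fun w => mF m p fun f => ind (Ev t U f v w (Lab.C 0)))
  have h3 : Av m p (fun f v w => ind (Ev t U f v w (Lab.C 0)) +
      ind (Ev t U f (c • v) w (Lab.C 0))) ≤ 1 / (p : ℝ) := by
    have h4 : Av m p (fun _ v _ => ind (ds v = 0)) = 1 / (p : ℝ) := by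
      have h5 : Av m p (fun _ v _ => ind (ds v = 0)) = mQ p (fun v => ind (ds v = 0)) := by
        unfold Av
        congr 1
        funext v
        simp only [mF_const, mQ_const]
      rw [h5, mQ_disc p h2]
    rw [← h4]
    refine Av_mono m p _ _ fun f v w => ?_
    by_cases hd : ds v = 0
    · have h5 : ¬ (Ev t U f v w (Lab.C 0) ∧ Ev t U f (c • v) w (Lab.C 0)) := by
        rintro ⟨⟨_, x, z, h6⟩, ⟨_, x', z', h7⟩⟩
        obtain ⟨s, hs, hK⟩ := LC_K1 hme t U hc0 f v w
        have h8 : Sq (Kc t U f v w 1 * qv v x z) := h6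
        have h9 : Sq (Kc t U f (c • v) w 1 * qv (c • v) x' z') := h7
        rw [hK, qv_cmul] at h9
        exact LC_core h2 hd hc hs h8 h9
      unfold ind
      rw [if_pos hd]
      by_cases h6 : Ev t U f v w (Lab.C 0)
      · rw [if_pos h6, if_neg fun h7 => h5 ⟨h6, h7⟩]
        norm_num
      · rw [if_neg h6]
        split_ifs <;> norm_num
    · have h5 : ¬ Ev t U f v w (Lab.C 0) := fun h => hd h.1
      have h6 : ¬ Ev t U f (c • v) w (Lab.C 0) := by
        intro h
        have h7 : ds (c • v) = 0 := h.1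
        rw [ds_cmul] at h7
        exact (mul_ne_zero (pow_ne_zero 2 hc0) hd) h7
      unfold ind
      rw [if_neg h5, if_neg h6, if_neg hd]
      norm_num
  rw [Av_add, h1] at h3
  exact LC_half h3

/-- Proof. The same with `w' = c w`. -/
theorem Av_C1 (m p : ℕ) [Fact p.Prime] (hme : Even m) (h2 : p ≠ 2) (t : Fin 3 → Bool) (U : Fin 3 → ZMod p) :
    Av m p (fun f v w => ind (Ev t U f v w (Lab.C 1))) ≤ 1 / (2 * (p : ℝ)) := by
  obtain ⟨c, hc0, hc⟩ := exists_nonsq p h2
  have h1 : Av m p (fun f v w => ind (Ev t U f v (c • w) (Lab.C 1))) =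
      Av m p (fun f v w => ind (Ev t U f v w (Lab.C 1))) := by
    unfold Av
    congr 1
    funext v
    exact mQ_scale p c hc0 (fun w => mF m p fun f => ind (Ev t U f v w (Lab.C 1)))
  have h3 : Av m p (fun f v w => ind (Ev t U f v w (Lab.C 1)) +
      ind (Ev t U f v (c • w) (Lab.C 1))) ≤ 1 / (p : ℝ) := by
    have h4 : Av m p (fun _ _ w => ind (ds w = 0)) = 1 / (p : ℝ) := by
      have h5 : Av m p (fun _ _ w => ind (ds w = 0)) = mQ p (fun _ => mQ p (fun w => ind (ds w = 0))) := by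
        unfold Av
        congr 1
        funext v
        congr 1
        funext w
        simp only [mF_const]
      rw [h5, mQ_const, mQ_disc p h2]
    rw [← h4]
    refine Av_mono m p _ _ fun f v w => ?_
    by_cases hd : ds w = 0
    · have h5 : ¬ (Ev t U f v w (Lab.C 1) ∧ Ev t U f v (c • w) (Lab.C 1)) := by
        rintro ⟨⟨_, x, z, h6⟩, ⟨_, x', z', h7⟩⟩
        obtain ⟨s, hs, hK⟩ := LC_K2 hme t U hc0 f v w
        have h8 : Sq (Kc t U f v w 2 * qv w x z) := h6
        have h9 : Sq (Kc t U f v (c • w) 2 * qv (c • w) x' z') := h7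
        rw [hK, qv_cmul] at h9
        exact LC_core h2 hd hc hs h8 h9
      unfold ind
      rw [if_pos hd]
      by_cases h6 : Ev t U f v w (Lab.C 1)
      · rw [if_pos h6, if_neg fun h7 => h5 ⟨h6, h7⟩]
        norm_num
      · rw [if_neg h6]
        split_ifs <;> norm_num
    · have h5 : ¬ Ev t U f v w (Lab.C 1) := fun h => hd h.1
      have h6 : ¬ Ev t U f v (c • w) (Lab.C 1) := by
        intro h
        have h7 : ds (c • w) = 0 := h.1
        rw [ds_cmul] at h7
        exact (mul_ne_zero (pow_ne_zero 2 hc0) hd) h7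
      unfold ind
      rw [if_neg h5, if_neg h6, if_neg hd]
      norm_num
  rw [Av_add, h1] at h3
  exact LC_half h3

end FQQ
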