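import Pool.Agent.Lib.MP_10e784_agF.Defs

/-! JOB LD -/

set_option autoImplicit false

open Classical

namespace FQQ

open Finset Polynomial FGO

/-- mean value over the forms with coefficients in `ZMod q` -/
noncomputable def mF (m q : ℕ) [NeZero q] (a : (Fin (m + 1) → ZMod q) → ℝ) : ℝ := (∑ f, a f) / (q : ℝ) ^ (m + 1)

/-- mean value over the quadratic forms with coefficients in `ZMod q` -/
noncomputable def mQ (q : ℕ) [NeZero q] (a : ZMod q × ZMod q × ZMod q → ℝ) : ℝ := (∑ v, a v) / (q : ℝ) ^ 3

/-- mean value over the triples `(f, v, w)` with coefficients in `ZMod q` -/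
noncomputable def Av (m q : ℕ) [NeZero q]
    (φ : (Fin (m + 1) → ZMod q) → ZMod q × ZMod q × ZMod q → ZMod q × ZMod q × ZMod q → ℝ) : ℝ :=
  mQ q fun v => mQ q fun w => mF m q fun f => φ f v w

/-- indicator -/
noncomputable def ind (P : Prop) : ℝ := if P then 1 else 0

/-- representatives of the points of the projective line -/
def pt {F : Type} [Field F] : Option F → F × F
  | none => (1, 0)
  | some r => (r, 1)

theorem ind_nonneg (P : Prop) : 0 ≤ ind P := by
  unfold ind
  split_ifs <;> norm_num

theorem ind_le_one (P : Prop) : ind P ≤ 1 := by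
  unfold ind
  split_ifs <;> norm_num

theorem ind_mono {P Q : Prop} (h : P → Q) : ind P ≤ ind Q := by
  unfold ind
  by_cases hP : P
  · rw [if_pos hP, if_pos (h hP)]
  · rw [if_neg hP]
    split_ifs <;> norm_num

end FQQ
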