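import Pool.Agent.Lib.MP_10e784_agF.LP2

/-! JOB LE -/

set_option autoImplicit false

open Classical

namespace FQQ

open Finset Polynomial FGO

/-- `P` is a common zero of the two forms with index `≠ i` -/
def Z0 {F : Type} [Field F] {m : ℕ} (f : Fin (m + 1) → F) (v w : F × F × F) (i : Fin 3) (P : Option F) : Prop :=
  ∀ j : Fin 3, j ≠ i → Fv f v w j (pt P).1 (pt P).2 = 0

private theorem LE_Fv_smul {F : Type} [Field F] {m : ℕ} (f : Fin (m + 1) → F) (v w : F × F × F) (j : Fin 3)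
    (c x z : F) : ∃ k : ℕ, Fv f v w j (c * x) (c * z) = c ^ k * Fv f v w j x z := by
  fin_cases j
  · exact ⟨m, hv_smul f c x z⟩
  · exact ⟨2, qv_smul v c x z⟩
  · exact ⟨2, qv_smul w c x z⟩

private theorem LE_ind_and (P Q : Prop) : ind (P ∧ Q) = ind P * ind Q := by
  unfold ind
  by_cases hP : P <;> by_cases hQ : Q <;> simp [hP, hQ]

private theorem LE_Z0_0 {F : Type} [Field F] {m : ℕ} (f : Fin (m + 1) → F) (v w : F × F × F) (P : Option F) :
    Z0 f v w 0 P ↔ qv v (pt P).1 (pt P).2 = 0 ∧ qv w (pt P).1 (pt P).2 = 0 := by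
  unfold Z0
  constructor
  · intro h
    exact ⟨h 1 (by decide), h 2 (by decide)⟩
  · rintro ⟨h1, h2⟩ j hj
    fin_cases j
    · exact absurd rfl hj
    · exact h1
    · exact h2

private theorem LE_Z0_1 {F : Type} [Field F] {m : ℕ} (f : Fin (m + 1) → F) (v w : F × F × F) (P : Option F) :
    Z0 f v w 1 P ↔ hv f (pt P).1 (pt P).2 = 0 ∧ qv w (pt P).1 (pt P).2 = 0 := by
  unfold Z0
  constructor
  · intro h
    exact ⟨h 0 (by decide), h 2 (by decide)⟩
  · rintro ⟨h1, h2⟩ j hj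
    fin_cases j
    · exact h1
    · exact absurd rfl hj
    · exact h2

private theorem LE_Z0_2 {F : Type} [Field F] {m : ℕ} (f : Fin (m + 1) → F) (v w : F × F × F) (P : Option F) :
    Z0 f v w 2 P ↔ hv f (pt P).1 (pt P).2 = 0 ∧ qv v (pt P).1 (pt P).2 = 0 := by
  unfold Z0
  constructor
  · intro h
    exact ⟨h 0 (by decide), h 1 (by decide)⟩
  · rintro ⟨h1, h2⟩ j hj
    fin_cases j
    · exact h1
    · exact h2
    · exact absurd rfl hj

private theorem LE_S1 {α : Type} [Fintype α] (T : α → Prop) :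
    ∑ P : α, ind (T P) = ((univ.filter T).card : ℝ) := by
  unfold ind
  rw [sum_boole]

private theorem LE_S2 {α : Type} [Fintype α] (T : α → Prop) :
    ∑ q ∈ (univ : Finset α).offDiag, ind (T q.1 ∧ T q.2) =
      ((univ.filter T).card : ℝ) ^ 2 - (univ.filter T).card := by
  have h1 : ∑ q ∈ (univ : Finset α).offDiag, ind (T q.1 ∧ T q.2) = (((univ.filter T).offDiag).card : ℝ) := by
    have h2 : ∀ q : α × α, ind (T q.1 ∧ T q.2) = if T q.1 ∧ T q.2 then (1 : ℝ) else 0 := by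
      intro q
      unfold ind
      by_cases h : T q.1 ∧ T q.2
      · rw [if_pos h, if_pos h]
      · rw [if_neg h, if_neg h]
    rw [sum_congr rfl (fun q _ => h2 q), sum_boole]
    refine congrArg _ (congrArg Finset.card ?_)
    ext q
    simp only [mem_filter, mem_offDiag, mem_univ, true_and]
    tauto
  rw [h1, offDiag_card, Nat.cast_sub (Nat.le_mul_self _)]
  push_cast
  ring

private theorem LE_up {α : Type} [Fintype α] (T : α → Prop) :
    ind (∃ P, T P) ≤ ∑ P : α, ind (T P) := by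
  by_cases h : ∃ P, T P
  · obtain ⟨P, hP⟩ := h
    have h1 : ind (∃ P, T P) = 1 := by
      unfold ind
      rw [if_pos ⟨P, hP⟩]
    have h2 : ind (T P) = 1 := by
      unfold ind
      rw [if_pos hP]
    rw [h1, ← h2]
    exact single_le_sum (f := fun P => ind (T P)) (fun Q _ => ind_nonneg (T Q)) (mem_univ P)
  · have h1 : ind (∃ P, T P) = 0 := by
      unfold ind
      rw [if_neg h]
    rw [h1]
    exact sum_nonneg fun P _ => ind_nonneg (T P)

private theorem LE_low {α : Type} [Fintype α] (T : α → Prop) :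
    ∑ P : α, ind (T P) + -(1 / 2) * ∑ q ∈ (univ : Finset α).offDiag, ind (T q.1 ∧ T q.2) ≤ ind (∃ P, T P) := by
  rw [LE_S1, LE_S2]
  by_cases h : ∃ P, T P
  · have h1 : ind (∃ P, T P) = 1 := by
      unfold ind
      rw [if_pos h]
    rw [h1]
    obtain ⟨P, hP⟩ := h
    have h2 : 0 < (univ.filter T).card := card_pos.mpr ⟨P, by simp [hP]⟩
    obtain ⟨k, hk⟩ : ∃ k : ℕ, (univ.filter T).card = k + 1 := ⟨(univ.filter T).card - 1, by omega⟩
    rw [hk]
    push_cast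
    have h3 : (0 : ℝ) ≤ (k : ℝ) * ((k : ℝ) - 1) := by
      rcases Nat.eq_zero_or_pos k with h4 | h4
      · rw [h4]
        simp
      · have h5 : (1 : ℝ) ≤ k := by exact_mod_cast h4
        exact mul_nonneg (by linarith) (by linarith)
    nlinarith
  · have h1 : ind (∃ P, T P) = 0 := by
      unfold ind
      rw [if_neg h]
    have h2 : (univ.filter T) = ∅ := by
      rw [filter_eq_empty_iff]
      intro P _ hP
      exact h ⟨P, hP⟩
    rw [h1, h2]
    simp

private theorem LE_two {α : Type} [Fintype α] (T : α → Prop) :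
    ind (∃ P P', P ≠ P' ∧ T P ∧ T P') ≤ (1 / 2) * ∑ q ∈ (univ : Finset α).offDiag, ind (T q.1 ∧ T q.2) := by
  by_cases h : ∃ P P', P ≠ P' ∧ T P ∧ T P'
  · have h1 : ind (∃ P P', P ≠ P' ∧ T P ∧ T P') = 1 := by
      unfold ind
      rw [if_pos h]
    rw [h1, LE_S2]
    obtain ⟨P, P', hPP, hP, hP'⟩ := h
    have h2 : 1 < (univ.filter T).card := by
      rw [one_lt_card]
      exact ⟨P, by simp [hP], P', by simp [hP'], hPP⟩
    have h3 : (2 : ℝ) ≤ (univ.filter T).card := by exact_mod_cast h2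
    nlinarith
  · have h1 : ind (∃ P P', P ≠ P' ∧ T P ∧ T P') = 0 := by
      unfold ind
      rw [if_neg h]
    rw [h1]
    exact mul_nonneg (by norm_num) (sum_nonneg fun q _ => ind_nonneg _)

private theorem LE_card (p : ℕ) [Fact p.Prime] : (univ : Finset (Option (ZMod p))).card = p + 1 := by
  rw [card_univ, Fintype.card_option, ZMod.card]

private theorem LE_pos (p : ℕ) [Fact p.Prime] : (1 : ℝ) ≤ (p : ℝ) := by
  have h : 1 ≤ p := (Fact.out : p.Prime).one_lt.le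
  exact_mod_cast h

/-- Proof. `pt_cover`, homogeneity (`hv_smul`, `qv_smul`). -/
theorem E_iff {F : Type} [Field F] {m : ℕ} (f : Fin (m + 1) → F) (v w : F × F × F) (i : Fin 3) :
    E f v w i ↔ ∃ P, Z0 f v w i P := by
  constructor
  · rintro ⟨x, z, h, h1⟩
    obtain ⟨P, c, hc, hx, hz⟩ := pt_cover x z h
    refine ⟨P, fun j hj => ?_⟩
    have h2 := h1 j hj
    rw [hx, hz] at h2
    obtain ⟨k, hk⟩ := LE_Fv_smul f v w j c (pt P).1 (pt P).2
    rw [hk] at h2
    exact (mul_eq_zero.mp h2).resolve_left (pow_ne_zero k hc)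
  · rintro ⟨P, h⟩
    exact ⟨(pt P).1, (pt P).2, pt_ne P, h⟩

private theorem LE_prod0 (m p : ℕ) [Fact p.Prime] (b c : ZMod p × ZMod p × ZMod p → ℝ) :
    Av m p (fun _ v w => b v * c w) = mQ p b * mQ p c := by
  have h := Av_prod m p (fun _ => 1) b c
  rw [mF_const] at h
  simp only [one_mul] at h
  exact h

private theorem LE_prod1 (m p : ℕ) [Fact p.Prime] (a : (Fin (m + 1) → ZMod p) → ℝ)
    (c : ZMod p × ZMod p × ZMod p → ℝ) :
    Av m p (fun f _ w => a f * c w) = mF m p a * mQ p c := by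
  have h := Av_prod m p a (fun _ => 1) c
  rw [mQ_const] at h
  simp only [mul_one] at h
  exact h

private theorem LE_prod2 (m p : ℕ) [Fact p.Prime] (a : (Fin (m + 1) → ZMod p) → ℝ)
    (b : ZMod p × ZMod p × ZMod p → ℝ) :
    Av m p (fun f v _ => a f * b v) = mF m p a * mQ p b := by
  have h := Av_prod m p a b (fun _ => 1)
  rw [mQ_const] at h
  simp only [mul_one] at h
  exact h

/-- Proof. Two of the three forms vanish at `P`, independent (`Av_prod`, `mF_root`, `mQ_root`; `fin_cases i`). -/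
theorem Av_Z0 (m p : ℕ) [Fact p.Prime] (i : Fin 3) (P : Option (ZMod p)) :
    Av m p (fun f v w => ind (Z0 f v w i P)) = 1 / (p : ℝ) ^ 2 := by
  have hpt := pt_ne P
  fin_cases i
  · show Av m p (fun f v w => ind (Z0 f v w 0 P)) = 1 / (p : ℝ) ^ 2
    simp only [LE_Z0_0, LE_ind_and]
    rw [LE_prod0, mQ_root p _ _ hpt]
    ring
  · show Av m p (fun f v w => ind (Z0 f v w 1 P)) = 1 / (p : ℝ) ^ 2
    simp only [LE_Z0_1, LE_ind_and]
    rw [LE_prod1 m p (fun f => ind (hv f (pt P).1 (pt P).2 = 0)), mQ_root p _ _ hpt, mF_root m p _ _ hpt]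
    ring
  · show Av m p (fun f v w => ind (Z0 f v w 2 P)) = 1 / (p : ℝ) ^ 2
    simp only [LE_Z0_2, LE_ind_and]
    rw [LE_prod2 m p (fun f => ind (hv f (pt P).1 (pt P).2 = 0)), mQ_root p _ _ hpt, mF_root m p _ _ hpt]
    ring

/-- Proof. For `P ≠ P'`: `mF_root2`, `mQ_root2`. -/
theorem Av_Z02 (m p : ℕ) [Fact p.Prime] (hm : 1 ≤ m) (i : Fin 3) (P P' : Option (ZMod p)) (h : P ≠ P') :
    Av m p (fun f v w => ind (Z0 f v w i P ∧ Z0 f v w i P')) = 1 / (p : ℝ) ^ 4 := by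
  have hF := mF_root2 m p hm P P' h
  have hQ := mQ_root2 p P P' h
  fin_cases i
  · show Av m p (fun f v w => ind (Z0 f v w 0 P ∧ Z0 f v w 0 P')) = 1 / (p : ℝ) ^ 4
    have h1 : (fun (f : Fin (m + 1) → ZMod p) (v w : ZMod p × ZMod p × ZMod p) =>
        ind (Z0 f v w 0 P ∧ Z0 f v w 0 P')) = fun _ v w =>
        ind (qv v (pt P).1 (pt P).2 = 0 ∧ qv v (pt P').1 (pt P').2 = 0) *
        ind (qv w (pt P).1 (pt P).2 = 0 ∧ qv w (pt P').1 (pt P').2 = 0) := by
      funext f v w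
      rw [← LE_ind_and, LE_Z0_0, LE_Z0_0]
      congr 1
      exact propext (by tauto)
    rw [h1, LE_prod0, hQ]
    ring
  · show Av m p (fun f v w => ind (Z0 f v w 1 P ∧ Z0 f v w 1 P')) = 1 / (p : ℝ) ^ 4
    have h1 : (fun (f : Fin (m + 1) → ZMod p) (v w : ZMod p × ZMod p × ZMod p) =>
        ind (Z0 f v w 1 P ∧ Z0 f v w 1 P')) = fun f _ w =>
        ind (hv f (pt P).1 (pt P).2 = 0 ∧ hv f (pt P').1 (pt P').2 = 0) *
        ind (qv w (pt P).1 (pt P).2 = 0 ∧ qv w (pt P').1 (pt P').2 = 0) := by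
      funext f v w
      rw [← LE_ind_and, LE_Z0_1, LE_Z0_1]
      congr 1
      exact propext (by tauto)
    rw [h1, LE_prod1 m p (fun f => ind (hv f (pt P).1 (pt P).2 = 0 ∧ hv f (pt P').1 (pt P').2 = 0)), hQ, hF]
    ring
  · show Av m p (fun f v w => ind (Z0 f v w 2 P ∧ Z0 f v w 2 P')) = 1 / (p : ℝ) ^ 4
    have h1 : (fun (f : Fin (m + 1) → ZMod p) (v w : ZMod p × ZMod p × ZMod p) =>
        ind (Z0 f v w 2 P ∧ Z0 f v w 2 P')) = fun f v _ =>
        ind (hv f (pt P).1 (pt P).2 = 0 ∧ hv f (pt P').1 (pt P').2 = 0) *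
        ind (qv v (pt P).1 (pt P).2 = 0 ∧ qv v (pt P').1 (pt P').2 = 0) := by
      funext f v w
      rw [← LE_ind_and, LE_Z0_2, LE_Z0_2]
      congr 1
      exact propext (by tauto)
    rw [h1, LE_prod2 m p (fun f => ind (hv f (pt P).1 (pt P).2 = 0 ∧ hv f (pt P').1 (pt P').2 = 0)), hQ, hF]
    ring

private theorem LE_sum1 (m p : ℕ) [Fact p.Prime] (i : Fin 3) :
    Av m p (fun f v w => ∑ P : Option (ZMod p), ind (Z0 f v w i P)) = ((p : ℝ) + 1) / (p : ℝ) ^ 2 := by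
  rw [Av_sum m p univ (fun P f v w => ind (Z0 f v w i P)), sum_congr rfl (fun P _ => Av_Z0 m p i P), sum_const,
    LE_card, nsmul_eq_mul]
  push_cast
  ring

private theorem LE_sum2 (m p : ℕ) [Fact p.Prime] (hm : 1 ≤ m) (i : Fin 3) :
    Av m p (fun f v w => ∑ q ∈ (univ : Finset (Option (ZMod p))).offDiag,
      ind (Z0 f v w i q.1 ∧ Z0 f v w i q.2)) = ((p : ℝ) + 1) * p / (p : ℝ) ^ 4 := by
  rw [Av_sum m p (univ : Finset (Option (ZMod p))).offDiag
    (fun q f v w => ind (Z0 f v w i q.1 ∧ Z0 f v w i q.2)),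
    sum_congr rfl (fun q hq => Av_Z02 m p hm i q.1 q.2 (mem_offDiag.mp hq).2.2), sum_const,
    offDiag_card, LE_card, nsmul_eq_mul, Nat.cast_sub (Nat.le_mul_self _)]
  push_cast
  ring

/-- Proof. Union bound: `ind (E i) ≤ ∑_P ind (Z0 i P)`, `(p + 1)/p²`. -/
theorem Av_E_le (m p : ℕ) [Fact p.Prime] (i : Fin 3) :
    Av m p (fun f v w => ind (E f v w i)) ≤ 1 / (p : ℝ) + 1 / (p : ℝ) ^ 2 := by
  have hp := LE_pos p
  have h1 : Av m p (fun f v w => ind (E f v w i)) ≤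
      Av m p (fun f v w => ∑ P : Option (ZMod p), ind (Z0 f v w i P)) := by
    refine Av_mono m p _ _ fun f v w => ?_
    rw [E_iff]
    exact LE_up (fun P => Z0 f v w i P)
  rw [LE_sum1] at h1
  refine h1.trans (le_of_eq ?_)
  have hp0 : (p : ℝ) ≠ 0 := by linarith
  field_simp

/-- Proof. With `n = #{P : Z0 i P}`: `ind (E i) ≥ n - (n² - n)/2` (natural numbers `n`), i.e. `ind (E i) ≥ ∑_P ind (Z0 P) - (1/2) ∑_{P ≠ P'} ind (Z0 P ∧ Z0 P')`. Mean value `≥ (p+1)/p² - (p+1)p/(2p⁴) ≥ 1/p` as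
`1/p² ≥ (p+1)/(2p³)`. -/
theorem le_Av_E (m p : ℕ) [Fact p.Prime] (hm : 1 ≤ m) (i : Fin 3) :
    1 / (p : ℝ) ≤ Av m p (fun f v w => ind (E f v w i)) := by
  have hp := LE_pos p
  have h1 : Av m p (fun f v w => ∑ P : Option (ZMod p), ind (Z0 f v w i P) +
      -(1 / 2) * ∑ q ∈ (univ : Finset (Option (ZMod p))).offDiag,
        ind (Z0 f v w i q.1 ∧ Z0 f v w i q.2)) ≤ Av m p (fun f v w => ind (E f v w i)) := by
    refine Av_mono m p _ _ fun f v w => ?_
    rw [E_iff]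
    exact LE_low (fun P => Z0 f v w i P)
  rw [Av_add m p (fun f v w => ∑ P : Option (ZMod p), ind (Z0 f v w i P))
    (fun f v w => -(1 / 2) * ∑ q ∈ (univ : Finset (Option (ZMod p))).offDiag,
        ind (Z0 f v w i q.1 ∧ Z0 f v w i q.2)),
    Av_smul m p (-(1 / 2)) (fun f v w => ∑ q ∈ (univ : Finset (Option (ZMod p))).offDiag,
        ind (Z0 f v w i q.1 ∧ Z0 f v w i q.2)), LE_sum1, LE_sum2 m p hm] at h1
  refine le_trans ?_ h1
  have hp0 : (0 : ℝ) < (p : ℝ) := by linarith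
  have h2 : ((p : ℝ) + 1) / (p : ℝ) ^ 2 + -(1 / 2) * (((p : ℝ) + 1) * p / (p : ℝ) ^ 4) - 1 / (p : ℝ) =
      ((p : ℝ) - 1) / (2 * (p : ℝ) ^ 3) := by
    field_simp
    ring
  have h3 : 0 ≤ ((p : ℝ) - 1) / (2 * (p : ℝ) ^ 3) := div_nonneg (by linarith) (by positivity)
  linarith

/-- two different common zeros.
Proof. Union bound over the unordered pairs: `(1/2)(p+1) p / p⁴ ≤ 1/p²` (or over the ordered pairs: `(p+1)p/p⁴ ≤ 2/p²`; so use `ind ≤ (1/2) ∑_{P ≠ P'}`, which is true as each unordered pair is counted twice). -/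
theorem Av_two_le (m p : ℕ) [Fact p.Prime] (hm : 1 ≤ m) (i : Fin 3) :
    Av m p (fun f v w => ind (∃ P P', P ≠ P' ∧ Z0 f v w i P ∧ Z0 f v w i P')) ≤ 1 / (p : ℝ) ^ 2 := by
  have hp := LE_pos p
  have h1 : Av m p (fun f v w => ind (∃ P P', P ≠ P' ∧ Z0 f v w i P ∧ Z0 f v w i P')) ≤
      Av m p (fun f v w => (1 / 2) * ∑ q ∈ (univ : Finset (Option (ZMod p))).offDiag,
        ind (Z0 f v w i q.1 ∧ Z0 f v w i q.2)) := by
    refine Av_mono m p _ _ fun f v w => ?_
    exact LE_two (fun P => Z0 f v w i P)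
  rw [Av_smul m p (1 / 2) (fun f v w => ∑ q ∈ (univ : Finset (Option (ZMod p))).offDiag,
        ind (Z0 f v w i q.1 ∧ Z0 f v w i q.2)), LE_sum2 m p hm] at h1
  refine h1.trans ?_
  have hp0 : (0 : ℝ) < (p : ℝ) := by linarith
  have h2 : 1 / (p : ℝ) ^ 2 - 1 / 2 * (((p : ℝ) + 1) * p / (p : ℝ) ^ 4) =
      ((p : ℝ) - 1) / (2 * (p : ℝ) ^ 3) := by
    field_simp
    ring
  have h3 : 0 ≤ ((p : ℝ) - 1) / (2 * (p : ℝ) ^ 3) := div_nonneg (by linarith) (by positivity)
  linarith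

end FQQ
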