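import Pool.Agent.Lib.MP_10e784_agF.LE

/-! JOB LG -/

set_option autoImplicit false

open Classical

namespace FQQ

open Finset Polynomial FGO

/-- scaling one of the forms by `c ≠ 0` does not change mean values -/
theorem mF_scale (m p : ℕ) [Fact p.Prime] (c : ZMod p) (hc : c ≠ 0) (a : (Fin (m + 1) → ZMod p) → ℝ) :
    mF m p (fun f => a (fun i => c * f i)) = mF m p a := by
  unfold mF
  congr 1
  exact Equiv.sum_comp (Equiv.piCongrRight fun _ : Fin (m + 1) => Equiv.mulLeft₀ c hc) a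

theorem mQ_scale (p : ℕ) [Fact p.Prime] (c : ZMod p) (hc : c ≠ 0) (a : ZMod p × ZMod p × ZMod p → ℝ) :
    mQ p (fun v => a (c • v)) = mQ p a := by
  unfold mQ
  congr 1
  let e : (ZMod p × ZMod p × ZMod p) ≃ (ZMod p × ZMod p × ZMod p) :=
    { toFun := fun v => c • v
      invFun := fun v => c⁻¹ • v
      left_inv := fun v => by
        show c⁻¹ • c • v = v
        rw [smul_smul, inv_mul_cancel₀ hc, one_smul]
      right_inv := fun v => by
        show c • c⁻¹ • v = v
        rw [smul_smul, mul_inv_cancel₀ hc, one_smul] }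
  exact Equiv.sum_comp e a

/-- Proof. `p ≠ 2`: half of the units are nonsquares (`FiniteField.exists_nonsquare`). -/
theorem exists_nonsq (p : ℕ) [Fact p.Prime] (h2 : p ≠ 2) : ∃ c : ZMod p, c ≠ 0 ∧ ¬ IsSquare c := by
  have hr : ringChar (ZMod p) ≠ 2 := by
    rw [ZMod.ringChar_zmod_n]
    exact h2
  obtain ⟨c, hc⟩ := FiniteField.exists_nonsquare hr
  refine ⟨c, ?_, hc⟩
  rintro rfl
  exact hc ⟨0, by rw [mul_zero]⟩

/-- Proof. In a finite field the product of a nonzero square and a nonsquare is a nonsquare. -/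
theorem not_sq_mul {p : ℕ} [Fact p.Prime] {a c : ZMod p} (ha : Sq a) (hc : ¬ IsSquare c) : ¬ Sq (c * a) := by
  intro h
  apply hc
  have h1 := h.2.div ha.2
  rwa [mul_div_cancel_right₀ _ ha.1] at h1

/-- Homogeneity: the degrees are even. -/
private theorem LG_hom {p : ℕ} [Fact p.Prime] {m : ℕ} (hme : Even m) (f : Fin (m + 1) → ZMod p)
    (v w : ZMod p × ZMod p × ZMod p) (j : Fin 3) (c : ZMod p) (hc : c ≠ 0) :
    ∃ s : ZMod p, s ≠ 0 ∧ ∀ x z, Fv f v w j (c * x) (c * z) = s ^ 2 * Fv f v w j x z := by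
  obtain ⟨k, hk⟩ := hme
  match j with
  | 0 =>
    refine ⟨c ^ k, pow_ne_zero k hc, fun x z => ?_⟩
    show hv f (c * x) (c * z) = (c ^ k) ^ 2 * hv f x z
    have h : c ^ m = (c ^ k) ^ 2 := by rw [← pow_mul, mul_two, ← hk]
    rw [hv_smul, h]
  | 1 =>
    refine ⟨c, hc, fun x z => ?_⟩
    show qv v (c * x) (c * z) = c ^ 2 * qv v x z
    exact qv_smul v c x z
  | 2 =>
    refine ⟨c, hc, fun x z => ?_⟩
    show qv w (c * x) (c * z) = c ^ 2 * qv w x z
    exact qv_smul w c x z

private theorem LG_Kc {p : ℕ} [Fact p.Prime] {m : ℕ} (f f' : Fin (m + 1) → ZMod p)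
    (v w v' w' : ZMod p × ZMod p × ZMod p) (t : Fin 3 → Bool) (U : Fin 3 → ZMod p) (i : Fin 3)
    (h : ∀ j, j ≠ i → ∃ s : ZMod p, s ≠ 0 ∧ Rv f' v' w' j = s ^ 2 * Rv f v w j) :
    ∃ e : ZMod p, e ≠ 0 ∧ Kc t U f' v' w' i = e ^ 2 * Kc t U f v w i := by
  choose! s hs using h
  refine ⟨∏ j ∈ univ.erase i, if t j then s j else 1, ?_, ?_⟩
  · refine Finset.prod_ne_zero_iff.2 fun j hj => ?_
    split_ifs
    · exact (hs j (Finset.ne_of_mem_erase hj)).1
    · exact one_ne_zero
  · unfold Kc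
    have h1 : (∏ j ∈ univ.erase i, if t j then Rv f' v' w' j else 1) =
        (∏ j ∈ univ.erase i, if t j then s j else 1) ^ 2 *
          ∏ j ∈ univ.erase i, if t j then Rv f v w j else 1 := by
      rw [← Finset.prod_pow, ← Finset.prod_mul_distrib]
      refine Finset.prod_congr rfl fun j hj => ?_
      split_ifs
      · exact (hs j (Finset.ne_of_mem_erase hj)).2
      · ring
    rw [h1]
    ring

/-- If the form number `i` is multiplied by a nonsquare, both events `B i` can hold only if there are two different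
common zeros of the two other forms. -/
private theorem LG_point {p : ℕ} [Fact p.Prime] {m : ℕ} (hme : Even m) (i : Fin 3)
    (f f' : Fin (m + 1) → ZMod p) (v w v' w' : ZMod p × ZMod p × ZMod p) (t : Fin 3 → Bool)
    (U : Fin 3 → ZMod p) (c e : ZMod p) (hc : ¬ IsSquare c) (he : e ≠ 0)
    (h1 : ∀ j, j ≠ i → ∀ x z, Fv f' v' w' j x z = Fv f v w j x z)
    (h2 : ∀ x z, Fv f' v' w' i x z = c * Fv f v w i x z)
    (h3 : Kc t U f' v' w' i = e ^ 2 * Kc t U f v w i) :
    ind (Ev t U f v w (Lab.B i)) + ind (Ev t U f' v' w' (Lab.B i)) ≤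
      ind (E f v w i) + ind (∃ P P', P ≠ P' ∧ Z0 f v w i P ∧ Z0 f v w i P') := by
  have hA : Ev t U f v w (Lab.B i) → E f v w i := by
    rintro ⟨x, z, hxz, hj, -⟩
    exact ⟨x, z, hxz, hj⟩
  have hB : Ev t U f' v' w' (Lab.B i) → E f v w i := by
    rintro ⟨x, z, hxz, hj, -⟩
    exact ⟨x, z, hxz, fun j hji => by rw [← h1 j hji]; exact hj j hji⟩
  by_cases a : Ev t U f v w (Lab.B i)
  · by_cases b : Ev t U f' v' w' (Lab.B i)
    · have hE := hA a
      have hZ : ∃ P P', P ≠ P' ∧ Z0 f v w i P ∧ Z0 f v w i P' := by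
        obtain ⟨x, z, hxz, hj, hS⟩ := a
        obtain ⟨x', z', hxz', hj', hS'⟩ := b
        obtain ⟨P, u, hu, hx, hz⟩ := pt_cover x z hxz
        obtain ⟨P', u', hu', hx', hz'⟩ := pt_cover x' z' hxz'
        have hZP : ∀ j, j ≠ i → Fv f v w j (pt P).1 (pt P).2 = 0 := by
          intro j hji
          obtain ⟨s, hs, hs2⟩ := LG_hom hme f v w j u hu
          have h4 := hj j hji
          rw [hx, hz, hs2] at h4
          exact (mul_eq_zero.1 h4).resolve_left (pow_ne_zero 2 hs)
        have hZP' : ∀ j, j ≠ i → Fv f v w j (pt P').1 (pt P').2 = 0 := by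
          intro j hji
          obtain ⟨s, hs, hs2⟩ := LG_hom hme f v w j u' hu'
          have h4 := hj' j hji
          rw [h1 j hji, hx', hz', hs2] at h4
          exact (mul_eq_zero.1 h4).resolve_left (pow_ne_zero 2 hs)
        refine ⟨P, P', ?_, hZP, hZP'⟩
        intro hPP
        rw [← hPP] at hx' hz'
        obtain ⟨s, hs, hs2⟩ := LG_hom hme f v w i u hu
        obtain ⟨s', hs', hs2'⟩ := LG_hom hme f v w i u' hu'
        rw [hx, hz, hs2] at hS
        rw [h2, h3, hx', hz', hs2'] at hS'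
        generalize Kc t U f v w i = K at hS hS'
        generalize Fv f v w i (pt P).1 (pt P).2 = y at hS hS'
        have hKy : Sq (K * y) := by
          refine ⟨?_, ?_⟩
          · intro h0
            apply hS.1
            calc K * (s ^ 2 * y) = s ^ 2 * (K * y) := by ring
              _ = 0 := by rw [h0, mul_zero]
          · have h4 : K * y = (K * (s ^ 2 * y)) / (s * s) := by
              field_simp
            rw [h4]
            exact hS.2.div ⟨s, rfl⟩
        refine not_sq_mul hKy hc ⟨?_, ?_⟩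
        · intro h0
          apply hS'.1
          calc e ^ 2 * K * (c * (s' ^ 2 * y)) = e ^ 2 * s' ^ 2 * (c * (K * y)) := by ring
            _ = 0 := by rw [h0, mul_zero]
        · have h4 : c * (K * y) = (e ^ 2 * K * (c * (s' ^ 2 * y))) / ((e * s') * (e * s')) := by
            field_simp
          rw [h4]
          exact hS'.2.div ⟨e * s', rfl⟩
      have e1 := ind_le_one (Ev t U f v w (Lab.B i))
      have e2 := ind_le_one (Ev t U f' v' w' (Lab.B i))
      have e3 : ind (E f v w i) = 1 := if_pos hE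
      have e4 : ind (∃ P P', P ≠ P' ∧ Z0 f v w i P ∧ Z0 f v w i P') = 1 := if_pos hZ
      rw [e3, e4]
      linarith
    · have e1 := ind_mono hA
      have e2 : ind (Ev t U f' v' w' (Lab.B i)) = 0 := if_neg b
      have e3 := ind_nonneg (∃ P P', P ≠ P' ∧ Z0 f v w i P ∧ Z0 f v w i P')
      linarith
  · have e1 := ind_mono hB
    have e2 : ind (Ev t U f v w (Lab.B i)) = 0 := if_neg a
    have e3 := ind_nonneg (∃ P P', P ≠ P' ∧ Z0 f v w i P ∧ Z0 f v w i P')
    linarith

private theorem LG_fin (m p : ℕ) [Fact p.Prime] (hm : 1 ≤ m) (i : Fin 3)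
    (a b : (Fin (m + 1) → ZMod p) → ZMod p × ZMod p × ZMod p → ZMod p × ZMod p × ZMod p → ℝ)
    (hab : Av m p b = Av m p a)
    (h : ∀ f v w, a f v w + b f v w ≤
      ind (E f v w i) + ind (∃ P P', P ≠ P' ∧ Z0 f v w i P ∧ Z0 f v w i P')) :
    Av m p a ≤ (1 / (p : ℝ) + 3 / (p : ℝ) ^ 2) / 2 := by
  have h1 := Av_mono m p _ _ h
  rw [Av_add, Av_add, hab] at h1
  have h2 := Av_E_le m p i
  have h3 := Av_two_le m p hm i
  have h4 : 3 / (p : ℝ) ^ 2 = 1 / (p : ℝ) ^ 2 + 1 / (p : ℝ) ^ 2 + 1 / (p : ℝ) ^ 2 := by ring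
  have h5 : 0 ≤ 1 / (p : ℝ) ^ 2 := by positivity
  rw [h4]
  linarith

/-- (the condition at a common zero of `v, w`) Proof. `T f` for `ind (Ev t U f v w (Lab.B 0))`. Take `c` nonsquare and `f' = c f`: `Kc t U f' v w 0 = (square) Kc t U f v w 0` since `Rs (c f) _ = c² Rs f _` (`Rs_cmul_left`; the
indices `j ≠ 0` are `1, 2`: `Rv 1 = Rs f w`, `Rv 2 = Rs f v`), and `Fv 0 = hv f' x z = c * hv f x z`. If both `Ev B 0` for `f` and for `f'` hold, at the points `P`, `P'` (`pt_cover`; the degrees `m`, `2` are even, so a scalar multiple of the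
point changes the value by a square), and `P = P'`, then `Sq (K * y)` and `Sq (c * square * K * y)`: contradiction. So `P ≠ P'` and there are two different common zeros. Hence
`ind(f) + ind(f') ≤ ind (E 0) + ind (two common zeros)`. The mean values of `ind(f)` and `ind(f')` are equal (`mF_scale`). So `2 Av ≤ 1/p + 1/p² + 1/p²`. -/
theorem Av_B0 (m p : ℕ) [Fact p.Prime] (hm : 1 ≤ m) (hme : Even m) (h2 : p ≠ 2) (t : Fin 3 → Bool)
    (U : Fin 3 → ZMod p) :
    Av m p (fun f v w => ind (Ev t U f v w (Lab.B 0))) ≤ (1 / (p : ℝ) + 3 / (p : ℝ) ^ 2) / 2 := by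
  obtain ⟨c, hc0, hc⟩ := exists_nonsq p h2
  refine LG_fin m p hm 0 _ (fun f v w => ind (Ev t U (fun i => c * f i) v w (Lab.B 0))) ?_ ?_
  · unfold Av
    refine congrArg (mQ p) (funext fun v => congrArg (mQ p) (funext fun w => ?_))
    exact mF_scale m p c hc0 fun f => ind (Ev t U f v w (Lab.B 0))
  · intro f v w
    obtain ⟨e, he, he2⟩ := LG_Kc f (fun i => c * f i) v w v w t U 0 (by
      intro j hj
      match j with
      | 0 => exact absurd rfl hj
      | 1 => exact ⟨c, hc0, Rs_cmul_left f w c⟩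
      | 2 => exact ⟨c, hc0, Rs_cmul_left f v c⟩)
    refine LG_point hme 0 f (fun i => c * f i) v w v w t U c e hc he ?_ ?_ he2
    · intro j hj x z
      match j with
      | 0 => exact absurd rfl hj
      | 1 => rfl
      | 2 => rfl
    · intro x z
      exact hv_cmul f c x z

/-- Proof. The same with `v' = c v` (`mQ_scale`; the sum over `v` is the outer one, so exchange or scale inside): `Kc .. 1` contains `Rv 0 = rs v w` (`c² rs`) and `Rv 2 = Rs f v` (`c^m Rs`, `m` even), `Fv 1 = qv v`. -/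
theorem Av_B1 (m p : ℕ) [Fact p.Prime] (hm : 1 ≤ m) (hme : Even m) (h2 : p ≠ 2) (t : Fin 3 → Bool)
    (U : Fin 3 → ZMod p) :
    Av m p (fun f v w => ind (Ev t U f v w (Lab.B 1))) ≤ (1 / (p : ℝ) + 3 / (p : ℝ) ^ 2) / 2 := by
  obtain ⟨c, hc0, hc⟩ := exists_nonsq p h2
  have hme' := hme
  obtain ⟨k, hk⟩ := hme'
  refine LG_fin m p hm 1 _ (fun f v w => ind (Ev t U f (c • v) w (Lab.B 1))) ?_ ?_
  · unfold Av
    exact mQ_scale p c hc0 fun v => mQ p fun w => mF m p fun f => ind (Ev t U f v w (Lab.B 1))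
  · intro f v w
    obtain ⟨e, he, he2⟩ := LG_Kc f f v w (c • v) w t U 1 (by
      intro j hj
      match j with
      | 0 => exact ⟨c, hc0, rs_cmul_left v w c⟩
      | 1 => exact absurd rfl hj
      | 2 =>
        refine ⟨c ^ k, pow_ne_zero k hc0, ?_⟩
        show Rs f (c • v) = (c ^ k) ^ 2 * Rs f v
        rw [Rs_cmul_right, ← pow_mul, mul_two, ← hk])
    refine LG_point hme 1 f f v w (c • v) w t U c e hc he ?_ ?_ he2
    · intro j hj x z
      match j with
      | 0 => rfl
      | 1 => exact absurd rfl hj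
      | 2 => rfl
    · intro x z
      exact qv_cmul v c x z

/-- Proof. The same with `w' = c w`: `Kc .. 2` contains `Rv 0 = rs v w`, `Rv 1 = Rs f w`, `Fv 2 = qv w`. -/
theorem Av_B2 (m p : ℕ) [Fact p.Prime] (hm : 1 ≤ m) (hme : Even m) (h2 : p ≠ 2) (t : Fin 3 → Bool)
    (U : Fin 3 → ZMod p) :
    Av m p (fun f v w => ind (Ev t U f v w (Lab.B 2))) ≤ (1 / (p : ℝ) + 3 / (p : ℝ) ^ 2) / 2 := by
  obtain ⟨c, hc0, hc⟩ := exists_nonsq p h2
  have hme' := hme
  obtain ⟨k, hk⟩ := hme'
  refine LG_fin m p hm 2 _ (fun f v w => ind (Ev t U f v (c • w) (Lab.B 2))) ?_ ?_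
  · unfold Av
    refine congrArg (mQ p) (funext fun v => ?_)
    exact mQ_scale p c hc0 fun w => mF m p fun f => ind (Ev t U f v w (Lab.B 2))
  · intro f v w
    obtain ⟨e, he, he2⟩ := LG_Kc f f v w v (c • w) t U 2 (by
      intro j hj
      match j with
      | 0 => exact ⟨c, hc0, rs_cmul_right v w c⟩
      | 1 =>
        refine ⟨c ^ k, pow_ne_zero k hc0, ?_⟩
        show Rs f (c • w) = (c ^ k) ^ 2 * Rs f w
        rw [Rs_cmul_right, ← pow_mul, mul_two, ← hk]
      | 2 => exact absurd rfl hj)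
    refine LG_point hme 2 f f v w v (c • w) t U c e hc he ?_ ?_ he2
    · intro j hj x z
      match j with
      | 0 => rfl
      | 1 => rfl
      | 2 => exact absurd rfl hj
    · intro x z
      exact qv_cmul w c x z

end FQQ
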