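import Pool.Agent.Lib.MP_10e784_agF.LM
import Pool.Agent.Lib.MP_10e784_agF.RA

/-! JOB LP -/

set_option autoImplicit false

open Classical

namespace FQQ

open Finset Polynomial FGO

private theorem LP_fib {M N : Type} [AddCommGroup M] [AddCommGroup N] [Fintype M] [Fintype N]
    (φ : M →+ N) (hs : Function.Surjective φ) :
    (Finset.univ.filter (fun x => φ x = 0)).card * Fintype.card N = Fintype.card M := by
  have h1 : Fintype.card M = ∑ y : N, (Finset.univ.filter (fun x => φ x = y)).card := by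
    rw [← Finset.card_univ]
    exact Finset.card_eq_sum_card_fiberwise (fun x _ => Finset.mem_coe.mpr (Finset.mem_univ _))
  have h2 : ∀ y : N, (Finset.univ.filter (fun x => φ x = y)).card = (Finset.univ.filter (fun x => φ x = 0)).card := by
    intro y
    obtain ⟨x0, hx0⟩ := hs y
    refine Finset.card_bij (fun x _ => x - x0) ?_ ?_ ?_
    · intro x hx
      rw [Finset.mem_filter] at hx ⊢
      exact ⟨Finset.mem_univ _, by rw [map_sub, hx.2, hx0, sub_self]⟩
    · intro a _ b _ hab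
      exact sub_left_injective hab
    · intro b hb
      rw [Finset.mem_filter] at hb
      exact ⟨b + x0, Finset.mem_filter.mpr ⟨Finset.mem_univ _, by rw [map_add, hb.2, hx0, zero_add]⟩,
        add_sub_cancel_right _ _⟩
  rw [h1, Finset.sum_congr rfl (fun y _ => h2 y), Finset.sum_const, smul_eq_mul, Finset.card_univ, mul_comm]

private theorem LP_ind {α : Type} [Fintype α] (P : α → Prop) :
    ∑ f, ind (P f) = ((Finset.univ.filter P).card : ℝ) := by
  unfold ind
  rw [Finset.sum_boole]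

private theorem LP_hv_add {F : Type} [CommRing F] {m : ℕ} (f g : Fin (m + 1) → F) (x z : F) :
    hv (f + g) x z = hv f x z + hv g x z := by
  unfold hv
  rw [← Finset.sum_add_distrib]
  refine Finset.sum_congr rfl (fun i _ => ?_)
  rw [Pi.add_apply]
  ring

private theorem LP_hv_zero {F : Type} [CommRing F] {m : ℕ} (x z : F) :
    hv (0 : Fin (m + 1) → F) x z = 0 := by
  unfold hv
  exact Finset.sum_eq_zero (fun i _ => by rw [Pi.zero_apply]; ring)

private theorem LP_hv_single {F : Type} [CommRing F] {m : ℕ} (i : Fin (m + 1)) (c x z : F) :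
    hv (Pi.single i c) x z = c * x ^ (i : ℕ) * z ^ (m - (i : ℕ)) := by
  unfold hv
  rw [Finset.sum_eq_single i]
  · rw [Pi.single_eq_same]
  · intro b _ hb
    rw [Pi.single_eq_of_ne hb]
    ring
  · intro h
    exact absurd (Finset.mem_univ _) h

/-- the evaluation homomorphism -/
private def LP_h1 {F : Type} [CommRing F] (m : ℕ) (x z : F) : (Fin (m + 1) → F) →+ F where
  toFun f := hv f x z
  map_zero' := LP_hv_zero x z
  map_add' f g := LP_hv_add f g x z

/-- the double evaluation homomorphism -/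
private def LP_h2 {F : Type} [CommRing F] (m : ℕ) (x z x' z' : F) : (Fin (m + 1) → F) →+ F × F where
  toFun f := (hv f x z, hv f x' z')
  map_zero' := by
    rw [LP_hv_zero, LP_hv_zero]
    rfl
  map_add' f g := by
    rw [LP_hv_add, LP_hv_add]
    rfl

private theorem LP_card (m p : ℕ) [Fact p.Prime] : Fintype.card (Fin (m + 1) → ZMod p) = p ^ (m + 1) := by
  rw [Fintype.card_fun, ZMod.card, Fintype.card_fin]

private theorem LP_two {F : Type} [CommRing F] (m : ℕ) (hm : 1 ≤ m) (j : ℕ) (hj : j ≤ m - 1) (a b : F) :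
    ∃ f : Fin (m + 1) → F, ∀ x z : F, hv f x z = x ^ j * z ^ (m - 1 - j) * (a * x + b * z) := by
  refine ⟨Pi.single ⟨j + 1, by omega⟩ a + Pi.single ⟨j, by omega⟩ b, fun x z => ?_⟩
  rw [LP_hv_add, LP_hv_single, LP_hv_single]
  have h1 : m - (j + 1) = m - 1 - j := by omega
  have h2 : m - j = m - 1 - j + 1 := by omega
  simp only [h1, h2]
  ring

private theorem LP_sep {F : Type} [Field F] (m : ℕ) (hm : 1 ≤ m) (P P' : Option F) (h : P ≠ P') :
    ∃ f : Fin (m + 1) → F, hv f (pt P).1 (pt P).2 = 1 ∧ hv f (pt P').1 (pt P').2 = 0 := by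
  have hD : (pt P).1 * (pt P').2 - (pt P').1 * (pt P).2 ≠ 0 := by
    rcases P with _ | r
    · rcases P' with _ | s
      · exact absurd rfl h
      · simp [pt]
    · rcases P' with _ | s
      · simp [pt]
      · simp only [pt, mul_one]
        exact sub_ne_zero.mpr (fun h' => h (by rw [h']))
  have hj : ∃ j : ℕ, j ≤ m - 1 ∧ (pt P).1 ^ j * (pt P).2 ^ (m - 1 - j) = 1 := by
    rcases P with _ | r
    · exact ⟨m - 1, le_rfl, by simp [pt]⟩
    · exact ⟨0, Nat.zero_le _, by simp [pt]⟩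
  obtain ⟨j, hj1, hj2⟩ := hj
  obtain ⟨f, hf⟩ := LP_two m hm j hj1 ((pt P').2 / ((pt P).1 * (pt P').2 - (pt P').1 * (pt P).2))
    (-(pt P').1 / ((pt P).1 * (pt P').2 - (pt P').1 * (pt P).2))
  refine ⟨f, ?_, ?_⟩
  · rw [hf, hj2, one_mul]
    rw [div_mul_eq_mul_div, div_mul_eq_mul_div, ← add_div, div_eq_one_iff_eq hD]
    ring
  · rw [hf, div_mul_eq_mul_div, div_mul_eq_mul_div, ← add_div]
    have : (pt P').2 * (pt P').1 + -(pt P').1 * (pt P').2 = 0 := by ring
    rw [this, zero_div, mul_zero]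

/-- quadratic forms as vectors -/
private def LP_eq (F : Type) : (Fin (2 + 1) → F) ≃ F × F × F where
  toFun f := (f 2, f 1, f 0)
  invFun v := ![v.2.2, v.2.1, v.1]
  left_inv f := by
    funext i
    fin_cases i <;> rfl
  right_inv v := rfl

private theorem LP_eq_qv {F : Type} [CommRing F] (f : Fin (2 + 1) → F) (x z : F) : qv (LP_eq F f) x z = hv f x z := by
  unfold qv hv
  rw [Fin.sum_univ_three]
  simp only [LP_eq, Equiv.coe_fn_mk, Fin.val_zero, Fin.val_one, Fin.val_two]
  ring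

private theorem LP_mQ (p : ℕ) [Fact p.Prime] (R : ZMod p × ZMod p × ZMod p → Prop) :
    mQ p (fun v => ind (R v)) = mF 2 p (fun f => ind (R (LP_eq (ZMod p) f))) := by
  unfold mQ mF
  rw [← Equiv.sum_comp (LP_eq (ZMod p)) (fun v => ind (R v))]

/-- Proof. `z ≠ 0`: `c = z`, `P = some (x/z)`; `z = 0`: `c = x`, `P = none`. -/
theorem pt_cover {F : Type} [Field F] (x z : F) (h : ¬ (x = 0 ∧ z = 0)) :
    ∃ (P : Option F) (c : F), c ≠ 0 ∧ x = c * (pt P).1 ∧ z = c * (pt P).2 := by
  by_cases hz : z = 0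
  · have hx : x ≠ 0 := fun hx => h ⟨hx, hz⟩
    refine ⟨none, x, hx, ?_, ?_⟩
    · simp [pt]
    · simp [pt, hz]
  · refine ⟨some (x / z), z, hz, ?_, ?_⟩
    · simp only [pt]
      rw [mul_div_cancel₀ _ hz]
    · simp [pt]

theorem pt_ne {F : Type} [Field F] (P : Option F) : ¬ ((pt P).1 = 0 ∧ (pt P).2 = 0) := by
  rcases P with _ | r
  · simp [pt]
  · simp [pt]

/-- Proof. The coefficient of `f 0` is `z^m`, that of `f m` is `x^m`; one of them is a unit: solve for that coordinate. (Or: a nonzero linear form takes the value `0` on `p^m` vectors.) -/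
theorem mF_root (m p : ℕ) [Fact p.Prime] (x z : ZMod p) (h : ¬ (x = 0 ∧ z = 0)) :
    mF m p (fun f => ind (hv f x z = 0)) = 1 / (p : ℝ) := by
  have hp : (0 : ℝ) < p := by exact_mod_cast (Fact.out : p.Prime).pos
  have hs : Function.Surjective (LP_h1 m x z) := by
    intro y
    by_cases hz : z = 0
    · have hx : x ≠ 0 := fun hx => h ⟨hx, hz⟩
      refine ⟨Pi.single (Fin.last m) (y / x ^ m), ?_⟩
      change hv (Pi.single (Fin.last m) (y / x ^ m)) x z = y
      rw [LP_hv_single, Fin.val_last, Nat.sub_self, pow_zero, mul_one, div_mul_cancel₀ _ (pow_ne_zero m hx)]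
    · refine ⟨Pi.single 0 (y / z ^ m), ?_⟩
      change hv (Pi.single 0 (y / z ^ m)) x z = y
      rw [LP_hv_single, Fin.val_zero, pow_zero, Nat.sub_zero, mul_one, div_mul_cancel₀ _ (pow_ne_zero m hz)]
  have h1 := LP_fib (LP_h1 m x z) hs
  rw [LP_card, ZMod.card] at h1
  unfold mF
  rw [LP_ind, div_eq_div_iff (by positivity) (by positivity), one_mul]
  exact_mod_cast h1

theorem mQ_root (p : ℕ) [Fact p.Prime] (x z : ZMod p) (h : ¬ (x = 0 ∧ z = 0)) :
    mQ p (fun v => ind (qv v x z = 0)) = 1 / (p : ℝ) := by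
  rw [LP_mQ p (fun v => qv v x z = 0)]
  simp only [LP_eq_qv]
  exact mF_root 2 p x z h

/-- Proof. The two linear forms `f ↦ hv f P`, `f ↦ hv f P'` are linearly independent for `m ≥ 1`: if both points are finite, `r ≠ s`, the coordinates `f 0`, `f 1` are determined by the others
(`f 0 + r f 1 = ..`, `f 0 + s f 1 = ..`); if `P = none`: `f m = 0` and `f 0` is determined by the others. So `p^(m-1)` solutions. -/
theorem mF_root2 (m p : ℕ) [Fact p.Prime] (hm : 1 ≤ m) (P P' : Option (ZMod p)) (h : P ≠ P') :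
    mF m p (fun f => ind (hv f (pt P).1 (pt P).2 = 0 ∧ hv f (pt P').1 (pt P').2 = 0)) = 1 / (p : ℝ) ^ 2 := by
  have hp : (0 : ℝ) < p := by exact_mod_cast (Fact.out : p.Prime).pos
  obtain ⟨f1, h11, h12⟩ := LP_sep m hm P P' h
  obtain ⟨f2, h21, h22⟩ := LP_sep m hm P' P (Ne.symm h)
  have hs : Function.Surjective (LP_h2 m (pt P).1 (pt P).2 (pt P').1 (pt P').2) := by
    rintro ⟨y, y'⟩
    refine ⟨(fun i => y * f1 i) + (fun i => y' * f2 i), ?_⟩
    change (hv ((fun i => y * f1 i) + (fun i => y' * f2 i)) (pt P).1 (pt P).2,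
      hv ((fun i => y * f1 i) + (fun i => y' * f2 i)) (pt P').1 (pt P').2) = (y, y')
    rw [LP_hv_add, LP_hv_add, hv_cmul, hv_cmul, hv_cmul, hv_cmul, h11, h12, h21, h22]
    simp
  have h1 := LP_fib (LP_h2 m (pt P).1 (pt P).2 (pt P').1 (pt P').2) hs
  rw [LP_card, Fintype.card_prod, ZMod.card] at h1
  have h2 : (fun f : Fin (m + 1) → ZMod p => ind (hv f (pt P).1 (pt P).2 = 0 ∧ hv f (pt P').1 (pt P').2 = 0)) =
      fun f => ind (LP_h2 m (pt P).1 (pt P).2 (pt P').1 (pt P').2 f = 0) := by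
    funext f
    have h3 : (hv f (pt P).1 (pt P).2 = 0 ∧ hv f (pt P').1 (pt P').2 = 0) =
        (LP_h2 m (pt P).1 (pt P).2 (pt P').1 (pt P').2 f = 0) := by
      refine propext ?_
      change _ ↔ (hv f (pt P).1 (pt P).2, hv f (pt P').1 (pt P').2) = (0, 0)
      rw [Prod.mk.injEq]
    rw [h3]
  rw [h2]
  unfold mF
  rw [LP_ind, div_eq_div_iff (by positivity) (by positivity), one_mul, pow_two]
  exact_mod_cast h1

/-- Proof. The same with `v` (for `P, P'` finite: `v.2.1`, `v.2.2` are determined by `v.1`). -/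
theorem mQ_root2 (p : ℕ) [Fact p.Prime] (P P' : Option (ZMod p)) (h : P ≠ P') :
    mQ p (fun v => ind (qv v (pt P).1 (pt P).2 = 0 ∧ qv v (pt P').1 (pt P').2 = 0)) = 1 / (p : ℝ) ^ 2 := by
  rw [LP_mQ p (fun v => qv v (pt P).1 (pt P).2 = 0 ∧ qv v (pt P').1 (pt P').2 = 0)]
  simp only [LP_eq_qv]
  exact mF_root2 2 p (by norm_num) P P' h

end FQQ
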