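import Pool.Agent.Lib.MP_10e784_agF.LP

/-! JOB LP2 -/

set_option autoImplicit false

open Classical

namespace FQQ

open Finset Polynomial FGO

private theorem LP2_card (p : ℕ) [Fact p.Prime] {ι : Type} [Fintype ι] (ψ : ι → ZMod p × ZMod p × ZMod p)
    (hψ : Function.Injective ψ) (P : ZMod p × ZMod p × ZMod p → Prop) (h : ∀ v, P v ↔ ∃ x, ψ x = v) :
    mQ p (fun v => ind (P v)) = (Fintype.card ι : ℝ) / (p : ℝ) ^ 3 := by
  unfold mQ ind
  rw [Finset.sum_boole]
  congr 2
  have e : univ.filter (fun v => P v) = (univ : Finset ι).map ⟨ψ, hψ⟩ := by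
    ext v
    simp only [mem_filter, mem_univ, true_and, mem_map, Function.Embedding.coeFn_mk]
    exact h v
  rw [e, card_map, card_univ]

private theorem LP2_p0 (p : ℕ) [Fact p.Prime] : (p : ℝ) ≠ 0 :=
  Nat.cast_ne_zero.2 (Fact.out : p.Prime).ne_zero

/-- Proof. `p = 2`: count (`decide`), or exclude: here `p ≠ 2`. `v.1 ≠ 0`: `v.2.2 = v.2.1²/(4 v.1)` is determined: `(p-1) p`. `v.1 = 0`: `v.2.1 = 0`, `v.2.2` arbitrary: `p`. Total `p²`. -/
theorem mQ_disc (p : ℕ) [Fact p.Prime] (h2 : p ≠ 2) : mQ p (fun v => ind (ds v = 0)) = 1 / (p : ℝ) := by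
  have h20 : (2 : ZMod p) ≠ 0 := by
    intro h
    have h3 : ((2 : ℕ) : ZMod p) = 0 := by exact_mod_cast h
    rw [ZMod.natCast_eq_zero_iff] at h3
    exact h2 ((Nat.prime_dvd_prime_iff_eq Fact.out Nat.prime_two).1 h3)
  have h40 : (4 : ZMod p) ≠ 0 := by
    have : (4 : ZMod p) = 2 * 2 := by norm_num
    rw [this]
    exact mul_ne_zero h20 h20
  have h := LP2_card p (fun x : ZMod p × ZMod p => if x.1 = 0 then ((0 : ZMod p), (0 : ZMod p), x.2)
    else (x.1, x.2, x.2 ^ 2 / (4 * x.1))) ?_ (fun v => ds v = 0) ?_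
  · rw [h, Fintype.card_prod, ZMod.card]
    have := LP2_p0 p
    push_cast
    field_simp
  · rintro ⟨a, b⟩ ⟨a', b'⟩ hab
    simp only at hab
    by_cases ha : a = 0
    · by_cases ha' : a' = 0
      · rw [if_pos ha, if_pos ha', Prod.mk.injEq, Prod.mk.injEq] at hab
        rw [ha, ha', hab.2.2]
      · rw [if_pos ha, if_neg ha', Prod.mk.injEq] at hab
        exact absurd hab.1.symm ha'
    · by_cases ha' : a' = 0
      · rw [if_neg ha, if_pos ha', Prod.mk.injEq] at hab
        exact absurd hab.1 ha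
      · rw [if_neg ha, if_neg ha', Prod.mk.injEq, Prod.mk.injEq] at hab
        rw [hab.1, hab.2.1]
  · rintro ⟨a, b, c⟩
    unfold ds
    simp only
    constructor
    · intro h
      by_cases ha : a = 0
      · rw [ha, mul_zero, zero_mul, sub_zero] at h
        have hb : b = 0 := pow_eq_zero_iff (two_ne_zero) |>.1 h
        exact ⟨(0, c), by rw [if_pos rfl, ha, hb]⟩
      · refine ⟨(a, b), ?_⟩
        rw [if_neg ha]
        have h3 : b ^ 2 / (4 * a) = c := by
          rw [div_eq_iff (mul_ne_zero h40 ha)]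
          linear_combination h
        rw [h3]
    · rintro ⟨⟨x, y⟩, hx⟩
      simp only at hx
      by_cases hx0 : x = 0
      · rw [if_pos hx0, Prod.mk.injEq, Prod.mk.injEq] at hx
        rw [← hx.1, ← hx.2.1]
        ring
      · rw [if_neg hx0, Prod.mk.injEq, Prod.mk.injEq] at hx
        rw [← hx.1, ← hx.2.1, ← hx.2.2]
        field_simp
        ring

theorem mQ_zero (p : ℕ) [Fact p.Prime] : mQ p (fun v => ind (v = 0)) = 1 / (p : ℝ) ^ 3 := by
  have h := LP2_card p (fun _ : Unit => (0 : ZMod p × ZMod p × ZMod p)) (fun _ _ _ => rfl) (fun v => v = 0)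
    (fun v => ⟨fun h => ⟨(), h.symm⟩, fun ⟨_, h⟩ => h.symm⟩)
  rw [h, Fintype.card_unit, Nat.cast_one]

/-- a nonzero quadratic form with discriminant zero has only one zero.
Proof. If `qv v P = qv v P' = 0` with `P ≠ P'`: `v = c (X - r)(X - s)` or `v = b X Z + c Z²` with `r`: explicitly: both finite: `v.2.1 = -(r+s) v.1`, `v.2.2 = r s v.1`, `ds = v.1² (r-s)²`; so `v.1 = 0` and `v = 0`.
`P = none`: `v.1 = 0`, `ds = v.2.1²`, so `v.2.1 = 0`, then `v.2.2 = 0`. -/
theorem disc_root (p : ℕ) [Fact p.Prime] (v : ZMod p × ZMod p × ZMod p) (hv0 : v ≠ 0) (hd : ds v = 0)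
    (P P' : Option (ZMod p)) (h1 : qv v (pt P).1 (pt P).2 = 0) (h2 : qv v (pt P').1 (pt P').2 = 0) : P = P' := by
  obtain ⟨a, b, c⟩ := v
  unfold ds at hd
  unfold qv at h1 h2
  simp only at hd h1 h2
  have key : ∀ s : ZMod p, a = 0 → a * s ^ 2 + b * s * 1 + c * 1 ^ 2 = 0 → False := by
    intro s ha hs
    rw [ha, mul_zero, zero_mul, sub_zero] at hd
    have hb : b = 0 := pow_eq_zero_iff (two_ne_zero) |>.1 hd
    have hc : c = 0 := by
      rw [ha, hb] at hs
      linear_combination hs
    exact hv0 (by rw [ha, hb, hc]; rfl)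
  cases P with
  | none =>
    cases P' with
    | none => rfl
    | some s =>
      exfalso
      simp only [pt] at h1 h2
      exact key s (by linear_combination h1) h2
  | some r =>
    cases P' with
    | none =>
      exfalso
      simp only [pt] at h1 h2
      exact key r (by linear_combination h2) h1
    | some s =>
      simp only [pt] at h1 h2
      by_contra hne
      have hrs : r - s ≠ 0 := by
        intro h
        exact hne (congrArg some (sub_eq_zero.1 h))
      have e1 : a * (r + s) + b = 0 := by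
        have : (r - s) * (a * (r + s) + b) = 0 := by linear_combination h1 - h2
        exact (mul_eq_zero.1 this).resolve_left hrs
      have e2 : c = r * s * a := by linear_combination h1 - r * e1
      have e3 : a ^ 2 * (r - s) ^ 2 = 0 := by
        have e4 : b = -(a * (r + s)) := by linear_combination e1
        rw [e2, e4] at hd
        linear_combination hd
      have ha : a = 0 := by
        rcases mul_eq_zero.1 e3 with h | h
        · exact pow_eq_zero_iff (two_ne_zero) |>.1 h
        · exact absurd (pow_eq_zero_iff (two_ne_zero) |>.1 h) hrs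
      exact key r ha h1

/-- Proof. For each `P` the forms with `ds v = 0`, `qv v P = 0` are the multiples of the square of the linear form vanishing at `P`: `p` of them. (`P = some r`: `v.2.1 = -2 r v.1`, `v.2.2 = r² v.1`: from `v(r) = 0` and `ds v = 0`:
`4 v.1 v(r) = (2 v.1 r + v.2.1)² - ds v`, so `2 v.1 r + v.2.1 = 0` if `v.1 ≠ 0`; if `v.1 = 0` then `v.2.1 = 0` and `v.2.2 = 0`. `P = none`: `v.1 = 0`, so `v.2.1 = 0`.) -/
theorem mQ_disc_root (p : ℕ) [Fact p.Prime] (h2 : p ≠ 2) (P : Option (ZMod p)) :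
    mQ p (fun v => ind (ds v = 0 ∧ qv v (pt P).1 (pt P).2 = 0)) = 1 / (p : ℝ) ^ 2 := by
  have hp := LP2_p0 p
  cases P with
  | none =>
    have h := LP2_card p (fun x : ZMod p => ((0 : ZMod p), (0 : ZMod p), x)) ?_
      (fun v => ds v = 0 ∧ qv v (pt (none : Option (ZMod p))).1 (pt (none : Option (ZMod p))).2 = 0) ?_
    · rw [h, ZMod.card]
      field_simp
    · intro x y hxy
      exact (Prod.mk.inj (Prod.mk.inj hxy).2).2
    · rintro ⟨a, b, c⟩
      unfold ds qv
      simp only [pt]
      constructor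
      · rintro ⟨h3, h4⟩
        have ha : a = 0 := by linear_combination h4
        rw [ha, mul_zero, zero_mul, sub_zero] at h3
        have hb : b = 0 := pow_eq_zero_iff (two_ne_zero) |>.1 h3
        exact ⟨c, by rw [ha, hb]⟩
      · rintro ⟨x, hx⟩
        rw [Prod.mk.injEq, Prod.mk.injEq] at hx
        rw [← hx.1, ← hx.2.1]
        constructor <;> ring
  | some r =>
    have h := LP2_card p (fun x : ZMod p => (x, -2 * r * x, r ^ 2 * x)) ?_
      (fun v => ds v = 0 ∧ qv v (pt (some r)).1 (pt (some r)).2 = 0) ?_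
    · rw [h, ZMod.card]
      field_simp
    · intro x y hxy
      exact (Prod.mk.inj hxy).1
    · rintro ⟨a, b, c⟩
      unfold ds qv
      simp only [pt]
      constructor
      · rintro ⟨h3, h4⟩
        have h5 : (2 * a * r + b) ^ 2 = 0 := by linear_combination h3 + 4 * a * h4
        have h6 : 2 * a * r + b = 0 := pow_eq_zero_iff (two_ne_zero) |>.1 h5
        refine ⟨a, ?_⟩
        rw [Prod.mk.injEq, Prod.mk.injEq]
        refine ⟨rfl, ?_, ?_⟩
        · linear_combination -h6
        · linear_combination r * h6 - h4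
      · rintro ⟨x, hx⟩
        rw [Prod.mk.injEq, Prod.mk.injEq] at hx
        rw [← hx.1, ← hx.2.1, ← hx.2.2]
        constructor <;> ring

/-- Proof. `P = none`: the two conditions coincide: `1/p`. `P = some r`: `v.1 = 0` and `v.2.2 = - r v.2.1`: `1/p²`. -/
theorem mQ_lead_root (p : ℕ) [Fact p.Prime] (P : Option (ZMod p)) :
    mQ p (fun v => ind (v.1 = 0 ∧ qv v (pt P).1 (pt P).2 = 0)) = if P = none then 1 / (p : ℝ) else 1 / (p : ℝ) ^ 2 := by
  have hp := LP2_p0 p
  cases P with
  | none =>
    rw [if_pos rfl]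
    have h := LP2_card p (fun x : ZMod p × ZMod p => ((0 : ZMod p), x.1, x.2)) ?_
      (fun v => v.1 = 0 ∧ qv v (pt (none : Option (ZMod p))).1 (pt (none : Option (ZMod p))).2 = 0) ?_
    · rw [h, Fintype.card_prod, ZMod.card]
      push_cast
      field_simp
    · rintro ⟨x, x'⟩ ⟨y, y'⟩ hxy
      have h3 := (Prod.mk.inj hxy).2
      exact h3
    · rintro ⟨a, b, c⟩
      unfold qv
      simp only [pt]
      constructor
      · rintro ⟨h3, _⟩
        exact ⟨(b, c), by rw [h3]⟩
      · rintro ⟨x, hx⟩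
        rw [Prod.mk.injEq, Prod.mk.injEq] at hx
        rw [← hx.1]
        exact ⟨rfl, by ring⟩
  | some r =>
    rw [if_neg (by simp)]
    have h := LP2_card p (fun x : ZMod p => ((0 : ZMod p), x, -r * x)) ?_
      (fun v => v.1 = 0 ∧ qv v (pt (some r)).1 (pt (some r)).2 = 0) ?_
    · rw [h, ZMod.card]
      field_simp
    · intro x y hxy
      exact (Prod.mk.inj (Prod.mk.inj hxy).2).1
    · rintro ⟨a, b, c⟩
      unfold qv
      simp only [pt]
      constructor
      · rintro ⟨h3, h4⟩
        refine ⟨b, ?_⟩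
        rw [Prod.mk.injEq, Prod.mk.injEq]
        refine ⟨h3.symm, rfl, ?_⟩
        rw [h3] at h4
        linear_combination -h4
      · rintro ⟨x, hx⟩
        rw [Prod.mk.injEq, Prod.mk.injEq] at hx
        rw [← hx.1, ← hx.2.1, ← hx.2.2]
        exact ⟨rfl, by ring⟩

end FQQ
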