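import Pool.Agent.Lib.MP_10e784_agF.RA

/-! JOB RE -/

set_option autoImplicit false

open Classical

namespace FQQ

open Finset Polynomial FGO

private theorem RE_coeff_Pq (v : V) (N : ℕ) (hv1 : |v.1| ≤ (N : ℤ))
    (hv2 : |v.2.1| ≤ (N : ℤ)) (hv3 : |v.2.2| ≤ (N : ℤ)) (k : ℕ) : |(Pq v).coeff k| ≤ (N : ℤ) := by
  have h : (Pq v).coeff k = (if k = 2 then v.1 else 0) + (if k = 1 then v.2.1 else 0) +
      (if k = 0 then v.2.2 else 0) := by
    unfold Pq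
    rw [coeff_add, coeff_add, coeff_C_mul, coeff_X_pow, coeff_C_mul, coeff_X, coeff_C]
    simp only [mul_ite, mul_one, mul_zero, eq_comm (a := (1 : ℕ)) (b := k)]
  have hN : (0 : ℤ) ≤ N := Int.natCast_nonneg N
  rw [h]
  by_cases h2 : k = 2
  · subst h2
    simpa using hv1
  by_cases h1 : k = 1
  · subst h1
    simpa using hv2
  by_cases h0 : k = 0
  · subst h0
    simpa using hv3
  · simp [h0, h1, h2]

private theorem RE_coeff_Pf {m : ℕ} (f : Vn m) (H : ℕ) (hf : ∀ i, |f i| ≤ (H : ℤ)) (k : ℕ) :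
    |(Pf f).coeff k| ≤ (H : ℤ) := by
  have hH : (0 : ℤ) ≤ H := Int.natCast_nonneg H
  by_cases hk : k < m + 1
  · have := coeff_Pf f ⟨k, hk⟩
    simp only at this
    rw [this]
    exact hf _
  · rw [coeff_eq_zero_of_natDegree_lt (lt_of_le_of_lt (natDegree_Pf f) (by omega)), abs_zero]
    exact hH

/-- The Sylvester determinant of a form of degree `m` and a quadratic form is bounded by the coefficients. -/
theorem abs_Rs_le {m : ℕ} (f : Vn m) (v : V) (H N : ℕ) (hf : ∀ i, |f i| ≤ (H : ℤ)) (hv1 : |v.1| ≤ (N : ℤ))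
    (hv2 : |v.2.1| ≤ (N : ℤ)) (hv3 : |v.2.2| ≤ (N : ℤ)) :
    |Rs f v| ≤ ((m + 2).factorial : ℤ) * (H : ℤ) ^ 2 * (N : ℤ) ^ m := by
  have hN : (0 : ℤ) ≤ N := Int.natCast_nonneg N
  have hH : (0 : ℤ) ≤ H := Int.natCast_nonneg H
  have e1 : ∀ (i : Fin (m + 2)) (j : Fin m),
      |sylvester (Pf f) (Pq v) m 2 i (Fin.castAdd 2 j)| ≤ (N : ℤ) := by
    intro i j
    unfold sylvester
    rw [Matrix.of_apply, Fin.addCases_left]
    split_ifs
    · exact RE_coeff_Pq v N hv1 hv2 hv3 _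
    · rw [abs_zero]
      exact hN
  have e2 : ∀ (i : Fin (m + 2)) (j : Fin 2),
      |sylvester (Pf f) (Pq v) m 2 i (Fin.natAdd m j)| ≤ (H : ℤ) := by
    intro i j
    unfold sylvester
    rw [Matrix.of_apply, Fin.addCases_right]
    split_ifs
    · exact RE_coeff_Pf f H hf _
    · rw [abs_zero]
      exact hH
  have e3 : ∀ σ : Equiv.Perm (Fin (m + 2)),
      |Equiv.Perm.sign σ • ∏ i, sylvester (Pf f) (Pq v) m 2 (σ i) i| ≤ (H : ℤ) ^ 2 * (N : ℤ) ^ m := by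
    intro σ
    have f1 : |Equiv.Perm.sign σ • ∏ i, sylvester (Pf f) (Pq v) m 2 (σ i) i| =
        ∏ i, |sylvester (Pf f) (Pq v) m 2 (σ i) i| := by
      rw [Units.smul_def, smul_eq_mul, abs_mul, Finset.abs_prod]
      rcases Int.units_eq_one_or (Equiv.Perm.sign σ) with h | h <;> simp [h]
    rw [f1, Fin.prod_univ_add]
    have f2 : ∏ i : Fin m, |sylvester (Pf f) (Pq v) m 2 (σ (Fin.castAdd 2 i)) (Fin.castAdd 2 i)| ≤
        (N : ℤ) ^ m := by
      calc ∏ i : Fin m, |sylvester (Pf f) (Pq v) m 2 (σ (Fin.castAdd 2 i)) (Fin.castAdd 2 i)|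
          ≤ ∏ _i : Fin m, (N : ℤ) := Finset.prod_le_prod (fun _ _ => abs_nonneg _) fun i _ => e1 _ i
        _ = (N : ℤ) ^ m := by simp
    have f3 : ∏ i : Fin 2, |sylvester (Pf f) (Pq v) m 2 (σ (Fin.natAdd m i)) (Fin.natAdd m i)| ≤
        (H : ℤ) ^ 2 := by
      calc ∏ i : Fin 2, |sylvester (Pf f) (Pq v) m 2 (σ (Fin.natAdd m i)) (Fin.natAdd m i)|
          ≤ ∏ _i : Fin 2, (H : ℤ) := Finset.prod_le_prod (fun _ _ => abs_nonneg _) fun i _ => e2 _ i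
        _ = (H : ℤ) ^ 2 := by simp
    rw [mul_comm ((H : ℤ) ^ 2)]
    exact mul_le_mul f2 f3 (Finset.prod_nonneg fun _ _ => abs_nonneg _) (pow_nonneg hN m)
  have e4 : Rs f v = ∑ σ : Equiv.Perm (Fin (m + 2)),
      Equiv.Perm.sign σ • ∏ i, sylvester (Pf f) (Pq v) m 2 (σ i) i := by
    unfold Rs Polynomial.resultant
    exact Matrix.det_apply _
  rw [e4]
  calc |∑ σ : Equiv.Perm (Fin (m + 2)), Equiv.Perm.sign σ • ∏ i, sylvester (Pf f) (Pq v) m 2 (σ i) i|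
      ≤ ∑ σ : Equiv.Perm (Fin (m + 2)),
        |Equiv.Perm.sign σ • ∏ i, sylvester (Pf f) (Pq v) m 2 (σ i) i| := Finset.abs_sum_le_sum_abs _ _
    _ ≤ ∑ _σ : Equiv.Perm (Fin (m + 2)), (H : ℤ) ^ 2 * (N : ℤ) ^ m := Finset.sum_le_sum fun σ _ => e3 σ
    _ = ((m + 2).factorial : ℤ) * (H : ℤ) ^ 2 * (N : ℤ) ^ m := by
        rw [Finset.sum_const, Finset.card_univ, Fintype.card_perm, Fintype.card_fin, nsmul_eq_mul]
        ring

end FQQ
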