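import Pool.Agent.Lib.MP_10e784_agF.D3
import Pool.Agent.Lib.MP_10e784_agF.DE
import Pool.Agent.Lib.MP_10e784_agF.RE
import Pool.Agent.Lib.MP_10e784_agF.RD
import Pool.Agent.Lib.MP_1ad228_ntG.St

/-! JOB SA -/

set_option autoImplicit false

open Classical

namespace FQQ

open Finset Polynomial FGO

theorem SA_aux0 {P0 z p : ℕ} (h : p ∈ PQ P0 z) : p.Prime := (Finset.mem_filter.1 h).2

theorem SA_aux1 {m H N P0 z0 q0 q1 : ℕ} {f : Vn m} {u : V × V} (hT : Typical H N P0 z0 q0 q1 f u)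
    (hS : 0 < ∑ p ∈ PQ P0 z0, 1 / (p : ℝ)) (j : Fin 2) :
    ∃ p ∈ PQ P0 z0, Dc (cV p u.1) (cV p u.2) j = 0 := by
  have h1 := hT.2.2.1 j
  have h2 : (0 : ℝ) < (nD (PQ P0 z0) j u : ℝ) := by
    refine lt_of_lt_of_le ?_ h1
    have h3 : (0 : ℝ) < 99 / 100 := by norm_num
    exact mul_pos h3 hS
  have h4 : 0 < nD (PQ P0 z0) j u := by exact_mod_cast h2
  unfold nD at h4
  obtain ⟨p, hp⟩ := Finset.card_pos.1 h4
  exact ⟨p, (Finset.mem_filter.1 hp).1, (Finset.mem_filter.1 hp).2⟩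

theorem SA_aux2 {m : ℕ} (hm : 1 ≤ m) {p : ℕ} (hp : p.Prime) (f : Vn m) (v : V) (h1 : (p : ℤ) ∣ Rs f v)
    (h2 : ¬ (p : ℤ) ∣ v.1) (h3 : ¬ Pq (cV p v) ∣ Pf (cN p f)) :
    ∃ r : ℤ, (p : ℤ) ∣ evn f r ∧ (p : ℤ) ∣ ev v r := by
  have : Fact p.Prime := ⟨hp⟩
  have hR : Rs (cN p f) (cV p v) = 0 := by
    rw [← Rs_cast]
    exact (ZMod.intCast_zmod_eq_zero_iff_dvd _ _).2 h1
  have hv1 : (cV p v).1 ≠ 0 := by
    intro h0
    exact h2 ((ZMod.intCast_zmod_eq_zero_iff_dvd _ _).1 h0)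
  rcases Rs_zero hm (cN p f) (cV p v) hR with ⟨x, z, hxz, hf, hv0⟩ | h | ⟨_, h⟩
  · have hz : z ≠ 0 := by
      intro hz
      have hx : x ≠ 0 := fun hx => hxz ⟨hx, hz⟩
      rw [hz] at hv0
      have h5 : (cV p v).1 * x ^ 2 = 0 := by
        have h6 : qv (cV p v) x 0 = (cV p v).1 * x ^ 2 := by
          unfold qv
          ring
        rw [← h6]
        exact hv0
      rcases mul_eq_zero.1 h5 with h | h
      · exact hv1 h
      · exact hx (pow_eq_zero_iff (by norm_num) |>.1 h)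
    have hx' : x = z * (x / z) := by field_simp
    have hz' : z = z * 1 := (mul_one z).symm
    have hf' : hv (cN p f) (x / z) 1 = 0 := by
      have h6 : hv (cN p f) (z * (x / z)) (z * 1) = 0 := by
        rw [← hx', ← hz']
        exact hf
      rw [hv_smul] at h6
      rcases mul_eq_zero.1 h6 with h | h
      · exact absurd h (pow_ne_zero _ hz)
      · exact h
    have hv' : qv (cV p v) (x / z) 1 = 0 := by
      have h6 : qv (cV p v) (z * (x / z)) (z * 1) = 0 := by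
        rw [← hx', ← hz']
        exact hv0
      rw [qv_smul] at h6
      rcases mul_eq_zero.1 h6 with h | h
      · exact absurd h (pow_ne_zero _ hz)
      · exact h
    have hc : (((x / z).val : ℤ) : ZMod p) = x / z := by
      rw [Int.cast_natCast]
      exact ZMod.natCast_zmod_val _
    refine ⟨((x / z).val : ℤ), ?_, ?_⟩
    · rw [evn_eq]
      apply (ZMod.intCast_zmod_eq_zero_iff_dvd _ _).1
      rw [hv_cast, hc, Int.cast_one]
      exact hf'
    · rw [ev_eq]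
      apply (ZMod.intCast_zmod_eq_zero_iff_dvd _ _).1
      rw [qv_cast, hc, Int.cast_one]
      exact hv'
  · exfalso
    apply hv1
    rw [h]
    rfl
  · exact absurd h h3

theorem SA_aux3 {m : ℕ} (f : Vn m) (v : V) (q r s : ℤ) (h : q ∣ r - s) :
    q ∣ evn f r - evn f s ∧ q ∣ ev v r - ev v s := by
  constructor
  · unfold evn
    rw [← Finset.sum_sub_distrib]
    apply Finset.dvd_sum
    intro i _
    rw [← mul_sub]
    exact dvd_mul_of_dvd_right (dvd_trans h (sub_dvd_pow_sub_pow r s _)) _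
  · have h1 : ev v r - ev v s = (r - s) * (v.1 * (r + s) + v.2.1) := by
      unfold ev
      ring
    rw [h1]
    exact dvd_mul_of_dvd_left h _

theorem SA_aux4 {m : ℕ} (f : Vn m) (v : V) (S : Finset ℕ) (hS : ∀ p ∈ S, p.Prime)
    (h : ∀ p ∈ S, ∃ r : ℤ, (p : ℤ) ∣ evn f r ∧ (p : ℤ) ∣ ev v r) :
    ∃ r : ℤ, ∀ p ∈ S, (p : ℤ) ∣ evn f r ∧ (p : ℤ) ∣ ev v r := by
  induction S using Finset.induction_on with
  | empty =>
    refine ⟨0, ?_⟩
    intro p hp
    exact absurd hp (Finset.notMem_empty p)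
  | insert q S hq ih =>
    obtain ⟨s, hs⟩ := ih (fun p hp => hS p (Finset.mem_insert_of_mem hp))
      (fun p hp => h p (Finset.mem_insert_of_mem hp))
    obtain ⟨t, ht⟩ := h q (Finset.mem_insert_self q S)
    have hqp : q.Prime := hS q (Finset.mem_insert_self q S)
    have hcop : Nat.Coprime q (∏ p ∈ S, p) := by
      apply Nat.Coprime.prod_right
      intro p hp
      apply (Nat.coprime_primes hqp (hS p (Finset.mem_insert_of_mem hp))).2
      rintro rfl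
      exact hq hp
    have hcop' : IsCoprime (q : ℤ) ((∏ p ∈ S, p : ℕ) : ℤ) := Nat.isCoprime_iff_coprime.2 hcop
    obtain ⟨a, b, hab⟩ := hcop'
    set M : ℤ := ((∏ p ∈ S, p : ℕ) : ℤ) with hM
    refine ⟨s * (a * q) + t * (b * M), ?_⟩
    have h1 : (q : ℤ) ∣ (s * (a * q) + t * (b * M)) - t := by
      have h2 : (s * (a * q) + t * (b * M)) - t = q * (a * s - a * t) := by
        have h3 : b * M = 1 - a * q := by linarith
        rw [h3]
        ring
      rw [h2]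
      exact dvd_mul_right _ _
    have h2 : M ∣ (s * (a * q) + t * (b * M)) - s := by
      have h4 : (s * (a * q) + t * (b * M)) - s = M * (b * t - b * s) := by
        have h3 : a * q = 1 - b * M := by linarith
        rw [h3]
        ring
      rw [h4]
      exact dvd_mul_right _ _
    intro p hp
    rcases Finset.mem_insert.1 hp with rfl | hp
    · obtain ⟨h5, h6⟩ := SA_aux3 f v p _ t h1
      exact ⟨(dvd_iff_dvd_of_dvd_sub h5).2 ht.1, (dvd_iff_dvd_of_dvd_sub h6).2 ht.2⟩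
    · have hpM : (p : ℤ) ∣ M := by
        rw [hM]
        exact Int.natCast_dvd_natCast.2 (Finset.dvd_prod_of_mem _ hp)
      obtain ⟨h5, h6⟩ := SA_aux3 f v p _ s (dvd_trans hpM h2)
      exact ⟨(dvd_iff_dvd_of_dvd_sub h5).2 (hs p hp).1, (dvd_iff_dvd_of_dvd_sub h6).2 (hs p hp).2⟩

/-- Proof. `S > 0` makes `nD > 0`: there is `p ∈ Q` with `Dc j ≡ 0 mod p`, i.e. `p ∣ ds`, and `p² ∤ ds` (`TypP`): an integer divisible exactly once by a prime is not a square. -/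
theorem not_sq_of_typ {m H N P0 z0 q0 q1 : ℕ} {f : Vn m} {u : V × V} (hT : Typical H N P0 z0 q0 q1 f u)
    (hS : 0 < ∑ p ∈ PQ P0 z0, 1 / (p : ℝ)) : ¬ IsSquare (ds u.1) ∧ ¬ IsSquare (ds u.2) := by
  have key : ∀ j : Fin 2, ¬ IsSquare (Dc u.1 u.2 j) := by
    intro j hsq
    obtain ⟨p, hpQ, hD⟩ := SA_aux1 hT hS j
    have hp : p.Prime := SA_aux0 hpQ
    have hTP := hT.1 p hpQ
    have h2 := hTP.2.2.2.1 j
    have hdvd : (p : ℤ) ∣ Dc u.1 u.2 j := by
      have h3 := Dc_cast p f u.1 u.2 j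
      rw [hD] at h3
      exact (ZMod.intCast_zmod_eq_zero_iff_dvd _ _).1 h3
    obtain ⟨s, hs⟩ := hsq
    rw [hs] at hdvd h2
    have hps : (p : ℤ) ∣ s := by
      rcases (Nat.prime_iff_prime_int.1 hp).dvd_or_dvd hdvd with h | h <;> exact h
    apply h2
    rw [sq]
    exact mul_dvd_mul hps hps
  exact ⟨key 0, key 1⟩

/-- Proof. Take `p ∈ Q` with `Dc 0 ≡ 0 mod p`. If `Rv i = 0` then `p ∣ Rv i`, so `E i` holds modulo `p` (`TypP`), excluded together with `Dc 0 ≡ 0`. -/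
theorem R_ne_of_typ {m H N P0 z0 q0 q1 : ℕ} {f : Vn m} {u : V × V} (hT : Typical H N P0 z0 q0 q1 f u)
    (hS : 0 < ∑ p ∈ PQ P0 z0, 1 / (p : ℝ)) (i : Fin 3) : Rv f u.1 u.2 i ≠ 0 := by
  intro h0
  obtain ⟨p, hpQ, hD⟩ := SA_aux1 hT hS 0
  have hTP := hT.1 p hpQ
  have hE := (hTP.2.2.2.2 i (by rw [h0]; exact dvd_zero _)).1
  exact hTP.2.1 i 0 ⟨hD, hE⟩

/-- (common root of `f` and `v` modulo `D`) Proof. For every prime `p ∣ D`: `p ∣ Rs f v`, `p ∤ v.1`, `Pq ∤ Pf` modulo `p`: by `Rs_zero` over `ZMod p` there is a common zero `(x, z)`, `z ≠ 0` as `v.1 ≠ 0`, so a common root `r_p = x/z`. Chinese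
remainder theorem (`D` squarefree, induction over the prime factors or `Nat.chineseRemainderOfFinset`) gives `r`. -/
theorem common_rootF {m D : ℕ} (hm : 1 ≤ m) (hD : Squarefree D) (f : Vn m) (v : V)
    (h : ∀ p : ℕ, p.Prime → p ∣ D → (p : ℤ) ∣ Rs f v ∧ ¬ (p : ℤ) ∣ v.1 ∧ ¬ Pq (cV p v) ∣ Pf (cN p f)) :
    ∃ r : ℤ, (D : ℤ) ∣ evn f r ∧ (D : ℤ) ∣ ev v r := by
  have hD0 : D ≠ 0 := hD.ne_zero
  have hloc : ∀ p ∈ D.primeFactors, ∃ r : ℤ, (p : ℤ) ∣ evn f r ∧ (p : ℤ) ∣ ev v r := by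
    intro p hpD
    have hp : p.Prime := Nat.prime_of_mem_primeFactors hpD
    have hpd : p ∣ D := Nat.dvd_of_mem_primeFactors hpD
    obtain ⟨h1, h2, h3⟩ := h p hp hpd
    exact SA_aux2 hm hp f v h1 h2 h3
  obtain ⟨r, hr⟩ := SA_aux4 f v D.primeFactors (fun p hp => Nat.prime_of_mem_primeFactors hp) hloc
  have hprod : ∏ p ∈ D.primeFactors, p = D := Nat.prod_primeFactors_of_squarefree hD
  refine ⟨r, ?_, ?_⟩
  · rw [Int.natCast_dvd, ← hprod]
    apply Finset.prod_primes_dvd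
    · intro p hp
      exact (Nat.prime_of_mem_primeFactors hp).prime
    · intro p hp
      exact Int.natCast_dvd.1 (hr p hp).1
  · rw [Int.natCast_dvd, ← hprod]
    apply Finset.prod_primes_dvd
    · intro p hp
      exact (Nat.prime_of_mem_primeFactors hp).prime
    · intro p hp
      exact Int.natCast_dvd.1 (hr p hp).2

/-- Proof. `PM² = ((m+2)!)² H² N^m ≥ (m+2)! H² N^m ≥ |R| ≥ d²` (`m` even; `abs_Rs_le`). -/
theorem le_PM {m H N d : ℕ} (hme : Even m) (f : Vn m) (v : V) (hf : f ∈ boxN m H) (hv : v ∈ box N)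
    (h : d ^ 2 ≤ (Rs f v).natAbs) : d ≤ PM m H N := by
  have hf' : ∀ i, |f i| ≤ (H : ℤ) := by
    intro i
    have h1 := Fintype.mem_piFinset.1 hf i
    exact abs_le.2 (Finset.mem_Icc.1 h1)
  obtain ⟨hv1, hv2, hv3⟩ := mem_box.1 hv
  have h1 := abs_Rs_le f v H N hf' hv1 hv2 hv3
  have h2 : (Rs f v).natAbs ≤ (m + 2).factorial * H ^ 2 * N ^ m := by
    zify
    exact h1
  have h3 : (m + 2).factorial * H ^ 2 * N ^ m ≤ (PM m H N) ^ 2 := by
    unfold PM
    obtain ⟨k, hk⟩ := hme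
    have hk2 : m / 2 = k := by omega
    rw [hk2]
    have h4 : N ^ m = (N ^ k) ^ 2 := by
      rw [hk, ← pow_mul, ← two_mul, mul_comm]
    rw [h4]
    have h5 : 1 ≤ (m + 2).factorial := Nat.succ_le_of_lt (Nat.factorial_pos _)
    calc (m + 2).factorial * H ^ 2 * (N ^ k) ^ 2 = (m + 2).factorial * (H ^ 2 * (N ^ k) ^ 2) := by ring
      _ ≤ ((m + 2).factorial * (m + 2).factorial) * (H ^ 2 * (N ^ k) ^ 2) := by
          apply Nat.mul_le_mul_right
          exact Nat.le_mul_of_pos_left _ h5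
      _ = ((m + 2).factorial * H * N ^ k) ^ 2 := by ring
  have h6 : d ^ 2 ≤ (PM m H N) ^ 2 := le_trans h (le_trans h2 h3)
  exact (Nat.pow_le_pow_iff_left (by norm_num)).1 h6

/-- Proof. `d² ≤ |res| ≤ 8 N⁴` (`FGO.abs_res_le`), so `d ≤ 3 N²`. -/
theorem le_3N2 {N d : ℕ} (u : V × V) (hu : u ∈ box2 N) (h : d ^ 2 ≤ (rs u.1 u.2).natAbs) : d ≤ 3 * N ^ 2 := by
  have h1 := abs_res_le N u hu
  have h2 : (rs u.1 u.2).natAbs ≤ 8 * N ^ 4 := by
    rw [rs_eq]
    zify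
    exact h1
  have h3 : d ^ 2 ≤ (3 * N ^ 2) ^ 2 := by
    calc d ^ 2 ≤ 8 * N ^ 4 := le_trans h h2
      _ ≤ 9 * N ^ 4 := Nat.mul_le_mul_right _ (by norm_num)
      _ = (3 * N ^ 2) ^ 2 := by ring
  exact (Nat.pow_le_pow_iff_left (by norm_num)).1 h3

end FQQ
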