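import Pool.Agent.Lib.MP_10e784_agF.SA

/-! JOB SB -/

set_option autoImplicit false

open Classical

namespace FQQ

open Finset Polynomial FGO

/-- Proof. `s i = spart P0 (s i) * (∏ p ∣ s i, P0 < p ≤ z0) * rpart z0 (s i)` (`split3`), and by `dvd_s_iff` the middle product is `lprod Q (lamD A) (LT t i)` (`Q = PQ P0 z0`, the primes of `Q` dividing `s i`). -/
theorem s_eq {m P0 z0 : ℕ} (hm : 1 ≤ m) (hPz : P0 ≤ z0) {f : Vn m} {u : V × V} (A : Dat z0 f u)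
    (hT : ∀ p ∈ PQ P0 z0, TypP p f u) (i : Fin 3) :
    A.s i = spart P0 (A.s i) * lprod (PQ P0 z0) (lamD A) (LT A.t i) * rpart z0 (A.s i) := by
  have h1 : (A.s i).primeFactors.filter (fun p => P0 < p ∧ p ≤ z0) =
      (PQ P0 z0).filter (fun p => lamD A p = LT A.t i) := by
    ext p
    simp only [PQ, Finset.mem_filter, Nat.mem_primeFactors, Finset.mem_Ioc]
    constructor
    · rintro ⟨⟨hp, hd, _⟩, hl, hu⟩
      have hpQ : p ∈ PQ P0 z0 := by
        simp only [PQ, Finset.mem_filter, Finset.mem_Ioc]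
        exact ⟨⟨hl, hu⟩, hp⟩
      exact ⟨⟨⟨hl, hu⟩, hp⟩, (dvd_s_iff hm A p hp (hT p hpQ) i).1 hd⟩
    · rintro ⟨⟨⟨hl, hu⟩, hp⟩, h⟩
      have hpQ : p ∈ PQ P0 z0 := by
        simp only [PQ, Finset.mem_filter, Finset.mem_Ioc]
        exact ⟨⟨hl, hu⟩, hp⟩
      exact ⟨⟨hp, (dvd_s_iff hm A p hp (hT p hpQ) i).2 h, (A.sqs i).ne_zero⟩, hl, hu⟩
  have h2 := split3 (A.s i) P0 z0 (A.sqs i) hPz
  rw [h1] at h2
  exact h2

/-- Proof. The primes of `Q` with a label `≠ O` are those with `Em` (`lamD_E`, `lamD_D`, `lamD_O`): the product is `Lpr Q f u`. -/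
theorem lab_prod {m P0 z0 : ℕ} {f : Vn m} {u : V × V} (A : Dat z0 f u) (hT : ∀ p ∈ PQ P0 z0, TypP p f u) :
    ∏ p ∈ (PQ P0 z0).filter (fun p => lamD A p ≠ Lab.O), p = Lpr (PQ P0 z0) f u := by
  unfold Lpr
  have h1 : (PQ P0 z0).filter (fun p => lamD A p ≠ Lab.O) =
      (PQ P0 z0).filter (fun p => Em (cN p f) (cV p u.1) (cV p u.2)) := by
    refine Finset.filter_congr fun p hp => ?_
    constructor
    · intro h
      by_contra h2
      exact h (lamD_O A p h2)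
    · intro h h2
      rcases h with ⟨i, hi⟩ | ⟨j, hj⟩
      · have h3 := lamD_E A p (hT p hp) i hi
        rw [h2] at h3
        split_ifs at h3
      · have h3 := lamD_D A p (hT p hp) j hj
        rw [h2] at h3
        exact absurd h3 (by simp)
  rw [h1]

theorem SB_sum1 {ι : Type} [Fintype ι] [DecidableEq ι] (P : ι → Prop) [DecidablePred P] (c : ℝ) (i : ι) (hi : P i)
    (h : ∀ i j, i ≠ j → ¬ (P i ∧ P j)) : ∑ i, (if P i then c else 0) = c := by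
  rw [Finset.sum_eq_single i]
  · rw [if_pos hi]
  · intro j _ hj
    rw [if_neg]
    intro h2
    exact h j i hj ⟨h2, hi⟩
  · intro h2
    exact absurd (Finset.mem_univ _) h2

theorem SB_sum0 {ι : Type} [Fintype ι] (P : ι → Prop) [DecidablePred P] (c : ℝ) (h : ∀ i, ¬ P i) :
    ∑ i, (if P i then c else 0) = 0 := by
  refine Finset.sum_eq_zero fun j _ => ?_
  rw [if_neg (h j)]

theorem SB_log {m z0 : ℕ} {f : Vn m} {u : V × V} (A : Dat z0 f u) (p : ℕ) (hT : TypP p f u) :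
    Real.log (yw (lamD A p)) =
      (∑ i : Fin 3, if E (cN p f) (cV p u.1) (cV p u.2) i then Real.log (2 / 3) else 0) +
      ∑ j : Fin 2, if Dc (cV p u.1) (cV p u.2) j = 0 then Real.log 2 else 0 := by
  have hE : ∀ i, E (cN p f) (cV p u.1) (cV p u.2) i →
      (∑ i : Fin 3, if E (cN p f) (cV p u.1) (cV p u.2) i then Real.log (2 / 3) else 0) +
      (∑ j : Fin 2, if Dc (cV p u.1) (cV p u.2) j = 0 then Real.log 2 else 0) =
      Real.log (2 / 3) := by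
    intro i hi
    rw [SB_sum1 (fun i => E (cN p f) (cV p u.1) (cV p u.2) i) _ i hi hT.1,
      SB_sum0 (fun j => Dc (cV p u.1) (cV p u.2) j = 0) _ (fun j hj => hT.2.1 i j ⟨hj, hi⟩),
      add_zero]
  rcases DE_inv A p hT with ⟨i, h1, h2, h3⟩ | ⟨i, h1, h2, h3⟩ | ⟨j, h1, h3⟩ | ⟨h1, h3⟩
  · rw [h3, hE i h1]
    rfl
  · rw [h3, hE i h1]
    rfl
  · rw [h3, SB_sum0 (fun i => E (cN p f) (cV p u.1) (cV p u.2) i) _
      (fun i hi => hT.2.1 i j ⟨h1, hi⟩), zero_add,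
      SB_sum1 (fun j => Dc (cV p u.1) (cV p u.2) j = 0) _ j h1]
    · rfl
    · intro a b hab h4
      rcases DE_two a b hab with ⟨rfl, rfl⟩ | ⟨rfl, rfl⟩
      · exact hT.2.2.1 h4
      · exact hT.2.2.1 h4.symm
  · rw [h3, SB_sum0 (fun i => E (cN p f) (cV p u.1) (cV p u.2) i) _
      (fun i hi => h1 (Or.inl ⟨i, hi⟩)), zero_add,
      SB_sum0 (fun j => Dc (cV p u.1) (cV p u.2) j = 0) _ (fun j hj => h1 (Or.inr ⟨j, hj⟩))]
    exact Real.log_one

theorem SB_log32 : Real.log (3 / 2) ≤ 4057 / 10000 := by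
  rw [Real.log_le_iff_le_exp (by norm_num)]
  have h := Real.sum_le_exp_of_nonneg (x := 4057 / 10000) (by norm_num) 5
  refine le_trans ?_ h
  norm_num [Finset.sum_range_succ, Nat.factorial]

theorem SB_yw_pos (l : Lab) : 0 < yw l := by
  cases l <;> norm_num [yw]

/-- the weights. Proof. Let `S = ∑ 1/p`. The number of `p ∈ Q` with label `A i` or `B i` is `nE Q i ≤ 101/100 S`, the number with label `C j` is `nD Q j ≥ 99/100 S` (`TypP` on `Q`). So the product is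
`(2/3)^(nE 0 + nE 1 + nE 2) 2^(nD 0 + nD 1) ≥ exp(- 3.03 S log(3/2) + 1.98 S log 2) ≥ exp(143/1000 S)`, since `1.98 log 2 - 3.03 log(3/2) ≥ 1.98 · 0.6931 - 3.03 · 0.40547 > 0.143`
(`Real.log_two_gt_d9`; `log(3/2) ≤ 0.40547`: e.g. `Real.log 3 ≤ 1.0986123`, prove `log(3/2) < 0.40547` by `Real.log_le_sub_one_of_pos`-type bounds for `(3/2)/exp(0.4054..)`, or by `Real.log_div_le_sum_range_add`/`abs_log_sub_add_sum_range_le`). -/
theorem weight_le {m P0 z0 : ℕ} {f : Vn m} {u : V × V} (A : Dat z0 f u) (hT : ∀ p ∈ PQ P0 z0, TypP p f u)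
    (h1 : ∀ i, (nE (PQ P0 z0) i f u : ℝ) ≤ 101 / 100 * ∑ p ∈ PQ P0 z0, 1 / (p : ℝ))
    (h2 : ∀ j, 99 / 100 * ∑ p ∈ PQ P0 z0, 1 / (p : ℝ) ≤ (nD (PQ P0 z0) j u : ℝ)) :
    Real.exp (143 / 1000 * ∑ p ∈ PQ P0 z0, 1 / (p : ℝ)) ≤ ∏ p ∈ PQ P0 z0, yw (lamD A p) := by
  have hpos : 0 < ∏ p ∈ PQ P0 z0, yw (lamD A p) := Finset.prod_pos fun p _ => SB_yw_pos _
  rw [← Real.exp_log hpos, Real.exp_le_exp, Real.log_prod (fun p _ => (SB_yw_pos _).ne')]
  have hS : 0 ≤ ∑ p ∈ PQ P0 z0, 1 / (p : ℝ) := Finset.sum_nonneg fun p _ => by positivity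
  have h3 : ∑ p ∈ PQ P0 z0, Real.log (yw (lamD A p)) =
      (∑ i : Fin 3, (nE (PQ P0 z0) i f u : ℝ) * Real.log (2 / 3)) +
      ∑ j : Fin 2, (nD (PQ P0 z0) j u : ℝ) * Real.log 2 := by
    rw [Finset.sum_congr rfl fun p hp => SB_log A p (hT p hp), Finset.sum_add_distrib,
      Finset.sum_comm, Finset.sum_comm (s := PQ P0 z0) (t := (Finset.univ : Finset (Fin 2)))]
    congr 1
    · refine Finset.sum_congr rfl fun i _ => ?_
      rw [← Finset.sum_filter, Finset.sum_const, nsmul_eq_mul]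
      rfl
    · refine Finset.sum_congr rfl fun i _ => ?_
      rw [← Finset.sum_filter, Finset.sum_const, nsmul_eq_mul]
      rfl
  rw [h3, Fin.sum_univ_three, Fin.sum_univ_two]
  have h4 : Real.log (2 / 3) = - Real.log (3 / 2) := by
    rw [← Real.log_inv]
    norm_num
  have h5 : 0 ≤ Real.log (3 / 2) := Real.log_nonneg (by norm_num)
  have h6 := SB_log32
  have h7 := Real.log_two_gt_d9
  have a0 := mul_le_mul_of_nonneg_right (h1 0) h5
  have a1 := mul_le_mul_of_nonneg_right (h1 1) h5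
  have a2 := mul_le_mul_of_nonneg_right (h1 2) h5
  have a3 : 0 ≤ Real.log 2 := by linarith
  have b0 := mul_le_mul_of_nonneg_right (h2 0) a3
  have b1 := mul_le_mul_of_nonneg_right (h2 1) a3
  have c1 : (∑ p ∈ PQ P0 z0, 1 / (p : ℝ)) * Real.log (3 / 2) ≤
      (∑ p ∈ PQ P0 z0, 1 / (p : ℝ)) * (4057 / 10000) := mul_le_mul_of_nonneg_left h6 hS
  have c2 : (∑ p ∈ PQ P0 z0, 1 / (p : ℝ)) * 0.6931471803 ≤
      (∑ p ∈ PQ P0 z0, 1 / (p : ℝ)) * Real.log 2 := mul_le_mul_of_nonneg_left h7.le hS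
  rw [h4]
  nlinarith [a0, a1, a2, b0, b1, c1, c2, hS]

end FQQ
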