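import Pool.Agent.Lib.MP_10e784_agF.SB

/-! JOB SC -/

set_option autoImplicit false

open Classical

namespace FQQ

open Finset Polynomial FGO

private theorem SC_evn_congr {m : ℕ} (f : Vn m) {d x y : ℤ} (h : d ∣ x - y) : d ∣ evn f x - evn f y := by
  unfold evn
  rw [← Finset.sum_sub_distrib]
  refine Finset.dvd_sum fun i _ => ?_
  rw [← mul_sub]
  exact ((h.trans (sub_dvd_pow_sub_pow x y _))).mul_left _

private theorem SC_ev_congr (v : V) {d x y : ℤ} (h : d ∣ x - y) : d ∣ ev v x - ev v y := by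
  unfold ev
  have e : v.1 * x ^ 2 + v.2.1 * x + v.2.2 - (v.1 * y ^ 2 + v.2.1 * y + v.2.2) =
      (x - y) * (v.1 * (x + y) + v.2.1) := by ring
  rw [e]
  exact h.mul_right _

private theorem SC_of_sub {d a b : ℤ} (h1 : d ∣ a - b) (h2 : d ∣ b) : d ∣ a := by
  have h3 := dvd_add h1 h2
  rwa [sub_add_cancel] at h3

private theorem SC_crt {D1 D2 : ℕ} (h1 : 0 < D1) (h2 : 0 < D2) (hc : D1.Coprime D2) (r1 r2 : ℤ) :
    ∃ r : ℕ, r < D1 * D2 ∧ (D1 : ℤ) ∣ (r : ℤ) - r1 ∧ (D2 : ℤ) ∣ (r : ℤ) - r2 := by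
  obtain ⟨a, b, hab⟩ := (Nat.isCoprime_iff_coprime.2 hc : IsCoprime (D1 : ℤ) (D2 : ℤ))
  have hpos : (0 : ℤ) < (D1 : ℤ) * (D2 : ℤ) := by positivity
  obtain ⟨R, hR⟩ : ∃ R : ℤ, R = r1 * (b * D2) + r2 * (a * D1) := ⟨_, rfl⟩
  obtain ⟨r, hr⟩ : ∃ r : ℤ, r = R % ((D1 : ℤ) * (D2 : ℤ)) := ⟨_, rfl⟩
  have hr0 : 0 ≤ r := by
    rw [hr]
    exact Int.emod_nonneg _ hpos.ne'
  have hr1 : r < (D1 : ℤ) * (D2 : ℤ) := by
    rw [hr]
    exact Int.emod_lt_of_pos _ hpos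
  have hrR : ((D1 : ℤ) * (D2 : ℤ)) ∣ r - R := by
    rw [hr, ← dvd_neg, neg_sub]
    exact Int.dvd_self_sub_emod
  refine ⟨r.toNat, ?_, ?_, ?_⟩
  · have : ((r.toNat : ℕ) : ℤ) < ((D1 * D2 : ℕ) : ℤ) := by
      rw [Int.toNat_of_nonneg hr0]
      push_cast
      exact hr1
    exact_mod_cast this
  · rw [Int.toNat_of_nonneg hr0]
    have h3 : (D1 : ℤ) ∣ r - R := (dvd_mul_right _ _).trans hrR
    have h4 : (D1 : ℤ) ∣ R - r1 := by
      refine ⟨a * (r2 - r1), ?_⟩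
      have : b * (D2 : ℤ) = 1 - a * D1 := by linarith
      rw [hR, this]
      ring
    have h5 := dvd_add h3 h4
    rwa [sub_add_sub_cancel] at h5
  · rw [Int.toNat_of_nonneg hr0]
    have h3 : (D2 : ℤ) ∣ r - R := (dvd_mul_left _ _).trans hrR
    have h4 : (D2 : ℤ) ∣ R - r2 := by
      refine ⟨b * (r1 - r2), ?_⟩
      have : a * (D1 : ℤ) = 1 - b * D2 := by linarith
      rw [hR, this]
      ring
    have h5 := dvd_add h3 h4
    rwa [sub_add_sub_cancel] at h5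

/-- (structure theorem) Proof. `not_sq_of_typ`, `R_ne_of_typ`, `exists_dat` (with `z0`) give `A`. `τ = A.τ`, `t = A.t`, `κ i = spart P0 (s i)`, `lam = lamD A`, `D i = rpart z0 (s i)`. `s_eq` shows `Up Q τ t κ lam D i = τ i ∏_{j ≠ i} s j`, so the
last part of `Str` is `ev_lamD` (`p ∈ Q` prime). `κ i ∣ primorial P0` (`spart_dvd`). `D i` is squarefree with prime factors `> z0` (`rpart_spec`), all of them divide `Rv i` (`pR`); `(D i)² ≤ |Rv i|` (`sz`), so `D 0 ∈ DR z0 (3N²)`,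
`D 1, D 2 ∈ DR z0 PM` (`le_3N2`, `le_PM`; `Rv 0 = rs`, `Rv 1 = Rs f w`, `Rv 2 = Rs f v`).
`D 0`: squarefree and all primes divide `rs`, so `D 0 ∣ rs = res` (`D` squarefree: `UniqueFactorizationMonoid`), `FGO.common_root` (the hypothesis on the primes `p > z0 ≥ P0` is `¬ Exc2 P0 u`, `res ≠ 0`) gives `r0` with `Lam`; `Good` by `¬ Exc3 N q0 u`.
`D 1`, `D 2`: for a prime `p ∣ D 2`: `p > z0`, `p ≤ D 2 ≤ PM`, `p ∣ Rs f v`: `Rough` gives `p ∤ v.1`, `Pq ∤ Pf`: `common_rootF` gives `r2` with `D 2 ∣ evn f r2, ev v r2`; the same for `D 1` and `w`: `r1`. `D 1`, `D 2` are coprime (`Rough`: no prime divides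
both `Rs f v` and `Rs f w`), and coprime to `rs` (`Rough`, last part). CRT: `r ≡ r1 mod D 1`, `r ≡ r2 mod D 2`, `0 ≤ r < D 1 D 2` (natural number): `r ∈ RS`, `D 1 D 2 ∣ evn f r` (coprime). `GoodN` because `¬ ExcF`. -/
theorem structure3 {m H N P0 z0 q0 q1 : ℕ} (hm : 1 ≤ m) (hme : Even m) (hPz : P0 ≤ z0) (f : Vn m) (u : V × V)
    (hf : f ∈ boxN m H) (hu : u ∈ box2 N) (hT : Typical H N P0 z0 q0 q1 f u)
    (hS : 0 < ∑ p ∈ PQ P0 z0, 1 / (p : ℝ)) (h : Sel f u) :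
    ∃ (τ : Fin 3 → ℤ) (t : Fin 3 → Bool) (κ : Fin 3 → ℕ) (lam : ℕ → Lab) (D : Fin 3 → ℕ),
      (∀ i, τ i = 1 ∨ τ i = -1) ∧ (∀ i, κ i ∣ primorial P0) ∧ D 0 ∈ DR z0 (3 * N ^ 2) ∧ D 1 ∈ DR z0 (PM m H N) ∧
      D 2 ∈ DR z0 (PM m H N) ∧ (D 1).Coprime (D 2) ∧
      ∏ p ∈ (PQ P0 z0).filter (fun p => lam p ≠ Lab.O), p ≤ q1 ∧
      Real.exp (143 / 1000 * ∑ p ∈ PQ P0 z0, 1 / (p : ℝ)) ≤ ∏ p ∈ PQ P0 z0, yw (lam p) ∧
      Str H N q0 (PQ P0 z0) τ t κ lam D f u := by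
  have hT' := hT
  obtain ⟨hTyp, hnE, hnD, hLpr, hRough, hE2, hE3, hEF⟩ := hT'
  obtain ⟨hsq1, hsq2⟩ := not_sq_of_typ hT hS
  have hR := R_ne_of_typ hT hS
  obtain ⟨A⟩ := exists_dat hm hme z0 f u h hR
  have hu' := hu
  unfold box2 at hu'
  rw [Finset.mem_product] at hu'
  obtain ⟨hu1, hu2⟩ := hu'
  obtain ⟨D, hD⟩ : ∃ D : Fin 3 → ℕ, D = fun i => rpart z0 (A.s i) := ⟨_, rfl⟩
  have hDi : ∀ i, D i = rpart z0 (A.s i) := fun i => by rw [hD]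
  have hDsq : ∀ i, Squarefree (D i) := fun i => by
    rw [hDi]
    exact (rpart_spec z0 (A.s i)).1
  have hDpos : ∀ i, 0 < D i := fun i => by
    rw [hDi]
    exact (rpart_spec z0 (A.s i)).2.1
  have hDp : ∀ (i : Fin 3) (p : ℕ), p.Prime → p ∣ D i → z0 < p ∧ (p : ℤ) ∣ Rv f u.1 u.2 i := by
    intro i p hp hpd
    rw [hDi] at hpd
    have h1 := ((rpart_spec z0 (A.s i)).2.2.1 p hp).1 hpd
    exact ⟨h1.2, A.pR i p hp (Nat.dvd_of_mem_primeFactors h1.1)⟩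
  have hDR : ∀ i, D i ^ 2 ≤ (Rv f u.1 u.2 i).natAbs := fun i => by
    rw [hDi]
    exact A.sz i
  have hD0le : D 0 ≤ 3 * N ^ 2 := le_3N2 u hu (hDR 0)
  have hD1le : D 1 ≤ PM m H N := le_PM hme f u.2 hf hu2 (hDR 1)
  have hD2le : D 2 ≤ PM m H N := le_PM hme f u.1 hf hu1 (hDR 2)
  have hp1 : ∀ p : ℕ, p.Prime → p ∣ D 1 → z0 < p ∧ p ≤ PM m H N ∧ (p : ℤ) ∣ Rs f u.2 := fun p hp hpd =>
    ⟨(hDp 1 p hp hpd).1, (Nat.le_of_dvd (hDpos 1) hpd).trans hD1le, (hDp 1 p hp hpd).2⟩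
  have hp2 : ∀ p : ℕ, p.Prime → p ∣ D 2 → z0 < p ∧ p ≤ PM m H N ∧ (p : ℤ) ∣ Rs f u.1 := fun p hp hpd =>
    ⟨(hDp 2 p hp hpd).1, (Nat.le_of_dvd (hDpos 2) hpd).trans hD2le, (hDp 2 p hp hpd).2⟩
  have hcop : (D 1).Coprime (D 2) := by
    refine Nat.Coprime.symm (Nat.coprime_of_dvd fun p hp h2 h1 => ?_)
    obtain ⟨a1, a2, a3⟩ := hp1 p hp h1
    obtain ⟨-, -, b3⟩ := hp2 p hp h2
    exact ((hRough p hp a1).1 a2).2.2 ⟨b3, a3⟩
  have hcopR : (D 1 * D 2).Coprime (rs u.1 u.2).natAbs := by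
    refine Nat.coprime_of_dvd fun p hp h1 h2 => ?_
    have h3 : (p : ℤ) ∣ rs u.1 u.2 := Int.natCast_dvd.2 h2
    rcases (Nat.Prime.dvd_mul hp).1 h1 with h4 | h4
    · obtain ⟨a1, -, a3⟩ := hp1 p hp h4
      exact ((hRough p hp a1).2 h3).2 a3
    · obtain ⟨a1, -, a3⟩ := hp2 p hp h4
      exact ((hRough p hp a1).2 h3).1 a3
  refine ⟨A.τ, A.t, fun i => spart P0 (A.s i), lamD A, D, A.sg, fun i => spart_dvd P0 _, ?_, ?_, ?_, hcop, ?_,
    weight_le A hTyp hnE hnD, ?_⟩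
  · unfold DR
    rw [Finset.mem_filter, Finset.mem_Icc]
    exact ⟨⟨hDpos 0, hD0le⟩, hDsq 0, fun p hp hpd => (hDp 0 p hp hpd).1⟩
  · unfold DR
    rw [Finset.mem_filter, Finset.mem_Icc]
    exact ⟨⟨hDpos 1, hD1le⟩, hDsq 1, fun p hp hpd => (hDp 1 p hp hpd).1⟩
  · unfold DR
    rw [Finset.mem_filter, Finset.mem_Icc]
    exact ⟨⟨hDpos 2, hD2le⟩, hDsq 2, fun p hp hpd => (hDp 2 p hp hpd).1⟩
  · exact le_of_eq_of_le (lab_prod A hTyp) hLpr
  · refine ⟨?_, ⟨?_, ?_⟩, ?_, ?_⟩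
    · -- the common root of the two quadratic forms
      have hres : res u.1 u.2 ≠ 0 := hR 0
      have hdv : ((D 0 : ℕ) : ℤ) ∣ res u.1 u.2 := by
        rw [Int.natCast_dvd, hDi 0]
        unfold rpart
        refine Finset.prod_primes_dvd _ ?_ ?_
        · intro p hp
          rw [Finset.mem_filter] at hp
          exact (Nat.prime_of_mem_primeFactors hp.1).prime
        · intro p hp
          rw [Finset.mem_filter] at hp
          have h1 := A.pR 0 p (Nat.prime_of_mem_primeFactors hp.1) (Nat.dvd_of_mem_primeFactors hp.1)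
          exact Int.natCast_dvd.1 h1
      obtain ⟨r, hr, hr1, hr2⟩ := common_root (D 0) (hDpos 0) u.1 u.2 hdv (by
        intro p hp hpd
        have h1 := (hDp 0 p hp hpd).1
        constructor
        · intro h2
          exact hE2 ⟨hres, p, hp, by omega, Or.inl h2⟩
        · intro h2
          exact hE2 ⟨hres, p, hp, by omega, Or.inr h2⟩)
      refine ⟨r, hr, ?_, hr1, hr2⟩
      by_contra hcon
      exact hE3 ⟨hres, D 0, hDpos 0, hD0le, (r : ℤ), hr1, hr2, hcon⟩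
    · intro p hp hpd
      obtain ⟨a1, a2, a3⟩ := hp1 p hp hpd
      exact (((hRough p hp a1).1 a2).2.1 a3).1
    · intro p hp hpd
      obtain ⟨a1, a2, a3⟩ := hp2 p hp hpd
      exact (((hRough p hp a1).1 a2).1 a3).1
    · obtain ⟨r1, e1, e2⟩ := common_rootF hm (hDsq 1) f u.2 (fun p hp hpd => by
        obtain ⟨a1, a2, a3⟩ := hp1 p hp hpd
        have h1 := ((hRough p hp a1).1 a2).2.1 a3
        exact ⟨a3, h1.1, h1.2⟩)
      obtain ⟨r2, e3, e4⟩ := common_rootF hm (hDsq 2) f u.1 (fun p hp hpd => by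
        obtain ⟨a1, a2, a3⟩ := hp2 p hp hpd
        have h1 := ((hRough p hp a1).1 a2).1 a3
        exact ⟨a3, h1.1, h1.2⟩)
      obtain ⟨r, hr, g1, g2⟩ := SC_crt (hDpos 1) (hDpos 2) hcop r1 r2
      have k1 : (D 1 : ℤ) ∣ ev u.2 (r : ℤ) := SC_of_sub (SC_ev_congr u.2 g1) e2
      have k2 : (D 2 : ℤ) ∣ ev u.1 (r : ℤ) := SC_of_sub (SC_ev_congr u.1 g2) e4
      have k3 : (D 1 : ℤ) ∣ evn f (r : ℤ) := SC_of_sub (SC_evn_congr f g1) e1
      have k4 : (D 2 : ℤ) ∣ evn f (r : ℤ) := SC_of_sub (SC_evn_congr f g2) e3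
      have k5 : ((D 1 * D 2 : ℕ) : ℤ) ∣ evn f (r : ℤ) := by
        push_cast
        exact (Nat.isCoprime_iff_coprime.2 hcop).mul_dvd k3 k4
      refine ⟨r, ?_, k5, ?_⟩
      · unfold RS
        rw [Finset.mem_filter, Finset.mem_range]
        exact ⟨hr, k1, k2⟩
      · by_contra hcon
        exact hEF ⟨D 1, D 2, (r : ℤ), hDsq 1, hDsq 2, hDpos 1, hDpos 2, hD1le, hD2le, hcop, hcopR, k1, k2, k5, hcon⟩
    · intro p hp
      have hpp : p.Prime := by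
        unfold PQ at hp
        rw [Finset.mem_filter] at hp
        exact hp.2
      have h1 := ev_lamD hm A p hpp (hTyp p hp)
      have h2 : ∀ i, Up (PQ P0 z0) A.τ A.t (fun i => spart P0 (A.s i)) (lamD A) D i =
          A.τ i * ∏ j ∈ univ.erase i, (A.s j : ℤ) := by
        intro i
        unfold Up
        congr 1
        refine Finset.prod_congr rfl fun j _ => ?_
        rw [hDi j]
        exact congrArg _ (s_eq hm hPz A hTyp j).symm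
      simp only [h2]
      exact h1

end FQQ
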