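import Pool.Agent.Lib.MP_10e784_agF.D3

/-! JOB UA -/

set_option autoImplicit false

open Classical

namespace FQQ

open Finset Polynomial FGO

theorem UA_dvd_iff (p : ℕ) [Fact p.Prime] (v : V) (r : ℕ) :
    (p : ℤ) ∣ ev v (r : ℤ) ↔ (Pq (cV p v)).eval (r : ZMod p) = 0 := by
  rw [← ZMod.intCast_zmod_eq_zero_iff_dvd, ev_eq, qv_cast, eval_Pq]
  simp

theorem UA_coeff {F : Type} [CommRing F] (v : F × F × F) : (Pq v).coeff 2 = v.1 := by
  unfold Pq
  simp

theorem UA_card2 (p : ℕ) [hp : Fact p.Prime] (v : V) (hv : ¬ (p : ℤ) ∣ v.1) :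
    ((range p).filter fun r : ℕ => (p : ℤ) ∣ ev v (r : ℤ)).card ≤ 2 := by
  have h0 : Pq (cV p v) ≠ 0 := by
    intro h
    apply hv
    rw [← ZMod.intCast_zmod_eq_zero_iff_dvd]
    have h1 : (Pq (cV p v)).coeff 2 = (v.1 : ZMod p) := UA_coeff _
    rw [← h1, h, coeff_zero]
  have h1 : ((range p).filter fun r : ℕ => (p : ℤ) ∣ ev v (r : ℤ)).card ≤
      (Pq (cV p v)).roots.toFinset.card := by
    apply Finset.card_le_card_of_injOn (fun r : ℕ => (r : ZMod p))
    · intro r hr
      rw [Finset.mem_coe, Finset.mem_filter] at hr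
      rw [Finset.mem_coe, Multiset.mem_toFinset, mem_roots h0, IsRoot.def]
      exact (UA_dvd_iff p v r).1 hr.2
    · intro r hr s hs hrs
      rw [Finset.mem_coe, Finset.mem_filter, Finset.mem_range] at hr hs
      simp only at hrs
      have h2 := (ZMod.natCast_eq_natCast_iff' r s p).1 hrs
      rwa [Nat.mod_eq_of_lt hr.1, Nat.mod_eq_of_lt hs.1] at h2
  refine h1.trans ((Multiset.toFinset_card_le _).trans ((card_roots' _).trans (natDegree_Pq _)))

/-- Proof. `r ↦` the pairs of residues: `D1`, `D2` coprime, so `r` is determined by `r mod D1` and `r mod D2`, and (squarefree) by its residues modulo the primes `p ∣ D1 D2`. For `p ∣ D1` the residue is a root of the quadratic polynomial of `u.2` modulo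
`p`, whose leading coefficient is a unit: at most `2` roots (`Polynomial.card_roots'`, or: two roots `r ≠ s` determine the third by the sum of the roots); the same for `p ∣ D2` and `u.1`. (Injection into `∏_p (roots modulo p)`, or induction over
the prime factors: lemma for one modulus `D`: `#{r < D : D ∣ ev v r} ≤ 2^ω(D)`, and CRT.) -/
theorem card_RS {D1 D2 : ℕ} (h1 : Squarefree D1) (h2 : Squarefree D2) (hc : D1.Coprime D2) (u : V × V)
    (hu2 : ∀ p : ℕ, p.Prime → p ∣ D1 → ¬ (p : ℤ) ∣ u.2.1) (hu1 : ∀ p : ℕ, p.Prime → p ∣ D2 → ¬ (p : ℤ) ∣ u.1.1) :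
    (RS D1 D2 u).card ≤ 2 ^ D1.primeFactors.card * 2 ^ D2.primeFactors.card := by
  set T := D1.primeFactors ∪ D2.primeFactors with hT
  let A : ℕ → Finset ℕ := fun p => if p ∈ D1.primeFactors then
    (range p).filter fun r : ℕ => (p : ℤ) ∣ ev u.2 (r : ℤ) else
    (range p).filter fun r : ℕ => (p : ℤ) ∣ ev u.1 (r : ℤ)
  have hA : ∀ p ∈ T, (A p).card ≤ 2 := by
    intro p hp
    simp only [A]
    split_ifs with hp1
    · have : Fact p.Prime := ⟨Nat.prime_of_mem_primeFactors hp1⟩
      exact UA_card2 p u.2 (hu2 p (Nat.prime_of_mem_primeFactors hp1)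
        (Nat.dvd_of_mem_primeFactors hp1))
    · rw [hT, Finset.mem_union] at hp
      have hp2 := hp.resolve_left hp1
      have : Fact p.Prime := ⟨Nat.prime_of_mem_primeFactors hp2⟩
      exact UA_card2 p u.1 (hu1 p (Nat.prime_of_mem_primeFactors hp2)
        (Nat.dvd_of_mem_primeFactors hp2))
  have hmod : ∀ (p : ℕ) (v : V) (r : ℕ), p.Prime → (p : ℤ) ∣ ev v (r : ℤ) →
      (p : ℤ) ∣ ev v ((r % p : ℕ) : ℤ) := by
    intro p v r hp h
    have : Fact p.Prime := ⟨hp⟩
    rw [UA_dvd_iff] at h ⊢
    rwa [ZMod.natCast_mod]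
  have hinj : (RS D1 D2 u).card ≤ (T.pi A).card := by
    apply Finset.card_le_card_of_injOn (fun r => fun p (_ : p ∈ T) => r % p)
    · intro r hr
      rw [Finset.mem_coe, RS, Finset.mem_filter] at hr
      rw [Finset.mem_coe, Finset.mem_pi]
      intro p hp
      simp only [A]
      split_ifs with hp1
      · have hpp := Nat.prime_of_mem_primeFactors hp1
        rw [Finset.mem_filter, Finset.mem_range]
        refine ⟨Nat.mod_lt _ hpp.pos, hmod p _ r hpp (dvd_trans ?_ hr.2.1)⟩
        exact_mod_cast Nat.dvd_of_mem_primeFactors hp1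
      · rw [hT, Finset.mem_union] at hp
        have hp2 := hp.resolve_left hp1
        have hpp := Nat.prime_of_mem_primeFactors hp2
        rw [Finset.mem_filter, Finset.mem_range]
        refine ⟨Nat.mod_lt _ hpp.pos, hmod p _ r hpp (dvd_trans ?_ hr.2.2)⟩
        exact_mod_cast Nat.dvd_of_mem_primeFactors hp2
    · intro r hr s hs hrs
      rw [Finset.mem_coe, RS, Finset.mem_filter, Finset.mem_range] at hr hs
      have h3 : ∀ p ∈ T, r % p = s % p := fun p hp => congrFun (congrFun hrs p) hp
      set n := ((r : ℤ) - s).natAbs with hn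
      have h4 : ∀ p ∈ T, p ∣ n := by
        intro p hp
        rw [hn, ← Int.natCast_dvd]
        have h5 : s ≡ r [MOD p] := (h3 p hp).symm
        exact (Nat.modEq_iff_dvd).1 h5
      have h5 : D1 ∣ n := by
        rw [← Nat.prod_primeFactors_of_squarefree h1]
        refine Finset.prod_primes_dvd n (fun p hp => (Nat.prime_of_mem_primeFactors hp).prime)
          fun p hp => h4 p (Finset.mem_union_left _ hp)
      have h6 : D2 ∣ n := by
        rw [← Nat.prod_primeFactors_of_squarefree h2]
        refine Finset.prod_primes_dvd n (fun p hp => (Nat.prime_of_mem_primeFactors hp).prime)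
          fun p hp => h4 p (Finset.mem_union_right _ hp)
      have h7 : D1 * D2 ∣ n := hc.mul_dvd_of_dvd_of_dvd h5 h6
      have h8 : n < D1 * D2 := by
        have := hr.1
        have := hs.1
        omega
      have h9 : n = 0 := Nat.eq_zero_of_dvd_of_lt h7 h8
      omega
  refine hinj.trans ?_
  rw [Finset.card_pi]
  refine (Finset.prod_le_prod' hA).trans ?_
  rw [Finset.prod_const, ← pow_add]
  exact Nat.pow_le_pow_right (by norm_num) (Finset.card_union_le _ _)

end FQQ
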