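import Pool.Agent.Lib.MP_10e784_agF.UB
import Pool.Agent.Lib.MP_10e784_agF.KP1

/-! JOB UC -/

set_option autoImplicit false

open Classical

namespace FQQ

open Finset Polynomial FGO

/-- (second stage) Proof. `FF = φ ∏_{lam = O} (1 - x p u) + φ TT` with `φ u = ∏_{lam ≠ O} ExN (gp .. u) ≥ 0`, `x p u = ExN (xo p · u) ∈ [0, 1]`, periodic modulo `p` (`Per3.right`). First term: `sieveB` with `G = ∏_{lam ≠ O} p`,
`Ex p (x p) = E3 m p (xo p) ≤ 6/p` (`E3_xo`), `B = 6 ∑ 1/p`, `Ex G φ = ∏ E3 m p (gp ..) ≤ ∏ eb` (`Ex_prod1`, `E3_gp`), `0 ≤ 1 - Ex p (x p) ≤ 1 - dn5 p`. Second term: `sieveB` with the empty set `Q := ∅` (the product is `1`, `B = 0`),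
giving `TT * (8N)^6/δ² * ∏ eb`. Sum: factor `∏ (1 - dn5) + TT + TT`. -/
theorem stageU {m N δ q0 q1 k : ℕ} (hm : 1 ≤ m) (hme : Even m) (hN : 0 < N) (hδ : 0 < δ) (Q : Finset ℕ)
    (hQ : ∀ p ∈ Q, p.Prime ∧ p ≠ 2 ∧ ¬ p ∣ δ)
    (hk : ∀ D ⊆ Q, D.card ≤ 2 * k → q1 * ∏ p ∈ D, p ≤ q0) (t : Fin 3 → Bool) (U : Fin 3 → ℤ) (lam : ℕ → Lab)
    (hq1 : ∏ p ∈ Q.filter (fun p => lam p ≠ Lab.O), p ≤ q1) (r : ℤ) (hG : Good N q0 δ r) :
    ∑ u ∈ (box2 N).filter (Lam δ r), FF (m := m) Q k t U lam u ≤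
      (8 * (N : ℝ)) ^ 6 / (δ : ℝ) ^ 2 * ((∏ p ∈ Q.filter (fun p => lam p ≠ Lab.O), eb (lam p) p) *
        (∏ p ∈ Q.filter (fun p => lam p = Lab.O), (1 - dn5 p) + 2 * TT Q k)) := by
  obtain ⟨Qn, hQn⟩ : ∃ Qn, Qn = Q.filter (fun p => lam p ≠ Lab.O) := ⟨_, rfl⟩
  obtain ⟨Qo, hQo⟩ : ∃ Qo, Qo = Q.filter (fun p => lam p = Lab.O) := ⟨_, rfl⟩
  have hnQ : ∀ p ∈ Qn, p ∈ Q ∧ lam p ≠ Lab.O := fun p hp => by
    rw [hQn] at hp
    exact mem_filter.1 hp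
  have hoQ : ∀ p ∈ Qo, p ∈ Q ∧ lam p = Lab.O := fun p hp => by
    rw [hQo] at hp
    exact mem_filter.1 hp
  obtain ⟨G, hGd⟩ : ∃ G : ℕ, G = ∏ p ∈ Qn, p := ⟨_, rfl⟩
  obtain ⟨y, hy⟩ : ∃ y : ℕ → V × V → ℝ, y = fun p u => ExN m p fun f => gp t U (lam p) p f u := ⟨_, rfl⟩
  obtain ⟨x, hx⟩ : ∃ x : ℕ → V × V → ℝ, x = fun p u => ExN m p fun f => xo p f u := ⟨_, rfl⟩
  obtain ⟨φ, hφ⟩ : ∃ φ : V × V → ℝ, φ = fun u => ∏ p ∈ Qn, y p u := ⟨_, rfl⟩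
  have hyP : ∀ p, Per p (y p) := by
    intro p
    rw [hy]
    exact (Per3_gp (m := m) p t U (lam p)).right
  have hxP : ∀ p, Per p (x p) := by
    intro p
    rw [hx]
    exact (Per3_xo (m := m) p).right
  have hy0 : ∀ p u, 0 ≤ y p u := by
    intro p u
    rw [hy]
    exact ExN_nonneg m p _ fun f => (gp_nonneg p t U (lam p) f u).1
  have hx0 : ∀ p u, 0 ≤ x p u := by
    intro p u
    rw [hx]
    exact ExN_nonneg m p _ fun f => (xo_nonneg p f u).1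
  have hx1 : ∀ p ∈ Q, ∀ u, x p u ≤ 1 := by
    intro p hp u
    rw [hx]
    exact ExN_le_one (hQ p hp).1.pos _ fun f => (xo_nonneg p f u).2
  have hφ0 : ∀ u, 0 ≤ φ u := by
    intro u
    rw [hφ]
    exact prod_nonneg fun p _ => hy0 p u
  obtain ⟨hPφ, hEφ⟩ := Ex_prod1 Qn (fun p hp => (hQ p (hnQ p hp).1).1) y (fun p _ => hyP p)
  rw [← hGd, ← hφ] at hPφ hEφ
  have hyE : ∀ p, Ex p (y p) = E3 m p (gp t U (lam p) p) := by
    intro p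
    rw [hy]
    rfl
  have hxE : ∀ p, Ex p (x p) = E3 m p (xo p) := by
    intro p
    rw [hx]
    rfl
  have hxE0 : ∀ p ∈ Q, Ex p (x p) ≤ 1 := by
    intro p hp
    rw [hxE]
    have h1 := E3_mono m p (xo p) (fun _ _ => 1) fun f u => (xo_nonneg p f u).2
    rwa [E3_const (hQ p hp).1.pos] at h1
  have hyE0 : ∀ p ∈ Q, 0 ≤ Ex p (y p) := by
    intro p hp
    rw [hyE]
    have h1 := E3_mono m p (fun _ _ => 0) (gp t U (lam p) p) fun f u => (gp_nonneg p t U (lam p) f u).1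
    rwa [E3_const (hQ p hp).1.pos] at h1
  have hEle : Ex G φ ≤ ∏ p ∈ Qn, eb (lam p) p := by
    rw [hEφ]
    refine prod_le_prod (fun p hp => hyE0 p (hnQ p hp).1) fun p hp => ?_
    rw [hyE]
    exact E3_gp hm hme p (hQ p (hnQ p hp).1).1 (hQ p (hnQ p hp).1).2.1 t U (lam p)
  have hE0 : 0 ≤ Ex G φ := by
    rw [hEφ]
    exact prod_nonneg fun p hp => hyE0 p (hnQ p hp).1
  have hG0 : 0 < G := by
    rw [hGd]
    exact prod_pos fun p hp => (hQ p (hnQ p hp).1).1.pos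
  have hδG : δ.Coprime G := by
    rw [hGd]
    exact Nat.Coprime.prod_right fun p hp =>
      ((hQ p (hnQ p hp).1).1.coprime_iff_not_dvd.2 (hQ p (hnQ p hp).1).2.2).symm
  have hGq : G ≤ q1 := by
    rw [hGd, hQn]
    exact hq1
  have hkG : ∀ D ⊆ Q, D.card ≤ 2 * k → G * ∏ p ∈ D, p ≤ q0 := fun D hD hc =>
    (Nat.mul_le_mul_right _ hGq).trans (hk D hD hc)
  have hoG : ∀ p ∈ Qo, p.Prime ∧ ¬ p ∣ δ ∧ ¬ p ∣ G := by
    intro p hp
    obtain ⟨h1, h2⟩ := hoQ p hp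
    refine ⟨(hQ p h1).1, (hQ p h1).2.2, fun h => ?_⟩
    rw [hGd] at h
    obtain ⟨q, hq, hpq⟩ := ((hQ p h1).1.prime.dvd_finsetProd_iff _).1 h
    obtain ⟨h3, h4⟩ := hnQ q hq
    rw [(Nat.prime_dvd_prime_iff_eq (hQ p h1).1 (hQ q h3).1).1 hpq] at h2
    exact h4 h2
  have hoQs : Qo ⊆ Q := fun p hp => (hoQ p hp).1
  -- first term
  have hB : ∑ p ∈ Qo, Ex p (x p) ≤ 6 * ∑ p ∈ Q, 1 / (p : ℝ) := by
    have h1 : ∑ p ∈ Qo, Ex p (x p) ≤ ∑ p ∈ Qo, 6 * (1 / (p : ℝ)) := by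
      refine sum_le_sum fun p hp => ?_
      rw [hxE, mul_one_div]
      exact (E3_xo hm p (hQ p (hoQ p hp).1).1 (hQ p (hoQ p hp).1).2.1).2
    refine h1.trans ?_
    rw [← mul_sum]
    refine mul_le_mul_of_nonneg_left ?_ (by norm_num)
    exact sum_le_sum_of_subset_of_nonneg hoQs fun _ _ _ => by positivity
  have hS1 := sieveB (k := k) hN hδ hG0 Qo hoG hδG (fun D hD hc => hkG D (hD.trans hoQs) hc) hG φ hPφ hφ0 x
    (fun p _ => hxP p) (fun p _ => hx0 p) (fun p hp => hx1 p (hoQs hp)) _ hB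
  have hS2 := sieveB (k := k) hN hδ hG0 ∅ (fun p hp => absurd hp (notMem_empty p)) hδG
    (fun D hD hc => hkG D (hD.trans (empty_subset Q)) hc) hG φ hPφ hφ0 x
    (fun p _ => hxP p) (fun p _ => hx0 p) (fun p hp => absurd hp (notMem_empty p)) 0 (by rw [sum_empty])
  have hT : (6 * ∑ p ∈ Q, 1 / (p : ℝ)) ^ (2 * k + 1) / ((2 * k + 1).factorial : ℝ) = TT Q k := rfl
  rw [hT] at hS1
  rw [prod_empty, zero_pow (by omega), zero_div, add_zero, mul_one] at hS2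
  simp_rw [prod_empty, mul_one] at hS2
  have hTT := TT_nonneg Q k
  -- the product over the unlabelled primes
  have hPr : ∏ p ∈ Qo, (1 - Ex p (x p)) ≤ ∏ p ∈ Qo, (1 - dn5 p) := by
    refine prod_le_prod (fun p hp => ?_) fun p hp => ?_
    · have := hxE0 p (hoQs hp)
      linarith
    · have h1 := (E3_xo hm p (hQ p (hoQs hp)).1 (hQ p (hoQs hp)).2.1).1
      rw [hxE]
      linarith
  have hPr0 : 0 ≤ ∏ p ∈ Qo, (1 - Ex p (x p)) := prod_nonneg fun p hp => by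
    have := hxE0 p (hoQs hp)
    linarith
  have hFF : ∀ u, FF (m := m) Q k t U lam u = φ u * ∏ p ∈ Qo, (1 - x p u) + TT Q k * φ u := by
    intro u
    have h1 : FF (m := m) Q k t U lam u = φ u * (∏ p ∈ Qo, (1 - x p u) + TT Q k) := by
      rw [hφ, hy, hx, hQn, hQo]
      rfl
    rw [h1]
    ring
  rw [sum_congr rfl fun u _ => hFF u, sum_add_distrib, ← mul_sum, ← hQn, ← hQo]
  obtain ⟨C, hC⟩ : ∃ C : ℝ, C = (8 * (N : ℝ)) ^ 6 / (δ : ℝ) ^ 2 := ⟨_, rfl⟩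
  have hC0 : 0 ≤ C := by
    rw [hC]
    positivity
  rw [← hC] at hS1 hS2 ⊢
  have h1 := mul_le_mul_of_nonneg_left hS2 hTT
  have h2 : C * Ex G φ * (∏ p ∈ Qo, (1 - Ex p (x p)) + TT Q k) + TT Q k * (C * Ex G φ) =
      C * (Ex G φ * (∏ p ∈ Qo, (1 - Ex p (x p)) + 2 * TT Q k)) := by ring
  refine (add_le_add hS1 h1).trans ?_
  rw [h2]
  refine mul_le_mul_of_nonneg_left ?_ hC0
  refine mul_le_mul hEle (by linarith) (by linarith) (hE0.trans hEle)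

end FQQ
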