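import Pool.Agent.Lib.MP_10e784_agF.UC
import Pool.Agent.Lib.MP_10e784_agF.UA

/-! JOB UD -/

set_option autoImplicit false

open Classical

namespace FQQ

open Finset Polynomial FGO

/-- the bound for the label function `lam` -/
noncomputable def LB (Q : Finset ℕ) (k : ℕ) (lam : ℕ → Lab) : ℝ :=
  (∏ p ∈ Q.filter (fun p => lam p ≠ Lab.O), eb (lam p) p) *
    (∏ p ∈ Q.filter (fun p => lam p = Lab.O), (1 - dn5 p) + 2 * TT Q k)

private theorem ud_gp {m : ℕ} (Q : Finset ℕ) (t : Fin 3 → Bool) (U : Fin 3 → ℤ) (lam : ℕ → Lab) (f : Vn m) (u : V × V) :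
    0 ≤ ∏ p ∈ Q, gp t U (lam p) p f u := prod_nonneg fun p _ => (gp_nonneg p t U (lam p) f u).1

private theorem ud_one {m : ℕ} {Q : Finset ℕ} {t : Fin 3 → Bool} {U : Fin 3 → ℤ} {lam : ℕ → Lab} {f : Vn m} {u : V × V}
    (h : ∀ p ∈ Q, Ev t (fun i => (U i : ZMod p)) (cN p f) (cV p u.1) (cV p u.2) (lam p)) :
    ∏ p ∈ Q, gp t U (lam p) p f u = 1 := by
  refine prod_eq_one fun p hp => ?_
  unfold gp
  rw [if_pos (h p hp)]

/-- (one structure) Proof. If `Str` holds for `(f, u)` then there are `r0 < D 0` (good, `Lam`), `r ∈ RS (D 1) (D 2) u` (good, `D 1 D 2 ∣ evn f r`) with `∏ p ∈ Q, gp t U (lam p) p f u = 1`, `U = Up Q τ t κ lam D`. So the number is at most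
`∑_{r0 < D 0, good} ∑_{u ∈ box2, Lam} ∑_{r ∈ RS, good} ∑_{f ∈ boxN, D1 D2 ∣ evn f r} ∏ gp`, where `u` runs only over those with the conditions on the leading coefficients. `stageF` (`M = D 1 D 2`; the primes of `Q` are `≤ z0`, those of
`D i` are `> z0`), `card_RS`, `stageU` (`δ = D 0`, all terms `≥ 0`), and the number of `r0` is `D 0`. Total `D 0 · (8H)^(m+1)/(D 1 D 2) · 2^ω(D 1) 2^ω(D 2) · (8N)^6/(D 0)² · LB`. -/
theorem str_card {m H N P0 z0 q0 q1 k P P' : ℕ} (hm : 1 ≤ m) (hme : Even m) (hH : 0 < H) (hN : 0 < N) (hP0 : 2 ≤ P0)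
    (hk : ∀ D ⊆ PQ P0 z0, D.card ≤ 2 * k → q1 * ∏ p ∈ D, p ≤ q0) (τ : Fin 3 → ℤ) (t : Fin 3 → Bool) (κ : Fin 3 → ℕ)
    (lam : ℕ → Lab) (D : Fin 3 → ℕ) (hD0 : D 0 ∈ DR z0 P') (hD1 : D 1 ∈ DR z0 P) (hD2 : D 2 ∈ DR z0 P)
    (hc : (D 1).Coprime (D 2)) (hq1 : ∏ p ∈ (PQ P0 z0).filter (fun p => lam p ≠ Lab.O), p ≤ q1) :
    (((Bx m H N).filter fun g => Str H N q0 (PQ P0 z0) τ t κ lam D g.1 g.2).card : ℝ) ≤
      (8 * (H : ℝ)) ^ (m + 1) * (8 * (N : ℝ)) ^ 6 * (1 / (D 0 : ℝ)) * ((2 : ℝ) ^ (D 1).primeFactors.card / (D 1 : ℝ)) *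
        ((2 : ℝ) ^ (D 2).primeFactors.card / (D 2 : ℝ)) * LB (PQ P0 z0) k lam := by
  obtain ⟨Q, hQd⟩ : ∃ Q, Q = PQ P0 z0 := ⟨_, rfl⟩
  rw [← hQd] at hk hq1 ⊢
  obtain ⟨U, hU⟩ : ∃ U : Fin 3 → ℤ, U = Up Q τ t κ lam D := ⟨_, rfl⟩
  have hDR : ∀ i, 0 < D i ∧ Squarefree (D i) ∧ ∀ p : ℕ, p.Prime → p ∣ D i → z0 < p := by
    intro i
    have h1 : ∀ P, D i ∈ DR z0 P → 0 < D i ∧ Squarefree (D i) ∧ ∀ p : ℕ, p.Prime → p ∣ D i → z0 < p := by
      intro P h
      obtain ⟨h2, h3⟩ := mem_filter.1 h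
      exact ⟨(mem_Icc.1 h2).1, h3⟩
    fin_cases i
    · exact h1 _ hD0
    · exact h1 _ hD1
    · exact h1 _ hD2
  have hQp : ∀ p ∈ Q, p.Prime ∧ p ≠ 2 ∧ ∀ i, ¬ p ∣ D i := by
    intro p hp
    rw [hQd] at hp
    obtain ⟨h1, h2⟩ := mem_filter.1 hp
    obtain ⟨h3, h4⟩ := mem_Ioc.1 h1
    refine ⟨h2, by omega, fun i h => ?_⟩
    have := (hDR i).2.2 p h2 h
    omega
  obtain ⟨M, hM⟩ : ∃ M : ℕ, M = D 1 * D 2 := ⟨_, rfl⟩
  have hM0 : 0 < M := by
    rw [hM]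
    exact Nat.mul_pos (hDR 1).1 (hDR 2).1
  have hQM : ∀ p ∈ Q, p.Prime ∧ ¬ p ∣ M := by
    intro p hp
    refine ⟨(hQp p hp).1, fun h => ?_⟩
    rw [hM] at h
    rcases ((hQp p hp).1.dvd_mul).1 h with h | h
    · exact (hQp p hp).2.2 1 h
    · exact (hQp p hp).2.2 2 h
  -- the sum over `f` and `r` for fixed `u`
  obtain ⟨cond, hcond⟩ : ∃ cond : V × V → Prop, cond = fun u =>
      (∀ p : ℕ, p.Prime → p ∣ D 1 → ¬ (p : ℤ) ∣ u.2.1) ∧ (∀ p : ℕ, p.Prime → p ∣ D 2 → ¬ (p : ℤ) ∣ u.1.1) := ⟨_, rfl⟩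
  obtain ⟨K, hK⟩ : ∃ K : ℝ, K = (2 : ℝ) ^ (D 1).primeFactors.card * (2 : ℝ) ^ (D 2).primeFactors.card *
      ((8 * (H : ℝ)) ^ (m + 1) / (M : ℝ)) := ⟨_, rfl⟩
  have hK0 : 0 ≤ K := by
    rw [hK]
    positivity
  have hF0 : ∀ u, 0 ≤ FF (m := m) Q k t U lam u := fun u => FF_nonneg Q (fun p hp => (hQp p hp).1) k t U lam u
  have hS : ∀ u, (((boxN m H).filter fun f => Str H N q0 Q τ t κ lam D f u).card : ℝ) ≤
      K * FF (m := m) Q k t U lam u := by
    intro u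
    by_cases hu : cond u
    · rw [hcond] at hu
      have h1 : (((boxN m H).filter fun f => Str H N q0 Q τ t κ lam D f u).card : ℝ) ≤
          ∑ r ∈ (RS (D 1) (D 2) u).filter (fun r : ℕ => GoodN m H q0 M (r : ℤ)),
            ∑ f ∈ (boxN m H).filter (fun f => (M : ℤ) ∣ evn f (r : ℤ)), ∏ p ∈ Q, gp t U (lam p) p f u := by
        have h2 : ∀ f ∈ (boxN m H).filter (fun f => Str H N q0 Q τ t κ lam D f u), (1 : ℝ) ≤
            ∑ r ∈ (RS (D 1) (D 2) u).filter (fun r : ℕ => GoodN m H q0 M (r : ℤ)),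
              if (M : ℤ) ∣ evn f (r : ℤ) then ∏ p ∈ Q, gp t U (lam p) p f u else 0 := by
          intro f hf
          obtain ⟨_, _, _, ⟨r, hr1, hr2, hr3⟩, h5⟩ := mem_filter.1 hf
          rw [← hM] at hr2 hr3
          have h6 : (if (M : ℤ) ∣ evn f (r : ℤ) then ∏ p ∈ Q, gp t U (lam p) p f u else 0) = 1 := by
            rw [if_pos hr2]
            exact ud_one (by rw [hU]; exact h5)
          rw [← h6]
          refine single_le_sum (f := fun r : ℕ => if (M : ℤ) ∣ evn f (r : ℤ) then ∏ p ∈ Q, gp t U (lam p) p f u else 0)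
            (fun r _ => ?_) (mem_filter.2 ⟨hr1, hr3⟩)
          show 0 ≤ if (M : ℤ) ∣ evn f (r : ℤ) then ∏ p ∈ Q, gp t U (lam p) p f u else 0
          split_ifs
          · exact ud_gp Q t U lam f u
          · exact le_rfl
        have h3 : (((boxN m H).filter fun f => Str H N q0 Q τ t κ lam D f u).card : ℝ) =
            ∑ _f ∈ (boxN m H).filter (fun f => Str H N q0 Q τ t κ lam D f u), (1 : ℝ) := by
          rw [sum_const, nsmul_eq_mul, mul_one]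
        rw [h3]
        refine (sum_le_sum h2).trans ?_
        rw [sum_comm]
        refine sum_le_sum fun r _ => ?_
        rw [sum_filter (s := boxN m H) (p := fun f => (M : ℤ) ∣ evn f (r : ℤ))]
        refine sum_le_sum_of_subset_of_nonneg (filter_subset _ _) fun f _ _ => ?_
        split_ifs
        · exact ud_gp Q t U lam f u
        · exact le_rfl
      have h2 : ∑ r ∈ (RS (D 1) (D 2) u).filter (fun r : ℕ => GoodN m H q0 M (r : ℤ)),
            ∑ f ∈ (boxN m H).filter (fun f => (M : ℤ) ∣ evn f (r : ℤ)), ∏ p ∈ Q, gp t U (lam p) p f u ≤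
          ∑ _r ∈ (RS (D 1) (D 2) u).filter (fun r : ℕ => GoodN m H q0 M (r : ℤ)),
            ((8 * (H : ℝ)) ^ (m + 1) / (M : ℝ) * FF (m := m) Q k t U lam u) :=
        sum_le_sum fun r hr => stageF hH hM0 Q hQM hk t U lam hq1 (r : ℤ) (mem_filter.1 hr).2 u
      rw [sum_const, nsmul_eq_mul] at h2
      have h3 : (((RS (D 1) (D 2) u).filter (fun r : ℕ => GoodN m H q0 M (r : ℤ))).card : ℝ) ≤
          (2 : ℝ) ^ (D 1).primeFactors.card * (2 : ℝ) ^ (D 2).primeFactors.card := by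
        have h4 := (card_filter_le (RS (D 1) (D 2) u) (fun r : ℕ => GoodN m H q0 M (r : ℤ))).trans
          (card_RS (hDR 1).2.1 (hDR 2).2.1 hc u hu.1 hu.2)
        exact_mod_cast h4
      have h4 : 0 ≤ (8 * (H : ℝ)) ^ (m + 1) / (M : ℝ) * FF (m := m) Q k t U lam u := mul_nonneg (by positivity) (hF0 u)
      refine h1.trans (h2.trans ((mul_le_mul_of_nonneg_right h3 h4).trans (le_of_eq ?_)))
      rw [hK]
      ring
    · have h1 : (boxN m H).filter (fun f => Str H N q0 Q τ t κ lam D f u) = ∅ := by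
        refine filter_eq_empty_iff.2 fun f _ h => hu ?_
        rw [hcond]
        exact h.2.1
      rw [h1, card_empty, Nat.cast_zero]
      exact mul_nonneg hK0 (hF0 u)
  -- the roots modulo `D 0`
  obtain ⟨R0, hR0⟩ : ∃ R0, R0 = (range (D 0)).filter (fun r0 : ℕ => Good N q0 (D 0) (r0 : ℤ)) := ⟨_, rfl⟩
  have hT : (((Bx m H N).filter fun g => Str H N q0 Q τ t κ lam D g.1 g.2).card : ℝ) ≤
      ∑ u ∈ box2 N, ∑ r0 ∈ R0, if Lam (D 0) (r0 : ℤ) u then K * FF (m := m) Q k t U lam u else 0 := by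
    have h1 : (((Bx m H N).filter fun g => Str H N q0 Q τ t κ lam D g.1 g.2).card : ℝ) =
        ∑ u ∈ box2 N, (((boxN m H).filter fun f => Str H N q0 Q τ t κ lam D f u).card : ℝ) := by
      have h2 : ((Bx m H N).filter fun g => Str H N q0 Q τ t κ lam D g.1 g.2).card =
          ∑ u ∈ box2 N, ((boxN m H).filter fun f => Str H N q0 Q τ t κ lam D f u).card := by
        rw [card_filter, Bx, sum_product_right]
        refine sum_congr rfl fun u _ => ?_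
        rw [card_filter]
      rw [h2, Nat.cast_sum]
    rw [h1]
    refine sum_le_sum fun u _ => ?_
    have hnn : ∀ r0 ∈ R0, 0 ≤ if Lam (D 0) (r0 : ℤ) u then K * FF (m := m) Q k t U lam u else 0 := by
      intro r0 _
      split_ifs
      · exact mul_nonneg hK0 (hF0 u)
      · exact le_rfl
    by_cases hex : ∃ r0 ∈ R0, Lam (D 0) (r0 : ℤ) u
    · obtain ⟨r0, h2, h3⟩ := hex
      refine (hS u).trans ?_
      have h4 := single_le_sum hnn h2
      rw [if_pos h3] at h4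
      exact h4
    · have h2 : (boxN m H).filter (fun f => Str H N q0 Q τ t κ lam D f u) = ∅ := by
        refine filter_eq_empty_iff.2 fun f _ h => hex ?_
        obtain ⟨⟨r0, h3, h4, h5⟩, _⟩ := h
        exact ⟨r0, by rw [hR0]; exact mem_filter.2 ⟨h3, h4⟩, h5⟩
      rw [h2, card_empty, Nat.cast_zero]
      exact sum_nonneg hnn
  refine hT.trans ?_
  rw [sum_comm]
  have hU2 : ∀ r0 ∈ R0, (∑ u ∈ box2 N, if Lam (D 0) (r0 : ℤ) u then K * FF (m := m) Q k t U lam u else 0) ≤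
      K * ((8 * (N : ℝ)) ^ 6 / (D 0 : ℝ) ^ 2 * LB Q k lam) := by
    intro r0 hr0
    rw [← sum_filter, ← mul_sum]
    refine mul_le_mul_of_nonneg_left ?_ hK0
    rw [hR0] at hr0
    exact stageU hm hme hN (hDR 0).1 Q (fun p hp => ⟨(hQp p hp).1, (hQp p hp).2.1, (hQp p hp).2.2 0⟩) hk t U lam hq1
      (r0 : ℤ) (mem_filter.1 hr0).2
  have hLB0 : 0 ≤ LB Q k lam := by
    have h1 : ∀ l : Lab, ∀ p : ℕ, 0 ≤ eb l p := by
      intro l p
      cases l <;> unfold eb <;> positivity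
    have h2 : ∀ p ∈ Q, 0 ≤ 1 - dn5 p := by
      intro p hp
      have h3 := (E3_xo hm p (hQp p hp).1 (hQp p hp).2.1).1
      have h4 := E3_mono m p (xo p) (fun _ _ => 1) fun f u => (xo_nonneg p f u).2
      rw [E3_const (hQp p hp).1.pos] at h4
      linarith
    refine mul_nonneg (prod_nonneg fun p _ => h1 _ _) (add_nonneg (prod_nonneg fun p hp => h2 p (mem_filter.1 hp).1) ?_)
    exact mul_nonneg (by norm_num) (TT_nonneg Q k)
  have hR0c : (R0.card : ℝ) ≤ D 0 := by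
    have h1 : R0.card ≤ D 0 := by
      rw [hR0]
      exact (card_filter_le _ _).trans (card_range _).le
    exact_mod_cast h1
  refine (sum_le_sum hU2).trans ?_
  rw [sum_const, nsmul_eq_mul]
  have hX0 : 0 ≤ K * ((8 * (N : ℝ)) ^ 6 / (D 0 : ℝ) ^ 2 * LB Q k lam) := mul_nonneg hK0 (mul_nonneg (by positivity) hLB0)
  refine (mul_le_mul_of_nonneg_right hR0c hX0).trans (le_of_eq ?_)
  have e0 : (D 0 : ℝ) ≠ 0 := by exact_mod_cast (hDR 0).1.ne'
  have e1 : (D 1 : ℝ) ≠ 0 := by exact_mod_cast (hDR 1).1.ne'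
  have e2 : (D 2 : ℝ) ≠ 0 := by exact_mod_cast (hDR 2).1.ne'
  rw [hK, hM]
  push_cast
  field_simp

end FQQ
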