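import Pool.Agent.Lib.MP_10e784_agF.UD

/-! JOB UE -/

set_option autoImplicit false

open Classical

namespace FQQ

open Finset Polynomial FGO

/-- extension of a label function by `O` -/
def eL (Q : Finset ℕ) (φ : ↥Q → Lab) (p : ℕ) : Lab := if h : p ∈ Q then φ ⟨p, h⟩ else Lab.O

private theorem UE_univ : (Finset.univ : Finset Lab) =
    {Lab.O, Lab.A 0, Lab.A 1, Lab.A 2, Lab.B 0, Lab.B 1, Lab.B 2, Lab.C 0, Lab.C 1} := by
  ext l
  constructor
  · intro _
    cases l with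
    | O => simp
    | A i => fin_cases i <;> simp
    | B i => fin_cases i <;> simp
    | C i => fin_cases i <;> simp
  · intro _
    exact Finset.mem_univ l

/-- the sum over the labels at one prime -/
private theorem UE_one (p : ℕ) (c : ℝ) :
    ∑ l : Lab, yw l * (if l = Lab.O then c else eb l p) = c + 5 / (p : ℝ) + 5 / (p : ℝ) ^ 2 := by
  rw [UE_univ]
  rw [Finset.sum_insert (by decide), Finset.sum_insert (by decide), Finset.sum_insert (by decide),
    Finset.sum_insert (by decide), Finset.sum_insert (by decide), Finset.sum_insert (by decide),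
    Finset.sum_insert (by decide), Finset.sum_insert (by decide), Finset.sum_singleton]
  simp only [yw, eb, reduceCtorEq, if_true, if_false]
  ring

/-- the sum over the label functions of a product -/
private theorem UE_sum (Q : Finset ℕ) (F : ℕ → Lab → ℝ) :
    ∑ φ : ↥Q → Lab, ∏ p ∈ Q, F p (eL Q φ p) = ∏ p ∈ Q, ∑ l : Lab, F p l := by
  have h1 : ∀ φ : ↥Q → Lab, ∏ p ∈ Q, F p (eL Q φ p) = ∏ x : ↥Q, F x (φ x) := by
    intro φ
    rw [← Finset.prod_coe_sort]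
    refine Finset.prod_congr rfl fun x _ => ?_
    unfold eL
    rw [dif_pos x.2]
  rw [Finset.sum_congr rfl fun φ _ => h1 φ, ← Finset.prod_coe_sort Q (fun p => ∑ l : Lab, F p l),
    Finset.prod_univ_sum, Fintype.piFinset_univ]

/-- `∑ 1 / p ^ 2` over `Q`. -/
private theorem UE_sq (Q : Finset ℕ) (hQ : ∀ p ∈ Q, 5 ≤ p) : ∑ p ∈ Q, 1 / (p : ℝ) ^ 2 ≤ 1 / 4 := by
  have h1 : ∀ n : ℕ, 4 ≤ n → ∑ p ∈ Finset.Ioc 4 n, 1 / (p : ℝ) ^ 2 ≤ 1 / 4 - 1 / (n : ℝ) := by
    intro n hn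
    induction n, hn using Nat.le_induction with
    | base =>
      rw [Finset.Ioc_self, Finset.sum_empty]
      norm_num
    | succ n hn ih =>
      rw [Finset.sum_Ioc_succ_top (by omega)]
      have hn0 : (0 : ℝ) < n := by
        have : 0 < n := by omega
        exact_mod_cast this
      have h2 : 1 / ((n + 1 : ℕ) : ℝ) ^ 2 ≤ 1 / (n : ℝ) - 1 / ((n + 1 : ℕ) : ℝ) := by
        push_cast
        rw [div_sub_div _ _ hn0.ne' (by positivity), div_le_div_iff₀ (by positivity) (by positivity)]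
        nlinarith
      linarith
  obtain ⟨n, hn⟩ : ∃ n, ∀ p ∈ Q, p ≤ n := ⟨Q.sup id, fun p hp => Finset.le_sup (f := id) hp⟩
  have h2 : Q ⊆ Finset.Ioc 4 (max 4 n) := by
    intro p hp
    rw [Finset.mem_Ioc]
    exact ⟨by have := hQ p hp; omega, le_trans (hn p hp) (le_max_right _ _)⟩
  refine le_trans (Finset.sum_le_sum_of_subset_of_nonneg h2 fun p _ _ => by positivity) ?_
  refine le_trans (h1 _ (le_max_left _ _)) ?_
  have : (0 : ℝ) ≤ 1 / ((max 4 n : ℕ) : ℝ) := by positivity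
  linarith

private theorem UE_prod_exp (Q : Finset ℕ) (a b : ℕ → ℝ) (h : ∀ p ∈ Q, 0 ≤ a p)
    (h' : ∀ p ∈ Q, a p ≤ 1 + b p) : ∏ p ∈ Q, a p ≤ Real.exp (∑ p ∈ Q, b p) := by
  rw [Real.exp_sum]
  refine Finset.prod_le_prod h fun p hp => ?_
  refine le_trans (h' p hp) ?_
  rw [add_comm]
  exact Real.add_one_le_exp _

/-- Proof. `∑_{l ≠ O} yw l * eb l p = 3 (2/3)(1/p + 1/p²) + 3 (2/3)(1/p + 3/p²)/2 + 2 · 2 · 1/(2p) = 5/p + 5/p²`. The sum over `φ : Q → Lab` of products is the product of sums (`Finset.prod_univ_sum`, `Fintype.piFinset_univ`; products over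
`Q` as products over the subtype: `Finset.prod_coe_sort`/`Finset.prod_attach`): the first part is `∏ ((1 - dn5 p) + 5/p + 5/p²) = ∏ (1 + 27/p²) ≤ exp(27 ∑ 1/p²) ≤ exp 7` (`∑_{n ≥ 5} 1/n² ≤ 1/4`), the second
`2 TT ∏ (1 + 5/p + 5/p²) ≤ 2 TT exp(5 S + 5/4)`. -/
theorem lab_sum (Q : Finset ℕ) (hQ : ∀ p ∈ Q, p.Prime ∧ 5 ≤ p) (k : ℕ) :
    ∑ φ : ↥Q → Lab, (∏ p ∈ Q, yw (eL Q φ p)) * LB Q k (eL Q φ) ≤
      Real.exp 7 + 2 * TT Q k * Real.exp (5 * ∑ p ∈ Q, 1 / (p : ℝ) + 2) := by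
  have hp0 : ∀ p ∈ Q, (0 : ℝ) < p := fun p hp => by exact_mod_cast (hQ p hp).1.pos
  have hsq := UE_sq Q fun p hp => (hQ p hp).2
  -- the two parts
  have h1 : ∀ φ : ↥Q → Lab, (∏ p ∈ Q, yw (eL Q φ p)) * LB Q k (eL Q φ) =
      (∏ p ∈ Q, yw (eL Q φ p) * (if eL Q φ p = Lab.O then 1 - dn5 p else eb (eL Q φ p) p)) +
      2 * TT Q k * ∏ p ∈ Q, yw (eL Q φ p) * (if eL Q φ p = Lab.O then 1 else eb (eL Q φ p) p) := by
    intro φ
    unfold LB
    rw [Finset.prod_filter, Finset.prod_filter]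
    have e1 : ∏ p ∈ Q, yw (eL Q φ p) * (if eL Q φ p = Lab.O then 1 - dn5 p else eb (eL Q φ p) p) =
        (∏ p ∈ Q, yw (eL Q φ p)) * ((∏ p ∈ Q, if eL Q φ p ≠ Lab.O then eb (eL Q φ p) p else 1) *
          ∏ p ∈ Q, if eL Q φ p = Lab.O then 1 - dn5 p else 1) := by
      rw [← Finset.prod_mul_distrib, ← Finset.prod_mul_distrib]
      refine Finset.prod_congr rfl fun p _ => ?_
      by_cases h : eL Q φ p = Lab.O
      · rw [if_pos h, if_pos h, if_neg (fun h2 => h2 h), one_mul]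
      · rw [if_neg h, if_neg h, if_pos h, mul_one]
    have e2 : ∏ p ∈ Q, yw (eL Q φ p) * (if eL Q φ p = Lab.O then 1 else eb (eL Q φ p) p) =
        (∏ p ∈ Q, yw (eL Q φ p)) * ∏ p ∈ Q, if eL Q φ p ≠ Lab.O then eb (eL Q φ p) p else 1 := by
      rw [← Finset.prod_mul_distrib]
      refine Finset.prod_congr rfl fun p _ => ?_
      by_cases h : eL Q φ p = Lab.O
      · rw [if_pos h, if_neg (fun h2 => h2 h)]
      · rw [if_neg h, if_pos h]
    rw [e1, e2]
    ring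
  rw [Finset.sum_congr rfl fun φ _ => h1 φ, Finset.sum_add_distrib, ← Finset.mul_sum,
    UE_sum Q (fun p l => yw l * (if l = Lab.O then 1 - dn5 p else eb l p)),
    UE_sum Q (fun p l => yw l * (if l = Lab.O then 1 else eb l p))]
  simp only [UE_one]
  -- first part
  have h2 : ∏ p ∈ Q, (1 - dn5 p + 5 / (p : ℝ) + 5 / (p : ℝ) ^ 2) ≤ Real.exp 7 := by
    refine le_trans (UE_prod_exp Q _ (fun p => 27 * (1 / (p : ℝ) ^ 2)) ?_ ?_) ?_
    · intro p hp
      have e : 1 - dn5 p + 5 / (p : ℝ) + 5 / (p : ℝ) ^ 2 = 1 + 27 / (p : ℝ) ^ 2 := by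
        unfold dn5
        ring
      rw [e]
      positivity
    · intro p _
      unfold dn5
      refine le_of_eq ?_
      ring
    · apply Real.exp_le_exp.2
      rw [← Finset.mul_sum]
      linarith
  have h3 : ∏ p ∈ Q, (1 + 5 / (p : ℝ) + 5 / (p : ℝ) ^ 2) ≤
      Real.exp (5 * ∑ p ∈ Q, 1 / (p : ℝ) + 2) := by
    refine le_trans (UE_prod_exp Q _ (fun p => 5 * (1 / (p : ℝ)) + 5 * (1 / (p : ℝ) ^ 2)) ?_ ?_) ?_
    · intro p _
      positivity
    · intro p _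
      refine le_of_eq ?_
      ring
    · apply Real.exp_le_exp.2
      rw [Finset.sum_add_distrib, ← Finset.mul_sum, ← Finset.mul_sum]
      linarith
  have h4 := TT_nonneg Q k
  refine add_le_add h2 (mul_le_mul_of_nonneg_left h3 ?_)
  linarith

end FQQ
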