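import Pool.Agent.Lib.MP_10e784_agF.UE
import Pool.Agent.Lib.MP_10e784_agF.UF
import Pool.Agent.Lib.MP_10e784_agF.SC
import Pool.Agent.Lib.MP_1ad228_ntG.UB

/-! JOB UG -/

set_option autoImplicit false

open Classical

namespace FQQ

open Finset Polynomial FGO

private theorem UG_lprod {Q : Finset ℕ} {lam lam' : ℕ → Lab} (h : ∀ p ∈ Q, lam p = lam' p) (l : Lab) :
    lprod Q lam l = lprod Q lam' l := by
  unfold lprod
  rw [Finset.filter_congr fun p hp => by rw [h p hp]]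

private theorem UG_Up {Q : Finset ℕ} {lam lam' : ℕ → Lab} (h : ∀ p ∈ Q, lam p = lam' p) (τ : Fin 3 → ℤ)
    (t : Fin 3 → Bool) (κ : Fin 3 → ℕ) (D : Fin 3 → ℕ) (i : Fin 3) : Up Q τ t κ lam D i = Up Q τ t κ lam' D i := by
  unfold Up
  simp only [UG_lprod h]

private theorem UG_Str {m H N q0 : ℕ} {Q : Finset ℕ} {lam lam' : ℕ → Lab} (h : ∀ p ∈ Q, lam p = lam' p)
    {τ : Fin 3 → ℤ} {t : Fin 3 → Bool} {κ : Fin 3 → ℕ} {D : Fin 3 → ℕ} {f : Vn m} {u : V × V}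
    (hs : Str H N q0 Q τ t κ lam D f u) : Str H N q0 Q τ t κ lam' D f u := by
  refine ⟨hs.1, hs.2.1, hs.2.2.1, fun p hp => ?_⟩
  have := hs.2.2.2 p hp
  simp only [UG_Up h] at this
  rwa [h p hp] at this

private theorem UG_eb (l : Lab) (p : ℕ) : 0 ≤ eb l p := by
  cases l <;> simp only [eb] <;> positivity

private theorem UG_dn5 (p : ℕ) : 0 ≤ 1 - dn5 p := by
  have h : dn5 p = 5 * (1 / (p : ℝ)) - 22 * (1 / (p : ℝ)) ^ 2 := by
    unfold dn5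
    ring
  rw [h]
  nlinarith [sq_nonneg (22 * (1 / (p : ℝ)) - 5 / 2)]

private theorem UG_yw (l : Lab) : 0 < yw l := by
  cases l <;> simp only [yw] <;> norm_num

private theorem UG_LB (Q : Finset ℕ) (k : ℕ) (lam : ℕ → Lab) : 0 ≤ LB Q k lam := by
  unfold LB
  exact mul_nonneg (Finset.prod_nonneg fun p _ => UG_eb _ _)
    (add_nonneg (Finset.prod_nonneg fun p _ => UG_dn5 _) (mul_nonneg zero_le_two (TT_nonneg _ _)))

private theorem UG_sum {ι0 ι1 ι2 ι3 ι4 : Type} (s0 : Finset ι0) (s1 : Finset ι1) (s2 : Finset ι2)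
    (s3 : Finset ι3) (s4 : Finset ι4) (c : ℝ) (w : ι1 → ℝ) (a : ι2 → ℝ) (b : ι3 → ℝ) (b' : ι4 → ℝ) :
    ∑ x ∈ s0 ×ˢ (s1 ×ˢ (s2 ×ˢ (s3 ×ˢ s4))),
      c * (w x.2.1 * (a x.2.2.1 * (b x.2.2.2.1 * b' x.2.2.2.2))) =
      (s0.card : ℝ) * (c * ((∑ i ∈ s1, w i) * ((∑ i ∈ s2, a i) * ((∑ i ∈ s3, b i) * ∑ i ∈ s4, b' i)))) := by
  simp only [Finset.sum_product, ← Finset.mul_sum, ← Finset.sum_mul, Finset.sum_const, nsmul_eq_mul]
  ring

/-- the sign of a truth value -/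
private def UG_sg (b : Bool) : ℤ := if b then 1 else -1

/-- (union bound) Proof. A triple of the box with a rational point is not `Typical`, or it has a structure (`structure3`) with parameters `τ ∈ {±1}^3` (8), `t` (8), `κ i ∈ (primorial P0).divisors` (`≤ 2^P0` each, `FGO.card_divisors_primorial`),
`φ = lam` restricted to `Q` (`Str`, the products and the label conditions depend only on `lam` on `Q`: replace `lam` by `eL Q φ`; `Up`, `lprod` use `lam` only on `Q`), `D 0 ∈ DR z0 (3N²)`, `D 1, D 2 ∈ DR z0 PM`. For each structure with the weight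
condition `1 ≤ exp(-143/1000 S) ∏ yw`; `str_card` (`≥ 0`; drop the conditions `≤ q1`, weight, coprimality after the estimate), `lab_sum`, `DR_sum`, `DR_sum2`. (`Finset.card_biUnion_le` or sums of cardinalities.) -/
theorem main_union {m H N P0 z0 q0 q1 k : ℕ} (hm : 1 ≤ m) (hme : Even m) (hH : 0 < H) (hN : 0 < N) (hP0 : 4 ≤ P0)
    (hPz : P0 ≤ z0) (hk : ∀ D ⊆ PQ P0 z0, D.card ≤ 2 * k → q1 * ∏ p ∈ D, p ≤ q0) (Q2 : Finset ℕ)
    (hcov : ∀ p : ℕ, p.Prime → z0 < p → p ≤ 3 * N ^ 2 ∨ p ≤ PM m H N → p ∈ Q2)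
    (hS : 0 < ∑ p ∈ PQ P0 z0, 1 / (p : ℝ)) :
    (((Bx m H N).filter fun g => Sel g.1 g.2).card : ℝ) ≤
      (((Bx m H N).filter fun g => ¬ Typical H N P0 z0 q0 q1 g.1 g.2).card : ℝ) +
      Real.exp (-(143 / 1000 * ∑ p ∈ PQ P0 z0, 1 / (p : ℝ))) * (64 * 8 ^ P0) *
        ((8 * (H : ℝ)) ^ (m + 1) * (8 * (N : ℝ)) ^ 6) * Real.exp (5 * ∑ p ∈ Q2, 1 / (p : ℝ)) *
        (Real.exp 7 + 2 * TT (PQ P0 z0) k * Real.exp (5 * ∑ p ∈ PQ P0 z0, 1 / (p : ℝ) + 2)) := by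
  have hQ5 : ∀ p ∈ PQ P0 z0, p.Prime ∧ 5 ≤ p := by
    intro p hp
    rw [PQ, Finset.mem_filter, Finset.mem_Ioc] at hp
    exact ⟨hp.2, by omega⟩
  have hd0 : ∑ d ∈ DR z0 (3 * N ^ 2), 1 / (d : ℝ) ≤ Real.exp (∑ p ∈ Q2, 1 / (p : ℝ)) :=
    DR_sum _ _ _ fun p hp h1 h2 => hcov p hp h1 (Or.inl h2)
  have hd1 : ∑ d ∈ DR z0 (PM m H N), (2 : ℝ) ^ d.primeFactors.card / (d : ℝ) ≤
      Real.exp (2 * ∑ p ∈ Q2, 1 / (p : ℝ)) :=
    DR_sum2 _ _ _ fun p hp h1 h2 => hcov p hp h1 (Or.inr h2)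
  have hlab := lab_sum (PQ P0 z0) hQ5 k
  have hdiv := FGO.card_divisors_primorial P0
  -- the parameters
  let s0 : Finset ((Fin 3 → Bool) × (Fin 3 → Bool) × (Fin 3 → ℕ)) :=
    univ ×ˢ (univ ×ˢ Fintype.piFinset fun _ => (primorial P0).divisors)
  let I := s0 ×ˢ ((univ : Finset (↥(PQ P0 z0) → Lab)) ×ˢ (DR z0 (3 * N ^ 2) ×ˢ (DR z0 (PM m H N) ×ˢ DR z0 (PM m H N))))
  let C : ((Fin 3 → Bool) × (Fin 3 → Bool) × (Fin 3 → ℕ)) × ((↥(PQ P0 z0) → Lab) × (ℕ × (ℕ × ℕ))) → Prop :=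
    fun x => (x.2.2.2.1).Coprime x.2.2.2.2 ∧
      ∏ p ∈ (PQ P0 z0).filter (fun p => eL (PQ P0 z0) x.2.1 p ≠ Lab.O), p ≤ q1 ∧
      Real.exp (143 / 1000 * ∑ p ∈ PQ P0 z0, 1 / (p : ℝ)) ≤ ∏ p ∈ PQ P0 z0, yw (eL (PQ P0 z0) x.2.1 p)
  let St : ((Fin 3 → Bool) × (Fin 3 → Bool) × (Fin 3 → ℕ)) × ((↥(PQ P0 z0) → Lab) × (ℕ × (ℕ × ℕ))) →
      (Vn m × (V × V)) → Prop :=
    fun x g => Str H N q0 (PQ P0 z0) (fun i => UG_sg (x.1.1 i)) x.1.2.1 x.1.2.2 (eL (PQ P0 z0) x.2.1)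
      ![x.2.2.1, x.2.2.2.1, x.2.2.2.2] g.1 g.2
  -- the covering
  have hsub : (Bx m H N).filter (fun g => Sel g.1 g.2) ⊆
      (Bx m H N).filter (fun g => ¬ Typical H N P0 z0 q0 q1 g.1 g.2) ∪
        I.biUnion fun x => (Bx m H N).filter fun g => C x ∧ St x g := by
    intro g hg
    rw [Finset.mem_filter] at hg
    obtain ⟨hg, hpt⟩ := hg
    by_cases hT : Typical H N P0 z0 q0 q1 g.1 g.2
    · refine Finset.mem_union_right _ ?_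
      have hg' := hg
      rw [Bx, Finset.mem_product] at hg'
      obtain ⟨τ, t, κ, lam, D, hτ, hκ, hD0, hD1, hD2, hc, hq1, hw, hs⟩ :=
        structure3 hm hme hPz g.1 g.2 hg'.1 hg'.2 hT hS hpt
      have hl : ∀ p ∈ PQ P0 z0, lam p = eL (PQ P0 z0) (fun q => lam q.1) p := by
        intro p hp
        rw [eL, dif_pos hp]
      have hτ' : (fun i => UG_sg (decide (τ i = 1))) = τ := by
        funext i
        rcases hτ i with h | h <;> rw [h, UG_sg] <;> simp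
      have hDD : ![D 0, D 1, D 2] = D := by
        funext i
        fin_cases i <;> rfl
      rw [Finset.mem_biUnion]
      refine ⟨((fun i => decide (τ i = 1), t, κ), (fun q => lam q.1, D 0, D 1, D 2)), ?_, ?_⟩
      · simp only [I, s0, Finset.mem_product, Finset.mem_univ, true_and, Fintype.mem_piFinset,
          Nat.mem_divisors]
        exact ⟨fun i => ⟨hκ i, (primorial_pos P0).ne'⟩, hD0, hD1, hD2⟩
      · rw [Finset.mem_filter]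
        refine ⟨hg, ⟨hc, ?_, ?_⟩, ?_⟩
        · show ∏ p ∈ (PQ P0 z0).filter (fun p => eL (PQ P0 z0) (fun q => lam q.1) p ≠ Lab.O), p ≤ q1
          have e : (PQ P0 z0).filter (fun p => lam p ≠ Lab.O) =
              (PQ P0 z0).filter (fun p => eL (PQ P0 z0) (fun q => lam q.1) p ≠ Lab.O) :=
            Finset.filter_congr fun p hp => by rw [hl p hp]
          rw [← e]
          exact hq1
        · show Real.exp (143 / 1000 * ∑ p ∈ PQ P0 z0, 1 / (p : ℝ)) ≤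
            ∏ p ∈ PQ P0 z0, yw (eL (PQ P0 z0) (fun q => lam q.1) p)
          have e : ∏ p ∈ PQ P0 z0, yw (lam p) = ∏ p ∈ PQ P0 z0, yw (eL (PQ P0 z0) (fun q => lam q.1) p) :=
            Finset.prod_congr rfl fun p hp => by rw [← hl p hp]
          rw [← e]
          exact hw
        · show Str H N q0 (PQ P0 z0) (fun i => UG_sg (decide (τ i = 1))) t κ
            (eL (PQ P0 z0) (fun q => lam q.1)) ![D 0, D 1, D 2] g.1 g.2
          rw [hτ', hDD]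
          exact UG_Str hl hs
    · exact Finset.mem_union_left _ (Finset.mem_filter.2 ⟨hg, hT⟩)
  have hcard : (((Bx m H N).filter fun g => Sel g.1 g.2).card : ℝ) ≤
      (((Bx m H N).filter fun g => ¬ Typical H N P0 z0 q0 q1 g.1 g.2).card : ℝ) +
      ∑ x ∈ I, (((Bx m H N).filter fun g => C x ∧ St x g).card : ℝ) := by
    have h1 := (Finset.card_le_card hsub).trans
      ((Finset.card_union_le _ _).trans (Nat.add_le_add_left Finset.card_biUnion_le _))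
    exact_mod_cast h1
  refine hcard.trans (add_le_add le_rfl ?_)
  -- one structure
  have hE : Real.exp (-(143 / 1000 * ∑ p ∈ PQ P0 z0, 1 / (p : ℝ))) *
      Real.exp (143 / 1000 * ∑ p ∈ PQ P0 z0, 1 / (p : ℝ)) = 1 := by
    rw [← Real.exp_add, neg_add_cancel, Real.exp_zero]
  have hone : ∀ x ∈ I, (((Bx m H N).filter fun g => C x ∧ St x g).card : ℝ) ≤
      (Real.exp (-(143 / 1000 * ∑ p ∈ PQ P0 z0, 1 / (p : ℝ))) * ((8 * (H : ℝ)) ^ (m + 1) * (8 * (N : ℝ)) ^ 6)) *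
        (((∏ p ∈ PQ P0 z0, yw (eL (PQ P0 z0) x.2.1 p)) * LB (PQ P0 z0) k (eL (PQ P0 z0) x.2.1)) *
          ((1 / (x.2.2.1 : ℝ)) * (((2 : ℝ) ^ x.2.2.2.1.primeFactors.card / (x.2.2.2.1 : ℝ)) *
            ((2 : ℝ) ^ x.2.2.2.2.primeFactors.card / (x.2.2.2.2 : ℝ))))) := by
    intro x hx
    have hy : 0 ≤ ∏ p ∈ PQ P0 z0, yw (eL (PQ P0 z0) x.2.1 p) := Finset.prod_nonneg fun p _ => (UG_yw _).le
    have hL := UG_LB (PQ P0 z0) k (eL (PQ P0 z0) x.2.1)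
    by_cases hC : C x
    · simp only [I, Finset.mem_product] at hx
      obtain ⟨-, -, hx0, hx1, hx2⟩ := hx
      have h1 := str_card (k := k) (q1 := q1) hm hme hH hN (by omega : 2 ≤ P0) hk (fun i => UG_sg (x.1.1 i)) x.1.2.1 x.1.2.2
        (eL (PQ P0 z0) x.2.1) ![x.2.2.1, x.2.2.2.1, x.2.2.2.2] (P := PM m H N) (P' := 3 * N ^ 2) hx0 hx1 hx2
        hC.1 hC.2.1
      have h2 : ((Bx m H N).filter fun g => C x ∧ St x g) = (Bx m H N).filter fun g => St x g :=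
        Finset.filter_congr fun g _ => and_iff_right hC
      rw [h2]
      refine h1.trans ?_
      have h3 : 1 ≤ Real.exp (-(143 / 1000 * ∑ p ∈ PQ P0 z0, 1 / (p : ℝ))) *
          ∏ p ∈ PQ P0 z0, yw (eL (PQ P0 z0) x.2.1 p) := by
        exact hE.symm.le.trans (mul_le_mul_of_nonneg_left hC.2.2 (Real.exp_pos _).le)
      have h4 : 0 ≤ (8 * (H : ℝ)) ^ (m + 1) * (8 * (N : ℝ)) ^ 6 * (1 / (x.2.2.1 : ℝ)) *
          ((2 : ℝ) ^ x.2.2.2.1.primeFactors.card / (x.2.2.2.1 : ℝ)) *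
          ((2 : ℝ) ^ x.2.2.2.2.primeFactors.card / (x.2.2.2.2 : ℝ)) * LB (PQ P0 z0) k (eL (PQ P0 z0) x.2.1) := by
        positivity
      calc _ = (8 * (H : ℝ)) ^ (m + 1) * (8 * (N : ℝ)) ^ 6 * (1 / (x.2.2.1 : ℝ)) *
          ((2 : ℝ) ^ x.2.2.2.1.primeFactors.card / (x.2.2.2.1 : ℝ)) *
          ((2 : ℝ) ^ x.2.2.2.2.primeFactors.card / (x.2.2.2.2 : ℝ)) * LB (PQ P0 z0) k (eL (PQ P0 z0) x.2.1) := rfl
        _ ≤ (Real.exp (-(143 / 1000 * ∑ p ∈ PQ P0 z0, 1 / (p : ℝ))) *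
          ∏ p ∈ PQ P0 z0, yw (eL (PQ P0 z0) x.2.1 p)) * ((8 * (H : ℝ)) ^ (m + 1) * (8 * (N : ℝ)) ^ 6 * (1 / (x.2.2.1 : ℝ)) *
          ((2 : ℝ) ^ x.2.2.2.1.primeFactors.card / (x.2.2.2.1 : ℝ)) *
          ((2 : ℝ) ^ x.2.2.2.2.primeFactors.card / (x.2.2.2.2 : ℝ)) * LB (PQ P0 z0) k (eL (PQ P0 z0) x.2.1)) :=
          le_mul_of_one_le_left h4 h3
        _ = _ := by ring
    · have h2 : ((Bx m H N).filter fun g => C x ∧ St x g) = ∅ :=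
        Finset.filter_eq_empty_iff.2 fun g _ h => hC h.1
      rw [h2, Finset.card_empty, Nat.cast_zero]
      positivity
  refine (Finset.sum_le_sum hone).trans ?_
  rw [UG_sum s0 univ (DR z0 (3 * N ^ 2)) (DR z0 (PM m H N)) (DR z0 (PM m H N))
    (Real.exp (-(143 / 1000 * ∑ p ∈ PQ P0 z0, 1 / (p : ℝ))) * ((8 * (H : ℝ)) ^ (m + 1) * (8 * (N : ℝ)) ^ 6))
    (fun φ => (∏ p ∈ PQ P0 z0, yw (eL (PQ P0 z0) φ p)) * LB (PQ P0 z0) k (eL (PQ P0 z0) φ))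
    (fun d => 1 / (d : ℝ)) (fun d => (2 : ℝ) ^ d.primeFactors.card / (d : ℝ))
    (fun d => (2 : ℝ) ^ d.primeFactors.card / (d : ℝ))]
  have hs0 : (s0.card : ℝ) ≤ 64 * 8 ^ P0 := by
    have h1 : s0.card ≤ 8 * (8 * (2 ^ P0) ^ 3) := by
      simp only [s0, Finset.card_product, Finset.card_univ, Fintype.card_piFinset, Finset.prod_const,
        Fintype.card_fun, Fintype.card_bool, Fintype.card_fin]
      exact Nat.mul_le_mul (by norm_num) (Nat.mul_le_mul (by norm_num) (Nat.pow_le_pow_left hdiv 3))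
    have h2 : 8 * (8 * (2 ^ P0) ^ 3) = 64 * 8 ^ P0 := by
      rw [← pow_mul, mul_comm P0 3, pow_mul]
      norm_num
      ring
    rw [h2] at h1
    exact_mod_cast h1
  have hexp : Real.exp (∑ p ∈ Q2, 1 / (p : ℝ)) * (Real.exp (2 * ∑ p ∈ Q2, 1 / (p : ℝ)) *
      Real.exp (2 * ∑ p ∈ Q2, 1 / (p : ℝ))) = Real.exp (5 * ∑ p ∈ Q2, 1 / (p : ℝ)) := by
    rw [← Real.exp_add, ← Real.exp_add]
    congr 1
    ring
  have ha0 : 0 ≤ ∑ d ∈ DR z0 (3 * N ^ 2), 1 / (d : ℝ) := Finset.sum_nonneg fun d _ => by positivity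
  have ha1 : 0 ≤ ∑ d ∈ DR z0 (PM m H N), (2 : ℝ) ^ d.primeFactors.card / (d : ℝ) :=
    Finset.sum_nonneg fun d _ => by positivity
  have hw0 : 0 ≤ ∑ φ : ↥(PQ P0 z0) → Lab, (∏ p ∈ PQ P0 z0, yw (eL (PQ P0 z0) φ p)) * LB (PQ P0 z0) k (eL (PQ P0 z0) φ) :=
    Finset.sum_nonneg fun φ _ => mul_nonneg (Finset.prod_nonneg fun p _ => (UG_yw _).le) (UG_LB _ _ _)
  have hc0 : 0 ≤ Real.exp (-(143 / 1000 * ∑ p ∈ PQ P0 z0, 1 / (p : ℝ))) * ((8 * (H : ℝ)) ^ (m + 1) * (8 * (N : ℝ)) ^ 6) := by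
    positivity
  have hB : (∑ d ∈ DR z0 (3 * N ^ 2), 1 / (d : ℝ)) * ((∑ d ∈ DR z0 (PM m H N), (2 : ℝ) ^ d.primeFactors.card / (d : ℝ)) *
      ∑ d ∈ DR z0 (PM m H N), (2 : ℝ) ^ d.primeFactors.card / (d : ℝ)) ≤ Real.exp (5 * ∑ p ∈ Q2, 1 / (p : ℝ)) := by
    rw [← hexp]
    exact mul_le_mul hd0 (mul_le_mul hd1 hd1 ha1 (Real.exp_pos _).le) (mul_nonneg ha1 ha1) (Real.exp_pos _).le
  calc (s0.card : ℝ) * ((Real.exp (-(143 / 1000 * ∑ p ∈ PQ P0 z0, 1 / (p : ℝ))) * ((8 * (H : ℝ)) ^ (m + 1) * (8 * (N : ℝ)) ^ 6)) *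
        ((∑ φ : ↥(PQ P0 z0) → Lab, (∏ p ∈ PQ P0 z0, yw (eL (PQ P0 z0) φ p)) * LB (PQ P0 z0) k (eL (PQ P0 z0) φ)) *
          ((∑ d ∈ DR z0 (3 * N ^ 2), 1 / (d : ℝ)) * ((∑ d ∈ DR z0 (PM m H N), (2 : ℝ) ^ d.primeFactors.card / (d : ℝ)) *
      ∑ d ∈ DR z0 (PM m H N), (2 : ℝ) ^ d.primeFactors.card / (d : ℝ)))))
      ≤ (64 * 8 ^ P0) * ((Real.exp (-(143 / 1000 * ∑ p ∈ PQ P0 z0, 1 / (p : ℝ))) * ((8 * (H : ℝ)) ^ (m + 1) * (8 * (N : ℝ)) ^ 6)) *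
        ((Real.exp 7 + 2 * TT (PQ P0 z0) k * Real.exp (5 * ∑ p ∈ PQ P0 z0, 1 / (p : ℝ) + 2)) *
          Real.exp (5 * ∑ p ∈ Q2, 1 / (p : ℝ)))) := by
        refine mul_le_mul hs0 (mul_le_mul_of_nonneg_left (mul_le_mul hlab hB ?_ (hw0.trans hlab)) hc0) ?_ (by positivity)
        · exact mul_nonneg ha0 (mul_nonneg ha1 ha1)
        · exact mul_nonneg hc0 (mul_nonneg hw0 (mul_nonneg ha0 (mul_nonneg ha1 ha1)))
    _ = _ := by ring

end FQQ
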