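import Pool.Agent.Lib.MP_10e784_agF.Defs
import Pool.Agent.Lib.MP_10e784_ag.EL.ELStA
import Pool.Agent.Lib.MP_10e784_ag.EL.ELStB
import Pool.Agent.Lib.MP_10e784_ag.EL.ELStC

/-! JOB VA -/

set_option autoImplicit false

open Classical

namespace FQQ

open Finset Polynomial FGO

theorem VA_core (n b : ℕ) (hn : 1 ≤ n) (p : ℕ) [Fact p.Prime] (hP : 100 * (n + 1) ^ 3 + 100 * (b + 1) ≤ p) (f : (ZMod p)[X])
    (hf : Squarefree f) (hfn : f.natDegree = n) (h0 : f.eval 0 ≠ 0) (c : ZMod p)
    (B : Finset (ZMod p)) (hB : B.card ≤ b)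
    (hc : ∀ x : ZMod p, x ∉ B → f.eval x ≠ 0 → (f.eval x) ^ ((p - 1) / 2) = c) : False := by
  classical
  have hf0 : f ≠ 0 := hf.ne_zero
  set l : ℕ := 4 * (n + 1) with hl
  set J : ℕ := 2 * n + 3 with hJ
  set d : ℕ := (p - n) / 2 with hd
  set e : ℕ := (p - 1) / 2 with he
  have hcub : (n + 1) ^ 3 = n ^ 3 + 3 * n ^ 2 + 3 * n + 1 := by ring
  have hn2 : n ≤ n ^ 2 := by nlinarith
  have hn3 : n ^ 2 ≤ n ^ 3 := by nlinarith [Nat.zero_le (n ^ 2)]
  have hpn : 100 * n + 100 ≤ p := by
    rw [hcub] at hP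
    omega
  have h2d : 2 * d + n ≤ p := by omega
  have h2d' : p ≤ 2 * d + n + 1 := by omega
  have hdim : l * (d + J) + n * l ^ 2 < 2 * J * d := by
    have h1 : l * (d + J) + n * l ^ 2 = l * d + (l * J + n * l ^ 2) := by ring
    have h2 : 2 * J * d = l * d + 2 * d := by rw [hJ, hl]; ring
    have h3 : l * J + n * l ^ 2 < 2 * d := by
      have h4 : l * J + n * l ^ 2 = 16 * n ^ 3 + 40 * n ^ 2 + 36 * n + 12 := by rw [hJ, hl]; ring
      rw [h4]
      rw [hcub] at hP
      omega
    omega
  obtain ⟨r, s, hdeg, hne, hk⟩ := EL.stA f n hn hfn.le l J d l (l + e) c hdim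
  have hR := EL.stC p f hf (by omega) h0 l J d (by omega) r s hdeg hne
  rw [← he] at hR
  set R : (ZMod p)[X] := ∑ j : Fin J, (f ^ l * r j + f ^ (l + e) * s j) * X ^ (p * (j : ℕ)) with hRdef
  have hlp : l ≤ p := by omega
  have hmul : ∀ x : ZMod p, x ∉ B → f.eval x ≠ 0 → l ≤ R.rootMultiplicity x := by
    intro x hxB hx
    exact EL.stB p f l J hlp r s c hk hR x (hc x hxB hx)
  -- degree of R
  have hnd : ∀ q : (ZMod p)[X], q.degree < (d : ℕ) → q.natDegree ≤ d := by
    intro q hq
    by_cases h : q = 0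
    · rw [h]; simp
    · exact ((natDegree_lt_iff_degree_lt h).2 hq).le
  have hRdeg : R.natDegree ≤ n * (l + e) + d + p * (J - 1) := by
    rw [hRdef]
    apply natDegree_sum_le_of_forall_le
    intro j _
    refine natDegree_mul_le.trans ?_
    rw [natDegree_X_pow]
    have h1 : (f ^ l * r j + f ^ (l + e) * s j).natDegree ≤ n * (l + e) + d := by
      refine (natDegree_add_le _ _).trans (max_le ?_ ?_)
      · refine natDegree_mul_le.trans ?_
        have h2 := natDegree_pow_le (p := f) (n := l)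
        have h3 := hnd _ (hdeg j).1
        rw [hfn] at h2
        have h4 : l * n ≤ n * (l + e) := by nlinarith
        omega
      · refine natDegree_mul_le.trans ?_
        have h2 := natDegree_pow_le (p := f) (n := l + e)
        have h3 := hnd _ (hdeg j).2
        rw [hfn, mul_comm] at h2
        omega
    have h5 : p * (j : ℕ) ≤ p * (J - 1) := Nat.mul_le_mul_left p (by have := j.2; omega)
    omega
  -- counting
  have hcount : ∑ x : ZMod p, R.rootMultiplicity x ≤ R.natDegree := by
    have h1 : ∑ x : ZMod p, R.roots.count x = Multiset.card R.roots :=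
      Multiset.sum_count_eq_card fun a _ => mem_univ a
    have h2 : ∀ x : ZMod p, R.rootMultiplicity x = R.roots.count x := fun x => (count_roots R).symm
    simp only [h2]
    rw [h1]
    exact card_roots' R
  set G : Finset (ZMod p) := univ.filter fun x : ZMod p => f.eval x ≠ 0 ∧ x ∉ B with hG
  have hT : p ≤ G.card + n + b := by
    have h1 : (univ : Finset (ZMod p)) ⊆ G ∪ (f.roots.toFinset ∪ B) := by
      intro x _
      rw [mem_union, mem_union, Multiset.mem_toFinset, mem_roots hf0, hG, mem_filter]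
      by_cases h3 : f.eval x = 0
      · exact Or.inr (Or.inl h3)
      · by_cases h4 : x ∈ B
        · exact Or.inr (Or.inr h4)
        · exact Or.inl ⟨mem_univ x, h3, h4⟩
    have h2 := (card_le_card h1).trans ((card_union_le _ _).trans
      (add_le_add le_rfl ((card_union_le _ _).trans
        (add_le_add ((Multiset.toFinset_card_le _).trans (card_roots' f)) hB))))
    rw [Finset.card_univ, ZMod.card, hfn] at h2
    omega
  have hlow : G.card * l ≤ ∑ x : ZMod p, R.rootMultiplicity x := by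
    calc G.card * l
        = ∑ x ∈ G, l := by rw [Finset.sum_const, smul_eq_mul]
      _ ≤ ∑ x ∈ G, R.rootMultiplicity x := by
          apply Finset.sum_le_sum
          intro x hx
          exact hmul x (mem_filter.1 hx).2.2 (mem_filter.1 hx).2.1
      _ ≤ _ := Finset.sum_le_sum_of_subset (filter_subset _ _)
  set T : ℕ := G.card with hTdef
  have hfinal : T * l ≤ n * (l + e) + d + p * (J - 1) := (hlow.trans hcount).trans hRdeg
  have hJ1 : J - 1 = 2 * n + 2 := by omega
  rw [hJ1] at hfinal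
  have h2e : 2 * e ≤ p := by omega
  have hTl : p * l ≤ T * l + n * l + b * l := by
    have := Nat.mul_le_mul_right l hT
    rwa [Nat.add_mul, Nat.add_mul] at this
  have h9 : 2 * (p * l) ≤ 4 * (n * l) + 2 * (b * l) + n * p + p + 2 * (p * (2 * n + 2)) := by
    have h10 : n * (l + e) = n * l + n * e := by ring
    have h11 : 2 * (n * e) ≤ n * p := by
      calc 2 * (n * e) = n * (2 * e) := by ring
        _ ≤ n * p := Nat.mul_le_mul_left n h2e
    omega
  have h12 : (n + 1) * (3 * p) ≤ (n + 1) * (16 * n + 8 * b) := by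
    rw [hl] at h9
    have e1 : 2 * (p * (4 * (n + 1))) = (n + 1) * (3 * p) + 5 * (n + 1) * p := by ring
    have e2 : 4 * (n * (4 * (n + 1))) + 2 * (b * (4 * (n + 1))) + n * p + p + 2 * (p * (2 * n + 2)) =
        (n + 1) * (16 * n + 8 * b) + 5 * (n + 1) * p := by ring
    rw [e1, e2] at h9
    exact Nat.le_of_add_le_add_right h9
  have h13 := Nat.le_of_mul_le_mul_left h12 (Nat.succ_pos n)
  omega

/-- Proof. Exactly the proof of `EL.stepanov` (file Lib/MP_10e784_ag/EL/ELStep.lean, unpacked with this skeleton; copy its private lemma and the theorem), with at most `b` exceptional elements: assume that for all `x ∉ T` with `f(x) ≠ 0` the number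
`u f(x)` is not a square. The polynomial `R` vanishes to order `≥ l` at every `x ∉ T` with `f(x) ≠ 0`, i.e. at `≥ p - n - b` elements, so `(p - n - b) * 4 (n + 1) ≤ n (l + e) + d + p (J - 1)`, i.e.
`(3/2) p (n + 1) ≤ 8 n (n + 1) + 4 b (n + 1)`-type inequality: false for `p ≥ P0 = 100 (n + 1)^3 + 100 (b + 1)`. The shift `f(0) ≠ 0` needs an `a` with `f(a) ≠ 0` only (`T` is shifted too). -/
theorem stepanov_many (n b : ℕ) (hn : 1 ≤ n) : ∃ P0 : ℕ, ∀ (p : ℕ) [Fact p.Prime], P0 ≤ p → ∀ f : (ZMod p)[X],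
    Squarefree f → f.natDegree = n → ∀ u : ZMod p, u ≠ 0 → ∀ T : Finset (ZMod p), T.card ≤ b →
      ∃ x : ZMod p, x ∉ T ∧ f.eval x ≠ 0 ∧ IsSquare (u * f.eval x) := by
  refine ⟨100 * (n + 1) ^ 3 + 100 * (b + 1), fun p _ hP f hf hfn u hu B hB => ?_⟩
  by_contra hcon
  push Not at hcon
  have hf0 : f ≠ 0 := hf.ne_zero
  have hcub : (n + 1) ^ 3 = n ^ 3 + 3 * n ^ 2 + 3 * n + 1 := by ring
  have hpn : 100 * n + 100 ≤ p := by
    rw [hcub] at hP
    have : 0 ≤ n ^ 3 := Nat.zero_le _
    omega
  have hp2 : p ≠ 2 := by omega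
  have hpodd : p / 2 = (p - 1) / 2 := by
    rcases (Fact.out : p.Prime).eq_two_or_odd with h | h
    · omega
    · omega
  -- the constant value
  have hval : ∀ x : ZMod p, x ∉ B → f.eval x ≠ 0 → (f.eval x) ^ ((p - 1) / 2) = -(u ^ ((p - 1) / 2))⁻¹ := by
    intro x hxB hx
    have h1 : u * f.eval x ≠ 0 := mul_ne_zero hu hx
    have h2 : (u * f.eval x) ^ (p / 2) = -1 := by
      rcases ZMod.pow_div_two_eq_neg_one_or_one p h1 with h3 | h3
      · exact absurd ((ZMod.euler_criterion p h1).2 h3) (hcon x hxB hx)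
      · exact h3
    rw [hpodd, mul_pow] at h2
    have h3 : u ^ ((p - 1) / 2) ≠ 0 := pow_ne_zero _ hu
    field_simp
    rw [mul_comm]
    exact h2
  -- shift
  obtain ⟨a, ha⟩ : ∃ a : ZMod p, f.eval a ≠ 0 := by
    by_contra hall
    push Not at hall
    have h1 : (univ : Finset (ZMod p)) ⊆ f.roots.toFinset := by
      intro x _
      rw [Multiset.mem_toFinset, mem_roots hf0]
      exact hall x
    have h2 := (card_le_card h1).trans ((Multiset.toFinset_card_le _).trans (card_roots' f))
    rw [Finset.card_univ, ZMod.card] at h2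
    omega
  set f' : (ZMod p)[X] := f.comp (X + C a) with hf'
  have hev : ∀ x, f'.eval x = f.eval (x + a) := by
    intro x
    rw [hf', eval_comp]
    simp
  have hsq' : Squarefree f' := by
    intro y hy
    have h1 : (algEquivAevalXAddC a) f = f' := by
      rw [hf', algEquivAevalXAddC_apply, aeval_def, comp, algebraMap_eq]
    rw [← h1] at hy
    obtain ⟨z, hz⟩ := hy
    have h2 : (algEquivAevalXAddC a).symm y * (algEquivAevalXAddC a).symm y ∣ f := by
      refine ⟨(algEquivAevalXAddC a).symm z, ?_⟩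
      rw [← map_mul, ← map_mul, ← hz, AlgEquiv.symm_apply_apply]
    have h3 := hf _ h2
    have h4 := h3.map (algEquivAevalXAddC a)
    rwa [AlgEquiv.apply_symm_apply] at h4
  have hdeg' : f'.natDegree = n := by
    rw [hf', natDegree_comp, natDegree_X_add_C, mul_one, hfn]
  refine VA_core n b hn p hP f' hsq' hdeg' (by rw [hev, zero_add]; exact ha) (-(u ^ ((p - 1) / 2))⁻¹)
    (B.image fun x => x - a) (card_image_le.trans hB) (fun x hxB hx => ?_)
  rw [hev] at hx ⊢
  refine hval _ (fun h => hxB ?_) hx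
  exact mem_image.2 ⟨x + a, h, add_sub_cancel_right x a⟩


end FQQ
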