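import Pool.Agent.Lib.MP_10e784_agF.DV
import Pool.Agent.Lib.MP_10e784_agF.RD

/-! JOB VB -/

set_option autoImplicit false

open Classical

namespace FQQ

open Finset Polynomial FGO

/-- Proof. If `Pq v ∣ Pq w`, `v.1 ≠ 0`: the quotient is a constant `c` (degrees), `w = c v`. -/
theorem crs_of_dvd {F : Type} [Field F] (v w : F × F × F) (hv : v.1 ≠ 0) (h : Pq v ∣ Pq w) :
    v.2.1 * w.2.2 = w.2.1 * v.2.2 ∧ v.2.2 * w.1 = v.1 * w.2.2 ∧ v.1 * w.2.1 = v.2.1 * w.1 := by
  obtain ⟨q, hq⟩ := h
  have hdv : (Pq v).natDegree = 2 := RD_Pq_degree v hv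
  have hv0 : Pq v ≠ 0 := by
    intro h0
    rw [h0, natDegree_zero] at hdv
    omega
  have hqC : ∃ k, q = C k := by
    by_cases hq0 : q = 0
    · exact ⟨0, by rw [hq0, C_0]⟩
    · have h1 : (Pq w).natDegree = 2 + q.natDegree := by
        rw [hq, natDegree_mul hv0 hq0, hdv]
      have h2 := natDegree_Pq w
      exact ⟨q.coeff 0, eq_C_of_natDegree_eq_zero (by omega)⟩
  obtain ⟨k, rfl⟩ := hqC
  have c2 : ∀ u : F × F × F, (Pq u).coeff 2 = u.1 := fun u => RD_Pq_coeff u
  have c1 : ∀ u : F × F × F, (Pq u).coeff 1 = u.2.1 := by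
    intro u
    unfold Pq
    simp
  have c0 : ∀ u : F × F × F, (Pq u).coeff 0 = u.2.2 := by
    intro u
    unfold Pq
    simp
  have w1 : w.1 = v.1 * k := by rw [← c2 w, hq, coeff_mul_C, c2]
  have w2 : w.2.1 = v.2.1 * k := by rw [← c1 w, hq, coeff_mul_C, c1]
  have w3 : w.2.2 = v.2.2 * k := by rw [← c0 w, hq, coeff_mul_C, c0]
  rw [w1, w2, w3]
  refine ⟨by ring, by ring, by ring⟩

private theorem VB_prime {F : Type} [Field F] {A B L G q : F[X]} {c : F} (hq : Prime q) (hc : c ≠ 0)
    (h : A * (q * L) * B = C c * G ^ 2) : q ∣ L * (A * B) := by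
  have h1 : q ∣ C c * G ^ 2 := by
    rw [← h]
    exact ⟨A * L * B, by ring⟩
  have h2 : q ∣ G := by
    rcases hq.dvd_or_dvd h1 with h3 | h3
    · exfalso
      exact hq.not_isUnit (isUnit_of_dvd_unit h3 (isUnit_C.mpr (isUnit_iff_ne_zero.mpr hc)))
    · exact hq.dvd_of_dvd_pow h3
  obtain ⟨G', rfl⟩ := h2
  have h3 : q * (L * (A * B)) = q * (q * (C c * G' ^ 2)) := by
    linear_combination h
  have h4 := mul_left_cancel₀ hq.ne_zero h3
  exact ⟨_, h4⟩

private theorem VB_root {F : Type} [Field F] {A B L G : F[X]} {c r : F} (hc : c ≠ 0)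
    (h : A * ((X - C r) * L) * B = C c * G ^ 2) (hL : L.eval r ≠ 0) : A.eval r = 0 ∨ B.eval r = 0 := by
  have h1 := VB_prime (prime_X_sub_C r) hc h
  have h2 : (L * (A * B)).eval r = 0 := (dvd_iff_isRoot.mp h1)
  rw [eval_mul, eval_mul] at h2
  rcases mul_eq_zero.mp h2 with h3 | h3
  · exact absurd h3 hL
  · exact mul_eq_zero.mp h3

private theorem VB_split {F : Type} [Field F] (v : F × F × F) (hv1 : v.1 ≠ 0) {r : F} (hr : (Pq v).eval r = 0) :
    ∃ s : F, Pq v = C v.1 * ((X - C r) * (X - C s)) ∧ ds v = v.1 ^ 2 * (r - s) ^ 2 := by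
  have hr' : v.1 * r ^ 2 + v.2.1 * r + v.2.2 = 0 := by
    rw [eval_Pq] at hr
    unfold qv at hr
    linear_combination hr
  obtain ⟨s, hs⟩ : ∃ s, s = -v.2.1 / v.1 - r := ⟨_, rfl⟩
  have hs' : v.1 * (r + s) = -v.2.1 := by
    rw [hs]
    field_simp
    ring
  have hs2 : v.1 * r * s = v.2.2 := by linear_combination r * hs' - hr'
  refine ⟨s, ?_, ?_⟩
  · unfold Pq
    have e1 : C v.2.1 = -(C v.1 * (C r + C s)) := by
      rw [← C_add, ← C_mul, hs', C_neg, neg_neg]
    have e2 : C v.2.2 = C v.1 * C r * C s := by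
      rw [← C_mul, ← C_mul, hs2]
    rw [e1, e2]
    ring
  · unfold ds
    have e1 : v.2.1 = -(v.1 * (r + s)) := by rw [hs', neg_neg]
    rw [e1, ← hs2]
    ring

private theorem VB_dvd {F : Type} [Field F] {a r s : F} (ha : a ≠ 0) (hrs : r ≠ s) {Q : F[X]} (h1 : Q.eval r = 0)
    (h2 : Q.eval s = 0) : C a * ((X - C r) * (X - C s)) ∣ Q := by
  have h3 : (X - C r) * (X - C s) ∣ Q := by
    refine IsCoprime.mul_dvd ?_ (dvd_iff_isRoot.mpr h1) (dvd_iff_isRoot.mpr h2)
    exact isCoprime_X_sub_C_of_isUnit_sub (isUnit_iff_ne_zero.mpr (sub_ne_zero.mpr hrs))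
  obtain ⟨Q', rfl⟩ := h3
  refine ⟨C a⁻¹ * Q', ?_⟩
  have e : C a * C a⁻¹ = (1 : F[X]) := by rw [← C_mul, mul_inv_cancel₀ ha, C_1]
  linear_combination (-(X - C r) * (X - C s) * Q') * e

/-- (one half) Suppose `ds v ≠ 0` and the product of the three forms is a constant times a square; then one of the bad events happens.
Proof. `P = Pf f * Pq v * Pq w = C c * G²`, `m` even. If `P = 0`: `Pf f = 0` (then `Pq v ∣ Pf f`) or `Pq w = 0`, `w = 0` (vector product zero) (`Pq v ≠ 0` as `ds v ≠ 0`). Let `P ≠ 0`.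
(a) `v.1 ≠ 0`, `Pq v` without root in `F`: irreducible, divides `C c G²`, so divides `G`, `(Pq v)² ∣ P`, `Pq v ∣ Pf f * Pq w`: `Pq v ∣ Pf f` or `Pq v ∣ Pq w` (`crs_of_dvd`).
(b) `v.1 ≠ 0`, `Pq v = C a (X - C r)(X - C s)`, `r ≠ s` (`ds v = a² (r-s)²`): the multiplicity of `r` in `P` is even, so `r` is a root of `Pf f` or of `Pq w`; the same for `s`. If both are roots of `Pf f`: `Pq v ∣ Pf f`. If `r` is a root of `Pf f` and `s` of `Pq w`
(or the other way round): `rs v w = 0` (`rs_zero_of_root`) and `f, v` have a common zero. If both are roots of `Pq w`: `Pq v ∣ Pq w`.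
(c) `v.1 = 0`, `v.2.1 ≠ 0`: `Pq v = C b (X - C r)`, `r = -c/b`: as before `r` is a root of `Pf f` or `Pq w`. If of `Pf f`: `Pq v ∣ Pf f`. So let `r` be a root of `Pq w` and not of `Pf f`; then `rs v w = 0` (common zero `(r, 1)`). `natDegree P = natDegree (Pf f) + 1 + natDegree (Pq w)` is even
(`natDegree (C c G²)` is even): if `f m ≠ 0` and `w.1 ≠ 0` it would be `m + 1 + 2`, odd. So `f m = 0`: `(1, 0)` is a common zero of `f` and `v` (`hv_inf`): last alternative; or `w.1 = 0`: then `w = (0, w.2.1, w.2.2)` and `v = (0, b, c)` have the common root `r`, so they are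
proportional: `v.2.1 w.2.2 = w.2.1 v.2.2` etc. -/
theorem half_sq {F : Type} [Field F] [Finite F] {m : ℕ} (hm : 1 ≤ m) (hme : Even m) (f : Fin (m + 1) → F) (v w : F × F × F)
    (hd : ds v ≠ 0) (h2 : (2 : F) ≠ 0) (c : F) (G : F[X]) (h : Pf f * Pq v * Pq w = C c * G ^ 2) :
    (v.2.1 * w.2.2 = w.2.1 * v.2.2 ∧ v.2.2 * w.1 = v.1 * w.2.2 ∧ v.1 * w.2.1 = v.2.1 * w.1) ∨ Pq v ∣ Pf f ∨
      (rs v w = 0 ∧ ∃ x z : F, ¬ (x = 0 ∧ z = 0) ∧ hv f x z = 0 ∧ qv v x z = 0) := by
  by_cases hf0 : Pf f = 0
  · right; left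
    rw [hf0]
    exact dvd_zero _
  by_cases hw0 : Pq w = 0
  · left
    have c2 : w.1 = 0 := by
      have := RD_Pq_coeff w
      rw [hw0, coeff_zero] at this
      exact this.symm
    have c1 : w.2.1 = 0 := by
      have : (Pq w).coeff 1 = w.2.1 := by
        unfold Pq
        simp
      rw [hw0, coeff_zero] at this
      exact this.symm
    have c0 : w.2.2 = 0 := by
      have : (Pq w).coeff 0 = w.2.2 := by
        unfold Pq
        simp
      rw [hw0, coeff_zero] at this
      exact this.symm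
    rw [c2, c1, c0]
    refine ⟨by ring, by ring, by ring⟩
  have hpt : ∀ r : F, ¬ (r = 0 ∧ (1 : F) = 0) := fun r h6 => one_ne_zero h6.2
  by_cases hv1 : v.1 = 0
  · -- (c)
    have hb : v.2.1 ≠ 0 := by
      intro hb
      apply hd
      unfold ds
      rw [hv1, hb]
      ring
    obtain ⟨r, hr⟩ : ∃ r, r = -v.2.2 / v.2.1 := ⟨_, rfl⟩
    have hr' : v.2.1 * r = -v.2.2 := by
      rw [hr]
      field_simp
    have hP : Pq v = (X - C r) * C v.2.1 := by
      unfold Pq
      have e2 : C v.2.2 = -(C v.2.1 * C r) := by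
        rw [← C_mul, hr', C_neg, neg_neg]
      rw [hv1, C_0, e2]
      ring
    have hvr : qv v r 1 = 0 := by
      unfold qv
      rw [hv1]
      linear_combination hr'
    have hv0 : Pq v ≠ 0 := by
      rw [hP]
      exact mul_ne_zero (X_sub_C_ne_zero r) (C_ne_zero.mpr hb)
    have hc : c ≠ 0 := by
      intro hc
      rw [hc, C_0, zero_mul] at h
      exact (mul_ne_zero (mul_ne_zero hf0 hv0) hw0) h
    have hG : G ≠ 0 := by
      intro hG
      rw [hG, zero_pow two_ne_zero, mul_zero] at h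
      exact (mul_ne_zero (mul_ne_zero hf0 hv0) hw0) h
    have h' : Pf f * ((X - C r) * C v.2.1) * Pq w = C c * G ^ 2 := by rw [← hP]; exact h
    rcases VB_root hc h' (by rw [eval_C]; exact hb) with h3 | h3
    · right; left
      obtain ⟨Q, hQ⟩ := dvd_iff_isRoot.mpr h3
      rw [hQ, hP]
      refine ⟨C v.2.1⁻¹ * Q, ?_⟩
      have e : C v.2.1 * C v.2.1⁻¹ = (1 : F[X]) := by rw [← C_mul, mul_inv_cancel₀ hb, C_1]
      linear_combination (-(X - C r) * Q) * e
    · have hrs : rs v w = 0 := by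
        rw [eval_Pq] at h3
        exact rs_zero_of_root v w r 1 (hpt r) hvr h3
      by_cases hfm : f (Fin.last m) = 0
      · right; right
        refine ⟨hrs, 1, 0, fun h6 => one_ne_zero h6.1, by rw [hv_inf, hfm], ?_⟩
        unfold qv
        rw [hv1]
        ring
      · by_cases hw1 : w.1 = 0
        · left
          have hw : w.2.1 * r = -w.2.2 := by
            rw [eval_Pq] at h3
            unfold qv at h3
            rw [hw1] at h3
            linear_combination h3
          refine ⟨?_, by rw [hv1, hw1]; ring, by rw [hv1, hw1]; ring⟩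
          have e1 : v.2.2 = -(v.2.1 * r) := by rw [hr', neg_neg]
          have e2 : w.2.2 = -(w.2.1 * r) := by rw [hw, neg_neg]
          rw [e1, e2]
          ring
        · exfalso
          have d1 : (Pf f).natDegree = m := by
            apply le_antisymm (natDegree_Pf f)
            apply le_natDegree_of_ne_zero
            have : (Pf f).coeff m = f (Fin.last m) := coeff_Pf f (Fin.last m)
            rw [this]
            exact hfm
          have d2 : (Pq w).natDegree = 2 := RD_Pq_degree w hw1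
          have d3 : (Pq v).natDegree = 1 := by
            rw [hP, natDegree_mul (X_sub_C_ne_zero r) (C_ne_zero.mpr hb), natDegree_X_sub_C, natDegree_C]
          have e1 : (Pf f * Pq v * Pq w).natDegree = m + 1 + 2 := by
            rw [natDegree_mul (mul_ne_zero hf0 hv0) hw0, natDegree_mul hf0 hv0, d1, d2, d3]
          have e2 : (C c * G ^ 2).natDegree = 2 * G.natDegree := by
            rw [natDegree_mul (C_ne_zero.mpr hc) (pow_ne_zero 2 hG), natDegree_C, natDegree_pow, zero_add]
          rw [h, e2] at e1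
          obtain ⟨j, hj⟩ := hme
          omega
  · -- `v.1 ≠ 0`
    have hv0 : Pq v ≠ 0 := by
      intro h0
      have := RD_Pq_degree v hv1
      rw [h0, natDegree_zero] at this
      omega
    have hc : c ≠ 0 := by
      intro hc
      rw [hc, C_0, zero_mul] at h
      exact (mul_ne_zero (mul_ne_zero hf0 hv0) hw0) h
    by_cases hr : ∃ r, (Pq v).eval r = 0
    · obtain ⟨r, hr⟩ := hr
      obtain ⟨s, hP, hds⟩ := VB_split v hv1 hr
      have hrs : r ≠ s := by
        intro hrs
        apply hd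
        rw [hds, hrs]
        ring
      have hs : (Pq v).eval s = 0 := by
        rw [hP]
        simp
      have hr2 : qv v r 1 = 0 := by rw [← eval_Pq]; exact hr
      have hs2 : qv v s 1 = 0 := by rw [← eval_Pq]; exact hs
      have h1 : Pf f * ((X - C r) * (C v.1 * (X - C s))) * Pq w = C c * G ^ 2 := by
        rw [← h, hP]
        ring
      have h2' : Pf f * ((X - C s) * (C v.1 * (X - C r))) * Pq w = C c * G ^ 2 := by
        rw [← h, hP]
        ring
      have a1 := VB_root hc h1 (by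
        rw [eval_mul, eval_C, eval_sub, eval_X, eval_C]
        exact mul_ne_zero hv1 (sub_ne_zero.mpr hrs))
      have a2 := VB_root hc h2' (by
        rw [eval_mul, eval_C, eval_sub, eval_X, eval_C]
        exact mul_ne_zero hv1 (sub_ne_zero.mpr hrs.symm))
      rcases a1 with b1 | b1
      · rcases a2 with b2 | b2
        · right; left
          rw [hP]
          exact VB_dvd hv1 hrs b1 b2
        · right; right
          rw [eval_Pf] at b1
          rw [eval_Pq] at b2
          exact ⟨rs_zero_of_root v w s 1 (hpt s) hs2 b2, r, 1, hpt r, b1, hr2⟩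
      · rcases a2 with b2 | b2
        · right; right
          rw [eval_Pf] at b2
          rw [eval_Pq] at b1
          exact ⟨rs_zero_of_root v w r 1 (hpt r) hr2 b1, s, 1, hpt s, b2, hs2⟩
        · left
          apply crs_of_dvd v w hv1
          rw [hP]
          exact VB_dvd hv1 hrs b1 b2
    · have hirr : Irreducible (Pq v) := by
        refine irreducible_of_degree_le_three_of_not_isRoot ?_ fun x hx => hr ⟨x, hx⟩
        rw [RD_Pq_degree v hv1]
        decide
      have hpr : Prime (Pq v) := hirr.prime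
      have h1 : Pf f * (Pq v * 1) * Pq w = C c * G ^ 2 := by rw [mul_one]; exact h
      have h3 := VB_prime hpr hc h1
      rw [one_mul] at h3
      rcases hpr.dvd_or_dvd h3 with h4 | h4
      · exact Or.inr (Or.inl h4)
      · exact Or.inl (crs_of_dvd v w hv1 h4)

/-- Proof. `¬ BadT`: `p` does not divide both discriminants; apply `half_sq` over `ZMod p` to `(v, w)` or to `(w, v)` (product in the other order), and translate (`rs_cast`, `ds_cast`; `Dv p (crs ..)` is the first alternative; `E .. 2` is the common zero of `f, v`,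
`E .. 1` that of `f, w`). -/
theorem not_sq_of_not_bad {m : ℕ} (hm : 1 ≤ m) (hme : Even m) (p : ℕ) [Fact p.Prime] (h2 : p ≠ 2) (f : Vn m) (u : V × V)
    (h : ¬ BadT p f u) (c : ZMod p) (G : (ZMod p)[X]) :
    Pf (cN p f) * Pq (cV p u.1) * Pq (cV p u.2) ≠ C c * G ^ 2 := by
  intro heq
  apply h
  have h2' : (2 : ZMod p) ≠ 0 := by
    intro h0
    have h1 : ((2 : ℕ) : ZMod p) = 0 := by exact_mod_cast h0
    rw [ZMod.natCast_eq_zero_iff] at h1
    exact h2 ((Nat.prime_dvd_prime_iff_eq (Fact.out : p.Prime) Nat.prime_two).mp h1)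
  have hcrs : ((cV p u.1).2.1 * (cV p u.2).2.2 = (cV p u.2).2.1 * (cV p u.1).2.2 ∧
      (cV p u.1).2.2 * (cV p u.2).1 = (cV p u.1).1 * (cV p u.2).2.2 ∧
      (cV p u.1).1 * (cV p u.2).2.1 = (cV p u.1).2.1 * (cV p u.2).1) → Dv p (crs u.1 u.2) := by
    rintro ⟨h1, h3, h4⟩
    unfold cV at h1 h3 h4
    simp only at h1 h3 h4
    refine ⟨?_, ?_, ?_⟩
    · have : ((u.1.2.1 * u.2.2.2 : ℤ) : ZMod p) = ((u.1.2.2 * u.2.2.1 : ℤ) : ZMod p) := by
        push_cast
        linear_combination h1
      exact (RB_cast_eq p _ _).mp this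
    · have : ((u.1.2.2 * u.2.1 : ℤ) : ZMod p) = ((u.1.1 * u.2.2.2 : ℤ) : ZMod p) := by
        push_cast
        linear_combination h3
      exact (RB_cast_eq p _ _).mp this
    · have : ((u.1.1 * u.2.2.1 : ℤ) : ZMod p) = ((u.1.2.1 * u.2.1 : ℤ) : ZMod p) := by
        push_cast
        linear_combination h4
      exact (RB_cast_eq p _ _).mp this
  have hz : ∀ a : ℤ, ((a : ℤ) : ZMod p) = 0 ↔ (p : ℤ) ∣ a := fun a => ZMod.intCast_zmod_eq_zero_iff_dvd a p
  by_cases hd1 : (p : ℤ) ∣ ds u.1
  · by_cases hd2 : (p : ℤ) ∣ ds u.2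
    · exact Or.inr (Or.inl ⟨hd1, hd2⟩)
    · have hd : ds (cV p u.2) ≠ 0 := by
        rw [← ds_cast]
        exact fun h0 => hd2 ((hz _).mp h0)
      have heq' : Pf (cN p f) * Pq (cV p u.2) * Pq (cV p u.1) = C c * G ^ 2 := by
        rw [← heq]
        ring
      rcases half_sq hm hme (cN p f) (cV p u.2) (cV p u.1) hd h2' c G heq' with h3 | h3 | ⟨h3, x, z, h4, h5, h6⟩
      · left
        apply hcrs
        obtain ⟨k1, k2, k3⟩ := h3
        refine ⟨k1.symm, ?_, ?_⟩
        · linear_combination -k2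
        · linear_combination -k3
      · exact Or.inr (Or.inr (Or.inr (Or.inl h3)))
      · right; right; right; right
        refine ⟨?_, Or.inl ⟨x, z, h4, ?_⟩⟩
        · rw [← hz, rs_cast]
          have : rs (cV p u.1) (cV p u.2) = rs (cV p u.2) (cV p u.1) := by
            unfold rs
            ring
          rw [this]
          exact h3
        · intro j hj
          fin_cases j
          · exact h5
          · exact absurd rfl hj
          · exact h6
  · have hd : ds (cV p u.1) ≠ 0 := by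
      rw [← ds_cast]
      exact fun h0 => hd1 ((hz _).mp h0)
    rcases half_sq hm hme (cN p f) (cV p u.1) (cV p u.2) hd h2' c G heq with h3 | h3 | ⟨h3, x, z, h4, h5, h6⟩
    · exact Or.inl (hcrs h3)
    · exact Or.inr (Or.inr (Or.inl h3))
    · right; right; right; right
      refine ⟨?_, Or.inr ⟨x, z, h4, ?_⟩⟩
      · rw [← hz, rs_cast]
        exact h3
      · intro j hj
        fin_cases j
        · exact h5
        · exact h6
        · exact absurd rfl hj

end FQQ
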