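import Pool.Agent.Lib.MP_10e784_agF.VB
import Pool.Agent.Lib.MP_10e784_agF.VA
import Pool.Agent.Lib.MP_10e784_agF.RB
import Pool.Agent.Lib.MP_10e784_ag.EL.ELHens

/-! JOB VC -/

set_option autoImplicit false

open Classical

namespace FQQ

open Finset Polynomial FGO

theorem VC_aux1 {K : Type} [CommRing K] {m : ℕ} (f : Vn m) (a : ℤ) :
    hv (fun i => (f i : K)) (a : K) 1 = ((hv f a 1 : ℤ) : K) := by
  unfold hv
  push_cast
  rfl

theorem VC_aux2 {K : Type} [CommRing K] (v : V) (a : ℤ) :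
    qv ((v.1 : K), (v.2.1 : K), (v.2.2 : K)) (a : K) 1 = ((qv v a 1 : ℤ) : K) := by
  unfold qv
  push_cast
  ring

/-- Proof. Strong induction on the degree: if `P` is not squarefree there is a nonunit `a` with `a² ∣ P`, `P = a² P'`, `P' = C c * s * G'²`, `G = a G'`. If `P` is squarefree take `c = 1`, `s = P`, `G = 1`. -/
theorem sq_decomp {F : Type} [Field F] (P : F[X]) (hP : P ≠ 0) :
    ∃ (s G : F[X]), Squarefree s ∧ P = s * G ^ 2 := by
  induction hn : P.natDegree using Nat.strong_induction_on generalizing P with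
  | _ n ih =>
    by_cases hsq : Squarefree P
    · exact ⟨P, 1, hsq, by rw [one_pow, mul_one]⟩
    · unfold Squarefree at hsq
      push Not at hsq
      obtain ⟨a, ⟨P', hP'⟩, hau⟩ := hsq
      have hP'0 : P' ≠ 0 := by
        rintro rfl
        exact hP (by rw [hP', mul_zero])
      have ha0 : a ≠ 0 := by
        rintro rfl
        exact hP (by rw [hP', zero_mul, zero_mul])
      have hda : 0 < a.natDegree := by
        rcases Nat.eq_zero_or_pos a.natDegree with h0 | h0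
        · exfalso
          apply hau
          rw [Polynomial.eq_C_of_natDegree_eq_zero h0] at ha0 ⊢
          exact Polynomial.isUnit_C.2 (isUnit_iff_ne_zero.2 (fun h => ha0 (by rw [h, Polynomial.C_0])))
        · exact h0
      have hdeg : P.natDegree = a.natDegree + a.natDegree + P'.natDegree := by
        rw [hP', Polynomial.natDegree_mul (mul_ne_zero ha0 ha0) hP'0, Polynomial.natDegree_mul ha0 ha0]
      obtain ⟨s, G, hs, hG⟩ := ih P'.natDegree (by omega) P' hP'0 rfl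
      refine ⟨s, a * G, hs, ?_⟩
      rw [hP', hG]
      ring

/-- Proof. `P = Pf * Pq * Pq = s G²` (`sq_decomp`; `P ≠ 0` by `not_sq_of_not_bad` with `c = 0`), `s` squarefree. `natDegree s ≥ 1`, otherwise `s = C c` and `P = C c G²`. `natDegree s ≤ m + 4`, `G` has at most `m + 4` roots.
`stepanov_many (natDegree s) (m + 4)`, `u = 1`, `T` = the roots of `G`: there is `x` with `G(x) ≠ 0`, `s(x) ≠ 0` a square, so `P(x)` is a nonzero square. `w1` = the maximum of the `P0` for the degrees `1, .., m + 4`. -/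
theorem exists_nonzero_sq {m : ℕ} (hm : 1 ≤ m) (hme : Even m) : ∃ w1 : ℕ, 3 ≤ w1 ∧ ∀ (p : ℕ) [Fact p.Prime], w1 ≤ p →
    ∀ (f : Vn m) (u : V × V), ¬ BadT p f u →
      ∃ x : ZMod p, hv (cN p f) x 1 * qv (cV p u.1) x 1 * qv (cV p u.2) x 1 ≠ 0 ∧
        IsSquare (hv (cN p f) x 1 * qv (cV p u.1) x 1 * qv (cV p u.2) x 1) := by
  have hst : ∀ n : ℕ, ∃ P0 : ℕ, 1 ≤ n → ∀ (p : ℕ) [Fact p.Prime], P0 ≤ p → ∀ f : (ZMod p)[X],
      Squarefree f → f.natDegree = n → ∀ u : ZMod p, u ≠ 0 → ∀ T : Finset (ZMod p), T.card ≤ m + 4 →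
      ∃ x : ZMod p, x ∉ T ∧ f.eval x ≠ 0 ∧ IsSquare (u * f.eval x) := by
    intro n
    by_cases hn : 1 ≤ n
    · obtain ⟨P0, h⟩ := stepanov_many n (m + 4) hn
      exact ⟨P0, fun _ => h⟩
    · exact ⟨0, fun h => absurd h hn⟩
  choose P0 hP0 using hst
  refine ⟨3 + ∑ n ∈ Finset.range (m + 5), P0 n, by omega, ?_⟩
  intro p hpf hp f u hb
  have hp2 : p ≠ 2 := by
    rintro rfl
    omega
  set P : (ZMod p)[X] := Pf (cN p f) * Pq (cV p u.1) * Pq (cV p u.2) with hPdef
  have hns : ∀ (c : ZMod p) (G : (ZMod p)[X]), P ≠ C c * G ^ 2 := fun c G => not_sq_of_not_bad hm hme p hp2 f u hb c G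
  have hPne : P ≠ 0 := by
    intro h
    apply hns 0 0
    rw [h, Polynomial.C_0, zero_mul]
  obtain ⟨s, G, hs, hPG⟩ := sq_decomp P hPne
  have hs0 : s ≠ 0 := hs.ne_zero
  have hG0 : G ≠ 0 := by
    rintro rfl
    apply hPne
    rw [hPG]
    ring
  have hdP : P.natDegree ≤ m + 4 := by
    have h1 : P.natDegree ≤ (Pf (cN p f) * Pq (cV p u.1)).natDegree + (Pq (cV p u.2)).natDegree :=
      Polynomial.natDegree_mul_le
    have h2 : (Pf (cN p f) * Pq (cV p u.1)).natDegree ≤ (Pf (cN p f)).natDegree + (Pq (cV p u.1)).natDegree :=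
      Polynomial.natDegree_mul_le
    have h3 := natDegree_Pf (cN p f)
    have h4 := natDegree_Pq (cV p u.1)
    have h5 := natDegree_Pq (cV p u.2)
    omega
  have hdeg : P.natDegree = s.natDegree + 2 * G.natDegree := by
    rw [hPG, Polynomial.natDegree_mul hs0 (pow_ne_zero 2 hG0), Polynomial.natDegree_pow]
  have hs1 : 1 ≤ s.natDegree := by
    rcases Nat.eq_zero_or_pos s.natDegree with h0 | h0
    · exfalso
      apply hns (s.coeff 0) G
      rw [hPG]
      congr 1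
      exact Polynomial.eq_C_of_natDegree_eq_zero h0
    · exact h0
  have hPp : P0 s.natDegree ≤ p := by
    have h1 : P0 s.natDegree ≤ ∑ n ∈ Finset.range (m + 5), P0 n := by
      apply Finset.single_le_sum (f := P0) (fun i _ => Nat.zero_le _)
      rw [Finset.mem_range]
      omega
    omega
  have hT : G.roots.toFinset.card ≤ m + 4 := by
    have h1 : G.roots.toFinset.card ≤ Multiset.card G.roots := Multiset.toFinset_card_le _
    have h2 : Multiset.card G.roots ≤ G.natDegree := Polynomial.card_roots' G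
    omega
  obtain ⟨x, hxT, hx0, hxsq⟩ := hP0 s.natDegree hs1 p hPp s hs rfl 1 one_ne_zero G.roots.toFinset hT
  have hGx : G.eval x ≠ 0 := by
    intro h
    apply hxT
    rw [Multiset.mem_toFinset, Polynomial.mem_roots hG0]
    exact h
  have hev : hv (cN p f) x 1 * qv (cV p u.1) x 1 * qv (cV p u.2) x 1 = s.eval x * (G.eval x) ^ 2 := by
    rw [← eval_Pf, ← eval_Pq, ← eval_Pq, ← Polynomial.eval_mul, ← Polynomial.eval_mul, ← hPdef, hPG,
      Polynomial.eval_mul, Polynomial.eval_pow]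
  refine ⟨x, ?_, ?_⟩
  · rw [hev]
    exact mul_ne_zero hx0 (pow_ne_zero 2 hGx)
  · rw [hev]
    rw [one_mul] at hxsq
    exact hxsq.mul ⟨G.eval x, sq (G.eval x)⟩

/-- Proof. `x = (a : ZMod p)`, `a` an integer: `I = hv f a 1 * qv .. * qv ..` is an integer, not divisible by `p`, a square modulo `p`: a square in `ℤ_[p]` (`EL.hens_sq_odd` in Lib/MP_10e784_ag/EL/ELHens.lean, or `ZC.isSquare_int_iff`); point `(a, 1, √I)`. -/
theorem locP_of_not_bad {m : ℕ} (hm : 1 ≤ m) (hme : Even m) : ∃ w1 : ℕ, 3 ≤ w1 ∧ ∀ (p : ℕ) [Fact p.Prime], w1 ≤ p →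
    ∀ (f : Vn m) (u : V × V), ¬ BadT p f u → LocP p f u := by
  obtain ⟨w1, hw3, hw⟩ := exists_nonzero_sq hm hme
  refine ⟨w1, hw3, ?_⟩
  intro p hpf hp f u hb
  have hp2 : p ≠ 2 := by
    rintro rfl
    omega
  obtain ⟨x, hx0, hxsq⟩ := hw p hp f u hb
  obtain ⟨a, ha⟩ := ZMod.intCast_surjective x
  have hI : ((hv f a 1 * qv u.1 a 1 * qv u.2 a 1 : ℤ) : ZMod p) =
      hv (cN p f) x 1 * qv (cV p u.1) x 1 * qv (cV p u.2) x 1 := by
    rw [Int.cast_mul, Int.cast_mul, hv_cast, qv_cast, qv_cast, ha, Int.cast_one]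
  have hnd : ¬ (p : ℤ) ∣ hv f a 1 * qv u.1 a 1 * qv u.2 a 1 := by
    intro h
    apply hx0
    rw [← hI]
    exact (ZMod.intCast_zmod_eq_zero_iff_dvd _ _).2 h
  obtain ⟨z, hz⟩ := EL.hens_sq_odd p hp2 (hv f a 1 * qv u.1 a 1 * qv u.2 a 1) hnd (by rw [hI]; exact hxsq)
  refine ⟨(a : ℚ_[p]), 1, (z : ℚ_[p]), fun h => one_ne_zero h.2, ?_⟩
  have h1 : ((z : ℚ_[p])) ^ 2 = ((hv f a 1 * qv u.1 a 1 * qv u.2 a 1 : ℤ) : ℚ_[p]) := by
    have h2 := congrArg (fun t : ℤ_[p] => (t : ℚ_[p])) hz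
    simp only [PadicInt.coe_pow, PadicInt.coe_intCast] at h2
    exact h2
  rw [h1, VC_aux1, VC_aux2, VC_aux2]
  push_cast
  ring

end FQQ
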