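import Pool.Agent.Lib.MP_10e784_agF.VC
import Pool.Agent.Lib.MP_10e784_ag.EL.ELHens

/-! JOB VD -/

set_option autoImplicit false

open Classical

namespace FQQ

open Finset Polynomial FGO

private theorem VD_hv {F : Type} [CommRing F] {m : ℕ} (f : Fin (m + 1) → F) : hv f 1 0 = f (Fin.last m) := by
  unfold hv
  rw [Finset.sum_eq_single (Fin.last m)]
  · simp
  · intro i _ hi
    have h1 : (i : ℕ) < m := by
      have h2 := i.2
      rcases Nat.lt_or_ge (i : ℕ) m with h | h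
      · exact h
      · exfalso
        apply hi
        apply Fin.ext
        simp only [Fin.val_last]
        omega
    rw [zero_pow (by omega), mul_zero]
  · intro h
    exact absurd (Finset.mem_univ _) h

private theorem VD_qv {F : Type} [CommRing F] (v : F × F × F) : qv v 1 0 = v.1 := by
  unfold qv
  ring

private theorem VD_mod {Q a b c : ℤ} (ha : Q ∣ a - 1) (hb : Q ∣ b - 1) (hc : Q ∣ c - 1) : Q ∣ a * b * c - 1 := by
  have e : a * b * c - 1 = (a - 1) * (b * c) + (b - 1) * c + (c - 1) := by ring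
  rw [e]
  exact dvd_add (dvd_add (dvd_mul_of_dvd_left ha _) (dvd_mul_of_dvd_left hb _)) hc

private theorem VD_sq (p : ℕ) [Fact p.Prime] (w : ℕ) (hp : p ≤ w) (I : ℤ) (h0 : 0 < I)
    (hI : ((8 * primorial w : ℕ) : ℤ) ∣ I - 1) : ∃ z : ℤ_[p], z ^ 2 = (I : ℤ_[p]) := by
  have hpp : p.Prime := Fact.out
  obtain ⟨m, rfl⟩ : ∃ m : ℕ, I = (m : ℤ) := ⟨I.toNat, by omega⟩
  have hp' : p ∣ 8 * primorial w := by
    refine Dvd.dvd.mul_left ?_ 8
    unfold primorial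
    exact Finset.dvd_prod_of_mem _ (by simp only [Finset.mem_filter, Finset.mem_range]; exact ⟨by omega, hpp⟩)
  obtain ⟨k, hk⟩ := hI
  have hc : m.Coprime (8 * primorial w) := by
    rw [← Nat.isCoprime_iff_coprime]
    exact ⟨1, -k, by linear_combination hk⟩
  have hsq : IsSquare (m : ZMod (8 * primorial w)) := by
    have h1 : (((m : ℤ) - 1 : ℤ) : ZMod (8 * primorial w)) = 0 := by
      rw [hk]
      rw [Int.cast_mul, Int.cast_natCast, ZMod.natCast_self, zero_mul]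
    have h2 : (m : ZMod (8 * primorial w)) = 1 := by
      push_cast at h1
      exact sub_eq_zero.1 h1
    rw [h2]
    exact ⟨1, by ring⟩
  obtain ⟨z, hz⟩ := EL.hens_sq p (8 * primorial w) m (Dvd.intro _ rfl) hp' hc hsq
  exact ⟨z, by rw [hz, Int.cast_natCast]⟩

/-- Proof. At `(1, 0)` the product of the forms is `I = f m * u.1.1 * u.2.1 ≡ 1 mod 8 * primorial w1`, positive. Real: `√I`. `p ≥ w1 + 1`... precisely: if `p ≤ w1` then `p ∣ 8 * primorial w1`, so `I` is a square in `ℚ_[p]` (`p` odd: `I ≡ 1 mod p`; `p = 2`: `I ≡ 1 mod 8`;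
`EL.hens_sq`, `ZC.isSquare_int_iff`, `ZC.isSquare_two_iff` or Hensel). If `p > w1`: hypothesis and `locP_of_not_bad`. NEVER compute `primorial w1`; take `w1` from `locP_of_not_bad`. -/
theorem els_of3 {m : ℕ} (hm : 1 ≤ m) (hme : Even m) : ∃ w1 : ℕ, 3 ≤ w1 ∧ ∀ w2 : ℕ, w1 ≤ w2 → ∀ (f : Vn m) (u : V × V),
    ((8 * primorial w2 : ℕ) : ℤ) ∣ f (Fin.last m) - 1 → ((8 * primorial w2 : ℕ) : ℤ) ∣ u.1.1 - 1 →
    ((8 * primorial w2 : ℕ) : ℤ) ∣ u.2.1 - 1 → 0 < f (Fin.last m) → 0 < u.1.1 → 0 < u.2.1 →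
    (∀ p : ℕ, p.Prime → w2 < p → ¬ BadT p f u) → ELS3 f u := by
  obtain ⟨w1, hw3, h1⟩ := locP_of_not_bad (m := m) hm hme
  refine ⟨w1, hw3, fun w2 hw2 f u hf hv' hw' pf pv pw hbad => ⟨fun p _ => ?_, ?_⟩⟩
  · rcases Nat.lt_or_ge w2 p with hlt | hge
    · exact h1 p (by omega) f u (hbad p Fact.out hlt)
    · obtain ⟨z, hz⟩ := VD_sq p w2 hge (f (Fin.last m) * u.1.1 * u.2.1)
        (mul_pos (mul_pos pf pv) pw) (VD_mod hf hv' hw')
      refine ⟨1, 0, (z : ℚ_[p]), fun h => one_ne_zero h.1, ?_⟩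
      rw [VD_hv, VD_qv, VD_qv]
      have h2 : ((z ^ 2 : ℤ_[p]) : ℚ_[p]) = (((f (Fin.last m) * u.1.1 * u.2.1 : ℤ) : ℤ_[p]) : ℚ_[p]) := by rw [hz]
      rw [PadicInt.coe_pow, PadicInt.coe_intCast] at h2
      rw [h2]
      push_cast
      ring
  · have h0 : (0 : ℝ) ≤ ((f (Fin.last m) * u.1.1 * u.2.1 : ℤ) : ℝ) := by
      exact_mod_cast (mul_pos (mul_pos pf pv) pw).le
    refine ⟨1, 0, Real.sqrt ((f (Fin.last m) * u.1.1 * u.2.1 : ℤ) : ℝ), fun h => one_ne_zero h.1, ?_⟩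
    rw [VD_hv, VD_qv, VD_qv, Real.sq_sqrt h0]
    push_cast
    ring

end FQQ
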