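import Pool.Agent.Lib.MP_10e784_agF.DV
import Pool.Agent.Lib.MP_10e784_agF.BA
import Pool.Agent.Lib.MP_10e784_agF.LS

/-! JOB VE -/

set_option autoImplicit false

open Classical

namespace FQQ

open Finset Polynomial FGO

/-- the bad event over `ZMod p` -/
def VE_P {m p : ℕ} (f : Fin (m + 1) → ZMod p) (v w : ZMod p × ZMod p × ZMod p) : Prop :=
  (v.2.1 * w.2.2 = w.2.1 * v.2.2 ∧ v.2.2 * w.1 = v.1 * w.2.2 ∧ v.1 * w.2.1 = v.2.1 * w.1) ∨
  (Dc v w 0 = 0 ∧ Dc v w 1 = 0) ∨ Pq v ∣ Pf f ∨ Pq w ∣ Pf f ∨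
  (Rv f v w 0 = 0 ∧ (E f v w 1 ∨ E f v w 2))

theorem VE_dvd (p : ℕ) (a : ℤ) : (p : ℤ) ∣ a ↔ ((a : ℤ) : ZMod p) = 0 := by
  have h := RB_cast_eq p a 0
  rw [sub_zero, Int.cast_zero] at h
  exact h.symm

theorem VE_iff {m : ℕ} (p : ℕ) (f : Vn m) (u : V × V) :
    BadT p f u ↔ VE_P (cN p f) (cV p u.1) (cV p u.2) := by
  unfold BadT VE_P
  have h1 : Dv p (crs u.1 u.2) ↔ ((cV p u.1).2.1 * (cV p u.2).2.2 = (cV p u.2).2.1 * (cV p u.1).2.2 ∧
      (cV p u.1).2.2 * (cV p u.2).1 = (cV p u.1).1 * (cV p u.2).2.2 ∧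
      (cV p u.1).1 * (cV p u.2).2.1 = (cV p u.1).2.1 * (cV p u.2).1) := by
    have e1 : (p : ℤ) ∣ u.1.2.1 * u.2.2.2 - u.1.2.2 * u.2.2.1 ↔
        (cV p u.1).2.1 * (cV p u.2).2.2 = (cV p u.2).2.1 * (cV p u.1).2.2 := by
      rw [← RB_cast_eq]
      unfold cV
      push_cast
      rw [mul_comm (u.1.2.2 : ZMod p)]
    have e2 : (p : ℤ) ∣ u.1.2.2 * u.2.1 - u.1.1 * u.2.2.2 ↔
        (cV p u.1).2.2 * (cV p u.2).1 = (cV p u.1).1 * (cV p u.2).2.2 := by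
      rw [← RB_cast_eq]
      unfold cV
      push_cast
      exact Iff.rfl
    have e3 : (p : ℤ) ∣ u.1.1 * u.2.2.1 - u.1.2.1 * u.2.1 ↔
        (cV p u.1).1 * (cV p u.2).2.1 = (cV p u.1).2.1 * (cV p u.2).1 := by
      rw [← RB_cast_eq]
      unfold cV
      push_cast
      exact Iff.rfl
    exact and_congr e1 (and_congr e2 e3)
  have h2 : ((p : ℤ) ∣ ds u.1 ∧ (p : ℤ) ∣ ds u.2) ↔
      (Dc (cV p u.1) (cV p u.2) 0 = 0 ∧ Dc (cV p u.1) (cV p u.2) 1 = 0) := by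
    rw [VE_dvd, VE_dvd, ds_cast, ds_cast]
    exact Iff.rfl
  have h3 : (p : ℤ) ∣ rs u.1 u.2 ↔ Rv (cN p f) (cV p u.1) (cV p u.2) 0 = 0 := by
    rw [VE_dvd, rs_cast]
    exact Iff.rfl
  exact or_congr h1 (or_congr h2 (or_congr Iff.rfl (or_congr Iff.rfl (and_congr h3 Iff.rfl))))

theorem VE_fun {m : ℕ} (p : ℕ) : (fun (f : Vn m) u => ind (BadT p f u)) =
    fun (f : Vn m) u => ind (VE_P (cN p f) (cV p u.1) (cV p u.2)) := by
  funext f u
  rw [propext (VE_iff p f u)]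

/-- Proof. All conditions depend only on the residues modulo `p`. -/
theorem Per3_bad {m : ℕ} (p : ℕ) : Per3 p (fun (f : Vn m) u => ind (BadT p f u)) := by
  rw [VE_fun]
  exact Per3_of m p (fun f v w => ind (VE_P f v w))

theorem VE_ind_or (P Q : Prop) : ind (P ∨ Q) ≤ ind P + ind Q := BA_ind_or id

theorem VE_Av_or {m q : ℕ} [NeZero q]
    {P Q : (Fin (m + 1) → ZMod q) → ZMod q × ZMod q × ZMod q → ZMod q × ZMod q × ZMod q → Prop}
    {a b : ℝ} (hP : Av m q (fun f v w => ind (P f v w)) ≤ a)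
    (hQ : Av m q (fun f v w => ind (Q f v w)) ≤ b) :
    Av m q (fun f v w => ind (P f v w ∨ Q f v w)) ≤ a + b := by
  refine le_trans (Av_mono m q _ (fun f v w => ind (P f v w) + ind (Q f v w))
    (fun f v w => VE_ind_or _ _)) ?_
  rw [Av_add]
  exact add_le_add hP hQ

theorem VE_crs (m p : ℕ) [Fact p.Prime] :
    Av m p (fun _ v w => ind (v.2.1 * w.2.2 = w.2.1 * v.2.2 ∧ v.2.2 * w.1 = v.1 * w.2.2 ∧
      v.1 * w.2.1 = v.2.1 * w.1)) ≤ 2 / (p : ℝ) ^ 2 := by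
  have hp0 := BA_pos p
  refine le_trans ?_ (BA_fin p)
  unfold Av
  simp only [mF_const]
  refine (mQ_mono p _ (fun v => ind (v = 0) + 1 / (p : ℝ) ^ 2) fun v => ?_).trans ?_
  · by_cases hv : v = 0
    · have h2 : ind (v = 0) = 1 := by unfold ind; rw [if_pos hv]
      rw [h2]
      have h3 : mQ p (fun w => ind (v.2.1 * w.2.2 = w.2.1 * v.2.2 ∧ v.2.2 * w.1 = v.1 * w.2.2 ∧
          v.1 * w.2.1 = v.2.1 * w.1)) ≤ mQ p fun _ => 1 := mQ_mono p _ _ fun w => ind_le_one _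
      rw [mQ_const] at h3
      have h4 : 0 ≤ 1 / (p : ℝ) ^ 2 := by positivity
      linarith
    · have h2 := BA_prop p v hv
      have h3 := ind_nonneg (v = 0)
      linarith
  · rw [mQ_add, mQ_const, mQ_zero]

/-- the mean value over `f` of `Pq v ∣ Pf f` -/
theorem VE_mF (m p : ℕ) [Fact p.Prime] (hm : 1 ≤ m) (v : ZMod p × ZMod p × ZMod p) :
    mF m p (fun f => ind (Pq v ∣ Pf f)) ≤ 1 / (p : ℝ) ^ 2 +
      (1 / (p : ℝ) * ind (qv v (pt (none : Option (ZMod p))).1 (pt (none : Option (ZMod p))).2 = 0) +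
        ind (ds v = 0 ∧ qv v (pt (none : Option (ZMod p))).1 (pt (none : Option (ZMod p))).2 = 0)) := by
  have hp0 := BA_pos p
  have n1 : (0 : ℝ) ≤ 1 / (p : ℝ) ^ 2 := by positivity
  have n2 : (0 : ℝ) ≤ 1 / (p : ℝ) := by positivity
  have n3 := ind_nonneg (qv v (pt (none : Option (ZMod p))).1 (pt (none : Option (ZMod p))).2 = 0)
  have n4 := ind_nonneg (ds v = 0 ∧ qv v (pt (none : Option (ZMod p))).1 (pt (none : Option (ZMod p))).2 = 0)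
  have n5 := mul_nonneg n2 n3
  by_cases h1 : v.1 = 0
  · have hq : qv v (pt (none : Option (ZMod p))).1 (pt (none : Option (ZMod p))).2 = 0 := by
      show v.1 * 1 ^ 2 + v.2.1 * 1 * 0 + v.2.2 * 0 ^ 2 = 0
      rw [h1]
      ring
    have i1 : ind (qv v (pt (none : Option (ZMod p))).1 (pt (none : Option (ZMod p))).2 = 0) = 1 := if_pos hq
    by_cases h2 : v.2.1 = 0
    · have hd : ds v = 0 := by
        unfold ds
        rw [h1, h2]
        ring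
      have i2 : ind (ds v = 0 ∧ qv v (pt (none : Option (ZMod p))).1 (pt (none : Option (ZMod p))).2 = 0) = 1 :=
        if_pos ⟨hd, hq⟩
      have h3 : mF m p (fun f => ind (Pq v ∣ Pf f)) ≤ mF m p fun _ => 1 :=
        mF_mono m p _ _ fun f => ind_le_one _
      rw [mF_const] at h3
      rw [i2]
      linarith
    · have h3 : mF m p (fun f => ind (Pq v ∣ Pf f)) ≤
          mF m p (fun f => ind (hv f (-v.2.2 / v.2.1) 1 = 0)) := by
        refine mF_mono m p _ _ fun f => ind_mono fun hdiv => ?_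
        have h4 : (Pq v).eval (-v.2.2 / v.2.1) = 0 := by
          rw [eval_Pq]
          unfold qv
          rw [h1]
          field_simp
          ring
        rw [← eval_Pf]
        exact eval_eq_zero_of_dvd_of_eval_eq_zero hdiv h4
      rw [mF_root m p (-v.2.2 / v.2.1) 1 (fun h => one_ne_zero h.2)] at h3
      rw [i1, mul_one]
      linarith
  · have h3 := mF_dvd m p hm v h1
    linarith

theorem VE_dv (m p : ℕ) [Fact p.Prime] (hm : 1 ≤ m) (h2 : p ≠ 2) :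
    Av m p (fun f v _ => ind (Pq v ∣ Pf f)) ≤ 3 / (p : ℝ) ^ 2 := by
  have hp0 := BA_pos p
  unfold Av
  simp only [mQ_const]
  refine (mQ_mono p _ _ fun v => VE_mF m p hm v).trans ?_
  rw [mQ_add, mQ_const, mQ_add, mQ_smul, mQ_root p _ _ (pt_ne none), mQ_disc_root p h2 none]
  refine le_of_eq ?_
  field_simp
  norm_num

/-- Proof. `E3_eq_Av`. Vector product zero: `v = 0` (`1/p³`) or `w` a multiple of `v` (`1/p²`): `≤ 2/p²`. Both discriminants: `1/p²` (`Av_DD`). `Pq v ∣ Pf f`: `v.1 ≠ 0`: `≤ 1/p²` (`mF_dvd`); `v.1 = 0 ≠ v.2.1`: probability `1/p` for `v`, and `f` vanishes at the root: `1/p`;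
`v.1 = v.2.1 = 0`: `1/p²`; total `≤ 3/p²`; the same for `w`. `rs = 0` and `E 2` (or `E 1`): `≤ P(E 0 ∧ E 2) + P(rs = 0 ∧ ¬ E 0) ≤ 3/p² + 2/p²` (`Av_EE`, `Av_RE`). Total `≤ 2 + 1 + 6 + 10 = 19`. -/
theorem E3_bad {m : ℕ} (hm : 1 ≤ m) (p : ℕ) (hp : p.Prime) (h2 : p ≠ 2) :
    E3 m p (fun f u => ind (BadT p f u)) ≤ 20 / (p : ℝ) ^ 2 := by
  have : Fact p.Prime := ⟨hp⟩
  have hp0 := BA_pos p
  rw [VE_fun]
  have h := E3_eq_Av m p (fun f v w => ind (VE_P f v w))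
  rw [h]
  have hA := VE_crs m p
  have hB := le_of_eq (Av_DD m p h2)
  have hC := VE_dv m p hm h2
  have hD : Av m p (fun f _ w => ind (Pq w ∣ Pf f)) ≤ 3 / (p : ℝ) ^ 2 := by
    rw [← Av_swap m p (fun f _ w => ind (Pq w ∣ Pf f))]
    exact hC
  have hE : Av m p (fun f v w => ind (Rv f v w 0 = 0 ∧ (E f v w 1 ∨ E f v w 2))) ≤
      3 / (p : ℝ) ^ 2 + (3 / (p : ℝ) ^ 2 + 2 / (p : ℝ) ^ 2) := by
    refine (Av_mono m p _ (fun f v w => ind ((E f v w 0 ∧ E f v w 1) ∨ ((E f v w 0 ∧ E f v w 2) ∨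
      (Rv f v w 0 = 0 ∧ ¬ E f v w 0)))) fun f v w => ind_mono fun h1 => ?_).trans ?_
    · by_cases h0 : E f v w 0
      · rcases h1.2 with h3 | h3
        · exact Or.inl ⟨h0, h3⟩
        · exact Or.inr (Or.inl ⟨h0, h3⟩)
      · exact Or.inr (Or.inr ⟨h1.1, h0⟩)
    · exact VE_Av_or (Av_EE m p hm 0 1 (by decide)) (VE_Av_or (Av_EE m p hm 0 2 (by decide))
        (Av_RE m p hm 0))
  have hT := VE_Av_or hA (VE_Av_or hB (VE_Av_or hC (VE_Av_or hD hE)))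
  refine le_trans hT ?_
  have n1 : (0 : ℝ) ≤ 1 / (p : ℝ) ^ 2 := by positivity
  have e : 2 / (p : ℝ) ^ 2 + (1 / (p : ℝ) ^ 2 + (3 / (p : ℝ) ^ 2 + (3 / (p : ℝ) ^ 2 +
      (3 / (p : ℝ) ^ 2 + (3 / (p : ℝ) ^ 2 + 2 / (p : ℝ) ^ 2))))) = 17 * (1 / (p : ℝ) ^ 2) := by ring
  have e2 : 20 / (p : ℝ) ^ 2 = 20 * (1 / (p : ℝ) ^ 2) := by ring
  rw [e, e2]
  linarith

end FQQ
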