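import Pool.Agent.Lib.MP_10e784_agF.VE
import Pool.Agent.Lib.MP_10e784_agF.KT2

/-! JOB VF -/

set_option autoImplicit false

open Classical

namespace FQQ

open Finset Polynomial FGO

/-- the class of forms with leading coefficients `≡ 1 mod M` -/
def Cl {m : ℕ} (M : ℕ) (f : Vn m) (u : V × V) : Prop :=
  (M : ℤ) ∣ f (Fin.last m) - 1 ∧ (M : ℤ) ∣ u.1.1 - 1 ∧ (M : ℤ) ∣ u.2.1 - 1

theorem VF_ind_and (P Q : Prop) : ind (P ∧ Q) = ind P * ind Q := by
  unfold ind
  by_cases hP : P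
  · by_cases hQ : Q
    · rw [if_pos ⟨hP, hQ⟩, if_pos hP, if_pos hQ, one_mul]
    · rw [if_neg (fun h => hQ h.2), if_neg hQ, mul_zero]
  · rw [if_neg (fun h => hP h.1), if_neg hP, zero_mul]

theorem VF_one {M : ℕ} (hM : 0 < M) :
    ∑ x ∈ Ico (0 : ℤ) (M : ℤ), ind ((M : ℤ) ∣ x - 1) = 1 := by
  have hM' : (0 : ℤ) < M := by exact_mod_cast hM
  rw [Finset.sum_eq_single ((1 : ℤ) % M)]
  · unfold ind
    rw [if_pos]
    have h := Int.emod_add_mul_ediv 1 (M : ℤ)
    exact ⟨-(1 / (M : ℤ)), by linarith⟩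
  · intro x hx hne
    unfold ind
    rw [if_neg]
    intro h
    apply hne
    rw [Finset.mem_Ico] at hx
    have h1 : x % M = 1 % M := Int.emod_eq_emod_iff_emod_sub_eq_zero.2
      (Int.emod_eq_zero_of_dvd h)
    rw [← h1, Int.emod_eq_of_lt hx.1 hx.2]
  · intro h
    exfalso
    apply h
    rw [Finset.mem_Ico]
    exact ⟨Int.emod_nonneg _ hM'.ne', Int.emod_lt_of_pos _ hM'⟩

theorem VF_sumN {m M : ℕ} (g : ℤ → ℝ) :
    ∑ f ∈ cubeN m M, g (f (Fin.last m)) = (M : ℝ) ^ m * ∑ x ∈ Ico (0 : ℤ) (M : ℤ), g x := by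
  have h1 : ∀ f : Vn m, g (f (Fin.last m)) =
      ∏ i : Fin (m + 1), if i = Fin.last m then g (f i) else 1 := by
    intro f
    rw [Finset.prod_ite_eq' Finset.univ (Fin.last m) (fun i => g (f i))]
    rw [if_pos (Finset.mem_univ _)]
  simp only [h1]
  unfold cubeN
  rw [← Finset.prod_univ_sum (fun _ : Fin (m + 1) => Ico (0 : ℤ) (M : ℤ))
    (fun i x => if i = Fin.last m then g x else 1), Fin.prod_univ_castSucc]
  simp only [if_true]
  congr 1
  have h2 : ∀ i : Fin m, (∑ x ∈ Ico (0 : ℤ) (M : ℤ),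
      if (Fin.castSucc i) = Fin.last m then g x else (1 : ℝ)) = M := by
    intro i
    have h3 : ∀ x ∈ Ico (0 : ℤ) (M : ℤ),
        (if (Fin.castSucc i) = Fin.last m then g x else (1 : ℝ)) = 1 := fun x _ =>
      if_neg (Fin.castSucc_lt_last i).ne
    rw [Finset.sum_congr rfl h3, Finset.sum_const, Int.card_Ico, nsmul_eq_mul, mul_one]
    simp
  rw [Finset.prod_congr rfl fun i _ => h2 i, Finset.prod_const, Finset.card_univ,
    Fintype.card_fin]

theorem VF_cube {M : ℕ} (g : ℤ → ℝ) :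
    ∑ v ∈ cube M, g v.1 = (M : ℝ) ^ 2 * ∑ x ∈ Ico (0 : ℤ) (M : ℤ), g x := by
  unfold cube
  rw [Finset.sum_product, Finset.mul_sum]
  refine Finset.sum_congr rfl fun x _ => ?_
  simp only [Finset.sum_const, Finset.card_product, Int.card_Ico, nsmul_eq_mul]
  simp only [sub_zero, Int.toNat_natCast, Nat.cast_mul]
  ring

theorem VF_per {m M : ℕ} : Per3 M (fun (f : Vn m) u => ind (Cl M f u)) := by
  intro f g u u' h1 h2 h3
  have e1 : (M : ℤ) ∣ f (Fin.last m) - 1 ↔ (M : ℤ) ∣ g (Fin.last m) - 1 := by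
    have h := h1 (Fin.last m)
    constructor
    · intro h'
      have := dvd_sub h' h
      rwa [show f (Fin.last m) - 1 - (f (Fin.last m) - g (Fin.last m)) = g (Fin.last m) - 1 by ring] at this
    · intro h'
      have := dvd_add h' h
      rwa [show g (Fin.last m) - 1 + (f (Fin.last m) - g (Fin.last m)) = f (Fin.last m) - 1 by ring] at this
  have e2 : (M : ℤ) ∣ u.1.1 - 1 ↔ (M : ℤ) ∣ u'.1.1 - 1 := by
    have h := h2.1
    constructor
    · intro h'
      have := dvd_sub h' h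
      rwa [show u.1.1 - 1 - (u.1.1 - u'.1.1) = u'.1.1 - 1 by ring] at this
    · intro h'
      have := dvd_add h' h
      rwa [show u'.1.1 - 1 + (u.1.1 - u'.1.1) = u.1.1 - 1 by ring] at this
  have e3 : (M : ℤ) ∣ u.2.1 - 1 ↔ (M : ℤ) ∣ u'.2.1 - 1 := by
    have h := h3.1
    constructor
    · intro h'
      have := dvd_sub h' h
      rwa [show u.2.1 - 1 - (u.2.1 - u'.2.1) = u'.2.1 - 1 by ring] at this
    · intro h'
      have := dvd_add h' h
      rwa [show u'.2.1 - 1 + (u.2.1 - u'.2.1) = u.2.1 - 1 by ring] at this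
  have e : Cl M f u ↔ Cl M g u' := by
    unfold Cl
    rw [e1, e2, e3]
  show ind (Cl M f u) = ind (Cl M g u')
  rw [propext e]

theorem VF_card {m H N : ℕ} (P : Vn m → V × V → Prop)
    [inst : DecidablePred fun g : Vn m × (V × V) => P g.1 g.2] :
    (((Bx m H N).filter fun g : Vn m × (V × V) => P g.1 g.2).card : ℝ) =
      ∑ u ∈ box2 N, ∑ f ∈ boxN m H, ind (P f u) := by
  rw [Finset.card_filter, Finset.sum_comm, ← Finset.sum_product']
  push_cast
  unfold Bx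
  refine Finset.sum_congr rfl fun g _ => ?_
  unfold ind
  by_cases h : P g.1 g.2
  · rw [if_pos h, if_pos h]
  · rw [if_neg h, if_neg h]

theorem VF_AP (H M : ℕ) (hM : 0 < M) (hH : 0 < H) :
    (H : ℝ) / M ≤ (((Icc (1 : ℤ) (H : ℤ)).filter fun x => (M : ℤ) ∣ x - 1).card : ℝ) := by
  have h1 : (H - 1) / M + 1 ≤ ((Icc (1 : ℤ) (H : ℤ)).filter fun x => (M : ℤ) ∣ x - 1).card := by
    have h2 : (Finset.range ((H - 1) / M + 1)).card ≤
        ((Icc (1 : ℤ) (H : ℤ)).filter fun x => (M : ℤ) ∣ x - 1).card := by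
      refine Finset.card_le_card_of_injOn (fun k : ℕ => (1 : ℤ) + M * k) ?_ ?_
      · intro k hk
        rw [Finset.mem_coe, Finset.mem_range] at hk
        rw [Finset.mem_coe, Finset.mem_filter, Finset.mem_Icc]
        have h3 : k ≤ (H - 1) / M := Nat.lt_succ_iff.1 hk
        have h4 : k * M ≤ H - 1 := (Nat.le_div_iff_mul_le hM).1 h3
        have h5 : M * k + 1 ≤ H := by
          rw [mul_comm]
          omega
        have h6 : (M : ℤ) * k + 1 ≤ H := by exact_mod_cast h5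
        have h7 : (0 : ℤ) ≤ (M : ℤ) * k := by positivity
        refine ⟨⟨by linarith, by linarith⟩, ⟨(k : ℤ), by ring⟩⟩
      · intro a _ b _ hab
        have hM' : (M : ℤ) ≠ 0 := by exact_mod_cast hM.ne'
        have h3 : (M : ℤ) * a = M * b := by
          have : (1 : ℤ) + M * a = 1 + M * b := hab
          linarith
        exact_mod_cast mul_left_cancel₀ hM' h3
    rwa [Finset.card_range] at h2
  have hM' : (0 : ℝ) < M := by exact_mod_cast hM
  rw [div_le_iff₀ hM']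
  have h2 : H ≤ ((H - 1) / M + 1) * M := by
    have h3 := Nat.lt_div_mul_add (a := H - 1) hM
    have h4 : ((H - 1) / M + 1) * M = (H - 1) / M * M + M := by ring
    rw [h4]
    omega
  have h3 : H ≤ ((Icc (1 : ℤ) (H : ℤ)).filter fun x => (M : ℤ) ∣ x - 1).card * M :=
    h2.trans (Nat.mul_le_mul_right _ h1)
  exact_mod_cast h3

/-- Proof. Count modulo `M`: one of the `M` classes for each of the three coordinates. -/
theorem E3_cl {m M : ℕ} (hM : 0 < M) : E3 m M (fun f u => ind (Cl M f u)) = 1 / (M : ℝ) ^ 3 := by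
  have hM' : (M : ℝ) ≠ 0 := by exact_mod_cast hM.ne'
  have h1 : ∀ u : V × V, ExN m M (fun f => ind (Cl M f u)) =
      ind ((M : ℤ) ∣ u.1.1 - 1) * ind ((M : ℤ) ∣ u.2.1 - 1) / M := by
    intro u
    have h2 : ∀ f : Vn m, ind (Cl M f u) = ind ((M : ℤ) ∣ f (Fin.last m) - 1) *
        (ind ((M : ℤ) ∣ u.1.1 - 1) * ind ((M : ℤ) ∣ u.2.1 - 1)) := by
      intro f
      unfold Cl
      rw [VF_ind_and, VF_ind_and]
    unfold ExN
    simp only [h2]
    rw [← Finset.sum_mul, VF_sumN (fun x => ind ((M : ℤ) ∣ x - 1)), VF_one hM, mul_one, pow_succ]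
    field_simp
  unfold E3
  simp only [h1]
  unfold Ex cube2
  rw [← Finset.sum_div, Finset.sum_product]
  have h3 : ∑ v ∈ cube M, ∑ w ∈ cube M, ind ((M : ℤ) ∣ v.1 - 1) * ind ((M : ℤ) ∣ w.1 - 1) =
      (M : ℝ) ^ 4 := by
    rw [← Finset.sum_mul_sum, VF_cube (fun x => ind ((M : ℤ) ∣ x - 1)), VF_one hM]
    ring
  rw [h3]
  field_simp

/-- Proof. `box3_mean` with `q = M p ≤ 4N` and the function `ind (Cl) * ind (BadT)` (`Per3.mul`, `E3_mul`, `M` prime to `p`), `E3_cl`, `E3_bad`. -/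
theorem cl_bad_card {m H N M p : ℕ} (hm : 1 ≤ m) (hN : 0 < N) (hH : N ≤ H) (hM : 0 < M) (hp : p.Prime) (h2 : p ≠ 2)
    (hc : M.Coprime p) (hq : M * p ≤ 4 * N) :
    (((Bx m H N).filter fun g => Cl M g.1 g.2 ∧ BadT p g.1 g.2).card : ℝ) ≤
      (8 * (H : ℝ)) ^ (m + 1) * (8 * (N : ℝ)) ^ 6 * (20 / ((M : ℝ) ^ 3 * (p : ℝ) ^ 2)) := by
  rw [VF_card (fun f u => Cl M f u ∧ BadT p f u)]
  simp only [VF_ind_and]
  have h1 := box3_mean (m := m) (H := H) (N := N) (q := M * p) hN hH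
    (Nat.mul_pos hM hp.pos) hq (fun f u => ind (Cl M f u) * ind (BadT p f u))
    (fun f u => mul_nonneg (ind_nonneg _) (ind_nonneg _)) (VF_per.mul (Per3_bad p))
  refine h1.trans ?_
  refine mul_le_mul_of_nonneg_left ?_ (by positivity)
  rw [E3_mul hM hp.pos hc VF_per (Per3_bad p), E3_cl hM]
  have h2 := E3_bad hm p hp h2
  have h3 : (0 : ℝ) ≤ 1 / (M : ℝ) ^ 3 := by positivity
  calc 1 / (M : ℝ) ^ 3 * E3 m p (fun f u => ind (BadT p f u))
      ≤ 1 / (M : ℝ) ^ 3 * (20 / (p : ℝ) ^ 2) := mul_le_mul_of_nonneg_left h2 h3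
    _ = 20 / ((M : ℝ) ^ 3 * (p : ℝ) ^ 2) := by
        rw [div_mul_div_comm, one_mul]

/-- Proof. `box3_mean` with `q = p`, `E3_bad`. -/
theorem bad_card_p {m H N p : ℕ} (hm : 1 ≤ m) (hN : 0 < N) (hH : N ≤ H) (hp : p.Prime) (h2 : p ≠ 2) (hq : p ≤ 4 * N) :
    (((Bx m H N).filter fun g => BadT p g.1 g.2).card : ℝ) ≤
      (8 * (H : ℝ)) ^ (m + 1) * (8 * (N : ℝ)) ^ 6 * (20 / (p : ℝ) ^ 2) := by
  rw [VF_card (fun f u => BadT p f u)]
  have h1 := box3_mean (m := m) (H := H) (N := N) (q := p) hN hH hp.pos hq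
    (fun f u => ind (BadT p f u)) (fun f u => ind_nonneg _) (Per3_bad p)
  refine h1.trans ?_
  exact mul_le_mul_of_nonneg_left (E3_bad hm p hp h2) (by positivity)

/-- Proof. The coordinate `f m` has at least `H/M` values in `[1, H]` which are `≡ 1 mod M` (real division, `M ≤ N ≤ H`), the other `m` coordinates `2H + 1` values each; the same for `u.1.1`, `u.2.1` in `[1, N]`; the other four coordinates `2N + 1` values. -/
theorem cl_lower {m H N M : ℕ} (hM : 0 < M) (hMN : M ≤ N) (hH : N ≤ H) :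
    2 ^ (m + 4) * (H : ℝ) ^ (m + 1) * (N : ℝ) ^ 6 / (M : ℝ) ^ 3 ≤
      (((Bx m H N).filter fun g => Cl M g.1 g.2 ∧ 0 < g.1 (Fin.last m) ∧ 0 < g.2.1.1 ∧ 0 < g.2.2.1).card : ℝ) := by
  have hN0 : 0 < N := lt_of_lt_of_le hM hMN
  have hH0 : 0 < H := lt_of_lt_of_le hN0 hH
  have hM' : (0 : ℝ) < M := by exact_mod_cast hM
  set AH := (Icc (1 : ℤ) (H : ℤ)).filter fun x => (M : ℤ) ∣ x - 1 with hAH
  set AN := (Icc (1 : ℤ) (N : ℤ)).filter fun x => (M : ℤ) ∣ x - 1 with hAN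
  set SF : Finset (Vn m) := Fintype.piFinset fun i : Fin (m + 1) =>
    if i = Fin.last m then AH else Icc (-(H : ℤ)) (H : ℤ) with hSF
  set SV : Finset V := AN ×ˢ (Icc (-(N : ℤ)) (N : ℤ) ×ˢ Icc (-(N : ℤ)) (N : ℤ)) with hSV
  have hsub : SF ×ˢ (SV ×ˢ SV) ⊆
      (Bx m H N).filter fun g => Cl M g.1 g.2 ∧ 0 < g.1 (Fin.last m) ∧ 0 < g.2.1.1 ∧
        0 < g.2.2.1 := by
    rintro ⟨f, v, w⟩ hg
    rw [Finset.mem_product, Finset.mem_product] at hg
    obtain ⟨h1, h2, h3⟩ := hg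
    have hf : ∀ i : Fin (m + 1), f i ∈ (if i = Fin.last m then AH else Icc (-(H : ℤ)) (H : ℤ)) :=
      Fintype.mem_piFinset.1 h1
    have hfl : f (Fin.last m) ∈ AH := by
      have := hf (Fin.last m)
      rwa [if_pos rfl] at this
    rw [hAH, Finset.mem_filter, Finset.mem_Icc] at hfl
    have hv1 := (Finset.mem_product.1 h2).1
    have hv2 := Finset.mem_product.1 (Finset.mem_product.1 h2).2
    have hw1 := (Finset.mem_product.1 h3).1
    have hw2 := Finset.mem_product.1 (Finset.mem_product.1 h3).2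
    simp only [hAN, Finset.mem_filter, Finset.mem_Icc] at hv1 hw1
    rw [Finset.mem_filter, Bx, Finset.mem_product]
    refine ⟨⟨?_, ?_⟩, ⟨hfl.2, hv1.2, hw1.2⟩, by linarith [hfl.1.1], by linarith [hv1.1.1],
      by linarith [hw1.1.1]⟩
    · rw [boxN, Fintype.mem_piFinset]
      intro i
      have h4 := hf i
      by_cases hi : i = Fin.last m
      · rw [if_pos hi, hAH, Finset.mem_filter, Finset.mem_Icc] at h4
        rw [Finset.mem_Icc]
        exact ⟨by linarith [h4.1.1], h4.1.2⟩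
      · rw [if_neg hi] at h4
        exact h4
    · rw [box2, Finset.mem_product]
      constructor
      · rw [FGO.box, Finset.mem_product, Finset.mem_product, Finset.mem_Icc]
        exact ⟨⟨by linarith [hv1.1.1], hv1.1.2⟩, hv2.1, hv2.2⟩
      · rw [FGO.box, Finset.mem_product, Finset.mem_product, Finset.mem_Icc]
        exact ⟨⟨by linarith [hw1.1.1], hw1.1.2⟩, hw2.1, hw2.2⟩
  have hcard := Finset.card_le_card hsub
  have hI : ∀ B : ℕ, (Icc (-(B : ℤ)) (B : ℤ)).card = 2 * B + 1 := by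
    intro B
    rw [Int.card_Icc]
    omega
  have hSFc : SF.card = (2 * H + 1) ^ m * AH.card := by
    rw [hSF, Fintype.card_piFinset, Fin.prod_univ_castSucc, if_pos rfl]
    congr 1
    rw [Finset.prod_congr rfl fun i _ => by rw [if_neg (Fin.castSucc_lt_last i).ne, hI],
      Finset.prod_const, Finset.card_univ, Fintype.card_fin]
  have hSVc : SV.card = AN.card * ((2 * N + 1) * (2 * N + 1)) := by
    rw [hSV, Finset.card_product, Finset.card_product, hI]
  rw [Finset.card_product, Finset.card_product, hSFc, hSVc] at hcard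
  have hcR : (((2 * H + 1) ^ m * AH.card * (AN.card * ((2 * N + 1) * (2 * N + 1)) *
      (AN.card * ((2 * N + 1) * (2 * N + 1)))) : ℕ) : ℝ) ≤ _ := Nat.cast_le.2 hcard
  refine le_trans ?_ hcR
  push_cast
  have a1 := VF_AP H M hM hH0
  have a2 := VF_AP N M hM hN0
  rw [← hAH] at a1
  rw [← hAN] at a2
  have b1 : (0 : ℝ) ≤ (H : ℝ) / M := by positivity
  have b2 : (0 : ℝ) ≤ (N : ℝ) / M := by positivity
  have c1 : (2 * (H : ℝ)) ^ m ≤ (2 * (H : ℝ) + 1) ^ m :=
    pow_le_pow_left₀ (by positivity) (by linarith) m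
  have c2 : (2 * (N : ℝ)) * (2 * N) ≤ (2 * (N : ℝ) + 1) * (2 * N + 1) := by nlinarith
  have d1 : (N : ℝ) / M * ((2 * (N : ℝ)) * (2 * N)) ≤
      (AN.card : ℝ) * ((2 * (N : ℝ) + 1) * (2 * N + 1)) :=
    mul_le_mul a2 c2 (by positivity) (by positivity)
  have d2 : (2 * (H : ℝ)) ^ m * ((H : ℝ) / M) ≤ (2 * (H : ℝ) + 1) ^ m * (AH.card : ℝ) :=
    mul_le_mul c1 a1 b1 (by positivity)
  calc 2 ^ (m + 4) * (H : ℝ) ^ (m + 1) * (N : ℝ) ^ 6 / (M : ℝ) ^ 3
      = (2 * (H : ℝ)) ^ m * ((H : ℝ) / M) *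
        ((N : ℝ) / M * ((2 * (N : ℝ)) * (2 * N)) * ((N : ℝ) / M * ((2 * (N : ℝ)) * (2 * N)))) := by
        field_simp
        ring
    _ ≤ _ := mul_le_mul d2 (mul_le_mul d1 d1 (by positivity) (by positivity)) (by positivity)
        (by positivity)

end FQQ
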