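import Pool.Agent.Lib.MP_10e784_agF.XA2

/-! JOB XB -/

set_option autoImplicit false

open Classical

namespace FQQ

open Finset Polynomial FGO

/-- the pairs for which the large primes cause no trouble -/
def GoodU (z : ℕ) (u : V × V) : Prop :=
  u.1.1 ≠ 0 ∧ u.2.1 ≠ 0 ∧ rs u.1 u.2 ≠ 0 ∧ ∀ p : ℕ, p.Prime → z < p → cV p u.1 ≠ 0 ∧ cV p u.2 ≠ 0

/-- Proof. A nonzero integer `n` has at most `log |n| / log 2` prime factors (`2^k ≤ |n|`). -/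
theorem few_primes (n : ℤ) (hn : n ≠ 0) (s : Finset ℕ) (hs : ∀ p ∈ s, p.Prime ∧ (p : ℤ) ∣ n) :
    (s.card : ℝ) ≤ 2 * Real.log (n.natAbs : ℝ) := by
  have h1 : ∏ p ∈ s, p ∣ n.natAbs := by
    refine Finset.prod_primes_dvd _ (fun p hp => (hs p hp).1.prime) (fun p hp => ?_)
    exact Int.natCast_dvd.1 (hs p hp).2
  have hn0 : 0 < n.natAbs := Int.natAbs_pos.2 hn
  have h2 : 2 ^ s.card ≤ ∏ p ∈ s, p := by
    rw [← Finset.prod_const]
    exact Finset.prod_le_prod' fun p hp => (hs p hp).1.two_le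
  have h3 : 2 ^ s.card ≤ n.natAbs := h2.trans (Nat.le_of_dvd hn0 h1)
  have h4 : ((2 : ℝ)) ^ s.card ≤ (n.natAbs : ℝ) := by exact_mod_cast h3
  have h5 := Real.log_le_log (by positivity) h4
  rw [Real.log_pow] at h5
  have h6 := Real.log_two_gt_d9
  have h7 : (0 : ℝ) ≤ s.card := Nat.cast_nonneg _
  nlinarith

private theorem XB_union {α : Type*} (B : Finset α) (T : Finset ℕ) (Q : ℕ → α → Prop) [∀ p, DecidablePred (Q p)]
    [DecidablePred fun f => ∃ p ∈ T, Q p f] (c : ℝ) (h : ∀ p ∈ T, ((B.filter (Q p)).card : ℝ) ≤ c) :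
    ((B.filter fun f => ∃ p ∈ T, Q p f).card : ℝ) ≤ T.card * c := by
  have h1 : (B.filter fun f => ∃ p ∈ T, Q p f) ⊆ T.biUnion fun p => B.filter (Q p) := by
    intro f hf
    rw [mem_filter] at hf
    obtain ⟨hB, p, hp, hQ⟩ := hf
    exact mem_biUnion.2 ⟨p, hp, mem_filter.2 ⟨hB, hQ⟩⟩
  have h2 : (B.filter fun f => ∃ p ∈ T, Q p f).card ≤ ∑ p ∈ T, (B.filter (Q p)).card :=
    (card_le_card h1).trans card_biUnion_le
  calc ((B.filter fun f => ∃ p ∈ T, Q p f).card : ℝ) ≤ ((∑ p ∈ T, (B.filter (Q p)).card : ℕ) : ℝ) := by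
        exact_mod_cast h2
    _ = ∑ p ∈ T, ((B.filter (Q p)).card : ℝ) := by push_cast; rfl
    _ ≤ ∑ _p ∈ T, c := Finset.sum_le_sum h
    _ = T.card * c := by rw [Finset.sum_const, nsmul_eq_mul]

private theorem XB_union2 {α : Type*} (B : Finset α) (z P H : ℕ) (hz : 1 ≤ z) (Q : ℕ → α → Prop)
    [∀ p, DecidablePred (Q p)] [DecidablePred fun f => ∃ p : ℕ, p.Prime ∧ z < p ∧ p ≤ P ∧ Q p f] (c : ℝ) (hc : 0 ≤ c)
    (h : ∀ p : ℕ, p.Prime → z < p → ((B.filter (Q p)).card : ℝ) ≤ c * (2 * (H : ℝ) / p + 1) ^ 2) :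
    ((B.filter fun f => ∃ p : ℕ, p.Prime ∧ z < p ∧ p ≤ P ∧ Q p f).card : ℝ) ≤
      c * (8 * (H : ℝ) ^ 2 / z + 2 * P) := by
  have h1 : (B.filter fun f => ∃ p : ℕ, p.Prime ∧ z < p ∧ p ≤ P ∧ Q p f) ⊆
      ((Ioc z P).filter Nat.Prime).biUnion fun p => B.filter (Q p) := by
    intro f hf
    rw [mem_filter] at hf
    obtain ⟨hB, p, hp, hzp, hpP, hQ⟩ := hf
    exact mem_biUnion.2 ⟨p, mem_filter.2 ⟨mem_Ioc.2 ⟨hzp, hpP⟩, hp⟩, mem_filter.2 ⟨hB, hQ⟩⟩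
  have h2 : (B.filter fun f => ∃ p : ℕ, p.Prime ∧ z < p ∧ p ≤ P ∧ Q p f).card ≤
      ∑ p ∈ (Ioc z P).filter Nat.Prime, (B.filter (Q p)).card := (card_le_card h1).trans card_biUnion_le
  have hz0 : (0 : ℝ) < z := by exact_mod_cast hz
  have h3 : ∑ p ∈ Ioc z P, ((p : ℝ) ^ 2)⁻¹ ≤ 1 / z := by
    rcases le_total z P with h | h
    · have h4 := sum_Ioc_inv_sq_le_sub (α := ℝ) (by omega : z ≠ 0) h
      have h5 : (0 : ℝ) ≤ (P : ℝ)⁻¹ := by positivity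
      rw [one_div]
      linarith
    · rw [Finset.Ioc_eq_empty (by omega), Finset.sum_empty]
      positivity
  have h6 : ∀ p ∈ Ioc z P, (2 * (H : ℝ) / p + 1) ^ 2 ≤ 8 * (H : ℝ) ^ 2 * ((p : ℝ) ^ 2)⁻¹ + 2 := by
    intro p hp
    have hp0 : (0 : ℝ) < p := by
      have : 0 < p := by
        have := (mem_Ioc.1 hp).1
        omega
      exact_mod_cast this
    have e : 8 * (H : ℝ) ^ 2 * ((p : ℝ) ^ 2)⁻¹ = 2 * (2 * (H : ℝ) / p) ^ 2 := by
      field_simp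
      ring
    rw [e]
    nlinarith [sq_nonneg (2 * (H : ℝ) / p - 1)]
  calc ((B.filter fun f => ∃ p : ℕ, p.Prime ∧ z < p ∧ p ≤ P ∧ Q p f).card : ℝ)
      ≤ ((∑ p ∈ (Ioc z P).filter Nat.Prime, (B.filter (Q p)).card : ℕ) : ℝ) := by exact_mod_cast h2
    _ = ∑ p ∈ (Ioc z P).filter Nat.Prime, ((B.filter (Q p)).card : ℝ) := by push_cast; rfl
    _ ≤ ∑ p ∈ (Ioc z P).filter Nat.Prime, c * (2 * (H : ℝ) / p + 1) ^ 2 := by
        refine Finset.sum_le_sum fun p hp => ?_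
        rw [mem_filter, mem_Ioc] at hp
        exact h p hp.2 hp.1.1
    _ ≤ ∑ p ∈ Ioc z P, c * (2 * (H : ℝ) / p + 1) ^ 2 := by
        refine Finset.sum_le_sum_of_subset_of_nonneg (Finset.filter_subset _ _) fun p _ _ => ?_
        positivity
    _ ≤ ∑ p ∈ Ioc z P, c * (8 * (H : ℝ) ^ 2 * ((p : ℝ) ^ 2)⁻¹ + 2) := by
        exact Finset.sum_le_sum fun p hp => mul_le_mul_of_nonneg_left (h6 p hp) hc
    _ = c * (8 * (H : ℝ) ^ 2 * ∑ p ∈ Ioc z P, ((p : ℝ) ^ 2)⁻¹ + 2 * ((Ioc z P).card : ℝ)) := by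
        rw [← Finset.mul_sum, Finset.sum_add_distrib, ← Finset.mul_sum, Finset.sum_const, nsmul_eq_mul]
        ring
    _ ≤ c * (8 * (H : ℝ) ^ 2 * (1 / z) + 2 * P) := by
        refine mul_le_mul_of_nonneg_left ?_ hc
        have h7 : ((Ioc z P).card : ℝ) ≤ P := by
          rw [Nat.card_Ioc]
          exact_mod_cast Nat.sub_le P z
        have h8 := mul_le_mul_of_nonneg_left h3 (by positivity : (0 : ℝ) ≤ 8 * (H : ℝ) ^ 2)
        linarith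
    _ = c * (8 * (H : ℝ) ^ 2 / z + 2 * P) := by rw [mul_one_div]

private theorem XB_rs {N : ℕ} {v w : V} (hv : |v.1| ≤ (N : ℤ) ∧ |v.2.1| ≤ (N : ℤ) ∧ |v.2.2| ≤ (N : ℤ))
    (hw : |w.1| ≤ (N : ℤ) ∧ |w.2.1| ≤ (N : ℤ) ∧ |w.2.2| ≤ (N : ℤ)) : |rs v w| ≤ 8 * (N : ℤ) ^ 4 := by
  obtain ⟨h1, h2, h3⟩ := hv
  obtain ⟨g1, g2, g3⟩ := hw
  have hN : (0 : ℤ) ≤ N := Int.natCast_nonneg _
  have key : ∀ a b c d : ℤ, |a| ≤ (N : ℤ) → |b| ≤ (N : ℤ) → |c| ≤ (N : ℤ) → |d| ≤ (N : ℤ) →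
      |a * b - c * d| ≤ 2 * (N : ℤ) ^ 2 := by
    intro a b c d ha hb hc hd
    have e1 : |a * b| ≤ (N : ℤ) ^ 2 := by
      rw [abs_mul, pow_two]
      exact mul_le_mul ha hb (abs_nonneg _) hN
    have e2 : |c * d| ≤ (N : ℤ) ^ 2 := by
      rw [abs_mul, pow_two]
      exact mul_le_mul hc hd (abs_nonneg _) hN
    have e3 := abs_sub (a * b) (c * d)
    linarith
  have k1 := key v.1 w.2.2 w.1 v.2.2 h1 g3 g1 h3
  have k2 := key v.1 w.2.1 w.1 v.2.1 h1 g2 g1 h2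
  have k3 := key v.2.1 w.2.2 w.2.1 v.2.2 h2 g3 g2 h3
  unfold rs
  have e1 : |(v.1 * w.2.2 - w.1 * v.2.2) ^ 2| ≤ 4 * (N : ℤ) ^ 4 := by
    rw [abs_pow]
    calc |v.1 * w.2.2 - w.1 * v.2.2| ^ 2 ≤ (2 * (N : ℤ) ^ 2) ^ 2 := pow_le_pow_left₀ (abs_nonneg _) k1 2
      _ = 4 * (N : ℤ) ^ 4 := by ring
  have e2 : |(v.1 * w.2.1 - w.1 * v.2.1) * (v.2.1 * w.2.2 - w.2.1 * v.2.2)| ≤ 4 * (N : ℤ) ^ 4 := by
    rw [abs_mul]
    calc |v.1 * w.2.1 - w.1 * v.2.1| * |v.2.1 * w.2.2 - w.2.1 * v.2.2| ≤ (2 * (N : ℤ) ^ 2) * (2 * (N : ℤ) ^ 2) :=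
          mul_le_mul k2 k3 (abs_nonneg _) (by positivity)
      _ = 4 * (N : ℤ) ^ 4 := by ring
  have e3 := abs_sub ((v.1 * w.2.2 - w.1 * v.2.2) ^ 2) ((v.1 * w.2.1 - w.1 * v.2.1) * (v.2.1 * w.2.2 - w.2.1 * v.2.2))
  linarith

/-- (fixed `u`) Proof. `Rough` fails for `f` only if for some prime `p > z` (with `v = u.1`, `w = u.2`):
(i) `p ∣ v.1`, `p ∣ Rs f v` (or the same with `w`): `p ∣ v.1 ≠ 0`, `p ≤ N ≤ H`; at most `2 log N` primes (`few_primes`), for each one at most `3 (3H)^(m+1)/p ≤ 3 (3H)^(m+1)/z` forms (`Rs_cnt`);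
(ii) `p ∣ rs v w`, `p ∣ Rs f v` or `p ∣ Rs f w`: `0 < |rs v w| ≤ 8 N⁴ ≤ H`, at most `2 log (8 N⁴)` primes;
(iii) `p ≤ P`, `p ∤ v.1`, `Pq (cV p v) ∣ Pf (cN p f)` (or `w`): `dvd_cnt`;
(iv) `p ≤ P`, none of (i)-(iii), `p ∣ Rs f v`, `p ∣ Rs f w`: `two_cnt`.
For (iii), (iv): `∑_{z < p ≤ P} (2H/p + 1)² ≤ ∑ (8H²/p² + 2) ≤ 8H²/z + 2P`. So the total is `≤ C H^(m+1) ((1 + log N)/z + P/H²)` with `C` depending only on `m`. -/
theorem rough_u (m : ℕ) (hm : 1 ≤ m) : ∃ C : ℝ, 0 < C ∧ ∀ H N z P : ℕ, 0 < N → 8 * N ^ 4 ≤ H → 1 ≤ z →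
    ∀ u ∈ box2 N, GoodU z u → (((boxN m H).filter fun f => ¬ Rough z P f u).card : ℝ) ≤
      C * (H : ℝ) ^ (m + 1) * ((1 + Real.log N) / z + (P : ℝ) / (H : ℝ) ^ 2) := by
  refine ⟨108 * 3 ^ (m + 1), by positivity, ?_⟩
  rintro H N z P hN hNH hz ⟨v, w⟩ hu ⟨hv0, hw0, hr0, hlarge⟩
  simp only at hv0 hw0 hr0 hlarge
  have hH1 : 1 ≤ H := by
    have : 1 ≤ 8 * N ^ 4 := by
      have : 0 < N ^ 4 := by positivity
      omega
    omega
  have hNH' : N ≤ H := by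
    calc N = N ^ 1 := (pow_one N).symm
      _ ≤ N ^ 4 := Nat.pow_le_pow_right hN (by norm_num)
      _ ≤ 8 * N ^ 4 := by omega
      _ ≤ H := hNH
  have hHr : (1 : ℝ) ≤ H := by exact_mod_cast hH1
  have hH0 : (0 : ℝ) < H := by linarith
  have hz0 : (0 : ℝ) < z := by exact_mod_cast hz
  have hN1 : (1 : ℝ) ≤ N := by exact_mod_cast hN
  have hlogN : 0 ≤ Real.log N := Real.log_nonneg hN1
  -- the coordinates
  rw [box2, mem_product, FGO.box, mem_product, mem_product, mem_product, mem_product, mem_Icc, mem_Icc, mem_Icc, mem_Icc,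
    mem_Icc, mem_Icc] at hu
  obtain ⟨⟨a1, a2, a3⟩, b1, b2, b3⟩ := hu
  have hvN : |v.1| ≤ (N : ℤ) ∧ |v.2.1| ≤ (N : ℤ) ∧ |v.2.2| ≤ (N : ℤ) := ⟨abs_le.2 a1, abs_le.2 a2, abs_le.2 a3⟩
  have hwN : |w.1| ≤ (N : ℤ) ∧ |w.2.1| ≤ (N : ℤ) ∧ |w.2.2| ≤ (N : ℤ) := ⟨abs_le.2 b1, abs_le.2 b2, abs_le.2 b3⟩
  have hrsN := XB_rs hvN hwN
  -- prime divisors of a small number
  have hsmall : ∀ (n : ℤ) (K : ℕ), n ≠ 0 → |n| ≤ (K : ℤ) → K ≤ H → 1 ≤ K → ∀ x : V, (∀ p : ℕ, p.Prime → z < p → cV p x ≠ 0) →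
      (((boxN m H).filter fun f => ∃ p ∈ n.natAbs.primeFactors.filter (fun p => z < p), (p : ℤ) ∣ Rs f x).card : ℝ) ≤
        2 * Real.log K * (3 * (3 * (H : ℝ)) ^ (m + 1) / z) := by
    intro n K hn hnK hKH hK1 x hx
    have hcard : ((n.natAbs.primeFactors.filter (fun p => z < p)).card : ℝ) ≤ 2 * Real.log K := by
      have h1 := few_primes n hn (n.natAbs.primeFactors.filter (fun p => z < p)) (fun p hp => by
        rw [mem_filter] at hp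
        exact ⟨Nat.prime_of_mem_primeFactors hp.1, Int.natCast_dvd.2 (Nat.dvd_of_mem_primeFactors hp.1)⟩)
      have h2 : (n.natAbs : ℝ) ≤ K := by
        have h3 : n.natAbs ≤ K := by
          rw [Int.abs_eq_natAbs] at hnK
          exact_mod_cast hnK
        exact_mod_cast h3
      have h3 : (0 : ℝ) < n.natAbs := by exact_mod_cast Int.natAbs_pos.2 hn
      have h4 := Real.log_le_log h3 h2
      linarith
    have hpos : 0 ≤ 3 * (3 * (H : ℝ)) ^ (m + 1) / z := by positivity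
    have hU := XB_union (boxN m H) (n.natAbs.primeFactors.filter (fun p => z < p)) (fun p f => (p : ℤ) ∣ Rs f x)
      (3 * (3 * (H : ℝ)) ^ (m + 1) / z) ?_
    · refine le_trans ?_ (hU.trans (mul_le_mul_of_nonneg_right hcard hpos))
      exact_mod_cast card_le_card (fun f hf => by
        rw [mem_filter] at hf ⊢
        exact hf)
    intro p hp
    rw [mem_filter] at hp
    have hpp := Nat.prime_of_mem_primeFactors hp.1
    have hpH : p ≤ H := by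
      have h1 := Nat.le_of_dvd (Int.natAbs_pos.2 hn) (Nat.dvd_of_mem_primeFactors hp.1)
      have h2 : n.natAbs ≤ K := by
        rw [Int.abs_eq_natAbs] at hnK
        exact_mod_cast hnK
      omega
    have hzp : (z : ℝ) ≤ p := by exact_mod_cast hp.2.le
    have hq : 3 * (3 * (H : ℝ)) ^ (m + 1) / p ≤ 3 * (3 * (H : ℝ)) ^ (m + 1) / z :=
      div_le_div_of_nonneg_left (by positivity) hz0 hzp
    refine le_trans ?_ ((Rs_cnt hm hpp hpH x (hx p hpp hp.2)).trans hq)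
    exact_mod_cast card_le_card (fun f hf => by
      rw [mem_filter] at hf ⊢
      exact hf)
  have hlog8 : Real.log ((8 * N ^ 4 : ℕ) : ℝ) ≤ 3 + 4 * Real.log N := by
    push_cast
    rw [Real.log_mul (by norm_num) (by positivity), Real.log_pow]
    have h8 : Real.log 8 ≤ 3 := by
      have h1 : Real.log 8 = 3 * Real.log 2 := by
        rw [show (8 : ℝ) = 2 ^ 3 by norm_num, Real.log_pow]
        norm_num
      have h2 := Real.log_two_lt_d9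
      rw [h1]
      linarith
    push_cast
    linarith
  have hK1 : 1 ≤ 8 * N ^ 4 := by
    have h1 : 0 < N ^ 4 := by positivity
    omega
  have hB1 := hsmall v.1 N hv0 hvN.1 hNH' hN v (fun p hp hzp => (hlarge p hp hzp).1)
  have hB2 := hsmall w.1 N hw0 hwN.1 hNH' hN w (fun p hp hzp => (hlarge p hp hzp).2)
  have hK8 : |rs v w| ≤ ((8 * N ^ 4 : ℕ) : ℤ) := by
    push_cast
    exact hrsN
  have hB3 := hsmall (rs v w) (8 * N ^ 4) hr0 hK8 hNH hK1 v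
    (fun p hp hzp => (hlarge p hp hzp).1)
  have hB4 := hsmall (rs v w) (8 * N ^ 4) hr0 hK8 hNH hK1 w
    (fun p hp hzp => (hlarge p hp hzp).2)
  have hcpos : (0 : ℝ) ≤ (3 * (H : ℝ)) ^ (m - 1) := by positivity
  have hB5 := XB_union2 (boxN m H) z P H hz (fun p f => ¬ (p : ℤ) ∣ v.1 ∧ Pq (cV p v) ∣ Pf (cN p f))
    ((3 * (H : ℝ)) ^ (m - 1)) hcpos (fun p hp _ => by
      by_cases hd : (p : ℤ) ∣ v.1
      · rw [Finset.filter_false_of_mem (fun f _ h => h.1 hd), Finset.card_empty]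
        push_cast
        positivity
      · refine le_trans ?_ (dvd_cnt hm hH1 hp v hd)
        exact_mod_cast card_le_card (fun f hf => by
          rw [mem_filter] at hf ⊢
          exact ⟨hf.1, hf.2.2⟩))
  have hB6 := XB_union2 (boxN m H) z P H hz (fun p f => ¬ (p : ℤ) ∣ w.1 ∧ Pq (cV p w) ∣ Pf (cN p f))
    ((3 * (H : ℝ)) ^ (m - 1)) hcpos (fun p hp _ => by
      by_cases hd : (p : ℤ) ∣ w.1
      · rw [Finset.filter_false_of_mem (fun f _ h => h.1 hd), Finset.card_empty]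
        push_cast
        positivity
      · refine le_trans ?_ (dvd_cnt hm hH1 hp w hd)
        exact_mod_cast card_le_card (fun f hf => by
          rw [mem_filter] at hf ⊢
          exact ⟨hf.1, hf.2.2⟩))
  have hB7 := XB_union2 (boxN m H) z P H hz (fun p f => (¬ (p : ℤ) ∣ v.1 ∧ ¬ (p : ℤ) ∣ w.1 ∧ ¬ (p : ℤ) ∣ rs v w) ∧
      (((p : ℤ) ∣ Rs f v ∧ (p : ℤ) ∣ Rs f w) ∧ ¬ Pq (cV p v) ∣ Pf (cN p f) ∧ ¬ Pq (cV p w) ∣ Pf (cN p f)))
    (4 * (3 * (H : ℝ)) ^ (m - 1)) (by positivity) (fun p hp _ => by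
      by_cases hd : ¬ (p : ℤ) ∣ v.1 ∧ ¬ (p : ℤ) ∣ w.1 ∧ ¬ (p : ℤ) ∣ rs v w
      · have h1 := two_cnt hm hH1 hp v w hd.1 hd.2.1 hd.2.2
        rw [mul_assoc]
        refine le_trans ?_ h1
        exact_mod_cast card_le_card (fun f hf => by
          rw [mem_filter] at hf ⊢
          exact ⟨hf.1, hf.2.2⟩)
      · rw [Finset.filter_false_of_mem (fun f _ h => hd h.1), Finset.card_empty]
        push_cast
        positivity)
  -- the union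
  have hsub : ((boxN m H).filter fun f => ¬ Rough z P f (v, w)) ⊆
      ((boxN m H).filter fun f => ∃ p ∈ v.1.natAbs.primeFactors.filter (fun p => z < p), (p : ℤ) ∣ Rs f v) ∪
      (((boxN m H).filter fun f => ∃ p ∈ w.1.natAbs.primeFactors.filter (fun p => z < p), (p : ℤ) ∣ Rs f w) ∪
      (((boxN m H).filter fun f => ∃ p ∈ (rs v w).natAbs.primeFactors.filter (fun p => z < p), (p : ℤ) ∣ Rs f v) ∪
      (((boxN m H).filter fun f => ∃ p ∈ (rs v w).natAbs.primeFactors.filter (fun p => z < p), (p : ℤ) ∣ Rs f w) ∪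
      (((boxN m H).filter fun f => ∃ p : ℕ, p.Prime ∧ z < p ∧ p ≤ P ∧ (¬ (p : ℤ) ∣ v.1 ∧ Pq (cV p v) ∣ Pf (cN p f))) ∪
      (((boxN m H).filter fun f => ∃ p : ℕ, p.Prime ∧ z < p ∧ p ≤ P ∧ (¬ (p : ℤ) ∣ w.1 ∧ Pq (cV p w) ∣ Pf (cN p f))) ∪
      ((boxN m H).filter fun f => ∃ p : ℕ, p.Prime ∧ z < p ∧ p ≤ P ∧
        ((¬ (p : ℤ) ∣ v.1 ∧ ¬ (p : ℤ) ∣ w.1 ∧ ¬ (p : ℤ) ∣ rs v w) ∧
      (((p : ℤ) ∣ Rs f v ∧ (p : ℤ) ∣ Rs f w) ∧ ¬ Pq (cV p v) ∣ Pf (cN p f) ∧ ¬ Pq (cV p w) ∣ Pf (cN p f))))))))) := by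
    intro f hf
    rw [mem_filter] at hf
    obtain ⟨hfB, hnr⟩ := hf
    have hmem : ∀ (n : ℤ), n ≠ 0 → ∀ p : ℕ, p.Prime → z < p → (p : ℤ) ∣ n →
        p ∈ n.natAbs.primeFactors ∧ z < p := by
      intro n hn p hp hzp hpn
      rw [Nat.mem_primeFactors]
      exact ⟨⟨hp, Int.natCast_dvd.1 hpn, (Int.natAbs_pos.2 hn).ne'⟩, hzp⟩
    simp only [mem_union, mem_filter]
    unfold Rough at hnr
    push Not at hnr
    obtain ⟨p, hp, hzp, hnr⟩ := hnr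
    simp only at hnr
    by_cases hrs : (p : ℤ) ∣ rs v w
    · by_cases hfv : (p : ℤ) ∣ Rs f v
      · exact Or.inr (Or.inr (Or.inl ⟨hfB, p, hmem _ hr0 p hp hzp hrs, hfv⟩))
      · by_cases hfw : (p : ℤ) ∣ Rs f w
        · exact Or.inr (Or.inr (Or.inr (Or.inl ⟨hfB, p, hmem _ hr0 p hp hzp hrs, hfw⟩)))
        · exfalso
          have h1 := hnr (fun _ => ⟨fun h => absurd h hfv, fun h => absurd h hfw, fun h => absurd h hfv⟩)
          exact hfw (h1.2 hfv)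
    · by_cases hmain : p ≤ P → ((p : ℤ) ∣ Rs f v → ¬ (p : ℤ) ∣ v.1 ∧ ¬ Pq (cV p v) ∣ Pf (cN p f)) ∧
          ((p : ℤ) ∣ Rs f w → ¬ (p : ℤ) ∣ w.1 ∧ ¬ Pq (cV p w) ∣ Pf (cN p f)) ∧
          ((p : ℤ) ∣ Rs f v → ¬ (p : ℤ) ∣ Rs f w)
      · exfalso
        exact hrs (hnr hmain).1
      · push Not at hmain
        obtain ⟨hpP, hmain⟩ := hmain
        by_cases hv1 : (p : ℤ) ∣ v.1
        · by_cases hfv : (p : ℤ) ∣ Rs f v
          · exact Or.inl ⟨hfB, p, hmem _ hv0 p hp hzp hv1, hfv⟩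
          · -- the failure comes from `w`
            by_cases hfw : (p : ℤ) ∣ Rs f w
            · by_cases hw1 : (p : ℤ) ∣ w.1
              · exact Or.inr (Or.inl ⟨hfB, p, hmem _ hw0 p hp hzp hw1, hfw⟩)
              · by_cases hPw : Pq (cV p w) ∣ Pf (cN p f)
                · exact Or.inr (Or.inr (Or.inr (Or.inr (Or.inr (Or.inl ⟨hfB, p, hp, hzp, hpP, hw1, hPw⟩)))))
                · exfalso
                  exact hfv (hmain (fun h => absurd h hfv) (fun _ => ⟨hw1, hPw⟩)).1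
            · exfalso
              exact hfv (hmain (fun h => absurd h hfv) (fun h => absurd h hfw)).1
        · by_cases hPv : Pq (cV p v) ∣ Pf (cN p f)
          · exact Or.inr (Or.inr (Or.inr (Or.inr (Or.inl ⟨hfB, p, hp, hzp, hpP, hv1, hPv⟩))))
          · by_cases hfw : (p : ℤ) ∣ Rs f w
            · by_cases hw1 : (p : ℤ) ∣ w.1
              · exact Or.inr (Or.inl ⟨hfB, p, hmem _ hw0 p hp hzp hw1, hfw⟩)
              · by_cases hPw : Pq (cV p w) ∣ Pf (cN p f)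
                · exact Or.inr (Or.inr (Or.inr (Or.inr (Or.inr (Or.inl ⟨hfB, p, hp, hzp, hpP, hw1, hPw⟩)))))
                · have h1 := hmain (fun _ => ⟨hv1, hPv⟩) (fun _ => ⟨hw1, hPw⟩)
                  exact Or.inr (Or.inr (Or.inr (Or.inr (Or.inr (Or.inr
                    ⟨hfB, p, hp, hzp, hpP, ⟨hv1, hw1, hrs⟩, h1, hPv, hPw⟩)))))
            · exfalso
              exact hfw (hmain (fun _ => ⟨hv1, hPv⟩) (fun h => absurd h hfw)).2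
  have hcard := (card_le_card hsub).trans ((card_union_le _ _).trans (Nat.add_le_add_left ((card_union_le _ _).trans
    (Nat.add_le_add_left ((card_union_le _ _).trans (Nat.add_le_add_left ((card_union_le _ _).trans
    (Nat.add_le_add_left ((card_union_le _ _).trans (Nat.add_le_add_left (card_union_le _ _) _)) _)) _)) _)) _))
  have hcardR : (((boxN m H).filter fun f => ¬ Rough z P f (v, w)).card : ℝ) ≤
      2 * Real.log N * (3 * (3 * (H : ℝ)) ^ (m + 1) / z) + (2 * Real.log N * (3 * (3 * (H : ℝ)) ^ (m + 1) / z) +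
      (2 * Real.log ((8 * N ^ 4 : ℕ) : ℝ) * (3 * (3 * (H : ℝ)) ^ (m + 1) / z) +
      (2 * Real.log ((8 * N ^ 4 : ℕ) : ℝ) * (3 * (3 * (H : ℝ)) ^ (m + 1) / z) +
      ((3 * (H : ℝ)) ^ (m - 1) * (8 * (H : ℝ) ^ 2 / z + 2 * P) + ((3 * (H : ℝ)) ^ (m - 1) * (8 * (H : ℝ) ^ 2 / z + 2 * P) +
      4 * (3 * (H : ℝ)) ^ (m - 1) * (8 * (H : ℝ) ^ 2 / z + 2 * P)))))) := by
    have hcast := (Nat.cast_le (α := ℝ)).2 hcard
    refine hcast.trans ?_
    rw [Nat.cast_add, Nat.cast_add, Nat.cast_add, Nat.cast_add, Nat.cast_add, Nat.cast_add]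
    exact add_le_add hB1 (add_le_add hB2 (add_le_add hB3 (add_le_add hB4 (add_le_add hB5 (add_le_add hB6 hB7)))))
  refine hcardR.trans ?_
  obtain ⟨k, rfl⟩ : ∃ k, m = k + 1 := ⟨m - 1, by omega⟩
  have e0 : k + 1 - 1 = k := by omega
  rw [e0]
  obtain ⟨t, ht⟩ : ∃ t : ℝ, t = (1 + Real.log N) / z := ⟨_, rfl⟩
  have ht1 : 1 / (z : ℝ) ≤ t := by
    rw [ht]
    exact div_le_div_of_nonneg_right (by linarith) hz0.le
  have ht0 : 0 < 1 / (z : ℝ) := by positivity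
  have hlz : Real.log N / z = t - 1 / z := by
    rw [ht]
    ring
  obtain ⟨M, hM⟩ : ∃ M : ℝ, M = (3 : ℝ) ^ (k + 1 + 1) * (H : ℝ) ^ (k + 1 + 1) := ⟨_, rfl⟩
  have hM0 : 0 ≤ M := by rw [hM]; positivity
  have e1 : (3 * (H : ℝ)) ^ (k + 1 + 1) = M := by rw [hM, mul_pow]
  have e2 : (3 * (H : ℝ)) ^ k * (8 * (H : ℝ) ^ 2 / z + 2 * P) = M / 9 * (8 * (1 / z) + 2 * (P / (H : ℝ) ^ 2)) := by
    rw [hM, mul_pow]
    field_simp
    ring
  have e3 : 4 * (3 * (H : ℝ)) ^ k * (8 * (H : ℝ) ^ 2 / z + 2 * P) =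
      4 * (M / 9 * (8 * (1 / z) + 2 * (P / (H : ℝ) ^ 2))) := by
    rw [← e2]
    ring
  have e4 : 2 * Real.log N * (3 * (3 * (H : ℝ)) ^ (k + 1 + 1) / z) = 6 * M * (t - 1 / z) := by
    rw [e1, ← hlz]
    ring
  have e5 : 2 * Real.log ((8 * N ^ 4 : ℕ) : ℝ) * (3 * (3 * (H : ℝ)) ^ (k + 1 + 1) / z) ≤
      24 * M * t := by
    rw [e1]
    calc 2 * Real.log ((8 * N ^ 4 : ℕ) : ℝ) * (3 * M / z) ≤ 2 * (3 + 4 * Real.log N) * (3 * M / z) := by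
          refine mul_le_mul_of_nonneg_right (by linarith) (by positivity)
      _ ≤ 2 * (4 * (1 + Real.log N)) * (3 * M / z) := by
          refine mul_le_mul_of_nonneg_right (by linarith) (by positivity)
      _ = 24 * M * t := by rw [ht]; ring
  have hPH : (0 : ℝ) ≤ P / (H : ℝ) ^ 2 := by positivity
  have e6 : 108 * 3 ^ (k + 1 + 1) * (H : ℝ) ^ (k + 1 + 1) * ((1 + Real.log N) / z + (P : ℝ) / (H : ℝ) ^ 2) =
      108 * M * (t + P / (H : ℝ) ^ 2) := by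
    rw [hM, ht]
    ring
  rw [e2, e3, e4, e6]
  have f1 : M * (1 / z) ≤ M * t := mul_le_mul_of_nonneg_left ht1 hM0
  have f2 : 0 ≤ M * (P / (H : ℝ) ^ 2) := mul_nonneg hM0 hPH
  have f3 : 0 ≤ M * (1 / z) := mul_nonneg hM0 ht0.le
  nlinarith

end FQQ
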