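import Pool.Agent.Lib.MP_10e784_agF.DV
import Pool.Agent.Lib.MP_10e784_agF.XB
import Pool.Agent.Lib.MP_10e784_agF.RE

/-! JOB VG -/

set_option autoImplicit false

open Classical

namespace FQQ

open Finset Polynomial FGO

/-- the case of a monic form -/
theorem VG_monic {m p : ℕ} (hm : 2 ≤ m) (hp : p.Prime) (f : Vn m) (v : V) (hv : v.1 = 1)
    (h : Pq (cV p v) ∣ Pf (cN p f)) : (p : ℤ) ^ 2 ∣ Rs f v := by
  have : Fact p.Prime := ⟨hp⟩
  have hdeg : (Pq v).natDegree = 2 := by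
    unfold Pq
    exact natDegree_quadratic (by rw [hv]; exact one_ne_zero)
  have hmon : (Pq v).Monic := by
    unfold Monic leadingCoeff
    rw [hdeg]
    unfold Pq
    rw [coeff_add, coeff_add, coeff_C_mul, coeff_X_pow, coeff_C_mul, coeff_X, coeff_C, hv]
    norm_num
  obtain ⟨r, hr⟩ : ∃ r : ℤ[X], r = Pf f %ₘ Pq v := ⟨_, rfl⟩
  obtain ⟨g, hg⟩ : ∃ g : ℤ[X], g = Pf f /ₘ Pq v := ⟨_, rfl⟩
  have h1 : r + Pq v * g = Pf f := by
    rw [hr, hg]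
    exact modByMonic_add_div (Pf f) (Pq v)
  have h2 : r.map (Int.castRingHom (ZMod p)) = 0 := by
    rw [hr, map_modByMonic _ hmon, RB_map_Pf, RB_map_Pq]
    have hmon' : (Pq (cV p v)).Monic := by
      rw [← RB_map_Pq]
      exact hmon.map _
    exact (modByMonic_eq_zero_iff_dvd hmon').2 h
  have h3 : C (p : ℤ) ∣ r := by
    rw [C_dvd_iff_dvd_coeff]
    intro i
    have h4 := congrArg (fun q => q.coeff i) h2
    simp only [coeff_map, coeff_zero] at h4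
    exact (ZMod.intCast_zmod_eq_zero_iff_dvd _ p).1 h4
  obtain ⟨r', hr'⟩ := h3
  have h5 : g.natDegree + 2 ≤ m := by
    rw [hg, natDegree_divByMonic _ hmon, hdeg]
    have := natDegree_Pf f
    omega
  have h6 : Rs f v = (p : ℤ) ^ 2 * r'.resultant (Pq v) m 2 := by
    unfold Rs
    rw [← h1, resultant_add_mul_left _ _ _ _ _ h5 (natDegree_Pq v), hr', resultant_C_mul_left]
  rw [h6]
  exact dvd_mul_right _ _

/-- Proof. `p ∤ v.1`, the reduction of `Pq v` divides that of `Pf f`. Pseudo-division: `C (a^(m+1)) * Pf f = Pq v * h + r`, `natDegree r ≤ 1`, in `ℤ[X]` (induction on the degree, or division in `ℚ[X]`), modulo `p`: `Pq v` divides `r` (as `a` is a unit modulo `p`), degree `≤ 1 < 2`, so `r = C p * r'`.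
`resultant (C (a^(m+1)) * Pf f) (Pq v) m' 2` with `m'` large enough: equals `a^(..) Rs f v` on one side (`resultant_C_mul_left`, `resultant_add_left_deg` if `m' > m`) and `resultant (C p * r') (Pq v) m' 2 = p² resultant r' ..` on the other side (`resultant_add_mul_left`). So
`p² ∣ a^(..) Rs f v`, `p² ∣ Rs f v`. (Alternative: over `ZMod (p²)` the polynomial `Pq v` is a unit times a monic one; `Pf f = Pq v * h + C p * r'` in `ZMod (p²)[X]`, `modByMonic`; `Rs` in `ZMod (p²)` is `p² resultant(r') = 0` (`resultant_add_mul_left`, natDegree `h ≤ m - 2`).) -/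
theorem sq_dvd_Rs {m p : ℕ} (hm : 2 ≤ m) (hp : p.Prime) (f : Vn m) (v : V) (hv : ¬ (p : ℤ) ∣ v.1)
    (h : Pq (cV p v) ∣ Pf (cN p f)) : (p : ℤ) ^ 2 ∣ Rs f v := by
  have hpz : Prime (p : ℤ) := Nat.prime_iff_prime_int.1 hp
  have hco : IsCoprime v.1 ((p : ℤ) ^ 2) := ((hpz.coprime_iff_not_dvd.2 hv).symm).pow_right
  obtain ⟨b, c, hbc⟩ := hco
  obtain ⟨w, hw⟩ : ∃ w : V, w = (1, b * v.2.1, b * v.2.2) := ⟨_, rfl⟩
  -- `v = v.1 w` modulo `p²`
  have key : ∀ q : ℕ, (q : ℤ) ∣ (p : ℤ) ^ 2 → cV q v = ((v.1 : ℤ) : ZMod q) • cV q w := by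
    intro q hq
    have e1 : ((p : ZMod q)) ^ 2 = 0 := by
      have := (ZMod.intCast_zmod_eq_zero_iff_dvd ((p : ℤ) ^ 2) q).2 hq
      push_cast at this
      exact this
    have e2 : ((b : ℤ) : ZMod q) * ((v.1 : ℤ) : ZMod q) = 1 := by
      have := congrArg (fun x : ℤ => (x : ZMod q)) hbc
      push_cast at this
      rw [e1, mul_zero, add_zero] at this
      exact this
    rw [hw]
    unfold cV
    simp only [Prod.smul_mk, smul_eq_mul]
    push_cast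
    refine Prod.ext ?_ (Prod.ext ?_ ?_)
    · simp
    · simp only
      linear_combination (-((v.2.1 : ℤ) : ZMod q)) * e2
    · simp only
      linear_combination (-((v.2.2 : ℤ) : ZMod q)) * e2
  have h1 : Pq (cV p w) ∣ Pf (cN p f) := by
    refine dvd_trans ?_ h
    rw [key p (Dvd.intro_left ((p : ℤ)) (by ring))]
    refine ⟨C ((v.1 : ℤ) : ZMod p), ?_⟩
    unfold Pq
    simp only [Prod.smul_fst, Prod.smul_snd, smul_eq_mul, C_mul]
    ring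
  have h2 := VG_monic hm hp f w (by rw [hw]) h1
  have h3 : (((p ^ 2 : ℕ)) : ℤ) ∣ Rs f v := by
    rw [← ZMod.intCast_zmod_eq_zero_iff_dvd, Rs_cast, key (p ^ 2) (by push_cast; exact dvd_refl _), Rs_cmul_right,
      ← Rs_cast]
    have h4 : ((Rs f w : ℤ) : ZMod (p ^ 2)) = 0 := by
      rw [ZMod.intCast_zmod_eq_zero_iff_dvd]
      push_cast
      exact h2
    rw [h4, mul_zero]
  push_cast at h3
  exact h3

theorem VG_ne {p N : ℕ} (hpN : N < p) (v : V) (hv : v ∈ box N) (h1 : v.1 ≠ 0) : ¬ (p : ℤ) ∣ v.1 := by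
  rw [FGO.box, mem_product, mem_product, mem_Icc, mem_Icc, mem_Icc] at hv
  intro hd
  have h2 := Int.le_of_dvd (abs_pos.2 h1) ((dvd_abs _ _).2 hd)
  have h3 : |v.1| ≤ (N : ℤ) := abs_le.2 hv.1
  have h4 : (N : ℤ) < p := by exact_mod_cast hpN
  linarith

theorem VG_cV {p N : ℕ} (hpN : N < p) (v : V) (hv : v ∈ box N) (h1 : v.1 ≠ 0) : cV p v ≠ 0 := by
  intro h
  have h2 : ((v.1 : ℤ) : ZMod p) = 0 := congrArg Prod.fst h
  exact VG_ne hpN v hv h1 ((ZMod.intCast_zmod_eq_zero_iff_dvd _ p).1 h2)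

/-- Proof. Take a prime `p` with `H < 2 p ≤ 2 H` (`Nat.exists_prime_lt_and_le_two_mul` for `H/2`); `p > N ≥ |v.1| > 0`, so `cV p v ≠ 0`. `Rs f v = 0` implies `p ∣ Rs f v`: `Rs_cnt`: `≤ 3 (3H)^(m+1)/p ≤ 6 (3H)^(m+1)/H`. -/
theorem Rs_zero_cnt {m H N : ℕ} (hm : 1 ≤ m) (hN : 0 < N) (hH : 4 * N ≤ H) (v : V) (hv : v ∈ box N) (h1 : v.1 ≠ 0) :
    (((boxN m H).filter fun f => Rs f v = 0).card : ℝ) ≤ 6 * (3 * (H : ℝ)) ^ (m + 1) / H := by
  obtain ⟨p, hp, hp1, hp2⟩ := Nat.exists_prime_lt_and_le_two_mul (H / 2) (by omega)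
  have hpH : p ≤ H := by omega
  have hpN : N < p := by omega
  have hH0 : (0 : ℝ) < H := by
    have : 0 < H := by omega
    exact_mod_cast this
  have hp0 : (0 : ℝ) < p := by exact_mod_cast hp.pos
  have h2p : (H : ℝ) ≤ 2 * p := by
    have : H ≤ 2 * p := by omega
    exact_mod_cast this
  have h2 := Rs_cnt hm hp hpH v (VG_cV hpN v hv h1)
  have h3 : (((boxN m H).filter fun f => Rs f v = 0).card : ℝ) ≤
      (((boxN m H).filter fun f => (p : ℤ) ∣ Rs f v).card : ℝ) := by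
    exact_mod_cast card_le_card (fun f hf => by
      rw [mem_filter] at hf ⊢
      refine ⟨hf.1, ?_⟩
      rw [hf.2]
      exact dvd_zero _)
  refine h3.trans (h2.trans ?_)
  rw [div_le_div_iff₀ hp0 hH0]
  have h4 : (0 : ℝ) ≤ 3 * (3 * (H : ℝ)) ^ (m + 1) := by positivity
  calc 3 * (3 * (H : ℝ)) ^ (m + 1) * H ≤ 3 * (3 * (H : ℝ)) ^ (m + 1) * (2 * p) := mul_le_mul_of_nonneg_left h2p h4
    _ = 6 * (3 * (H : ℝ)) ^ (m + 1) * p := by ring

private theorem VG_union {α : Type*} (B : Finset α) (T : Finset ℕ) (Q : ℕ → α → Prop) [∀ p, DecidablePred (Q p)]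
    [DecidablePred fun f => ∃ p ∈ T, Q p f] (c : ℝ) (h : ∀ p ∈ T, ((B.filter (Q p)).card : ℝ) ≤ c) :
    ((B.filter fun f => ∃ p ∈ T, Q p f).card : ℝ) ≤ T.card * c := by
  have h1 : (B.filter fun f => ∃ p ∈ T, Q p f) ⊆ T.biUnion fun p => B.filter (Q p) := by
    intro f hf
    rw [mem_filter] at hf
    obtain ⟨hB, p, hp, hQ⟩ := hf
    exact mem_biUnion.2 ⟨p, hp, mem_filter.2 ⟨hB, hQ⟩⟩
  have h2 : (B.filter fun f => ∃ p ∈ T, Q p f).card ≤ ∑ p ∈ T, (B.filter (Q p)).card :=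
    (card_le_card h1).trans card_biUnion_le
  calc ((B.filter fun f => ∃ p ∈ T, Q p f).card : ℝ) ≤ ((∑ p ∈ T, (B.filter (Q p)).card : ℕ) : ℝ) := by
        exact_mod_cast h2
    _ = ∑ p ∈ T, ((B.filter (Q p)).card : ℝ) := by push_cast; rfl
    _ ≤ ∑ _p ∈ T, c := Finset.sum_le_sum h
    _ = T.card * c := by rw [Finset.sum_const, nsmul_eq_mul]

private theorem VG_union2 {α : Type*} (B : Finset α) (z P H : ℕ) (hz : 1 ≤ z) (Q : ℕ → α → Prop)
    [∀ p, DecidablePred (Q p)] [DecidablePred fun f => ∃ p : ℕ, p.Prime ∧ z < p ∧ p ≤ P ∧ Q p f] (c : ℝ) (hc : 0 ≤ c)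
    (h : ∀ p : ℕ, p.Prime → z < p → ((B.filter (Q p)).card : ℝ) ≤ c * (2 * (H : ℝ) / p + 1) ^ 2) :
    ((B.filter fun f => ∃ p : ℕ, p.Prime ∧ z < p ∧ p ≤ P ∧ Q p f).card : ℝ) ≤
      c * (8 * (H : ℝ) ^ 2 / z + 2 * P) := by
  have h1 : (B.filter fun f => ∃ p : ℕ, p.Prime ∧ z < p ∧ p ≤ P ∧ Q p f) ⊆
      ((Ioc z P).filter Nat.Prime).biUnion fun p => B.filter (Q p) := by
    intro f hf
    rw [mem_filter] at hf
    obtain ⟨hB, p, hp, hzp, hpP, hQ⟩ := hf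
    exact mem_biUnion.2 ⟨p, mem_filter.2 ⟨mem_Ioc.2 ⟨hzp, hpP⟩, hp⟩, mem_filter.2 ⟨hB, hQ⟩⟩
  have h2 : (B.filter fun f => ∃ p : ℕ, p.Prime ∧ z < p ∧ p ≤ P ∧ Q p f).card ≤
      ∑ p ∈ (Ioc z P).filter Nat.Prime, (B.filter (Q p)).card := (card_le_card h1).trans card_biUnion_le
  have hz0 : (0 : ℝ) < z := by exact_mod_cast hz
  have h3 : ∑ p ∈ Ioc z P, ((p : ℝ) ^ 2)⁻¹ ≤ 1 / z := by
    rcases le_total z P with h | h
    · have h4 := sum_Ioc_inv_sq_le_sub (α := ℝ) (by omega : z ≠ 0) h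
      have h5 : (0 : ℝ) ≤ (P : ℝ)⁻¹ := by positivity
      rw [one_div]
      linarith
    · rw [Finset.Ioc_eq_empty (by omega), Finset.sum_empty]
      positivity
  have h6 : ∀ p ∈ Ioc z P, (2 * (H : ℝ) / p + 1) ^ 2 ≤ 8 * (H : ℝ) ^ 2 * ((p : ℝ) ^ 2)⁻¹ + 2 := by
    intro p hp
    have hp0 : (0 : ℝ) < p := by
      have : 0 < p := by
        have := (mem_Ioc.1 hp).1
        omega
      exact_mod_cast this
    have e : 8 * (H : ℝ) ^ 2 * ((p : ℝ) ^ 2)⁻¹ = 2 * (2 * (H : ℝ) / p) ^ 2 := by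
      field_simp
      ring
    rw [e]
    nlinarith [sq_nonneg (2 * (H : ℝ) / p - 1)]
  calc ((B.filter fun f => ∃ p : ℕ, p.Prime ∧ z < p ∧ p ≤ P ∧ Q p f).card : ℝ)
      ≤ ((∑ p ∈ (Ioc z P).filter Nat.Prime, (B.filter (Q p)).card : ℕ) : ℝ) := by exact_mod_cast h2
    _ = ∑ p ∈ (Ioc z P).filter Nat.Prime, ((B.filter (Q p)).card : ℝ) := by push_cast; rfl
    _ ≤ ∑ p ∈ (Ioc z P).filter Nat.Prime, c * (2 * (H : ℝ) / p + 1) ^ 2 := by
        refine Finset.sum_le_sum fun p hp => ?_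
        rw [mem_filter, mem_Ioc] at hp
        exact h p hp.2 hp.1.1
    _ ≤ ∑ p ∈ Ioc z P, c * (2 * (H : ℝ) / p + 1) ^ 2 := by
        refine Finset.sum_le_sum_of_subset_of_nonneg (Finset.filter_subset _ _) fun p _ _ => ?_
        positivity
    _ ≤ ∑ p ∈ Ioc z P, c * (8 * (H : ℝ) ^ 2 * ((p : ℝ) ^ 2)⁻¹ + 2) := by
        exact Finset.sum_le_sum fun p hp => mul_le_mul_of_nonneg_left (h6 p hp) hc
    _ = c * (8 * (H : ℝ) ^ 2 * ∑ p ∈ Ioc z P, ((p : ℝ) ^ 2)⁻¹ + 2 * ((Ioc z P).card : ℝ)) := by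
        rw [← Finset.mul_sum, Finset.sum_add_distrib, ← Finset.mul_sum, Finset.sum_const, nsmul_eq_mul]
        ring
    _ ≤ c * (8 * (H : ℝ) ^ 2 * (1 / z) + 2 * P) := by
        refine mul_le_mul_of_nonneg_left ?_ hc
        have h7 : ((Ioc z P).card : ℝ) ≤ P := by
          rw [Nat.card_Ioc]
          exact_mod_cast Nat.sub_le P z
        have h8 := mul_le_mul_of_nonneg_left h3 (by positivity : (0 : ℝ) ≤ 8 * (H : ℝ) ^ 2)
        linarith
    _ = c * (8 * (H : ℝ) ^ 2 / z + 2 * P) := by rw [mul_one_div]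

private theorem VG_rs {N : ℕ} {v w : V} (hv : |v.1| ≤ (N : ℤ) ∧ |v.2.1| ≤ (N : ℤ) ∧ |v.2.2| ≤ (N : ℤ))
    (hw : |w.1| ≤ (N : ℤ) ∧ |w.2.1| ≤ (N : ℤ) ∧ |w.2.2| ≤ (N : ℤ)) : |rs v w| ≤ 8 * (N : ℤ) ^ 4 := by
  obtain ⟨h1, h2, h3⟩ := hv
  obtain ⟨g1, g2, g3⟩ := hw
  have hN : (0 : ℤ) ≤ N := Int.natCast_nonneg _
  have key : ∀ a b c d : ℤ, |a| ≤ (N : ℤ) → |b| ≤ (N : ℤ) → |c| ≤ (N : ℤ) → |d| ≤ (N : ℤ) →
      |a * b - c * d| ≤ 2 * (N : ℤ) ^ 2 := by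
    intro a b c d ha hb hc hd
    have e1 : |a * b| ≤ (N : ℤ) ^ 2 := by
      rw [abs_mul, pow_two]
      exact mul_le_mul ha hb (abs_nonneg _) hN
    have e2 : |c * d| ≤ (N : ℤ) ^ 2 := by
      rw [abs_mul, pow_two]
      exact mul_le_mul hc hd (abs_nonneg _) hN
    have e3 := abs_sub (a * b) (c * d)
    linarith
  have k1 := key v.1 w.2.2 w.1 v.2.2 h1 g3 g1 h3
  have k2 := key v.1 w.2.1 w.1 v.2.1 h1 g2 g1 h2
  have k3 := key v.2.1 w.2.2 w.2.1 v.2.2 h2 g3 g2 h3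
  unfold rs
  have e1 : |(v.1 * w.2.2 - w.1 * v.2.2) ^ 2| ≤ 4 * (N : ℤ) ^ 4 := by
    rw [abs_pow]
    calc |v.1 * w.2.2 - w.1 * v.2.2| ^ 2 ≤ (2 * (N : ℤ) ^ 2) ^ 2 := pow_le_pow_left₀ (abs_nonneg _) k1 2
      _ = 4 * (N : ℤ) ^ 4 := by ring
  have e2 : |(v.1 * w.2.1 - w.1 * v.2.1) * (v.2.1 * w.2.2 - w.2.1 * v.2.2)| ≤ 4 * (N : ℤ) ^ 4 := by
    rw [abs_mul]
    calc |v.1 * w.2.1 - w.1 * v.2.1| * |v.2.1 * w.2.2 - w.2.1 * v.2.2| ≤ (2 * (N : ℤ) ^ 2) * (2 * (N : ℤ) ^ 2) :=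
          mul_le_mul k2 k3 (abs_nonneg _) (by positivity)
      _ = 4 * (N : ℤ) ^ 4 := by ring
  have e3 := abs_sub ((v.1 * w.2.2 - w.1 * v.2.2) ^ 2) ((v.1 * w.2.1 - w.1 * v.2.1) * (v.2.1 * w.2.2 - w.2.1 * v.2.2))
  linarith

/-- very large primes: the resultant vanishes -/
theorem VG_zero {m H N p : ℕ} (hm : 2 ≤ m) (hme : Even m) (hp : p.Prime) (f : Vn m) (hf : f ∈ boxN m H) (v : V)
    (hv : v ∈ box N) (hvp : ¬ (p : ℤ) ∣ v.1) (hP : PM m H N < p) (h : Pq (cV p v) ∣ Pf (cN p f)) : Rs f v = 0 := by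
  have h1 := sq_dvd_Rs hm hp f v hvp h
  have hv' := hv
  rw [FGO.box, mem_product, mem_product, mem_Icc, mem_Icc, mem_Icc] at hv'
  have hf' : ∀ i, |f i| ≤ (H : ℤ) := by
    unfold boxN at hf
    rw [Fintype.mem_piFinset] at hf
    intro i
    have := hf i
    rw [Finset.mem_Icc] at this
    exact abs_le.2 this
  have h2 := abs_Rs_le f v H N hf' (abs_le.2 hv'.1) (abs_le.2 hv'.2.1) (abs_le.2 hv'.2.2)
  have h3 : ((m + 2).factorial : ℤ) * (H : ℤ) ^ 2 * (N : ℤ) ^ m ≤ ((PM m H N : ℕ) : ℤ) ^ 2 := by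
    have e1 : (m + 2).factorial * H ^ 2 * N ^ m ≤ (PM m H N) ^ 2 := by
      unfold PM
      obtain ⟨k, hk⟩ := hme
      have e2 : N ^ m = (N ^ (m / 2)) ^ 2 := by
        rw [← pow_mul]
        congr 1
        omega
      have e3 : (m + 2).factorial ≤ (m + 2).factorial ^ 2 := Nat.le_self_pow two_ne_zero _
      calc (m + 2).factorial * H ^ 2 * N ^ m ≤ (m + 2).factorial ^ 2 * H ^ 2 * N ^ m :=
            Nat.mul_le_mul_right _ (Nat.mul_le_mul_right _ e3)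
        _ = ((m + 2).factorial * H * N ^ (m / 2)) ^ 2 := by rw [e2]; ring
    exact_mod_cast e1
  have h4 : ((PM m H N : ℕ) : ℤ) ^ 2 < (p : ℤ) ^ 2 := by
    have : (PM m H N) ^ 2 < p ^ 2 := Nat.pow_lt_pow_left hP two_ne_zero
    exact_mod_cast this
  exact Int.eq_zero_of_abs_lt_dvd h1 (lt_of_le_of_lt (h2.trans h3) h4)

/-- (large primes, fixed `u`) Proof. Let `p > N`, `BadT p f u`. The first two alternatives are excluded by hypothesis. `p ∤ u.1.1, u.2.1` (`0 < |.| ≤ N < p`). `Pq v ∣ Pf f` modulo `p`: if `p ≤ PM m H N`: `dvd_cnt`, `∑_{N < p ≤ PM} (3H)^(m-1) (2H/p + 1)² ≤ (3H)^(m-1) (8H²/N + 2 PM)`;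
if `p > PM`: `p² ∣ Rs f v` (`sq_dvd_Rs`) and `|Rs f v| ≤ PM² < p²` (`abs_Rs_le`, `m` even), so `Rs f v = 0`: `Rs_zero_cnt`. The same for `w`. Last alternative: `p ∣ rs u.1 u.2 ≠ 0`, `p ≤ 8N⁴ ≤ H`, at most `2 log(8N⁴)` primes (`few_primes`), and `p ∣ Rs f u.1` or `p ∣ Rs f u.2`
(`Rv_zero_of_E`, casts): `Rs_cnt`: `≤ 3 (3H)^(m+1)/p ≤ 3 (3H)^(m+1)/N`. -/
theorem large_u (m : ℕ) (hm : 2 ≤ m) (hme : Even m) : ∃ C : ℝ, 0 < C ∧ ∀ H N : ℕ, 0 < N → 8 * N ^ 4 ≤ H →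
    ∀ u ∈ box2 N, u.1.1 ≠ 0 → u.2.1 ≠ 0 → rs u.1 u.2 ≠ 0 →
    (∀ p : ℕ, p.Prime → N < p → ¬ Dv p (crs u.1 u.2) ∧ ¬ ((p : ℤ) ∣ ds u.1 ∧ (p : ℤ) ∣ ds u.2)) →
    (((boxN m H).filter fun f => ∃ p : ℕ, p.Prime ∧ N < p ∧ BadT p f u).card : ℝ) ≤
      C * (H : ℝ) ^ (m + 1) * ((1 + Real.log N) / N + 1 / H + (PM m H N : ℝ) / (H : ℝ) ^ 2) := by
  refine ⟨48 * 3 ^ (m + 1), by positivity, ?_⟩
  rintro H N hN hNH ⟨v, w⟩ hu hv0 hw0 hr0 hlarge
  simp only at hv0 hw0 hr0 hlarge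
  have hm1 : 1 ≤ m := by omega
  have hN4 : N ≤ N ^ 4 := by
    calc N = N ^ 1 := (pow_one N).symm
      _ ≤ N ^ 4 := Nat.pow_le_pow_right hN (by norm_num)
  have hH1 : 1 ≤ H := by omega
  have h4NH : 4 * N ≤ H := by omega
  have hHr : (1 : ℝ) ≤ H := by exact_mod_cast hH1
  have hH0 : (0 : ℝ) < H := by linarith
  have hN1 : (1 : ℝ) ≤ N := by exact_mod_cast hN
  have hN0 : (0 : ℝ) < N := by linarith
  have hlogN : 0 ≤ Real.log N := Real.log_nonneg hN1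
  have hu' := hu
  rw [box2, mem_product] at hu'
  obtain ⟨hvb, hwb⟩ := hu'
  simp only at hvb hwb
  -- the coordinates
  rw [box2, mem_product, FGO.box, mem_product, mem_product, mem_product, mem_product, mem_Icc, mem_Icc, mem_Icc, mem_Icc,
    mem_Icc, mem_Icc] at hu
  obtain ⟨⟨a1, a2, a3⟩, b1, b2, b3⟩ := hu
  have hvN : |v.1| ≤ (N : ℤ) ∧ |v.2.1| ≤ (N : ℤ) ∧ |v.2.2| ≤ (N : ℤ) := ⟨abs_le.2 a1, abs_le.2 a2, abs_le.2 a3⟩
  have hwN : |w.1| ≤ (N : ℤ) ∧ |w.2.1| ≤ (N : ℤ) ∧ |w.2.2| ≤ (N : ℤ) := ⟨abs_le.2 b1, abs_le.2 b2, abs_le.2 b3⟩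
  have hrsN := VG_rs hvN hwN
  have hK8 : (rs v w).natAbs ≤ 8 * N ^ 4 := by
    rw [Int.abs_eq_natAbs] at hrsN
    exact_mod_cast hrsN
  -- the prime divisors of the resultant
  have hsmall : ∀ x : V, x ∈ box N → x.1 ≠ 0 →
      (((boxN m H).filter fun f => ∃ p ∈ (rs v w).natAbs.primeFactors.filter (fun p => N < p), (p : ℤ) ∣ Rs f x).card : ℝ) ≤
        2 * Real.log ((8 * N ^ 4 : ℕ) : ℝ) * (3 * (3 * (H : ℝ)) ^ (m + 1) / N) := by
    intro x hx hx0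
    have hcard : (((rs v w).natAbs.primeFactors.filter (fun p => N < p)).card : ℝ) ≤
        2 * Real.log ((8 * N ^ 4 : ℕ) : ℝ) := by
      have h1 := few_primes (rs v w) hr0 ((rs v w).natAbs.primeFactors.filter (fun p => N < p)) (fun p hp => by
        rw [mem_filter] at hp
        exact ⟨Nat.prime_of_mem_primeFactors hp.1, Int.natCast_dvd.2 (Nat.dvd_of_mem_primeFactors hp.1)⟩)
      have h2 : ((rs v w).natAbs : ℝ) ≤ ((8 * N ^ 4 : ℕ) : ℝ) := by exact_mod_cast hK8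
      have h3 : (0 : ℝ) < (rs v w).natAbs := by exact_mod_cast Int.natAbs_pos.2 hr0
      have h4 := Real.log_le_log h3 h2
      linarith
    have hpos : 0 ≤ 3 * (3 * (H : ℝ)) ^ (m + 1) / N := by positivity
    have hU := VG_union (boxN m H) ((rs v w).natAbs.primeFactors.filter (fun p => N < p)) (fun p f => (p : ℤ) ∣ Rs f x)
      (3 * (3 * (H : ℝ)) ^ (m + 1) / N) ?_
    · refine le_trans ?_ (hU.trans (mul_le_mul_of_nonneg_right hcard hpos))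
      exact_mod_cast card_le_card (fun f hf => by
        rw [mem_filter] at hf ⊢
        exact hf)
    intro p hp
    rw [mem_filter] at hp
    have hpp := Nat.prime_of_mem_primeFactors hp.1
    have hpH : p ≤ H := by
      have h1 := Nat.le_of_dvd (Int.natAbs_pos.2 hr0) (Nat.dvd_of_mem_primeFactors hp.1)
      omega
    have hzp : (N : ℝ) ≤ p := by exact_mod_cast hp.2.le
    have hq : 3 * (3 * (H : ℝ)) ^ (m + 1) / p ≤ 3 * (3 * (H : ℝ)) ^ (m + 1) / N :=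
      div_le_div_of_nonneg_left (by positivity) hN0 hzp
    refine le_trans ?_ ((Rs_cnt hm1 hpp hpH x (VG_cV hp.2 x hx hx0)).trans hq)
    exact_mod_cast card_le_card (fun f hf => by
      rw [mem_filter] at hf ⊢
      exact hf)
  have hlog8 : Real.log ((8 * N ^ 4 : ℕ) : ℝ) ≤ 3 + 4 * Real.log N := by
    push_cast
    rw [Real.log_mul (by norm_num) (by positivity), Real.log_pow]
    have h8 : Real.log 8 ≤ 3 := by
      have h1 : Real.log 8 = 3 * Real.log 2 := by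
        rw [show (8 : ℝ) = 2 ^ 3 by norm_num, Real.log_pow]
        norm_num
      have h2 := Real.log_two_lt_d9
      rw [h1]
      linarith
    push_cast
    linarith
  have hB1 := hsmall v hvb hv0
  have hB2 := hsmall w hwb hw0
  have hB3 := Rs_zero_cnt hm1 hN h4NH v hvb hv0
  have hB4 := Rs_zero_cnt hm1 hN h4NH w hwb hw0
  have hcpos : (0 : ℝ) ≤ (3 * (H : ℝ)) ^ (m - 1) := by positivity
  have hB5 := VG_union2 (boxN m H) N (PM m H N) H hN (fun p f => Pq (cV p v) ∣ Pf (cN p f))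
    ((3 * (H : ℝ)) ^ (m - 1)) hcpos (fun p hp hzp => by
      refine le_trans ?_ (dvd_cnt hm1 hH1 hp v (VG_ne hzp v hvb hv0))
      exact_mod_cast card_le_card (fun f hf => by
        rw [mem_filter] at hf ⊢
        exact hf))
  have hB6 := VG_union2 (boxN m H) N (PM m H N) H hN (fun p f => Pq (cV p w) ∣ Pf (cN p f))
    ((3 * (H : ℝ)) ^ (m - 1)) hcpos (fun p hp hzp => by
      refine le_trans ?_ (dvd_cnt hm1 hH1 hp w (VG_ne hzp w hwb hw0))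
      exact_mod_cast card_le_card (fun f hf => by
        rw [mem_filter] at hf ⊢
        exact hf))
  -- the union
  have hsub : ((boxN m H).filter fun f => ∃ p : ℕ, p.Prime ∧ N < p ∧ BadT p f (v, w)) ⊆
      ((boxN m H).filter fun f => ∃ p ∈ (rs v w).natAbs.primeFactors.filter (fun p => N < p), (p : ℤ) ∣ Rs f v) ∪
      (((boxN m H).filter fun f => ∃ p ∈ (rs v w).natAbs.primeFactors.filter (fun p => N < p), (p : ℤ) ∣ Rs f w) ∪
      (((boxN m H).filter fun f => Rs f v = 0) ∪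
      (((boxN m H).filter fun f => Rs f w = 0) ∪
      (((boxN m H).filter fun f => ∃ p : ℕ, p.Prime ∧ N < p ∧ p ≤ PM m H N ∧ Pq (cV p v) ∣ Pf (cN p f)) ∪
      ((boxN m H).filter fun f => ∃ p : ℕ, p.Prime ∧ N < p ∧ p ≤ PM m H N ∧ Pq (cV p w) ∣ Pf (cN p f)))))) := by
    intro f hf
    rw [mem_filter] at hf
    obtain ⟨hfB, p, hp, hzp, hbad⟩ := hf
    have : Fact p.Prime := ⟨hp⟩
    simp only [mem_union, mem_filter]
    obtain ⟨hl1, hl2⟩ := hlarge p hp hzp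
    unfold BadT at hbad
    simp only at hbad
    rcases hbad with h | h | h | h | ⟨h, hE⟩
    · exact absurd h hl1
    · exact absurd h hl2
    · by_cases hP : p ≤ PM m H N
      · exact Or.inr (Or.inr (Or.inr (Or.inr (Or.inl ⟨hfB, p, hp, hzp, hP, h⟩))))
      · exact Or.inr (Or.inr (Or.inl ⟨hfB, VG_zero hm hme hp f hfB v hvb (VG_ne hzp v hvb hv0) (by omega) h⟩))
    · by_cases hP : p ≤ PM m H N
      · exact Or.inr (Or.inr (Or.inr (Or.inr (Or.inr ⟨hfB, p, hp, hzp, hP, h⟩))))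
      · exact Or.inr (Or.inr (Or.inr (Or.inl ⟨hfB, VG_zero hm hme hp f hfB w hwb (VG_ne hzp w hwb hw0) (by omega) h⟩)))
    · have hmem : p ∈ (rs v w).natAbs.primeFactors ∧ N < p := by
        rw [Nat.mem_primeFactors]
        exact ⟨⟨hp, Int.natCast_dvd.1 h, (Int.natAbs_pos.2 hr0).ne'⟩, hzp⟩
      rcases hE with hE | hE
      · have h1 := Rv_zero_of_E hm1 _ _ _ 1 hE
        rw [← Rv_cast, ZMod.intCast_zmod_eq_zero_iff_dvd] at h1
        exact Or.inr (Or.inl ⟨hfB, p, hmem, h1⟩)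
      · have h1 := Rv_zero_of_E hm1 _ _ _ 2 hE
        rw [← Rv_cast, ZMod.intCast_zmod_eq_zero_iff_dvd] at h1
        exact Or.inl ⟨hfB, p, hmem, h1⟩
  have hcu := (card_le_card hsub).trans ((card_union_le _ _).trans (Nat.add_le_add_left ((card_union_le _ _).trans
    (Nat.add_le_add_left ((card_union_le _ _).trans (Nat.add_le_add_left ((card_union_le _ _).trans
      (Nat.add_le_add_left (card_union_le _ _) _)) _)) _)) _))
  have hcu' : (((boxN m H).filter fun f => ∃ p : ℕ, p.Prime ∧ N < p ∧ BadT p f (v, w)).card : ℝ) ≤ _ :=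
    Nat.cast_le.2 hcu
  refine hcu'.trans ?_
  push_cast
  have hL : Real.log ((8 * N ^ 4 : ℕ) : ℝ) = Real.log (8 * (N : ℝ) ^ 4) := by push_cast; rfl
  rw [hL] at hB1 hB2 hlog8
  obtain ⟨A, hA⟩ : ∃ A : ℝ, A = (H : ℝ) ^ (m + 1) := ⟨_, rfl⟩
  have hA0 : 0 ≤ A := by rw [hA]; positivity
  obtain ⟨T, hT⟩ : ∃ T : ℝ, T = (3 : ℝ) ^ (m + 1) := ⟨_, rfl⟩
  have hT0 : 0 ≤ T := by rw [hT]; positivity
  have e1 : (3 * (H : ℝ)) ^ (m + 1) = T * A := by rw [mul_pow, hT, hA]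
  have e2 : (3 * (H : ℝ)) ^ (m - 1) * (8 * (H : ℝ) ^ 2 / N + 2 * (PM m H N : ℝ)) =
      T / 9 * (8 * A / N + 2 * (A * ((PM m H N : ℝ) / (H : ℝ) ^ 2))) := by
    have e3 : A = (H : ℝ) ^ (m - 1) * (H : ℝ) ^ 2 := by
      rw [hA, ← pow_add]
      congr 1
      omega
    have e4 : T = (3 : ℝ) ^ (m - 1) * 9 := by
      rw [hT, show (9 : ℝ) = 3 ^ 2 by norm_num, ← pow_add]
      congr 1
      omega
    rw [mul_pow, e3, e4]
    field_simp
  rw [e1] at hB1 hB2 hB3 hB4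
  rw [e2] at hB5 hB6
  have hlogle : 2 * Real.log (8 * (N : ℝ) ^ 4) * (3 * (T * A) / N) ≤ T * A * ((18 + 24 * Real.log N) / N) := by
    have h1 : 0 ≤ 3 * (T * A) / N := by positivity
    have h2 := mul_le_mul_of_nonneg_right (by linarith : 2 * Real.log (8 * (N : ℝ) ^ 4) ≤ 6 + 8 * Real.log N) h1
    refine h2.trans (le_of_eq ?_)
    field_simp
    ring
  have hTA : 0 ≤ T * A := mul_nonneg hT0 hA0
  have hX : 0 ≤ T * A * (1 / N) := by positivity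
  have hY : 0 ≤ T * A * ((PM m H N : ℝ) / (H : ℝ) ^ 2) := by positivity
  have hZ : 0 ≤ T * A * (1 / H) := by positivity
  have hW : 0 ≤ T * A * (Real.log N / N) := by positivity
  have g1 : T * A * ((18 + 24 * Real.log N) / N) = 18 * (T * A * (1 / N)) + 24 * (T * A * (Real.log N / N)) := by
    field_simp
  have g2 : T / 9 * (8 * A / N + 2 * (A * ((PM m H N : ℝ) / (H : ℝ) ^ 2))) =
      8 / 9 * (T * A * (1 / N)) + 2 / 9 * (T * A * ((PM m H N : ℝ) / (H : ℝ) ^ 2)) := by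
    field_simp
  have g3 : 6 * (T * A) / H = 6 * (T * A * (1 / H)) := by
    field_simp
  have g4 : 48 * T * A * ((1 + Real.log N) / N + 1 / H + (PM m H N : ℝ) / (H : ℝ) ^ 2) =
      48 * (T * A * (1 / N)) + 48 * (T * A * (Real.log N / N)) + 48 * (T * A * (1 / H)) +
        48 * (T * A * ((PM m H N : ℝ) / (H : ℝ) ^ 2)) := by
    field_simp
  rw [← hT, ← hA, g4]
  rw [g1] at hlogle
  rw [g2] at hB5 hB6
  rw [g3] at hB3 hB4
  linarith

end FQQ
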