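import Pool.Agent.Lib.MP_10e784_agF.VD
import Pool.Agent.Lib.MP_10e784_agF.VF
import Pool.Agent.Lib.MP_10e784_agF.VG
import Pool.Agent.Lib.MP_1ad228_ntG.Po3
import Pool.Agent.Lib.MP_1ad228_ntG.E2b
import Pool.Agent.Lib.MP_1ad228_ntG.Z0

/-! JOB VH -/

set_option autoImplicit false

open Classical

namespace FQQ

open Finset Polynomial FGO

private theorem VH_fib {α β : Type*} (A : Finset α) (B : Finset β) (P : α × β → Prop) {i1 : DecidablePred P}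
    (C : ℝ) (h : ∑ v ∈ B, ((A.filter fun w => P (w, v)).card : ℝ) ≤ C) :
    (((A ×ˢ B).filter P).card : ℝ) ≤ C := by
  have e : ((A ×ˢ B).filter P).card = ∑ v ∈ B, (A.filter fun w => P (w, v)).card := by
    rw [Finset.card_filter, Finset.sum_product_right]
    refine Finset.sum_congr rfl fun v _ => ?_
    rw [Finset.card_filter]
  rw [e]
  push_cast
  exact h

private theorem VH_boxN (m H : ℕ) (hH : 1 ≤ H) : ((boxN m H).card : ℝ) ≤ (3 * (H : ℝ)) ^ (m + 1) := by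
  unfold boxN
  rw [Fintype.card_piFinset, Finset.prod_const, Z0_card, Finset.card_univ, Fintype.card_fin]
  push_cast
  have h1 : (1 : ℝ) ≤ H := by exact_mod_cast hH
  refine pow_le_pow_left₀ (by positivity) (by linarith) _

private theorem VH_box2 (N : ℕ) (hN : 6 ≤ N) : ((box2 N).card : ℝ) ≤ 729 * (N : ℝ) ^ 6 := by
  rw [box2, card_product]
  push_cast
  have h := Po3_box N hN
  have h0 : (0 : ℝ) ≤ ((FGO.box N).card : ℝ) := Nat.cast_nonneg _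
  calc ((FGO.box N).card : ℝ) * ((FGO.box N).card : ℝ) ≤ (27 * (N : ℝ) ^ 3) * (27 * (N : ℝ) ^ 3) := by gcongr
    _ = 729 * (N : ℝ) ^ 6 := by ring

/-- the forms with leading coefficient zero -/
private theorem VH_lead (N : ℕ) (hN : 6 ≤ N) :
    (((FGO.box N).filter fun v => v.1 = 0).card : ℝ) ≤ 9 * (N : ℝ) ^ 2 := by
  have h1 : ((FGO.box N).filter fun v => v.1 = 0).card ≤
      ((Icc (-(N : ℤ)) (N : ℤ)) ×ˢ (Icc (-(N : ℤ)) (N : ℤ))).card := by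
    refine Finset.card_le_card_of_injOn (fun v => v.2) ?_ ?_
    · intro v hv
      rw [Finset.mem_coe, Finset.mem_filter, FGO.box, Finset.mem_product] at hv
      exact hv.1.2
    · intro v hv w hw h
      rw [Finset.mem_coe, Finset.mem_filter] at hv hw
      exact Prod.ext (hv.2.trans hw.2.symm) h
  have h2 := Po3_Icc N hN
  have h0 : (0 : ℝ) ≤ ((Icc (-(N : ℤ)) (N : ℤ)).card : ℝ) := Nat.cast_nonneg _
  calc (((FGO.box N).filter fun v => v.1 = 0).card : ℝ)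
      ≤ (((Icc (-(N : ℤ)) (N : ℤ)) ×ˢ (Icc (-(N : ℤ)) (N : ℤ))).card : ℝ) := by exact_mod_cast h1
    _ = ((Icc (-(N : ℤ)) (N : ℤ)).card : ℝ) * ((Icc (-(N : ℤ)) (N : ℤ)).card : ℝ) := by
        rw [card_product]
        push_cast
        ring
    _ ≤ (3 * N) * (3 * N) := by gcongr
    _ = 9 * (N : ℝ) ^ 2 := by ring

private theorem VH_lead1 (N : ℕ) (hN : 6 ≤ N) :
    (((box2 N).filter fun u => u.1.1 = 0).card : ℝ) ≤ 243 * (N : ℝ) ^ 5 := by
  have e : (box2 N).filter (fun u => u.1.1 = 0) = ((FGO.box N).filter fun v => v.1 = 0) ×ˢ FGO.box N := by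
    ext u
    simp only [box2, mem_filter, mem_product]
    tauto
  rw [e, card_product]
  push_cast
  have h1 := VH_lead N hN
  have h2 := Po3_box N hN
  calc _ ≤ (9 * (N : ℝ) ^ 2) * (27 * (N : ℝ) ^ 3) := by gcongr
    _ = 243 * (N : ℝ) ^ 5 := by ring

private theorem VH_lead2 (N : ℕ) (hN : 6 ≤ N) :
    (((box2 N).filter fun u => u.2.1 = 0).card : ℝ) ≤ 243 * (N : ℝ) ^ 5 := by
  have e : (box2 N).filter (fun u => u.2.1 = 0) = FGO.box N ×ˢ ((FGO.box N).filter fun v => v.1 = 0) := by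
    ext u
    simp only [box2, mem_filter, mem_product]
    tauto
  rw [e, card_product]
  push_cast
  have h1 := VH_lead N hN
  have h2 := Po3_box N hN
  calc _ ≤ (27 * (N : ℝ) ^ 3) * (9 * (N : ℝ) ^ 2) := by gcongr
    _ = 243 * (N : ℝ) ^ 5 := by ring

/-- the exceptional pairs -/
private def VH_exc (N : ℕ) (u : V × V) : Prop :=
  u.1.1 = 0 ∨ u.2.1 = 0 ∨ rs u.1 u.2 = 0 ∨
    (∃ p : ℕ, p.Prime ∧ N < p ∧ Dv p (crs u.1 u.2)) ∨
    (∃ p : ℕ, p.Prime ∧ N < p ∧ (p : ℤ) ∣ ds u.1 ∧ (p : ℤ) ∣ ds u.2)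

private theorem VH_exc_card (N : ℕ) (hN : 6 ≤ N) :
    (((box2 N).filter fun u => VH_exc N u).card : ℝ) ≤ 13108 * (N : ℝ) ^ 5 := by
  have hN0 : 0 < N := by omega
  have hsub : (box2 N).filter (fun u => VH_exc N u) ⊆
      (box2 N).filter (fun u => u.1.1 = 0) ∪ ((box2 N).filter (fun u => u.2.1 = 0) ∪
        ((box2 N).filter (fun u => res u.1 u.2 = 0) ∪
          ((box2 N).filter (fun u => res u.1 u.2 ≠ 0 ∧ ∃ p : ℕ, p.Prime ∧ N < p ∧ Dv p (crs u.1 u.2)) ∪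
            (box2 N).filter (fun u => u.1.1 ≠ 0 ∧ u.2.1 ≠ 0 ∧ ∃ p : ℕ, p.Prime ∧ N < p ∧
              (p : ℤ) ∣ disc u.1 ∧ (p : ℤ) ∣ disc u.2)))) := by
    intro u hu
    rw [mem_filter] at hu
    obtain ⟨hB, h⟩ := hu
    simp only [mem_union, mem_filter]
    by_cases h1 : u.1.1 = 0
    · exact Or.inl ⟨hB, h1⟩
    by_cases h2 : u.2.1 = 0
    · exact Or.inr (Or.inl ⟨hB, h2⟩)
    by_cases h3 : res u.1 u.2 = 0
    · exact Or.inr (Or.inr (Or.inl ⟨hB, h3⟩))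
    rcases h with h | h | h | h | h
    · exact absurd h h1
    · exact absurd h h2
    · exact absurd h h3
    · exact Or.inr (Or.inr (Or.inr (Or.inl ⟨hB, h3, h⟩)))
    · exact Or.inr (Or.inr (Or.inr (Or.inr ⟨hB, h1, h2, h⟩)))
  have hc := card_le_card hsub
  have hc2 : ((box2 N).filter (fun u => VH_exc N u)).card ≤
      ((box2 N).filter (fun u => u.1.1 = 0)).card + (((box2 N).filter (fun u => u.2.1 = 0)).card +
        (((box2 N).filter (fun u => res u.1 u.2 = 0)).card +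
          (((box2 N).filter (fun u => res u.1 u.2 ≠ 0 ∧ ∃ p : ℕ, p.Prime ∧ N < p ∧ Dv p (crs u.1 u.2))).card +
            ((box2 N).filter (fun u => u.1.1 ≠ 0 ∧ u.2.1 ≠ 0 ∧ ∃ p : ℕ, p.Prime ∧ N < p ∧
              (p : ℤ) ∣ disc u.1 ∧ (p : ℤ) ∣ disc u.2)).card))) := by
    refine hc.trans ((card_union_le _ _).trans ?_)
    refine Nat.add_le_add_left ?_ _
    refine (card_union_le _ _).trans ?_
    refine Nat.add_le_add_left ?_ _
    refine (card_union_le _ _).trans ?_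
    refine Nat.add_le_add_left ?_ _
    exact card_union_le _ _
  have hc3 : (((box2 N).filter (fun u => VH_exc N u)).card : ℝ) ≤
      (((box2 N).filter (fun u => u.1.1 = 0)).card : ℝ) + ((((box2 N).filter (fun u => u.2.1 = 0)).card : ℝ) +
        ((((box2 N).filter (fun u => res u.1 u.2 = 0)).card : ℝ) +
          ((((box2 N).filter (fun u => res u.1 u.2 ≠ 0 ∧ ∃ p : ℕ, p.Prime ∧ N < p ∧ Dv p (crs u.1 u.2))).card : ℝ) +
            (((box2 N).filter (fun u => u.1.1 ≠ 0 ∧ u.2.1 ≠ 0 ∧ ∃ p : ℕ, p.Prime ∧ N < p ∧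
              (p : ℤ) ∣ disc u.1 ∧ (p : ℤ) ∣ disc u.2)).card : ℝ)))) := by
    exact_mod_cast hc2
  have g1 := VH_lead1 N hN
  have g2 := VH_lead2 N hN
  have g3 := res_zero_card N hN0
  have g4 := crs_large N hN0
  have g5 := disc_large N hN
  linarith

/-- Proof. The triples of the box for which `BadT p` holds for some prime `p > N`: either `u.1.1 = 0` or `u.2.1 = 0` (`≤ 2 · 3^5 N^5` pairs), or `rs = 0` (`FGO.res_zero_card`), or some `p > N` divides the vector product (`FGO.crs_large`) or both discriminants (`FGO.disc_large`): for these `u` at most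
`(3H)^(m+1)` forms `f`; for the other `u` (at most `(3N)^6`): `large_u`. -/
theorem large_card (m : ℕ) (hm : 2 ≤ m) (hme : Even m) : ∃ C : ℝ, 0 < C ∧ ∀ H N : ℕ, 6 ≤ N → 8 * N ^ 4 ≤ H →
    (((Bx m H N).filter fun g => ∃ p : ℕ, p.Prime ∧ N < p ∧ BadT p g.1 g.2).card : ℝ) ≤
      C * ((H : ℝ) ^ (m + 1) * (N : ℝ) ^ 6) * ((1 + Real.log N) / N + 1 / H + (PM m H N : ℝ) / (H : ℝ) ^ 2) := by
  obtain ⟨C, hC, hL⟩ := large_u m hm hme
  refine ⟨729 * C + 13108 * 3 ^ (m + 1), by positivity, ?_⟩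
  intro H N hN hNH
  have hN0 : 0 < N := by omega
  have hNr : (1 : ℝ) ≤ N := by exact_mod_cast hN0
  have hH1 : 1 ≤ H := by
    have : 0 < N ^ 4 := by positivity
    omega
  have hHr : (1 : ℝ) ≤ H := by exact_mod_cast hH1
  have hlog : 0 ≤ Real.log N := Real.log_nonneg hNr
  set E : ℝ := (1 + Real.log N) / N + 1 / H + (PM m H N : ℝ) / (H : ℝ) ^ 2 with hE
  have hE0 : 1 / (N : ℝ) ≤ E := by
    rw [hE]
    have h1 : 1 / (N : ℝ) ≤ (1 + Real.log N) / N := by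
      refine div_le_div_of_nonneg_right (by linarith) (by positivity)
    have h2 : (0 : ℝ) ≤ 1 / H := by positivity
    have h3 : (0 : ℝ) ≤ (PM m H N : ℝ) / (H : ℝ) ^ 2 := by positivity
    linarith
  have hEp : 0 ≤ E := le_trans (by positivity) hE0
  unfold Bx
  refine VH_fib _ _ _ _ ?_
  have h1 : ∀ u ∈ box2 N, (((boxN m H).filter fun f => ∃ p : ℕ, p.Prime ∧ N < p ∧ BadT p (f, u).1 (f, u).2).card : ℝ) ≤
      (if VH_exc N u then (3 * (H : ℝ)) ^ (m + 1) else 0) + C * (H : ℝ) ^ (m + 1) * E := by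
    intro u hu
    split_ifs with h
    · have h2 : (((boxN m H).filter fun f => ∃ p : ℕ, p.Prime ∧ N < p ∧ BadT p (f, u).1 (f, u).2).card : ℝ) ≤
        ((boxN m H).card : ℝ) := by
        exact_mod_cast Finset.card_filter_le _ _
      have h3 := VH_boxN m H hH1
      have h4 : (0 : ℝ) ≤ C * (H : ℝ) ^ (m + 1) * E := by positivity
      linarith
    · rw [zero_add]
      unfold VH_exc at h
      push Not at h
      obtain ⟨g1, g2, g3, g4, g5⟩ := h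
      exact hL H N hN0 hNH u hu g1 g2 g3 (fun p hp hNp => ⟨g4 p hp hNp, fun h5 => g5 p hp hNp h5.1 h5.2⟩)
  refine (Finset.sum_le_sum h1).trans ?_
  rw [Finset.sum_add_distrib, ← Finset.sum_filter, Finset.sum_const, Finset.sum_const, nsmul_eq_mul,
    nsmul_eq_mul]
  have h2 := VH_exc_card N hN
  have h3 := VH_box2 N hN
  have h4 : (((box2 N).filter fun u => VH_exc N u).card : ℝ) * (3 * (H : ℝ)) ^ (m + 1) ≤
      (13108 * (N : ℝ) ^ 5) * (3 * (H : ℝ)) ^ (m + 1) := mul_le_mul_of_nonneg_right h2 (by positivity)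
  have h5 : ((box2 N).card : ℝ) * (C * (H : ℝ) ^ (m + 1) * E) ≤ (729 * (N : ℝ) ^ 6) * (C * (H : ℝ) ^ (m + 1) * E) :=
    mul_le_mul_of_nonneg_right h3 (by positivity)
  have h6 : (N : ℝ) ^ 5 ≤ (N : ℝ) ^ 6 * E := by
    calc (N : ℝ) ^ 5 = (N : ℝ) ^ 6 * (1 / N) := by field_simp
      _ ≤ (N : ℝ) ^ 6 * E := by gcongr
  have h7 : (13108 * (N : ℝ) ^ 5) * (3 * (H : ℝ)) ^ (m + 1) ≤
      13108 * 3 ^ (m + 1) * ((H : ℝ) ^ (m + 1) * (N : ℝ) ^ 6) * E := by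
    rw [mul_pow]
    calc (13108 * (N : ℝ) ^ 5) * (3 ^ (m + 1) * (H : ℝ) ^ (m + 1))
        = (13108 * 3 ^ (m + 1) * (H : ℝ) ^ (m + 1)) * (N : ℝ) ^ 5 := by ring
      _ ≤ (13108 * 3 ^ (m + 1) * (H : ℝ) ^ (m + 1)) * ((N : ℝ) ^ 6 * E) := by gcongr
      _ = _ := by ring
  calc _ ≤ (13108 * (N : ℝ) ^ 5) * (3 * (H : ℝ)) ^ (m + 1) + (729 * (N : ℝ) ^ 6) * (C * (H : ℝ) ^ (m + 1) * E) :=
        add_le_add h4 h5
    _ ≤ 13108 * 3 ^ (m + 1) * ((H : ℝ) ^ (m + 1) * (N : ℝ) ^ 6) * E +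
        (729 * (N : ℝ) ^ 6) * (C * (H : ℝ) ^ (m + 1) * E) := by gcongr
    _ = (729 * C + 13108 * 3 ^ (m + 1)) * ((H : ℝ) ^ (m + 1) * (N : ℝ) ^ 6) * E := by ring

private theorem VH_union {α : Type*} (B : Finset α) (a b : ℕ) (ha : 1 ≤ a) (Q : ℕ → α → Prop)
    [∀ p, DecidablePred (Q p)] [DecidablePred fun f => ∃ p : ℕ, p.Prime ∧ a < p ∧ p ≤ b ∧ Q p f] (c : ℝ) (hc : 0 ≤ c)
    (h : ∀ p : ℕ, p.Prime → a < p → p ≤ b → ((B.filter (Q p)).card : ℝ) ≤ c / (p : ℝ) ^ 2) :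
    ((B.filter fun f => ∃ p : ℕ, p.Prime ∧ a < p ∧ p ≤ b ∧ Q p f).card : ℝ) ≤ c / a := by
  have h1 : (B.filter fun f => ∃ p : ℕ, p.Prime ∧ a < p ∧ p ≤ b ∧ Q p f) ⊆
      ((Ioc a b).filter Nat.Prime).biUnion fun p => B.filter (Q p) := by
    intro f hf
    rw [mem_filter] at hf
    obtain ⟨hB, p, hp, hzp, hpP, hQ⟩ := hf
    exact mem_biUnion.2 ⟨p, mem_filter.2 ⟨mem_Ioc.2 ⟨hzp, hpP⟩, hp⟩, mem_filter.2 ⟨hB, hQ⟩⟩
  have h2 : (B.filter fun f => ∃ p : ℕ, p.Prime ∧ a < p ∧ p ≤ b ∧ Q p f).card ≤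
      ∑ p ∈ (Ioc a b).filter Nat.Prime, (B.filter (Q p)).card := (card_le_card h1).trans card_biUnion_le
  have ha0 : (0 : ℝ) < a := by exact_mod_cast ha
  have h3 : ∑ p ∈ Ioc a b, ((p : ℝ) ^ 2)⁻¹ ≤ 1 / a := by
    rcases le_total a b with h | h
    · have h4 := sum_Ioc_inv_sq_le_sub (α := ℝ) (by omega : a ≠ 0) h
      have h5 : (0 : ℝ) ≤ (b : ℝ)⁻¹ := by positivity
      rw [one_div]
      linarith
    · rw [Finset.Ioc_eq_empty (by omega), Finset.sum_empty]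
      positivity
  calc ((B.filter fun f => ∃ p : ℕ, p.Prime ∧ a < p ∧ p ≤ b ∧ Q p f).card : ℝ)
      ≤ ((∑ p ∈ (Ioc a b).filter Nat.Prime, (B.filter (Q p)).card : ℕ) : ℝ) := by exact_mod_cast h2
    _ = ∑ p ∈ (Ioc a b).filter Nat.Prime, ((B.filter (Q p)).card : ℝ) := by push_cast; rfl
    _ ≤ ∑ p ∈ (Ioc a b).filter Nat.Prime, c / (p : ℝ) ^ 2 := by
        refine Finset.sum_le_sum fun p hp => ?_
        rw [mem_filter, mem_Ioc] at hp
        exact h p hp.2 hp.1.1 hp.1.2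
    _ ≤ ∑ p ∈ Ioc a b, c / (p : ℝ) ^ 2 := by
        refine Finset.sum_le_sum_of_subset_of_nonneg (Finset.filter_subset _ _) fun p _ _ => ?_
        positivity
    _ = c * ∑ p ∈ Ioc a b, ((p : ℝ) ^ 2)⁻¹ := by
        rw [Finset.mul_sum]
        refine Finset.sum_congr rfl fun p _ => ?_
        rw [div_eq_mul_inv]
    _ ≤ c * (1 / a) := mul_le_mul_of_nonneg_left h3 hc
    _ = c / a := by rw [mul_one_div]

private theorem VH_cop (w p : ℕ) (hp : p.Prime) (hw : 3 ≤ w) (h : w < p) : (8 * primorial w).Coprime p := by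
  rw [Nat.coprime_comm, Nat.Prime.coprime_iff_not_dvd hp]
  intro h1
  rcases (Nat.Prime.dvd_mul hp).1 h1 with h2 | h2
  · have h3 : p ∣ 2 ^ 3 := h2
    have h4 := hp.dvd_of_dvd_pow h3
    have h5 := Nat.le_of_dvd (by norm_num) h4
    omega
  · unfold primorial at h2
    obtain ⟨q, hq, hpq⟩ := hp.prime.exists_mem_finset_dvd h2
    rw [mem_filter, mem_range] at hq
    have h4 := (Nat.prime_dvd_prime_iff_eq hp hq.2).1 hpq
    omega

private theorem VH_small (A C ε : ℝ) (hA : 0 ≤ A) (hC : 0 ≤ C) (hε : 0 < ε) :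
    ∃ N0 : ℕ, ∀ N : ℕ, N0 ≤ N → (A + C * Real.log N) / N ≤ ε := by
  refine ⟨⌈((A + 2 * C) / ε) ^ 2⌉₊ + 1, fun N hN => ?_⟩
  have h1 : ((A + 2 * C) / ε) ^ 2 ≤ (N : ℝ) := by
    refine (Nat.le_ceil _).trans ?_
    have : ⌈((A + 2 * C) / ε) ^ 2⌉₊ ≤ N := by omega
    exact_mod_cast this
  have hN1 : (1 : ℝ) ≤ N := by
    have : 1 ≤ N := by omega
    exact_mod_cast this
  have hN0 : (0 : ℝ) < N := by linarith
  set s := Real.sqrt N with hs
  have hs0 : 0 < s := Real.sqrt_pos.2 hN0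
  have hs1 : 1 ≤ s := by
    rw [hs]
    exact Real.one_le_sqrt.2 hN1
  have hss : s * s = N := Real.mul_self_sqrt hN0.le
  have hlog : Real.log N ≤ 2 * s := by
    have h2 := Real.log_le_sub_one_of_pos hs0
    have h3 : Real.log N = 2 * Real.log s := by
      rw [← hss, Real.log_mul hs0.ne' hs0.ne']
      ring
    linarith
  have h4 : (A + 2 * C) / ε ≤ s := by
    rw [hs]
    exact Real.le_sqrt_of_sq_le h1
  rw [div_le_iff₀ hε] at h4
  rw [div_le_iff₀ hN0]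
  have h5 : C * Real.log N ≤ C * (2 * s) := mul_le_mul_of_nonneg_left hlog hC
  have h6 : A ≤ A * s := le_mul_of_one_le_right hA hs1
  calc A + C * Real.log N ≤ (A + 2 * C) * s := by linarith
    _ ≤ (s * ε) * s := mul_le_mul_of_nonneg_right h4 hs0.le
    _ = ε * (s * s) := by ring
    _ = ε * N := by rw [hss]

/-- Proof. `w1` from `els_of3`, `w2 = max w1 (20 · 8^(m+7))`, `M = 8 * primorial w2`. For `N` large (`H = N^K`, `8N⁴ ≤ H`, `M ≤ N`): the set of `cl_lower` minus: (a) `Cl ∧ BadT p` for the primes `w2 < p ≤ 4N/M` (prime to `M`): `cl_bad_card`,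
`∑_{p > w2} 1/p² ≤ 1/w2`: `≤ 8^(m+7) · 20/(M³ w2) H^(m+1) N^6 ≤ H^(m+1) N^6/M³`; (b) `BadT p` for `4N/M < p ≤ N`: `bad_card_p`, `≤ 8^(m+7) 20 (M/(2N)) ..`-type bound `→ 0`; (c) `large_card`: `PM/H² ≤ (m+2)!/N`. By `els_of3` all remaining triples satisfy `ELS3`.
So the number is `≥ (16 - 1 - 1) H^(m+1) N^6/M³` for `N ≥ N0`; `c = 1/M³`. -/
theorem pos_prop (m K : ℕ) (hm : 2 ≤ m) (hme : Even m) (hK : m / 2 + 4 ≤ K) :
    ∃ c : ℝ, 0 < c ∧ ∃ N0 : ℕ, ∀ N : ℕ, N0 ≤ N →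
      c * (((N : ℝ) ^ K) ^ (m + 1) * (N : ℝ) ^ 6) ≤ (((Bx m (N ^ K) N).filter fun g => ELS3 g.1 g.2 ∧ 0 < g.1 (Fin.last m) ∧ 0 < g.2.1.1 ∧ 0 < g.2.2.1).card : ℝ) := by
  have hm1 : 1 ≤ m := by omega
  obtain ⟨w1, hw1, hE⟩ := els_of3 hm1 hme
  obtain ⟨CL, hCL, hLC⟩ := large_card m hm hme
  obtain ⟨w2, hw2⟩ : ∃ w2 : ℕ, w2 = max w1 (20 * 8 ^ (m + 7)) := ⟨_, rfl⟩
  have hw12 : w1 ≤ w2 := by rw [hw2]; exact le_max_left _ _
  have hw22 : 20 * 8 ^ (m + 7) ≤ w2 := by rw [hw2]; exact le_max_right _ _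
  have hw23 : 3 ≤ w2 := hw1.trans hw12
  have hE2 := hE w2 hw12
  have hcop : ∀ p : ℕ, p.Prime → w2 < p → (8 * primorial w2).Coprime p := fun p hp h => VH_cop w2 p hp hw23 h
  have hMpos : 0 < 8 * primorial w2 := Nat.mul_pos (by norm_num) (primorial_pos w2)
  generalize 8 * primorial w2 = M at hE2 hcop hMpos
  have hM0 : (0 : ℝ) < M := by exact_mod_cast hMpos
  have hM3 : (0 : ℝ) < 1 / (M : ℝ) ^ 3 := by positivity
  refine ⟨1 / (M : ℝ) ^ 3, hM3, ?_⟩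
  obtain ⟨N1, hN1⟩ := VH_small (CL * (2 + ((m + 2).factorial : ℝ)) + 20 * 8 ^ (m + 7) * M) CL (1 / (M : ℝ) ^ 3)
    (by positivity) hCL.le hM3
  refine ⟨max N1 (max M 8), fun N hN => ?_⟩
  have hNN1 : N1 ≤ N := (le_max_left _ _).trans hN
  have hNM : M ≤ N := (le_max_left _ _).trans ((le_max_right _ _).trans hN)
  have hN8 : 8 ≤ N := (le_max_right _ _).trans ((le_max_right _ _).trans hN)
  have hsm := hN1 N hNN1
  have hNpos : 0 < N := by omega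
  have hNr : (1 : ℝ) ≤ N := by exact_mod_cast hNpos
  have hNr0 : (0 : ℝ) < N := by linarith
  obtain ⟨H, hH⟩ : ∃ H : ℕ, H = N ^ K := ⟨_, rfl⟩
  have hHr : (H : ℝ) = (N : ℝ) ^ K := by rw [hH]; push_cast; rfl
  have hNH4 : 8 * N ^ 4 ≤ H := by
    rw [hH]
    calc 8 * N ^ 4 ≤ N * N ^ 4 := Nat.mul_le_mul_right _ hN8
      _ = N ^ 5 := by ring
      _ ≤ N ^ K := Nat.pow_le_pow_right hNpos (by omega)
  have hNH : N ≤ H := by
    calc N = N ^ 1 := (pow_one N).symm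
      _ ≤ N ^ 4 := Nat.pow_le_pow_right hNpos (by norm_num)
      _ ≤ 8 * N ^ 4 := by omega
      _ ≤ H := hNH4
  have hNHr : (N : ℝ) ≤ H := by exact_mod_cast hNH
  have hHr0 : (0 : ℝ) < H := by linarith
  rw [← hHr, ← hH]
  obtain ⟨X, hX⟩ : ∃ X : ℝ, X = (H : ℝ) ^ (m + 1) * (N : ℝ) ^ 6 := ⟨_, rfl⟩
  have hX0 : 0 < X := by rw [hX]; positivity
  have e8 : (8 * (H : ℝ)) ^ (m + 1) * (8 * (N : ℝ)) ^ 6 = 8 ^ (m + 7) * X := by
    rw [hX, mul_pow, mul_pow]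
    ring
  -- the lower bound
  have hlow := cl_lower (m := m) hMpos hNM hNH
  -- the three error terms
  have hq1 : 1 ≤ 4 * N / M := by
    rw [Nat.le_div_iff_mul_le hMpos]
    omega
  have ea := VH_union (Bx m H N) w2 (4 * N / M) (by omega) (fun p g => Cl M g.1 g.2 ∧ BadT p g.1 g.2)
    ((8 * (H : ℝ)) ^ (m + 1) * (8 * (N : ℝ)) ^ 6 * (20 / (M : ℝ) ^ 3)) (by positivity) (by
      intro p hp h1 h2
      have h3 : M * p ≤ 4 * N := by
        rw [mul_comm]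
        exact (Nat.le_div_iff_mul_le hMpos).1 h2
      have h4 := cl_bad_card (m := m) hm1 hNpos hNH hMpos hp (by omega) (hcop p hp h1) h3
      refine h4.trans (le_of_eq ?_)
      have hp0 : (p : ℝ) ≠ 0 := by
        have := hp.pos
        positivity
      field_simp)
  have eb := VH_union (Bx m H N) (4 * N / M) N hq1 (fun p g => BadT p g.1 g.2)
    ((8 * (H : ℝ)) ^ (m + 1) * (8 * (N : ℝ)) ^ 6 * 20) (by positivity) (by
      intro p hp h1 h2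
      have h5 : 4 ≤ 4 * N / M := by
        rw [Nat.le_div_iff_mul_le hMpos]
        omega
      have h4 := bad_card_p (m := m) hm1 hNpos hNH hp (by omega) (by omega : p ≤ 4 * N)
      refine h4.trans (le_of_eq ?_)
      ring)
  have ec := hLC H N (by omega) hNH4
  -- bounds
  have ba : (8 * (H : ℝ)) ^ (m + 1) * (8 * (N : ℝ)) ^ 6 * (20 / (M : ℝ) ^ 3) / (w2 : ℝ) ≤ X * (1 / (M : ℝ) ^ 3) := by
    have hw : (0 : ℝ) < w2 := by
      have : 0 < w2 := by omega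
      exact_mod_cast this
    rw [e8, div_le_iff₀ hw]
    have h1 : (20 : ℝ) * 8 ^ (m + 7) ≤ w2 := by exact_mod_cast hw22
    calc 8 ^ (m + 7) * X * (20 / (M : ℝ) ^ 3) = (20 * 8 ^ (m + 7)) * (X * (1 / (M : ℝ) ^ 3)) := by ring
      _ ≤ w2 * (X * (1 / (M : ℝ) ^ 3)) := by
        refine mul_le_mul_of_nonneg_right h1 (by positivity)
      _ = _ := by ring
  have bb : (8 * (H : ℝ)) ^ (m + 1) * (8 * (N : ℝ)) ^ 6 * 20 / ((4 * N / M : ℕ) : ℝ) ≤
      X * (20 * 8 ^ (m + 7) * M / N) := by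
    have h1 : (N : ℝ) ≤ M * ((4 * N / M : ℕ) : ℝ) := by
      have h2 := Nat.div_add_mod (4 * N) M
      have h3 := Nat.mod_lt (4 * N) hMpos
      have h4 : N ≤ M * (4 * N / M) := by omega
      exact_mod_cast h4
    have h0 : (0 : ℝ) < ((4 * N / M : ℕ) : ℝ) := by
      have : 0 < 4 * N / M := by omega
      exact_mod_cast this
    rw [e8, div_le_iff₀ h0]
    calc 8 ^ (m + 7) * X * 20 = X * (20 * 8 ^ (m + 7)) * (N / N) := by
          rw [div_self hNr0.ne']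
          ring
      _ = X * (20 * 8 ^ (m + 7) / N) * N := by ring
      _ ≤ X * (20 * 8 ^ (m + 7) / N) * (M * ((4 * N / M : ℕ) : ℝ)) := by
        refine mul_le_mul_of_nonneg_left h1 (by positivity)
      _ = _ := by ring
  have bc : (1 + Real.log N) / N + 1 / H + (PM m H N : ℝ) / (H : ℝ) ^ 2 ≤
      (2 + ((m + 2).factorial : ℝ) + Real.log N) / N := by
    have h1 : (1 : ℝ) / H ≤ 1 / N := one_div_le_one_div_of_le hNr0 hNHr
    have h2 : (PM m H N : ℝ) / (H : ℝ) ^ 2 ≤ ((m + 2).factorial : ℝ) / N := by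
      unfold PM
      push_cast
      rw [div_le_div_iff₀ (by positivity) hNr0]
      have h3 : (N : ℝ) ^ (m / 2) * N ≤ H := by
        have h4 : N ^ (m / 2) * N ≤ H := by
          rw [hH, ← pow_succ]
          exact Nat.pow_le_pow_right hNpos (by omega)
        exact_mod_cast h4
      calc ((m + 2).factorial : ℝ) * H * (N : ℝ) ^ (m / 2) * N = ((m + 2).factorial : ℝ) * H * ((N : ℝ) ^ (m / 2) * N) := by
            ring
        _ ≤ ((m + 2).factorial : ℝ) * H * H := by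
            refine mul_le_mul_of_nonneg_left h3 (by positivity)
        _ = _ := by ring
    calc _ ≤ (1 + Real.log N) / N + 1 / N + ((m + 2).factorial : ℝ) / N := by linarith
      _ = _ := by ring
  -- the inclusion
  have hsub : (Bx m H N).filter (fun g => Cl M g.1 g.2 ∧ 0 < g.1 (Fin.last m) ∧ 0 < g.2.1.1 ∧ 0 < g.2.2.1) ⊆
      (Bx m H N).filter (fun g => ELS3 g.1 g.2 ∧ 0 < g.1 (Fin.last m) ∧ 0 < g.2.1.1 ∧ 0 < g.2.2.1) ∪
        ((Bx m H N).filter (fun g => ∃ p : ℕ, p.Prime ∧ w2 < p ∧ p ≤ 4 * N / M ∧ Cl M g.1 g.2 ∧ BadT p g.1 g.2) ∪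
          ((Bx m H N).filter (fun g => ∃ p : ℕ, p.Prime ∧ 4 * N / M < p ∧ p ≤ N ∧ BadT p g.1 g.2) ∪
            (Bx m H N).filter (fun g => ∃ p : ℕ, p.Prime ∧ N < p ∧ BadT p g.1 g.2))) := by
    intro g hg
    rw [mem_filter] at hg
    obtain ⟨hB, hcl, h1, h2, h3⟩ := hg
    simp only [mem_union, mem_filter]
    by_cases hc : ∀ p : ℕ, p.Prime → w2 < p → ¬ BadT p g.1 g.2
    · exact Or.inl ⟨hB, hE2 g.1 g.2 hcl.1 hcl.2.1 hcl.2.2 h1 h2 h3 hc, h1, h2, h3⟩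
    · push Not at hc
      obtain ⟨p, hp, hwp, hbad⟩ := hc
      by_cases h4 : p ≤ 4 * N / M
      · exact Or.inr (Or.inl ⟨hB, p, hp, hwp, h4, hcl, hbad⟩)
      · by_cases h5 : p ≤ N
        · exact Or.inr (Or.inr (Or.inl ⟨hB, p, hp, by omega, h5, hbad⟩))
        · exact Or.inr (Or.inr (Or.inr ⟨hB, p, hp, by omega, hbad⟩))
  have hc2 : ((Bx m H N).filter (fun g => Cl M g.1 g.2 ∧ 0 < g.1 (Fin.last m) ∧ 0 < g.2.1.1 ∧ 0 < g.2.2.1)).card ≤
      ((Bx m H N).filter (fun g => ELS3 g.1 g.2 ∧ 0 < g.1 (Fin.last m) ∧ 0 < g.2.1.1 ∧ 0 < g.2.2.1)).card +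
        (((Bx m H N).filter (fun g => ∃ p : ℕ, p.Prime ∧ w2 < p ∧ p ≤ 4 * N / M ∧ Cl M g.1 g.2 ∧ BadT p g.1 g.2)).card +
          (((Bx m H N).filter (fun g => ∃ p : ℕ, p.Prime ∧ 4 * N / M < p ∧ p ≤ N ∧ BadT p g.1 g.2)).card +
            ((Bx m H N).filter (fun g => ∃ p : ℕ, p.Prime ∧ N < p ∧ BadT p g.1 g.2)).card)) := by
    refine (card_le_card hsub).trans ((card_union_le _ _).trans ?_)
    refine Nat.add_le_add_left ?_ _
    refine (card_union_le _ _).trans ?_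
    refine Nat.add_le_add_left ?_ _
    exact card_union_le _ _
  have hc3 : (((Bx m H N).filter (fun g => Cl M g.1 g.2 ∧ 0 < g.1 (Fin.last m) ∧ 0 < g.2.1.1 ∧ 0 < g.2.2.1)).card : ℝ) ≤
      (((Bx m H N).filter (fun g => ELS3 g.1 g.2 ∧ 0 < g.1 (Fin.last m) ∧ 0 < g.2.1.1 ∧ 0 < g.2.2.1)).card : ℝ) +
        ((((Bx m H N).filter (fun g => ∃ p : ℕ, p.Prime ∧ w2 < p ∧ p ≤ 4 * N / M ∧ Cl M g.1 g.2 ∧ BadT p g.1 g.2)).card : ℝ) +
          ((((Bx m H N).filter (fun g => ∃ p : ℕ, p.Prime ∧ 4 * N / M < p ∧ p ≤ N ∧ BadT p g.1 g.2)).card : ℝ) +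
            (((Bx m H N).filter (fun g => ∃ p : ℕ, p.Prime ∧ N < p ∧ BadT p g.1 g.2)).card : ℝ))) := by
    exact_mod_cast hc2
  have h16 : 16 * (X * (1 / (M : ℝ) ^ 3)) ≤ 2 ^ (m + 4) * (H : ℝ) ^ (m + 1) * (N : ℝ) ^ 6 / (M : ℝ) ^ 3 := by
    have h1 : (16 : ℝ) ≤ 2 ^ (m + 4) := by
      calc (16 : ℝ) = 2 ^ 4 := by norm_num
        _ ≤ 2 ^ (m + 4) := pow_le_pow_right₀ (by norm_num) (by omega)
    calc 16 * (X * (1 / (M : ℝ) ^ 3)) ≤ 2 ^ (m + 4) * (X * (1 / (M : ℝ) ^ 3)) := by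
          refine mul_le_mul_of_nonneg_right h1 (by positivity)
      _ = _ := by rw [hX]; ring
  have hec : CL * ((H : ℝ) ^ (m + 1) * (N : ℝ) ^ 6) * ((1 + Real.log N) / N + 1 / H + (PM m H N : ℝ) / (H : ℝ) ^ 2) ≤
      CL * X * ((2 + ((m + 2).factorial : ℝ) + Real.log N) / N) := by
    rw [← hX]
    exact mul_le_mul_of_nonneg_left bc (by positivity)
  have hfin : X * (20 * 8 ^ (m + 7) * M / N) + CL * X * ((2 + ((m + 2).factorial : ℝ) + Real.log N) / N) ≤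
      X * (1 / (M : ℝ) ^ 3) := by
    calc X * (20 * 8 ^ (m + 7) * M / N) + CL * X * ((2 + ((m + 2).factorial : ℝ) + Real.log N) / N)
        = X * ((CL * (2 + ((m + 2).factorial : ℝ)) + 20 * 8 ^ (m + 7) * M + CL * Real.log N) / N) := by ring
      _ ≤ X * (1 / (M : ℝ) ^ 3) := mul_le_mul_of_nonneg_left hsm hX0.le
  rw [← hX]
  have hXM : 0 < X * (1 / (M : ℝ) ^ 3) := by positivity
  have hcomm : 1 / (M : ℝ) ^ 3 * X = X * (1 / (M : ℝ) ^ 3) := mul_comm _ _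
  rw [hcomm]
  linarith

end FQQ
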