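import Pool.Agent.Lib.MP_10e784_agF.D2

/-! JOB WA -/

set_option autoImplicit false

open Classical

namespace FQQ

open Finset Polynomial FGO

/-- the product of the three polynomials over `ℚ` -/
noncomputable def PQ3 {m : ℕ} (f : Vn m) (u : V × V) : ℚ[X] :=
  Pf (fun i => (f i : ℚ)) * Pq ((u.1.1 : ℚ), (u.1.2.1 : ℚ), (u.1.2.2 : ℚ)) *
    Pq ((u.2.1 : ℚ), (u.2.2.1 : ℚ), (u.2.2.2 : ℚ))

private theorem WA_decomp {m : ℕ} (f : Vn m) :
    Pf (m := m) (fun i => (f i : ℚ)) = C (f 0 : ℚ) + ∑ i : Fin m, C ((f i.succ : ℤ) : ℚ) * X ^ ((i : ℕ) + 1) := by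
  unfold Pf
  rw [Fin.sum_univ_succ]
  simp only [Fin.val_zero, pow_zero, mul_one, Fin.val_succ]

private theorem WA_fibre {m : ℕ} (hm : 1 ≤ m) (S : Finset (Vn m))
    (hS : ∀ f ∈ S, f (Fin.last m) ≠ 0 ∧ ¬ Squarefree (Pf (m := m) fun i => (f i : ℚ))) (g : Fin m → ℤ)
    (hg : ∀ f ∈ S, (fun i : Fin m => f i.succ) = g) : S.card ≤ m := by
  let K := AlgebraicClosure ℚ
  let G0 : ℚ[X] := ∑ i : Fin m, C ((g i : ℤ) : ℚ) * X ^ ((i : ℕ) + 1)
  have hdeg : G0.natDegree ≤ m := by
    refine natDegree_sum_le_of_forall_le _ _ (fun i _ => ?_)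
    refine (natDegree_C_mul_X_pow_le _ _).trans ?_
    omega
  have hd2 : (derivative G0).natDegree ≤ m := (natDegree_derivative_le G0).trans (by omega)
  have hF : ∀ f ∈ S, Pf (m := m) (fun i => (f i : ℚ)) = C (f 0 : ℚ) + G0 := by
    intro f hf
    rw [WA_decomp]
    have := hg f hf
    have h2 : ∀ i : Fin m, f i.succ = g i := fun i => congrFun this i
    simp only [h2]
    rfl
  let T : Finset K := ((derivative G0).aroots K).toFinset.image fun α => - aeval α G0
  have hT : T.card ≤ m := by
    refine Finset.card_image_le.trans ?_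
    refine (Multiset.toFinset_card_le _).trans ?_
    have h1 : ((derivative G0).aroots K).card ≤ ((derivative G0).map (algebraMap ℚ K)).natDegree :=
      card_roots' _
    rw [natDegree_map] at h1
    exact h1.trans hd2
  refine le_trans ?_ hT
  refine Finset.card_le_card_of_injOn (fun f : Vn m => ((f 0 : ℤ) : K)) ?_ ?_
  · intro f hf
    rw [Finset.mem_coe] at hf ⊢
    obtain ⟨h1, h2⟩ := hS f hf
    have h3 : derivative (Pf (m := m) fun i => (f i : ℚ)) = derivative G0 := by
      rw [hF f hf, derivative_add, derivative_C, zero_add]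
    have h4 : derivative G0 ≠ 0 := by
      intro h0
      rw [h0] at h3
      have h5 := derivative_eq_zero.mp h3
      have h6 : (Pf (m := m) fun i => (f i : ℚ)).coeff m = ((f (Fin.last m) : ℤ) : ℚ) :=
        coeff_Pf (fun i => (f i : ℚ)) (Fin.last m)
      have h7 : (Pf (m := m) fun i => (f i : ℚ)).coeff m = 0 := by
        apply coeff_eq_zero_of_natDegree_lt
        rw [h5]
        omega
      rw [h7] at h6
      exact h1 (by exact_mod_cast h6.symm)
    rw [← PerfectField.separable_iff_squarefree, Polynomial.Separable, h3,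
      isCoprime_iff_aeval_ne_zero_of_isAlgClosed ℚ K] at h2
    push Not at h2
    obtain ⟨α, ha, hb⟩ := h2
    rw [Finset.mem_image]
    refine ⟨α, ?_, ?_⟩
    · rw [Multiset.mem_toFinset, mem_aroots]
      exact ⟨h4, hb⟩
    · rw [hF f hf, map_add, aeval_C] at ha
      have h8 : algebraMap ℚ K ((f 0 : ℤ) : ℚ) = ((f 0 : ℤ) : K) := by simp
      rw [h8] at ha
      linear_combination -ha
  · intro f hf f' hf' hff
    rw [Finset.mem_coe] at hf hf'
    have h0 : f 0 = f' 0 := by
      have : ((f 0 : ℤ) : K) = ((f' 0 : ℤ) : K) := hff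
      exact_mod_cast this
    funext i
    refine Fin.cases h0 (fun j => ?_) i
    have h1 := congrFun (hg f hf) j
    have h2 := congrFun (hg f' hf') j
    exact h1.trans h2.symm

/-- Proof. Fibre over the coordinates `f 1, .., f m` (at most `(2H+1)^m` choices, `f m ≠ 0`). `F = F₀ + C (f 0)` with `F₀ = ∑_{i ≥ 1} f i X^i`, `F' = F₀' ≠ 0` has degree `m - 1`. If `F` is not squarefree over `ℚ` (perfect), it is not separable, so `F` and `F'` have a common root `α` in
`AlgebraicClosure ℚ`: `f 0 = - F₀(α)` where `α` is one of the at most `m - 1` roots of `F₀'`. So at most `m - 1 ≤ m` values of `f 0`. -/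
theorem nsq_cnt {m H : ℕ} (hm : 1 ≤ m) :
    ((boxN m H).filter fun f => f (Fin.last m) ≠ 0 ∧ ¬ Squarefree (Pf (m := m) fun i => (f i : ℚ))).card ≤
      m * (2 * H + 1) ^ m := by
  have h1 := Finset.card_le_mul_card_image_of_maps_to
    (f := fun f : Vn m => (fun i : Fin m => f i.succ))
    (s := (boxN m H).filter fun f => f (Fin.last m) ≠ 0 ∧ ¬ Squarefree (Pf (m := m) fun i => (f i : ℚ)))
    (t := Fintype.piFinset fun _ : Fin m => Icc (-(H : ℤ)) (H : ℤ)) (by
      intro f hf
      have hf1 := (Finset.mem_filter.mp hf).1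
      unfold boxN at hf1
      rw [Fintype.mem_piFinset] at hf1 ⊢
      exact fun i => hf1 i.succ) m (by
      intro g _
      refine WA_fibre hm _ ?_ g ?_
      · intro f hf
        exact (Finset.mem_filter.mp (Finset.mem_filter.mp hf).1).2
      · intro f hf
        exact (Finset.mem_filter.mp hf).2)
  refine h1.trans (le_of_eq ?_)
  rw [Fintype.card_piFinset_const, Int.card_Icc]
  congr 2
  omega

end FQQ
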