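import Pool.Agent.Lib.MP_10e784_agF.WA
import Pool.Agent.Lib.MP_10e784_agF.VG
import Pool.Agent.Lib.MP_1ad228_ntG.Z0

/-! JOB WB -/

set_option autoImplicit false

open Classical

namespace FQQ

open Finset Polynomial FGO

private theorem WB_Icc (N : ℕ) : (Icc (-(N : ℤ)) (N : ℤ)).card = 2 * N + 1 := by
  rw [Int.card_Icc]
  omega

private theorem WB_boxN (m H : ℕ) : (boxN m H).card = (2 * H + 1) ^ (m + 1) := by
  unfold boxN
  rw [Fintype.card_piFinset]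
  simp only [WB_Icc, Finset.prod_const, Finset.card_univ, Fintype.card_fin]

private theorem WB_box (N : ℕ) : (FGO.box N).card = (2 * N + 1) ^ 3 := by
  unfold FGO.box
  rw [Finset.card_product, Finset.card_product, WB_Icc]
  ring

private theorem WB_box2 (N : ℕ) : (box2 N).card = (2 * N + 1) ^ 6 := by
  unfold box2
  rw [Finset.card_product, WB_box]
  ring

/-- few quadratic forms have discriminant zero -/
private theorem WB_ds (N : ℕ) : ((FGO.box N).filter fun v => v.1 ≠ 0 ∧ ds v = 0).card ≤ (2 * N + 1) ^ 2 := by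
  have h1 : ((FGO.box N).filter fun v => v.1 ≠ 0 ∧ ds v = 0).card ≤
      (Icc (-(N : ℤ)) (N : ℤ) ×ˢ Icc (-(N : ℤ)) (N : ℤ)).card := by
    apply Finset.card_le_card_of_injOn (fun v => (v.1, v.2.1))
    · intro v hv
      rw [Finset.mem_coe, Finset.mem_filter] at hv
      have h2 := hv.1
      unfold FGO.box at h2
      rw [Finset.mem_product, Finset.mem_product] at h2
      rw [Finset.mem_coe, Finset.mem_product]
      exact ⟨h2.1, h2.2.1⟩
    · intro v hv w hw hvw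
      rw [Finset.mem_coe, Finset.mem_filter] at hv hw
      have e0 := Prod.ext_iff.1 hvw
      have e1 : v.1 = w.1 := e0.1
      have e2 : v.2.1 = w.2.1 := e0.2
      have d1 := hv.2.2
      have d2 := hw.2.2
      unfold ds at d1 d2
      rw [← e1, ← e2] at d2
      have e3 : v.1 * (v.2.2 - w.2.2) = 0 := by linarith
      have e4 : v.2.2 = w.2.2 := by
        rcases mul_eq_zero.1 e3 with h | h
        · exact absurd h hv.2.1
        · linarith
      exact Prod.ext e1 (Prod.ext e2 e4)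
  rw [Finset.card_product, WB_Icc, ← pow_two] at h1
  exact h1

/-- the resultant over the rational numbers -/
private theorem WB_Rs {m : ℕ} (f : Vn m) (v : V) :
    Rs (fun i => (f i : ℚ)) ((v.1 : ℚ), (v.2.1 : ℚ), (v.2.2 : ℚ)) = ((Rs f v : ℤ) : ℚ) := by
  have h1 : (Pf f).map (Int.castRingHom ℚ) = Pf (fun i => (f i : ℚ)) := by
    unfold Pf
    rw [Polynomial.map_sum]
    refine Finset.sum_congr rfl fun i _ => ?_
    rw [Polynomial.map_mul, Polynomial.map_pow, Polynomial.map_C, Polynomial.map_X]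
    rfl
  have h2 : (Pq v).map (Int.castRingHom ℚ) = Pq ((v.1 : ℚ), (v.2.1 : ℚ), (v.2.2 : ℚ)) := by
    unfold Pq
    rw [Polynomial.map_add, Polynomial.map_add, Polynomial.map_mul, Polynomial.map_mul,
      Polynomial.map_pow, Polynomial.map_C, Polynomial.map_C, Polynomial.map_C, Polynomial.map_X]
    rfl
  unfold Rs
  rw [← h1, ← h2, resultant_map_map]
  rfl

private theorem WB_cop_f {m : ℕ} (f : Vn m) (v : V) (h : Rs f v ≠ 0) :
    IsCoprime (Pf (fun i => (f i : ℚ))) (Pq ((v.1 : ℚ), (v.2.1 : ℚ), (v.2.2 : ℚ))) := by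
  obtain ⟨p, q, _, _, h1⟩ := exists_mul_add_mul_eq_C_resultant (Pf (fun i => (f i : ℚ)))
    (Pq ((v.1 : ℚ), (v.2.1 : ℚ), (v.2.2 : ℚ))) (natDegree_Pf _) (natDegree_Pq _)
    (Or.inr two_ne_zero)
  have h2 : (Pf (fun i => (f i : ℚ))).resultant (Pq ((v.1 : ℚ), (v.2.1 : ℚ), (v.2.2 : ℚ))) m 2 =
      ((Rs f v : ℤ) : ℚ) := WB_Rs f v
  rw [h2] at h1
  have h3 : ((Rs f v : ℤ) : ℚ) ≠ 0 := by exact_mod_cast h
  refine ⟨C (((Rs f v : ℤ) : ℚ)⁻¹) * p, C (((Rs f v : ℤ) : ℚ)⁻¹) * q, ?_⟩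
  have h4 : C (((Rs f v : ℤ) : ℚ)⁻¹) * C ((Rs f v : ℤ) : ℚ) = 1 := by
    rw [← C_mul, inv_mul_cancel₀ h3, C_1]
  linear_combination C (((Rs f v : ℤ) : ℚ)⁻¹) * h1 + h4

private theorem WB_cop_q (v w : V) (h : rs v w ≠ 0) :
    IsCoprime (Pq ((v.1 : ℚ), (v.2.1 : ℚ), (v.2.2 : ℚ))) (Pq ((w.1 : ℚ), (w.2.1 : ℚ), (w.2.2 : ℚ))) := by
  obtain ⟨a, b, c⟩ := v
  obtain ⟨a', b', c'⟩ := w
  have h3 : ((rs (a, b, c) (a', b', c') : ℤ) : ℚ) ≠ 0 := by exact_mod_cast h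
  have h4 : C (((rs (a, b, c) (a', b', c') : ℤ) : ℚ)⁻¹) * C ((rs (a, b, c) (a', b', c') : ℤ) : ℚ) = 1 := by
    rw [← C_mul, inv_mul_cancel₀ h3, C_1]
  set r : ℚ := ((rs (a, b, c) (a', b', c') : ℤ) : ℚ) with hr
  have hre : r = ((c : ℚ) * a' - a * c') ^ 2 - ((b : ℚ) * c' - b' * c) * ((a : ℚ) * b' - b * a') := by
    rw [hr]
    simp only [rs]
    push_cast
    ring
  have h5 : ((C ((c : ℚ) * a' - a * c') + C ((a : ℚ) * b' - b * a') * X) * C (a' : ℚ) +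
        C ((a : ℚ) * b' - b * a') * C (b' : ℚ)) * Pq ((a : ℚ), (b : ℚ), (c : ℚ)) +
      (-((C ((c : ℚ) * a' - a * c') + C ((a : ℚ) * b' - b * a') * X) * C (a : ℚ) +
        C ((a : ℚ) * b' - b * a') * C (b : ℚ))) * Pq ((a' : ℚ), (b' : ℚ), (c' : ℚ)) = C r := by
    rw [hre]
    simp only [Pq, map_sub, map_mul, map_pow]
    ring
  refine ⟨C r⁻¹ * ((C ((c : ℚ) * a' - a * c') + C ((a : ℚ) * b' - b * a') * X) * C (a' : ℚ) +
        C ((a : ℚ) * b' - b * a') * C (b' : ℚ)),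
      C r⁻¹ * (-((C ((c : ℚ) * a' - a * c') + C ((a : ℚ) * b' - b * a') * X) * C (a : ℚ) +
        C ((a : ℚ) * b' - b * a') * C (b : ℚ))), ?_⟩
  linear_combination C r⁻¹ * h5 + h4

private theorem WB_sep (v : V) (h : ds v ≠ 0) :
    Squarefree (Pq ((v.1 : ℚ), (v.2.1 : ℚ), (v.2.2 : ℚ))) := by
  obtain ⟨a, b, c⟩ := v
  have h3 : ((ds (a, b, c) : ℤ) : ℚ) ≠ 0 := by exact_mod_cast h
  apply Polynomial.Separable.squarefree
  have h4 : C (((ds (a, b, c) : ℤ) : ℚ)⁻¹) * C ((ds (a, b, c) : ℤ) : ℚ) = 1 := by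
    rw [← C_mul, inv_mul_cancel₀ h3, C_1]
  set r : ℚ := ((ds (a, b, c) : ℤ) : ℚ) with hr
  have hre : r = (b : ℚ) ^ 2 - 4 * a * c := by
    rw [hr]
    simp only [ds]
    push_cast
    ring
  have hd : derivative (Pq ((a : ℚ), (b : ℚ), (c : ℚ))) = 2 * C (a : ℚ) * X + C (b : ℚ) := by
    simp only [Pq, derivative_add, derivative_C_mul, derivative_X_pow, derivative_X, derivative_C]
    have h6 : (C (2 : ℚ) : ℚ[X]) = 2 := rfl
    simp [h6]
    ring
  have h5 : (-(4 * C (a : ℚ))) * Pq ((a : ℚ), (b : ℚ), (c : ℚ)) +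
      derivative (Pq ((a : ℚ), (b : ℚ), (c : ℚ))) * derivative (Pq ((a : ℚ), (b : ℚ), (c : ℚ))) = C r := by
    rw [hd, hre]
    simp only [Pq, map_sub, map_mul, map_pow]
    have h6 : (C (4 : ℚ) : ℚ[X]) = 4 := rfl
    rw [h6]
    ring
  refine ⟨C r⁻¹ * (-(4 * C (a : ℚ))), C r⁻¹ * derivative (Pq ((a : ℚ), (b : ℚ), (c : ℚ))), ?_⟩
  linear_combination C r⁻¹ * h5 + h4

/-- the six possible reasons -/
private theorem WB_cases {m : ℕ} (f : Vn m) (u : V × V) (h : ¬ Squarefree (PQ3 f u)) :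
    ¬ Squarefree (Pf (fun i => (f i : ℚ))) ∨ ds u.1 = 0 ∨ ds u.2 = 0 ∨ rs u.1 u.2 = 0 ∨
      Rs f u.1 = 0 ∨ Rs f u.2 = 0 := by
  by_contra hcon
  push Not at hcon
  obtain ⟨h1, h2, h3, h4, h5, h6⟩ := hcon
  apply h
  unfold PQ3
  have c1 := WB_cop_f f u.1 h5
  have c2 := WB_cop_f f u.2 h6
  have c3 := WB_cop_q u.1 u.2 h4
  rw [squarefree_mul_iff, squarefree_mul_iff]
  exact ⟨(c2.mul_left c3).isRelPrime, ⟨c1.isRelPrime, h1, WB_sep _ h2⟩, WB_sep _ h3⟩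

/-- numerical inequalities -/
private theorem WB_numA (m : ℕ) (H N : ℝ) (hN : 1 ≤ N) (hNH : N ≤ H) :
    (3 * H) ^ m * (3 * N) ^ 6 ≤ 3 ^ (m + 7) * (H ^ (m + 1) * N ^ 5) := by
  have hH0 : 0 < H := by linarith
  have hN0 : 0 < N := by linarith
  have h1 : (3 * H) ^ m * (3 * N) ^ 6 = 3 ^ (m + 6) * (H ^ m * N ^ 5 * N) := by
    rw [mul_pow, mul_pow, pow_add]
    ring
  have h2 : 3 ^ (m + 7) * (H ^ (m + 1) * N ^ 5) = 3 ^ (m + 6) * (H ^ m * N ^ 5 * (3 * H)) := by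
    rw [pow_succ H m, pow_succ (3 : ℝ) (m + 6)]
    ring
  rw [h1, h2]
  refine mul_le_mul_of_nonneg_left (mul_le_mul_of_nonneg_left ?_ (by positivity)) (by positivity)
  linarith

private theorem WB_numB (m : ℕ) (H N : ℝ) (hN : 1 ≤ N) (hNH : N ≤ H) :
    (3 * H) ^ (m + 1) * (3 * N) ^ 5 ≤ 3 ^ (m + 7) * (H ^ (m + 1) * N ^ 5) := by
  have hH0 : 0 < H := by linarith
  have hN0 : 0 < N := by linarith
  have h1 : (3 * H) ^ (m + 1) * (3 * N) ^ 5 = 3 ^ (m + 6) * (H ^ (m + 1) * N ^ 5) := by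
    rw [mul_pow, mul_pow, pow_add (3 : ℝ) m 6, pow_succ (3 : ℝ) m]
    ring
  rw [h1]
  refine mul_le_mul_of_nonneg_right ?_ (by positivity)
  exact pow_le_pow_right₀ (by norm_num) (by omega)

private theorem WB_numC (m : ℕ) (H N : ℝ) :
    (3 * H) ^ (m + 1) * (729 * N ^ 5) = 3 ^ (m + 7) * (H ^ (m + 1) * N ^ 5) := by
  rw [mul_pow, pow_add (3 : ℝ) m 7, pow_succ (3 : ℝ) m]
  ring

private theorem WB_numD (m : ℕ) (H N : ℝ) (hN : 1 ≤ N) (hNH : N ≤ H) :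
    (3 * N) ^ 6 * (6 * (3 * H) ^ (m + 1) / H) ≤ 3 ^ (m + 7) * 6 * (H ^ (m + 1) * N ^ 5) := by
  have hH0 : 0 < H := by linarith
  have hN0 : 0 < N := by linarith
  have h1 : (3 * N) ^ 6 * (6 * (3 * H) ^ (m + 1) / H) = 3 ^ (m + 7) * 6 * (H ^ m * N ^ 5 * N) := by
    have e : 6 * (3 * H) ^ (m + 1) / H = 6 * 3 ^ (m + 1) * H ^ m := by
      rw [mul_pow, pow_succ H m]
      field_simp
    rw [e, mul_pow, pow_add (3 : ℝ) m 7, pow_succ (3 : ℝ) m]
    ring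
  have h2 : 3 ^ (m + 7) * 6 * (H ^ (m + 1) * N ^ 5) = 3 ^ (m + 7) * 6 * (H ^ m * N ^ 5 * H) := by
    rw [pow_succ H m]
    ring
  rw [h1, h2]
  exact mul_le_mul_of_nonneg_left (mul_le_mul_of_nonneg_left hNH (by positivity)) (by positivity)

/-- the fibres over `u` -/
private theorem WB_fib {m H N : ℕ} (P : Vn m → V × V → Prop)
    [DecidablePred fun g : Vn m × (V × V) => P g.1 g.2] [∀ u, DecidablePred fun f => P f u] (c : ℝ)
    (h : ∀ u ∈ box2 N, (((boxN m H).filter fun f => P f u).card : ℝ) ≤ c) :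
    (((Bx m H N).filter fun g => P g.1 g.2).card : ℝ) ≤ ((2 * N + 1 : ℕ) : ℝ) ^ 6 * c := by
  have h1 : ((Bx m H N).filter fun g => P g.1 g.2).card =
      ∑ u ∈ box2 N, ((boxN m H).filter fun f => P f u).card := by
    unfold Bx
    rw [Finset.card_filter, Finset.sum_product_right]
    refine Finset.sum_congr rfl fun u _ => ?_
    rw [Finset.card_filter]
  rw [h1]
  push_cast
  refine le_trans (Finset.sum_le_sum h) ?_
  rw [Finset.sum_const, nsmul_eq_mul, WB_box2]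
  push_cast
  exact le_refl _

/-- Proof. Over `ℚ`, with nonzero leading coefficients. If the product is not squarefree, then one of the three factors is not squarefree or two of them have a common (irreducible) factor (a product of pairwise coprime squarefree polynomials is squarefree).
`Pf f` not squarefree: `nsq_cnt`, times `(2N+1)^6` pairs. `Pq v` not squarefree: `ds v = 0` (double root), for given `v.1 ≠ 0`, `v.2.1` at most one `v.2.2`: `(2N+1)²` vectors `v`, times `(2N+1)³ (2H+1)^(m+1)`. The same for `w`. `Pq v`, `Pq w` not coprime: `rs v w = 0`: `FGO.res_zero_card`, times `(2H+1)^(m+1)`.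
`Pf f`, `Pq v` not coprime: `Rs f v = 0` (resultant of polynomials with nonzero leading coefficients; the cast `ℤ → ℚ` commutes with `Rs`, `resultant_map`): `Rs_zero_cnt` for each of the pairs. The same for `w`. Each number is `≤ C H^(m+1) N^6/N` (`4 N ≤ H`). -/
theorem sing_cnt (m : ℕ) (hm : 2 ≤ m) : ∃ C : ℝ, 0 < C ∧ ∀ H N : ℕ, 0 < N → 4 * N ≤ H →
    (((Bx m H N).filter fun g => g.1 (Fin.last m) ≠ 0 ∧ g.2.1.1 ≠ 0 ∧ g.2.2.1 ≠ 0 ∧ ¬ Squarefree (PQ3 g.1 g.2)).card : ℝ) ≤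
      C * ((H : ℝ) ^ (m + 1) * (N : ℝ) ^ 6) / N := by
  refine ⟨(3 : ℝ) ^ (m + 7) * (m + 15), by positivity, ?_⟩
  intro H N hN hH
  have hH1 : 1 ≤ H := by omega
  have hNR : (1 : ℝ) ≤ N := by exact_mod_cast hN
  have hHR : (1 : ℝ) ≤ H := by exact_mod_cast hH1
  have hNH : (N : ℝ) ≤ H := by
    have : N ≤ H := by omega
    exact_mod_cast this
  have hN0 : (0 : ℝ) < N := by linarith
  have hH0 : (0 : ℝ) < H := by linarith
  have h2N : ((2 * N + 1 : ℕ) : ℝ) ≤ 3 * N := by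
    push_cast
    linarith
  have h2H : ((2 * H + 1 : ℕ) : ℝ) ≤ 3 * H := by
    push_cast
    linarith
  have h2N0 : (0 : ℝ) ≤ ((2 * N + 1 : ℕ) : ℝ) := Nat.cast_nonneg _
  have h2H0 : (0 : ℝ) ≤ ((2 * H + 1 : ℕ) : ℝ) := Nat.cast_nonneg _
  have p6 : ((2 * N + 1 : ℕ) : ℝ) ^ 6 ≤ (3 * (N : ℝ)) ^ 6 := pow_le_pow_left₀ h2N0 h2N 6
  have p5 : ((2 * N + 1 : ℕ) : ℝ) ^ 5 ≤ (3 * (N : ℝ)) ^ 5 := pow_le_pow_left₀ h2N0 h2N 5
  have pm : ((2 * H + 1 : ℕ) : ℝ) ^ m ≤ (3 * (H : ℝ)) ^ m := pow_le_pow_left₀ h2H0 h2H m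
  have pm1 : ((2 * H + 1 : ℕ) : ℝ) ^ (m + 1) ≤ (3 * (H : ℝ)) ^ (m + 1) :=
    pow_le_pow_left₀ h2H0 h2H (m + 1)
  have nA := WB_numA m H N hNR hNH
  have nB := WB_numB m H N hNR hNH
  have nC := WB_numC m H N
  have nD := WB_numD m H N hNR hNH
  have hfin : (3 : ℝ) ^ (m + 7) * (m + 15) * ((H : ℝ) ^ (m + 1) * (N : ℝ) ^ 6) / N =
      (3 : ℝ) ^ (m + 7) * (m + 15) * ((H : ℝ) ^ (m + 1) * (N : ℝ) ^ 5) := by
    field_simp
  rw [hfin]
  generalize hK : (3 : ℝ) ^ (m + 7) = K at *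
  generalize hT : (H : ℝ) ^ (m + 1) * (N : ℝ) ^ 5 = T at *
  -- the six sets
  set S1 : Finset (Vn m × (V × V)) := ((boxN m H).filter fun f => f (Fin.last m) ≠ 0 ∧
    ¬ Squarefree (Pf (m := m) fun i => (f i : ℚ))) ×ˢ box2 N with hS1
  set S2 : Finset (Vn m × (V × V)) :=
    boxN m H ×ˢ (((FGO.box N).filter fun v => v.1 ≠ 0 ∧ ds v = 0) ×ˢ FGO.box N) with hS2
  set S3 : Finset (Vn m × (V × V)) :=
    boxN m H ×ˢ (FGO.box N ×ˢ ((FGO.box N).filter fun v => v.1 ≠ 0 ∧ ds v = 0)) with hS3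
  set S4 : Finset (Vn m × (V × V)) :=
    boxN m H ×ˢ ((box2 N).filter fun u => res u.1 u.2 = 0) with hS4
  set S5 : Finset (Vn m × (V × V)) :=
    (Bx m H N).filter fun g => g.2.1.1 ≠ 0 ∧ Rs g.1 g.2.1 = 0 with hS5
  set S6 : Finset (Vn m × (V × V)) :=
    (Bx m H N).filter fun g => g.2.2.1 ≠ 0 ∧ Rs g.1 g.2.2 = 0 with hS6
  have hsub : ((Bx m H N).filter fun g => g.1 (Fin.last m) ≠ 0 ∧ g.2.1.1 ≠ 0 ∧ g.2.2.1 ≠ 0 ∧
      ¬ Squarefree (PQ3 g.1 g.2)) ⊆ S1 ∪ (S2 ∪ (S3 ∪ (S4 ∪ (S5 ∪ S6)))) := by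
    rintro ⟨f, u⟩ hg
    rw [Finset.mem_filter] at hg
    obtain ⟨hB, hf, hv, hw, hns⟩ := hg
    have hB2 := hB
    unfold Bx at hB2
    rw [Finset.mem_product] at hB2
    have hu := hB2.2
    have hu2 := hu
    unfold box2 at hu2
    rw [Finset.mem_product] at hu2
    simp only [Finset.mem_union]
    rcases WB_cases f u hns with h | h | h | h | h | h
    · left
      rw [hS1, Finset.mem_product, Finset.mem_filter]
      exact ⟨⟨hB2.1, hf, h⟩, hu⟩
    · right; left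
      rw [hS2, Finset.mem_product, Finset.mem_product, Finset.mem_filter]
      exact ⟨hB2.1, ⟨hu2.1, hv, h⟩, hu2.2⟩
    · right; right; left
      rw [hS3, Finset.mem_product, Finset.mem_product, Finset.mem_filter]
      exact ⟨hB2.1, hu2.1, ⟨hu2.2, hw, h⟩⟩
    · right; right; right; left
      rw [hS4, Finset.mem_product, Finset.mem_filter]
      exact ⟨hB2.1, hu, h⟩
    · right; right; right; right; left
      rw [hS5, Finset.mem_filter]
      exact ⟨hB, hv, h⟩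
    · right; right; right; right; right
      rw [hS6, Finset.mem_filter]
      exact ⟨hB, hw, h⟩
  have hcard := Finset.card_le_card hsub
  have hu1 := Finset.card_union_le S1 (S2 ∪ (S3 ∪ (S4 ∪ (S5 ∪ S6))))
  have hu2 := Finset.card_union_le S2 (S3 ∪ (S4 ∪ (S5 ∪ S6)))
  have hu3 := Finset.card_union_le S3 (S4 ∪ (S5 ∪ S6))
  have hu4 := Finset.card_union_le S4 (S5 ∪ S6)
  have hu5 := Finset.card_union_le S5 S6
  have htot : (((Bx m H N).filter fun g => g.1 (Fin.last m) ≠ 0 ∧ g.2.1.1 ≠ 0 ∧ g.2.2.1 ≠ 0 ∧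
      ¬ Squarefree (PQ3 g.1 g.2)).card : ℝ) ≤
      (S1.card : ℝ) + S2.card + S3.card + S4.card + S5.card + S6.card := by
    have : ((Bx m H N).filter fun g => g.1 (Fin.last m) ≠ 0 ∧ g.2.1.1 ≠ 0 ∧ g.2.2.1 ≠ 0 ∧
      ¬ Squarefree (PQ3 g.1 g.2)).card ≤ S1.card + S2.card + S3.card + S4.card + S5.card + S6.card := by
      omega
    exact_mod_cast this
  have b1 : (S1.card : ℝ) ≤ m * (K * T) := by
    have e1 : ((((boxN m H).filter fun f => f (Fin.last m) ≠ 0 ∧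
        ¬ Squarefree (Pf (m := m) fun i => (f i : ℚ))).card : ℕ) : ℝ) ≤
        m * ((2 * H + 1 : ℕ) : ℝ) ^ m := by
      exact_mod_cast nsq_cnt (m := m) (H := H) (by omega)
    rw [hS1, Finset.card_product, WB_box2, Nat.cast_mul, Nat.cast_pow]
    have e3 := mul_le_mul e1 p6 (pow_nonneg h2N0 6) (mul_nonneg (Nat.cast_nonneg m) (pow_nonneg h2H0 m))
    refine e3.trans ?_
    rw [mul_assoc]
    refine mul_le_mul_of_nonneg_left ?_ (Nat.cast_nonneg m)
    exact (mul_le_mul_of_nonneg_right pm (by positivity)).trans nA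
  have b23 : ((2 * H + 1 : ℕ) : ℝ) ^ (m + 1) * ((2 * N + 1 : ℕ) : ℝ) ^ 5 ≤ K * T :=
    (mul_le_mul pm1 p5 (pow_nonneg h2N0 5) (by positivity)).trans nB
  have hdsR : (((((FGO.box N).filter fun v => v.1 ≠ 0 ∧ ds v = 0).card : ℕ)) : ℝ) ≤
      ((2 * N + 1 : ℕ) : ℝ) ^ 2 := by
    exact_mod_cast WB_ds N
  have b2 : (S2.card : ℝ) ≤ K * T := by
    rw [hS2, Finset.card_product, Finset.card_product, WB_boxN, WB_box, Nat.cast_mul, Nat.cast_mul,
      Nat.cast_pow, Nat.cast_pow]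
    refine le_trans (mul_le_mul_of_nonneg_left ?_ (pow_nonneg h2H0 (m + 1))) b23
    rw [pow_succ' _ 4, ← mul_assoc] at *
    exact (mul_le_mul_of_nonneg_right hdsR (pow_nonneg h2N0 3)).trans (le_of_eq (by ring))
  have b3 : (S3.card : ℝ) ≤ K * T := by
    rw [hS3, Finset.card_product, Finset.card_product, WB_boxN, WB_box, Nat.cast_mul, Nat.cast_mul,
      Nat.cast_pow, Nat.cast_pow]
    refine le_trans (mul_le_mul_of_nonneg_left ?_ (pow_nonneg h2H0 (m + 1))) b23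
    exact (mul_le_mul_of_nonneg_left hdsR (pow_nonneg h2N0 3)).trans (le_of_eq (by ring))
  have b4 : (S4.card : ℝ) ≤ K * T := by
    rw [hS4, Finset.card_product, WB_boxN, Nat.cast_mul, Nat.cast_pow]
    have e1 := res_zero_card N hN
    exact (mul_le_mul pm1 e1 (Nat.cast_nonneg _) (by positivity)).trans (le_of_eq nC)
  have hc0 : (0 : ℝ) ≤ 6 * (3 * (H : ℝ)) ^ (m + 1) / H := by positivity
  have b56 : ((2 * N + 1 : ℕ) : ℝ) ^ 6 * (6 * (3 * (H : ℝ)) ^ (m + 1) / H) ≤ K * 6 * T :=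
    (mul_le_mul_of_nonneg_right p6 hc0).trans nD
  have hbu : ∀ u ∈ box2 N, u.1 ∈ FGO.box N ∧ u.2 ∈ FGO.box N := by
    intro u hu
    unfold box2 at hu
    exact Finset.mem_product.1 hu
  have b5 : (S5.card : ℝ) ≤ K * 6 * T := by
    refine le_trans (WB_fib (fun f u => u.1.1 ≠ 0 ∧ Rs f u.1 = 0) _ ?_) b56
    intro u hu
    by_cases h : u.1.1 = 0
    · have e : ((boxN m H).filter fun f => u.1.1 ≠ 0 ∧ Rs f u.1 = 0) = ∅ := by
        apply Finset.filter_false_of_mem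
        intro f _ h2
        exact h2.1 h
      rw [e, Finset.card_empty, Nat.cast_zero]
      exact hc0
    · have e2 : ((boxN m H).filter fun f => u.1.1 ≠ 0 ∧ Rs f u.1 = 0) ⊆
          (boxN m H).filter fun f => Rs f u.1 = 0 := by
        intro f hf
        rw [Finset.mem_filter] at hf ⊢
        exact ⟨hf.1, hf.2.2⟩
      refine le_trans ?_ (Rs_zero_cnt (by omega) hN hH u.1 (hbu u hu).1 h)
      exact_mod_cast Finset.card_le_card e2
  have b6 : (S6.card : ℝ) ≤ K * 6 * T := by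
    refine le_trans (WB_fib (fun f u => u.2.1 ≠ 0 ∧ Rs f u.2 = 0) _ ?_) b56
    intro u hu
    by_cases h : u.2.1 = 0
    · have e : ((boxN m H).filter fun f => u.2.1 ≠ 0 ∧ Rs f u.2 = 0) = ∅ := by
        apply Finset.filter_false_of_mem
        intro f _ h2
        exact h2.1 h
      rw [e, Finset.card_empty, Nat.cast_zero]
      exact hc0
    · have e2 : ((boxN m H).filter fun f => u.2.1 ≠ 0 ∧ Rs f u.2 = 0) ⊆
          (boxN m H).filter fun f => Rs f u.2 = 0 := by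
        intro f hf
        rw [Finset.mem_filter] at hf ⊢
        exact ⟨hf.1, hf.2.2⟩
      refine le_trans ?_ (Rs_zero_cnt (by omega) hN hH u.2 (hbu u hu).2 h)
      exact_mod_cast Finset.card_le_card e2
  refine htot.trans ?_
  linarith

end FQQ
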