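import Pool.Agent.Lib.MP_10e784_agF.WB
import Pool.Agent.Lib.MP_10e784_agF.VH
import Pool.Agent.Lib.MP_10e784_agF.HW
import Pool.Agent.Lib.MP_10e784_agF.DS

/-! JOB WC -/

set_option autoImplicit false

open Classical

namespace FQQ

open Finset Polynomial FGO

private theorem WC_ev (A B : ℝ) (hB : 0 < B) : ∃ N0 : ℕ, ∀ N : ℕ, N0 ≤ N → A / Real.log (Real.log N) ≤ B := by
  have h1 : Filter.Tendsto (fun N : ℕ => Real.log (Real.log (N : ℝ))) Filter.atTop Filter.atTop :=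
    Real.tendsto_log_atTop.comp (Real.tendsto_log_atTop.comp tendsto_natCast_atTop_atTop)
  have h2 := h1.eventually_ge_atTop (|A| / B + 1)
  obtain ⟨N0, hN0⟩ := Filter.eventually_atTop.1 h2
  refine ⟨N0, fun N hN => ?_⟩
  have h3 := hN0 N hN
  have h4 : 0 ≤ |A| / B := by positivity
  have h5 : 0 < Real.log (Real.log (N : ℝ)) := by linarith
  rw [div_le_iff₀ h5]
  have h6 : |A| / B ≤ Real.log (Real.log (N : ℝ)) := by linarith
  rw [div_le_iff₀ hB] at h6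
  calc A ≤ |A| := le_abs_self A
    _ ≤ Real.log (Real.log (N : ℝ)) * B := h6
    _ = B * Real.log (Real.log (N : ℝ)) := mul_comm _ _

/-- Proof. `pos_prop` minus `sing_cnt` minus the bound in the hypothesis. -/
theorem fin_pos_of (m K : ℕ) (hm : 2 ≤ m) (hme : Even m) (hK : m / 2 + 4 ≤ K)
    (hbad : ∃ C : ℝ, 0 < C ∧ ∀ N : ℕ, 16 ≤ N →
      (((Bx m (N ^ K) N).filter fun g => Sel g.1 g.2).card : ℝ) ≤
        C * (((N : ℝ) ^ K) ^ (m + 1) * (N : ℝ) ^ 6) / Real.log (Real.log N)) :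
    ∃ c : ℝ, 0 < c ∧ ∃ N0 : ℕ, ∀ N : ℕ, N0 ≤ N →
      c * (((N : ℝ) ^ K) ^ (m + 1) * (N : ℝ) ^ 6) ≤ (((Bx m (N ^ K) N).filter fun g => ELS3 g.1 g.2 ∧
        0 < g.1 (Fin.last m) ∧ 0 < g.2.1.1 ∧ 0 < g.2.2.1 ∧ Squarefree (PQ3 g.1 g.2) ∧ ¬ Sel g.1 g.2).card : ℝ) := by
  obtain ⟨c, hc, N1, h1⟩ := pos_prop m K hm hme hK
  obtain ⟨C2, hC2, h2⟩ := sing_cnt m hm
  obtain ⟨C3, hC3, h3⟩ := hbad
  obtain ⟨N4, h4⟩ := WC_ev C3 (c / 4) (by positivity)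
  obtain ⟨N5, h5⟩ := exists_nat_ge (4 * C2 / c)
  refine ⟨c / 2, by positivity, max (max N1 N4) (max N5 16), fun N hN => ?_⟩
  have e1 : N1 ≤ N := ((le_max_left _ _).trans (le_max_left _ _)).trans hN
  have e4 : N4 ≤ N := ((le_max_right _ _).trans (le_max_left _ _)).trans hN
  have e5 : N5 ≤ N := ((le_max_left _ _).trans (le_max_right _ _)).trans hN
  have e6 : 16 ≤ N := ((le_max_right _ _).trans (le_max_right _ _)).trans hN
  have hN0 : (0 : ℝ) < N := by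
    have : 0 < N := by omega
    exact_mod_cast this
  obtain ⟨X, hX⟩ : ∃ X : ℝ, X = ((N : ℝ) ^ K) ^ (m + 1) * (N : ℝ) ^ 6 := ⟨_, rfl⟩
  have hX0 : 0 < X := by rw [hX]; positivity
  have f1 := h1 N e1
  have hHN : 4 * N ≤ N ^ K := by
    calc 4 * N ≤ N * N := Nat.mul_le_mul_right _ (by omega)
      _ = N ^ 2 := by ring
      _ ≤ N ^ K := Nat.pow_le_pow_right (by omega) (by omega)
  have f2 := h2 (N ^ K) N (by omega) hHN
  have f3 := h3 N e6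
  push_cast at f2
  rw [← hX] at f1 f2 f3 ⊢
  have g2 : C2 * X / N ≤ c / 4 * X := by
    rw [div_le_iff₀ hN0]
    have a1 : 4 * C2 / c ≤ N := h5.trans (by exact_mod_cast e5)
    rw [div_le_iff₀ hc] at a1
    nlinarith
  have g3 : C3 * X / Real.log (Real.log N) ≤ c / 4 * X := by
    have a1 := h4 N e4
    calc C3 * X / Real.log (Real.log N) = C3 / Real.log (Real.log N) * X := by ring
      _ ≤ c / 4 * X := mul_le_mul_of_nonneg_right a1 hX0.le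
  obtain ⟨A, hA⟩ : ∃ A : Finset (Vn m × (V × V)), A = (Bx m (N ^ K) N).filter fun g => ELS3 g.1 g.2 ∧
        0 < g.1 (Fin.last m) ∧ 0 < g.2.1.1 ∧ 0 < g.2.2.1 := ⟨_, rfl⟩
  obtain ⟨S, hS⟩ : ∃ S : Finset (Vn m × (V × V)), S = (Bx m (N ^ K) N).filter fun g =>
        g.1 (Fin.last m) ≠ 0 ∧ g.2.1.1 ≠ 0 ∧ g.2.2.1 ≠ 0 ∧ ¬ Squarefree (PQ3 g.1 g.2) := ⟨_, rfl⟩
  obtain ⟨B, hB⟩ : ∃ B : Finset (Vn m × (V × V)), B = (Bx m (N ^ K) N).filter fun g => Sel g.1 g.2 := ⟨_, rfl⟩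
  obtain ⟨T, hT⟩ : ∃ T : Finset (Vn m × (V × V)), T = (Bx m (N ^ K) N).filter fun g => ELS3 g.1 g.2 ∧
        0 < g.1 (Fin.last m) ∧ 0 < g.2.1.1 ∧ 0 < g.2.2.1 ∧ Squarefree (PQ3 g.1 g.2) ∧ ¬ Sel g.1 g.2 := ⟨_, rfl⟩
  rw [← hA] at f1
  rw [← hS] at f2
  rw [← hB] at f3
  rw [← hT]
  have hsub : A ⊆ T ∪ (S ∪ B) := by
    intro g hg
    rw [hA, mem_filter] at hg
    obtain ⟨k1, k2, k3, k4, k5⟩ := hg
    rw [mem_union, mem_union]
    by_cases a : Squarefree (PQ3 g.1 g.2)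
    · by_cases b : Sel g.1 g.2
      · right
        right
        rw [hB, mem_filter]
        exact ⟨k1, b⟩
      · left
        rw [hT, mem_filter]
        exact ⟨k1, k2, k3, k4, k5, a, b⟩
    · right
      left
      rw [hS, mem_filter]
      exact ⟨k1, k3.ne', k4.ne', k5.ne', a⟩
  have hcard : A.card ≤ T.card + (S.card + B.card) :=
    (card_le_card hsub).trans ((card_union_le _ _).trans (Nat.add_le_add_left (card_union_le _ _) _))
  have hcard' : (A.card : ℝ) ≤ T.card + (S.card + B.card) := by exact_mod_cast hcard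
  linarith

end FQQ
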