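import Pool.Agent.Lib.MP_10e784_agF.WC

/-! WD: final form of the counting theorems. -/

set_option autoImplicit false

namespace FQQ

open Finset Polynomial FGO

theorem WD_mem {m H N : ℕ} (g : Vn m × (V × V)) : g ∈ Bx m H N ↔
    (∀ i, |g.1 i| ≤ H) ∧ (|g.2.1.1| ≤ N ∧ |g.2.1.2.1| ≤ N ∧ |g.2.1.2.2| ≤ N) ∧
      (|g.2.2.1| ≤ N ∧ |g.2.2.2.1| ≤ N ∧ |g.2.2.2.2| ≤ N) := by
  unfold Bx boxN box2
  rw [Finset.mem_product, Finset.mem_product, Fintype.mem_piFinset, mem_box, mem_box]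
  simp only [Finset.mem_Icc, abs_le]

/-- the two parts of the theorem for one pair `m, K` -/
def Thm (m K : ℕ) : Prop :=
  ∃ c C : ℝ, 0 < c ∧ ∃ N₀ : ℕ, ∀ N : ℕ, N₀ ≤ N → ∀ P Q : Vn m × (V × V) → Prop,
    (∀ g, P g → g ∈ Bx m (N ^ K) N ∧ Sel g.1 g.2) →
    (∀ g, g ∈ Bx m (N ^ K) N → ELS3 g.1 g.2 → g.1 (Fin.last m) ≠ 0 → g.2.1.1 ≠ 0 → g.2.2.1 ≠ 0 →
      Squarefree (PQ3 g.1 g.2) → ¬ Sel g.1 g.2 → Q g) → (∀ g, Q g → g ∈ Bx m (N ^ K) N) →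
    (Nat.card {g // P g} : ℝ) ≤ C * (((N : ℝ) ^ K) ^ (m + 1) * (N : ℝ) ^ 6) / Real.log (Real.log N) ∧
    c * (((N : ℝ) ^ K) ^ (m + 1) * (N : ℝ) ^ 6) ≤ (Nat.card {g // Q g} : ℝ)

theorem thm_of (m K : ℕ) (hm : 2 ≤ m) (hme : Even m) (hK : m / 2 + 4 ≤ K)
    (hbad : open Classical in ∃ C : ℝ, 0 < C ∧ ∀ N : ℕ, 16 ≤ N →
      (((Bx m (N ^ K) N).filter fun g => Sel g.1 g.2).card : ℝ) ≤
        C * (((N : ℝ) ^ K) ^ (m + 1) * (N : ℝ) ^ 6) / Real.log (Real.log N)) : Thm m K := by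
  classical
  obtain ⟨c, hc, N1, h2⟩ := fin_pos_of m K hm hme hK hbad
  obtain ⟨C, -, h1⟩ := hbad
  refine ⟨c, C, hc, max N1 16, fun N hN P Q hP hQ hQ' => ⟨?_, ?_⟩⟩
  · refine le_trans ?_ (h1 N ((le_max_right _ _).trans hN))
    have e1 : Nat.card {g // P g} = ((Bx m (N ^ K) N).filter fun g => P g).card := by
      rw [Nat.subtype_card]
      intro g
      rw [Finset.mem_filter]
      exact ⟨fun h => h.2, fun h => ⟨(hP g h).1, h⟩⟩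
    rw [e1]
    refine Nat.cast_le.2 (Finset.card_le_card fun g hg => ?_)
    rw [Finset.mem_filter] at hg ⊢
    exact ⟨hg.1, (hP g hg.2).2⟩
  · refine (h2 N ((le_max_left _ _).trans hN)).trans ?_
    have e1 : Nat.card {g // Q g} = ((Bx m (N ^ K) N).filter fun g => Q g).card := by
      rw [Nat.subtype_card]
      intro g
      rw [Finset.mem_filter]
      exact ⟨fun h => h.2, fun h => ⟨hQ' g h, h⟩⟩
    rw [e1]
    refine Nat.cast_le.2 (Finset.card_le_card fun g hg => ?_)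
    rw [Finset.mem_filter] at hg ⊢
    obtain ⟨k1, k2, k3, k4, k5, k6, k7⟩ := hg
    exact ⟨k1, hQ g k1 k2 k3.ne' k4.ne' k5.ne' k6 k7⟩

theorem thm_four (m K : ℕ) (hm : 4 ≤ m) (hme : Even m) (hK : m / 2 + 4 ≤ K) : Thm m K :=
  thm_of m K (by omega) hme hK (bad_card4 m K hm hme hK)

theorem thm_all (m K : ℕ) (hm : 2 ≤ m) (hme : Even m) (hK : m / 2 + 10 ≤ K) : Thm m K :=
  thm_of m K hm hme (by omega) (bad_all m K hm hme hK)

end FQQ
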