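import Pool.Agent.Lib.MP_10e784_agF.D2
import Pool.Agent.Lib.MP_10e784_agF.RD
import Pool.Agent.Lib.MP_10e784_agF.KN1

/-! JOB XA -/

set_option autoImplicit false

open Classical

namespace FQQ

open Finset Polynomial FGO

private theorem XA_class (H p : ℕ) (hp : 0 < p) (a : ℤ) :
    ((Icc (-(H : ℤ)) (H : ℤ)).filter fun x => (p : ℤ) ∣ x - a).card ≤ 2 * H / p + 1 := by
  have hp' : (0 : ℤ) < p := by exact_mod_cast hp
  rw [← Finset.card_range (2 * H / p + 1)]
  have hnn : ∀ x : ℤ, -(H : ℤ) ≤ x → 0 ≤ (x + H) / (p : ℤ) := fun x hx =>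
    Int.ediv_nonneg (by linarith) hp'.le
  refine Finset.card_le_card_of_injOn (fun x => ((x + H) / (p : ℤ)).toNat) ?_ ?_
  · intro x hx
    rw [Finset.mem_coe, Finset.mem_filter, Finset.mem_Icc] at hx
    rw [Finset.mem_coe, Finset.mem_range]
    have h1 := hnn x hx.1.1
    have h2 : (x + H) / (p : ℤ) ≤ (2 * H : ℤ) / p := Int.ediv_le_ediv hp' (by linarith [hx.1.2])
    have h3 : ((2 * H / p : ℕ) : ℤ) = (2 * H : ℤ) / p := by
      push_cast
      rfl
    rw [← h3] at h2
    show ((x + H) / (p : ℤ)).toNat < 2 * H / p + 1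
    generalize (x + H) / (p : ℤ) = u at h1 h2 ⊢
    generalize 2 * H / p = w at h2 ⊢
    omega
  · intro x hx y hy hxy
    rw [Finset.mem_coe, Finset.mem_filter, Finset.mem_Icc] at hx hy
    have h1 : (x + H) / (p : ℤ) = (y + H) / (p : ℤ) := by
      have e1 := hnn x hx.1.1
      have e2 := hnn y hy.1.1
      have e3 : ((x + H) / (p : ℤ)).toNat = ((y + H) / (p : ℤ)).toNat := hxy
      generalize (x + H) / (p : ℤ) = u at e1 e3 ⊢
      generalize (y + H) / (p : ℤ) = w at e2 e3 ⊢
      omega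
    have h2 : (x + H) % (p : ℤ) = (y + H) % (p : ℤ) := by
      refine Int.emod_emod_of_dvd _ (dvd_refl (p : ℤ)) ▸ ?_
      refine (Int.emod_emod_of_dvd _ (dvd_refl (p : ℤ))).trans ?_
      refine Int.ModEq.symm ((Int.modEq_iff_dvd).2 ?_)
      have e : x + H - (y + H) = (x - a) - (y - a) := by ring
      rw [e]
      exact dvd_sub hx.2 hy.2
    have h3 := Int.emod_add_mul_ediv (x + H) p
    have h4 := Int.emod_add_mul_ediv (y + H) p
    rw [h1, h2] at h3
    linarith

private theorem XA_fib {m H p : ℕ} (hp : 0 < p) (J : Finset (Fin (m + 1))) (P : Vn m → Prop)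
    [DecidablePred P]
    (h : ∀ f g : Vn m, P f → P g → (∀ i, i ∉ J → f i = g i) → ∀ i ∈ J, (p : ℤ) ∣ f i - g i) :
    ((boxN m H).filter P).card ≤
      (2 * H / p + 1) ^ J.card * (2 * H + 1) ^ (m + 1 - J.card) := by
  obtain ⟨S, hS⟩ : ∃ S : Finset (Vn m), S = (boxN m H).filter P := ⟨_, rfl⟩
  rw [← hS]
  have hSm : ∀ f ∈ S, (∀ i, f i ∈ Icc (-(H : ℤ)) (H : ℤ)) ∧ P f := by
    intro f hf
    rw [hS, Finset.mem_filter, boxN, Fintype.mem_piFinset] at hf
    exact hf
  obtain ⟨φ, hφ⟩ : ∃ φ : Vn m → Vn m, ∀ f i, φ f i = if i ∈ J then 0 else f i :=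
    ⟨fun f i => if i ∈ J then 0 else f i, fun _ _ => rfl⟩
  have h1 : S.card ≤ (2 * H / p + 1) ^ J.card * (S.image φ).card := by
    refine Finset.card_le_mul_card_image S _ ?_
    intro a _
    by_cases hne : (S.filter fun f => φ f = a).Nonempty
    · obtain ⟨f0, hf0⟩ := hne
      rw [Finset.mem_filter] at hf0
      have hsub : (S.filter fun f => φ f = a) ⊆ Fintype.piFinset (fun i =>
          if i ∈ J then (Icc (-(H : ℤ)) (H : ℤ)).filter (fun x => (p : ℤ) ∣ x - f0 i) else {f0 i}) := by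
        intro f hf
        rw [Finset.mem_filter] at hf
        have hag : ∀ i, i ∉ J → f i = f0 i := by
          intro i hi
          have e1 := congrFun (hf.2.trans hf0.2.symm) i
          rw [hφ, hφ, if_neg hi, if_neg hi] at e1
          exact e1
        rw [Fintype.mem_piFinset]
        intro i
        by_cases hi : i ∈ J
        · rw [if_pos hi, Finset.mem_filter]
          exact ⟨(hSm f hf.1).1 i, h f f0 (hSm f hf.1).2 (hSm f0 hf0.1).2 hag i hi⟩
        · rw [if_neg hi, Finset.mem_singleton]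
          exact hag i hi
      refine (Finset.card_le_card hsub).trans ?_
      rw [Fintype.card_piFinset]
      calc ∏ i, (if i ∈ J then (Icc (-(H : ℤ)) (H : ℤ)).filter (fun x => (p : ℤ) ∣ x - f0 i)
              else {f0 i}).card
          ≤ ∏ i, (if i ∈ J then 2 * H / p + 1 else 1) := by
            refine Finset.prod_le_prod' fun i _ => ?_
            by_cases hi : i ∈ J
            · rw [if_pos hi, if_pos hi]
              exact XA_class H p hp (f0 i)
            · rw [if_neg hi, if_neg hi, Finset.card_singleton]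
        _ = (2 * H / p + 1) ^ J.card := by
            rw [Finset.prod_ite_mem, Finset.univ_inter, Finset.prod_const]
    · rw [Finset.not_nonempty_iff_eq_empty.1 hne, Finset.card_empty]
      exact Nat.zero_le _
  have h2 : (S.image φ).card ≤ (2 * H + 1) ^ (m + 1 - J.card) := by
    have hsub : S.image φ ⊆ Fintype.piFinset (fun i =>
        if i ∈ J then ({0} : Finset ℤ) else Icc (-(H : ℤ)) (H : ℤ)) := by
      intro g hg
      rw [Finset.mem_image] at hg
      obtain ⟨f, hf, rfl⟩ := hg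
      rw [Fintype.mem_piFinset]
      intro i
      rw [hφ]
      by_cases hi : i ∈ J
      · rw [if_pos hi, if_pos hi, Finset.mem_singleton]
      · rw [if_neg hi, if_neg hi]
        exact (hSm f hf).1 i
    refine (Finset.card_le_card hsub).trans ?_
    rw [Fintype.card_piFinset]
    calc ∏ i, (if i ∈ J then ({0} : Finset ℤ) else Icc (-(H : ℤ)) (H : ℤ)).card
        = ∏ i, (if i ∈ Jᶜ then 2 * H + 1 else 1) := by
          refine Finset.prod_congr rfl fun i _ => ?_
          by_cases hi : i ∈ J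
          · rw [if_pos hi, if_neg (by rw [Finset.mem_compl, not_not]; exact hi), Finset.card_singleton]
          · rw [if_neg hi, if_pos (Finset.mem_compl.2 hi), Int.card_Icc]
            omega
      _ = (2 * H + 1) ^ (m + 1 - J.card) := by
          rw [Finset.prod_ite_mem, Finset.univ_inter, Finset.prod_const, Finset.card_compl,
            Fintype.card_fin]
      _ ≤ (2 * H + 1) ^ (m + 1 - J.card) := le_refl _
  exact h1.trans (Nat.mul_le_mul_left _ h2)

/-- The real form of the bound, two coordinates. -/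
private theorem XA_two {m H p : ℕ} (hm : 1 ≤ m) (hH : 0 < H) (hp : 0 < p) (P : Vn m → Prop)
    [DecidablePred P]
    (h : ∀ f g : Vn m, P f → P g → (∀ i : Fin (m + 1), 2 ≤ (i : ℕ) → f i = g i) →
      ∀ i : Fin (m + 1), (i : ℕ) ≤ 1 → (p : ℤ) ∣ f i - g i) :
    (((boxN m H).filter P).card : ℝ) ≤ (3 * (H : ℝ)) ^ (m - 1) * (2 * (H : ℝ) / p + 1) ^ 2 := by
  have h01 : (⟨0, by omega⟩ : Fin (m + 1)) ≠ ⟨1, by omega⟩ := by
    intro h0
    have := congrArg Fin.val h0
    simp at this
  have h1 := XA_fib (H := H) hp ({⟨0, by omega⟩, ⟨1, by omega⟩} : Finset (Fin (m + 1))) P (by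
    intro f g hf hg hfg i hi
    refine h f g hf hg (fun j hj => hfg j ?_) i ?_
    · rw [Finset.mem_insert, Finset.mem_singleton]
      rintro (rfl | rfl)
      · simp at hj
      · simp at hj
    · rw [Finset.mem_insert, Finset.mem_singleton] at hi
      rcases hi with rfl | rfl
      · exact Nat.zero_le _
      · exact le_refl _)
  rw [Finset.card_pair h01] at h1
  have e1 : m + 1 - 2 = m - 1 := by omega
  rw [e1] at h1
  have h2 : (((boxN m H).filter P).card : ℝ) ≤
      ((2 * H / p : ℕ) + 1 : ℝ) ^ 2 * (2 * (H : ℝ) + 1) ^ (m - 1) := by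
    exact_mod_cast h1
  have hH' : (1 : ℝ) ≤ H := by exact_mod_cast hH
  have h3 : ((2 * H / p : ℕ) : ℝ) ≤ 2 * (H : ℝ) / p := by
    have := @Nat.cast_div_le ℝ _ _ _ (2 * H) p
    push_cast at this
    exact this
  refine h2.trans ?_
  rw [mul_comm]
  refine mul_le_mul ?_ ?_ (by positivity) (by positivity)
  · exact pow_le_pow_left₀ (by positivity) (by linarith) _
  · exact pow_le_pow_left₀ (by positivity) (by linarith) _

/-- Difference of two sums which agree at the indices `≥ 2`. -/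
private theorem XA_diff {R : Type} [CommRing R] {m : ℕ} (hm : 1 ≤ m) (f g y : Fin (m + 1) → R)
    (h : ∀ i : Fin (m + 1), 2 ≤ (i : ℕ) → f i = g i) :
    ∑ i, f i * y i - ∑ i, g i * y i =
      (f ⟨0, by omega⟩ - g ⟨0, by omega⟩) * y ⟨0, by omega⟩ +
        (f ⟨1, by omega⟩ - g ⟨1, by omega⟩) * y ⟨1, by omega⟩ := by
  rw [← Finset.sum_sub_distrib, Fintype.sum_eq_add ⟨0, by omega⟩ ⟨1, by omega⟩]
  · ring
  · intro h0
    have := congrArg Fin.val h0
    simp at this
  · rintro i ⟨h0, h1⟩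
    have h2 : 2 ≤ (i : ℕ) := by
      by_contra hcon
      have h3 : (i : ℕ) = 0 ∨ (i : ℕ) = 1 := by omega
      rcases h3 with h3 | h3
      · exact h0 (Fin.ext h3)
      · exact h1 (Fin.ext h3)
    rw [h i h2]
    ring

private theorem XA_cast {p : ℕ} {a b : ℤ} (h : (a : ZMod p) - (b : ZMod p) = 0) :
    (p : ℤ) ∣ a - b := by
  have e4 : ((a - b : ℤ) : ZMod p) = 0 := by
    push_cast
    exact h
  exact (ZMod.intCast_zmod_eq_zero_iff_dvd _ p).1 e4

/-- one linear condition. Proof. Over `ZMod p` the value `hv f x z` is a nonzero linear form in `f` (coefficient `z^m` of `f 0`, `x^m` of `f m`). Solve for one coordinate (class modulo `p`: at most `2H/p + 1 ≤ 3H/p` integers of `[-H, H]`,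
`FGO.class_count` in `Pl.lean` of MP_1ad228_ntG); the other `m` coordinates: `2H + 1 ≤ 3H` values each. -/
theorem lin1 {m H p : ℕ} (hp : p.Prime) (hpH : p ≤ H) (x z : ZMod p) (h : ¬ (x = 0 ∧ z = 0)) :
    (((boxN m H).filter fun f => hv (cN p f) x z = 0).card : ℝ) ≤ 3 ^ (m + 1) * (H : ℝ) ^ (m + 1) / p := by
  have : Fact p.Prime := ⟨hp⟩
  obtain ⟨j, hj⟩ : ∃ j : Fin (m + 1), x ^ (j : ℕ) * z ^ (m - (j : ℕ)) ≠ 0 := by
    by_cases hz : z = 0
    · refine ⟨Fin.last m, ?_⟩
      have hx : x ≠ 0 := fun hx => h ⟨hx, hz⟩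
      rw [Fin.val_last, Nat.sub_self, pow_zero, mul_one]
      exact pow_ne_zero m hx
    · refine ⟨0, ?_⟩
      rw [Fin.val_zero, pow_zero, one_mul]
      exact pow_ne_zero _ hz
  have h1 := XA_fib (H := H) hp.pos ({j} : Finset (Fin (m + 1)))
    (fun f : Vn m => hv (cN p f) x z = 0) (by
      intro f g hf hg hfg i hi
      rw [Finset.mem_singleton] at hi
      subst hi
      have e1 : hv (cN p f) x z - hv (cN p g) x z =
          (cN p f i - cN p g i) * (x ^ (i : ℕ) * z ^ (m - (i : ℕ))) := by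
        unfold hv
        rw [← Finset.sum_sub_distrib, Finset.sum_eq_single i]
        · ring
        · intro k _ hk
          have e2 := hfg k (by rw [Finset.mem_singleton]; exact hk)
          unfold cN
          rw [e2]
          ring
        · intro h0
          exact absurd (Finset.mem_univ i) h0
      rw [hf, hg, sub_zero] at e1
      exact XA_cast ((mul_eq_zero.1 e1.symm).resolve_right hj))
  rw [Finset.card_singleton, pow_one, Nat.add_sub_cancel] at h1
  have h2 : (((boxN m H).filter fun f => hv (cN p f) x z = 0).card : ℝ) ≤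
      ((2 * H / p : ℕ) + 1 : ℝ) * (2 * (H : ℝ) + 1) ^ m := by
    exact_mod_cast h1
  have hp' : (0 : ℝ) < p := by exact_mod_cast hp.pos
  have hp1 : (1 : ℝ) ≤ p := by exact_mod_cast hp.one_le
  have hpH' : (p : ℝ) ≤ H := by exact_mod_cast hpH
  have h3 : ((2 * H / p : ℕ) : ℝ) ≤ 2 * (H : ℝ) / p := by
    have := @Nat.cast_div_le ℝ _ _ _ (2 * H) p
    push_cast at this
    exact this
  have h4 : ((2 * H / p : ℕ) + 1 : ℝ) ≤ 3 * (H : ℝ) / p := by
    have e1 : (1 : ℝ) ≤ (H : ℝ) / p := (one_le_div hp').2 hpH'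
    have e2 : 3 * (H : ℝ) / p = 2 * (H : ℝ) / p + (H : ℝ) / p := by ring
    linarith
  refine h2.trans ((mul_le_mul h4 (pow_le_pow_left₀ (by positivity)
    (by linarith : 2 * (H : ℝ) + 1 ≤ 3 * H) m) (by positivity) (by positivity)).trans (le_of_eq ?_))
  rw [mul_pow, pow_succ, pow_succ]
  ring

/-- two linear conditions. Proof. Given the coordinates `f i`, `i ≥ 2`, the coordinates `f 1` and `f 0` lie in fixed classes modulo `p` (`(r - s) f 1 ≡ ..`, `f 0 ≡ ..`): at most `2H/p + 1` values each. -/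
theorem lin2 {m H p : ℕ} (hm : 1 ≤ m) (hH : 0 < H) (hp : p.Prime) (r s : ℤ) (hrs : ¬ (p : ℤ) ∣ r - s) :
    (((boxN m H).filter fun f => (p : ℤ) ∣ evn f r ∧ (p : ℤ) ∣ evn f s).card : ℝ) ≤
      (3 * (H : ℝ)) ^ (m - 1) * (2 * (H : ℝ) / p + 1) ^ 2 := by
  refine XA_two hm hH hp.pos (fun f : Vn m => (p : ℤ) ∣ evn f r ∧ (p : ℤ) ∣ evn f s) ?_
  intro f g hf hg hfg
  have e1 := XA_diff hm f g (fun i => r ^ (i : ℕ)) hfg
  have e2 := XA_diff hm f g (fun i => s ^ (i : ℕ)) hfg
  have d1 : (p : ℤ) ∣ evn f r - evn g r := dvd_sub hf.1 hg.1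
  have d2 : (p : ℤ) ∣ evn f s - evn g s := dvd_sub hf.2 hg.2
  unfold evn at d1 d2
  rw [e1] at d1
  rw [e2] at d2
  simp only [pow_zero, pow_one, mul_one] at d1 d2
  have d3 : (p : ℤ) ∣ (f ⟨1, by omega⟩ - g ⟨1, by omega⟩) * (r - s) := by
    have d4 := dvd_sub d1 d2
    have e3 : (f ⟨0, by omega⟩ - g ⟨0, by omega⟩) + (f ⟨1, by omega⟩ - g ⟨1, by omega⟩) * r -
        ((f ⟨0, by omega⟩ - g ⟨0, by omega⟩) + (f ⟨1, by omega⟩ - g ⟨1, by omega⟩) * s) =
        (f ⟨1, by omega⟩ - g ⟨1, by omega⟩) * (r - s) := by ring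
    rw [e3] at d4
    exact d4
  have hpp : Prime (p : ℤ) := Nat.prime_iff_prime_int.1 hp
  have d5 : (p : ℤ) ∣ f ⟨1, by omega⟩ - g ⟨1, by omega⟩ := (hpp.dvd_or_dvd d3).resolve_right hrs
  have d6 : (p : ℤ) ∣ f ⟨0, by omega⟩ - g ⟨0, by omega⟩ := by
    have := dvd_sub d1 (d5.mul_right r)
    rwa [add_sub_cancel_right] at this
  intro i hi
  have h3 : (i : ℕ) = 0 ∨ (i : ℕ) = 1 := by omega
  rcases h3 with h3 | h3
  · have : i = ⟨0, by omega⟩ := Fin.ext h3
    rw [this]
    exact d6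
  · have : i = ⟨1, by omega⟩ := Fin.ext h3
    rw [this]
    exact d5

/-- Proof. If two forms with the same coordinates `≥ 2` modulo `p` are divisible by the quadratic polynomial `Pq (cV p v)` (`v.1` is a unit) then their difference has degree `≤ 1` and is divisible by it, so it is `0` modulo `p`.
So given the coordinates `≥ 2`, `f 1` and `f 0` lie in fixed classes modulo `p`. -/
theorem dvd_cnt {m H p : ℕ} (hm : 1 ≤ m) (hH : 0 < H) (hp : p.Prime) (v : V) (hv : ¬ (p : ℤ) ∣ v.1) :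
    (((boxN m H).filter fun f => Pq (cV p v) ∣ Pf (cN p f)).card : ℝ) ≤
      (3 * (H : ℝ)) ^ (m - 1) * (2 * (H : ℝ) / p + 1) ^ 2 := by
  have : Fact p.Prime := ⟨hp⟩
  refine XA_two hm hH hp.pos (fun f : Vn m => Pq (cV p v) ∣ Pf (cN p f)) ?_
  intro f g hf hg hfg
  have hv' : (v.1 : ZMod p) ≠ 0 := by
    intro h0
    exact hv ((ZMod.intCast_zmod_eq_zero_iff_dvd _ p).1 h0)
  have e1 := XA_diff hm (fun i => C (cN p f i)) (fun i => C (cN p g i)) (fun i => (X : (ZMod p)[X]) ^ (i : ℕ))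
    (by
      intro i hi
      show C ((f i : ℤ) : ZMod p) = C ((g i : ℤ) : ZMod p)
      rw [hfg i hi])
  have d1 : Pq (cV p v) ∣ Pf (cN p f) - Pf (cN p g) := dvd_sub hf hg
  unfold Pf at d1
  rw [e1] at d1
  simp only [pow_zero, pow_one, mul_one] at d1
  rw [← C_sub, ← C_sub, add_comm] at d1
  have d2 := Polynomial.eq_zero_of_dvd_of_degree_lt d1 (by
    have e2 : (Pq (cV p v)).degree = 2 := Polynomial.degree_quadratic hv'
    rw [e2]
    exact lt_of_le_of_lt Polynomial.degree_linear_le (by norm_num))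
  have c0 := congrArg (fun P => Polynomial.coeff P 0) d2
  have c1 := congrArg (fun P => Polynomial.coeff P 1) d2
  simp at c0 c1
  have d5 : (p : ℤ) ∣ f ⟨1, by omega⟩ - g ⟨1, by omega⟩ := XA_cast c1
  have d6 : (p : ℤ) ∣ f ⟨0, by omega⟩ - g ⟨0, by omega⟩ := XA_cast c0
  intro i hi
  have h3 : (i : ℕ) = 0 ∨ (i : ℕ) = 1 := by omega
  rcases h3 with h3 | h3
  · have : i = ⟨0, by omega⟩ := Fin.ext h3
    rw [this]
    exact d6
  · have : i = ⟨1, by omega⟩ := Fin.ext h3
    rw [this]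
    exact d5

end FQQ
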