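import Pool.Agent.Lib.MP_10e784_agF.XA

/-! JOB XA2 -/

set_option autoImplicit false

open Classical

namespace FQQ

open Finset Polynomial FGO

/-- a nonzero quadratic form has at most two zeros on the projective line -/
theorem XA2_zeros {F : Type} [Field F] (v : F × F × F) (hv0 : v ≠ 0) (S : Finset (Option F))
    (hS : ∀ o ∈ S, qv v (pt o).1 (pt o).2 = 0) : S.card ≤ 2 := by
  have hne : Pq v ≠ 0 := by
    intro h
    apply hv0
    have h2 : (Pq v).coeff 2 = 0 := by rw [h, coeff_zero]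
    have h1 : (Pq v).coeff 1 = 0 := by rw [h, coeff_zero]
    have h0 : (Pq v).coeff 0 = 0 := by rw [h, coeff_zero]
    unfold Pq at h2 h1 h0
    simp [coeff_X, coeff_C] at h2 h1 h0
    exact Prod.ext h2 (Prod.ext h1 h0)
  have hroot : ∀ r : F, qv v r 1 = 0 → r ∈ (Pq v).roots.toFinset := by
    intro r hr
    rw [Multiset.mem_toFinset, mem_roots hne, IsRoot.def, eval_Pq, hr]
  have hcard : (Pq v).roots.toFinset.card ≤ (Pq v).natDegree :=
    (Multiset.toFinset_card_le _).trans (card_roots' _)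
  by_cases hv1 : v.1 = 0
  · have hd : (Pq v).natDegree ≤ 1 := by
      unfold Pq
      rw [hv1, C_0, zero_mul, zero_add]
      exact natDegree_linear_le
    have hsub : S ⊆ insert none ((Pq v).roots.toFinset.image some) := by
      intro o ho
      rcases o with _ | r
      · exact mem_insert_self _ _
      · exact mem_insert_of_mem (mem_image_of_mem _ (hroot r (hS _ ho)))
    calc _ ≤ (insert none ((Pq v).roots.toFinset.image some)).card := card_le_card hsub
      _ ≤ ((Pq v).roots.toFinset.image some).card + 1 := card_insert_le _ _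
      _ ≤ (Pq v).roots.toFinset.card + 1 := by
          have := card_image_le (s := (Pq v).roots.toFinset) (f := (some : F → Option F))
          omega
      _ ≤ 2 := by omega
  · have hsub : S ⊆ ((Pq v).roots.toFinset.image some) := by
      intro o ho
      rcases o with _ | r
      · exfalso
        apply hv1
        have h := hS _ ho
        simp only [pt, qv] at h
        simpa using h
      · exact mem_image_of_mem _ (hroot r (hS _ ho))
    calc _ ≤ ((Pq v).roots.toFinset.image some).card := card_le_card hsub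
      _ ≤ (Pq v).roots.toFinset.card := card_image_le
      _ ≤ 2 := hcard.trans (natDegree_Pq v)

/-- a common zero is a common zero at a representative -/
theorem XA2_pt {F : Type} [Field F] {m : ℕ} (f : Fin (m + 1) → F) (v : F × F × F) (x z : F)
    (h : ¬ (x = 0 ∧ z = 0)) (h1 : hv f x z = 0) (h2 : qv v x z = 0) :
    ∃ o : Option F, hv f (pt o).1 (pt o).2 = 0 ∧ qv v (pt o).1 (pt o).2 = 0 := by
  by_cases hz : z = 0
  · have hx : x ≠ 0 := fun hx => h ⟨hx, hz⟩
    refine ⟨none, ?_, ?_⟩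
    · have e := hv_smul f x⁻¹ x z
      rw [inv_mul_cancel₀ hx, hz, mul_zero] at e
      rw [hz] at h1
      simp only [pt]
      rw [e, h1, mul_zero]
    · have e := qv_smul v x⁻¹ x z
      rw [inv_mul_cancel₀ hx, hz, mul_zero] at e
      rw [hz] at h2
      simp only [pt]
      rw [e, h2, mul_zero]
  · refine ⟨some (z⁻¹ * x), ?_, ?_⟩
    · have e := hv_smul f z⁻¹ x z
      rw [inv_mul_cancel₀ hz] at e
      simp only [pt]
      rw [e, h1, mul_zero]
    · have e := qv_smul v z⁻¹ x z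
      rw [inv_mul_cancel₀ hz] at e
      simp only [pt]
      rw [e, h2, mul_zero]

/-- Proof. `Rs_zero` over `ZMod p`: `f` and `v` have a common zero: `v ≠ 0` has at most `2` zeros on the projective line (up to scalars), each gives one linear condition (`lin1`); or `v ≡ 0` (excluded); or `v.1 ≢ 0` and `Pq ∣ Pf`
(`dvd_cnt`, `(3H)^(m-1) (3H/p)² ≤ (3H)^(m+1)/p`). Total `≤ 3 · (3H)^(m+1)/p`. -/
theorem Rs_cnt {m H p : ℕ} (hm : 1 ≤ m) (hp : p.Prime) (hpH : p ≤ H) (v : V) (hv : cV p v ≠ 0) :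
    (((boxN m H).filter fun f => (p : ℤ) ∣ Rs f v).card : ℝ) ≤ 3 * (3 * (H : ℝ)) ^ (m + 1) / p := by
  have : Fact p.Prime := ⟨hp⟩
  have hH : 0 < H := lt_of_lt_of_le hp.pos hpH
  have hp0 : (0 : ℝ) < (p : ℝ) := by exact_mod_cast hp.pos
  have hp1 : (1 : ℝ) ≤ (p : ℝ) := by exact_mod_cast hp.one_lt.le
  have hH0 : (0 : ℝ) < (H : ℝ) := by exact_mod_cast hH
  have hpH' : (p : ℝ) ≤ (H : ℝ) := by exact_mod_cast hpH
  set S : Finset (Option (ZMod p)) := univ.filter fun o : Option (ZMod p) =>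
    qv (cV p v) (pt o).1 (pt o).2 = 0 with hS
  have hScard : S.card ≤ 2 := XA2_zeros (cV p v) hv S (fun o ho => (mem_filter.1 ho).2)
  have hsub : ((boxN m H).filter fun f => (p : ℤ) ∣ Rs f v) ⊆
      (S.biUnion fun o => (boxN m H).filter fun f => FQQ.hv (cN p f) (pt o).1 (pt o).2 = 0) ∪
        ((boxN m H).filter fun f => (cV p v).1 ≠ 0 ∧ Pq (cV p v) ∣ Pf (cN p f)) := by
    intro f hf
    rw [mem_filter] at hf
    have h0 : Rs (cN p f) (cV p v) = 0 := by
      rw [← Rs_cast]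
      exact (ZMod.intCast_zmod_eq_zero_iff_dvd _ _).2 hf.2
    rcases Rs_zero hm _ _ h0 with ⟨x, z, hxz, h1, h2⟩ | h | h
    · obtain ⟨o, ho1, ho2⟩ := XA2_pt _ _ x z hxz h1 h2
      refine mem_union_left _ (mem_biUnion.2 ⟨o, ?_, ?_⟩)
      · rw [hS, mem_filter]
        exact ⟨mem_univ _, ho2⟩
      · rw [mem_filter]
        exact ⟨hf.1, ho1⟩
    · exact absurd h hv
    · refine mem_union_right _ ?_
      rw [mem_filter]
      exact ⟨hf.1, h⟩
  have hpt : ∀ o : Option (ZMod p), ¬ ((pt o).1 = 0 ∧ (pt o).2 = 0) := by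
    intro o
    rcases o with _ | r
    · intro h
      exact one_ne_zero h.1
    · intro h
      exact one_ne_zero h.2
  have h1 : ((S.biUnion fun o => (boxN m H).filter fun f => FQQ.hv (cN p f) (pt o).1 (pt o).2 = 0).card : ℝ) ≤
      2 * ((3 * (H : ℝ)) ^ (m + 1) / p) := by
    have hb : ∀ o ∈ S, (((boxN m H).filter fun f => FQQ.hv (cN p f) (pt o).1 (pt o).2 = 0).card : ℝ) ≤
        (3 * (H : ℝ)) ^ (m + 1) / p := by
      intro o _
      have h := lin1 (m := m) hp hpH (pt o).1 (pt o).2 (hpt o)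
      rw [mul_pow]
      exact h
    calc ((S.biUnion fun o => (boxN m H).filter fun f => FQQ.hv (cN p f) (pt o).1 (pt o).2 = 0).card : ℝ) ≤
        ((∑ o ∈ S, ((boxN m H).filter fun f => FQQ.hv (cN p f) (pt o).1 (pt o).2 = 0).card : ℕ) : ℝ) := by
          exact_mod_cast card_biUnion_le
      _ = ∑ o ∈ S, (((boxN m H).filter fun f => FQQ.hv (cN p f) (pt o).1 (pt o).2 = 0).card : ℝ) := by
          push_cast
          rfl
      _ ≤ ∑ _o ∈ S, (3 * (H : ℝ)) ^ (m + 1) / p := sum_le_sum hb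
      _ = (S.card : ℝ) * ((3 * (H : ℝ)) ^ (m + 1) / p) := by rw [sum_const, nsmul_eq_mul]
      _ ≤ 2 * ((3 * (H : ℝ)) ^ (m + 1) / p) := by
          refine mul_le_mul_of_nonneg_right ?_ (by positivity)
          exact_mod_cast hScard
  have h2 : (((boxN m H).filter fun f => (cV p v).1 ≠ 0 ∧ Pq (cV p v) ∣ Pf (cN p f)).card : ℝ) ≤
      (3 * (H : ℝ)) ^ (m + 1) / p := by
    by_cases hv1 : (cV p v).1 = 0
    · have he : ((boxN m H).filter fun f => (cV p v).1 ≠ 0 ∧ Pq (cV p v) ∣ Pf (cN p f)) = ∅ := by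
        refine filter_eq_empty_iff.2 (fun f _ h => h.1 hv1)
      rw [he, card_empty, Nat.cast_zero]
      positivity
    · have hnd : ¬ (p : ℤ) ∣ v.1 := by
        intro h
        exact hv1 ((ZMod.intCast_zmod_eq_zero_iff_dvd _ _).2 h)
      have hd := dvd_cnt hm hH hp v hnd
      have hle : (((boxN m H).filter fun f => (cV p v).1 ≠ 0 ∧ Pq (cV p v) ∣ Pf (cN p f)).card : ℝ) ≤
          (((boxN m H).filter fun f => Pq (cV p v) ∣ Pf (cN p f)).card : ℝ) := by
        have : ((boxN m H).filter fun f => (cV p v).1 ≠ 0 ∧ Pq (cV p v) ∣ Pf (cN p f)).card ≤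
            ((boxN m H).filter fun f => Pq (cV p v) ∣ Pf (cN p f)).card := by
          refine card_le_card (fun f hf => ?_)
          rw [mem_filter] at hf ⊢
          exact ⟨hf.1, hf.2.2⟩
        exact_mod_cast this
      have hq : (2 * (H : ℝ) / p + 1) ^ 2 ≤ (3 * (H : ℝ)) ^ 2 / p := by
        have e1 : 2 * (H : ℝ) / p + 1 ≤ 3 * (H : ℝ) / p := by
          rw [div_add_one (ne_of_gt hp0)]
          exact div_le_div_of_nonneg_right (by linarith) hp0.le
        calc (2 * (H : ℝ) / p + 1) ^ 2 ≤ (3 * (H : ℝ) / p) ^ 2 := by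
              refine pow_le_pow_left₀ (by positivity) e1 2
          _ = (3 * (H : ℝ)) ^ 2 / (p : ℝ) ^ 2 := by rw [div_pow]
          _ ≤ (3 * (H : ℝ)) ^ 2 / p := by
              refine div_le_div_of_nonneg_left (by positivity) hp0 ?_
              nlinarith
      calc _ ≤ (3 * (H : ℝ)) ^ (m - 1) * (2 * (H : ℝ) / p + 1) ^ 2 := hle.trans hd
        _ ≤ (3 * (H : ℝ)) ^ (m - 1) * ((3 * (H : ℝ)) ^ 2 / p) :=
            mul_le_mul_of_nonneg_left hq (by positivity)
        _ = (3 * (H : ℝ)) ^ (m + 1) / p := by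
            rw [← mul_div_assoc, ← pow_add]
            congr 2
            omega
  have hcu := (card_le_card hsub).trans (card_union_le _ _)
  have hcu' : (((boxN m H).filter fun f => (p : ℤ) ∣ Rs f v).card : ℝ) ≤
      ((S.biUnion fun o => (boxN m H).filter fun f => FQQ.hv (cN p f) (pt o).1 (pt o).2 = 0).card : ℝ) +
        (((boxN m H).filter fun f => (cV p v).1 ≠ 0 ∧ Pq (cV p v) ∣ Pf (cN p f)).card : ℝ) := by
    exact_mod_cast hcu
  calc _ ≤ _ := hcu'
    _ ≤ 2 * ((3 * (H : ℝ)) ^ (m + 1) / p) + (3 * (H : ℝ)) ^ (m + 1) / p := add_le_add h1 h2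
    _ = 3 * (3 * (H : ℝ)) ^ (m + 1) / p := by ring

/-- the finite common zero over the field -/
theorem XA2_fin {F : Type} [Field F] {m : ℕ} (hm : 1 ≤ m) (f : Fin (m + 1) → F) (v : F × F × F)
    (hv1 : v.1 ≠ 0) (h : Rs f v = 0) (hnd : ¬ Pq v ∣ Pf f) : ∃ r : F, hv f r 1 = 0 ∧ qv v r 1 = 0 := by
  rcases Rs_zero hm _ _ h with ⟨x, z, hxz, h1, h2⟩ | h | h
  · obtain ⟨o, ho1, ho2⟩ := XA2_pt _ _ x z hxz h1 h2
    rcases o with _ | r
    · exfalso
      apply hv1
      simp only [pt, qv] at ho2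
      simpa using ho2
    · exact ⟨r, ho1, ho2⟩
  · exact absurd (by rw [h]; rfl) hv1
  · exact absurd h.2 hnd

/-- Proof. `p > z`. `Rs_zero` for `v` and for `w`: as `p ∤ v.1`, `p ∤ w.1` and the polynomials do not divide `f`, there are common zeros, which are finite: `r` of `f, v` and `s` of `f, w` modulo `p`. If `r ≡ s` then
`p ∣ rs v w` (`dvd_rs`): excluded. So `f` is in one of at most `4` sets of `lin2` (at most two roots `r` of `v`, two roots `s` of `w` modulo `p`). -/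
theorem two_cnt {m H p : ℕ} (hm : 1 ≤ m) (hH : 0 < H) (hp : p.Prime) (v w : V) (hv : ¬ (p : ℤ) ∣ v.1) (hw : ¬ (p : ℤ) ∣ w.1)
    (hr : ¬ (p : ℤ) ∣ rs v w) :
    (((boxN m H).filter fun f => ((p : ℤ) ∣ Rs f v ∧ (p : ℤ) ∣ Rs f w) ∧ ¬ Pq (cV p v) ∣ Pf (cN p f) ∧
      ¬ Pq (cV p w) ∣ Pf (cN p f)).card : ℝ) ≤
      4 * ((3 * (H : ℝ)) ^ (m - 1) * (2 * (H : ℝ) / p + 1) ^ 2) := by
  have : Fact p.Prime := ⟨hp⟩
  have hp0 : (0 : ℝ) < (p : ℝ) := by exact_mod_cast hp.pos
  have hH0 : (0 : ℝ) < (H : ℝ) := by exact_mod_cast hH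
  have hv1 : (cV p v).1 ≠ 0 := fun h => hv ((ZMod.intCast_zmod_eq_zero_iff_dvd _ _).1 h)
  have hw1 : (cV p w).1 ≠ 0 := fun h => hw ((ZMod.intCast_zmod_eq_zero_iff_dvd _ _).1 h)
  have hv0 : cV p v ≠ 0 := fun h => hv1 (by rw [h]; rfl)
  have hw0 : cV p w ≠ 0 := fun h => hw1 (by rw [h]; rfl)
  set Sv : Finset (Option (ZMod p)) := univ.filter fun o : Option (ZMod p) =>
    qv (cV p v) (pt o).1 (pt o).2 = 0 with hSv
  set Sw : Finset (Option (ZMod p)) := univ.filter fun o : Option (ZMod p) =>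
    qv (cV p w) (pt o).1 (pt o).2 = 0 with hSw
  have hSvc : Sv.card ≤ 2 := XA2_zeros (cV p v) hv0 Sv (fun o ho => (mem_filter.1 ho).2)
  have hSwc : Sw.card ≤ 2 := XA2_zeros (cV p w) hw0 Sw (fun o ho => (mem_filter.1 ho).2)
  have hev : ∀ (f : Vn m) (r : ZMod p), FQQ.hv (cN p f) r 1 = 0 → (p : ℤ) ∣ evn f (r.val : ℤ) := by
    intro f r h
    rw [← ZMod.intCast_zmod_eq_zero_iff_dvd, evn_eq, hv_cast]
    simpa using h
  set B : Finset (Vn m) := (boxN m H).filter fun f => ((p : ℤ) ∣ Rs f v ∧ (p : ℤ) ∣ Rs f w) ∧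
    ¬ Pq (cV p v) ∣ Pf (cN p f) ∧ ¬ Pq (cV p w) ∣ Pf (cN p f) with hB
  set T : Option (ZMod p) × Option (ZMod p) → Finset (Vn m) := fun a =>
    (boxN m H).filter fun f => FQQ.hv (cN p f) (pt a.1).1 (pt a.1).2 = 0 ∧
      FQQ.hv (cN p f) (pt a.2).1 (pt a.2).2 = 0 with hT
  have hsub : B ⊆ (Sv ×ˢ Sw).biUnion T := by
    intro f hf
    rw [hB, mem_filter] at hf
    obtain ⟨hfb, ⟨hd1, hd2⟩, hn1, hn2⟩ := hf
    have e1 : Rs (cN p f) (cV p v) = 0 := by
      rw [← Rs_cast]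
      exact (ZMod.intCast_zmod_eq_zero_iff_dvd _ _).2 hd1
    have e2 : Rs (cN p f) (cV p w) = 0 := by
      rw [← Rs_cast]
      exact (ZMod.intCast_zmod_eq_zero_iff_dvd _ _).2 hd2
    obtain ⟨r, hr1, hr2⟩ := XA2_fin hm _ _ hv1 e1 hn1
    obtain ⟨s, hs1, hs2⟩ := XA2_fin hm _ _ hw1 e2 hn2
    refine mem_biUnion.2 ⟨(some r, some s), ?_, ?_⟩
    · rw [mem_product, hSv, hSw, mem_filter, mem_filter]
      exact ⟨⟨mem_univ _, hr2⟩, ⟨mem_univ _, hs2⟩⟩
    · rw [hT]
      simp only [mem_filter]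
      exact ⟨hfb, hr1, hs1⟩
  have hTc : ∀ a ∈ Sv ×ˢ Sw, ((T a).card : ℝ) ≤ (3 * (H : ℝ)) ^ (m - 1) * (2 * (H : ℝ) / p + 1) ^ 2 := by
    rintro ⟨a, b⟩ hab
    rw [mem_product, hSv, hSw, mem_filter, mem_filter] at hab
    obtain ⟨⟨_, ha⟩, ⟨_, hb⟩⟩ := hab
    rcases a with _ | r
    · exfalso
      apply hv1
      simp only [pt, qv] at ha
      simpa using ha
    rcases b with _ | s
    · exfalso
      apply hw1
      simp only [pt, qv] at hb
      simpa using hb
    have hrs : ¬ (p : ℤ) ∣ (r.val : ℤ) - (s.val : ℤ) := by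
      intro h
      have h' : (((r.val : ℤ) - (s.val : ℤ) : ℤ) : ZMod p) = 0 := (ZMod.intCast_zmod_eq_zero_iff_dvd _ _).2 h
      have hrs' : r = s := by
        push_cast at h'
        rw [ZMod.natCast_zmod_val, ZMod.natCast_zmod_val] at h'
        exact sub_eq_zero.1 h'
      apply hr
      rw [← ZMod.intCast_zmod_eq_zero_iff_dvd, rs_cast]
      refine rs_zero_of_root _ _ r 1 (fun h => one_ne_zero h.2) ha ?_
      rw [hrs']
      exact hb
    have hl := lin2 (m := m) hm hH hp (r.val : ℤ) (s.val : ℤ) hrs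
    refine le_trans ?_ hl
    have : (T (some r, some s)).card ≤
        ((boxN m H).filter fun f => (p : ℤ) ∣ evn f (r.val : ℤ) ∧ (p : ℤ) ∣ evn f (s.val : ℤ)).card := by
      refine card_le_card (fun f hf => ?_)
      rw [hT] at hf
      simp only [mem_filter] at hf ⊢
      exact ⟨hf.1, hev f r hf.2.1, hev f s hf.2.2⟩
    exact_mod_cast this
  have hc1 : (B.card : ℝ) ≤ ∑ a ∈ Sv ×ˢ Sw, ((T a).card : ℝ) := by
    have := (card_le_card hsub).trans card_biUnion_le
    exact_mod_cast this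
  calc (B.card : ℝ) ≤ ∑ a ∈ Sv ×ˢ Sw, ((T a).card : ℝ) := hc1
    _ ≤ ∑ _a ∈ Sv ×ˢ Sw, (3 * (H : ℝ)) ^ (m - 1) * (2 * (H : ℝ) / p + 1) ^ 2 := sum_le_sum hTc
    _ = ((Sv.card * Sw.card : ℕ) : ℝ) * ((3 * (H : ℝ)) ^ (m - 1) * (2 * (H : ℝ) / p + 1) ^ 2) := by
        rw [sum_const, card_product, nsmul_eq_mul]
    _ ≤ 4 * ((3 * (H : ℝ)) ^ (m - 1) * (2 * (H : ℝ) / p + 1) ^ 2) := by
        refine mul_le_mul_of_nonneg_right ?_ (by positivity)
        have : Sv.card * Sw.card ≤ 2 * 2 := Nat.mul_le_mul hSvc hSwc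
        exact_mod_cast this

end FQQ
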